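import Mathlib
import Pool.Agent.IRS.Fin1

/-!
# SZ: definitions

All ergodic, almost surely irreducible invariant random subgroups of PSL(2,R) x PSL(2,R) other
than the point mass at the group are lattice IRSs.  See `Pool/Agent/SZ/BLUEPRINT.md`.
-/

set_option autoImplicit false

namespace Pool.Agent.SZ

open Pool.Agent.IRS MeasureTheory Set Filter Topology

/-! ### SL(2,R) -/

/-- Distance to the identity matrix. -/
def d1 (g : SL2R) : ℝ := nM ((g : Matrix (Fin 2) (Fin 2) ℝ) - 1)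

/-- Distance of two matrices. -/
def dm (g h : SL2R) : ℝ := nM ((g : Matrix (Fin 2) (Fin 2) ℝ) - (h : Matrix (Fin 2) (Fin 2) ℝ))

/-- Balls for the entry norm. -/
def Bn (R : ℝ) : Set SL2R := {g | nS g ≤ R}

/-- Half the sum of the squares of the entries; at least one, bi-invariant under rotations. -/
noncomputable def xx (g : SL2R) : ℝ := ((g 0 0) ^ 2 + (g 0 1) ^ 2 + (g 1 0) ^ 2 + (g 1 1) ^ 2) / 2

/-- The ball for `xx`, invariant under rotations on both sides. -/
def Bx (R : ℝ) : Set SL2R := {g | xx g ≤ R}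

/-- Rotations. -/
noncomputable def kk (θ : ℝ) : SL2R :=
  ⟨!![Real.cos θ, Real.sin θ; -Real.sin θ, Real.cos θ], by
    simp [Matrix.det_fin_two, ← sq]⟩

/-- The profile of the averaging density, of class C^2 and supported on `x ≤ 3`. -/
noncomputable def wp (x : ℝ) : ℝ := (max 0 (3 - x)) ^ 3

/-- The normalising constant. -/
noncomputable def wc : ℝ := (∫ g, wp (xx g) ∂mH)⁻¹

/-- The density of the averaging measure. -/
noncomputable def wd (g : SL2R) : ℝ := wc * wp (xx g)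

/-- The averaging measure, bi-invariant under rotations. -/
noncomputable def nuK : Measure SL2R := mH.withDensity (fun g => ENNReal.ofReal (wd g))

/-! ### Conditions on a subgroup of the product -/

/-- A free pair, close to the identity in the first factor. -/
def FreeT (ε T : ℝ) (H : Subgroup G2) : Prop :=
  ∃ p : Fin 2 → G2, (∀ i, p i ∈ H ∧ d1 (p i).1 ≤ ε ∧ nS (p i).2 ≤ T) ∧
    Function.Injective (FreeGroup.lift p : FreeGroup (Fin 2) →* G2)

/-- Polynomial Diophantine condition in the first factor. -/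
def DioT (T : ℝ) (H : Subgroup G2) : Prop :=
  ∀ h ∈ H, h.1 ≠ 1 → T⁻¹ * (nS h.2) ^ (-T) ≤ d1 h.1

/-- The first projection is injective up to the centre. -/
def InjT (H : Subgroup G2) : Prop := ∀ h ∈ H, h.1 = 1 → h.2 ^ 2 = 1

/-- Density of the first projection at scale `δ` in the ball of radius `R`. -/
def Den (δ R T : ℝ) (H : Subgroup G2) : Prop :=
  ∀ Y : SL2R, nS Y ≤ R → ∃ h ∈ H, nM ((h.1 : Matrix (Fin 2) (Fin 2) ℝ) - Y) ≤ δ ∧ nS h.2 ≤ T

/-- Local approximation at all scales with linear cost, on the right of the first factor. -/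
def LocL (R R' C c T : ℝ) (H : Subgroup G2) : Prop :=
  ∃ Q : Finset G2, (Q.card : ℝ) ≤ T ∧ (∀ q ∈ Q, q ∈ H ∧ nS q.1 ≤ T ∧ nS q.2 ≤ T) ∧
    ∀ (k : ℕ) (f : SL2R → ℝ), Measurable f → (∃ M, ∀ b, |f b| ≤ M) →
      ∃ g ∈ H, c * 2⁻¹ ^ k ≤ d1 g.1 ∧ d1 g.1 ≤ 2⁻¹ ^ k ∧
        ∫ b in Bn R, (f (b * g.1) - f b) ^ 2 ∂mH
          ≤ C * (1 + k) * ∑ q ∈ Q, ∫ b in Bn R', (f (b * q.1) - f b) ^ 2 ∂mH

/-! ### Bounded square integrable functions -/

section BL

variable {Z : Type*} [MeasurableSpace Z] {ζ : Measure Z}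

/-- Product of bounded square integrable functions. -/
noncomputable def mulB (f g : BL2 ζ) : BL2 ζ :=
  ⟨fun z => (f : Z → ℝ) z * (g : Z → ℝ) z, (bmeas f).mul (bmeas g), by
    obtain ⟨M, hM⟩ := bbdd f
    obtain ⟨N, hN⟩ := bbdd g
    refine ⟨M * N, fun z => ?_⟩
    rw [abs_mul]
    exact mul_le_mul (hM z) (hN z) (abs_nonneg _) ((abs_nonneg _).trans (hM z)), by
    obtain ⟨M, hM⟩ := bbdd f
    refine ((bsq g).const_mul (M ^ 2)).mono'
      (((bmeas f).mul (bmeas g)).pow_const 2).aestronglyMeasurable ?_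
    filter_upwards with z
    rw [Real.norm_eq_abs, abs_pow, abs_mul, mul_pow, sq_abs ((g : Z → ℝ) z)]
    exact mul_le_mul_of_nonneg_right (pow_le_pow_left₀ (abs_nonneg _) (hM z) 2) (sq_nonneg _)⟩

@[simp] lemma mulB_apply (f g : BL2 ζ) (z : Z) :
    ((mulB f g : BL2 ζ) : Z → ℝ) z = (f : Z → ℝ) z * (g : Z → ℝ) z := rfl

variable [SigmaFinite ζ]

/-- The Markov operator of the product. -/
noncomputable def AA (a b : PAct SL2R ζ) [IsProbabilityMeasure nuK] : Module.End ℝ (BL2 ζ) :=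
  a.P nuK * b.P nuK

/-- One minus the Markov operator. -/
noncomputable def DD (a b : PAct SL2R ζ) [IsProbabilityMeasure nuK] : Module.End ℝ (BL2 ζ) :=
  1 - AA a b

/-- The energy density. -/
noncomputable def gam (a b : PAct SL2R ζ) [IsProbabilityMeasure nuK] (F : BL2 ζ) : BL2 ζ :=
  (2 : ℝ)⁻¹ • (AA a b (mulB F F) - (2 : ℝ) • mulB F (AA a b F) + mulB F F)

/-- The smoothed function. -/
noncomputable def smo (a b : PAct SL2R ζ) [IsProbabilityMeasure nuK] (F : BL2 ζ) : BL2 ζ :=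
  AA a b F

/-- The set of points `y` such that half of the points `c⁻¹ y`, `c` in the ball, lie in `W`. -/
def Wt (a : PAct SL2R ζ) (W : Set Z) : Set Z :=
  {y | mH.real (Bx 2) / 2 ≤ mH.real (Bx 2 ∩ {c | a.τ c⁻¹ y ∈ W})}

/-- Marginal at most one, in dual form. -/
def ClP {X : Type*} [MeasurableSpace X] (μ : Measure X) (π : Z → X) (F : BL2 ζ) : Prop :=
  ∀ u : X → ℝ, Measurable u → (∀ x, 0 ≤ u x) → (∃ M, ∀ x, u x ≤ M) →
    ∫ z, u (π z) * (F : Z → ℝ) z ^ 2 ∂ζ ≤ ∫ x, u x ∂μ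

end BL

end Pool.Agent.SZ
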