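import Mathlib
import Pool.Agent.SZ.Defs

/-!
# SZ: the averaging measure is a probability measure
-/

set_option autoImplicit false

namespace Pool.Agent.SZ

open Pool.Agent.IRS MeasureTheory Set Filter Topology

lemma measurable_xx : Measurable xx := by
  unfold xx
  exact (((((measurable_entry 0 0).pow_const 2).add ((measurable_entry 0 1).pow_const 2)).add
    ((measurable_entry 1 0).pow_const 2)).add ((measurable_entry 1 1).pow_const 2)).div_const 2

lemma xx_nonneg (g : SL2R) : 0 ≤ xx g := by unfold xx; positivity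

lemma one_le_xx (g : SL2R) : 1 ≤ xx g := by
  have h := det_eq g
  unfold xx
  nlinarith [sq_nonneg (g 0 0 - g 1 1), sq_nonneg (g 0 1 + g 1 0)]

lemma nS_sq_le (g : SL2R) : nS g ^ 2 ≤ 8 * xx g := by
  unfold nS nM xx
  have h0 := sq_abs (g 0 0)
  have h1 := sq_abs (g 0 1)
  have h2 := sq_abs (g 1 0)
  have h3 := sq_abs (g 1 1)
  nlinarith [sq_nonneg (|g 0 0| - |g 0 1|), sq_nonneg (|g 0 0| - |g 1 0|),
    sq_nonneg (|g 0 0| - |g 1 1|), sq_nonneg (|g 0 1| - |g 1 0|), sq_nonneg (|g 0 1| - |g 1 1|),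
    sq_nonneg (|g 1 0| - |g 1 1|)]

lemma two_xx_le (g : SL2R) : 2 * xx g ≤ nS g ^ 2 := by
  unfold nS nM xx
  have h0 := sq_abs (g 0 0)
  have h1 := sq_abs (g 0 1)
  have h2 := sq_abs (g 1 0)
  have h3 := sq_abs (g 1 1)
  have p0 := abs_nonneg (g 0 0)
  have p1 := abs_nonneg (g 0 1)
  have p2 := abs_nonneg (g 1 0)
  have p3 := abs_nonneg (g 1 1)
  nlinarith [mul_nonneg p0 p1, mul_nonneg p0 p2, mul_nonneg p0 p3, mul_nonneg p1 p2,
    mul_nonneg p1 p3, mul_nonneg p2 p3]

lemma xx_inv (g : SL2R) : xx g⁻¹ = xx g := by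
  unfold xx
  have e : (g⁻¹ : SL2R) = ⟨!![g 1 1, -g 0 1; -g 1 0, g 0 0], by
      have := det_eq g
      rw [Matrix.det_fin_two]; simp; linarith⟩ := by
    apply Subtype.ext
    rw [Matrix.SpecialLinearGroup.coe_inv, Matrix.adjugate_fin_two]
  rw [e]
  change ((g 1 1) ^ 2 + (-g 0 1) ^ 2 + (-g 1 0) ^ 2 + (g 0 0) ^ 2) / 2 = _
  ring

lemma wp_nonneg (x : ℝ) : 0 ≤ wp x := by unfold wp; positivity

lemma wp_le {x : ℝ} (hx : 1 ≤ x) : wp x ≤ 8 := by
  unfold wp
  have h1 : max 0 (3 - x) ≤ 2 := max_le (by norm_num) (by linarith)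
  have h2 : 0 ≤ max 0 (3 - x) := le_max_left _ _
  calc (max 0 (3 - x)) ^ 3 ≤ 2 ^ 3 := pow_le_pow_left₀ h2 h1 3
    _ = 8 := by norm_num

lemma wp_zero {x : ℝ} (hx : 3 ≤ x) : wp x = 0 := by
  unfold wp
  rw [max_eq_left (by linarith)]; norm_num

lemma continuous_wp : Continuous wp := by
  unfold wp
  exact (continuous_const.max (continuous_const.sub continuous_id)).pow 3

lemma measurable_wp : Measurable wp := continuous_wp.measurable

/-- Open sets have positive measure. -/
lemma mH_open_pos {U : Set SL2R} (hU : IsOpen U) (hne : U.Nonempty) : 0 < mH U := by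
  rw [pos_iff_ne_zero]
  intro h0
  obtain ⟨u, hu⟩ := hne
  have hcov : ∀ g : SL2R, (fun x : SL2R => (u * g⁻¹) * x) ⁻¹' U ∈ 𝓝 g := by
    intro g
    refine (hU.preimage (continuous_const.mul continuous_id)).mem_nhds ?_
    simpa using hu
  obtain ⟨s, hs, hs'⟩ := TopologicalSpace.countable_cover_nhds hcov
  have h1 : mH univ = 0 := by
    rw [← hs']
    refine (measure_biUnion_null_iff hs).2 fun g _ => ?_
    have hm : Measurable (fun x : SL2R => (u * g⁻¹) * x) := measurable_const_mul _
    rw [← Measure.map_apply hm hU.measurableSet, mH_left]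
    exact h0
  exact mH_ne_zero (Measure.measure_univ_eq_zero.1 h1)

lemma wp_integrable : Integrable (fun g => wp (xx g)) mH := by
  have hm : MeasurableSet {g : SL2R | nS g ≤ 5} := measurableSet_le measurable_nS measurable_const
  have h1 : Integrable (Set.indicator {g : SL2R | nS g ≤ 5} (fun _ => (8 : ℝ))) mH :=
    (integrable_indicator_iff hm).2 (integrableOn_const (mH_ball_lt 5).ne)
  refine h1.mono' (measurable_wp.comp measurable_xx).aestronglyMeasurable ?_
  filter_upwards with g
  rw [Real.norm_eq_abs, abs_of_nonneg (wp_nonneg _)]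
  by_cases hg : nS g ≤ 5
  · rw [Set.indicator_of_mem (by exact hg)]; exact wp_le (one_le_xx g)
  · rw [Set.indicator_of_notMem (by exact hg), wp_zero]
    have h2 := nS_sq_le g
    nlinarith [nS_pos g]

lemma xx_one : xx 1 = 1 := by
  unfold xx
  simp

lemma wp_int_pos : 0 < ∫ g, wp (xx g) ∂mH := by
  rw [integral_pos_iff_support_of_nonneg (fun g => wp_nonneg _) wp_integrable]
  have hc : Continuous xx := by
    have hcont : Continuous (fun g : SL2R => (g : Matrix (Fin 2) (Fin 2) ℝ)) :=
      continuous_subtype_val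
    unfold xx
    exact (((((hcont.matrix_elem 0 0).pow 2).add ((hcont.matrix_elem 0 1).pow 2)).add
      ((hcont.matrix_elem 1 0).pow 2)).add ((hcont.matrix_elem 1 1).pow 2)).div_const 2
  have hU : IsOpen {g : SL2R | xx g < 3} := isOpen_lt hc continuous_const
  refine lt_of_lt_of_le (mH_open_pos hU ⟨1, ?_⟩) (measure_mono ?_)
  · change xx 1 < 3
    rw [xx_one]; norm_num
  · intro g hg
    have hg' : xx g < 3 := hg
    rw [Function.mem_support]
    unfold wp
    have : 0 < max 0 (3 - xx g) := lt_max_of_lt_right (by linarith)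
    positivity

lemma wc_pos : 0 < wc := inv_pos.2 wp_int_pos

lemma wd_nonneg (g : SL2R) : 0 ≤ wd g := mul_nonneg wc_pos.le (wp_nonneg _)
lemma wd_le (g : SL2R) : wd g ≤ 8 * wc := by
  unfold wd; nlinarith [wc_pos, wp_le (one_le_xx g)]
lemma measurable_wd : Measurable wd := (measurable_wp.comp measurable_xx).const_mul _
lemma wd_integrable : Integrable wd mH := wp_integrable.const_mul _
lemma wd_int : ∫ g, wd g ∂mH = 1 := by
  unfold wd
  rw [integral_const_mul, wc, inv_mul_cancel₀ wp_int_pos.ne']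

instance instProbNuK : IsProbabilityMeasure nuK := by
  refine ⟨?_⟩
  unfold nuK
  rw [withDensity_apply _ MeasurableSet.univ, Measure.restrict_univ,
    ← ofReal_integral_eq_lintegral_ofReal wd_integrable (by filter_upwards with g; exact wd_nonneg g),
    wd_int, ENNReal.ofReal_one]

lemma nuK_integral (f : SL2R → ℝ) : ∫ g, f g ∂nuK = ∫ g, wd g * f g ∂mH := by
  unfold nuK
  rw [integral_withDensity_eq_integral_toReal_smul measurable_wd.ennreal_ofReal
    (by filter_upwards with g; exact ENNReal.ofReal_lt_top)]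
  congr 1; ext g
  rw [ENNReal.toReal_ofReal (wd_nonneg g), smul_eq_mul]

end Pool.Agent.SZ
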