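import Mathlib
import Pool.Agent.SZ.Nuk

/-!
# SZ part LEG: definitions (spherical averages).  Plan: see `PartLEG.md` and the headers of LEG01 ... LEG11.

`S_g F(z) = (1/2pi) ∫_0^{2pi} F(a(g kk θ) z) dθ`.  Main steps (module names SZ.LEG.nn):

* 01 rotations, `xx (g * kk θ * h) = xx g * xx h + c cos 2θ + s sin 2θ`.
* 02 `∫_0^{2π} f (xx (g * kk θ * h)) dθ = WW f (xx g) (xx h)`; basic facts on `WW`.
* 03 calculus: the radial Laplacian identities.
* 04 `WW wp (cosh r') y - WW wp (cosh r) y = ∫ mm σ t * WW wL (cosh (σ t)) y d(σ, t)`.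
* 05 `∫_0^{2π} RR a f G (a(g kk θ) z) dθ = ∫ WW f (xx g) (xx h) G(h z) dmH(h)`.
* 06 difference formula for `RR`; `∫ wL (xx h) dmH(h) = 0`.
* 07 radial probability measures; 07b: the operators `RR a f` commute.
* 08 displacement of elements with `xx h ≤ 3` is bounded by the energy of `nuK`.
* 09 `|G - A_f G| ≤ C |G - P G|` for every radial probability density `f`.
* 10 Minkowski's inequality.  * 11 growth of `xx`.
-/

set_option autoImplicit false

namespace Pool.Agent.SZ

open Pool.Agent.IRS MeasureTheory Set Filter Topology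

/-- Diagonal matrices with `xx (dd t) = cosh t`. -/
noncomputable def dd (t : ℝ) : SL2R :=
  ⟨!![Real.exp (t / 2), 0; 0, Real.exp (-(t / 2))], by
    simp [Matrix.det_fin_two, ← Real.exp_add]⟩

/-- The product kernel `2π W[f](x,y)`. -/
noncomputable def WW (f : ℝ → ℝ) (x y : ℝ) : ℝ :=
  ∫ θ in (0 : ℝ)..(2 * Real.pi),
    f (x * y + Real.sqrt (x ^ 2 - 1) * Real.sqrt (y ^ 2 - 1) * Real.cos θ)

/-- The derivative of `wp`. -/
noncomputable def wp1 (t : ℝ) : ℝ := -3 * (max 0 (3 - t)) ^ 2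

/-- The radial Laplacian of `wp`: `((t^2-1) wp' t)'`. -/
noncomputable def wL (t : ℝ) : ℝ :=
  6 * (t ^ 2 - 1) * max 0 (3 - t) - 6 * t * (max 0 (3 - t)) ^ 2

/-- The weight in the difference formula. -/
noncomputable def mm (σ t : ℝ) : ℝ := σ * Real.sinh (σ * t) / Real.sinh σ

/-- The measure of the difference formula. -/
noncomputable def mu2 (r r' : ℝ) : Measure (ℝ × ℝ) :=
  (volume.restrict (Ioc r r')).prod (volume.restrict (Ioc 0 1))

/-- Radial profiles. -/
structure Rd (f : ℝ → ℝ) : Prop where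
  cont : Continuous f
  zero : ∀ t, 3 ≤ t → f t = 0

/-- The operator with radial kernel `f`. -/
noncomputable def RR {Z : Type*} [MeasurableSpace Z] {ζ : Measure Z} (a : PAct SL2R ζ)
    (f : ℝ → ℝ) (G : Z → ℝ) (z : Z) : ℝ :=
  ∫ h, f (xx h) * G (a.τ h z) ∂mH

/-- The radial measure with density `f`. -/
noncomputable def rad (f : ℝ → ℝ) : Measure SL2R :=
  mH.withDensity (fun g => ENNReal.ofReal (f (xx g)))

lemma Rd_wp : Rd wp := ⟨continuous_wp, fun _ h => wp_zero h⟩

lemma continuous_wL : Continuous wL := by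
  unfold wL; fun_prop

lemma Rd_wL : Rd wL := ⟨continuous_wL, fun t h => by
  unfold wL
  rw [max_eq_left (by linarith)]; ring⟩

lemma Rd.bdd {f : ℝ → ℝ} (hf : Rd f) : ∃ M : ℝ, 0 ≤ M ∧ ∀ t, 1 ≤ t → |f t| ≤ M := by
  obtain ⟨M, hM⟩ := (isCompact_Icc (a := (1 : ℝ)) (b := 3)).exists_bound_of_continuousOn
    hf.cont.continuousOn
  refine ⟨|M|, abs_nonneg _, fun t ht => ?_⟩
  by_cases h3 : t ≤ 3
  · have := hM t ⟨ht, h3⟩
    rw [Real.norm_eq_abs] at this
    exact this.trans (le_abs_self _)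
  · rw [hf.zero t (by linarith)]; simp

lemma nuK_eq_rad : nuK = rad (fun t => wc * wp t) := rfl

end Pool.Agent.SZ
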