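import Mathlib
import Pool.Agent.SZ.LEGD

/-!
# SZ.LEG.01: rotations and the function `xx`

* `kk s * kk t = kk (s + t)` (addition formulas; use `SL_ext`, `SL_mul_apply`), `kk 0 = 1`, `(kk θ)⁻¹ = kk (-θ)`.
* `xx (g * kk θ * h)`: write `p q; q r` for `gᵀ g` i.e. `p = g00²+g10²`, `q = g00 g01 + g10 g11`, `r = g01²+g11²`, and `p' q'; q' r'` for
  `h hᵀ`: `p' = h00²+h01²`, `q' = h00 h10 + h01 h11`, `r' = h10²+h11²`.  With `α = (p-r)/2`, `β = q`, `α' = (p'-r')/2`, `β' = q'` one has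
  `α² + β² = xx g ² - 1` (as `p r - q² = 1`) and the same for the primed quantities, and expanding
  `xx (g * kk θ * h) = xx g * xx h + (α α' + β β') cos 2θ + (± α β' ∓ β α') sin 2θ`  (fix the sign by expanding;
  `cos 2θ = cos²θ - sin²θ`, `sin 2θ = 2 sinθ cosθ`, `1 = cos²θ + sin²θ`).  With `c, s` the two coefficients,
  `c² + s² = (α²+β²)(α'²+β'²) = (xx g²-1)(xx h²-1)`.
* the other statements are special cases / direct.
-/

set_option autoImplicit false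

namespace Pool.Agent.SZ

open Pool.Agent.IRS MeasureTheory Set Filter Topology

@[simp] lemma kk00 (θ : ℝ) : kk θ 0 0 = Real.cos θ := rfl
@[simp] lemma kk01 (θ : ℝ) : kk θ 0 1 = Real.sin θ := rfl
@[simp] lemma kk10 (θ : ℝ) : kk θ 1 0 = -Real.sin θ := rfl
@[simp] lemma kk11 (θ : ℝ) : kk θ 1 1 = Real.cos θ := rfl

lemma kk_add (s t : ℝ) : kk (s + t) = kk s * kk t := by
  apply SL_ext
  · simp only [SL_mul_apply, kk00, kk01, kk10, kk11, Real.cos_add]; ring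
  · simp only [SL_mul_apply, kk00, kk01, kk10, kk11, Real.sin_add]; ring
  · simp only [SL_mul_apply, kk00, kk01, kk10, kk11, Real.sin_add]; ring
  · simp only [SL_mul_apply, kk00, kk01, kk10, kk11, Real.cos_add]; ring

lemma kk_zero : kk 0 = 1 := by
  apply SL_ext <;> simp

lemma kk_inv (θ : ℝ) : (kk θ)⁻¹ = kk (-θ) := by
  rw [inv_eq_iff_mul_eq_one, ← kk_add, add_neg_cancel, kk_zero]

lemma measurable_kk : Measurable kk := by
  refine measurable_to_SL fun i j => ?_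
  fin_cases i <;> fin_cases j
  · exact Real.measurable_cos
  · exact Real.measurable_sin
  · exact Real.measurable_sin.neg
  · exact Real.measurable_cos

lemma nS_kk_le (θ : ℝ) : nS (kk θ) ≤ 3 := by
  have h : nS (kk θ) = |Real.cos θ| + |Real.sin θ| + |-Real.sin θ| + |Real.cos θ| := rfl
  rw [h, abs_neg]
  have h1 := sq_abs (Real.cos θ)
  have h2 := sq_abs (Real.sin θ)
  have h3 := Real.sin_sq_add_cos_sq θ
  have h4 := abs_nonneg (Real.cos θ)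
  have h5 := abs_nonneg (Real.sin θ)
  nlinarith [sq_nonneg (|Real.cos θ| - |Real.sin θ|), sq_nonneg (|Real.cos θ| + |Real.sin θ| - 3 / 2)]

lemma xx_kk_left (θ : ℝ) (g : SL2R) : xx (kk θ * g) = xx g := by
  have h3 := Real.sin_sq_add_cos_sq θ
  unfold xx
  simp only [SL_mul_apply, kk00, kk01, kk10, kk11]
  linear_combination ((g 0 0) ^ 2 + (g 0 1) ^ 2 + (g 1 0) ^ 2 + (g 1 1) ^ 2) / 2 * h3

lemma xx_kk_right (g : SL2R) (θ : ℝ) : xx (g * kk θ) = xx g := by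
  have h3 := Real.sin_sq_add_cos_sq θ
  unfold xx
  simp only [SL_mul_apply, kk00, kk01, kk10, kk11]
  linear_combination ((g 0 0) ^ 2 + (g 0 1) ^ 2 + (g 1 0) ^ 2 + (g 1 1) ^ 2) / 2 * h3

theorem xx_mid (g h : SL2R) : ∃ c s : ℝ, c ^ 2 + s ^ 2 = (xx g ^ 2 - 1) * (xx h ^ 2 - 1) ∧
    ∀ θ : ℝ, xx (g * kk θ * h) = xx g * xx h + c * Real.cos (2 * θ) + s * Real.sin (2 * θ) := by
  have hg := det_eq g
  have hh := det_eq h
  refine ⟨((g 0 0) ^ 2 + (g 1 0) ^ 2 - ((g 0 1) ^ 2 + (g 1 1) ^ 2)) / 2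
      * (((h 0 0) ^ 2 + (h 0 1) ^ 2 - ((h 1 0) ^ 2 + (h 1 1) ^ 2)) / 2)
      + (g 0 0 * g 0 1 + g 1 0 * g 1 1) * (h 0 0 * h 1 0 + h 0 1 * h 1 1),
    ((g 0 0) ^ 2 + (g 1 0) ^ 2 - ((g 0 1) ^ 2 + (g 1 1) ^ 2)) / 2
      * (h 0 0 * h 1 0 + h 0 1 * h 1 1)
      - (g 0 0 * g 0 1 + g 1 0 * g 1 1)
      * (((h 0 0) ^ 2 + (h 0 1) ^ 2 - ((h 1 0) ^ 2 + (h 1 1) ^ 2)) / 2), ?_, ?_⟩
  · have e1 : (((g 0 0) ^ 2 + (g 1 0) ^ 2 - ((g 0 1) ^ 2 + (g 1 1) ^ 2)) / 2) ^ 2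
        + (g 0 0 * g 0 1 + g 1 0 * g 1 1) ^ 2 = xx g ^ 2 - 1 := by
      have h1 : (g 0 0 * g 1 1 - g 0 1 * g 1 0) ^ 2 = 1 := by rw [hg]; norm_num
      unfold xx
      linear_combination -h1
    have e2 : (((h 0 0) ^ 2 + (h 0 1) ^ 2 - ((h 1 0) ^ 2 + (h 1 1) ^ 2)) / 2) ^ 2
        + (h 0 0 * h 1 0 + h 0 1 * h 1 1) ^ 2 = xx h ^ 2 - 1 := by
      have h1 : (h 0 0 * h 1 1 - h 0 1 * h 1 0) ^ 2 = 1 := by rw [hh]; norm_num
      unfold xx
      linear_combination -h1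
    rw [← e1, ← e2]; ring
  · intro θ
    have h3 := Real.sin_sq_add_cos_sq θ
    rw [Real.cos_two_mul', Real.sin_two_mul]
    unfold xx
    simp only [SL_mul_apply, kk00, kk01, kk10, kk11]
    linear_combination (((g 0 0) ^ 2 + (g 0 1) ^ 2 + (g 1 0) ^ 2 + (g 1 1) ^ 2)
      * ((h 0 0) ^ 2 + (h 0 1) ^ 2 + (h 1 0) ^ 2 + (h 1 1) ^ 2)) / 4 * h3

lemma xx_dd (t : ℝ) : xx (dd t) = Real.cosh t := by
  have h : xx (dd t) = ((Real.exp (t / 2)) ^ 2 + 0 ^ 2 + 0 ^ 2 + (Real.exp (-(t / 2))) ^ 2) / 2 := rfl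
  rw [h, Real.cosh_eq, ← Real.exp_nat_mul, ← Real.exp_nat_mul]
  have e1 : ((2 : ℕ) : ℝ) * (t / 2) = t := by push_cast; ring
  have e2 : ((2 : ℕ) : ℝ) * (-(t / 2)) = -t := by push_cast; ring
  rw [e1, e2]; ring

lemma measurable_dd : Measurable dd := by
  refine measurable_to_SL fun i j => ?_
  fin_cases i <;> fin_cases j
  · change Measurable (fun t : ℝ => Real.exp (t / 2)); fun_prop
  · change Measurable (fun _ : ℝ => (0 : ℝ)); fun_prop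
  · change Measurable (fun _ : ℝ => (0 : ℝ)); fun_prop
  · change Measurable (fun t : ℝ => Real.exp (-(t / 2))); fun_prop

end Pool.Agent.SZ
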