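import Mathlib
import Pool.Agent.SZ.LEG01

/-!
# SZ.LEG.02: the product formula and basic facts on `WW`

* `cos_avg`: if `R = 0` then `c = s = 0`, trivial.  Otherwise choose `φ` with `c = R cos φ`, `s = R sin φ` (e.g. `Complex.arg`), so
  `c cos 2θ + s sin 2θ = R cos (2θ - φ)`; with `F t = f (X + R cos t)` (2π-periodic, continuous)
  `∫_0^{2π} F (2θ - φ) dθ = (1/2) ∫_{-φ}^{4π-φ} F = ∫_0^{2π} F`  (`intervalIntegral.integral_comp_mul_sub`, `Function.Periodic.intervalIntegral_add_eq`).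
* `prod_formula`: `xx_mid` and `cos_avg` with `R = √(xx g²-1) √(xx h²-1)`.
* arguments are `≥ 1`: for `x, y ≥ 1`, `|c| ≤ 1`: `x y + √(x²-1) √(y²-1) c ≥ x y - √(x²-1) √(y²-1) ≥ 1` since `(xy-1)² ≥ (x²-1)(y²-1)`.
* `WW_zero`: for `y ≥ 6 x`: `x y - √((x²-1)(y²-1)) ≥ (x²+y²-1)/(2xy) ≥ y/(2x) ≥ 3`, so the integrand vanishes.
  (elementary: with `m = x y`, `n = √((x²-1)(y²-1)) ≤ m` we have `(m - n)(m + n) = x²+y²-1 ≥ y²` and `m + n ≤ 2 x y`.)
* `WW_cont`: `intervalIntegral.continuous_parametric_intervalIntegral_of_continuous'`.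
* `WW_cosh`: `√(cosh² ρ - 1) = sinh ρ` for `ρ ≥ 0`.
-/

set_option autoImplicit false

namespace Pool.Agent.SZ

open Pool.Agent.IRS MeasureTheory Set Filter Topology

/-- a circle point with given coordinates -/
lemma leg02_phase {c s R : ℝ} (hR : 0 ≤ R) (h : c ^ 2 + s ^ 2 = R ^ 2) :
    ∃ φ : ℝ, c = R * Real.cos φ ∧ s = R * Real.sin φ := by
  refine ⟨Complex.arg ⟨c, s⟩, ?_, ?_⟩
  · have hn : ‖(⟨c, s⟩ : ℂ)‖ = R := by
      rw [Complex.norm_def, Complex.normSq_mk, show c * c + s * s = R ^ 2 by rw [← h]; ring,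
        Real.sqrt_sq hR]
    have := Complex.norm_mul_cos_arg (⟨c, s⟩ : ℂ)
    rw [hn] at this
    exact this.symm
  · have hn : ‖(⟨c, s⟩ : ℂ)‖ = R := by
      rw [Complex.norm_def, Complex.normSq_mk, show c * c + s * s = R ^ 2 by rw [← h]; ring,
        Real.sqrt_sq hR]
    have := Complex.norm_mul_sin_arg (⟨c, s⟩ : ℂ)
    rw [hn] at this
    exact this.symm

theorem cos_avg {f : ℝ → ℝ} (hf : Continuous f) {X c s R : ℝ} (hR : 0 ≤ R)
    (h : c ^ 2 + s ^ 2 = R ^ 2) :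
    ∫ θ in (0 : ℝ)..(2 * Real.pi), f (X + c * Real.cos (2 * θ) + s * Real.sin (2 * θ))
      = ∫ θ in (0 : ℝ)..(2 * Real.pi), f (X + R * Real.cos θ) := by
  obtain ⟨φ, hc, hs⟩ := leg02_phase hR h
  set F : ℝ → ℝ := fun t => f (X + R * Real.cos t) with hF
  have hFc : Continuous F := by fun_prop
  have hper : Function.Periodic F (2 * Real.pi) := by
    intro t; simp only [hF, Real.cos_add_two_pi]
  have h1 : ∀ θ : ℝ, f (X + c * Real.cos (2 * θ) + s * Real.sin (2 * θ)) = F (2 * θ - φ) := by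
    intro θ
    simp only [hF, Real.cos_sub, hc, hs]
    congr 1; ring
  have hint : ∀ u v : ℝ, IntervalIntegrable F volume u v := fun u v => hFc.intervalIntegrable u v
  calc ∫ θ in (0 : ℝ)..(2 * Real.pi), f (X + c * Real.cos (2 * θ) + s * Real.sin (2 * θ))
      = ∫ θ in (0 : ℝ)..(2 * Real.pi), F (2 * θ - φ) := by
        congr 1; funext θ; exact h1 θ
    _ = (2 : ℝ)⁻¹ • ∫ t in (2 * 0 - φ)..(2 * (2 * Real.pi) - φ), F t :=
        intervalIntegral.integral_comp_mul_sub F two_ne_zero φ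
    _ = (2 : ℝ)⁻¹ • ((∫ t in (-φ)..(-φ + 2 * Real.pi), F t)
          + ∫ t in (-φ + 2 * Real.pi)..(-φ + 2 * Real.pi + 2 * Real.pi), F t) := by
        rw [intervalIntegral.integral_add_adjacent_intervals (hint _ _) (hint _ _)]
        congr 2 <;> ring
    _ = ∫ t in (0 : ℝ)..(2 * Real.pi), F t := by
        rw [hper.intervalIntegral_add_eq (-φ) 0, hper.intervalIntegral_add_eq (-φ + 2 * Real.pi) 0]
        simp only [zero_add, smul_eq_mul]; ring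

theorem prod_formula {f : ℝ → ℝ} (hf : Continuous f) (g h : SL2R) :
    ∫ θ in (0 : ℝ)..(2 * Real.pi), f (xx (g * kk θ * h)) = WW f (xx g) (xx h) := by
  obtain ⟨c, s, h1, h2⟩ := xx_mid g h
  have hg : 0 ≤ xx g ^ 2 - 1 := by nlinarith [one_le_xx g]
  have hh : 0 ≤ xx h ^ 2 - 1 := by nlinarith [one_le_xx h]
  have hR : 0 ≤ Real.sqrt (xx g ^ 2 - 1) * Real.sqrt (xx h ^ 2 - 1) := by positivity
  have hR2 : c ^ 2 + s ^ 2 = (Real.sqrt (xx g ^ 2 - 1) * Real.sqrt (xx h ^ 2 - 1)) ^ 2 := by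
    rw [mul_pow, Real.sq_sqrt hg, Real.sq_sqrt hh, h1]
  unfold WW
  rw [← cos_avg hf hR hR2]
  congr 1; funext θ; rw [h2 θ]

lemma WW_symm (f : ℝ → ℝ) (x y : ℝ) : WW f x y = WW f y x := by
  unfold WW
  congr 1; funext θ; congr 1; ring

/-- `√(x²-1) √(y²-1) ≤ x y - 1` -/
lemma leg02_sqrt_le {x y : ℝ} (hx : 1 ≤ x) (hy : 1 ≤ y) :
    Real.sqrt (x ^ 2 - 1) * Real.sqrt (y ^ 2 - 1) ≤ x * y - 1 := by
  have h1 : 0 ≤ x ^ 2 - 1 := by nlinarith
  have hxy : 0 ≤ x * y - 1 := by nlinarith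
  rw [← Real.sqrt_mul h1]
  apply Real.sqrt_le_iff.2
  refine ⟨hxy, ?_⟩
  nlinarith [sq_nonneg (x - y)]

lemma one_le_arg {x y c : ℝ} (hx : 1 ≤ x) (hy : 1 ≤ y) (hc : |c| ≤ 1) :
    1 ≤ x * y + Real.sqrt (x ^ 2 - 1) * Real.sqrt (y ^ 2 - 1) * c := by
  have h := leg02_sqrt_le hx hy
  have h0 : 0 ≤ Real.sqrt (x ^ 2 - 1) * Real.sqrt (y ^ 2 - 1) := by positivity
  have hc' := (abs_le.1 hc).1
  nlinarith

lemma WW_bdd {f : ℝ → ℝ} (hf : Rd f) : ∃ M : ℝ, 0 ≤ M ∧ ∀ x y : ℝ, 1 ≤ x → 1 ≤ y →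
    |WW f x y| ≤ M := by
  obtain ⟨M, hM, hb⟩ := hf.bdd
  refine ⟨M * |2 * Real.pi - 0|, by positivity, fun x y hx hy => ?_⟩
  have := intervalIntegral.norm_integral_le_of_norm_le_const (a := (0 : ℝ)) (b := 2 * Real.pi)
    (C := M) (f := fun θ : ℝ => f (x * y + Real.sqrt (x ^ 2 - 1) * Real.sqrt (y ^ 2 - 1)
      * Real.cos θ)) (fun θ _ => by
        rw [Real.norm_eq_abs]
        exact hb _ (one_le_arg hx hy (Real.abs_cos_le_one θ)))
  rwa [Real.norm_eq_abs] at this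

lemma WW_zero {f : ℝ → ℝ} (hf : Rd f) {x y : ℝ} (hx : 1 ≤ x) (hy : 6 * x ≤ y) : WW f x y = 0 := by
  have hy1 : 1 ≤ y := by linarith
  unfold WW
  have : ∀ θ : ℝ, f (x * y + Real.sqrt (x ^ 2 - 1) * Real.sqrt (y ^ 2 - 1) * Real.cos θ) = 0 := by
    intro θ
    apply hf.zero
    have h1 : 0 ≤ x ^ 2 - 1 := by nlinarith
    have h2 : 0 ≤ y ^ 2 - 1 := by nlinarith
    set n := Real.sqrt (x ^ 2 - 1) * Real.sqrt (y ^ 2 - 1) with hn
    have hn0 : 0 ≤ n := by positivity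
    have hn2 : n ^ 2 = (x ^ 2 - 1) * (y ^ 2 - 1) := by
      rw [hn, mul_pow, Real.sq_sqrt h1, Real.sq_sqrt h2]
    have hnm : n ≤ x * y - 1 := leg02_sqrt_le hx hy1
    have hcos : -1 ≤ Real.cos θ := Real.neg_one_le_cos θ
    have hge : x * y - n ≤ x * y + n * Real.cos θ := by nlinarith
    have h3 : 3 ≤ x * y - n := by
      by_contra hlt
      push Not at hlt
      have hs : (x * y - n) * (x * y + n) = x ^ 2 + y ^ 2 - 1 := by nlinarith
      have hxy : 0 < x * y := by positivity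
      have h4 : (x * y - n) * (x * y + n) ≤ 3 * (2 * (x * y)) := by
        have : 0 ≤ x * y - n := by linarith
        nlinarith
      nlinarith
    linarith
  simp [this]

lemma WW_cont {f : ℝ → ℝ} (hf : Continuous f) : Continuous (fun p : ℝ × ℝ => WW f p.1 p.2) := by
  unfold WW
  apply intervalIntegral.continuous_parametric_intervalIntegral_of_continuous'
  fun_prop

lemma WW_cosh (f : ℝ → ℝ) {ρ : ℝ} (hρ : 0 ≤ ρ) (y : ℝ) :
    WW f (Real.cosh ρ) y = ∫ θ in (0 : ℝ)..(2 * Real.pi),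
      f (Real.cosh ρ * y + Real.sinh ρ * Real.sqrt (y ^ 2 - 1) * Real.cos θ) := by
  unfold WW
  have : Real.sqrt (Real.cosh ρ ^ 2 - 1) = Real.sinh ρ := by
    rw [Real.cosh_sq, add_sub_cancel_right, Real.sqrt_sq (Real.sinh_nonneg_iff.2 hρ)]
  rw [this]

end Pool.Agent.SZ
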