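import Mathlib
import Pool.Agent.SZ.LEGD

/-!
# SZ.LEG.03: calculus for the radial Laplacian  (independent of LEG01, LEG02)

`wp t = (max 0 (3-t))^3` is C^2 with `wp' = wp1`, `wp1' = 6 max 0 (3-t)`.
(derivative of `max 0 s ^ (n+1)` for `n ≥ 1`: at `s ≠ 0` locally a polynomial; at `0` the quotient tends to `0`.)

Fix `y, q` with `y² = 1 + q²`; `ξ(σ,θ) = cosh σ y + sinh σ q cos θ`, `ξ_σ = sinh σ y + cosh σ q cos θ`, `ξ_σσ = ξ`, `ξ_θ = - sinh σ q sin θ`.

* `radial_diff`: for each θ, `wp(ξ(r',θ)) - wp(ξ(r,θ)) = ∫_r^{r'} wp1(ξ) ξ_σ dσ`; integrate over θ and exchange (Fubini for continuous functions on a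
  rectangle, e.g. `intervalIntegral_integral_swap` / `MeasureTheory.integral_integral_swap`).
* `radial_int`: for each θ, `Φ_θ(σ) = wp1(ξ) sinh σ ξ_σ` vanishes at `σ = 0` and has derivative
  `wp1'(ξ) sinh σ ξ_σ² + wp1(ξ) (cosh σ ξ_σ + sinh σ ξ)`; so `Φ_θ(σ) = ∫_0^σ (...) dρ`; integrate over θ and exchange.  For each `ρ`:
  `∫_0^{2π} [wp1'(ξ) sinh ρ ξ_ρ² + wp1(ξ)(cosh ρ ξ_ρ + sinh ρ ξ)] dθ = sinh ρ ∫_0^{2π} wL(ξ) dθ`, because
  - `ξ² - 1 = ξ_ρ² + q² sin²θ`,
  - `d/dθ [wp1(ξ) (- q sin θ)] = wp1'(ξ) sinh ρ q² sin²θ - wp1(ξ) q cos θ` has integral zero over a period,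
  - `cosh ρ ξ_ρ + sinh ρ ξ - q cos θ = 2 sinh ρ ξ`,
  - `wL(t) = (t²-1) wp1'(t) + 2 t wp1(t)`.
-/

set_option autoImplicit false

namespace Pool.Agent.SZ

open Pool.Agent.IRS MeasureTheory Set Filter Topology

/-- Derivative of powers of the positive part. -/
lemma hasDerivAt_max_pow (n : ℕ) (s : ℝ) :
    HasDerivAt (fun s : ℝ => (max 0 s) ^ (n + 2)) (((n + 2 : ℕ) : ℝ) * (max 0 s) ^ (n + 1)) s := by
  rcases lt_trichotomy s 0 with hs | hs | hs
  · have h1 : (fun s : ℝ => (max 0 s) ^ (n + 2)) =ᶠ[𝓝 s] fun _ => (0 : ℝ) := by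
      filter_upwards [gt_mem_nhds hs] with x hx
      rw [max_eq_left hx.le, zero_pow (by omega)]
    rw [max_eq_left hs.le, zero_pow (by omega), mul_zero]
    exact (hasDerivAt_const s (0 : ℝ)).congr_of_eventuallyEq h1
  · subst hs
    rw [hasDerivAt_iff_isLittleO_nhds_zero]
    have h2 : (fun h : ℝ => (max 0 (0 + h)) ^ (n + 2) - (max 0 (0 : ℝ)) ^ (n + 2)
        - h • ((((n + 2 : ℕ) : ℝ)) * (max 0 (0 : ℝ)) ^ (n + 1)))
        = fun h : ℝ => (max 0 h) ^ (n + 2) := by
      funext h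
      rw [max_self, zero_pow (by omega), zero_pow (by omega)]
      simp
    rw [h2]
    have h3 : (fun h : ℝ => (max 0 h) ^ (n + 2)) =O[𝓝 0] fun h : ℝ => h ^ (n + 2) := by
      refine Asymptotics.IsBigO.of_bound 1 (Eventually.of_forall fun h => ?_)
      rw [one_mul, norm_pow, norm_pow]
      refine pow_le_pow_left₀ (norm_nonneg _) ?_ _
      rw [Real.norm_eq_abs, Real.norm_eq_abs, abs_of_nonneg (le_max_left _ _)]
      exact max_le (abs_nonneg _) (le_abs_self _)
    exact h3.trans_isLittleO (Asymptotics.isLittleO_pow_id (by omega))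
  · have h1 : (fun s : ℝ => (max 0 s) ^ (n + 2)) =ᶠ[𝓝 s] fun x => x ^ (n + 2) := by
      filter_upwards [lt_mem_nhds hs] with x hx
      rw [max_eq_right hx.le]
    rw [max_eq_right hs.le]
    have h2 := hasDerivAt_pow (n + 2) s
    have e : n + 2 - 1 = n + 1 := by omega
    rw [e] at h2
    exact h2.congr_of_eventuallyEq h1

lemma hasDerivAt_sub3 (t : ℝ) : HasDerivAt (fun x : ℝ => 3 - x) (-1) t := by
  simpa using (hasDerivAt_id t).const_sub 3

lemma hasDerivAt_wp (t : ℝ) : HasDerivAt wp (wp1 t) t := by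
  have h1 : HasDerivAt (fun x : ℝ => (max 0 (3 - x)) ^ (1 + 2))
      (((1 + 2 : ℕ) : ℝ) * (max 0 (3 - t)) ^ (1 + 1) * (-1)) t :=
    HasDerivAt.comp t (hasDerivAt_max_pow 1 (3 - t)) (hasDerivAt_sub3 t)
  have h2 : (fun x : ℝ => (max 0 (3 - x)) ^ (1 + 2)) = wp := by
    funext x
    simp [wp]
  rw [h2] at h1
  refine h1.congr_deriv ?_
  unfold wp1
  norm_num

lemma hasDerivAt_wp1 (t : ℝ) : HasDerivAt wp1 (6 * max 0 (3 - t)) t := by
  have h1 : HasDerivAt (fun x : ℝ => (max 0 (3 - x)) ^ (0 + 2))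
      (((0 + 2 : ℕ) : ℝ) * (max 0 (3 - t)) ^ (0 + 1) * (-1)) t :=
    HasDerivAt.comp t (hasDerivAt_max_pow 0 (3 - t)) (hasDerivAt_sub3 t)
  have h3 : HasDerivAt (fun x : ℝ => -3 * (max 0 (3 - x)) ^ (0 + 2))
      (-3 * (((0 + 2 : ℕ) : ℝ) * (max 0 (3 - t)) ^ (0 + 1) * (-1))) t :=
    h1.const_mul (-3)
  have h2 : (fun x : ℝ => -3 * (max 0 (3 - x)) ^ (0 + 2)) = wp1 := by
    funext x
    simp [wp1]
  rw [h2] at h3
  refine h3.congr_deriv ?_
  norm_num
  try ring

lemma continuous_wp1 : Continuous wp1 := by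
  unfold wp1; fun_prop

lemma swap_rect (F : ℝ → ℝ → ℝ) (hF : Continuous (Function.uncurry F)) (a b c d : ℝ) :
    ∫ x in a..b, ∫ y in c..d, F x y = ∫ y in c..d, ∫ x in a..b, F x y := by
  apply intervalIntegral_intervalIntegral_swap
  have hK : IsCompact (uIcc a b ×ˢ uIcc c d) := isCompact_uIcc.prod isCompact_uIcc
  exact (hF.continuousOn.integrableOn_compact hK).mono_set
    (prod_mono uIoc_subset_uIcc uIoc_subset_uIcc)

theorem radial_diff (y q r r' : ℝ) :
    (∫ θ in (0 : ℝ)..(2 * Real.pi), wp (Real.cosh r' * y + Real.sinh r' * q * Real.cos θ))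
      - ∫ θ in (0 : ℝ)..(2 * Real.pi), wp (Real.cosh r * y + Real.sinh r * q * Real.cos θ)
      = ∫ σ in r..r', ∫ θ in (0 : ℝ)..(2 * Real.pi),
          wp1 (Real.cosh σ * y + Real.sinh σ * q * Real.cos θ)
            * (Real.sinh σ * y + Real.cosh σ * q * Real.cos θ) := by
  have hwp : Continuous wp := continuous_wp
  have hwp1 : Continuous wp1 := continuous_wp1
  rw [swap_rect (fun σ θ => wp1 (Real.cosh σ * y + Real.sinh σ * q * Real.cos θ)
            * (Real.sinh σ * y + Real.cosh σ * q * Real.cos θ)) (by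
      unfold Function.uncurry; fun_prop)]
  rw [← intervalIntegral.integral_sub]
  · refine intervalIntegral.integral_congr fun θ _ => ?_
    have hd : ∀ σ, HasDerivAt (fun σ => wp (Real.cosh σ * y + Real.sinh σ * q * Real.cos θ))
        (wp1 (Real.cosh σ * y + Real.sinh σ * q * Real.cos θ)
            * (Real.sinh σ * y + Real.cosh σ * q * Real.cos θ)) σ := by
      intro σ
      have h1 : HasDerivAt (fun σ => Real.cosh σ * y + Real.sinh σ * q * Real.cos θ)
          (Real.sinh σ * y + Real.cosh σ * q * Real.cos θ) σ :=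
        ((Real.hasDerivAt_cosh σ).mul_const y).add
          (((Real.hasDerivAt_sinh σ).mul_const q).mul_const (Real.cos θ))
      exact (hasDerivAt_wp _).comp σ h1
    have hc : Continuous (fun σ => wp1 (Real.cosh σ * y + Real.sinh σ * q * Real.cos θ)
            * (Real.sinh σ * y + Real.cosh σ * q * Real.cos θ)) := by fun_prop
    rw [intervalIntegral.integral_eq_sub_of_hasDerivAt (fun σ _ => hd σ)
      (hc.intervalIntegrable _ _)]
  · exact Continuous.intervalIntegrable (by fun_prop) _ _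
  · exact Continuous.intervalIntegrable (by fun_prop) _ _

/-- The identity for one `ρ`. -/
lemma radial_one {y q : ℝ} (h : y ^ 2 = 1 + q ^ 2) (ρ : ℝ) :
    (∫ θ in (0 : ℝ)..(2 * Real.pi),
      ((6 * max 0 (3 - (Real.cosh ρ * y + Real.sinh ρ * q * Real.cos θ))) * Real.sinh ρ
          * (Real.sinh ρ * y + Real.cosh ρ * q * Real.cos θ) ^ 2
        + wp1 (Real.cosh ρ * y + Real.sinh ρ * q * Real.cos θ)
          * (Real.cosh ρ * (Real.sinh ρ * y + Real.cosh ρ * q * Real.cos θ)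
            + Real.sinh ρ * (Real.cosh ρ * y + Real.sinh ρ * q * Real.cos θ))))
      = Real.sinh ρ * ∫ θ in (0 : ℝ)..(2 * Real.pi),
          wL (Real.cosh ρ * y + Real.sinh ρ * q * Real.cos θ) := by
  have hwp1 : Continuous wp1 := continuous_wp1
  have hwL : Continuous wL := continuous_wL
  rw [← intervalIntegral.integral_const_mul]
  -- the difference is the derivative of a periodic function
  have hd : ∀ θ, HasDerivAt (fun θ => wp1 (Real.cosh ρ * y + Real.sinh ρ * q * Real.cos θ)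
        * (q * Real.sin θ))
      ((6 * max 0 (3 - (Real.cosh ρ * y + Real.sinh ρ * q * Real.cos θ)))
          * (Real.sinh ρ * q * (-Real.sin θ)) * (q * Real.sin θ)
        + wp1 (Real.cosh ρ * y + Real.sinh ρ * q * Real.cos θ) * (q * Real.cos θ)) θ := by
    intro θ
    have h1 : HasDerivAt (fun θ => Real.cosh ρ * y + Real.sinh ρ * q * Real.cos θ)
        (Real.sinh ρ * q * (-Real.sin θ)) θ :=
      ((Real.hasDerivAt_cos θ).const_mul (Real.sinh ρ * q)).const_add (Real.cosh ρ * y)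
    exact ((hasDerivAt_wp1 _).comp θ h1).mul ((Real.hasDerivAt_sin θ).const_mul q)
  have hc : Continuous (fun θ => (6 * max 0 (3 - (Real.cosh ρ * y + Real.sinh ρ * q * Real.cos θ)))
          * (Real.sinh ρ * q * (-Real.sin θ)) * (q * Real.sin θ)
        + wp1 (Real.cosh ρ * y + Real.sinh ρ * q * Real.cos θ) * (q * Real.cos θ)) := by fun_prop
  have h0 := intervalIntegral.integral_eq_sub_of_hasDerivAt (a := (0 : ℝ)) (b := 2 * Real.pi)
    (fun θ _ => hd θ) (hc.intervalIntegrable _ _)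
  rw [Real.sin_two_pi, Real.sin_zero, mul_zero, mul_zero, mul_zero, sub_zero] at h0
  refine sub_eq_zero.mp ?_
  rw [← intervalIntegral.integral_sub (Continuous.intervalIntegrable (by fun_prop) _ _)
    (Continuous.intervalIntegrable (by fun_prop) _ _)]
  refine Eq.trans ?_ h0
  refine intervalIntegral.integral_congr fun θ _ => ?_
  have hsc : Real.sin θ ^ 2 = 1 - Real.cos θ ^ 2 := by
    have := Real.sin_sq_add_cos_sq θ; linarith
  have hch : Real.cosh ρ ^ 2 = 1 + Real.sinh ρ ^ 2 := by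
    have := Real.cosh_sq ρ; linarith
  simp only [wL, wp1]
  set m := max 0 (3 - (Real.cosh ρ * y + Real.sinh ρ * q * Real.cos θ)) with hm
  set C := Real.cosh ρ
  set S := Real.sinh ρ
  set c := Real.cos θ
  set s := Real.sin θ
  have e1 : (C * y + S * q * c) ^ 2 - 1 = (S * y + C * q * c) ^ 2 + q ^ 2 * s ^ 2 := by
    have : (C * y + S * q * c) ^ 2 - (S * y + C * q * c) ^ 2
        = (C ^ 2 - S ^ 2) * (y ^ 2 - q ^ 2 * c ^ 2) := by ring
    rw [hch, h] at this
    rw [hsc]
    linarith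
  have e2 : C * (S * y + C * q * c) + S * (C * y + S * q * c)
      = 2 * S * (C * y + S * q * c) + q * c := by
    have : C * (S * y + C * q * c) + S * (C * y + S * q * c) - 2 * S * (C * y + S * q * c)
      = (C ^ 2 - S ^ 2) * (q * c) := by ring
    rw [hch] at this
    linarith
  rw [e2, e1]
  ring

theorem radial_int {y q : ℝ} (h : y ^ 2 = 1 + q ^ 2) (σ : ℝ) :
    Real.sinh σ * ∫ θ in (0 : ℝ)..(2 * Real.pi),
          wp1 (Real.cosh σ * y + Real.sinh σ * q * Real.cos θ)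
            * (Real.sinh σ * y + Real.cosh σ * q * Real.cos θ)
      = ∫ ρ in (0 : ℝ)..σ, Real.sinh ρ * ∫ θ in (0 : ℝ)..(2 * Real.pi),
          wL (Real.cosh ρ * y + Real.sinh ρ * q * Real.cos θ) := by
  have hwp1 : Continuous wp1 := continuous_wp1
  have e1 : (∫ ρ in (0 : ℝ)..σ, Real.sinh ρ * ∫ θ in (0 : ℝ)..(2 * Real.pi),
          wL (Real.cosh ρ * y + Real.sinh ρ * q * Real.cos θ))
      = ∫ ρ in (0 : ℝ)..σ, ∫ θ in (0 : ℝ)..(2 * Real.pi),
      ((6 * max 0 (3 - (Real.cosh ρ * y + Real.sinh ρ * q * Real.cos θ))) * Real.sinh ρ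
          * (Real.sinh ρ * y + Real.cosh ρ * q * Real.cos θ) ^ 2
        + wp1 (Real.cosh ρ * y + Real.sinh ρ * q * Real.cos θ)
          * (Real.cosh ρ * (Real.sinh ρ * y + Real.cosh ρ * q * Real.cos θ)
            + Real.sinh ρ * (Real.cosh ρ * y + Real.sinh ρ * q * Real.cos θ))) :=
    intervalIntegral.integral_congr fun ρ _ => (radial_one h ρ).symm
  rw [e1, swap_rect (fun ρ θ =>
      ((6 * max 0 (3 - (Real.cosh ρ * y + Real.sinh ρ * q * Real.cos θ))) * Real.sinh ρ
          * (Real.sinh ρ * y + Real.cosh ρ * q * Real.cos θ) ^ 2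
        + wp1 (Real.cosh ρ * y + Real.sinh ρ * q * Real.cos θ)
          * (Real.cosh ρ * (Real.sinh ρ * y + Real.cosh ρ * q * Real.cos θ)
            + Real.sinh ρ * (Real.cosh ρ * y + Real.sinh ρ * q * Real.cos θ)))) (by
      unfold Function.uncurry; fun_prop), ← intervalIntegral.integral_const_mul]
  refine intervalIntegral.integral_congr fun θ _ => ?_
  have hd : ∀ ρ, HasDerivAt (fun ρ => Real.sinh ρ
        * (wp1 (Real.cosh ρ * y + Real.sinh ρ * q * Real.cos θ)
          * (Real.sinh ρ * y + Real.cosh ρ * q * Real.cos θ)))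
      ((6 * max 0 (3 - (Real.cosh ρ * y + Real.sinh ρ * q * Real.cos θ))) * Real.sinh ρ
          * (Real.sinh ρ * y + Real.cosh ρ * q * Real.cos θ) ^ 2
        + wp1 (Real.cosh ρ * y + Real.sinh ρ * q * Real.cos θ)
          * (Real.cosh ρ * (Real.sinh ρ * y + Real.cosh ρ * q * Real.cos θ)
            + Real.sinh ρ * (Real.cosh ρ * y + Real.sinh ρ * q * Real.cos θ))) ρ := by
    intro ρ
    have h1 : HasDerivAt (fun σ => Real.cosh σ * y + Real.sinh σ * q * Real.cos θ)
        (Real.sinh ρ * y + Real.cosh ρ * q * Real.cos θ) ρ :=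
      ((Real.hasDerivAt_cosh ρ).mul_const y).add
        (((Real.hasDerivAt_sinh ρ).mul_const q).mul_const (Real.cos θ))
    have h2 : HasDerivAt (fun σ => Real.sinh σ * y + Real.cosh σ * q * Real.cos θ)
        (Real.cosh ρ * y + Real.sinh ρ * q * Real.cos θ) ρ :=
      ((Real.hasDerivAt_sinh ρ).mul_const y).add
        (((Real.hasDerivAt_cosh ρ).mul_const q).mul_const (Real.cos θ))
    have h3 : HasDerivAt (fun σ => wp1 (Real.cosh σ * y + Real.sinh σ * q * Real.cos θ))
        (6 * max 0 (3 - (Real.cosh ρ * y + Real.sinh ρ * q * Real.cos θ))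
          * (Real.sinh ρ * y + Real.cosh ρ * q * Real.cos θ)) ρ :=
      HasDerivAt.comp (h₂ := wp1) ρ (hasDerivAt_wp1 _) h1
    have h4 : HasDerivAt (fun σ => wp1 (Real.cosh σ * y + Real.sinh σ * q * Real.cos θ)
          * (Real.sinh σ * y + Real.cosh σ * q * Real.cos θ))
        (6 * max 0 (3 - (Real.cosh ρ * y + Real.sinh ρ * q * Real.cos θ))
          * (Real.sinh ρ * y + Real.cosh ρ * q * Real.cos θ)
          * (Real.sinh ρ * y + Real.cosh ρ * q * Real.cos θ)
        + wp1 (Real.cosh ρ * y + Real.sinh ρ * q * Real.cos θ)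
          * (Real.cosh ρ * y + Real.sinh ρ * q * Real.cos θ)) ρ := h3.mul h2
    have h5 : HasDerivAt (fun σ => Real.sinh σ
        * (wp1 (Real.cosh σ * y + Real.sinh σ * q * Real.cos θ)
          * (Real.sinh σ * y + Real.cosh σ * q * Real.cos θ)))
        (Real.cosh ρ * (wp1 (Real.cosh ρ * y + Real.sinh ρ * q * Real.cos θ)
          * (Real.sinh ρ * y + Real.cosh ρ * q * Real.cos θ))
        + Real.sinh ρ * (6 * max 0 (3 - (Real.cosh ρ * y + Real.sinh ρ * q * Real.cos θ))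
          * (Real.sinh ρ * y + Real.cosh ρ * q * Real.cos θ)
          * (Real.sinh ρ * y + Real.cosh ρ * q * Real.cos θ)
        + wp1 (Real.cosh ρ * y + Real.sinh ρ * q * Real.cos θ)
          * (Real.cosh ρ * y + Real.sinh ρ * q * Real.cos θ))) ρ :=
      (Real.hasDerivAt_sinh ρ).mul h4
    refine h5.congr_deriv ?_
    ring
  have hc : Continuous (fun ρ =>
      (6 * max 0 (3 - (Real.cosh ρ * y + Real.sinh ρ * q * Real.cos θ))) * Real.sinh ρ
          * (Real.sinh ρ * y + Real.cosh ρ * q * Real.cos θ) ^ 2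
        + wp1 (Real.cosh ρ * y + Real.sinh ρ * q * Real.cos θ)
          * (Real.cosh ρ * (Real.sinh ρ * y + Real.cosh ρ * q * Real.cos θ)
            + Real.sinh ρ * (Real.cosh ρ * y + Real.sinh ρ * q * Real.cos θ))) := by fun_prop
  have h0 := intervalIntegral.integral_eq_sub_of_hasDerivAt (a := (0 : ℝ)) (b := σ)
    (fun ρ _ => hd ρ) (hc.intervalIntegrable _ _)
  rw [Real.sinh_zero, zero_mul, sub_zero] at h0
  exact h0.symm

end Pool.Agent.SZ
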