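import Mathlib
import Pool.Agent.SZ.LEG02
import Pool.Agent.SZ.LEG03

/-!
# SZ.LEG.04: the difference formula for `WW wp`

`mm σ t = σ sinh(σ t) / sinh σ`, `mu2 r r' = Lebesgue on (r, r'] × (0, 1]`.

* `mm_nonneg`, `mm_le`: `sinh` is monotone.  `mm_int_le`: `∫_0^1 mm σ t dt = (cosh σ - 1)/sinh σ ≤ 1` for `σ > 0`
  (`sinh² σ = (cosh σ - 1)(cosh σ + 1) ≥ (cosh σ - 1)²`), then `integral_prod`.  `mm_int_pos`: positive integrand.
* `WW_diff`: `radial_diff` with `q = √(y²-1)`, and for `σ > 0` by `radial_int` and the substitution `ρ = σ t`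
  (`intervalIntegral.integral_comp_mul_left` and variants)
  `∫_θ wp1(ξ) ξ_σ = (sinh σ)⁻¹ ∫_0^σ sinh ρ (∫_θ wL) dρ = ∫_0^1 mm σ t * WW wL (cosh (σ t)) y dt`; finally `integral_prod`
  (the integrand is bounded by `r' M` on the finite measure space, `WW_bdd`, measurable by `WW_cont`).
-/

set_option autoImplicit false

namespace Pool.Agent.SZ

open Pool.Agent.IRS MeasureTheory Set Filter Topology

lemma measurable_mm : Measurable (fun p : ℝ × ℝ => mm p.1 p.2) := by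
  unfold mm
  have h1 : Measurable (fun p : ℝ × ℝ => p.1 * Real.sinh (p.1 * p.2)) := by
    have : Continuous (fun p : ℝ × ℝ => p.1 * Real.sinh (p.1 * p.2)) := by fun_prop
    exact this.measurable
  have h2 : Measurable (fun p : ℝ × ℝ => Real.sinh p.1) := by
    have : Continuous (fun p : ℝ × ℝ => Real.sinh p.1) := by fun_prop
    exact this.measurable
  exact h1.div h2

lemma mm_nonneg {σ t : ℝ} (hσ : 0 < σ) (ht : 0 ≤ t) : 0 ≤ mm σ t := by
  unfold mm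
  exact div_nonneg (mul_nonneg hσ.le (Real.sinh_nonneg_iff.2 (mul_nonneg hσ.le ht)))
    (Real.sinh_nonneg_iff.2 hσ.le)

lemma mm_le {σ t : ℝ} (hσ : 0 < σ) (ht : t ≤ 1) : mm σ t ≤ σ := by
  unfold mm
  rw [div_le_iff₀ (Real.sinh_pos_iff.2 hσ)]
  refine mul_le_mul_of_nonneg_left ?_ hσ.le
  refine Real.sinh_le_sinh.2 ?_
  nlinarith

instance (r r' : ℝ) : IsFiniteMeasure (mu2 r r') := by
  unfold mu2; infer_instance

lemma mu2_ae (r r' : ℝ) : ∀ᵐ p ∂(mu2 r r'), p.1 ∈ Ioc r r' ∧ p.2 ∈ Ioc (0 : ℝ) 1 := by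
  unfold mu2
  rw [Measure.prod_restrict]
  filter_upwards [ae_restrict_mem (measurableSet_Ioc.prod measurableSet_Ioc)] with p hp
  exact hp

lemma mm_integrable {r : ℝ} (hr : 0 ≤ r) (r' : ℝ) :
    Integrable (fun p : ℝ × ℝ => mm p.1 p.2) (mu2 r r') := by
  refine Integrable.of_bound measurable_mm.aestronglyMeasurable r' ?_
  filter_upwards [mu2_ae r r'] with p hp
  obtain ⟨h1, h2⟩ := hp
  have hσ : 0 < p.1 := lt_of_le_of_lt hr h1.1
  rw [Real.norm_eq_abs, abs_of_nonneg (mm_nonneg hσ h2.1.le)]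
  exact (mm_le hσ h2.2).trans h1.2

lemma mm_ae_nonneg {r : ℝ} (hr : 0 ≤ r) (r' : ℝ) : ∀ᵐ p ∂(mu2 r r'), 0 ≤ mm p.1 p.2 := by
  filter_upwards [mu2_ae r r'] with p hp
  exact mm_nonneg (lt_of_le_of_lt hr hp.1.1) hp.2.1.le

lemma mm_inner {σ : ℝ} (_hσ : 0 < σ) :
    ∫ t in Ioc (0 : ℝ) 1, mm σ t = (Real.cosh σ - 1) / Real.sinh σ := by
  rw [← intervalIntegral.integral_of_le (zero_le_one)]
  have h1 : ∀ t ∈ Set.uIcc (0 : ℝ) 1, HasDerivAt (fun t => Real.cosh (σ * t) / Real.sinh σ)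
      (mm σ t) t := by
    intro t _
    have h2 : HasDerivAt (fun t : ℝ => σ * t) (σ * 1) t := (hasDerivAt_id t).const_mul σ
    have h3 := (h2.cosh).div_const (Real.sinh σ)
    refine h3.congr_deriv ?_
    unfold mm; ring
  rw [intervalIntegral.integral_eq_sub_of_hasDerivAt h1]
  · simp; ring
  · have : Continuous (fun t => mm σ t) := by
      unfold mm; fun_prop
    exact this.intervalIntegrable _ _

lemma mm_inner_le {σ : ℝ} (hσ : 0 < σ) : ∫ t in Ioc (0 : ℝ) 1, mm σ t ≤ 1 := by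
  rw [mm_inner hσ, div_le_one (Real.sinh_pos_iff.2 hσ)]
  have h1 := Real.cosh_sq σ
  have h2 := Real.sinh_pos_iff.2 hσ
  have h3 := Real.one_le_cosh σ
  nlinarith

lemma mm_int_le {r r' : ℝ} (hr : 0 ≤ r) (hrr : r ≤ r') :
    ∫ p, mm p.1 p.2 ∂(mu2 r r') ≤ r' - r := by
  have hi := mm_integrable hr r'
  unfold mu2 at hi ⊢
  rw [integral_prod _ hi]
  have h1 : ∫ σ in Ioc r r', (1 : ℝ) = r' - r := by
    simp [hrr]
  rw [← h1]
  refine integral_mono_ae hi.integral_prod_left (by simp) ?_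
  filter_upwards [ae_restrict_mem measurableSet_Ioc] with σ hσ
  exact mm_inner_le (lt_of_le_of_lt hr hσ.1)

lemma mm_int_pos : 0 < ∫ p, mm p.1 p.2 ∂(mu2 0 1) := by
  rw [integral_pos_iff_support_of_nonneg_ae (mm_ae_nonneg le_rfl 1) (mm_integrable le_rfl 1)]
  have h1 : Ioc (0 : ℝ) 1 ×ˢ Ioc (0 : ℝ) 1 ⊆ Function.support (fun p : ℝ × ℝ => mm p.1 p.2) := by
    rintro ⟨σ, t⟩ ⟨h1, h2⟩
    rw [Function.mem_support]
    have hσ : 0 < σ := h1.1
    have ht : 0 < t := h2.1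
    show mm σ t ≠ 0
    unfold mm
    exact (div_pos (mul_pos hσ (Real.sinh_pos_iff.2 (mul_pos hσ ht)))
      (Real.sinh_pos_iff.2 hσ)).ne'
  refine lt_of_lt_of_le ?_ (measure_mono h1)
  unfold mu2
  rw [Measure.prod_prod]
  simp

lemma WW_inner {y : ℝ} (hy : 1 ≤ y) {σ : ℝ} (hσ : 0 < σ) :
    ∫ θ in (0 : ℝ)..(2 * Real.pi),
          wp1 (Real.cosh σ * y + Real.sinh σ * Real.sqrt (y ^ 2 - 1) * Real.cos θ)
            * (Real.sinh σ * y + Real.cosh σ * Real.sqrt (y ^ 2 - 1) * Real.cos θ)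
      = ∫ t in Ioc (0 : ℝ) 1, mm σ t * WW wL (Real.cosh (σ * t)) y := by
  have hq : y ^ 2 = 1 + Real.sqrt (y ^ 2 - 1) ^ 2 := by
    rw [Real.sq_sqrt (by nlinarith)]; ring
  have hs := Real.sinh_pos_iff.2 hσ
  have h1 := radial_int hq σ
  have h2 : ∫ ρ in (0 : ℝ)..σ, Real.sinh ρ * ∫ θ in (0 : ℝ)..(2 * Real.pi),
          wL (Real.cosh ρ * y + Real.sinh ρ * Real.sqrt (y ^ 2 - 1) * Real.cos θ)
      = ∫ ρ in (0 : ℝ)..σ, Real.sinh ρ * WW wL (Real.cosh ρ) y := by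
    refine intervalIntegral.integral_congr (fun ρ hρ => ?_)
    rw [Set.uIcc_of_le hσ.le] at hρ
    show Real.sinh ρ * _ = Real.sinh ρ * _
    rw [WW_cosh wL hρ.1 y]
  have h3 : ∫ t in (0 : ℝ)..1, (σ * (Real.sinh (σ * t) * WW wL (Real.cosh (σ * t)) y))
      = ∫ ρ in (0 : ℝ)..σ, Real.sinh ρ * WW wL (Real.cosh ρ) y := by
    rw [intervalIntegral.integral_const_mul]
    have := intervalIntegral.mul_integral_comp_mul_left (a := (0 : ℝ)) (b := 1)
      (f := fun ρ => Real.sinh ρ * WW wL (Real.cosh ρ) y) σ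
    simpa using this
  rw [h2, ← h3] at h1
  rw [← intervalIntegral.integral_of_le zero_le_one]
  have h4 : ∫ t in (0 : ℝ)..1, mm σ t * WW wL (Real.cosh (σ * t)) y
      = (Real.sinh σ)⁻¹ * ∫ t in (0 : ℝ)..1,
        (σ * (Real.sinh (σ * t) * WW wL (Real.cosh (σ * t)) y)) := by
    rw [← intervalIntegral.integral_const_mul]
    refine intervalIntegral.integral_congr (fun t _ => ?_)
    show mm σ t * _ = _
    unfold mm
    field_simp
  rw [h4, ← h1]
  field_simp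

theorem WW_diff {y : ℝ} (hy : 1 ≤ y) {r r' : ℝ} (hr : 0 ≤ r) (hrr : r ≤ r') :
    WW wp (Real.cosh r') y - WW wp (Real.cosh r) y
      = ∫ p, mm p.1 p.2 * WW wL (Real.cosh (p.1 * p.2)) y ∂(mu2 r r') := by
  obtain ⟨M, hM0, hM⟩ := WW_bdd Rd_wL
  have hWm : Measurable (fun p : ℝ × ℝ => WW wL (Real.cosh (p.1 * p.2)) y) := by
    have h1 : Continuous (fun p : ℝ × ℝ => Real.cosh (p.1 * p.2)) := by fun_prop
    have h2 : Measurable (fun p : ℝ × ℝ => WW wL p.1 p.2) := (WW_cont continuous_wL).measurable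
    have h3 : Measurable (fun p : ℝ × ℝ => ((Real.cosh (p.1 * p.2), y) : ℝ × ℝ)) :=
      h1.measurable.prodMk measurable_const
    have h4 := h2.comp h3
    exact h4
  have hi : Integrable (fun p : ℝ × ℝ => mm p.1 p.2 * WW wL (Real.cosh (p.1 * p.2)) y)
      (mu2 r r') := by
    refine Integrable.of_bound (measurable_mm.mul hWm).aestronglyMeasurable (r' * M) ?_
    filter_upwards [mu2_ae r r'] with p hp
    obtain ⟨h1, h2⟩ := hp
    have hσ : 0 < p.1 := lt_of_le_of_lt hr h1.1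
    rw [Real.norm_eq_abs, abs_mul, abs_of_nonneg (mm_nonneg hσ h2.1.le)]
    exact mul_le_mul ((mm_le hσ h2.2).trans h1.2) (hM _ _ (Real.one_le_cosh _) hy)
      (abs_nonneg _) (hr.trans hrr)
  have e1 : WW wp (Real.cosh r') y - WW wp (Real.cosh r) y
      = ∫ σ in r..r', ∫ θ in (0 : ℝ)..(2 * Real.pi),
          wp1 (Real.cosh σ * y + Real.sinh σ * Real.sqrt (y ^ 2 - 1) * Real.cos θ)
            * (Real.sinh σ * y + Real.cosh σ * Real.sqrt (y ^ 2 - 1) * Real.cos θ) := by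
    rw [WW_cosh wp (hr.trans hrr) y, WW_cosh wp hr y]
    exact radial_diff y (Real.sqrt (y ^ 2 - 1)) r r'
  rw [e1, intervalIntegral.integral_of_le hrr]
  unfold mu2 at hi ⊢
  rw [integral_prod _ hi]
  refine setIntegral_congr_fun measurableSet_Ioc (fun σ hσ => ?_)
  exact WW_inner hy (lt_of_le_of_lt hr hσ.1)

end Pool.Agent.SZ
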