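import Mathlib
import Pool.Agent.SZ.LEG02

/-!
# SZ.LEG.05: spherical averages of radial operators

* For each θ: `RR a f G (a.τ (g kk θ) z) = ∫ f(xx h) G(a.τ (h (g kk θ)) z) dmH(h)` (`a.mul`) `= ∫ f(xx (h (g kk θ)⁻¹)) G(a.τ h z) dmH(h)`
  (`mp_right`: substitute `h → h (g kk θ)⁻¹`), and `xx (h (g kk θ)⁻¹) = xx (g kk θ h⁻¹)` by `xx_inv`.
* Fubini for `θ ∈ (0, 2π]` and `h`: the integrand is measurable, bounded by `M M_f` and vanishes unless `xx (g kk θ h⁻¹) < 3`, in which case
  `nS (g kk θ h⁻¹) ≤ 5` (`nS_sq_le`) and `nS h = nS h⁻¹ ≤ nS ((g kk θ)⁻¹) * 5 ≤ 15 nS g`; balls have finite measure (`mH_ball_lt`).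
* Inner integral: `prod_formula`, `xx_inv`.
* `RR_bdd`, `RR_meas`: bound and measurability of `RR a f G` (used for Fubini by others); `Rd.int`: integrability of `f (xx ·)`.
-/

set_option autoImplicit false

namespace Pool.Agent.SZ

open Pool.Agent.IRS MeasureTheory Set Filter Topology

lemma Rd.int {f : ℝ → ℝ} (hf : Rd f) : Integrable (fun g => f (xx g)) mH := by
  obtain ⟨M, hM0, hM⟩ := hf.bdd
  have hm : MeasurableSet {g : SL2R | nS g ≤ 5} := measurableSet_le measurable_nS measurable_const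
  have h1 : Integrable (Set.indicator {g : SL2R | nS g ≤ 5} (fun _ => M)) mH :=
    (integrable_indicator_iff hm).2 (integrableOn_const (mH_ball_lt 5).ne)
  refine h1.mono' (hf.cont.measurable.comp measurable_xx).aestronglyMeasurable ?_
  filter_upwards with g
  rw [Real.norm_eq_abs]
  by_cases hg : nS g ≤ 5
  · rw [Set.indicator_of_mem (by exact hg)]; exact hM _ (one_le_xx g)
  · rw [Set.indicator_of_notMem (by exact hg), hf.zero, abs_zero]
    have h2 := nS_sq_le g
    nlinarith [nS_pos g]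

section

variable {Z : Type*} [MeasurableSpace Z] {ζ : Measure Z} (a : PAct SL2R ζ)

lemma meas_a_fst (z : Z) : Measurable (fun h : SL2R => a.τ h z) :=
  a.meas.comp (measurable_id.prodMk measurable_const)

lemma RR_int {f : ℝ → ℝ} (hf : Rd f) {G : Z → ℝ} (hG : Measurable G)
    (hb : ∃ M, ∀ z, |G z| ≤ M) (z : Z) : Integrable (fun h => f (xx h) * G (a.τ h z)) mH := by
  obtain ⟨M, hM⟩ := hb
  refine (hf.int.abs.mul_const M).mono'
    ((hf.cont.measurable.comp measurable_xx).mul
      (hG.comp (meas_a_fst a z))).aestronglyMeasurable ?_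
  filter_upwards with h
  rw [Real.norm_eq_abs, abs_mul]
  exact mul_le_mul_of_nonneg_left (hM _) (abs_nonneg _)

lemma RR_meas {f : ℝ → ℝ} (hf : Rd f) {G : Z → ℝ} (hG : Measurable G) :
    Measurable (RR a f G) := by
  have h1 : Measurable (fun p : Z × SL2R => f (xx p.2) * G (a.τ p.2 p.1)) :=
    ((hf.cont.measurable.comp measurable_xx).comp measurable_snd).mul
      (hG.comp (a.meas.comp (measurable_snd.prodMk measurable_fst)))
  exact (h1.stronglyMeasurable.integral_prod_right' (ν := mH)).measurable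

lemma RR_bdd {f : ℝ → ℝ} (hf : Rd f) {G : Z → ℝ} (hG : Measurable G)
    (hb : ∃ M, ∀ z, |G z| ≤ M) : ∃ M, ∀ z, |RR a f G z| ≤ M := by
  obtain ⟨M, hM⟩ := hb
  refine ⟨∫ h, |f (xx h)| * M ∂mH, fun z => ?_⟩
  unfold RR
  rw [← Real.norm_eq_abs]
  refine norm_integral_le_of_norm_le (hf.int.abs.mul_const M) ?_
  filter_upwards with h
  rw [Real.norm_eq_abs, abs_mul]
  exact mul_le_mul_of_nonneg_left (hM _) (abs_nonneg _)

lemma RR_trans {f : ℝ → ℝ} (hf : Rd f) {G : Z → ℝ} (hG : Measurable G) (u : SL2R) (z : Z) :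
    RR a f G (a.τ u z) = ∫ h, f (xx (u * h⁻¹)) * G (a.τ h z) ∂mH := by
  have h1 : Measurable (fun h : SL2R => f (xx (u * h⁻¹)) * G (a.τ h z)) :=
    (hf.cont.measurable.comp (measurable_xx.comp (measurable_inv.const_mul u))).mul
      (hG.comp (meas_a_fst a z))
  have h2 := integral_map (μ := mH) (φ := fun x : SL2R => x * u)
    (mp_right u).measurable.aemeasurable
    (f := fun h => f (xx (u * h⁻¹)) * G (a.τ h z)) h1.aestronglyMeasurable
  rw [(mp_right u).map_eq] at h2
  rw [h2]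
  unfold RR
  congr 1
  funext h
  rw [mul_inv_rev, mul_inv_cancel_left, xx_inv, a.mul]

theorem RR_avg {f : ℝ → ℝ} (hf : Rd f) {G : Z → ℝ} (hG : Measurable G)
    (hb : ∃ M, ∀ z, |G z| ≤ M) (g : SL2R) (z : Z) :
    ∫ θ in (0 : ℝ)..(2 * Real.pi), RR a f G (a.τ (g * kk θ) z)
      = ∫ h, WW f (xx g) (xx h) * G (a.τ h z) ∂mH := by
  obtain ⟨N, hN⟩ := hb
  obtain ⟨M, hM0, hM⟩ := hf.bdd
  have h2π : (0 : ℝ) ≤ 2 * Real.pi := by positivity
  have e1 : ∀ θ : ℝ, RR a f G (a.τ (g * kk θ) z)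
      = ∫ h, f (xx (g * kk θ * h⁻¹)) * G (a.τ h z) ∂mH := fun θ => RR_trans a hf hG _ z
  simp_rw [e1]
  rw [intervalIntegral.integral_of_le h2π]
  have hmeas : Measurable (fun p : ℝ × SL2R =>
      f (xx (g * kk p.1 * p.2⁻¹)) * G (a.τ p.2 z)) := by
    have hk : Measurable (fun p : ℝ × SL2R => g * kk p.1 * p.2⁻¹) :=
      ((measurable_kk.comp measurable_fst).const_mul g).mul (measurable_snd.inv)
    exact (hf.cont.measurable.comp (measurable_xx.comp hk)).mul
      (hG.comp ((meas_a_fst a z).comp measurable_snd))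
  have hball : MeasurableSet {h : SL2R | nS h ≤ 15 * nS g} :=
    measurableSet_le measurable_nS measurable_const
  have hind : Integrable (Set.indicator {h : SL2R | nS h ≤ 15 * nS g} (fun _ => M * N)) mH :=
    (integrable_indicator_iff hball).2 (integrableOn_const (mH_ball_lt _).ne)
  have hone : Integrable (fun _ : ℝ => (1 : ℝ)) (volume.restrict (Ioc (0 : ℝ) (2 * Real.pi))) :=
    integrable_const _
  have hint : Integrable (Function.uncurry (fun (θ : ℝ) (h : SL2R) =>
      f (xx (g * kk θ * h⁻¹)) * G (a.τ h z)))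
      ((volume.restrict (Ioc (0 : ℝ) (2 * Real.pi))).prod mH) := by
    refine (hone.mul_prod hind).mono' hmeas.aestronglyMeasurable ?_
    filter_upwards with p
    obtain ⟨θ, h⟩ := p
    simp only [Function.uncurry]
    rw [Real.norm_eq_abs, abs_mul, one_mul]
    by_cases hh : nS h ≤ 15 * nS g
    · rw [Set.indicator_of_mem (by exact hh)]
      exact mul_le_mul (hM _ (one_le_xx _)) (hN _) (abs_nonneg _) hM0
    · rw [Set.indicator_of_notMem (by exact hh), hf.zero, abs_zero, zero_mul]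
      by_contra hlt
      rw [not_le] at hlt
      apply hh
      have h3 := nS_sq_le (g * kk θ * h⁻¹)
      have h5 : nS (g * kk θ * h⁻¹) ≤ 5 := by
        nlinarith [nS_pos (g * kk θ * h⁻¹)]
      have h6 : nS h⁻¹ ≤ nS (g * kk θ)⁻¹ * nS (g * kk θ * h⁻¹) := by
        have := nS_mul_le (g * kk θ)⁻¹ (g * kk θ * h⁻¹)
        rwa [inv_mul_cancel_left] at this
      rw [nS_inv, nS_inv] at h6
      have h7 : nS (g * kk θ) ≤ nS g * nS (kk θ) := nS_mul_le _ _
      have h8 := nS_kk_le θ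
      have h9 := nS_pos g
      have h10 := nS_pos (g * kk θ)
      have h11 : nS (g * kk θ) ≤ 3 * nS g := by nlinarith
      nlinarith [nS_pos (g * kk θ * h⁻¹)]
  rw [integral_integral_swap hint]
  congr 1
  funext h
  rw [integral_mul_const, ← intervalIntegral.integral_of_le h2π, prod_formula hf.cont, xx_inv]

end

end Pool.Agent.SZ
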