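import Mathlib
import Pool.Agent.SZ.LEG04
import Pool.Agent.SZ.LEG05

/-!
# SZ.LEG.06: the difference formula for spherical averages

* `RR_diff`: by `RR_avg` the left side is `∫_h (WW wp (cosh r') (xx h) - WW wp (cosh r) (xx h)) G(h z) dmH(h)`; insert `WW_diff` (`one_le_xx`), use Fubini for
  `mu2 r r'` and `mH` (integrand measurable, bounded by `r' M M'` (`mm_le`, `WW_bdd`) and zero unless `xx h < 6 cosh r'` (`WW_zero` applied with
  `x = cosh (σ t) ≤ cosh r'`), a set of finite measure), and `RR_avg` backwards with `g = dd (σ t)`, `xx (dd s) = cosh s`.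
* `int_wL`: the same computation with `G = 1` on a one point space, `g = dd 0`, `g' = dd 1`.
-/

set_option autoImplicit false

namespace Pool.Agent.SZ

open Pool.Agent.IRS MeasureTheory Set Filter Topology

/-- Sublevel sets of `xx` have finite measure. -/
lemma mH_xx_lt (R : ℝ) : mH {h : SL2R | xx h < R} < ⊤ := by
  refine lt_of_le_of_lt (measure_mono ?_) (mH_ball_lt (8 * |R| + 8))
  intro h hh
  have h1 : xx h < R := hh
  change nS h ≤ 8 * |R| + 8
  have h2 := nS_sq_le h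
  have h3 := le_abs_self R
  have h4 := abs_nonneg R
  by_contra hc
  push Not at hc
  nlinarith [nS_pos h]

section

variable {Z : Type*} [MeasurableSpace Z] {ζ : Measure Z} (a : PAct SL2R ζ)

lemma meas_orbit {G : Z → ℝ} (hG : Measurable G) (z : Z) :
    Measurable (fun h : SL2R => G (a.τ h z)) :=
  hG.comp (a.meas.comp (measurable_id.prodMk measurable_const))

omit a in
lemma WW_comp_meas {f : ℝ → ℝ} (hf : Continuous f) {α : Type*} [MeasurableSpace α] {u v : α → ℝ}
    (hu : Measurable u) (hv : Measurable v) : Measurable (fun q => WW f (u q) (v q)) :=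
  (WW_cont hf).measurable.comp (hu.prodMk hv)

lemma WW_int {f : ℝ → ℝ} (hf : Rd f) {G : Z → ℝ} (hG : Measurable G)
    (hb : ∃ M, ∀ z, |G z| ≤ M) {x : ℝ} (hx : 1 ≤ x) (z : Z) :
    Integrable (fun h => WW f x (xx h) * G (a.τ h z)) mH := by
  obtain ⟨M, hM⟩ := hb
  obtain ⟨M', hM'0, hM'⟩ := WW_bdd hf
  have hM0 : 0 ≤ M := (abs_nonneg _).trans (hM z)
  have hS : MeasurableSet {h : SL2R | xx h < 6 * x} :=
    measurableSet_lt measurable_xx measurable_const
  have hdom : Integrable (Set.indicator {h : SL2R | xx h < 6 * x} (fun _ => M' * M)) mH :=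
    (integrable_indicator_iff hS).2 (integrableOn_const (mH_xx_lt _).ne)
  have hmeas : Measurable (fun h : SL2R => WW f x (xx h) * G (a.τ h z)) := by
    have h1 : Measurable (fun h : SL2R => WW f x (xx h)) :=
      WW_comp_meas hf.cont (u := fun _ => x) (v := xx) measurable_const measurable_xx
    exact h1.mul (meas_orbit a hG z)
  refine hdom.mono' hmeas.aestronglyMeasurable ?_
  filter_upwards with h
  rw [Real.norm_eq_abs, abs_mul]
  by_cases hh : xx h < 6 * x
  · rw [Set.indicator_of_mem (by exact hh)]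
    exact mul_le_mul (hM' x (xx h) hx (one_le_xx h)) (hM _) (abs_nonneg _) hM'0
  · rw [Set.indicator_of_notMem (by exact hh), WW_zero hf hx (not_lt.1 hh)]
    simp

end

lemma mu2_mem {r r' : ℝ} : ∀ᵐ p ∂(mu2 r r'), p.1 ∈ Ioc r r' ∧ p.2 ∈ Ioc (0 : ℝ) 1 := by
  unfold mu2
  rw [Measure.prod_restrict]
  filter_upwards [ae_restrict_mem (measurableSet_Ioc.prod measurableSet_Ioc)] with p hp
  exact ⟨hp.1, hp.2⟩

theorem RR_diff {Z : Type*} [MeasurableSpace Z] {ζ : Measure Z} (a : PAct SL2R ζ)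
    {G : Z → ℝ} (hG : Measurable G) (hb : ∃ M, ∀ z, |G z| ≤ M) {g g' : SL2R} {r r' : ℝ}
    (hr : 0 ≤ r) (hrr : r ≤ r') (hg : xx g = Real.cosh r) (hg' : xx g' = Real.cosh r') (z : Z) :
    (∫ θ in (0 : ℝ)..(2 * Real.pi), RR a wp G (a.τ (g' * kk θ) z))
      - ∫ θ in (0 : ℝ)..(2 * Real.pi), RR a wp G (a.τ (g * kk θ) z)
      = ∫ p, mm p.1 p.2 * (∫ θ in (0 : ℝ)..(2 * Real.pi),
          RR a wL G (a.τ (dd (p.1 * p.2) * kk θ) z)) ∂(mu2 r r') := by
  rw [RR_avg a Rd_wp hG hb g' z, RR_avg a Rd_wp hG hb g z, hg, hg',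
    ← integral_sub (WW_int a Rd_wp hG hb (Real.one_le_cosh _) z)
      (WW_int a Rd_wp hG hb (Real.one_le_cosh _) z)]
  have e1 : ∀ h : SL2R, WW wp (Real.cosh r') (xx h) * G (a.τ h z)
      - WW wp (Real.cosh r) (xx h) * G (a.τ h z)
      = ∫ p, mm p.1 p.2 * (WW wL (Real.cosh (p.1 * p.2)) (xx h) * G (a.τ h z)) ∂(mu2 r r') := by
    intro h
    rw [← sub_mul, WW_diff (one_le_xx h) hr hrr, ← integral_mul_const]
    congr 1; ext p; ring
  simp only [e1]
  have e2 : ∀ p : ℝ × ℝ, (∫ θ in (0 : ℝ)..(2 * Real.pi),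
      RR a wL G (a.τ (dd (p.1 * p.2) * kk θ) z))
      = ∫ h, WW wL (Real.cosh (p.1 * p.2)) (xx h) * G (a.τ h z) ∂mH := by
    intro p
    rw [RR_avg a Rd_wL hG hb, xx_dd]
  simp only [e2, ← integral_const_mul]
  refine integral_integral_swap ?_
  -- integrability on the product
  obtain ⟨M, hM⟩ := hb
  obtain ⟨M', hM'0, hM'⟩ := WW_bdd Rd_wL
  have hM0 : 0 ≤ M := (abs_nonneg _).trans (hM z)
  have hr' : 0 ≤ r' := hr.trans hrr
  have hS : MeasurableSet {h : SL2R | xx h < 6 * Real.cosh r'} :=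
    measurableSet_lt measurable_xx measurable_const
  have hdom0 : Integrable (Set.indicator {h : SL2R | xx h < 6 * Real.cosh r'}
      (fun _ => r' * (M' * M))) mH :=
    (integrable_indicator_iff hS).2 (integrableOn_const (mH_xx_lt _).ne)
  have hdom : Integrable (fun q : SL2R × (ℝ × ℝ) =>
      Set.indicator {h : SL2R | xx h < 6 * Real.cosh r'} (fun _ => r' * (M' * M)) q.1)
      (mH.prod (mu2 r r')) := hdom0.comp_fst _
  have hmeas : Measurable (fun q : SL2R × (ℝ × ℝ) =>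
      mm q.2.1 q.2.2 * (WW wL (Real.cosh (q.2.1 * q.2.2)) (xx q.1) * G (a.τ q.1 z))) := by
    have h1 : Measurable (fun q : SL2R × (ℝ × ℝ) => mm q.2.1 q.2.2) :=
      measurable_mm.comp measurable_snd
    have hu : Measurable (fun q : SL2R × (ℝ × ℝ) => Real.cosh (q.2.1 * q.2.2)) :=
      Real.measurable_cosh.comp
        ((measurable_fst.comp measurable_snd).mul (measurable_snd.comp measurable_snd))
    have hv : Measurable (fun q : SL2R × (ℝ × ℝ) => xx q.1) := measurable_xx.comp measurable_fst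
    have h2 : Measurable (fun q : SL2R × (ℝ × ℝ) =>
        WW wL (Real.cosh (q.2.1 * q.2.2)) (xx q.1)) := WW_comp_meas Rd_wL.cont hu hv
    have h3 : Measurable (fun q : SL2R × (ℝ × ℝ) => G (a.τ q.1 z)) :=
      (meas_orbit a hG z).comp measurable_fst
    exact h1.mul (h2.mul h3)
  refine hdom.mono' hmeas.aestronglyMeasurable ?_
  have hae : ∀ᵐ q ∂(mH.prod (mu2 r r')), q.2.1 ∈ Ioc r r' ∧ q.2.2 ∈ Ioc (0 : ℝ) 1 :=
    Measure.quasiMeasurePreserving_snd.ae mu2_mem
  filter_upwards [hae] with q hq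
  obtain ⟨⟨hq1, hq2⟩, hq3, hq4⟩ := hq
  have hpos : 0 < q.2.1 := lt_of_le_of_lt hr hq1
  have hprod0 : 0 ≤ q.2.1 * q.2.2 := by positivity
  have hprod : q.2.1 * q.2.2 ≤ r' := by nlinarith
  have hcosh : Real.cosh (q.2.1 * q.2.2) ≤ Real.cosh r' := by
    rw [Real.cosh_le_cosh, abs_of_nonneg hprod0, abs_of_nonneg hr']
    exact hprod
  have hmm : |mm q.2.1 q.2.2| ≤ r' := by
    rw [abs_of_nonneg (mm_nonneg hpos hq3.le)]
    exact (mm_le hpos hq4).trans hq2
  change ‖mm q.2.1 q.2.2 * (WW wL (Real.cosh (q.2.1 * q.2.2)) (xx q.1) * G (a.τ q.1 z))‖ ≤ _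
  rw [Real.norm_eq_abs, abs_mul, abs_mul]
  by_cases hh : xx q.1 < 6 * Real.cosh r'
  · rw [Set.indicator_of_mem (by exact hh)]
    exact mul_le_mul hmm (mul_le_mul (hM' _ _ (Real.one_le_cosh _) (one_le_xx _)) (hM _)
      (abs_nonneg _) hM'0) (by positivity) hr'
  · rw [Set.indicator_of_notMem (by exact hh), WW_zero Rd_wL (Real.one_le_cosh _)
      (by linarith [not_lt.1 hh])]
    simp

/-- The trivial action on a point. -/
def trivAct : PAct SL2R (Measure.dirac () : Measure Unit) where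
  τ := fun _ z => z
  one := fun _ => rfl
  mul := fun _ _ _ => rfl
  meas := measurable_snd
  mp := fun _ => MeasurePreserving.id _

theorem int_wL : ∫ h, wL (xx h) ∂mH = 0 := by
  have h := RR_diff trivAct (G := fun _ => (1 : ℝ)) measurable_const ⟨1, fun _ => by simp⟩
    (g := dd 0) (g' := dd 1) (r := 0) (r' := 1) le_rfl zero_le_one (xx_dd 0) (xx_dd 1) ()
  have e : ∀ (f : ℝ → ℝ) (u : Unit), RR trivAct f (fun _ => (1 : ℝ)) u
      = ∫ h, f (xx h) ∂mH := by
    intro f u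
    simp [RR]
  simp only [e, sub_self] at h
  rw [integral_mul_const, intervalIntegral.integral_const] at h
  have h1 := mm_int_pos
  have h2 := Real.pi_pos
  have h3 : (∫ p, mm p.1 p.2 ∂(mu2 0 1)) * ((2 * Real.pi - 0) * ∫ h, wL (xx h) ∂mH) = 0 := by
    exact h.symm
  rcases mul_eq_zero.1 h3 with h4 | h4
  · exact absurd h4 h1.ne'
  · rcases mul_eq_zero.1 h4 with h5 | h5
    · exfalso; linarith
    · exact h5

end Pool.Agent.SZ
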