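import Mathlib
import Pool.Agent.SZ.LEG05

/-!
# SZ.LEG.07: radial probability measures, and commuting radial operators

* `rad_prob`, `rad_integral`: as in `Nuk.lean` (`instProbNuK`, `nuK_integral`).
* `nui_rad`: `nui ν = ν.map (·⁻¹)`; `mp_inv` and `xx_inv`.
* `conv_comm`: let `Cv f f' h' = ∫ f(xx h) f'(xx (h h')) dmH(h)`.  For every θ, `Cv f f' h' = ∫ f(xx h) f'(xx (h kk θ h')) dmH(h)`
  (`mp_right`, `xx_kk_right`); integrate over `θ` and use `prod_formula` and Fubini:
  `2π Cv f f' h' = ∫ f(xx h) WW f' (xx h) (xx h') dmH(h)`.  In particular `Cv f f' h'⁻¹ = Cv f f' h'` (`xx_inv`).  Substituting `h → h h'` (`mp_right`)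
  in `Cv f f' h'⁻¹ = ∫ f(xx h) f'(xx (h h'⁻¹))` gives `∫ f(xx (h h')) f'(xx h) = Cv f' f h'`.
* `RR_comm`: `RR a f (RR a f' G) z = ∫_h f(xx h) ∫_{h'} f'(xx h') G(h' h z) = ∫_h f(xx h) ∫_{h'} f'(xx (h' h⁻¹)) G(h' z)`
  `= ∫_{h'} G(h' z) [∫_h f(xx h) f'(xx (h h'⁻¹))] = ∫_{h'} G(h'z) Cv f f' h'⁻¹`  (`mp_right`, `xx_inv`, Fubini), symmetric in `f, f'`.
  (Fubini: everything is bounded and supported in `nS h ≤ 5`, `nS h' ≤ 25`.)
-/

set_option autoImplicit false

namespace Pool.Agent.SZ

open Pool.Agent.IRS MeasureTheory Set Filter Topology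

section

variable {f f' : ℝ → ℝ}

theorem rad_prob (hf : Rd f) (h0 : ∀ t, 0 ≤ f t) (h1 : ∫ g, f (xx g) ∂mH = 1) :
    IsProbabilityMeasure (rad f) := by
  refine ⟨?_⟩
  unfold rad
  rw [withDensity_apply _ MeasurableSet.univ, Measure.restrict_univ,
    ← ofReal_integral_eq_lintegral_ofReal hf.int (by filter_upwards with g; exact h0 _),
    h1, ENNReal.ofReal_one]

theorem rad_integral (hf : Rd f) (h0 : ∀ t, 0 ≤ f t) (φ : SL2R → ℝ) :
    ∫ g, φ g ∂(rad f) = ∫ g, f (xx g) * φ g ∂mH := by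
  have hm : Measurable (fun g : SL2R => ENNReal.ofReal (f (xx g))) :=
    (hf.cont.measurable.comp measurable_xx).ennreal_ofReal
  unfold rad
  rw [integral_withDensity_eq_integral_toReal_smul hm
    (by filter_upwards with g; exact ENNReal.ofReal_lt_top)]
  congr 1; ext g
  rw [ENNReal.toReal_ofReal (h0 _), smul_eq_mul]

theorem nui_rad (hf : Rd f) : nui (rad f) = rad f := by
  have hm : Measurable (fun g : SL2R => ENNReal.ofReal (f (xx g))) :=
    (hf.cont.measurable.comp measurable_xx).ennreal_ofReal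
  unfold nui rad
  ext s hs
  rw [Measure.map_apply measurable_inv hs,
    withDensity_apply _ (measurable_inv hs), withDensity_apply _ hs]
  have h1 := mp_inv.setLIntegral_comp_preimage hs hm
  rw [← h1]
  congr 1
  funext g
  rw [xx_inv]

/-- The convolution averaged over the rotations. -/
lemma conv_avg (hf : Rd f) (hf' : Rd f') (h' : SL2R) :
    2 * Real.pi * ∫ h, f (xx h) * f' (xx (h * h')) ∂mH
      = ∫ h, f (xx h) * WW f' (xx h) (xx h') ∂mH := by
  obtain ⟨M, hM0, hM⟩ := hf'.bdd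
  have h2π : (0 : ℝ) ≤ 2 * Real.pi := by positivity
  have e1 : ∀ θ : ℝ, ∫ h, f (xx h) * f' (xx (h * h')) ∂mH
      = ∫ h, f (xx h) * f' (xx (h * kk θ * h')) ∂mH := by
    intro θ
    have hm : Measurable (fun h : SL2R => f (xx h) * f' (xx (h * h'))) :=
      (hf.cont.measurable.comp measurable_xx).mul
        (hf'.cont.measurable.comp (measurable_xx.comp (measurable_id.mul_const h')))
    have h2 := integral_map (μ := mH) (φ := fun x : SL2R => x * kk θ)
      (mp_right (kk θ)).measurable.aemeasurable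
      (f := fun h => f (xx h) * f' (xx (h * h'))) hm.aestronglyMeasurable
    rw [(mp_right (kk θ)).map_eq] at h2
    rw [h2]
    congr 1
    funext h
    rw [xx_kk_right]
  have hmeas : Measurable (fun p : ℝ × SL2R => f (xx p.2) * f' (xx (p.2 * kk p.1 * h'))) := by
    have hk : Measurable (fun p : ℝ × SL2R => p.2 * kk p.1 * h') :=
      (measurable_snd.mul (measurable_kk.comp measurable_fst)).mul_const h'
    exact (hf.cont.measurable.comp (measurable_xx.comp measurable_snd)).mul
      (hf'.cont.measurable.comp (measurable_xx.comp hk))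
  have hone : Integrable (fun _ : ℝ => (1 : ℝ)) (volume.restrict (Ioc (0 : ℝ) (2 * Real.pi))) :=
    integrable_const _
  have hint : Integrable (Function.uncurry (fun (θ : ℝ) (h : SL2R) =>
      f (xx h) * f' (xx (h * kk θ * h'))))
      ((volume.restrict (Ioc (0 : ℝ) (2 * Real.pi))).prod mH) := by
    refine (hone.mul_prod (hf.int.abs.mul_const M)).mono' hmeas.aestronglyMeasurable ?_
    filter_upwards with p
    obtain ⟨θ, h⟩ := p
    simp only [Function.uncurry]
    rw [Real.norm_eq_abs, abs_mul, one_mul]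
    exact mul_le_mul_of_nonneg_left (hM _ (one_le_xx _)) (abs_nonneg _)
  have e2 : 2 * Real.pi * ∫ h, f (xx h) * f' (xx (h * h')) ∂mH
      = ∫ θ in (0 : ℝ)..(2 * Real.pi), ∫ h, f (xx h) * f' (xx (h * kk θ * h')) ∂mH := by
    simp_rw [← e1]
    rw [intervalIntegral.integral_const, smul_eq_mul, sub_zero]
  rw [e2, intervalIntegral.integral_of_le h2π, integral_integral_swap hint]
  congr 1
  funext h
  rw [integral_const_mul, ← intervalIntegral.integral_of_le h2π, prod_formula hf'.cont]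

lemma conv_inv (hf : Rd f) (hf' : Rd f') (h' : SL2R) :
    ∫ h, f (xx h) * f' (xx (h * h'⁻¹)) ∂mH = ∫ h, f (xx h) * f' (xx (h * h')) ∂mH := by
  have h1 := conv_avg hf hf' h'
  have h2 := conv_avg hf hf' h'⁻¹
  rw [xx_inv, ← h1] at h2
  exact mul_left_cancel₀ (by positivity) h2

theorem conv_comm (hf : Rd f) (hf' : Rd f') (h' : SL2R) :
    ∫ h, f (xx h) * f' (xx (h * h')) ∂mH = ∫ h, f' (xx h) * f (xx (h * h')) ∂mH := by
  rw [← conv_inv hf hf' h']
  have hm : Measurable (fun h : SL2R => f (xx h) * f' (xx (h * h'⁻¹))) :=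
    (hf.cont.measurable.comp measurable_xx).mul
      (hf'.cont.measurable.comp (measurable_xx.comp (measurable_id.mul_const h'⁻¹)))
  have h2 := integral_map (μ := mH) (φ := fun x : SL2R => x * h')
    (mp_right h').measurable.aemeasurable
    (f := fun h => f (xx h) * f' (xx (h * h'⁻¹))) hm.aestronglyMeasurable
  rw [(mp_right h').map_eq] at h2
  rw [h2]
  congr 1
  funext h
  rw [mul_inv_cancel_right, mul_comm]

end

section

variable {Z : Type*} [MeasurableSpace Z] {ζ : Measure Z} (a : PAct SL2R ζ)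

lemma RR_RR {f f' : ℝ → ℝ} (hf : Rd f) (hf' : Rd f') {G : Z → ℝ} (hG : Measurable G)
    (hb : ∃ M, ∀ z, |G z| ≤ M) (z : Z) : RR a f (RR a f' G) z
      = ∫ h', (∫ h, f (xx h) * f' (xx (h * h'⁻¹)) ∂mH) * G (a.τ h' z) ∂mH := by
  obtain ⟨N, hN⟩ := hb
  obtain ⟨M, hM0, hM⟩ := hf'.bdd
  have hN0 : 0 ≤ N := (abs_nonneg _).trans (hN z)
  have e1 : RR a f (RR a f' G) z
      = ∫ h, ∫ h', f (xx h) * f' (xx (h * h'⁻¹)) * G (a.τ h' z) ∂mH ∂mH := by
    change ∫ h, f (xx h) * RR a f' G (a.τ h z) ∂mH = _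
    congr 1
    funext h
    rw [RR_trans a hf' hG h z, ← integral_const_mul]
    congr 1
    funext h'
    ring
  have hmeas : Measurable (fun p : SL2R × SL2R =>
      f (xx p.1) * f' (xx (p.1 * p.2⁻¹)) * G (a.τ p.2 z)) := by
    have hk : Measurable (fun p : SL2R × SL2R => p.1 * p.2⁻¹) :=
      measurable_fst.mul measurable_snd.inv
    exact ((hf.cont.measurable.comp (measurable_xx.comp measurable_fst)).mul
      (hf'.cont.measurable.comp (measurable_xx.comp hk))).mul
      (hG.comp ((meas_a_fst a z).comp measurable_snd))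
  have hball : MeasurableSet {h : SL2R | nS h ≤ 25} :=
    measurableSet_le measurable_nS measurable_const
  have hind : Integrable (Set.indicator {h : SL2R | nS h ≤ 25} (fun _ => M * N)) mH :=
    (integrable_indicator_iff hball).2 (integrableOn_const (mH_ball_lt _).ne)
  have hint : Integrable (Function.uncurry (fun (h : SL2R) (h' : SL2R) =>
      f (xx h) * f' (xx (h * h'⁻¹)) * G (a.τ h' z))) (mH.prod mH) := by
    refine (hf.int.abs.mul_prod hind).mono' hmeas.aestronglyMeasurable ?_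
    filter_upwards with p
    obtain ⟨h, h'⟩ := p
    simp only [Function.uncurry]
    rw [Real.norm_eq_abs, abs_mul, abs_mul, mul_assoc]
    by_cases hh' : nS h' ≤ 25
    · rw [Set.indicator_of_mem (by exact hh')]
      exact mul_le_mul_of_nonneg_left
        (mul_le_mul (hM _ (one_le_xx _)) (hN _) (abs_nonneg _) hM0) (abs_nonneg _)
    · rw [Set.indicator_of_notMem (by exact hh'), mul_zero]
      by_cases hh : 3 ≤ xx h
      · rw [hf.zero _ hh, abs_zero, zero_mul]
      · rw [hf'.zero, abs_zero, zero_mul, mul_zero]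
        by_contra hlt
        rw [not_le] at hlt hh
        apply hh'
        have h3 := nS_sq_le (h * h'⁻¹)
        have h5 : nS (h * h'⁻¹) ≤ 5 := by
          nlinarith [nS_pos (h * h'⁻¹)]
        have h3' := nS_sq_le h
        have h5' : nS h ≤ 5 := by
          nlinarith [nS_pos h]
        have h6 : nS h'⁻¹ ≤ nS h⁻¹ * nS (h * h'⁻¹) := by
          have := nS_mul_le h⁻¹ (h * h'⁻¹)
          rwa [inv_mul_cancel_left] at this
        rw [nS_inv, nS_inv] at h6
        nlinarith [nS_pos (h * h'⁻¹), nS_pos h]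
  rw [e1, integral_integral_swap hint]
  congr 1
  funext h'
  rw [integral_mul_const]

theorem RR_comm {f f' : ℝ → ℝ} (hf : Rd f) (hf' : Rd f') {G : Z → ℝ} (hG : Measurable G)
    (hb : ∃ M, ∀ z, |G z| ≤ M) : RR a f (RR a f' G) = RR a f' (RR a f G) := by
  funext z
  rw [RR_RR a hf hf' hG hb z, RR_RR a hf' hf hG hb z]
  congr 1
  funext h'
  rw [conv_comm hf hf' h'⁻¹]

end

end Pool.Agent.SZ
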