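import Mathlib
import Pool.Agent.SZ.LEGD
import Pool.Agent.IRS.Dens

/-!
# SZ.LEG.08: displacement and energy for `nuK`   (independent of the other modules)

Adapt `Pool/Agent/IRS/Dens.lean`, lines 100-220 (`EE`, `CC`, `sig`, `key_le`, `sig_map_le`, `psi_small`, `subLen`): take the set `{g | xx g ≤ 3/2}` in place of `EE`,
`wc` in place of `kap` (`wp x ≥ 1` for `x ≤ 2`).  For `c = uu x` or `vv x` with `|x| ≤ 1/4` and `xx g ≤ 3/2`:
`xx (c g) ≤ xx g (1 + |x| + x²) ≤ 2` (direct expansion), so `PAct.ψ_le_E` gives `ψ(c)² ≤ 8 C E`.  Then `ψ(uu x) ≤ 4 √(8 C E)` for `|x| ≤ 1`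
(`uu_add`, four times), the same for `vv`, which is `SubLen`; `SubLen.le_log` with `nS h ≤ 5` (`nS_sq_le`, `xx h ≤ 3`) gives the bound.
`psi_log` is the general form.
-/

set_option autoImplicit false

namespace Pool.Agent.SZ

open Pool.Agent.IRS MeasureTheory Set Filter Topology

namespace LEG08

/-- The ball `xx g ≤ 3/2`. -/
def E0 : Set SL2R := {g | xx g ≤ 3 / 2}

lemma E0_meas : MeasurableSet E0 := measurableSet_le measurable_xx measurable_const

lemma continuous_xx : Continuous xx := by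
  have hcont : Continuous (fun g : SL2R => (g : Matrix (Fin 2) (Fin 2) ℝ)) :=
    continuous_subtype_val
  unfold xx
  exact (((((hcont.matrix_elem 0 0).pow 2).add ((hcont.matrix_elem 0 1).pow 2)).add
    ((hcont.matrix_elem 1 0).pow 2)).add ((hcont.matrix_elem 1 1).pow 2)).div_const 2

lemma E0_pos : 0 < mH E0 := by
  have hU : IsOpen {g : SL2R | xx g < 3 / 2} := isOpen_lt continuous_xx continuous_const
  refine lt_of_lt_of_le (mH_open_pos hU ⟨1, ?_⟩) (measure_mono fun g hg => ?_)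
  · change xx 1 < 3 / 2
    rw [xx_one]; norm_num
  · exact (show xx g < 3 / 2 from hg).le

lemma E0_lt : mH E0 < ⊤ := by
  refine lt_of_le_of_lt (measure_mono fun g hg => ?_) (mH_ball_lt 4)
  have h1 : xx g ≤ 3 / 2 := hg
  have h2 := nS_sq_le g
  change nS g ≤ 4
  nlinarith [nS_pos g]

lemma E0_real_pos : 0 < mH.real E0 := ENNReal.toReal_pos E0_pos.ne' E0_lt.ne

/-- The constant. -/
noncomputable def C0 : NNReal := ⟨(wc * mH.real E0)⁻¹, by
  have := wc_pos; positivity⟩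

/-- The normalised measure on the ball. -/
noncomputable def sg0 : Measure SL2R := (mH E0)⁻¹ • mH.restrict E0

instance : IsProbabilityMeasure sg0 := by
  refine ⟨?_⟩
  unfold sg0
  rw [Measure.smul_apply, Measure.restrict_apply_univ, smul_eq_mul]
  exact ENNReal.inv_mul_cancel E0_pos.ne' E0_lt.ne

lemma one_le_wp {x : ℝ} (hx : x ≤ 2) : 1 ≤ wp x := by
  unfold wp
  have h1 : 1 ≤ max 0 (3 - x) := le_max_of_le_right (by linarith)
  exact one_le_pow₀ h1

lemma key0 (S : Set SL2R) (hS : MeasurableSet S) (hS2 : ∀ g ∈ S, xx g ≤ 2) :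
    (mH E0)⁻¹ • mH.restrict S ≤ C0 • nuK := by
  rw [Measure.le_iff]
  intro s hs
  rw [Measure.smul_apply, Measure.restrict_apply hs, smul_eq_mul, Measure.smul_apply]
  have h1 : ENNReal.ofReal wc * mH (s ∩ S) ≤ nuK s := by
    unfold nuK
    rw [withDensity_apply _ hs]
    calc ENNReal.ofReal wc * mH (s ∩ S) = ∫⁻ _ in s ∩ S, ENNReal.ofReal wc ∂mH := by
          rw [setLIntegral_const]
      _ ≤ ∫⁻ g in s ∩ S, ENNReal.ofReal (wd g) ∂mH := by
          refine setLIntegral_mono' (hs.inter hS) fun g hg => ?_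
          apply ENNReal.ofReal_le_ofReal
          have := one_le_wp (hS2 g hg.2)
          unfold wd
          nlinarith [wc_pos]
      _ ≤ ∫⁻ g in s, ENNReal.ofReal (wd g) ∂mH :=
          lintegral_mono_set Set.inter_subset_left
  have h2 : (mH E0)⁻¹ = (C0 : ENNReal) * ENNReal.ofReal wc := by
    have e1 : mH E0 = ENNReal.ofReal (mH.real E0) := by
      have hne : mH E0 ≠ ⊤ := E0_lt.ne
      unfold Measure.real
      rw [ENNReal.ofReal_toReal hne]
    have e2 : (C0 : ENNReal) = ENNReal.ofReal ((wc * mH.real E0)⁻¹) := by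
      rw [ENNReal.ofReal, Real.toNNReal_of_nonneg]
      · rfl
    rw [e1, e2, ← ENNReal.ofReal_mul (by have := wc_pos; positivity),
      ← ENNReal.ofReal_inv_of_pos E0_real_pos]
    congr 1
    have := wc_pos
    field_simp
  rw [h2, mul_assoc]
  change _ ≤ (C0 : ENNReal) * nuK s
  gcongr

lemma sg0_le : sg0 ≤ C0 • nuK := key0 E0 E0_meas fun g hg => by
  have : xx g ≤ 3 / 2 := hg
  linarith

lemma sg0_map_le (c : SL2R) (hc : ∀ g, xx g ≤ 3 / 2 → xx (c * g) ≤ 2) :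
    sg0.map (c * ·) ≤ C0 • nuK := by
  have hcm : Measurable (fun x : SL2R => c * x) := measurable_const_mul c
  have hcm' : Measurable (fun x : SL2R => c⁻¹ * x) := measurable_const_mul c⁻¹
  set S : Set SL2R := (fun x => c⁻¹ * x) ⁻¹' E0 with hS
  have hSm : MeasurableSet S := hcm' E0_meas
  have h1 : sg0.map (c * ·) = (mH E0)⁻¹ • mH.restrict S := by
    unfold sg0
    rw [Measure.map_smul]
    congr 1
    ext s hs
    rw [Measure.map_apply hcm hs, Measure.restrict_apply (hcm hs), Measure.restrict_apply hs]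
    conv_rhs => rw [← mH_left c, Measure.map_apply hcm (hs.inter hSm)]
    congr 1
    ext x
    simp [hS]
  rw [h1]
  refine key0 S hSm fun g hg => ?_
  have h2 : xx (c⁻¹ * g) ≤ 3 / 2 := hg
  have h3 := hc _ h2
  rwa [mul_inv_cancel_left] at h3

lemma xx_uu {x : ℝ} (hx : |x| ≤ 1 / 4) (g : SL2R) (hg : xx g ≤ 3 / 2) : xx (uu x * g) ≤ 2 := by
  rw [abs_le] at hx
  unfold xx at hg ⊢
  simp only [SL_mul_apply, uu00, uu01, uu10, uu11]
  have hx2 : x ^ 2 ≤ 1 / 16 := by nlinarith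
  set a := g 0 0
  set b := g 0 1
  set c := g 1 0
  set d := g 1 1
  have k1 : 2 * x * (a * c) ≤ (1 / 4) * (a ^ 2 + c ^ 2) := by
    nlinarith [sq_nonneg (a - c), sq_nonneg (a + c), mul_nonneg (by linarith : 0 ≤ 1 / 4 - x) (sq_nonneg (a + c)),
      mul_nonneg (by linarith : 0 ≤ 1 / 4 + x) (sq_nonneg (a - c))]
  have k2 : 2 * x * (b * d) ≤ (1 / 4) * (b ^ 2 + d ^ 2) := by
    nlinarith [sq_nonneg (b - d), sq_nonneg (b + d), mul_nonneg (by linarith : 0 ≤ 1 / 4 - x) (sq_nonneg (b + d)),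
      mul_nonneg (by linarith : 0 ≤ 1 / 4 + x) (sq_nonneg (b - d))]
  have k3 : x ^ 2 * (c ^ 2 + d ^ 2) ≤ (1 / 16) * (c ^ 2 + d ^ 2) :=
    mul_le_mul_of_nonneg_right hx2 (by positivity)
  nlinarith [sq_nonneg a, sq_nonneg b]

lemma xx_vv {x : ℝ} (hx : |x| ≤ 1 / 4) (g : SL2R) (hg : xx g ≤ 3 / 2) : xx (vv x * g) ≤ 2 := by
  rw [abs_le] at hx
  unfold xx at hg ⊢
  simp only [SL_mul_apply, vv00, vv01, vv10, vv11]
  have hx2 : x ^ 2 ≤ 1 / 16 := by nlinarith
  set a := g 0 0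
  set b := g 0 1
  set c := g 1 0
  set d := g 1 1
  have k1 : 2 * x * (a * c) ≤ (1 / 4) * (a ^ 2 + c ^ 2) := by
    nlinarith [sq_nonneg (a - c), sq_nonneg (a + c), mul_nonneg (by linarith : 0 ≤ 1 / 4 - x) (sq_nonneg (a + c)),
      mul_nonneg (by linarith : 0 ≤ 1 / 4 + x) (sq_nonneg (a - c))]
  have k2 : 2 * x * (b * d) ≤ (1 / 4) * (b ^ 2 + d ^ 2) := by
    nlinarith [sq_nonneg (b - d), sq_nonneg (b + d), mul_nonneg (by linarith : 0 ≤ 1 / 4 - x) (sq_nonneg (b + d)),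
      mul_nonneg (by linarith : 0 ≤ 1 / 4 + x) (sq_nonneg (b - d))]
  have k3 : x ^ 2 * (a ^ 2 + b ^ 2) ≤ (1 / 16) * (a ^ 2 + b ^ 2) :=
    mul_le_mul_of_nonneg_right hx2 (by positivity)
  nlinarith [sq_nonneg c, sq_nonneg d]

section act

variable {Z : Type*} [MeasurableSpace Z] {ζ : Measure Z} [SigmaFinite ζ] (a : PAct SL2R ζ)

lemma psi_small (f : BL2 ζ) (c : SL2R) (hc : ∀ g, xx g ≤ 3 / 2 → xx (c * g) ≤ 2) :
    a.ψ f c ≤ √(8 * C0 * a.E nuK f) := by
  apply Real.le_sqrt_of_sq_le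
  have : MeasurableMul SL2R := inferInstance
  exact a.ψ_le_E nuK f c sg0 sg0_le (sg0_map_le c hc)

lemma psi_four (f : BL2 ζ) (u : ℝ → SL2R) (hu : ∀ x y, u (x + y) = u x * u y)
    (h : ∀ x : ℝ, |x| ≤ 1 / 4 → ∀ g, xx g ≤ 3 / 2 → xx (u x * g) ≤ 2) (x : ℝ) (hx : |x| ≤ 1) :
    a.ψ f (u x) ≤ 4 * √(8 * C0 * a.E nuK f) := by
  have hq : |x / 4| ≤ 1 / 4 := by
    rw [abs_div, abs_of_pos (by norm_num : (0:ℝ) < 4)]; linarith
  have h1 := psi_small a f (u (x / 4)) (h _ hq)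
  have h2 : u x = u (x / 4) * u (x / 4) * (u (x / 4) * u (x / 4)) := by
    rw [← hu, ← hu]; congr 1; ring
  rw [h2]
  have h3 := a.ψ_mul_le f (u (x / 4)) (u (x / 4))
  have h4 := a.ψ_mul_le f (u (x / 4) * u (x / 4)) (u (x / 4) * u (x / 4))
  linarith

lemma subLen (f : BL2 ζ) : SubLen (a.ψ f) (4 * √(8 * C0 * a.E nuK f)) where
  nonneg := a.ψ_nonneg f
  mul := a.ψ_mul_le f
  inv := a.ψ_inv f
  uu := fun x hx => psi_four a f _ uu_add (fun _ h g hg => xx_uu h g hg) x hx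
  vv := fun x hx => psi_four a f _ vv_add (fun _ h g hg => xx_vv h g hg) x hx

end act

end LEG08

theorem psi_log : ∃ C : ℝ, 0 ≤ C ∧ ∀ (Z : Type) [MeasurableSpace Z] (ζ : Measure Z) [SigmaFinite ζ]
    (a : PAct SL2R ζ) (f : BL2 ζ) (h : SL2R),
    a.ψ f h ^ 2 ≤ C * (1 + Real.log (nS h)) ^ 2 * a.E nuK f := by
  refine ⟨(210 * 4) ^ 2 * (8 * LEG08.C0), by positivity, ?_⟩
  intro Z _ ζ _ a f h
  have h1 := (LEG08.subLen a f).le_log h
  have hE := a.E_nonneg nuK f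
  have h2 : a.ψ f h ^ 2 ≤ (210 * (1 + Real.log (nS h)) * (4 * √(8 * LEG08.C0 * a.E nuK f))) ^ 2 :=
    pow_le_pow_left₀ (a.ψ_nonneg f h) h1 2
  refine h2.trans (le_of_eq ?_)
  rw [mul_pow, mul_pow, mul_pow, Real.sq_sqrt (by positivity)]
  ring

theorem psi_three : ∃ C : ℝ, 0 ≤ C ∧ ∀ (Z : Type) [MeasurableSpace Z] (ζ : Measure Z) [SigmaFinite ζ]
    (a : PAct SL2R ζ) (f : BL2 ζ) (h : SL2R), xx h ≤ 3 → a.ψ f h ^ 2 ≤ C * a.E nuK f := by
  obtain ⟨C, hC, H⟩ := psi_log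
  refine ⟨C * 25, by positivity, ?_⟩
  intro Z _ ζ _ a f h hx
  have h1 := H Z ζ a f h
  have hE := a.E_nonneg nuK f
  have h2 := nS_sq_le h
  have h3 : nS h ≤ 5 := by nlinarith [nS_pos h]
  have h4 := Real.log_le_sub_one_of_pos (nS_pos h)
  have h5 : 0 ≤ Real.log (nS h) := Real.log_nonneg (by linarith [two_le_nS h])
  have h6 : (1 + Real.log (nS h)) ^ 2 ≤ 25 := by nlinarith
  refine h1.trans ?_
  exact mul_le_mul_of_nonneg_right (mul_le_mul_of_nonneg_left h6 hC) hE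

end Pool.Agent.SZ
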