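import Mathlib
import Pool.Agent.SZ.LEG07
import Pool.Agent.SZ.LEG08

/-!
# SZ.LEG.09: `|G - A_f G| ≤ C |G - P G|`

Let `σ = rad f` (probability measure, `nui σ = σ`), `S = a.A σ`, `P = a.P nuK = A A` with `A = a.A nuK` (`nui nuK = nuK` by `nui_rad`, `nuK_eq_rad`).
* `S` is symmetric (`PAct.adj` and `nui_rad`); `S` commutes with `A` (`RR_comm` with `rad_integral`, `A_apply`) hence with `P`.
* `⟨(1-S)G,G⟩ = (1/2) ∫ ψ(G,h)² dσ(h)` (`ψ_sq`, `B_A`), between `0` and `(C/2) E nuK G = (C/2) ⟨(1-P)G,G⟩` by `psi_three` (`σ` lives on `xx h ≤ 3`), `ea_eq`/`B_P`.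
* Let `K = max (C/2) 1`, `D = K(1-P) - (1-S)`: symmetric, `0 ≤ D ≤ K(1-P) ≤ K` so `S' = K⁻¹ D` satisfies `Pos S'`, `Pos (1 - S')`; `T = K(1-P) + (1-S)` is
  positive and commutes with `D`.  `PSForm.Pos.mul`: `0 ≤ ⟨S' T G, G⟩ = K⁻¹ (K² |(1-P)G|² - |(1-S)G|²)`.  So `|(1-S)G| ≤ K |(1-P)G|`.
  (`P_pos`, `P_pos'`, `Pos.add` in `Avg3.lean`/`Form.lean`.)
-/

set_option autoImplicit false

namespace Pool.Agent.SZ

open Pool.Agent.IRS MeasureTheory Set Filter Topology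

lemma LEG9_Rd_wcwp : Rd (fun t => wc * wp t) :=
  ⟨continuous_const.mul continuous_wp, fun t h => by simp only [wp_zero h, mul_zero]⟩

lemma LEG9_wcwp_nonneg (t : ℝ) : 0 ≤ (fun t => wc * wp t) t := mul_nonneg wc_pos.le (wp_nonneg t)

lemma LEG9_nui_nuK : nui nuK = nuK := by
  rw [nuK_eq_rad]
  exact nui_rad LEG9_Rd_wcwp

theorem A_P_comm {Z : Type*} [MeasurableSpace Z] {ζ : Measure Z} [SigmaFinite ζ]
    (a : PAct SL2R ζ) (F : BL2 ζ) : a.P nuK F = a.A nuK (a.A nuK F) := by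
  rw [a.P_apply]
  apply Subtype.ext
  funext z
  rw [a.A_apply, a.A_apply, LEG9_nui_nuK]

section

variable {Z : Type*} [MeasurableSpace Z] {ζ : Measure Z} [SigmaFinite ζ] (a : PAct SL2R ζ)

lemma LEG9_coe {f : ℝ → ℝ} (hf : Rd f) (h0 : ∀ t, 0 ≤ f t) [IsProbabilityMeasure (rad f)]
    (H : BL2 ζ) : ((a.A (rad f) H : BL2 ζ) : Z → ℝ) = RR a f (H : Z → ℝ) := by
  funext z
  rw [a.A_apply, rad_integral hf h0]
  rfl

lemma LEG9_coeK (H : BL2 ζ) :
    ((a.A nuK H : BL2 ζ) : Z → ℝ) = RR a (fun t => wc * wp t) (H : Z → ℝ) := by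
  funext z
  rw [a.A_apply, nuK_eq_rad, rad_integral LEG9_Rd_wcwp LEG9_wcwp_nonneg]
  rfl

lemma LEG9_comm {f : ℝ → ℝ} (hf : Rd f) (h0 : ∀ t, 0 ≤ f t) [IsProbabilityMeasure (rad f)]
    (H : BL2 ζ) : a.A (rad f) (a.A nuK H) = a.A nuK (a.A (rad f) H) := by
  apply Subtype.ext
  rw [LEG9_coe a hf h0, LEG9_coeK a, LEG9_coeK a, LEG9_coe a hf h0]
  exact RR_comm a hf LEG9_Rd_wcwp (bmeas H) (bbdd H)

lemma LEG9_symm {f : ℝ → ℝ} (hf : Rd f) [IsProbabilityMeasure (rad f)] (x y : BL2 ζ) :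
    (frm ζ).B (a.A (rad f) x) y = (frm ζ).B x (a.A (rad f) y) := by
  rw [a.adj (rad f)]
  simp only [nui_rad hf]

lemma LEG9_energy (m : Measure SL2R) [IsProbabilityMeasure m] (x : BL2 ζ) :
    ∫ h, a.ψ x h ^ 2 ∂m = 2 * ((frm ζ).B x x - (frm ζ).B (a.A m x) x) := by
  simp_rw [a.ψ_sq]
  rw [integral_sub (integrable_const _) ((a.B_T_integrable m x x).const_mul 2), integral_const,
    integral_const_mul, ← a.B_A m]
  simp
  ring

lemma LEG9_ae {f : ℝ → ℝ} (hf : Rd f) : ∀ᵐ h ∂(rad f), xx h ≤ 3 := by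
  unfold rad
  have hm : Measurable (fun g => ENNReal.ofReal (f (xx g))) :=
    (hf.cont.measurable.comp measurable_xx).ennreal_ofReal
  rw [ae_withDensity_iff hm]
  filter_upwards with g hg
  by_contra hcon
  push Not at hcon
  apply hg
  rw [hf.zero _ hcon.le, ENNReal.ofReal_zero]

end

theorem near_A : ∃ C : ℝ, 0 ≤ C ∧ ∀ (Z : Type) [MeasurableSpace Z] (ζ : Measure Z) [SigmaFinite ζ]
    (a : PAct SL2R ζ) (f : ℝ → ℝ) (_ : Rd f) (_ : ∀ t, 0 ≤ f t) (_ : ∫ g, f (xx g) ∂mH = 1)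
    [IsProbabilityMeasure (rad f)] (G : BL2 ζ),
    (frm ζ).nrm (G - a.A (rad f) G) ≤ C * (frm ζ).nrm (G - a.P nuK G) := by
  obtain ⟨C0, hC0, hpsi⟩ := psi_three
  refine ⟨max (C0 / 2) 1, le_max_of_le_right zero_le_one, ?_⟩
  intro Z _ ζ _ a f hf h0 _ _ G
  obtain ⟨K, hKdef⟩ : ∃ K, K = max (C0 / 2) 1 := ⟨_, rfl⟩
  rw [← hKdef]
  have hK1 : 1 ≤ K := hKdef ▸ le_max_right _ _
  have hKC : C0 / 2 ≤ K := hKdef ▸ le_max_left _ _
  have hK0 : 0 < K := by linarith
  -- the operators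
  obtain ⟨S, hS⟩ : ∃ S : Module.End ℝ (BL2 ζ), S = a.A (rad f) := ⟨_, rfl⟩
  obtain ⟨P, hP⟩ : ∃ P : Module.End ℝ (BL2 ζ), P = a.P nuK := ⟨_, rfl⟩
  obtain ⟨A, hA⟩ : ∃ A : Module.End ℝ (BL2 ζ), A = a.A nuK := ⟨_, rfl⟩
  have hSA : Commute S A := by
    refine LinearMap.ext fun x => ?_
    rw [Module.End.mul_apply, Module.End.mul_apply, hS, hA]
    exact LEG9_comm a hf h0 x
  have hPA : P = A * A := by
    refine LinearMap.ext fun x => ?_
    rw [Module.End.mul_apply, hP, hA]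
    exact A_P_comm a x
  have hSP : Commute S P := by
    rw [hPA]; exact hSA.mul_right hSA
  have sS : ∀ x y, (frm ζ).B (S x) y = (frm ζ).B x (S y) := by
    intro x y
    rw [hS]
    exact LEG9_symm a hf x y
  have pP : (frm ζ).Pos P := by rw [hP]; exact a.P_pos nuK
  have pU : (frm ζ).Pos (1 - P) := by rw [hP]; exact a.P_pos' nuK
  have eS : ∀ x, ∫ h, a.ψ x h ^ 2 ∂(rad f) = 2 * (frm ζ).B ((1 - S) x) x := by
    intro x
    rw [LEG9_energy a (rad f) x, hS]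
    simp only [LinearMap.sub_apply, Module.End.one_apply, map_sub]
  have eP : ∀ x, (frm ζ).B ((1 - P) x) x = a.E nuK x := by
    intro x
    rw [hP]
    simp only [LinearMap.sub_apply, Module.End.one_apply, map_sub]
    rw [a.B_P nuK]
    rfl
  have pV : (frm ζ).Pos (1 - S) := by
    refine ⟨fun x y => ?_, fun x => ?_⟩
    · simp only [LinearMap.sub_apply, Module.End.one_apply, map_sub, sS x y]
    · have h1 := eS x
      have h2 : 0 ≤ ∫ h, a.ψ x h ^ 2 ∂(rad f) := integral_nonneg fun h => sq_nonneg _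
      linarith
  have up : ∀ x, (frm ζ).B ((1 - S) x) x ≤ C0 / 2 * (frm ζ).B ((1 - P) x) x := by
    intro x
    have h1 := eS x
    have h2 : ∫ h, a.ψ x h ^ 2 ∂(rad f) ≤ ∫ _ : SL2R, C0 * a.E nuK x ∂(rad f) := by
      refine integral_mono_of_nonneg (by filter_upwards with g; positivity)
        (integrable_const _) ?_
      filter_upwards [LEG9_ae hf] with h hh
      exact hpsi Z ζ a x h hh
    rw [integral_const, probReal_univ, one_smul] at h2
    rw [eP]
    linarith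
  -- the two operators
  obtain ⟨U, hU⟩ : ∃ U : Module.End ℝ (BL2 ζ), U = 1 - P := ⟨_, rfl⟩
  obtain ⟨V, hV⟩ : ∃ V : Module.End ℝ (BL2 ζ), V = 1 - S := ⟨_, rfl⟩
  rw [← hU] at pU
  rw [← hV] at pV
  simp only [← hU, ← hV] at up
  have hSPx : ∀ x, S (P x) = P (S x) := fun x => by
    have := congrArg (fun L : Module.End ℝ (BL2 ζ) => L x) hSP.eq
    simpa using this
  have hUV : ∀ x, U (V x) = V (U x) := by
    intro x
    rw [hU, hV]
    simp only [LinearMap.sub_apply, Module.End.one_apply, map_sub, hSPx]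
    abel
  have hDT : Commute (K⁻¹ • (K • U - V)) (K • U + V) := by
    refine LinearMap.ext fun x => ?_
    simp only [Module.End.mul_apply, LinearMap.sub_apply, LinearMap.smul_apply,
      LinearMap.add_apply, map_sub, map_add, map_smul, hUV]
    module
  have pT : (frm ζ).Pos (K • U + V) := by
    refine ⟨fun x y => ?_, fun x => ?_⟩
    · simp only [LinearMap.add_apply, LinearMap.smul_apply, map_add, map_smul, smul_eq_mul,
        pU.symm x y, pV.symm x y]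
    · have h1 := pU.nonneg x
      have h2 := pV.nonneg x
      simp only [LinearMap.add_apply, LinearMap.smul_apply, map_add, map_smul, smul_eq_mul]
      have := mul_nonneg hK0.le h1
      linarith
  have pD : (frm ζ).Pos (K⁻¹ • (K • U - V)) := by
    refine ⟨fun x y => ?_, fun x => ?_⟩
    · simp only [LinearMap.sub_apply, LinearMap.smul_apply, map_sub, map_smul, smul_eq_mul,
        pU.symm x y, pV.symm x y]
    · have h1 := pU.nonneg x
      have h2 := up x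
      simp only [LinearMap.sub_apply, LinearMap.smul_apply, map_sub, map_smul, smul_eq_mul]
      have h3 : C0 / 2 * (frm ζ).B (U x) x ≤ K * (frm ζ).B (U x) x :=
        mul_le_mul_of_nonneg_right hKC h1
      exact mul_nonneg (inv_nonneg.2 hK0.le) (by linarith)
  have e1 : (1 : Module.End ℝ (BL2 ζ)) - K⁻¹ • (K • U - V) = P + K⁻¹ • V := by
    refine LinearMap.ext fun x => ?_
    rw [hU]
    simp only [LinearMap.sub_apply, LinearMap.smul_apply, LinearMap.add_apply,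
      Module.End.one_apply, smul_sub, smul_smul, inv_mul_cancel₀ hK0.ne', one_smul]
    abel
  have pD' : (frm ζ).Pos (1 - K⁻¹ • (K • U - V)) := by
    rw [e1]
    refine pP.add ⟨fun x y => ?_, fun x => ?_⟩
    · simp only [LinearMap.smul_apply, map_smul, smul_eq_mul, pV.symm x y]
    · simp only [LinearMap.smul_apply, map_smul, smul_eq_mul]
      exact mul_nonneg (inv_nonneg.2 hK0.le) (pV.nonneg x)
  have pM := PSForm.Pos.mul pD pD' pT hDT
  have h1 := pM.nonneg G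
  rw [Module.End.mul_apply, pD.symm] at h1
  have h2 : (frm ζ).B ((K • U + V) G) ((K⁻¹ • (K • U - V)) G)
      = K⁻¹ * (K ^ 2 * (frm ζ).B (U G) (U G) - (frm ζ).B (V G) (V G)) := by
    simp only [LinearMap.sub_apply, LinearMap.smul_apply, LinearMap.add_apply, map_sub, map_add,
      map_smul, smul_eq_mul]
    rw [(frm ζ).symm (V G) (U G)]
    ring
  rw [h2] at h1
  have h3 : 0 ≤ K ^ 2 * (frm ζ).B (U G) (U G) - (frm ζ).B (V G) (V G) := by
    by_contra hneg
    push Not at hneg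
    have : K⁻¹ * (K ^ 2 * (frm ζ).B (U G) (U G) - (frm ζ).B (V G) (V G)) < 0 :=
      mul_neg_of_pos_of_neg (inv_pos.2 hK0) hneg
    linarith
  have e2 : G - a.A (rad f) G = V G := by rw [hV, hS]; rfl
  have e3 : G - a.P nuK G = U G := by rw [hU, hP]; rfl
  rw [e2, e3]
  have n1 := (frm ζ).nrm_sq (V G)
  have n2 := (frm ζ).nrm_sq (U G)
  have n3 := (frm ζ).nrm_nonneg (V G)
  have n4 := (frm ζ).nrm_nonneg (U G)
  have h4 : (frm ζ).nrm (V G) ^ 2 ≤ (K * (frm ζ).nrm (U G)) ^ 2 := by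
    rw [mul_pow, n1, n2]; linarith
  exact le_of_sq_le_sq h4 (mul_nonneg hK0.le n4)

end Pool.Agent.SZ
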