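import Mathlib

/-!
# SZ.LEG.10: Minkowski's inequality   (independent, Mathlib only)

With `I = ∫ m dν`: for each `z`, `(∫ m Q_s(z) dν)² ≤ I ∫ m Q_s(z)² dν` (Cauchy-Schwarz: `∫ m (Q - λ)² ≥ 0` for all real `λ`, or
`integral_mul_le_Lp_mul_Lq`; if `I = 0` then `m = 0` a.e.), integrate in `z` and use Fubini (`m Q²` is integrable on the product: `m` integrable,
`∫ Q_s² dζ ≤ B` for all `s`): the result is at most `I ∫ m(s) (∫ Q_s² dζ) dν(s) ≤ I² B`.
-/

set_option autoImplicit false

namespace Pool.Agent.SZ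

open MeasureTheory Set Filter Topology

theorem mink {S Z : Type*} [MeasurableSpace S] [MeasurableSpace Z] (ν : Measure S)
    [IsFiniteMeasure ν] (ζ : Measure Z) [SigmaFinite ζ] (m : S → ℝ) (hm : Measurable m)
    (hm0 : ∀ᵐ s ∂ν, 0 ≤ m s) (hmi : Integrable m ν) (Q : S → Z → ℝ)
    (hQ : Measurable (fun p : S × Z => Q p.1 p.2)) (hb : ∃ M, ∀ s z, |Q s z| ≤ M) (B : ℝ)
    (hB : ∀ s, Integrable (fun z => Q s z ^ 2) ζ ∧ ∫ z, Q s z ^ 2 ∂ζ ≤ B) :
    Integrable (fun z => (∫ s, m s * Q s z ∂ν) ^ 2) ζ ∧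
      ∫ z, (∫ s, m s * Q s z ∂ν) ^ 2 ∂ζ ≤ (∫ s, m s ∂ν) ^ 2 * B := by
  obtain ⟨M, hM⟩ := hb
  set I : ℝ := ∫ s, m s ∂ν with hI
  have hI0 : 0 ≤ I := integral_nonneg_of_ae hm0
  have hQz : ∀ z, Measurable (fun s => Q s z) := fun z =>
    hQ.comp (measurable_id.prodMk measurable_const)
  have hi1 : ∀ z, Integrable (fun s => m s * Q s z) ν := by
    intro z
    refine (hmi.mul_const M).mono (hm.mul (hQz z)).aestronglyMeasurable ?_
    filter_upwards with s
    rw [Real.norm_eq_abs, Real.norm_eq_abs, abs_mul, abs_mul]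
    exact mul_le_mul_of_nonneg_left ((hM s z).trans (le_abs_self M)) (abs_nonneg _)
  have hi2 : ∀ z, Integrable (fun s => m s * Q s z ^ 2) ν := by
    intro z
    refine (hmi.mul_const (M ^ 2)).mono (hm.mul ((hQz z).pow_const 2)).aestronglyMeasurable ?_
    filter_upwards with s
    rw [Real.norm_eq_abs, Real.norm_eq_abs, abs_mul, abs_mul]
    refine mul_le_mul_of_nonneg_left ?_ (abs_nonneg _)
    rw [abs_pow, abs_of_nonneg (sq_nonneg M)]
    exact pow_le_pow_left₀ (abs_nonneg _) (hM s z) 2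
  -- Cauchy-Schwarz
  have hcs : ∀ z, (∫ s, m s * Q s z ∂ν) ^ 2 ≤ I * ∫ s, m s * Q s z ^ 2 ∂ν := by
    intro z
    have h1 : ∀ x : ℝ, 0 ≤ I * (x * x) + (-2 * ∫ s, m s * Q s z ∂ν) * x
        + ∫ s, m s * Q s z ^ 2 ∂ν := by
      intro x
      have h2 : 0 ≤ ∫ s, m s * (Q s z - x) ^ 2 ∂ν := by
        apply integral_nonneg_of_ae
        filter_upwards [hm0] with s hs
        exact mul_nonneg hs (sq_nonneg _)
      have h3 : ∫ s, m s * (Q s z - x) ^ 2 ∂ν
          = ∫ s, m s * Q s z ^ 2 ∂ν - (2 * x) * ∫ s, m s * Q s z ∂ν + (x * x) * I := by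
        have e : (fun s => m s * (Q s z - x) ^ 2)
            = fun s => (m s * Q s z ^ 2 - (2 * x) * (m s * Q s z)) + (x * x) * m s := by
          ext s; ring
        have h5 : Integrable (fun s => m s * Q s z ^ 2 - (2 * x) * (m s * Q s z)) ν :=
          (hi2 z).sub ((hi1 z).const_mul _)
        rw [e, integral_add h5 (hmi.const_mul _),
          integral_sub (hi2 z) ((hi1 z).const_mul _), integral_const_mul, integral_const_mul]
      rw [h3] at h2
      linarith
    have h4 := discrim_le_zero h1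
    unfold discrim at h4
    nlinarith
  -- the product
  have hmeas : Measurable (fun p : S × Z => m p.1 * Q p.1 p.2 ^ 2) :=
    (hm.comp measurable_fst).mul (hQ.pow_const 2)
  have hprod : Integrable (Function.uncurry fun (s : S) (z : Z) => m s * Q s z ^ 2) (ν.prod ζ) := by
    change Integrable (fun p : S × Z => m p.1 * Q p.1 p.2 ^ 2) (ν.prod ζ)
    rw [integrable_prod_iff hmeas.aestronglyMeasurable]
    refine ⟨?_, ?_⟩
    · filter_upwards with s
      exact (hB s).1.const_mul _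
    · have e : (fun s => ∫ z, ‖m s * Q s z ^ 2‖ ∂ζ) = fun s => |m s| * ∫ z, Q s z ^ 2 ∂ζ := by
        ext s
        rw [← integral_const_mul]
        congr 1; ext z
        rw [Real.norm_eq_abs, abs_mul, abs_of_nonneg (sq_nonneg (Q s z))]
      rw [e]
      have hmI : Measurable (fun s => ∫ z, Q s z ^ 2 ∂ζ) :=
        (hQ.pow_const 2).stronglyMeasurable.integral_prod_right'.measurable
      refine (hmi.mul_const B).mono (hm.abs.mul hmI).aestronglyMeasurable ?_
      filter_upwards with s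
      rw [Real.norm_eq_abs, Real.norm_eq_abs, abs_mul, abs_mul, abs_abs]
      refine mul_le_mul_of_nonneg_left ?_ (abs_nonneg _)
      rw [abs_of_nonneg (integral_nonneg fun z => sq_nonneg _)]
      exact (hB s).2.trans (le_abs_self B)
  have hSg : Integrable (fun z => ∫ s, m s * Q s z ^ 2 ∂ν) ζ := hprod.integral_prod_right
  have hQm : StronglyMeasurable (fun z => ∫ s, m s * Q s z ∂ν) := by
    have : Measurable (fun p : S × Z => m p.1 * Q p.1 p.2) := (hm.comp measurable_fst).mul hQ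
    exact this.stronglyMeasurable.integral_prod_left'
  have hint : Integrable (fun z => (∫ s, m s * Q s z ∂ν) ^ 2) ζ := by
    refine (hSg.const_mul I).mono' (hQm.measurable.pow_const 2).aestronglyMeasurable ?_
    filter_upwards with z
    rw [Real.norm_eq_abs, abs_of_nonneg (sq_nonneg _)]
    exact hcs z
  refine ⟨hint, ?_⟩
  calc ∫ z, (∫ s, m s * Q s z ∂ν) ^ 2 ∂ζ ≤ ∫ z, I * ∫ s, m s * Q s z ^ 2 ∂ν ∂ζ :=
        integral_mono hint (hSg.const_mul I) hcs
    _ = I * ∫ z, ∫ s, m s * Q s z ^ 2 ∂ν ∂ζ := integral_const_mul _ _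
    _ = I * ∫ s, ∫ z, m s * Q s z ^ 2 ∂ζ ∂ν := by rw [integral_integral_swap hprod]
    _ = I * ∫ s, m s * ∫ z, Q s z ^ 2 ∂ζ ∂ν := by
        simp_rw [integral_const_mul]
    _ ≤ I * ∫ s, m s * B ∂ν := by
        refine mul_le_mul_of_nonneg_left ?_ hI0
        have h5 : Integrable (fun s => m s * ∫ z, Q s z ^ 2 ∂ζ) ν := by
          have := hprod.integral_prod_left
          refine this.congr ?_
          filter_upwards with s
          exact integral_const_mul (m s) (fun z => Q s z ^ 2)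
        refine integral_mono_ae h5 (hmi.mul_const B) ?_
        filter_upwards [hm0] with s hs
        exact mul_le_mul_of_nonneg_left (hB s).2 hs
    _ = I ^ 2 * B := by rw [integral_mul_const]; ring

end Pool.Agent.SZ
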