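import Mathlib
import Pool.Agent.SZ.LEGD

/-!
# SZ.LEG.11: growth of `xx`   (independent)

* `xx_mul_le`: by Cauchy-Schwarz for each entry, `2 xx (u g) = |u g|_HS² ≤ |u|_HS² |g|_HS² = (2 xx u)(2 xx g)`, so `xx (u g) ≤ 2 xx u xx g`, and `2 xx u ≤ nS u²` (`two_xx_le`).
* `exists_cosh`: `one_le_xx` and `Real.cosh_surjOn`/intermediate value theorem (cosh is continuous, `cosh 0 = 1`, unbounded); e.g. `r = arcosh`
  or `r = log (x + √(x²-1))`.
* `cosh_step`: if `cosh r' ≤ C cosh r`, `r, r' ≥ 0`: `e^{r'}/2 ≤ cosh r' ≤ C cosh r ≤ C e^r`, so `r' ≤ r + log (2 C)`.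
* `step`: combine, for `nS u ≤ 20` (also with `g = u⁻¹ (u g)`, `nS_inv`): `C = 400`.
-/

set_option autoImplicit false

namespace Pool.Agent.SZ

open Pool.Agent.IRS MeasureTheory Set Filter Topology

lemma xx_mul_le (u g : SL2R) : xx (u * g) ≤ nS u ^ 2 * xx g := by
  have h1 : xx (u * g) ≤ (2 * xx u) * xx g := by
    unfold xx
    have e : ∀ i j : Fin 2, (u * g) i j = u i 0 * g 0 j + u i 1 * g 1 j := by
      intro i j
      rw [Matrix.SpecialLinearGroup.coe_mul, Matrix.mul_apply, Fin.sum_univ_two]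
    rw [e 0 0, e 0 1, e 1 0, e 1 1]
    nlinarith [sq_nonneg (u 0 0 * g 1 0 - u 0 1 * g 0 0), sq_nonneg (u 0 0 * g 1 1 - u 0 1 * g 0 1),
      sq_nonneg (u 1 0 * g 1 0 - u 1 1 * g 0 0), sq_nonneg (u 1 0 * g 1 1 - u 1 1 * g 0 1)]
  exact h1.trans (mul_le_mul_of_nonneg_right (two_xx_le u) (xx_nonneg g))

lemma exists_cosh (g : SL2R) : ∃ r : ℝ, 0 ≤ r ∧ xx g = Real.cosh r :=
  ⟨Real.arcosh (xx g), Real.arcosh_nonneg (one_le_xx g), (Real.cosh_arcosh (one_le_xx g)).symm⟩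

lemma cosh_step {r r' C : ℝ} (hr : 0 ≤ r) (hr' : 0 ≤ r') (hC : 1 ≤ C)
    (h : Real.cosh r' ≤ C * Real.cosh r) : r' ≤ r + Real.log (2 * C) := by
  have h1 : Real.exp r' / 2 ≤ Real.cosh r' := by
    rw [Real.cosh_eq]
    have := Real.exp_pos (-r')
    linarith
  have h2 : Real.cosh r ≤ Real.exp r := by
    rw [Real.cosh_eq]
    have : Real.exp (-r) ≤ Real.exp r := Real.exp_le_exp.2 (by linarith)
    linarith
  have hC0 : 0 < C := by linarith
  have h3 : Real.exp r' ≤ 2 * C * Real.exp r := by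
    have := mul_le_mul_of_nonneg_left h2 hC0.le
    linarith
  have h4 := Real.log_le_log (Real.exp_pos r') h3
  rw [Real.log_exp, Real.log_mul (by positivity) (Real.exp_pos r).ne', Real.log_exp] at h4
  linarith

theorem step {u g : SL2R} (hu : nS u ≤ 20) : ∃ r r' : ℝ, 0 ≤ r ∧ 0 ≤ r' ∧ xx g = Real.cosh r ∧
    xx (u * g) = Real.cosh r' ∧ |r' - r| ≤ Real.log 800 := by
  obtain ⟨r, hr, hg⟩ := exists_cosh g
  obtain ⟨r', hr', hg'⟩ := exists_cosh (u * g)
  refine ⟨r, r', hr, hr', hg, hg', ?_⟩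
  have hu0 : 0 ≤ nS u := (nS_pos u).le
  have hu2 : nS u ^ 2 ≤ 400 := by nlinarith
  have h1 : Real.cosh r' ≤ 400 * Real.cosh r := by
    rw [← hg, ← hg']
    exact (xx_mul_le u g).trans (mul_le_mul_of_nonneg_right hu2 (xx_nonneg g))
  have h2 : Real.cosh r ≤ 400 * Real.cosh r' := by
    rw [← hg, ← hg']
    have h3 := xx_mul_le u⁻¹ (u * g)
    rw [inv_mul_cancel_left, nS_inv] at h3
    exact h3.trans (mul_le_mul_of_nonneg_right hu2 (xx_nonneg _))
  have h3 := cosh_step hr hr' (by norm_num) h1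
  have h4 := cosh_step hr' hr (by norm_num) h2
  have e : (2 : ℝ) * 400 = 800 := by norm_num
  rw [e] at h3 h4
  rw [abs_le]
  constructor <;> linarith

end Pool.Agent.SZ
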