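import Mathlib
import Pool.Agent.SZ.LEG06
import Pool.Agent.SZ.LEG09
import Pool.Agent.SZ.LEG10
import Pool.Agent.SZ.LEG11

/-!
# SZ.LEG.12: assembly of part LEG
-/

set_option autoImplicit false

namespace Pool.Agent.SZ

open Pool.Agent.IRS MeasureTheory Set Filter Topology

/-- The positive part of the radial Laplacian. -/
noncomputable def wP (t : ℝ) : ℝ := max 0 (wL t)

/-- The negative part of the radial Laplacian. -/
noncomputable def wN (t : ℝ) : ℝ := max 0 (-wL t)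

lemma wP_sub_wN (t : ℝ) : wP t - wN t = wL t := by
  unfold wP wN
  rcases le_total 0 (wL t) with h | h
  · rw [max_eq_right h, max_eq_left (by linarith)]; ring
  · rw [max_eq_left h, max_eq_right (by linarith)]; ring

lemma Rd_wP : Rd wP := ⟨continuous_const.max continuous_wL, fun t h => by
  unfold wP; rw [Rd_wL.zero t h]; simp⟩

lemma Rd_wN : Rd wN := ⟨continuous_const.max continuous_wL.neg, fun t h => by
  unfold wN; rw [Rd_wL.zero t h]; simp⟩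

lemma wP_nonneg (t : ℝ) : 0 ≤ wP t := le_max_left _ _
lemma wN_nonneg (t : ℝ) : 0 ≤ wN t := le_max_left _ _

/-- The mass. -/
noncomputable def mL : ℝ := ∫ g, wN (xx g) ∂mH

lemma mL_eq : ∫ g, wP (xx g) ∂mH = mL := by
  have h := int_wL
  have e : (fun g : SL2R => wL (xx g)) = fun g => wP (xx g) - wN (xx g) := by
    ext g; rw [wP_sub_wN]
  rw [e, integral_sub Rd_wP.int Rd_wN.int] at h
  unfold mL; linarith

lemma continuous_xx : Continuous xx := by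
  have hcont : Continuous (fun g : SL2R => (g : Matrix (Fin 2) (Fin 2) ℝ)) :=
    continuous_subtype_val
  unfold xx
  exact (((((hcont.matrix_elem 0 0).pow 2).add ((hcont.matrix_elem 0 1).pow 2)).add
    ((hcont.matrix_elem 1 0).pow 2)).add ((hcont.matrix_elem 1 1).pow 2)).div_const 2

lemma mL_pos : 0 < mL := by
  unfold mL
  rw [integral_pos_iff_support_of_nonneg (fun g => wN_nonneg _) Rd_wN.int]
  have hU : IsOpen {g : SL2R | wN (xx g) ≠ 0} :=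
    isOpen_ne_fun (Rd_wN.cont.comp continuous_xx) continuous_const
  refine lt_of_lt_of_le (mH_open_pos hU ⟨1, ?_⟩) (measure_mono fun g hg => hg)
  change wN (xx 1) ≠ 0
  rw [xx_one]
  unfold wN wL
  norm_num

/-- The normalised parts. -/
noncomputable def fP (t : ℝ) : ℝ := mL⁻¹ * wP t
noncomputable def fN (t : ℝ) : ℝ := mL⁻¹ * wN t

lemma Rd_fP : Rd fP := ⟨continuous_const.mul Rd_wP.cont, fun t h => by
  unfold fP; rw [Rd_wP.zero t h, mul_zero]⟩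
lemma Rd_fN : Rd fN := ⟨continuous_const.mul Rd_wN.cont, fun t h => by
  unfold fN; rw [Rd_wN.zero t h, mul_zero]⟩
lemma fP_nonneg (t : ℝ) : 0 ≤ fP t := mul_nonneg (inv_nonneg.2 mL_pos.le) (wP_nonneg t)
lemma fN_nonneg (t : ℝ) : 0 ≤ fN t := mul_nonneg (inv_nonneg.2 mL_pos.le) (wN_nonneg t)
lemma fP_int : ∫ g, fP (xx g) ∂mH = 1 := by
  unfold fP
  rw [integral_const_mul, mL_eq, inv_mul_cancel₀ mL_pos.ne']
lemma fN_int : ∫ g, fN (xx g) ∂mH = 1 := by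
  unfold fN
  rw [integral_const_mul]
  exact inv_mul_cancel₀ mL_pos.ne'

instance : IsProbabilityMeasure (rad fP) := rad_prob Rd_fP fP_nonneg fP_int
instance : IsProbabilityMeasure (rad fN) := rad_prob Rd_fN fN_nonneg fN_int

section

variable {Z : Type} [MeasurableSpace Z] {ζ : Measure Z} [SigmaFinite ζ] (a : PAct SL2R ζ)

/-- The radial operator of `wL` as an element of `BL2`. -/
noncomputable def VV (G : BL2 ζ) : BL2 ζ := mL • (a.A (rad fP) G - a.A (rad fN) G)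

lemma VV_apply (G : BL2 ζ) (z : Z) : ((VV a G : BL2 ζ) : Z → ℝ) z = RR a wL (G : Z → ℝ) z := by
  have h1 : ((VV a G : BL2 ζ) : Z → ℝ) z
      = mL * (((a.A (rad fP) G : BL2 ζ) : Z → ℝ) z - ((a.A (rad fN) G : BL2 ζ) : Z → ℝ) z) := rfl
  rw [h1, a.A_apply, a.A_apply, rad_integral Rd_fP fP_nonneg, rad_integral Rd_fN fN_nonneg]
  unfold RR
  have hiP := RR_int a Rd_fP (bmeas G) (bbdd G) z
  have hiN := RR_int a Rd_fN (bmeas G) (bbdd G) z
  rw [← integral_sub hiP hiN, ← integral_const_mul]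
  congr 1; ext h
  rw [← wP_sub_wN]
  unfold fP fN
  have := mL_pos.ne'
  field_simp

lemma VV_nrm {C : ℝ} (hC : ∀ (f : ℝ → ℝ) (_ : Rd f) (_ : ∀ t, 0 ≤ f t)
    (_ : ∫ g, f (xx g) ∂mH = 1) [IsProbabilityMeasure (rad f)] (G : BL2 ζ),
    (frm ζ).nrm (G - a.A (rad f) G) ≤ C * (frm ζ).nrm (G - a.P nuK G)) (G : BL2 ζ) :
    (frm ζ).nrm (VV a G) ≤ mL * (2 * C) * (frm ζ).nrm (G - a.P nuK G) := by
  unfold VV
  rw [(frm ζ).nrm_smul, abs_of_pos mL_pos]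
  have h1 := hC fP Rd_fP fP_nonneg fP_int G
  have h2 := hC fN Rd_fN fN_nonneg fN_int G
  have h3 := (frm ζ).nrm_sub_le (a.A (rad fP) G) G (a.A (rad fN) G)
  rw [(frm ζ).nrm_sub_comm (a.A (rad fP) G) G] at h3
  have h4 : (frm ζ).nrm (a.A (rad fP) G - a.A (rad fN) G)
      ≤ 2 * C * (frm ζ).nrm (G - a.P nuK G) := by linarith
  calc mL * (frm ζ).nrm (a.A (rad fP) G - a.A (rad fN) G)
      ≤ mL * (2 * C * (frm ζ).nrm (G - a.P nuK G)) := mul_le_mul_of_nonneg_left h4 mL_pos.le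
    _ = _ := by ring

/-- Spherical averages are bounded. -/
lemma sph_le (V : BL2 ζ) (g : SL2R) :
    Integrable (fun z => (∫ θ in (0 : ℝ)..(2 * Real.pi), (V : Z → ℝ) (a.τ (g * kk θ) z)) ^ 2) ζ ∧
    ∫ z, (∫ θ in (0 : ℝ)..(2 * Real.pi), (V : Z → ℝ) (a.τ (g * kk θ) z)) ^ 2 ∂ζ
      ≤ (2 * Real.pi) ^ 2 * (frm ζ).nrm V ^ 2 := by
  have hpi : (0 : ℝ) ≤ 2 * Real.pi := by positivity
  have hm : Measurable (fun p : ℝ × Z => (V : Z → ℝ) (a.τ (g * kk p.1) p.2)) := by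
    have h1 : Measurable (fun p : ℝ × Z => ((g * kk p.1, p.2) : SL2R × Z)) :=
      ((measurable_const_mul g).comp (measurable_kk.comp measurable_fst)).prodMk measurable_snd
    exact (a.meas_comp (bmeas V)).comp h1
  obtain ⟨M, hM⟩ := bbdd V
  have h := mink (volume.restrict (Ioc 0 (2 * Real.pi))) ζ (fun _ => 1) measurable_const
    (by filter_upwards with s; norm_num) (integrable_const _)
    (fun θ z => (V : Z → ℝ) (a.τ (g * kk θ) z)) hm ⟨M, fun s z => hM _⟩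
    ((frm ζ).nrm V ^ 2) (fun θ => by
      refine ⟨(a.mp (g * kk θ)).integrable_comp_of_integrable (bsq V), ?_⟩
      rw [nrm_sq_eq]
      exact (a.integral_comp (g * kk θ) (F := fun z => (V : Z → ℝ) z ^ 2)
        ((bmeas V).pow_const 2)).le)
  have e : ∀ z, (∫ θ in (0 : ℝ)..(2 * Real.pi), (V : Z → ℝ) (a.τ (g * kk θ) z))
      = ∫ s, (fun _ : ℝ => (1 : ℝ)) s * (V : Z → ℝ) (a.τ (g * kk s) z)
          ∂(volume.restrict (Ioc 0 (2 * Real.pi))) := by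
    intro z
    rw [intervalIntegral.integral_of_le hpi]
    congr 1; ext s; ring
  have hmass : (∫ _ : ℝ, (1 : ℝ) ∂(volume.restrict (Ioc 0 (2 * Real.pi)))) = 2 * Real.pi := by
    simp [Real.pi_pos.le]
  refine ⟨?_, ?_⟩
  · simp_rw [e]; exact h.1
  · simp_rw [e]
    refine h.2.trans ?_
    rw [hmass]

lemma Q_meas (V : BL2 ζ) : Measurable (fun p : (ℝ × ℝ) × Z =>
    ∫ θ in (0 : ℝ)..(2 * Real.pi), (V : Z → ℝ) (a.τ (dd (p.1.1 * p.1.2) * kk θ) p.2)) := by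
  have hpi : (0 : ℝ) ≤ 2 * Real.pi := by positivity
  simp_rw [intervalIntegral.integral_of_le hpi]
  have h1 : Measurable (fun q : ((ℝ × ℝ) × Z) × ℝ =>
      ((dd (q.1.1.1 * q.1.1.2) * kk q.2, q.1.2) : SL2R × Z)) := by
    refine Measurable.prodMk ?_ (measurable_snd.comp measurable_fst)
    refine Measurable.mul ?_ (measurable_kk.comp measurable_snd)
    exact measurable_dd.comp (((measurable_fst.comp (measurable_fst.comp measurable_fst))).mul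
      ((measurable_snd.comp (measurable_fst.comp measurable_fst))))
  exact ((a.meas_comp (bmeas V)).comp h1).stronglyMeasurable.integral_prod_right'.measurable

lemma A_apply_nuK (G : BL2 ζ) (z : Z) :
    ((a.A nuK G : BL2 ζ) : Z → ℝ) z = wc * RR a wp (G : Z → ℝ) z := by
  rw [a.A_apply, nuK_integral]
  unfold RR wd
  rw [← integral_const_mul]
  congr 1; ext h; ring

/-- The difference of two spherical averages. -/
lemma diff_le (G : BL2 ζ) {g g' : SL2R} {r r' : ℝ} (hr : 0 ≤ r) (hrr : r ≤ r')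
    (hg : xx g = Real.cosh r) (hg' : xx g' = Real.cosh r') :
    ∫ z, ((∫ θ in (0 : ℝ)..(2 * Real.pi), RR a wp (G : Z → ℝ) (a.τ (g' * kk θ) z))
        - ∫ θ in (0 : ℝ)..(2 * Real.pi), RR a wp (G : Z → ℝ) (a.τ (g * kk θ) z)) ^ 2 ∂ζ
      ≤ (r' - r) ^ 2 * ((2 * Real.pi) ^ 2 * (frm ζ).nrm (VV a G) ^ 2) := by
  have e : ∀ z, (∫ θ in (0 : ℝ)..(2 * Real.pi), RR a wp (G : Z → ℝ) (a.τ (g' * kk θ) z))
        - ∫ θ in (0 : ℝ)..(2 * Real.pi), RR a wp (G : Z → ℝ) (a.τ (g * kk θ) z)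
      = ∫ p, (fun p : ℝ × ℝ => mm p.1 p.2) p * (fun (p : ℝ × ℝ) (z : Z) =>
          ∫ θ in (0 : ℝ)..(2 * Real.pi), ((VV a G : BL2 ζ) : Z → ℝ)
            (a.τ (dd (p.1 * p.2) * kk θ) z)) p z ∂(mu2 r r') := by
    intro z
    rw [RR_diff a (bmeas G) (bbdd G) hr hrr hg hg' z]
    simp_rw [VV_apply]
  simp_rw [e]
  obtain ⟨M, hM⟩ := bbdd (VV a G)
  have hmk := mink (mu2 r r') ζ (fun p : ℝ × ℝ => mm p.1 p.2) measurable_mm
    (mm_ae_nonneg hr r') (mm_integrable hr r')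
    (fun (p : ℝ × ℝ) (z : Z) => ∫ θ in (0 : ℝ)..(2 * Real.pi), ((VV a G : BL2 ζ) : Z → ℝ)
            (a.τ (dd (p.1 * p.2) * kk θ) z)) (Q_meas a (VV a G))
    ⟨M * |2 * Real.pi - 0|, fun p z => by
      have := intervalIntegral.norm_integral_le_of_norm_le_const (a := 0) (b := 2 * Real.pi)
        (C := M) (f := fun θ => ((VV a G : BL2 ζ) : Z → ℝ) (a.τ (dd (p.1 * p.2) * kk θ) z))
        (fun θ _ => by rw [Real.norm_eq_abs]; exact hM _)
      rwa [Real.norm_eq_abs] at this⟩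
    ((2 * Real.pi) ^ 2 * (frm ζ).nrm (VV a G) ^ 2) (fun p => sph_le a (VV a G) _)
  refine hmk.2.trans ?_
  have h0 : 0 ≤ ∫ p, mm p.1 p.2 ∂(mu2 r r') := integral_nonneg_of_ae (mm_ae_nonneg hr r')
  have h1 := mm_int_le hr hrr
  have h2 : 0 ≤ (2 * Real.pi) ^ 2 * (frm ζ).nrm (VV a G) ^ 2 := by positivity
  exact mul_le_mul_of_nonneg_right (pow_le_pow_left₀ h0 h1 2) h2

/-- The same without the order of the radii. -/
lemma diff_le' (G : BL2 ζ) {g g' : SL2R} {r r' L : ℝ} (hr : 0 ≤ r) (hr' : 0 ≤ r')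
    (hL : |r' - r| ≤ L) (hg : xx g = Real.cosh r) (hg' : xx g' = Real.cosh r') :
    ∫ z, ((∫ θ in (0 : ℝ)..(2 * Real.pi), RR a wp (G : Z → ℝ) (a.τ (g' * kk θ) z))
        - ∫ θ in (0 : ℝ)..(2 * Real.pi), RR a wp (G : Z → ℝ) (a.τ (g * kk θ) z)) ^ 2 ∂ζ
      ≤ L ^ 2 * ((2 * Real.pi) ^ 2 * (frm ζ).nrm (VV a G) ^ 2) := by
  have h2 : 0 ≤ (2 * Real.pi) ^ 2 * (frm ζ).nrm (VV a G) ^ 2 := by positivity
  have h3 : (r' - r) ^ 2 ≤ L ^ 2 := by
    rw [← sq_abs]; exact pow_le_pow_left₀ (abs_nonneg _) hL 2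
  rcases le_total r r' with h | h
  · exact (diff_le a G hr h hg hg').trans (mul_le_mul_of_nonneg_right h3 h2)
  · have h4 := diff_le a G hr' h hg' hg
    have e : ∀ z, ((∫ θ in (0 : ℝ)..(2 * Real.pi), RR a wp (G : Z → ℝ) (a.τ (g' * kk θ) z))
        - ∫ θ in (0 : ℝ)..(2 * Real.pi), RR a wp (G : Z → ℝ) (a.τ (g * kk θ) z)) ^ 2
        = ((∫ θ in (0 : ℝ)..(2 * Real.pi), RR a wp (G : Z → ℝ) (a.τ (g * kk θ) z))
        - ∫ θ in (0 : ℝ)..(2 * Real.pi), RR a wp (G : Z → ℝ) (a.τ (g' * kk θ) z)) ^ 2 := by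
      intro z; ring
    simp_rw [e]
    refine h4.trans (mul_le_mul_of_nonneg_right ?_ h2)
    calc (r - r') ^ 2 = (r' - r) ^ 2 := by ring
      _ ≤ L ^ 2 := h3

lemma nrm_A_le (F : BL2 ζ) : (frm ζ).nrm (a.A nuK F) ≤ (frm ζ).nrm F := by
  have h := a.E_nonneg nuK F
  unfold PAct.E at h
  unfold PSForm.nrm
  exact Real.sqrt_le_sqrt (by linarith)

lemma A_sub_P (F : BL2 ζ) :
    a.A nuK F - a.P nuK (a.A nuK F) = a.A nuK (F - a.P nuK F) := by
  rw [map_sub, A_P_comm, A_P_comm]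

end

theorem leg_proof : ∃ C : ℝ, 0 ≤ C ∧ ∀ (Z : Type) [MeasurableSpace Z] (ζ : Measure Z)
    [SigmaFinite ζ] (a : PAct SL2R ζ) (F : BL2 ζ) (u g : SL2R), nS u ≤ 20 →
    ∫ z, (∫ θ in (0 : ℝ)..(2 * Real.pi), (((a.P nuK F : BL2 ζ) : Z → ℝ) (a.τ (u * g * kk θ) z)
        - ((a.P nuK F : BL2 ζ) : Z → ℝ) (a.τ (g * kk θ) z))) ^ 2 ∂ζ
      ≤ C * (frm ζ).B (F - a.P nuK F) (F - a.P nuK F) := by
  obtain ⟨C0, hC0, hnear⟩ := near_A
  refine ⟨(wc * Real.log 800 * (2 * Real.pi) * (mL * (2 * C0))) ^ 2, sq_nonneg _, ?_⟩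
  intro Z _ ζ _ a F u g hu
  set G : BL2 ζ := a.A nuK F with hG
  obtain ⟨r, r', hr, hr', hg, hg', hL⟩ := step (u := u) (g := g) hu
  have hb := diff_le' a G hr hr' hL hg hg'
  obtain ⟨M, hM⟩ := RR_bdd a Rd_wp (bmeas G) (bbdd G)
  have hmz : ∀ (k : SL2R) (z : Z), IntervalIntegrable
      (fun θ => RR a wp (G : Z → ℝ) (a.τ (k * kk θ) z)) volume 0 (2 * Real.pi) := by
    intro k z
    have hm : Measurable (fun θ : ℝ => RR a wp (G : Z → ℝ) (a.τ (k * kk θ) z)) :=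
      (a.meas_sec (RR_meas a Rd_wp (bmeas G)) z).comp
        ((measurable_const_mul k).comp measurable_kk)
    rw [intervalIntegrable_iff, uIoc_of_le (by positivity)]
    refine Integrable.mono' (integrable_const M) hm.aestronglyMeasurable ?_
    filter_upwards with θ
    rw [Real.norm_eq_abs]; exact hM _
  have e : ∀ z, (∫ θ in (0 : ℝ)..(2 * Real.pi),
      (((a.P nuK F : BL2 ζ) : Z → ℝ) (a.τ (u * g * kk θ) z)
        - ((a.P nuK F : BL2 ζ) : Z → ℝ) (a.τ (g * kk θ) z))) ^ 2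
      = wc ^ 2 * ((∫ θ in (0 : ℝ)..(2 * Real.pi), RR a wp (G : Z → ℝ) (a.τ (u * g * kk θ) z))
        - ∫ θ in (0 : ℝ)..(2 * Real.pi), RR a wp (G : Z → ℝ) (a.τ (g * kk θ) z)) ^ 2 := by
    intro z
    rw [← mul_pow, ← intervalIntegral.integral_sub (hmz _ z) (hmz _ z),
      ← intervalIntegral.integral_const_mul]
    congr 2
    ext θ
    rw [A_P_comm, A_apply_nuK, A_apply_nuK]
    ring
  simp_rw [e]
  rw [integral_const_mul]
  have hV := VV_nrm a (C := C0) (fun f h1 h2 h3 _ G' => hnear Z ζ a f h1 h2 h3 G') G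
  have hA : (frm ζ).nrm (G - a.P nuK G) ≤ (frm ζ).nrm (F - a.P nuK F) := by
    rw [hG, A_sub_P]; exact nrm_A_le a _
  have hV2 : (frm ζ).nrm (VV a G) ≤ mL * (2 * C0) * (frm ζ).nrm (F - a.P nuK F) :=
    hV.trans (mul_le_mul_of_nonneg_left hA (by have := mL_pos; positivity))
  have hV3 : (frm ζ).nrm (VV a G) ^ 2 ≤ (mL * (2 * C0)) ^ 2 * (frm ζ).B (F - a.P nuK F)
      (F - a.P nuK F) := by
    have := pow_le_pow_left₀ ((frm ζ).nrm_nonneg _) hV2 2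
    rwa [mul_pow, (frm ζ).nrm_sq (F - a.P nuK F)] at this
  calc _ ≤ wc ^ 2 * (Real.log 800 ^ 2 * ((2 * Real.pi) ^ 2 * (frm ζ).nrm (VV a G) ^ 2)) :=
        mul_le_mul_of_nonneg_left hb (sq_nonneg _)
    _ ≤ wc ^ 2 * (Real.log 800 ^ 2 * ((2 * Real.pi) ^ 2 * ((mL * (2 * C0)) ^ 2 *
          (frm ζ).B (F - a.P nuK F) (F - a.P nuK F)))) := by gcongr
    _ = _ := by ring

end Pool.Agent.SZ
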