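import Mathlib

/-!
# L_SCH: Schnirelmann's theorem

`sch`: if `0 ∈ A` and `σ n ≤ #(A ∩ [1, n])` for all `n ≥ 1` (`0 < σ`), then there is `s = s(σ)`
such that every natural number is a sum of at most `s` elements of `A` (as a list).
It is important that `s` depends on `σ` only.

Proof.  For `A, B` with `0 ∈ A`, `0 ∈ B`, `#(A ∩ [1,n]) ≥ α n`, `#(B ∩ [1,n]) ≥ β n` for all `n`:
`#((A+B) ∩ [1,n]) ≥ (α + β - α β) n`.  Let `0 = a_0 < a_1 < ... < a_k` be the elements of
`A ∩ [0,n]` and `a_{k+1} = n + 1`; between `a_i` and `a_{i+1}` the set `A + B` contains `a_i + b`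
with `b ∈ B`, `1 ≤ b ≤ a_{i+1} - a_i - 1`, at least `β (a_{i+1} - a_i - 1)` numbers.  So the count is
at least `k + β (n - k) ≥ (α + β - αβ) n`.
A convenient induction for this: for `D(n) = #((A+B) ∩ [1,n])`, `a(n) = #(A ∩ [1,n])` prove
`D(n) ≥ a(n) + β (n - a(n))` by strong induction on `n`: let `a'` be the largest element of
`A ∩ [0,n]`; if `a' = 0` then `D(n) ≥ #(B ∩ [1,n]) ≥ β n` and `a(n) = 0`; if `a' ≥ 1`:
`D(n) ≥ D(a' - 1) + 1 + #(B ∩ [1, n - a'])` and `a(n) = a(a'-1) + 1`.
With `A_j` = sums of (lists of) `j` elements of `A` (as `0 ∈ A` this is increasing in `j`):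
`#(A_j ∩ [1,n]) ≥ (1 - (1 - σ)^j) n`.  Choose `j` with `(1-σ)^j < 1/2`.  Then `A_j + A_j = ℕ`: for `n ≥ 1`
the sets `A_j ∩ [0,n]` and `n - (A_j ∩ [0,n])` have more than `n/2 + 1` elements each (`0 ∈ A_j`)
in `[0,n]`, so they meet.  `s = 2j`.
-/

set_option autoImplicit false

namespace Pool.Agent.SZ

section SCH

open Classical in
/-- Counting function of a set of natural numbers on `[1, n]`. -/
private noncomputable def schCnt (A : Set ℕ) (n : ℕ) : ℕ :=
  ((Finset.Ioc 0 n).filter (fun a => a ∈ A)).card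

private theorem schCnt_le (A : Set ℕ) (n : ℕ) : schCnt A n ≤ n := by
  classical
  unfold schCnt
  refine (Finset.card_filter_le _ _).trans ?_
  simp

private theorem schCnt_mono {A B : Set ℕ} (h : A ⊆ B) (n : ℕ) : schCnt A n ≤ schCnt B n := by
  classical
  unfold schCnt
  apply Finset.card_le_card
  intro x hx
  simp only [Finset.mem_filter] at hx ⊢
  exact ⟨hx.1, h hx.2⟩

private theorem schCnt_card (A : Set ℕ) (n : ℕ) :
    Nat.card {a : ℕ | a ∈ A ∧ 1 ≤ a ∧ a ≤ n} = schCnt A n := by
  classical
  unfold schCnt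
  rw [← Nat.card_eq_finsetCard]
  apply Nat.card_congr
  refine Equiv.subtypeEquivRight ?_
  intro x
  simp only [Set.mem_setOf_eq, Finset.mem_filter, Finset.mem_Ioc]
  constructor
  · rintro ⟨h1, h2, h3⟩
    exact ⟨⟨by omega, h3⟩, h1⟩
  · rintro ⟨⟨h1, h2⟩, h3⟩
    exact ⟨h3, by omega, h2⟩

/-- Sumset. -/
private def schAdd (A B : Set ℕ) : Set ℕ := {m | ∃ a ∈ A, ∃ b ∈ B, a + b = m}

private theorem schStep {A B : Set ℕ} (hA : 0 ∈ A) (hB : 0 ∈ B) {β : ℝ}
    (hβ : ∀ n : ℕ, β * n ≤ (schCnt B n : ℝ)) (n : ℕ) :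
    (schCnt A n : ℝ) + β * (n - (schCnt A n : ℝ)) ≤ (schCnt (schAdd A B) n : ℝ) := by
  classical
  induction n using Nat.strong_induction_on with
  | _ n ih =>
    by_cases hne : ((Finset.Ioc 0 n).filter (fun a => a ∈ A)).Nonempty
    · -- the largest element
      set a' := ((Finset.Ioc 0 n).filter (fun a => a ∈ A)).max' hne with ha'
      have hmem : a' ∈ (Finset.Ioc 0 n).filter (fun a => a ∈ A) := Finset.max'_mem _ _
      have hmax : ∀ x ∈ (Finset.Ioc 0 n).filter (fun a => a ∈ A), x ≤ a' := fun x hx =>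
        Finset.le_max' _ x hx
      simp only [Finset.mem_filter, Finset.mem_Ioc] at hmem
      obtain ⟨⟨h1, h2⟩, h3⟩ := hmem
      have hlt : a' - 1 < n := by omega
      have hih := ih (a' - 1) hlt
      -- count of A
      have hcA : schCnt A n = schCnt A (a' - 1) + 1 := by
        unfold schCnt
        have : (Finset.Ioc 0 n).filter (fun a => a ∈ A) =
            insert a' ((Finset.Ioc 0 (a' - 1)).filter (fun a => a ∈ A)) := by
          ext x
          simp only [Finset.mem_filter, Finset.mem_Ioc, Finset.mem_insert]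
          constructor
          · rintro ⟨⟨hx1, hx2⟩, hx3⟩
            have := hmax x (by simp only [Finset.mem_filter, Finset.mem_Ioc]; exact ⟨⟨hx1, hx2⟩, hx3⟩)
            by_cases hxa : x = a'
            · exact Or.inl hxa
            · exact Or.inr ⟨⟨hx1, by omega⟩, hx3⟩
          · rintro (rfl | ⟨⟨hx1, hx2⟩, hx3⟩)
            · exact ⟨⟨h1, h2⟩, h3⟩
            · exact ⟨⟨hx1, by omega⟩, hx3⟩
        rw [this, Finset.card_insert_of_notMem]
        simp only [Finset.mem_filter, Finset.mem_Ioc, not_and]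
        intro hx
        omega
      -- count of the sum
      have hcD : schCnt (schAdd A B) (a' - 1) + 1 + schCnt B (n - a') ≤
          schCnt (schAdd A B) n := by
        unfold schCnt
        have hsub : ((Finset.Ioc 0 (a' - 1)).filter (fun a => a ∈ schAdd A B)) ∪
            (insert a' (((Finset.Ioc 0 (n - a')).filter (fun b => b ∈ B)).image (fun b => a' + b)))
            ⊆ (Finset.Ioc 0 n).filter (fun a => a ∈ schAdd A B) := by
          intro x hx
          simp only [Finset.mem_union, Finset.mem_filter, Finset.mem_Ioc, Finset.mem_insert,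
            Finset.mem_image] at hx ⊢
          rcases hx with ⟨⟨hx1, hx2⟩, hx3⟩ | rfl | ⟨b, ⟨⟨hb1, hb2⟩, hb3⟩, rfl⟩
          · exact ⟨⟨hx1, by omega⟩, hx3⟩
          · exact ⟨⟨h1, h2⟩, a', h3, 0, hB, by simp⟩
          · exact ⟨⟨by omega, by omega⟩, a', h3, b, hb3, rfl⟩
        have hdisj : Disjoint ((Finset.Ioc 0 (a' - 1)).filter (fun a => a ∈ schAdd A B))
            (insert a' (((Finset.Ioc 0 (n - a')).filter (fun b => b ∈ B)).image (fun b => a' + b))) := by
          rw [Finset.disjoint_left]
          intro x hx hx'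
          simp only [Finset.mem_filter, Finset.mem_Ioc, Finset.mem_insert, Finset.mem_image] at hx hx'
          rcases hx' with rfl | ⟨b, _, rfl⟩
          · omega
          · omega
        have hcard := Finset.card_le_card hsub
        rw [Finset.card_union_of_disjoint hdisj] at hcard
        have hni : a' ∉ (((Finset.Ioc 0 (n - a')).filter (fun b => b ∈ B)).image (fun b => a' + b)) := by
          simp only [Finset.mem_image, Finset.mem_filter, Finset.mem_Ioc, not_exists, not_and]
          intro b hb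
          omega
        rw [Finset.card_insert_of_notMem hni, Finset.card_image_of_injective _
          (fun x y h => by simpa using h)] at hcard
        omega
      have hcA' : (schCnt A n : ℝ) = schCnt A (a' - 1) + 1 := by exact_mod_cast hcA
      have hcD' : (schCnt (schAdd A B) (a' - 1) : ℝ) + 1 + schCnt B (n - a') ≤
          schCnt (schAdd A B) n := by exact_mod_cast hcD
      have hb := hβ (n - a')
      have e1 : ((a' - 1 : ℕ) : ℝ) = (a' : ℝ) - 1 := by
        rw [Nat.cast_sub (by omega)]; simp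
      have e2 : ((n - a' : ℕ) : ℝ) = (n : ℝ) - a' := by
        rw [Nat.cast_sub h2]
      rw [e1] at hih
      rw [e2] at hb
      rw [hcA']
      nlinarith
    · -- no positive element of `A` up to `n`
      have h0 : schCnt A n = 0 := by
        unfold schCnt
        rw [Finset.not_nonempty_iff_eq_empty] at hne
        rw [hne]; rfl
      have hBs : B ⊆ schAdd A B := by
        intro b hb
        exact ⟨0, hA, b, hb, by simp⟩
      have h1 : schCnt B n ≤ schCnt (schAdd A B) n := schCnt_mono hBs n
      have h1' : (schCnt B n : ℝ) ≤ schCnt (schAdd A B) n := by exact_mod_cast h1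
      rw [h0]
      have := hβ n
      push_cast
      linarith

/-- Sums of lists of length `j`. -/
private def schL (A : Set ℕ) (j : ℕ) : Set ℕ :=
  {m | ∃ l : List ℕ, l.length = j ∧ (∀ a ∈ l, a ∈ A) ∧ l.sum = m}

private theorem schL_zero_mem {A : Set ℕ} (hA : 0 ∈ A) (j : ℕ) : 0 ∈ schL A j := by
  refine ⟨List.replicate j 0, by simp, ?_, by simp⟩
  intro a ha
  rw [List.eq_of_mem_replicate ha]
  exact hA

private theorem schL_succ (A : Set ℕ) (j : ℕ) : schAdd A (schL A j) ⊆ schL A (j + 1) := by
  rintro m ⟨a, ha, b, ⟨l, hl1, hl2, rfl⟩, rfl⟩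
  refine ⟨a :: l, by simp [hl1], ?_, by simp⟩
  intro x hx
  rcases List.mem_cons.1 hx with rfl | hx
  · exact ha
  · exact hl2 x hx

private theorem schL_cnt {σ : ℝ} {A : Set ℕ} (hσ : 0 < σ) (hσ1 : σ ≤ 1) (hA : 0 ∈ A)
    (h : ∀ n : ℕ, σ * n ≤ (schCnt A n : ℝ)) (j : ℕ) :
    ∀ n : ℕ, (1 - (1 - σ) ^ j) * n ≤ (schCnt (schL A j) n : ℝ) := by
  induction j with
  | zero =>
    intro n
    simp
  | succ j ih =>
    intro n
    have h1 := schStep (A := A) (B := schL A j) hA (schL_zero_mem hA j) ih n
    have h2 : (schCnt (schAdd A (schL A j)) n : ℝ) ≤ schCnt (schL A (j + 1)) n := by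
      exact_mod_cast schCnt_mono (schL_succ A j) n
    have h3 := h n
    have hp0 : 0 ≤ (1 - σ) ^ j := pow_nonneg (by linarith) j
    have key : (1 - (1 - σ) ^ (j + 1)) * n ≤
        (schCnt A n : ℝ) + (1 - (1 - σ) ^ j) * (n - (schCnt A n : ℝ)) := by
      rw [pow_succ]
      nlinarith [mul_nonneg hp0 (sub_nonneg.2 h3)]
    linarith

end SCH

theorem sch {σ : ℝ} (hσ : 0 < σ) : ∃ s : ℕ, ∀ A : Set ℕ, 0 ∈ A →
    (∀ n : ℕ, 1 ≤ n → σ * n ≤ (Nat.card {a : ℕ | a ∈ A ∧ 1 ≤ a ∧ a ≤ n} : ℝ)) →
    ∀ n : ℕ, ∃ l : List ℕ, l.length = s ∧ (∀ a ∈ l, a ∈ A) ∧ l.sum = n := by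
  classical
  by_cases hσ1 : σ ≤ 1
  · obtain ⟨j, hj⟩ : ∃ j : ℕ, (1 - σ) ^ j < 1 / 2 :=
      exists_pow_lt_of_lt_one (by norm_num) (by linarith)
    refine ⟨j + j, ?_⟩
    intro A hA h n
    have h' : ∀ n : ℕ, σ * n ≤ (schCnt A n : ℝ) := by
      intro n
      rcases Nat.eq_zero_or_pos n with rfl | hn
      · simp
      · have := h n hn
        rwa [schCnt_card] at this
    have hc := schL_cnt hσ hσ1 hA h' j n
    -- two elements of `schL A j` with sum `n`
    have hex : ∃ a ∈ schL A j, ∃ b ∈ schL A j, a + b = n := by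
      rcases Nat.eq_zero_or_pos n with rfl | hn
      · exact ⟨0, schL_zero_mem hA j, 0, schL_zero_mem hA j, rfl⟩
      · have hn' : (0 : ℝ) < n := by exact_mod_cast hn
        have hgt : (n : ℝ) < 2 * (schCnt (schL A j) n : ℝ) := by nlinarith
        have hgt' : n < 2 * schCnt (schL A j) n := by exact_mod_cast hgt
        set S := (Finset.range (n + 1)).filter (fun m => m ∈ schL A j) with hS
        have hScard : schCnt (schL A j) n + 1 ≤ S.card := by
          unfold schCnt
          have hsub : insert 0 ((Finset.Ioc 0 n).filter (fun a => a ∈ schL A j)) ⊆ S := by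
            intro x hx
            simp only [hS, Finset.mem_insert, Finset.mem_filter, Finset.mem_Ioc,
              Finset.mem_range] at hx ⊢
            rcases hx with rfl | ⟨⟨hx1, hx2⟩, hx3⟩
            · exact ⟨by omega, schL_zero_mem hA j⟩
            · exact ⟨by omega, hx3⟩
          have := Finset.card_le_card hsub
          rw [Finset.card_insert_of_notMem (by simp)] at this
          exact this
        have hTcard : (S.image (fun m => n - m)).card = S.card := by
          apply Finset.card_image_of_injOn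
          intro x hx y hy hxy
          simp only [hS, Finset.coe_filter, Finset.mem_range, Set.mem_setOf_eq] at hx hy hxy
          omega
        have hnd : ¬ Disjoint S (S.image (fun m => n - m)) := by
          intro hd
          have hu := Finset.card_union_of_disjoint hd
          have hsub : S ∪ S.image (fun m => n - m) ⊆ Finset.range (n + 1) := by
            intro x hx
            simp only [hS, Finset.mem_union, Finset.mem_filter, Finset.mem_range,
              Finset.mem_image] at hx ⊢
            rcases hx with ⟨hx, _⟩ | ⟨m, _, rfl⟩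
            · exact hx
            · omega
          have hle := Finset.card_le_card hsub
          rw [hu, hTcard, Finset.card_range] at hle
          omega
        rw [Finset.not_disjoint_iff] at hnd
        obtain ⟨x, hx1, hx2⟩ := hnd
        simp only [hS, Finset.mem_filter, Finset.mem_range, Finset.mem_image] at hx1 hx2
        obtain ⟨m, ⟨hm1, hm2⟩, rfl⟩ := hx2
        exact ⟨n - m, hx1.2, m, hm2, by omega⟩
    obtain ⟨a, ⟨l1, h11, h12, rfl⟩, b, ⟨l2, h21, h22, rfl⟩, hab⟩ := hex
    refine ⟨l1 ++ l2, by simp [h11, h21], ?_, by simpa using hab⟩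
    intro x hx
    rcases List.mem_append.1 hx with hx | hx
    · exact h12 x hx
    · exact h22 x hx
  · refine ⟨0, ?_⟩
    intro A _ h
    exfalso
    have h1 := h 1 le_rfl
    rw [schCnt_card] at h1
    have h2 : (schCnt A 1 : ℝ) ≤ 1 := by exact_mod_cast schCnt_le A 1
    push_cast at h1
    linarith [not_le.1 hσ1]

end Pool.Agent.SZ
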