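import Pool.Agent.SZ.L_CMB

/-!
# L_SMS: adding several scales

Induction on the list, for all `R ≥ 0`.  `1 ≤ LamL`, `1 ≤ CL`, `0 ≤ E` (`cst_nonneg`), `0 ≤ A a` for
`a ∈ l` (`Gd.nonneg`).
`l = [a]`: `Gd.mono` (`R ≤ R * LamL`).
`l = a :: t`, `t ≠ []`: the induction hypothesis for `t` and the radius `R * LamL`
(`R * LamL * LamL ^ t.length = R * LamL ^ (t.length + 1)`) gives
`Gd H f (R * LamL) (2⁻¹ ^ (t.sum + 12)) ((2 CL)^t.length * (Σ A + E))`; `Gd.mono` for `a`
(`R * LamL ≤ R * LamL ^ l.length`, also for the two costs, `cst_mono`); `comb`;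
`CL * (A a + (2 CL)^k * (S + E) + E) ≤ (2 CL)^(k+1) * (A a + S + E)`.
-/

set_option autoImplicit false

namespace Pool.Agent.SZ

open Pool.Agent.IRS MeasureTheory Set Filter Topology

theorem gd_sum {H : Subgroup G2} {f : SL2R → ℝ} (hf : BM f) {vu vs : G2}
    (hvu : vu ∈ H) (hvs : vs ∈ H) (hu : dm vu.1 (uu 1) ≤ 1 / 10000000)
    (hs : dm vs.1 (vv 1) ≤ 1 / 10000000) {E : ℝ} (A : ℕ → ℝ) (l : List ℕ) :
    ∀ {R : ℝ}, 0 ≤ R → l ≠ [] → cst f (R * LamL ^ l.length) vu.1 ≤ E →
      cst f (R * LamL ^ l.length) vs.1 ≤ E →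
      (∀ a ∈ l, Gd H f (R * LamL ^ l.length) (2⁻¹ ^ (a + 12)) (A a)) →
      Gd H f R (2⁻¹ ^ (l.sum + 12)) ((2 * CL) ^ l.length * ((l.map A).sum + E)) := by
  have hLam1 : (1 : ℝ) ≤ LamL := by unfold LamL; norm_num
  have hLam0 : (0 : ℝ) ≤ LamL := by linarith
  have hCL : (1 : ℝ) ≤ CL := by unfold CL; norm_num
  induction l with
  | nil => intro R _ h; exact absurd rfl h
  | cons a t ih =>
    intro R hR _ hE1 hE2 hG
    have hE0 : 0 ≤ E := (cst_nonneg _ _ _).trans hE1
    have hGa : Gd H f (R * LamL ^ (a :: t).length) (2⁻¹ ^ (a + 12)) (A a) :=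
      hG a (List.mem_cons_self ..)
    have hA0 : 0 ≤ A a := by
      obtain ⟨g, _, _, _, hc⟩ := hGa
      exact (cst_nonneg _ _ _).trans hc
    have hpow : LamL ≤ LamL ^ (a :: t).length := by
      rw [List.length_cons]
      exact le_self_pow₀ hLam1 (by omega)
    have hRL : R * LamL ≤ R * LamL ^ (a :: t).length := mul_le_mul_of_nonneg_left hpow hR
    by_cases ht : t = []
    · subst ht
      obtain ⟨g, hgH, hg1, hg2, hgc⟩ := hGa
      refine ⟨g, hgH, ?_, ?_, ?_⟩
      · simpa using hg1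
      · simpa using hg2
      · have h1 : cst f R g.1 ≤ cst f (R * LamL ^ ([a] : List ℕ).length) g.1 := by
          refine cst_mono hf ?_ _
          exact (le_mul_of_one_le_right hR hLam1).trans hRL
        simp only [List.length_cons, List.length_nil, List.map_cons, List.map_nil, List.sum_cons,
          List.sum_nil, add_zero, zero_add, pow_one] at *
        nlinarith
    · have hR' : 0 ≤ R * LamL := mul_nonneg hR hLam0
      have e : R * LamL * LamL ^ t.length = R * LamL ^ (a :: t).length := by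
        rw [List.length_cons]; ring
      have hS0 : 0 ≤ (t.map A).sum := by
        refine List.sum_nonneg ?_
        intro x hx
        obtain ⟨b, hb, rfl⟩ := List.mem_map.1 hx
        obtain ⟨g, _, _, _, hc⟩ := hG b (List.mem_cons_of_mem _ hb)
        exact (cst_nonneg _ _ _).trans hc
      have h1 := ih (R := R * LamL) hR' ht (by rw [e]; exact hE1) (by rw [e]; exact hE2)
        (fun b hb => by rw [e]; exact hG b (List.mem_cons_of_mem _ hb))
      have h2 : Gd H f (R * LamL) (2⁻¹ ^ (a + 12)) (A a) := by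
        obtain ⟨g, hgH, hg1, hg2, hgc⟩ := hGa
        exact ⟨g, hgH, hg1, hg2, (cst_mono hf hRL _).trans hgc⟩
      have h3 := comb hf hR hvu hvs hu hs ((cst_mono hf hRL _).trans hE1)
        ((cst_mono hf hRL _).trans hE2) h2 h1
      obtain ⟨g, hgH, hg1, hg2, hgc⟩ := h3
      have es : a + t.sum + 12 = (a :: t).sum + 12 := by rw [List.sum_cons]
      rw [es] at hg1 hg2
      refine ⟨g, hgH, hg1, hg2, hgc.trans ?_⟩
      rw [List.length_cons, List.map_cons, List.sum_cons, pow_succ]
      set k : ℝ := (2 * CL) ^ t.length with hk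
      set S : ℝ := (t.map A).sum with hS
      have hk1 : 1 ≤ k := one_le_pow₀ (by linarith)
      have h4 : A a + k * (S + E) + E ≤ 2 * (k * (A a + S + E)) := by nlinarith
      calc CL * (A a + k * (S + E) + E) ≤ CL * (2 * (k * (A a + S + E))) :=
            mul_le_mul_of_nonneg_left h4 (by linarith)
        _ = k * (2 * CL) * (A a + S + E) := by ring

end Pool.Agent.SZ
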