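import Pool.Agent.SZ.L_BDS
import Pool.Agent.SZ.L_SMS
import Pool.Agent.SZ.L_SCH

/-!
# L_FIN: Theorem L

`ε` from `bds`, `δV = 1/10000000`.  Given `R, T`.  If `T < 2` then `FreeT ε T H` is false
(`two_le_nS`); take any constants.  Let `T ≥ 2`: `σ, A, Λ` from `bds`, `s` from `sch σ`.
`R0 = max R 0`, `R1 = R0 * LamL ^ (s+1)`, `R' = Λ * R1 + R1`.
Given `H`: the free pair `p`, `vu, vs ∈ H` from `Den δV 3 T H` for `uu 1`, `vv 1` (`nS_uu`, `nS_vv`: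
norm `3`).  `Q` = the finite set of the four `qv`-letters `p 0, (p 0)⁻¹, p 1, (p 1)⁻¹` and `vu, vs`
(elements of `G2`): `#Q ≤ 6`, norms: `nS q.1 ≤ 4`, `nS q.2 ≤ T` (`nS_inv`; `nS (p i).1 ≤ 2 + ε`;
`nS vu.1 ≤ 3 + δV`).  `T' = T + 6`.
Let `f` be bounded measurable, `Et = ∑_{q ∈ Q} ∫_{Bn R'} (f (b q.1) - f b)^2 = ∑_{q ∈ Q} cst f R' q.1`.
`E = ∑_l cst f (Λ R1) (qv p1 l) ≤ 4 Et`, and `cst f R1 vu.1, cst f R1 vs.1 ≤ Et` (`cst_mono`,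
`Finset.single_le_sum`).
By `bds` at the radius `R1` and `sch`: every `k` is the sum of a list `l` of length `s` of elements of
`Gs H f R1 (A E)`; put `l' = 0 :: l` (nonempty, length `s+1`, same sum).  `gd_sum` with the radius
`R0`, `A a = A E (1 + a)`, `E = Et`: `Gd H f R0 (2⁻¹^(k+12)) ((2 CL)^(s+1) (∑_{a ∈ l'} A E (1 + a) + Et))`, and
`∑_{a ∈ l'} A E (1 + a) = A E (s + 1 + k) ≤ 4 A (s+1) (1 + k) Et`.  So with
`C = (2 CL)^(s+1) * (4 A (s+1) + 1)` the cost is at most `C (1 + k) Et`.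
The element `g` has `2/5 * 2⁻¹^(k+12) ≤ d1 g.1 ≤ 2⁻¹^(k+12) ≤ 2⁻¹^k`: `c = 2/5 * 2⁻¹^12`.
Finally `cst f R g.1 ≤ cst f R0 g.1` (`cst_mono`).
-/

set_option autoImplicit false

namespace Pool.Agent.SZ

open Pool.Agent.IRS MeasureTheory Set Filter Topology

/-- The letters in the product group. -/
def L_FIN_ql (p : Fin 2 → G2) (l : Lt) : G2 := if l.2 then p l.1 else (p l.1)⁻¹

theorem L_FIN_ql_fst (p : Fin 2 → G2) (l : Lt) :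
    (L_FIN_ql p l).1 = qv (fun i => (p i).1) l := by
  unfold L_FIN_ql qv
  split_ifs <;> rfl

theorem L_FIN_sum_map (c : ℝ) (l : List ℕ) :
    (l.map (fun a : ℕ => c * (1 + (a : ℝ)))).sum = c * (l.length + l.sum) := by
  induction l with
  | nil => simp
  | cons a t ih =>
    simp only [List.map_cons, List.sum_cons, ih, List.length_cons]
    push_cast
    ring

theorem L_FIN_CL_pos : (0 : ℝ) < CL := by unfold CL; positivity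

theorem L_FIN_Lam_pos : (0 : ℝ) < LamL := by unfold LamL; positivity

theorem L_FIN_near {g u : SL2R} (h : dm g u
      ≤ 1 / 10000000) (hu : nS u = 3) : nS g ≤ 4 := by
  have h1 := nM_sub_le (g : Matrix (Fin 2) (Fin 2) ℝ) (u : Matrix (Fin 2) (Fin 2) ℝ)
  unfold nS at hu ⊢
  unfold dm at h
  have h3 : (1 : ℝ) / 10000000 ≤ 1 := by norm_num
  linarith

theorem L_FIN_nu : nS (uu 1) = 3 := by rw [nS_uu]; norm_num

theorem L_FIN_nv : nS (vv 1) = 3 := by rw [nS_vv]; norm_num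

/-- The finite set of letters. -/
noncomputable def L_FIN_Q (p : Fin 2 → G2) (vu vs : G2) : Finset G2 := by
  classical
  exact (Finset.univ : Finset Lt).image (L_FIN_ql p) ∪ {vu, vs}

theorem L_FIN_Q_ql (p : Fin 2 → G2) (vu vs : G2) (l : Lt) : L_FIN_ql p l ∈ L_FIN_Q p vu vs := by
  classical
  exact Finset.mem_union_left _ (Finset.mem_image_of_mem _ (Finset.mem_univ l))

theorem L_FIN_Q_vu (p : Fin 2 → G2) (vu vs : G2) : vu ∈ L_FIN_Q p vu vs := by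
  classical
  exact Finset.mem_union_right _ (Finset.mem_insert_self _ _)

theorem L_FIN_Q_vs (p : Fin 2 → G2) (vu vs : G2) : vs ∈ L_FIN_Q p vu vs := by
  classical
  exact Finset.mem_union_right _ (Finset.mem_insert_of_mem (Finset.mem_singleton_self _))

theorem L_FIN_Q_card (p : Fin 2 → G2) (vu vs : G2) : ((L_FIN_Q p vu vs).card : ℝ) ≤ 6 := by
  classical
  have h1 : (L_FIN_Q p vu vs).card ≤ 6 := by
    refine (Finset.card_union_le _ _).trans ?_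
    have h2 : ((Finset.univ : Finset Lt).image (L_FIN_ql p)).card ≤ 4 := by
      refine Finset.card_image_le.trans ?_
      simp
    have h3 : ({vu, vs} : Finset G2).card ≤ 2 := Finset.card_le_two
    omega
  exact_mod_cast h1

theorem L_FIN_Q_mem {p : Fin 2 → G2} {vu vs q : G2} (hq : q ∈ L_FIN_Q p vu vs) :
    (∃ l, q = L_FIN_ql p l) ∨ q = vu ∨ q = vs := by
  classical
  unfold L_FIN_Q at hq
  rw [Finset.mem_union, Finset.mem_image] at hq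
  rcases hq with ⟨l, -, rfl⟩ | hq
  · exact Or.inl ⟨l, rfl⟩
  · simp only [Finset.mem_insert, Finset.mem_singleton] at hq
    exact Or.inr hq

theorem L_FIN_ql_mem {H : Subgroup G2} {ε T : ℝ} {p : Fin 2 → G2} (hε : ε ≤ 1)
    (hp : ∀ i, p i ∈ H ∧ d1 (p i).1 ≤ ε ∧ nS (p i).2 ≤ T) (l : Lt) :
    L_FIN_ql p l ∈ H ∧ nS (L_FIN_ql p l).1 ≤ 4 ∧ nS (L_FIN_ql p l).2 ≤ T := by
  have h1 := hp l.1
  have h2 : nS (p l.1).1 ≤ 4 := by
    have := nS_le_d1 (p l.1).1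
    linarith [h1.2.1]
  unfold L_FIN_ql
  split_ifs
  · exact ⟨h1.1, h2, h1.2.2⟩
  · refine ⟨H.inv_mem h1.1, ?_, ?_⟩
    · rw [Prod.fst_inv, nS_inv]; exact h2
    · rw [Prod.snd_inv, nS_inv]; exact h1.2.2

theorem L_FIN_ineq {A E Et s k : ℝ} (hA : 0 ≤ A) (hE4 : E ≤ 4 * Et) (hEt0 : 0 ≤ Et)
    (hs0 : 0 ≤ s) (hk : 0 ≤ k) :
    A * E * ((s + 1) + k) + Et ≤ (4 * A * (s + 1) + 1) * (1 + k) * Et := by
  have h6 : A * E ≤ A * (4 * Et) := mul_le_mul_of_nonneg_left hE4 hA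
  have h7 : A * E * ((s + 1) + k) ≤ A * (4 * Et) * ((s + 1) + k) :=
    mul_le_mul_of_nonneg_right h6 (by linarith)
  have h9 : 0 ≤ A * (4 * Et) := mul_nonneg hA (by linarith)
  have h10 : (s + 1) + k ≤ (s + 1) * (1 + k) := by
    have := mul_nonneg hs0 hk
    linarith
  have h8 : A * (4 * Et) * ((s + 1) + k) ≤ A * (4 * Et) * ((s + 1) * (1 + k)) :=
    mul_le_mul_of_nonneg_left h10 h9
  have h11 := mul_nonneg hk hEt0
  have h12 : (4 * A * (s + 1) + 1) * (1 + k) * Et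
      = A * (4 * Et) * ((s + 1) * (1 + k)) + Et + k * Et := by ring
  rw [h12]
  linarith

theorem L_FIN_end {A E Et s k K x : ℝ} (hK : 0 ≤ K) (hA : 0 ≤ A) (hE4 : E ≤ 4 * Et)
    (hEt0 : 0 ≤ Et) (hs0 : 0 ≤ s) (hk : 0 ≤ k)
    (hx : x ≤ K * (A * E * ((s + 1) + k) + Et)) :
    x ≤ K * (4 * A * (s + 1) + 1) * (1 + k) * Et := by
  refine hx.trans ((mul_le_mul_of_nonneg_left (L_FIN_ineq hA hE4 hEt0 hs0 hk) hK).trans ?_)
  apply le_of_eq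
  ring

theorem L_FIN_E4 {f : SL2R → ℝ} (hf : BM f) {p : Fin 2 → G2} {vu vs : G2} {ρ ρ' : ℝ}
    (hρ : ρ ≤ ρ') :
    (∑ l : Lt, cst f ρ (qv (fun i => (p i).1) l))
      ≤ 4 * ∑ q ∈ L_FIN_Q p vu vs, cst f ρ' q.1 := by
  have hle : ∀ q ∈ L_FIN_Q p vu vs, cst f ρ' q.1 ≤ ∑ q ∈ L_FIN_Q p vu vs, cst f ρ' q.1 :=
    fun q hq => Finset.single_le_sum (f := fun q : G2 => cst f ρ' q.1)
      (fun q _ => cst_nonneg _ _ _) hq
  have h2 : ∀ l : Lt, cst f ρ (qv (fun i => (p i).1) l)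
      ≤ ∑ q ∈ L_FIN_Q p vu vs, cst f ρ' q.1 := fun l => by
    rw [← L_FIN_ql_fst]
    exact (cst_mono hf hρ _).trans (hle _ (L_FIN_Q_ql p vu vs l))
  calc (∑ l : Lt, cst f ρ (qv (fun i => (p i).1) l))
      ≤ ∑ _l : Lt, ∑ q ∈ L_FIN_Q p vu vs, cst f ρ' q.1 := Finset.sum_le_sum fun l _ => h2 l
    _ = 4 * ∑ q ∈ L_FIN_Q p vu vs, cst f ρ' q.1 := by simp

/-- The main step: from the list of good scales to the element. -/
theorem L_FIN_core {H : Subgroup G2} {f : SL2R → ℝ} (hf : BM f) {vu vs : G2}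
    (hvu : vu ∈ H) (hvs : vs ∈ H)
    (hu : dm vu.1 (uu 1)
      ≤ 1 / 10000000)
    (hs1 : dm vs.1 (vv 1)
      ≤ 1 / 10000000)
    {A E Et R0 R1 : ℝ} {s k : ℕ} (hA : 0 ≤ A) (hR0 : 0 ≤ R0) (hR1 : R1 = R0 * LamL ^ (s + 1))
    (hE4 : E ≤ 4 * Et) (hEt0 : 0 ≤ Et)
    (h0 : 0 ∈ Gs H f R1 (A * E)) {l : List ℕ} (hl1 : l.length = s)
    (hl2 : ∀ a ∈ l, a ∈ Gs H f R1 (A * E)) (hl3 : l.sum = k)
    (hcu : cst f R1 vu.1 ≤ Et) (hcs : cst f R1 vs.1 ≤ Et) :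
    ∃ g ∈ H, 2 / 5 * 2⁻¹ ^ 12 * 2⁻¹ ^ k ≤ d1 g.1 ∧ d1 g.1 ≤ 2⁻¹ ^ k ∧
      cst f R0 g.1 ≤ (2 * CL) ^ (s + 1) * (4 * A * (s + 1) + 1) * (1 + k) * Et := by
  subst hR1
  have key := gd_sum hf hvu hvs hu hs1 (E := Et) (fun a : ℕ => A * E * (1 + (a : ℝ))) (0 :: l)
    (R := R0) hR0 (List.cons_ne_nil _ _)
    (by rw [List.length_cons, hl1]; exact hcu)
    (by rw [List.length_cons, hl1]; exact hcs)
    (by
      intro a ha
      rw [List.length_cons, hl1]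
      rcases List.mem_cons.1 ha with rfl | ha
      · exact h0
      · exact hl2 a ha)
  rw [L_FIN_sum_map, List.length_cons, hl1, List.sum_cons, hl3, zero_add] at key
  obtain ⟨g, hgH, hg1, hg2, hg3⟩ := key
  refine ⟨g, hgH, ?_, ?_, ?_⟩
  · rw [pow_add] at hg1
    have : 2 / 5 * (2⁻¹ : ℝ) ^ 12 * 2⁻¹ ^ k = 2 / 5 * (2⁻¹ ^ k * 2⁻¹ ^ 12) := by ring
    rw [this]
    exact hg1
  · refine hg2.trans ?_
    exact pow_le_pow_of_le_one (by norm_num) (by norm_num) (by omega)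
  · refine L_FIN_end (pow_nonneg (mul_nonneg (by norm_num) L_FIN_CL_pos.le) _) hA hE4 hEt0
      (Nat.cast_nonneg s) (Nat.cast_nonneg k) ?_
    have h5 : (((s + 1 : ℕ) : ℝ)) = (s : ℝ) + 1 := by push_cast; ring
    rw [h5] at hg3
    exact hg3

theorem thmL : ∃ ε : ℝ, 0 < ε ∧ ∃ δV : ℝ, 0 < δV ∧ ∀ R T : ℝ, ∃ R' C c T' : ℝ, 0 < c ∧ 0 ≤ C ∧
    ∀ H : Subgroup G2, FreeT ε T H → DioT T H → InjT H → Den δV 3 T H → LocL R R' C c T' H := by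
  obtain ⟨ε, hε0, hε2, hb⟩ := bds
  refine ⟨ε, hε0, 1 / 10000000, by norm_num, fun R T => ?_⟩
  by_cases hT : 2 ≤ T
  swap
  · refine ⟨0, 0, 1, 0, one_pos, le_rfl, fun H hF _ _ _ => ?_⟩
    obtain ⟨p, hp, -⟩ := hF
    exact absurd ((two_le_nS (p 0).2).trans (hp 0).2.2) hT
  obtain ⟨σ, hσ, A, hA, Λ, hΛ, hb⟩ := hb T hT
  obtain ⟨s, hs⟩ := sch hσ
  obtain ⟨R0, hR0⟩ : ∃ R0 : ℝ, R0 = max R 0 := ⟨_, rfl⟩
  have hR0' : 0 ≤ R0 := hR0 ▸ le_max_right _ _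
  have hRR0 : R ≤ R0 := hR0 ▸ le_max_left _ _
  obtain ⟨R1, hR1⟩ : ∃ R1 : ℝ, R1 = R0 * LamL ^ (s + 1) := ⟨_, rfl⟩
  have hR1' : 0 ≤ R1 := hR1 ▸ mul_nonneg hR0' (pow_nonneg L_FIN_Lam_pos.le _)
  have hΛR : 0 ≤ Λ * R1 := mul_nonneg hΛ hR1'
  have hK0 : 0 ≤ (2 * CL) ^ (s + 1) := pow_nonneg (mul_nonneg (by norm_num) L_FIN_CL_pos.le) _
  have hK1 : 0 ≤ 4 * A * ((s : ℝ) + 1) + 1 := by
    have := mul_nonneg hA (Nat.cast_nonneg s : (0 : ℝ) ≤ s)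
    linarith
  refine ⟨Λ * R1 + R1, (2 * CL) ^ (s + 1) * (4 * A * (s + 1) + 1), 2 / 5 * 2⁻¹ ^ 12, T + 6,
    by norm_num, mul_nonneg hK0 hK1, fun H hF hD hI hN => ?_⟩
  obtain ⟨p, hp, hinj⟩ := hF
  obtain ⟨vu, hvu, hu, hu2⟩ := hN (uu 1) L_FIN_nu.le
  obtain ⟨vs, hvs, hs1, hs2⟩ := hN (vv 1) L_FIN_nv.le
  have hnu : nS vu.1 ≤ 4 := L_FIN_near hu L_FIN_nu
  have hns : nS vs.1 ≤ 4 := L_FIN_near hs1 L_FIN_nv
  refine ⟨L_FIN_Q p vu vs, ?_, ?_, ?_⟩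
  · exact (L_FIN_Q_card p vu vs).trans (by linarith)
  · intro q hq
    rcases L_FIN_Q_mem hq with ⟨l, rfl⟩ | rfl | rfl
    · obtain ⟨h1, h2, h3⟩ := L_FIN_ql_mem (hε2.trans (by norm_num)) hp l
      exact ⟨h1, by linarith, by linarith⟩
    · exact ⟨hvu, by linarith, by linarith⟩
    · exact ⟨hvs, by linarith, by linarith⟩
  · intro k f hf1 hf2
    have hf : BM f := ⟨hf1, hf2⟩
    obtain ⟨Et, hEt⟩ : ∃ Et : ℝ, Et = ∑ q ∈ L_FIN_Q p vu vs, cst f (Λ * R1 + R1) q.1 := ⟨_, rfl⟩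
    have hEt' : ∑ q ∈ L_FIN_Q p vu vs, ∫ b in Bn (Λ * R1 + R1), (f (b * q.1) - f b) ^ 2 ∂mH
        = Et := hEt.symm
    rw [hEt']
    have hle : ∀ q ∈ L_FIN_Q p vu vs, cst f (Λ * R1 + R1) q.1 ≤ Et := fun q hq =>
      hEt ▸ Finset.single_le_sum (f := fun q : G2 => cst f (Λ * R1 + R1) q.1)
        (fun q _ => cst_nonneg _ _ _) hq
    have hEt0 : 0 ≤ Et := hEt ▸ Finset.sum_nonneg fun q _ => cst_nonneg _ _ _
    obtain ⟨h0, h1⟩ := hb H p hp hinj hD hI f hf R1 hR1'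
    have hE4 : (∑ l : Lt, cst f (Λ * R1) (qv (fun i => (p i).1) l)) ≤ 4 * Et :=
      hEt ▸ L_FIN_E4 hf (by linarith)
    obtain ⟨l, hl1, hl2, hl3⟩ := hs _ h0 h1 k
    have hR1R : R1 ≤ Λ * R1 + R1 := by linarith
    have hcu : cst f R1 vu.1 ≤ Et :=
      (cst_mono hf hR1R _).trans (hle _ (L_FIN_Q_vu p vu vs))
    have hcs : cst f R1 vs.1 ≤ Et :=
      (cst_mono hf hR1R _).trans (hle _ (L_FIN_Q_vs p vu vs))
    obtain ⟨g, hg, hg1, hg2, hg3⟩ := L_FIN_core hf hvu hvs hu hs1 hA hR0' hR1 hE4 hEt0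
      h0 hl1 hl2 hl3 hcu hcs
    exact ⟨g, hg, hg1, hg2, (cst_mono hf hRR0 _).trans hg3⟩

end Pool.Agent.SZ
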