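import Mathlib
import Pool.Agent.SZ.Nuk

/-!
# SZ part R: definitions
-/

set_option autoImplicit false

namespace Pool.Agent.SZ.PR

open Pool.Agent.IRS MeasureTheory Set Filter Topology

/-- The uniform probability measure on the unipotent segment of length `2 ^ (-k)`. -/
noncomputable def sg (k : ℕ) : Measure SL2R :=
  (2 : ENNReal) ^ k • ((volume.restrict (Ioc (0 : ℝ) (2⁻¹ ^ k))).map uu)

instance instProbSg (k : ℕ) : IsProbabilityMeasure (sg k) := by
  refine ⟨?_⟩
  have hm : Measurable uu := by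
    apply measurable_to_SL
    intro i j
    fin_cases i <;> fin_cases j
    · exact measurable_const
    · exact measurable_id
    · exact measurable_const
    · exact measurable_const
  unfold sg
  rw [Measure.smul_apply, Measure.map_apply hm MeasurableSet.univ, preimage_univ,
    Measure.restrict_apply_univ, Real.volume_Ioc, sub_zero, smul_eq_mul,
    ENNReal.ofReal_pow (by norm_num)]
  have h2 : ENNReal.ofReal (2⁻¹ : ℝ) = 2⁻¹ := by
    rw [ENNReal.ofReal_inv_of_pos (by norm_num)]; norm_num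
  rw [h2, ← mul_pow, ENNReal.mul_inv_cancel (by norm_num) (by norm_num), one_pow]

lemma measurable_kk : Measurable kk := by
  apply measurable_to_SL
  intro i j
  fin_cases i <;> fin_cases j
  · exact Real.measurable_cos
  · exact Real.measurable_sin
  · exact Real.measurable_sin.neg
  · exact Real.measurable_cos

/-- The uniform probability measure on rotations. -/
noncomputable def rot : Measure SL2R :=
  (ENNReal.ofReal (2 * Real.pi))⁻¹ • ((volume.restrict (Ioc (0 : ℝ) (2 * Real.pi))).map kk)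

instance instProbRot : IsProbabilityMeasure rot := by
  refine ⟨?_⟩
  unfold rot
  rw [Measure.smul_apply, Measure.map_apply measurable_kk MeasurableSet.univ, preimage_univ,
    Measure.restrict_apply_univ, Real.volume_Ioc, sub_zero, smul_eq_mul]
  refine ENNReal.inv_mul_cancel ?_ ENNReal.ofReal_ne_top
  rw [Ne, ENNReal.ofReal_eq_zero, not_le]
  positivity

/-- Half of the length `2 ^ (-k)`. -/
noncomputable def tk (k : ℕ) : ℝ := 2⁻¹ ^ (k + 1)

/-- A lower triangular matrix. -/
noncomputable def lt (x v : ℝ) (hx : x ≠ 0) : SL2R := ⟨!![x, 0; v, x⁻¹], by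
  simp [Matrix.det_fin_two, hx]⟩

section

variable {Z : Type*} [MeasurableSpace Z] {ζ : Measure Z} [SigmaFinite ζ]

/-- The square norm. -/
noncomputable def N2 (f : BL2 ζ) : ℝ := (frm ζ).B f f

/-- The square integral over a ball of displacements of one point. -/
noncomputable def Rz (a : PAct SL2R ζ) (R : ℝ) (z : Z) (f : BL2 ζ) : ℝ :=
  ∫ y in Bn R, ((f : Z → ℝ) (a.τ y z)) ^ 2 ∂mH

/-- The regional square norm. -/
noncomputable def RI (a : PAct SL2R ζ) (W : Set Z) (R : ℝ) (f : BL2 ζ) : ℝ :=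
  ∫ z in W, Rz a R z f ∂ζ

/-- The average over the segment. -/
noncomputable def MM (a : PAct SL2R ζ) (k : ℕ) : BL2 ζ →ₗ[ℝ] BL2 ζ := a.A (sg k)

/-- The difference of two consecutive averages at scale `2 ^ (-k)`. -/
noncomputable def ff (a : PAct SL2R ζ) (ψ : BL2 ζ) (k : ℕ) : BL2 ζ :=
  a.T (uu (tk k)) (MM a (k + 1) ψ) - MM a (k + 1) ψ

/-- Lipschitz bound for small displacements in the first factor. -/
def SmA (a : PAct SL2R ζ) (Φ J : BL2 ζ) : Prop :=
  ∀ (c : SL2R) (w : Z), d1 c ≤ 1 →
    |(Φ : Z → ℝ) (a.τ c w) - (Φ : Z → ℝ) w| ≤ d1 c * (J : Z → ℝ) w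

/-- The energy of the second factor. -/
noncomputable def Eb (b : PAct SL2R ζ) (x : BL2 ζ) : ℝ := (frm ζ).B (x - b.P nuK x) x

/-- The hypotheses on a good point. -/
def Gd (a b : PAct SL2R ζ) (R R' C c T δ R1 T2 : ℝ) (z : Z) : Prop :=
  ∃ H : Subgroup G2, (∀ h ∈ H, a.τ h.1 (b.τ h.2 z) = z) ∧ LocL R R' C c T H ∧ Den δ R1 T2 H

end

end Pool.Agent.SZ.PR
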