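import Mathlib
import Pool.Agent.SZ.RDefs

/-!
# SZ part R, module R01: regional integrals

`Rz a R z f = int_{Bn R} f(yz)^2 dy`, `RI a W R f = int_W Rz`.  All integrands are bounded and
measurable on sets of finite measure in `y` (`mH_ball_lt`), and `(z,y) -> f(a.τ y z)^2` is integrable
on `ζ x mH|Bn R` by invariance of `ζ` (compare `sq_prod_int` in `IRS/Avg.lean` for the finite measure
`mH.restrict (Bn R)`).  `RI_le`: Tonelli and `int f(yz)^2 dζ = N2 f`, `mH (Bn R) <= 16 R^4`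
(`mH_ball_real`).  `Rz_T`: substitute `y -> g y` (`mp_left`, left invariance of `mH`): `g Bn R` lies in
`Bn (S R)`.  `Rz_add_le`: `(x+y)^2 <= 2x^2+2y^2`.
-/

set_option autoImplicit false
set_option linter.unusedVariables false
set_option linter.unusedSectionVars false

namespace Pool.Agent.SZ.PR

open Pool.Agent.IRS MeasureTheory Set Filter Topology

section

variable {Z : Type*} [MeasurableSpace Z] {ζ : Measure Z} [SigmaFinite ζ]

lemma ball_meas' (R : ℝ) : MeasurableSet (Bn R) :=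
  measurableSet_le measurable_nS measurable_const

lemma R01_fin (R : ℝ) : IsFiniteMeasure (mH.restrict (Bn R)) :=
  ⟨by rw [Measure.restrict_apply_univ]; exact mH_ball_lt R⟩

lemma Rz_nonneg (a : PAct SL2R ζ) (R : ℝ) (z : Z) (f : BL2 ζ) : 0 ≤ Rz a R z f :=
  integral_nonneg fun _ => sq_nonneg _

lemma Rz_int (a : PAct SL2R ζ) (R : ℝ) (z : Z) (f : BL2 ζ) (g : SL2R) :
    IntegrableOn (fun y => ((f : Z → ℝ) (a.τ (y * g) z)) ^ 2) (Bn R) mH := by
  have := R01_fin R
  obtain ⟨M, hM⟩ := bbdd f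
  refine integrable_of_bdd _ (((a.meas_sec (bmeas f) z).comp (mp_right g).measurable).pow_const 2)
    (M := M ^ 2) fun y => ?_
  rw [abs_pow]
  exact pow_le_pow_left₀ (abs_nonneg _) (hM _) 2

lemma R01_int1 (a : PAct SL2R ζ) (R : ℝ) (z : Z) (f : BL2 ζ) :
    IntegrableOn (fun y => ((f : Z → ℝ) (a.τ y z)) ^ 2) (Bn R) mH := by
  have h := Rz_int a R z f 1
  simpa using h

lemma Rz_meas (a : PAct SL2R ζ) (R : ℝ) (f : BL2 ζ) : Measurable (fun z => Rz a R z f) := by
  have := R01_fin R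
  exact ((a.meas_comp (bmeas f)).pow_const 2).stronglyMeasurable.integral_prod_left'.measurable

lemma Rz_integrable (a : PAct SL2R ζ) (R : ℝ) (f : BL2 ζ) : Integrable (fun z => Rz a R z f) ζ := by
  have := R01_fin R
  exact (a.sq_prod_int (mH.restrict (Bn R)) f).integral_prod_right

lemma R01_sub {R R' : ℝ} (h : R ≤ R') : Bn R ⊆ Bn R' := fun _ hy => le_trans hy h

lemma Rz_mono (a : PAct SL2R ζ) {R R' : ℝ} (h : R ≤ R') (z : Z) (f : BL2 ζ) :
    Rz a R z f ≤ Rz a R' z f := by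
  refine setIntegral_mono_set (R01_int1 a R' z f) ?_ ?_
  · exact Eventually.of_forall fun y => sq_nonneg _
  · exact (R01_sub h).eventuallyLE

lemma Rz_add_le (a : PAct SL2R ζ) (R : ℝ) (z : Z) (f g : BL2 ζ) :
    Rz a R z (f + g) ≤ 2 * Rz a R z f + 2 * Rz a R z g := by
  unfold Rz
  rw [← integral_const_mul, ← integral_const_mul,
    ← integral_add ((R01_int1 a R z f).const_mul 2) ((R01_int1 a R z g).const_mul 2)]
  refine integral_mono (R01_int1 a R z (f + g))
    (((R01_int1 a R z f).const_mul 2).add ((R01_int1 a R z g).const_mul 2)) fun y => ?_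
  change ((f : Z → ℝ) (a.τ y z) + (g : Z → ℝ) (a.τ y z)) ^ 2
    ≤ 2 * ((f : Z → ℝ) (a.τ y z)) ^ 2 + 2 * ((g : Z → ℝ) (a.τ y z)) ^ 2
  nlinarith [sq_nonneg ((f : Z → ℝ) (a.τ y z) - (g : Z → ℝ) (a.τ y z))]

/-- Substitution with an inclusion of the image of the ball. -/
lemma R01_subst {φ : SL2R → SL2R} (hφ : MeasurePreserving φ mH mH) {R R' : ℝ}
    (hsub : ∀ y ∈ Bn R, φ y ∈ Bn R') {F : SL2R → ℝ} (hF : Measurable F) (h0 : ∀ y, 0 ≤ F y)
    (hi : IntegrableOn F (Bn R') mH) :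
    ∫ y in Bn R, F (φ y) ∂mH ≤ ∫ y in Bn R', F y ∂mH := by
  rw [← integral_indicator (ball_meas' R), ← integral_indicator (ball_meas' R')]
  have hG : Measurable ((Bn R').indicator F) := hF.indicator (ball_meas' R')
  have hGi : Integrable ((Bn R').indicator F) mH := (integrable_indicator_iff (ball_meas' R')).2 hi
  have e : ∫ y, ((Bn R').indicator F) (φ y) ∂mH = ∫ y, ((Bn R').indicator F) y ∂mH := by
    conv_rhs => rw [← hφ.map_eq]
    rw [integral_map hφ.measurable.aemeasurable hG.aestronglyMeasurable]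
  rw [← e]
  refine integral_mono_of_nonneg (Eventually.of_forall fun y => ?_)
    (hφ.integrable_comp_of_integrable hGi) (Eventually.of_forall fun y => ?_)
  · exact indicator_nonneg (fun y _ => h0 _) y
  · by_cases hy : y ∈ Bn R
    · simp only [indicator_of_mem hy, indicator_of_mem (hsub y hy)]
      exact le_rfl
    · simp only [indicator_of_notMem hy]
      exact indicator_nonneg (fun y _ => h0 _) (φ y)

lemma Rz_T (a : PAct SL2R ζ) {R S : ℝ} (hR : 0 ≤ R) (z : Z) (f : BL2 ζ) {g : SL2R} (hg : nS g ≤ S) :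
    Rz a R z (a.T g f) ≤ Rz a (S * R) z f := by
  have h := R01_subst (mp_left g) (R := R) (R' := S * R) (fun y hy => ?_)
    (F := fun y => ((f : Z → ℝ) (a.τ y z)) ^ 2) ((a.meas_sec (bmeas f) z).pow_const 2)
    (fun y => sq_nonneg _) (R01_int1 a (S * R) z f)
  · refine le_trans (le_of_eq ?_) h
    unfold Rz
    refine integral_congr_ae (Eventually.of_forall fun y => ?_)
    simp only [PAct.T_apply, a.mul]
  · exact (nS_mul_le g y).trans (mul_le_mul hg hy (nS_pos y).le ((nS_pos g).le.trans hg))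

/-- Right translation of the variable. -/
lemma Rz_right (a : PAct SL2R ζ) {R S : ℝ} (hR : 0 ≤ R) (z : Z) (f : BL2 ζ) {g : SL2R}
    (hg : nS g ≤ S) :
    ∫ y in Bn R, ((f : Z → ℝ) (a.τ (y * g) z)) ^ 2 ∂mH ≤ Rz a (R * S) z f := by
  exact R01_subst (mp_right g) (R := R) (R' := R * S)
    (fun y hy => (nS_mul_le y g).trans (mul_le_mul hy hg (nS_pos g).le hR))
    (F := fun y => ((f : Z → ℝ) (a.τ y z)) ^ 2) ((a.meas_sec (bmeas f) z).pow_const 2)
    (fun y => sq_nonneg _) (R01_int1 a (R * S) z f)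

lemma RI_nonneg (a : PAct SL2R ζ) (W : Set Z) (R : ℝ) (f : BL2 ζ) : 0 ≤ RI a W R f :=
  integral_nonneg fun z => Rz_nonneg a R z f

lemma RI_le (a : PAct SL2R ζ) {W : Set Z} (hW : MeasurableSet W) {R : ℝ} (hR : 0 ≤ R)
    (f : BL2 ζ) : RI a W R f ≤ 16 * R ^ 4 * N2 f := by
  have := R01_fin R
  have h1 : RI a W R f ≤ ∫ z, Rz a R z f ∂ζ :=
    setIntegral_le_integral (Rz_integrable a R f) (Eventually.of_forall fun z => Rz_nonneg a R z f)
  have h2 : ∫ z, Rz a R z f ∂ζ = ∫ y in Bn R, ∫ z, ((f : Z → ℝ) (a.τ y z)) ^ 2 ∂ζ ∂mH :=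
    (integral_integral_swap (a.sq_prod_int (mH.restrict (Bn R)) f)).symm
  have h3 : ∀ y, ∫ z, ((f : Z → ℝ) (a.τ y z)) ^ 2 ∂ζ = N2 f := fun y => by
    unfold N2
    rw [frm_self]
    exact a.integral_comp y (F := fun z => (f : Z → ℝ) z ^ 2) ((bmeas f).pow_const 2)
  have h4 : 0 ≤ N2 f := (frm ζ).nonneg f
  have h5 : mH.real (Bn R) ≤ 16 * R ^ 4 := mH_ball_real hR
  calc RI a W R f ≤ ∫ z, Rz a R z f ∂ζ := h1
    _ = mH.real (Bn R) * N2 f := by
        rw [h2]
        simp only [h3]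
        rw [integral_const, smul_eq_mul, measureReal_restrict_apply_univ]
    _ ≤ 16 * R ^ 4 * N2 f := mul_le_mul_of_nonneg_right h5 h4

lemma RI_mono (a : PAct SL2R ζ) {W : Set Z} (hW : MeasurableSet W) {R R' : ℝ} (h : R ≤ R')
    (f : BL2 ζ) : RI a W R f ≤ RI a W R' f :=
  integral_mono (Rz_integrable a R f).integrableOn (Rz_integrable a R' f).integrableOn
    fun z => Rz_mono a h z f

lemma RI_add_le (a : PAct SL2R ζ) {W : Set Z} (hW : MeasurableSet W) (R : ℝ) (f g : BL2 ζ) :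
    RI a W R (f + g) ≤ 2 * RI a W R f + 2 * RI a W R g := by
  unfold RI
  rw [← integral_const_mul, ← integral_const_mul,
    ← integral_add ((Rz_integrable a R f).integrableOn.const_mul 2)
      ((Rz_integrable a R g).integrableOn.const_mul 2)]
  exact integral_mono (Rz_integrable a R (f + g)).integrableOn
    (((Rz_integrable a R f).integrableOn.const_mul 2).add
      ((Rz_integrable a R g).integrableOn.const_mul 2)) fun z => Rz_add_le a R z f g

lemma RI_T (a : PAct SL2R ζ) {W : Set Z} (hW : MeasurableSet W) {R S : ℝ} (hR : 0 ≤ R)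
    (f : BL2 ζ) {g : SL2R} (hg : nS g ≤ S) : RI a W R (a.T g f) ≤ RI a W (S * R) f :=
  integral_mono (Rz_integrable a R (a.T g f)).integrableOn
    (Rz_integrable a (S * R) f).integrableOn fun z => Rz_T a hR z f hg

end

end Pool.Agent.SZ.PR
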