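import Mathlib
import Pool.Agent.SZ.RDefs

/-!
# SZ part R, module R02: absolute values and segment integrals

`absB f` is the pointwise absolute value.  `seg`: the function `w -> int_α^β f(n_σ w) dσ` is in `BL2`
and has norm at most `(β-α)` times the norm of `f` (it is `(β-α)` times the average `a.A ν f` for the
uniform probability measure `ν` on `{n_σ : α<σ<=β}` if `α<β`, and zero if `α=β`; or direct:
measurability by `StronglyMeasurable.integral_prod_left'`, Cauchy Schwarz and Tonelli).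
-/

set_option autoImplicit false
set_option linter.unusedVariables false
set_option linter.unusedSectionVars false

namespace Pool.Agent.SZ.PR

open Pool.Agent.IRS MeasureTheory Set Filter Topology

section

variable {Z : Type*} [MeasurableSpace Z] {ζ : Measure Z} [SigmaFinite ζ]

/-- The absolute value. -/
noncomputable def absB (f : BL2 ζ) : BL2 ζ :=
  ⟨fun z => |(f : Z → ℝ) z|, (bmeas f).abs, by
    obtain ⟨M, hM⟩ := bbdd f
    exact ⟨M, fun z => by rw [abs_abs]; exact hM z⟩, by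
    have h := bsq f
    simpa only [sq_abs] using h⟩

@[simp] lemma absB_apply (f : BL2 ζ) (z : Z) : ((absB f : BL2 ζ) : Z → ℝ) z = |(f : Z → ℝ) z| := rfl

lemma N2_nonneg (f : BL2 ζ) : 0 ≤ N2 f := (frm ζ).nonneg f

lemma R02_N2_eq (f : BL2 ζ) : N2 f = ∫ z, (f : Z → ℝ) z ^ 2 ∂ζ := frm_self f

lemma N2_eq_nrm (f : BL2 ζ) : N2 f = (frm ζ).nrm f ^ 2 := ((frm ζ).nrm_sq f).symm

lemma N2_absB (f : BL2 ζ) : N2 (absB f) = N2 f := by
  rw [R02_N2_eq, R02_N2_eq]
  simp only [absB_apply, sq_abs]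

lemma N2_T (a : PAct SL2R ζ) (g : SL2R) (f : BL2 ζ) : N2 (a.T g f) = N2 f := a.T_isom g f f

lemma N2_mono {f g : BL2 ζ} (h : ∀ z, |(f : Z → ℝ) z| ≤ |(g : Z → ℝ) z|) : N2 f ≤ N2 g := by
  rw [R02_N2_eq, R02_N2_eq]
  exact integral_mono (bsq f) (bsq g) fun z => sq_le_sq.2 (h z)

lemma N2_smul (c : ℝ) (f : BL2 ζ) : N2 (c • f) = c ^ 2 * N2 f := by
  unfold N2
  simp only [map_smul, LinearMap.smul_apply, smul_eq_mul]
  ring

lemma N2_add_le (f g : BL2 ζ) : N2 (f + g) ≤ 2 * N2 f + 2 * N2 g := by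
  have h := (frm ζ).nonneg (f - g)
  unfold N2
  simp only [map_sub, LinearMap.sub_apply, map_add, LinearMap.add_apply] at h ⊢
  linarith

lemma N2_add3_le (f g h : BL2 ζ) : N2 (f + g + h) ≤ 3 * (N2 f + N2 g + N2 h) := by
  have h1 := (frm ζ).nonneg (f - g)
  have h2 := (frm ζ).nonneg (f - h)
  have h3 := (frm ζ).nonneg (g - h)
  unfold N2
  simp only [map_sub, LinearMap.sub_apply, map_add, LinearMap.add_apply] at h1 h2 h3 ⊢
  linarith

lemma N2_A_le (a : PAct SL2R ζ) (ν : Measure SL2R) [IsProbabilityMeasure ν] (f : BL2 ζ) :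
    N2 (a.A ν f) ≤ N2 f := by
  have := a.E_nonneg ν f
  unfold PAct.E at this
  unfold N2
  linarith

lemma R02_measurable_uu : Measurable uu := by
  apply measurable_to_SL
  intro i j
  fin_cases i <;> fin_cases j
  · exact measurable_const
  · exact measurable_id
  · exact measurable_const
  · exact measurable_const

theorem seg (a : PAct SL2R ζ) {α β : ℝ} (hαβ : α ≤ β) (f : BL2 ζ) : ∃ g : BL2 ζ,
    (∀ w, (g : Z → ℝ) w = ∫ σ in α..β, (f : Z → ℝ) (a.τ (uu σ) w)) ∧
    N2 g ≤ (β - α) ^ 2 * N2 f := by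
  rcases hαβ.eq_or_lt with h | h
  · refine ⟨0, fun w => ?_, ?_⟩
    · rw [h, intervalIntegral.integral_same]; rfl
    · have : N2 (0 : BL2 ζ) = 0 := by unfold N2; simp
      rw [this]
      exact mul_nonneg (sq_nonneg _) (N2_nonneg f)
  · have hpos : 0 < β - α := sub_pos.2 h
    set ν : Measure SL2R := (ENNReal.ofReal (β - α))⁻¹ • ((volume.restrict (Ioc α β)).map uu) with hν
    have : IsProbabilityMeasure ν := by
      refine ⟨?_⟩
      rw [hν, Measure.smul_apply, Measure.map_apply R02_measurable_uu MeasurableSet.univ,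
        preimage_univ, Measure.restrict_apply_univ, Real.volume_Ioc, smul_eq_mul]
      exact ENNReal.inv_mul_cancel (by rw [Ne, ENNReal.ofReal_eq_zero, not_le]; exact hpos)
        ENNReal.ofReal_ne_top
    refine ⟨(β - α) • a.A ν f, fun w => ?_, ?_⟩
    · have h1 : ((((β - α) • a.A ν f : BL2 ζ)) : Z → ℝ) w
          = (β - α) * ∫ g, (f : Z → ℝ) (a.τ g w) ∂ν := rfl
      rw [h1, hν, integral_smul_measure, integral_map R02_measurable_uu.aemeasurable
        (a.meas_sec (bmeas f) w).aestronglyMeasurable, intervalIntegral.integral_of_le hαβ,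
        ENNReal.toReal_inv, ENNReal.toReal_ofReal hpos.le, smul_eq_mul, ← mul_assoc,
        mul_inv_cancel₀ hpos.ne', one_mul]
    · rw [N2_smul]
      exact mul_le_mul_of_nonneg_left (N2_A_le a ν f) (sq_nonneg _)

end

end Pool.Agent.SZ.PR
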