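import Mathlib
import Pool.Agent.IRS.Form

/-!
# SZ part R: dyadic averages, abstract form (R3, R5)

`W k` is the translation by `2^-k`, `M k` the average over `[0, 2^-k]`,
`f k = (W (k+1) - 1) M (k+1) psi`.
-/

set_option autoImplicit false

namespace Pool.Agent.SZ.R3

open Pool.Agent.IRS Finset

/-- A dyadic chain of commuting translations and averages. -/
structure DyCh {V : Type*} [AddCommGroup V] [Module ℝ V] (W M : ℕ → Module.End ℝ V) : Prop where
  avg : ∀ k, M k = (2⁻¹ : ℝ) • ((1 + W (k + 1)) * M (k + 1))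
  sq : ∀ k, W k = W (k + 1) * W (k + 1)
  cWW : ∀ i j, Commute (W i) (W j)
  cWM : ∀ i j, Commute (W i) (M j)
  cMM : ∀ i j, Commute (M i) (M j)

/-- Translations are isometries and averages are contractions for a form. -/
structure DyIso {V : Type*} [AddCommGroup V] [Module ℝ V] (F : PSForm V)
    (W M : ℕ → Module.End ℝ V) : Prop where
  iso : ∀ k x, F.B (W k x) (W k x) = F.B x x
  con : ∀ k x, F.B (M k x) (M k x) ≤ F.B x x

/-- The differences. -/
def dyf {V : Type*} [AddCommGroup V] [Module ℝ V] (W M : ℕ → Module.End ℝ V) (k : ℕ) (x : V) : V :=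
  W (k + 1) (M (k + 1) x) - M (k + 1) x

section

variable {V : Type*} [AddCommGroup V] [Module ℝ V] {W M : ℕ → Module.End ℝ V}

lemma dyf_eq (k : ℕ) (x : V) : dyf W M k x = ((W (k + 1) - 1) * M (k + 1)) x := rfl

namespace DyCh

lemma M_eq (h : DyCh W M) (k : ℕ) (x : V) :
    M k x = (2⁻¹ : ℝ) • (M (k + 1) x + W (k + 1) (M (k + 1) x)) := by
  rw [h.avg k]; rfl

lemma M_succ_sub (h : DyCh W M) (k : ℕ) (x : V) :
    M (k + 1) x - M k x = -((2⁻¹ : ℝ) • dyf W M k x) := by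
  rw [h.M_eq k x, dyf]
  module

lemma M_sub (h : DyCh W M) (a b : ℕ) (hab : a ≤ b) (x : V) :
    M b x - M a x = -((2⁻¹ : ℝ) • ∑ i ∈ Ico a b, dyf W M i x) := by
  induction b, hab using Nat.le_induction with
  | base => simp
  | succ b hb ih =>
    rw [Finset.sum_Ico_succ_top hb, smul_add, neg_add, ← ih, ← h.M_succ_sub b x]
    abel

/-- `(W j - 1) M k = 2^(k-j) (W k - 1) M j` for `k ≤ j`. -/
lemma swap (h : DyCh W M) (d : ℕ) : ∀ k : ℕ,
    (W (k + d) - 1) * M k = ((2⁻¹ : ℝ) ^ d) • ((W k - 1) * M (k + d)) := by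
  induction d with
  | zero => intro k; simp
  | succ d ih =>
    intro k
    have h1 := ih (k + 1)
    have e : k + 1 + d = k + (d + 1) := by ring
    rw [e] at h1
    rw [h.avg k, mul_smul_comm, ← mul_assoc]
    have c1 : (W (k + (d + 1)) - 1) * (1 + W (k + 1)) = (1 + W (k + 1)) * (W (k + (d + 1)) - 1) := by
      have := (h.cWW (k + (d + 1)) (k + 1)).eq
      rw [sub_mul, mul_add, mul_one, one_mul, mul_sub, add_mul, one_mul, mul_one, this]
    rw [c1, mul_assoc, h1, mul_smul_comm, ← mul_assoc]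
    have c2 : (1 + W (k + 1)) * (W (k + 1) - 1) = W k - 1 := by
      rw [h.sq k]; noncomm_ring
    rw [c2, smul_smul]
    congr 1
    rw [pow_succ]; ring

lemma f_add_sum (h : DyCh W M) (k j : ℕ) (hj : k + 1 ≤ j) (x : V) :
    W (k + 1) (M j x) - M j x = dyf W M k x
      - (2⁻¹ : ℝ) • ∑ i ∈ Ico (k + 1) j, (W (k + 1) (dyf W M i x) - dyf W M i x) := by
  have h1 := h.M_sub (k + 1) j hj x
  have h2 : M j x = M (k + 1) x - (2⁻¹ : ℝ) • ∑ i ∈ Ico (k + 1) j, dyf W M i x := by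
    rw [sub_eq_iff_eq_add] at h1
    rw [h1]; abel
  rw [h2, Finset.sum_sub_distrib, map_sub, map_smul, map_sum, dyf]
  module

end DyCh

section Norms

variable {F : PSForm V}

lemma DyIso.nrmW (h : DyIso F W M) (k : ℕ) (x : V) : F.nrm (W k x) = F.nrm x := by
  unfold PSForm.nrm; rw [h.iso k x]

lemma DyIso.nrmM (h : DyIso F W M) (k : ℕ) (x : V) : F.nrm (M k x) ≤ F.nrm x :=
  Real.sqrt_le_sqrt (h.con k x)

lemma nrm_sub_le' (x y : V) : F.nrm (x - y) ≤ F.nrm x + F.nrm y := by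
  have := F.nrm_add_le x (-y)
  rwa [F.nrm_neg, ← sub_eq_add_neg] at this

lemma nrm_sum_le {ι : Type*} (s : Finset ι) (g : ι → V) :
    F.nrm (∑ i ∈ s, g i) ≤ ∑ i ∈ s, F.nrm (g i) := by
  classical
  induction s using Finset.induction_on with
  | empty => simp [PSForm.nrm]
  | insert a s ha ih =>
    rw [Finset.sum_insert ha, Finset.sum_insert ha]
    exact (F.nrm_add_le _ _).trans (by linarith)

lemma DyIso.nrm_Wsub (h : DyIso F W M) (k : ℕ) (x : V) : F.nrm (W k x - x) ≤ 2 * F.nrm x := by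
  have := nrm_sub_le' (F := F) (W k x) x
  rw [h.nrmW] at this; linarith

/-- The parallelogram identity. -/
lemma par (hc : DyCh W M) (hi : DyIso F W M) (k : ℕ) (x : V) :
    F.B (M (k + 1) x) (M (k + 1) x) = F.B (M k x) (M k x)
      + 4⁻¹ * F.B (dyf W M k x) (dyf W M k x) := by
  rw [hc.M_eq k x, dyf]
  have h1 := hi.iso (k + 1) (M (k + 1) x)
  simp only [map_add, map_sub, map_smul, LinearMap.add_apply, LinearMap.sub_apply,
    LinearMap.smul_apply, smul_eq_mul, h1]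
  ring

lemma sum_f_eq (hc : DyCh W M) (hi : DyIso F W M) (a b : ℕ) (hab : a ≤ b) (x : V) :
    ∑ k ∈ Ico a b, F.B (dyf W M k x) (dyf W M k x)
      = 4 * (F.B (M b x) (M b x) - F.B (M a x) (M a x)) := by
  induction b, hab using Nat.le_induction with
  | base => simp
  | succ b hb ih =>
    rw [Finset.sum_Ico_succ_top hb, ih, par hc hi b x]
    ring

lemma sum_f_le (hc : DyCh W M) (hi : DyIso F W M) (a b : ℕ) (x : V) :
    ∑ k ∈ Ico a b, F.B (dyf W M k x) (dyf W M k x) ≤ 4 * F.B x x := by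
  rcases le_total a b with hab | hab
  · rw [sum_f_eq hc hi a b hab x]
    have := F.nonneg (M a x)
    have := hi.con b x
    linarith
  · rw [Finset.Ico_eq_empty_of_le hab, Finset.sum_empty]
    have := F.nonneg x
    linarith

lemma nrm_WM (hc : DyCh W M) (hi : DyIso F W M) (k j : ℕ) (hj : k + 1 ≤ j) (x : V) :
    F.nrm (W (k + 1) (M j x) - M j x) ≤ ∑ i ∈ Ico k j, F.nrm (dyf W M i x) := by
  rw [hc.f_add_sum k j hj x, Finset.sum_eq_sum_Ico_succ_bot (show k < j by omega)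
    (fun i => F.nrm (dyf W M i x))]
  refine (nrm_sub_le' _ _).trans ?_
  gcongr
  rw [F.nrm_smul, abs_of_pos (by norm_num)]
  calc 2⁻¹ * F.nrm (∑ i ∈ Ico (k + 1) j, (W (k + 1) (dyf W M i x) - dyf W M i x))
      ≤ 2⁻¹ * ∑ i ∈ Ico (k + 1) j, F.nrm (W (k + 1) (dyf W M i x) - dyf W M i x) := by
        exact mul_le_mul_of_nonneg_left (nrm_sum_le _ _) (by norm_num)
    _ ≤ 2⁻¹ * ∑ i ∈ Ico (k + 1) j, 2 * F.nrm (dyf W M i x) := by
        exact mul_le_mul_of_nonneg_left (Finset.sum_le_sum fun i _ => hi.nrm_Wsub _ _) (by norm_num)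
    _ = ∑ i ∈ Ico (k + 1) j, F.nrm (dyf W M i x) := by
        rw [← Finset.mul_sum]; ring

/-- One term of the telescoping sum in the first Littlewood-Paley estimate. -/
lemma nrm_ff (hc : DyCh W M) (hi : DyIso F W M) (k d : ℕ) (x : V) :
    F.nrm (dyf W M (k + d) (dyf W M k x))
      ≤ 2 * (2⁻¹ : ℝ) ^ d * ∑ i ∈ Ico k (k + d + 1), F.nrm (dyf W M i x) := by
  have e : dyf W M (k + d) (dyf W M k x)
      = ((2⁻¹ : ℝ) ^ d) • (((W (k + 1) - 1) * M (k + 1 + d)) (W (k + 1) (M (k + d + 1) x)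
        - M (k + d + 1) x)) := by
    have e1 : dyf W M (k + d) (dyf W M k x)
        = (((W (k + d + 1) - 1) * M (k + d + 1)) * ((W (k + 1) - 1) * M (k + 1))) x := by
      rw [dyf_eq, dyf_eq, Module.End.mul_apply (((W (k + d + 1) - 1) * M (k + d + 1)))]
    have c0 : Commute (M (k + d + 1)) (W (k + 1) - 1) :=
      ((hc.cWM (k + 1) (k + d + 1)).symm.sub_right (Commute.one_right _))
    have e2 : ((W (k + d + 1) - 1) * M (k + d + 1)) * ((W (k + 1) - 1) * M (k + 1))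
        = ((W (k + 1 + d) - 1) * M (k + 1)) * ((W (k + 1) - 1) * M (k + d + 1)) := by
      have c1 : Commute (M (k + d + 1)) ((W (k + 1) - 1) * M (k + 1)) :=
        c0.mul_right (hc.cMM _ _)
      have c2 : Commute (M (k + 1)) (W (k + 1) - 1) :=
        ((hc.cWM (k + 1) (k + 1)).symm.sub_right (Commute.one_right _))
      have e3 : k + 1 + d = k + d + 1 := by ring
      rw [e3, mul_assoc, c1.eq, mul_assoc, mul_assoc, ← mul_assoc (M (k + 1)) (W (k + 1) - 1), c2.eq,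
        mul_assoc]
    rw [e1, e2, hc.swap d (k + 1)]
    rfl
  rw [e, F.nrm_smul, abs_of_pos (by positivity)]
  have h1 : F.nrm (((W (k + 1) - 1) * M (k + 1 + d)) (W (k + 1) (M (k + d + 1) x)
        - M (k + d + 1) x)) ≤ 2 * ∑ i ∈ Ico k (k + d + 1), F.nrm (dyf W M i x) := by
    refine (hi.nrm_Wsub (k + 1) _).trans ?_
    refine mul_le_mul_of_nonneg_left ((hi.nrmM _ _).trans ?_) (by norm_num)
    exact nrm_WM hc hi k (k + d + 1) (by omega) x
  nlinarith [pow_pos (show (0 : ℝ) < 2⁻¹ by norm_num) d]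

lemma nrm_tail (hc : DyCh W M) (hi : DyIso F W M) (k m J : ℕ) (hJ : k + m ≤ J) (x : V) :
    F.nrm (M J (dyf W M k x) - M (k + m) (dyf W M k x))
      ≤ ∑ d ∈ Ico m (J - k), ∑ e ∈ range (d + 1), (2⁻¹ : ℝ) ^ d * F.nrm (dyf W M (k + e) x) := by
  rw [hc.M_sub (k + m) J hJ, F.nrm_neg, F.nrm_smul, abs_of_pos (by norm_num)]
  have h1 : ∑ i ∈ Ico (k + m) J, dyf W M i (dyf W M k x)
      = ∑ d ∈ Ico m (J - k), dyf W M (k + d) (dyf W M k x) := by
    have : J = k + (J - k) := by omega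
    conv_lhs => rw [this, add_comm k m, add_comm k (J - k)]
    rw [← Finset.sum_Ico_add']
    exact Finset.sum_congr rfl fun d _ => by rw [add_comm]
  rw [h1]
  calc 2⁻¹ * F.nrm (∑ d ∈ Ico m (J - k), dyf W M (k + d) (dyf W M k x))
      ≤ 2⁻¹ * ∑ d ∈ Ico m (J - k), F.nrm (dyf W M (k + d) (dyf W M k x)) :=
        mul_le_mul_of_nonneg_left (nrm_sum_le _ _) (by norm_num)
    _ ≤ 2⁻¹ * ∑ d ∈ Ico m (J - k), 2 * (2⁻¹ : ℝ) ^ d
          * ∑ i ∈ Ico k (k + d + 1), F.nrm (dyf W M i x) :=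
        mul_le_mul_of_nonneg_left (Finset.sum_le_sum fun d _ => nrm_ff hc hi k d x) (by norm_num)
    _ = ∑ d ∈ Ico m (J - k), ∑ e ∈ range (d + 1), (2⁻¹ : ℝ) ^ d * F.nrm (dyf W M (k + e) x) := by
        rw [Finset.mul_sum]
        refine Finset.sum_congr rfl fun d _ => ?_
        rw [Finset.sum_Ico_eq_sum_range, ← Finset.mul_sum]
        have : k + d + 1 - k = d + 1 := by omega
        rw [this]
        ring

end Norms

/-! ### Sums of nonnegative numbers -/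

lemma dy_wt (m D : ℕ) : ∑ d ∈ Ico m D, ∑ _e ∈ range (d + 1), (2⁻¹ : ℝ) ^ d
    ≤ (m + 2) * 2 * (2⁻¹ : ℝ) ^ m := by
  have key : ∀ D : ℕ, m ≤ D → ∑ d ∈ Ico m D, ∑ _e ∈ range (d + 1), (2⁻¹ : ℝ) ^ d
      = (m + 2) * 2 * (2⁻¹ : ℝ) ^ m - (D + 2) * 2 * (2⁻¹ : ℝ) ^ D := by
    intro D hD
    induction D, hD using Nat.le_induction with
    | base => simp
    | succ D hD ih =>
      rw [Finset.sum_Ico_succ_top hD, ih]
      simp only [Finset.sum_const, Finset.card_range, nsmul_eq_mul]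
      push_cast
      rw [pow_succ]
      ring
  rcases le_total m D with hD | hD
  · rw [key D hD]
    have : (0 : ℝ) ≤ (D + 2) * 2 * (2⁻¹ : ℝ) ^ D := by positivity
    linarith
  · rw [Finset.Ico_eq_empty_of_le hD, Finset.sum_empty]
    positivity

/-- Weighted Cauchy-Schwarz and exchange of sums. -/
lemma dy_cs (m D k0 K : ℕ) (g : ℕ → ℝ) (G : ℝ) (hG : ∀ a b : ℕ, ∑ i ∈ Ico a b, g i ^ 2 ≤ G) :
    ∑ k ∈ Ico k0 K, (∑ d ∈ Ico m D, ∑ e ∈ range (d + 1), (2⁻¹ : ℝ) ^ d * g (k + e)) ^ 2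
      ≤ ((m + 2) * 2 * (2⁻¹ : ℝ) ^ m) ^ 2 * G := by
  set S : ℝ := (m + 2) * 2 * (2⁻¹ : ℝ) ^ m with hS
  have hS0 : 0 ≤ S := by positivity
  have hG0 : 0 ≤ G := by simpa using hG 0 0
  have h1 : ∀ k, (∑ d ∈ Ico m D, ∑ e ∈ range (d + 1), (2⁻¹ : ℝ) ^ d * g (k + e)) ^ 2
      ≤ S * ∑ d ∈ Ico m D, ∑ e ∈ range (d + 1), (2⁻¹ : ℝ) ^ d * g (k + e) ^ 2 := by
    intro k
    rw [Finset.sum_sigma', Finset.sum_sigma']
    have h2 := Finset.sum_mul_sq_le_sq_mul_sq ((Ico m D).sigma fun d => range (d + 1))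
      (fun p => Real.sqrt ((2⁻¹ : ℝ) ^ p.1)) (fun p => Real.sqrt ((2⁻¹ : ℝ) ^ p.1) * g (k + p.2))
    have h3 : ∀ p : (Σ _ : ℕ, ℕ), Real.sqrt ((2⁻¹ : ℝ) ^ p.1) * (Real.sqrt ((2⁻¹ : ℝ) ^ p.1) * g (k + p.2))
        = (2⁻¹ : ℝ) ^ p.1 * g (k + p.2) := by
      intro p
      rw [← mul_assoc, Real.mul_self_sqrt (by positivity)]
    have h4 : ∀ p : (Σ _ : ℕ, ℕ), Real.sqrt ((2⁻¹ : ℝ) ^ p.1) ^ 2 = (2⁻¹ : ℝ) ^ p.1 := by
      intro p; exact Real.sq_sqrt (by positivity)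
    have h5 : ∀ p : (Σ _ : ℕ, ℕ), (Real.sqrt ((2⁻¹ : ℝ) ^ p.1) * g (k + p.2)) ^ 2
        = (2⁻¹ : ℝ) ^ p.1 * g (k + p.2) ^ 2 := by
      intro p
      rw [mul_pow, Real.sq_sqrt (by positivity)]
    simp only [h3, h4, h5] at h2
    refine h2.trans (mul_le_mul_of_nonneg_right ?_ (Finset.sum_nonneg fun p _ => by positivity))
    rw [← Finset.sum_sigma' (Ico m D) (fun d => range (d + 1)) (fun d _ => (2⁻¹ : ℝ) ^ d)]
    exact dy_wt m D
  calc ∑ k ∈ Ico k0 K, (∑ d ∈ Ico m D, ∑ e ∈ range (d + 1), (2⁻¹ : ℝ) ^ d * g (k + e)) ^ 2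
      ≤ ∑ k ∈ Ico k0 K, S * ∑ d ∈ Ico m D, ∑ e ∈ range (d + 1), (2⁻¹ : ℝ) ^ d * g (k + e) ^ 2 :=
        Finset.sum_le_sum fun k _ => h1 k
    _ = S * ∑ d ∈ Ico m D, ∑ e ∈ range (d + 1), (2⁻¹ : ℝ) ^ d * ∑ k ∈ Ico k0 K, g (k + e) ^ 2 := by
        rw [← Finset.mul_sum, Finset.sum_comm]
        congr 1
        refine Finset.sum_congr rfl fun d _ => ?_
        rw [Finset.sum_comm]
        refine Finset.sum_congr rfl fun e _ => ?_
        rw [Finset.mul_sum]
    _ ≤ S * ∑ d ∈ Ico m D, ∑ e ∈ range (d + 1), (2⁻¹ : ℝ) ^ d * G := by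
        refine mul_le_mul_of_nonneg_left (Finset.sum_le_sum fun d _ => Finset.sum_le_sum fun e _ =>
          mul_le_mul_of_nonneg_left ?_ (by positivity)) hS0
        rw [Finset.sum_Ico_add' (fun i => g i ^ 2) k0 K e]
        exact hG _ _
    _ = S * ((∑ d ∈ Ico m D, ∑ _e ∈ range (d + 1), (2⁻¹ : ℝ) ^ d) * G) := by
        simp only [Finset.sum_mul]
    _ ≤ S * (S * G) := by
        exact mul_le_mul_of_nonneg_left (mul_le_mul_of_nonneg_right (dy_wt m D) hG0) hS0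
    _ = S ^ 2 * G := by ring

section Final

variable {F : PSForm V}

/-- R5, first estimate: `f k` is almost constant at the scale `2^-(k+m)`. -/
theorem lp_small (hc : DyCh W M) (hi : DyIso F W M) (m k0 K J : ℕ) (hJ : K + m ≤ J) (x : V) :
    ∑ k ∈ Ico k0 K, F.B (M J (dyf W M k x) - M (k + m) (dyf W M k x))
        (M J (dyf W M k x) - M (k + m) (dyf W M k x))
      ≤ (4 * (m + 2) * (2⁻¹ : ℝ) ^ m) ^ 2 * F.B x x := by
  have hG : ∀ a b : ℕ, ∑ i ∈ Ico a b, F.nrm (dyf W M i x) ^ 2 ≤ 4 * F.B x x := by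
    intro a b
    simp only [F.nrm_sq]
    exact sum_f_le hc hi a b x
  have h1 := dy_cs m J k0 K (fun i => F.nrm (dyf W M i x)) (4 * F.B x x) hG
  refine (Finset.sum_le_sum (g := fun k => (∑ d ∈ Ico m J, ∑ e ∈ range (d + 1),
    (2⁻¹ : ℝ) ^ d * F.nrm (dyf W M (k + e) x)) ^ 2) fun k hk => ?_).trans (h1.trans (le_of_eq (by ring)))
  rw [← F.nrm_sq]
  have hk2 := (Finset.mem_Ico.mp hk).2
  refine pow_le_pow_left₀ (F.nrm_nonneg _) ?_ 2
  refine (nrm_tail hc hi k m J (by omega) x).trans ?_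
  refine Finset.sum_le_sum_of_subset_of_nonneg (Finset.Ico_subset_Ico le_rfl (by omega))
    fun d _ _ => Finset.sum_nonneg fun e _ => mul_nonneg (by positivity) (F.nrm_nonneg _)

lemma nrm_large (hc : DyCh W M) (hi : DyIso F W M) (k l : ℕ) (x : V) :
    F.nrm (M (k + 1) (dyf W M (k + l) x))
      ≤ (2⁻¹ : ℝ) ^ l * ∑ i ∈ Ico k (k + l + 1), F.nrm (dyf W M i x) := by
  have e : M (k + 1) (dyf W M (k + l) x)
      = ((2⁻¹ : ℝ) ^ l) • (M (k + 1 + l) (W (k + 1) (M (k + l + 1) x) - M (k + l + 1) x)) := by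
    have e0 : k + 1 + l = k + l + 1 := by ring
    have h0 := hc.swap l (k + 1)
    rw [e0] at h0
    have c1 : Commute (M (k + 1)) (W (k + l + 1) - 1) :=
      ((hc.cWM (k + l + 1) (k + 1)).symm.sub_right (Commute.one_right _))
    have c2 : Commute (W (k + 1) - 1) (M (k + l + 1)) :=
      ((hc.cWM (k + 1) (k + l + 1)).sub_left (Commute.one_left _))
    have e1 : M (k + 1) * ((W (k + l + 1) - 1) * M (k + l + 1))
        = ((2⁻¹ : ℝ) ^ l) • (M (k + l + 1) * ((W (k + 1) - 1) * M (k + l + 1))) := by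
      have e3 : (W (k + 1) - 1) * M (k + l + 1) * M (k + l + 1)
          = M (k + l + 1) * ((W (k + 1) - 1) * M (k + l + 1)) := by
        rw [← mul_assoc, c2.eq]
      rw [← mul_assoc, c1.eq, h0, smul_mul_assoc, e3]
    have e2 := congrArg (fun A : Module.End ℝ V => A x) e1
    rw [e0]
    exact e2
  rw [e, F.nrm_smul, abs_of_pos (by positivity)]
  refine mul_le_mul_of_nonneg_left ((hi.nrmM _ _).trans ?_) (by positivity)
  exact nrm_WM hc hi k (k + l + 1) (by omega) x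

/-- R5, second estimate: averages of `f k` over the much larger scale `2^l 2^-(k+1)` are small. -/
theorem lp_large (hc : DyCh W M) (hi : DyIso F W M) (l K : ℕ) (x : V) :
    ∑ k ∈ Ico l K, F.B (M (k + 1 - l) (dyf W M k x)) (M (k + 1 - l) (dyf W M k x))
      ≤ (2 * (l + 1) * (2⁻¹ : ℝ) ^ l) ^ 2 * F.B x x := by
  have hG : ∀ a b : ℕ, ∑ i ∈ Ico a b, F.nrm (dyf W M i x) ^ 2 ≤ 4 * F.B x x := by
    intro a b
    simp only [F.nrm_sq]
    exact sum_f_le hc hi a b x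
  have hB : 0 ≤ F.B x x := F.nonneg x
  have h1 : ∀ k ∈ Ico l K, F.B (M (k + 1 - l) (dyf W M k x)) (M (k + 1 - l) (dyf W M k x))
      ≤ ((2⁻¹ : ℝ) ^ l) ^ 2 * ((l + 1) * ∑ e ∈ range (l + 1), F.nrm (dyf W M (k - l + e) x) ^ 2) := by
    intro k hk
    have hkl := (Finset.mem_Ico.mp hk).1
    have h2 := nrm_large hc hi (k - l) l x
    have e1 : k - l + 1 = k + 1 - l := by omega
    have e2 : k - l + l = k := by omega
    rw [e2, e1] at h2
    rw [← F.nrm_sq]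
    have h3 : ∑ i ∈ Ico (k - l) (k + 1), F.nrm (dyf W M i x)
        = ∑ e ∈ range (l + 1), F.nrm (dyf W M (k - l + e) x) := by
      rw [Finset.sum_Ico_eq_sum_range]
      have : k + 1 - (k - l) = l + 1 := by omega
      rw [this]
    rw [h3] at h2
    calc F.nrm (M (k + 1 - l) (dyf W M k x)) ^ 2
        ≤ ((2⁻¹ : ℝ) ^ l * ∑ e ∈ range (l + 1), F.nrm (dyf W M (k - l + e) x)) ^ 2 :=
          pow_le_pow_left₀ (F.nrm_nonneg _) h2 2
      _ = ((2⁻¹ : ℝ) ^ l) ^ 2 * (∑ e ∈ range (l + 1), F.nrm (dyf W M (k - l + e) x)) ^ 2 := by ring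
      _ ≤ _ := by
          refine mul_le_mul_of_nonneg_left ?_ (by positivity)
          have := sq_sum_le_card_mul_sum_sq (s := range (l + 1))
            (f := fun e => F.nrm (dyf W M (k - l + e) x))
          rw [Finset.card_range] at this
          push_cast at this
          exact this
  refine (Finset.sum_le_sum h1).trans ?_
  rw [← Finset.mul_sum, ← Finset.mul_sum, Finset.sum_comm]
  have h4 : ∀ e ∈ range (l + 1), ∑ k ∈ Ico l K, F.nrm (dyf W M (k - l + e) x) ^ 2 ≤ 4 * F.B x x := by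
    intro e _
    have : ∑ k ∈ Ico l K, F.nrm (dyf W M (k - l + e) x) ^ 2
        = ∑ i ∈ Ico e (K - l + e), F.nrm (dyf W M i x) ^ 2 := by
      rw [Finset.sum_Ico_eq_sum_range, Finset.sum_Ico_eq_sum_range]
      have e3 : K - l + e - e = K - l := by omega
      rw [e3]
      refine Finset.sum_congr rfl fun i _ => ?_
      have : l + i - l + e = e + i := by omega
      rw [this]
    rw [this]
    exact hG _ _
  have h5 : ∑ e ∈ range (l + 1), ∑ k ∈ Ico l K, F.nrm (dyf W M (k - l + e) x) ^ 2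
      ≤ (l + 1) * (4 * F.B x x) := by
    refine (Finset.sum_le_sum h4).trans (le_of_eq ?_)
    rw [Finset.sum_const, Finset.card_range, nsmul_eq_mul]
    push_cast; ring
  calc ((2⁻¹ : ℝ) ^ l) ^ 2 * ((l + 1) * ∑ e ∈ range (l + 1), ∑ k ∈ Ico l K,
        F.nrm (dyf W M (k - l + e) x) ^ 2)
      ≤ ((2⁻¹ : ℝ) ^ l) ^ 2 * ((l + 1) * ((l + 1) * (4 * F.B x x))) := by
        refine mul_le_mul_of_nonneg_left (mul_le_mul_of_nonneg_left h5 (by positivity)) (by positivity)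
    _ = (2 * (l + 1) * (2⁻¹ : ℝ) ^ l) ^ 2 * F.B x x := by ring

end Final

end

end Pool.Agent.SZ.R3
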