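import Mathlib
import Pool.Agent.SZ.R3a
import Pool.Agent.SZ.Nuk

/-!
# SZ part R: the dyadic averages over the upper triangular group (instance of R3a)
-/

set_option autoImplicit false
set_option linter.unusedSectionVars false

namespace Pool.Agent.SZ.R3

open Pool.Agent.IRS MeasureTheory Set Filter Topology

/-- The dyadic scale. -/
noncomputable def hk (k : ℕ) : ℝ := (2⁻¹ : ℝ) ^ k

lemma hk_pos (k : ℕ) : 0 < hk k := by unfold hk; positivity

lemma hk_succ (k : ℕ) : hk k = hk (k + 1) + hk (k + 1) := by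
  unfold hk; rw [pow_succ]; ring

lemma measurable_uu : Measurable uu := by
  have h : Continuous uu := by
    refine Continuous.subtype_mk ?_ _
    refine continuous_matrix fun i j => ?_
    fin_cases i <;> fin_cases j <;> simp <;> fun_prop
  exact h.measurable

/-- Uniform measure on `(0, 2^-k]`. -/
noncomputable def lamk (k : ℕ) : Measure ℝ :=
  (ENNReal.ofReal ((hk k)⁻¹)) • volume.restrict (Ioc 0 (hk k))

instance instProbLamk (k : ℕ) : IsProbabilityMeasure (lamk k) := by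
  constructor
  unfold lamk
  rw [Measure.smul_apply, Measure.restrict_apply MeasurableSet.univ, univ_inter, Real.volume_Ioc,
    sub_zero, smul_eq_mul, ← ENNReal.ofReal_mul (inv_nonneg.mpr (hk_pos k).le),
    inv_mul_cancel₀ (hk_pos k).ne', ENNReal.ofReal_one]

/-- Uniform measure on the upper triangular matrices `uu t`, `0 < t ≤ 2^-k`. -/
noncomputable def unk (k : ℕ) : Measure SL2R := (lamk k).map uu

instance instProbUnk (k : ℕ) : IsProbabilityMeasure (unk k) :=
  Measure.isProbabilityMeasure_map measurable_uu.aemeasurable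

lemma int_unk (k : ℕ) {F : SL2R → ℝ} (hF : Measurable F) :
    ∫ g, F g ∂(unk k) = ∫ t, F (uu t) ∂(lamk k) := by
  rw [unk, integral_map measurable_uu.aemeasurable hF.aestronglyMeasurable]

lemma int_lamk (k : ℕ) (F : ℝ → ℝ) :
    ∫ t, F t ∂(lamk k) = (hk k)⁻¹ * ∫ t in (0 : ℝ)..(hk k), F t := by
  rw [lamk, integral_smul_measure, intervalIntegral.integral_of_le (hk_pos k).le,
    ENNReal.toReal_ofReal (inv_nonneg.mpr (hk_pos k).le), smul_eq_mul]

section

variable {Z : Type*} [MeasurableSpace Z] {ζ : Measure Z} [SigmaFinite ζ] (a : PAct SL2R ζ)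

/-- Translation by `2^-k`. -/
noncomputable def Wk (k : ℕ) : Module.End ℝ (BL2 ζ) := a.T (uu (hk k))

/-- Average over `[0, 2^-k]`. -/
noncomputable def Mk (k : ℕ) : Module.End ℝ (BL2 ζ) := a.A (unk k)

lemma Mk_lam (k : ℕ) (f : BL2 ζ) (z : Z) :
    ((Mk a k f : BL2 ζ) : Z → ℝ) z = ∫ t, (f : Z → ℝ) (a.τ (uu t) z) ∂(lamk k) := by
  rw [Mk, PAct.A_apply, int_unk k (a.meas_sec (bmeas f) z)]

lemma Mk_apply (k : ℕ) (f : BL2 ζ) (z : Z) :
    ((Mk a k f : BL2 ζ) : Z → ℝ) z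
      = (hk k)⁻¹ * ∫ t in (0 : ℝ)..(hk k), (f : Z → ℝ) (a.τ (uu t) z) := by
  rw [Mk_lam, int_lamk]

lemma Wk_apply (k : ℕ) (f : BL2 ζ) (z : Z) :
    ((Wk a k f : BL2 ζ) : Z → ℝ) z = (f : Z → ℝ) (a.τ (uu (hk k)) z) := rfl

lemma sec_meas (f : BL2 ζ) (z : Z) : Measurable (fun t : ℝ => (f : Z → ℝ) (a.τ (uu t) z)) :=
  (a.meas_sec (bmeas f) z).comp measurable_uu

lemma sec_int (f : BL2 ζ) (z : Z) (x y : ℝ) :
    IntervalIntegrable (fun t : ℝ => (f : Z → ℝ) (a.τ (uu t) z)) volume x y := by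
  obtain ⟨M, hM⟩ := bbdd f
  refine (intervalIntegrable_const (c := M)).mono_fun' (sec_meas a f z).aestronglyMeasurable ?_
  filter_upwards with t
  exact hM _

lemma Mk_avg (k : ℕ) : Mk a k = (2⁻¹ : ℝ) • ((1 + Wk a (k + 1)) * Mk a (k + 1)) := by
  refine LinearMap.ext fun f => Subtype.ext (funext fun z => ?_)
  have e1 : (((2⁻¹ : ℝ) • ((1 + Wk a (k + 1)) * Mk a (k + 1))) f : BL2 ζ)
      = (2⁻¹ : ℝ) • (Mk a (k + 1) f + Wk a (k + 1) (Mk a (k + 1) f)) := rfl
  rw [e1]
  change ((Mk a k f : BL2 ζ) : Z → ℝ) z = 2⁻¹ * (((Mk a (k + 1) f : BL2 ζ) : Z → ℝ) z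
    + ((Mk a (k + 1) f : BL2 ζ) : Z → ℝ) (a.τ (uu (hk (k + 1))) z))
  rw [Mk_apply, Mk_apply, Mk_apply]
  have e2 : ∫ t in (0 : ℝ)..(hk (k + 1)), (f : Z → ℝ) (a.τ (uu t) (a.τ (uu (hk (k + 1))) z))
      = ∫ t in (hk (k + 1))..(hk k), (f : Z → ℝ) (a.τ (uu t) z) := by
    have e3 := intervalIntegral.integral_comp_add_right (a := 0) (b := hk (k + 1))
      (fun s => (f : Z → ℝ) (a.τ (uu s) z)) (hk (k + 1))
    rw [zero_add, ← hk_succ] at e3
    rw [← e3]
    refine intervalIntegral.integral_congr fun t _ => ?_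
    rw [← a.mul, ← uu_add]
  rw [e2, hk_succ k, ← mul_add, ← hk_succ k,
    intervalIntegral.integral_add_adjacent_intervals (sec_int a f z _ _) (sec_int a f z _ _)]
  have h0 := hk_pos (k + 1)
  have h1 : (hk k)⁻¹ = 2⁻¹ * (hk (k + 1))⁻¹ := by
    rw [hk_succ k]; field_simp; norm_num
  rw [h1]; ring

lemma Wk_sq (k : ℕ) : Wk a k = Wk a (k + 1) * Wk a (k + 1) := by
  refine LinearMap.ext fun f => ?_
  change a.T (uu (hk k)) f = a.T (uu (hk (k + 1))) (a.T (uu (hk (k + 1))) f)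
  rw [a.T_T, ← uu_add, ← hk_succ]

lemma T_uu_comm (s t : ℝ) (f : BL2 ζ) : a.T (uu s) (a.T (uu t) f) = a.T (uu t) (a.T (uu s) f) := by
  rw [a.T_T, a.T_T, ← uu_add, ← uu_add, add_comm]

lemma T_Mk_comm (s : ℝ) (k : ℕ) (f : BL2 ζ) : a.T (uu s) (Mk a k f) = Mk a k (a.T (uu s) f) := by
  refine Subtype.ext (funext fun z => ?_)
  rw [PAct.T_apply, Mk_lam, Mk_lam]
  refine integral_congr_ae (Filter.Eventually.of_forall fun t => ?_)
  simp only [PAct.T_apply]
  rw [← a.mul, ← a.mul, ← uu_add, ← uu_add, add_comm]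

lemma Mk_Mk_comm (i j : ℕ) (f : BL2 ζ) : Mk a i (Mk a j f) = Mk a j (Mk a i f) := by
  refine Subtype.ext (funext fun z => ?_)
  rw [Mk_lam, Mk_lam]
  simp only [Mk_lam]
  obtain ⟨M, hM⟩ := bbdd f
  have h1 : Measurable (fun p : ℝ × ℝ => (f : Z → ℝ) (a.τ (uu p.2) (a.τ (uu p.1) z))) := by
    refine (bmeas f).comp (a.meas.comp ((measurable_uu.comp measurable_snd).prodMk ?_))
    exact a.meas.comp ((measurable_uu.comp measurable_fst).prodMk measurable_const)
  have h2 := integral_integral_swap (μ := lamk i) (ν := lamk j)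
    (f := fun s t => (f : Z → ℝ) (a.τ (uu t) (a.τ (uu s) z)))
    (integrable_of_bdd ((lamk i).prod (lamk j))
      (f := fun p : ℝ × ℝ => (f : Z → ℝ) (a.τ (uu p.2) (a.τ (uu p.1) z))) h1 fun p => hM _)
  rw [h2]
  refine integral_congr_ae (Filter.Eventually.of_forall fun t => ?_)
  refine integral_congr_ae (Filter.Eventually.of_forall fun s => ?_)
  simp only
  rw [← a.mul, ← a.mul, ← uu_add, ← uu_add, add_comm]

theorem dyCh : DyCh (Wk a) (Mk a) where
  avg := Mk_avg a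
  sq := Wk_sq a
  cWW _ _ := LinearMap.ext fun f => T_uu_comm a _ _ f
  cWM _ _ := LinearMap.ext fun f => T_Mk_comm a _ _ f
  cMM i j := LinearMap.ext fun f => Mk_Mk_comm a i j f

theorem dyIso : DyIso (frm ζ) (Wk a) (Mk a) where
  iso k f := a.T_isom _ f f
  con k f := by
    have := a.E_nonneg (unk k) f
    unfold PAct.E at this
    change (frm ζ).B (a.A (unk k) f) (a.A (unk k) f) ≤ _
    linarith

lemma pos_pair {V : Type*} [AddCommGroup V] [Module ℝ V] {F : PSForm V} {P Q : Module.End ℝ V}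
    (hP : F.Pos P) (hP' : F.Pos (1 - P)) (hQ : F.Pos (1 - Q)) (h : Commute P Q) :
    F.Pos ((1 - P) * (1 - Q)) :=
  PSForm.Pos.mul hP' (by simpa using hP) hQ
    ((Commute.one_left _).sub_left ((Commute.one_right _).sub_right h))

/-- The energy form of a positive operator at most one. -/
noncomputable def enF {V : Type*} [AddCommGroup V] [Module ℝ V] {F : PSForm V}
    {Q : Module.End ℝ V} (hQ : F.Pos (1 - Q)) : PSForm V where
  B := F.B ∘ₗ (1 - Q)
  symm x y := by
    change F.B ((1 - Q) x) y = F.B ((1 - Q) y) x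
    rw [hQ.symm, F.symm]
  nonneg x := hQ.nonneg x

lemma enF_apply {V : Type*} [AddCommGroup V] [Module ℝ V] {F : PSForm V}
    {Q : Module.End ℝ V} (hQ : F.Pos (1 - Q)) (x y : V) :
    (enF hQ).B x y = F.B (x - Q x) y := rfl

variable (b : PAct SL2R ζ) (hab : ∀ g h z, a.τ g (b.τ h z) = b.τ h (a.τ g z))

include hab in
/-- The dyadic averages for the energy form of the other factor. -/
theorem dyIso_en (ν : Measure SL2R) [IsProbabilityMeasure ν] :
    DyIso (enF (b.P_pos' ν)) (Wk a) (Mk a) where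
  iso k f := by
    have hba : ∀ g h z, b.τ g (a.τ h z) = a.τ h (b.τ g z) := fun g h z => (hab h g z).symm
    rw [enF_apply, enF_apply]
    change (frm ζ).B (a.T _ f - b.P ν (a.T _ f)) (a.T _ f) = _
    rw [PAct.P_T_comm ν hba, ← map_sub, a.T_isom]
  con k f := by
    have hba : ∀ g h z, b.τ g (a.τ h z) = a.τ h (b.τ g z) := fun g h z => (hab h g z).symm
    rw [enF_apply, enF_apply]
    change (frm ζ).B (a.A (unk k) f - b.P ν (a.A (unk k) f)) (a.A (unk k) f) ≤ _
    have hc0 : ∀ (σ : Measure SL2R) [IsProbabilityMeasure σ] (x : BL2 ζ),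
        a.A σ (b.P ν x) = b.P ν (a.A σ x) := by
      intro σ _ x
      rw [PAct.P_apply, PAct.P_apply, PAct.A_comm σ hab, PAct.A_comm σ hab]
    have h1 : Commute (a.P (unk k)) (b.P ν) := by
      refine LinearMap.ext fun x => ?_
      change a.P (unk k) (b.P ν x) = b.P ν (a.P (unk k) x)
      rw [PAct.P_apply, hc0, hc0, ← PAct.P_apply]
    have hp : 0 ≤ (frm ζ).B ((f - b.P ν f) - a.P (unk k) (f - b.P ν f)) f :=
      (pos_pair (a.P_pos (unk k)) (a.P_pos' (unk k)) (b.P_pos' ν) h1).nonneg f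
    have e2 : a.A (unk k) (f - b.P ν f) = a.A (unk k) f - b.P ν (a.A (unk k) f) := by
      rw [map_sub, hc0]
    rw [(frm ζ).B.map_sub (f - b.P ν f), LinearMap.sub_apply, PAct.B_P, e2] at hp
    linarith

end

end Pool.Agent.SZ.R3
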