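import Mathlib
import Pool.Agent.SZ.RDefs
import Pool.Agent.SZ.R3b

/-!
# SZ part R, module R03: calculus of the averages MM

Let `n_t = uu t`, `τ_k = tk k = 2^-(k+1)`.  `MM a k f (z) = 2^k int_0^{2^-k} f(n_t z) dt`
(`MM_apply`: unfold `sg`, `integral_smul_measure`, `integral_map`, `intervalIntegral.integral_of_le`).
`MM_half`: split `[0,2^-k]` into two halves of length `τ_k = 2^-(k+1)` and translate.
`MM_comm`: `n_s n_t = n_t n_s`, Fubini (compare `A_comm` in `IRS/Avg3.lean`).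
`MM_scale` (`k <= i`): `(T_{τ_i} - 1) M_{k+1} = 2^-(i-k) (T_{τ_k} - 1) M_{i+1}`, since with `L = τ_k`
(the length for `M_{k+1}`), `τ = τ_i`: `int_τ^{L+τ} - int_0^L = int_L^{L+τ} - int_0^τ` of `f(n_t z)`,
`1/L = 2^-(i-k) / τ`.  `MM_succ_sub` follows from `MM_half`.
-/

set_option autoImplicit false
set_option linter.unusedVariables false
set_option linter.unusedSectionVars false

namespace Pool.Agent.SZ.PR

open Pool.Agent.IRS MeasureTheory Set Filter Topology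

section

variable {Z : Type*} [MeasurableSpace Z] {ζ : Measure Z} [SigmaFinite ζ]

lemma measurable_uu : Measurable uu := R3.measurable_uu

lemma sg_eq_unk (k : ℕ) : sg k = R3.unk k := by
  unfold sg R3.unk R3.lamk R3.hk
  rw [Measure.map_smul]
  congr 1
  have h2 : ((2⁻¹ : ℝ) ^ k)⁻¹ = 2 ^ k := by rw [← inv_pow, inv_inv]
  rw [h2, ENNReal.ofReal_pow (by norm_num)]
  norm_num

lemma MM_eq_Mk (a : PAct SL2R ζ) (k : ℕ) (f : BL2 ζ) : MM a k f = R3.Mk a k f := by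
  apply Subtype.ext
  funext z
  have h1 : ((MM a k f : BL2 ζ) : Z → ℝ) z = ∫ g, (f : Z → ℝ) (a.τ g z) ∂(sg k) :=
    PAct.A_apply ..
  have h2 : ((R3.Mk a k f : BL2 ζ) : Z → ℝ) z = ∫ g, (f : Z → ℝ) (a.τ g z) ∂(R3.unk k) :=
    PAct.A_apply ..
  rw [h1, h2, sg_eq_unk]

lemma T_tk_eq (a : PAct SL2R ζ) (k : ℕ) (f : BL2 ζ) : a.T (uu (tk k)) f = R3.Wk a (k + 1) f := rfl

lemma ff_eq_dyf (a : PAct SL2R ζ) (f : BL2 ζ) (k : ℕ) :
    ff a f k = R3.dyf (R3.Wk a) (R3.Mk a) k f := by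
  unfold ff R3.dyf
  rw [MM_eq_Mk, T_tk_eq]

lemma MM_apply (a : PAct SL2R ζ) (k : ℕ) (f : BL2 ζ) (z : Z) :
    ((MM a k f : BL2 ζ) : Z → ℝ) z = 2 ^ k * ∫ t in (0 : ℝ)..(2⁻¹ ^ k), (f : Z → ℝ) (a.τ (uu t) z) := by
  have h := R3.Mk_apply a k f z
  rw [← MM_eq_Mk] at h
  rw [h]
  unfold R3.hk
  rw [← inv_pow, inv_inv]

lemma MM_half (a : PAct SL2R ζ) (k : ℕ) (f : BL2 ζ) :
    MM a k f = (2 : ℝ)⁻¹ • (MM a (k + 1) f + a.T (uu (tk k)) (MM a (k + 1) f)) := by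
  rw [MM_eq_Mk, MM_eq_Mk, T_tk_eq]
  exact (R3.dyCh a).M_eq k f

lemma MM_succ_sub (a : PAct SL2R ζ) (k : ℕ) (f : BL2 ζ) :
    MM a (k + 1) f - MM a k f = -((2 : ℝ)⁻¹ • ff a f k) := by
  rw [MM_eq_Mk, MM_eq_Mk, ff_eq_dyf]
  exact (R3.dyCh a).M_succ_sub k f

lemma MM_comm (a : PAct SL2R ζ) (i j : ℕ) (f : BL2 ζ) : MM a i (MM a j f) = MM a j (MM a i f) := by
  simp only [MM_eq_Mk]
  exact R3.Mk_Mk_comm a i j f

lemma MM_T_comm (a : PAct SL2R ζ) (i : ℕ) (s : ℝ) (f : BL2 ζ) :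
    MM a i (a.T (uu s) f) = a.T (uu s) (MM a i f) := by
  simp only [MM_eq_Mk]
  exact (R3.T_Mk_comm a s i f).symm

lemma MM_scale (a : PAct SL2R ζ) {k i : ℕ} (h : k ≤ i) (f : BL2 ζ) :
    a.T (uu (tk i)) (MM a (k + 1) f) - MM a (k + 1) f
      = (2⁻¹ : ℝ) ^ (i - k) • (a.T (uu (tk k)) (MM a (i + 1) f) - MM a (i + 1) f) := by
  obtain ⟨d, rfl⟩ := Nat.exists_eq_add_of_le h
  have h1 := congrArg (fun A : Module.End ℝ (BL2 ζ) => A f) ((R3.dyCh a).swap d (k + 1))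
  have e1 : k + d - k = d := by omega
  have e2 : k + d + 1 = k + 1 + d := by omega
  simp only [MM_eq_Mk, T_tk_eq]
  rw [e1, e2]
  exact h1

lemma nrm_MM_le (a : PAct SL2R ζ) (k : ℕ) (f : BL2 ζ) : (frm ζ).nrm (MM a k f) ≤ (frm ζ).nrm f := by
  rw [MM_eq_Mk]
  exact (R3.dyIso a).nrmM k f

end

end Pool.Agent.SZ.PR
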