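import Mathlib
import Pool.Agent.SZ.RDefs
import Pool.Agent.SZ.R01
import Pool.Agent.SZ.R03

/-!
# SZ part R, module R06: the dyadic martingale

`mart`: write `Rz_z` for `Rz a . z`.  For `s` in `[0,1]`: `Rz a R z f <= Rz a (3R) z (a.T (uu s) f)`
(`Rz_T` for `g = uu (-s)`, `nS = 2+s <= 3`, applied to `a.T (uu s) f`).
For `h : Z -> ℝ` put `dav k m h w = 2^-m sum_{j < 2^m} h (n_{j 2^-(k+m)} w)`.  Claim, by induction on `m`:
`dav k m ((M_(k+m) ψ)^2) w = (M_k ψ w)^2 + (1/4) sum_{i<m} dav k i (f_(k+i)^2) w`.  Induction step: write `j = 2 j' + e`,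
`e in {0,1}`: `dav k (m+1) (X^2) w = dav k m ((X^2 + (X o n_{τ_(k+m)})^2)/2) w` for `X = M_(k+m+1) ψ`, and
`(x^2+y^2)/2 = ((x+y)/2)^2 + (1/4)(y-x)^2`, `(x+y)/2 = M_(k+m) ψ` by `MM_half`, `y - x = f_(k+m)`.
Integrate over `y` in `Bn 3R` at `w = a.τ y z`, average of the first inequality over `s = j 2^-(k0+m)`, `j < 2^m` (`s < 1`),
`f = M_(k0+m) ψ`:  `Rz a R z (M_(k0+m) ψ) <= Rz a (3R) z (M_k0 ψ) + (1/4) sum_{i<m} 2^-i sum_{j<2^i} Rz a (3R) z (a.T (uu (j 2^-(k0+i))) f_(k0+i))`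
and each of the last terms is `<= Rz a (9R) z f_(k0+i)` by `Rz_T`.  Integrate over `W`.
-/

set_option autoImplicit false
set_option linter.unusedVariables false
set_option linter.unusedSectionVars false

namespace Pool.Agent.SZ.PR

open Pool.Agent.IRS MeasureTheory Set Filter Topology

section

variable {Z : Type*} [MeasurableSpace Z] {ζ : Measure Z} [SigmaFinite ζ]

/-- The parallelogram identity for the regional square norm. -/
private lemma r06_par (a : PAct SL2R ζ) (W : Set Z) (R : ℝ) (x y : BL2 ζ) :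
    2⁻¹ * (RI a W R x + RI a W R y)
      = RI a W R ((2 : ℝ)⁻¹ • (x + y)) + 4⁻¹ * RI a W R (y - x) := by
  have hz : ∀ z, 2⁻¹ * (Rz a R z x + Rz a R z y)
      = Rz a R z ((2 : ℝ)⁻¹ • (x + y)) + 4⁻¹ * Rz a R z (y - x) := by
    intro z
    unfold Rz
    rw [← integral_add (R01_int1 a R z x) (R01_int1 a R z y), ← integral_const_mul,
      ← integral_const_mul, ← integral_add (R01_int1 a R z ((2 : ℝ)⁻¹ • (x + y)))
        ((R01_int1 a R z (y - x)).const_mul 4⁻¹)]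
    refine integral_congr_ae (Eventually.of_forall fun v => ?_)
    change 2⁻¹ * (((x : Z → ℝ) (a.τ v z)) ^ 2 + ((y : Z → ℝ) (a.τ v z)) ^ 2)
      = ((2 : ℝ)⁻¹ * ((x : Z → ℝ) (a.τ v z) + (y : Z → ℝ) (a.τ v z))) ^ 2
        + 4⁻¹ * ((y : Z → ℝ) (a.τ v z) - (x : Z → ℝ) (a.τ v z)) ^ 2
    ring
  unfold RI
  rw [← integral_add (Rz_integrable a R x).integrableOn (Rz_integrable a R y).integrableOn,
    ← integral_const_mul, ← integral_const_mul,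
    ← integral_add (Rz_integrable a R ((2 : ℝ)⁻¹ • (x + y))).integrableOn
      ((Rz_integrable a R (y - x)).integrableOn.const_mul 4⁻¹)]
  exact integral_congr_ae (Eventually.of_forall fun z => hz z)

/-- The dyadic average of the translates. -/
private noncomputable def r06_av (a : PAct SL2R ζ) (W : Set Z) (R : ℝ) (k0 i : ℕ) (X : BL2 ζ) : ℝ :=
  (2⁻¹ : ℝ) ^ i * ∑ j ∈ Finset.range (2 ^ i), RI a W R (a.T (uu ((j : ℝ) * 2⁻¹ ^ (k0 + i))) X)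

private lemma r06_sum2 (g : ℕ → ℝ) (n : ℕ) :
    ∑ j ∈ Finset.range (2 * n), g j = ∑ j ∈ Finset.range n, (g (2 * j) + g (2 * j + 1)) := by
  induction n with
  | zero => simp
  | succ n ih =>
    rw [Finset.sum_range_succ, ← ih, show 2 * (n + 1) = 2 * n + 1 + 1 by ring,
      Finset.sum_range_succ, Finset.sum_range_succ]
    ring

private lemma r06_step (a : PAct SL2R ζ) (W : Set Z) (R : ℝ) (ψ : BL2 ζ) (k0 m : ℕ) :
    r06_av a W R k0 (m + 1) (MM a (k0 + (m + 1)) ψ)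
      = r06_av a W R k0 m (MM a (k0 + m) ψ) + 4⁻¹ * r06_av a W R k0 m (ff a ψ (k0 + m)) := by
  unfold r06_av
  set X : BL2 ζ := MM a (k0 + m + 1) ψ with hX
  have hX' : MM a (k0 + (m + 1)) ψ = X := rfl
  have hM : MM a (k0 + m) ψ = (2 : ℝ)⁻¹ • (X + a.T (uu (tk (k0 + m))) X) := MM_half a (k0 + m) ψ
  have hf : ff a ψ (k0 + m) = a.T (uu (tk (k0 + m))) X - X := rfl
  rw [hX', hM, hf, pow_succ (2 : ℕ) m, mul_comm (2 ^ m) 2, r06_sum2, mul_left_comm, ← mul_add,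
    pow_succ (2⁻¹ : ℝ) m, mul_assoc]
  congr 1
  rw [Finset.mul_sum, Finset.mul_sum, ← Finset.sum_add_distrib]
  refine Finset.sum_congr rfl fun j _ => ?_
  have e0 : (((2 * j : ℕ) : ℝ)) * 2⁻¹ ^ (k0 + (m + 1)) = (j : ℝ) * 2⁻¹ ^ (k0 + m) := by
    rw [show k0 + (m + 1) = (k0 + m) + 1 from rfl, pow_succ]
    push_cast
    ring
  have e1 : (((2 * j + 1 : ℕ) : ℝ)) * 2⁻¹ ^ (k0 + (m + 1))
      = tk (k0 + m) + (j : ℝ) * 2⁻¹ ^ (k0 + m) := by
    unfold tk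
    rw [show k0 + (m + 1) = (k0 + m) + 1 from rfl, pow_succ]
    push_cast
    ring
  have e2 : a.T (uu (((2 * j + 1 : ℕ) : ℝ) * 2⁻¹ ^ (k0 + (m + 1)))) X
      = a.T (uu ((j : ℝ) * 2⁻¹ ^ (k0 + m))) (a.T (uu (tk (k0 + m))) X) := by
    rw [e1, a.T_T, ← uu_add]
  rw [e0, e2, r06_par a W R (a.T (uu ((j : ℝ) * 2⁻¹ ^ (k0 + m))) X)
    (a.T (uu ((j : ℝ) * 2⁻¹ ^ (k0 + m))) (a.T (uu (tk (k0 + m))) X)), map_smul, map_add, map_sub]

private lemma r06_all (a : PAct SL2R ζ) (W : Set Z) (R : ℝ) (ψ : BL2 ζ) (k0 m : ℕ) :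
    r06_av a W R k0 m (MM a (k0 + m) ψ)
      = RI a W R (MM a k0 ψ) + 4⁻¹ * ∑ i ∈ Finset.range m, r06_av a W R k0 i (ff a ψ (k0 + i)) := by
  induction m with
  | zero =>
    unfold r06_av
    simp [uu_zero, PAct.T_one]
  | succ m ih =>
    rw [r06_step, ih, Finset.sum_range_succ]
    ring

private lemma r06_pos (k0 i j : ℕ) (h : j < 2 ^ i) :
    |(j : ℝ) * 2⁻¹ ^ (k0 + i)| ≤ 1 := by
  rw [abs_of_nonneg (by positivity), pow_add]
  have h1 : (j : ℝ) ≤ 2 ^ i := by exact_mod_cast h.le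
  have h2 : (2⁻¹ : ℝ) ^ k0 ≤ 1 := pow_le_one₀ (by norm_num) (by norm_num)
  have h3 : (j : ℝ) * 2⁻¹ ^ i ≤ 1 := by
    calc (j : ℝ) * 2⁻¹ ^ i ≤ 2 ^ i * 2⁻¹ ^ i := mul_le_mul_of_nonneg_right h1 (by positivity)
      _ = 1 := by rw [← mul_pow]; norm_num
  calc (j : ℝ) * (2⁻¹ ^ k0 * 2⁻¹ ^ i) = ((j : ℝ) * 2⁻¹ ^ i) * 2⁻¹ ^ k0 := by ring
    _ ≤ 1 * 1 := mul_le_mul h3 h2 (by positivity) (by norm_num)
    _ = 1 := by norm_num

private lemma r06_one (i : ℕ) : (2⁻¹ : ℝ) ^ i * ((2 ^ i : ℕ) : ℝ) = 1 := by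
  push_cast
  rw [← mul_pow]
  norm_num

theorem mart (a : PAct SL2R ζ) (ψ : BL2 ζ) {W : Set Z} (hW : MeasurableSet W) {R : ℝ} (hR : 0 ≤ R)
    (k0 m : ℕ) : RI a W R (MM a (k0 + m) ψ)
      ≤ RI a W (3 * R) (MM a k0 ψ)
        + 4⁻¹ * ∑ i ∈ Finset.range m, RI a W (9 * R) (ff a ψ (k0 + i)) := by
  have h1 : RI a W R (MM a (k0 + m) ψ) ≤ r06_av a W (3 * R) k0 m (MM a (k0 + m) ψ) := by
    unfold r06_av
    set X : BL2 ζ := MM a (k0 + m) ψ
    have h2 : ∀ j ∈ Finset.range (2 ^ m),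
        RI a W R X ≤ RI a W (3 * R) (a.T (uu ((j : ℝ) * 2⁻¹ ^ (k0 + m))) X) := by
      intro j hj
      have h3 := RI_T a hW hR (a.T (uu ((j : ℝ) * 2⁻¹ ^ (k0 + m))) X)
        (g := uu (-((j : ℝ) * 2⁻¹ ^ (k0 + m)))) (S := 3)
        (by rw [nS_uu, abs_neg]; linarith [r06_pos k0 m j (Finset.mem_range.1 hj)])
      rwa [a.T_T, ← uu_add, add_neg_cancel, uu_zero, a.T_one] at h3
    have h4 := Finset.sum_le_sum h2
    rw [Finset.sum_const, Finset.card_range, nsmul_eq_mul] at h4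
    calc RI a W R X = (2⁻¹ : ℝ) ^ m * (((2 ^ m : ℕ) : ℝ) * RI a W R X) := by
          rw [← mul_assoc, r06_one, one_mul]
      _ ≤ _ := mul_le_mul_of_nonneg_left h4 (by positivity)
  have h5 : ∀ i ∈ Finset.range m, r06_av a W (3 * R) k0 i (ff a ψ (k0 + i))
      ≤ RI a W (9 * R) (ff a ψ (k0 + i)) := by
    intro i _
    unfold r06_av
    set X : BL2 ζ := ff a ψ (k0 + i)
    have h2 : ∀ j ∈ Finset.range (2 ^ i),
        RI a W (3 * R) (a.T (uu ((j : ℝ) * 2⁻¹ ^ (k0 + i))) X) ≤ RI a W (9 * R) X := by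
      intro j hj
      have h3 := RI_T a hW (by positivity : 0 ≤ 3 * R) X
        (g := uu ((j : ℝ) * 2⁻¹ ^ (k0 + i))) (S := 3)
        (by rw [nS_uu]; linarith [r06_pos k0 i j (Finset.mem_range.1 hj)])
      rwa [show 3 * (3 * R) = 9 * R by ring] at h3
    have h4 := Finset.sum_le_sum h2
    rw [Finset.sum_const, Finset.card_range, nsmul_eq_mul] at h4
    calc _ ≤ (2⁻¹ : ℝ) ^ i * (((2 ^ i : ℕ) : ℝ) * RI a W (9 * R) X) :=
          mul_le_mul_of_nonneg_left h4 (by positivity)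
      _ = _ := by rw [← mul_assoc, r06_one, one_mul]
  rw [r06_all] at h1
  exact h1.trans (add_le_add_right (mul_le_mul_of_nonneg_left (Finset.sum_le_sum h5) (by norm_num)) _)

end

end Pool.Agent.SZ.PR
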