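import Mathlib
import Pool.Agent.SZ.RDefs
import Pool.Agent.SZ.R03

/-!
# SZ part R, module R07: tails of smooth functions

`T_dd_uu`: `(a.T (dd r) Φ)(n_t w) = Φ(dd r n_t w) = Φ(n_{e^(2r) t} dd r w)` (`dd_uu`), `d1 (uu s) = |s|`; so for
`0 <= t`, `e^(2r) t <= 1`: `|(a.T (uu t) ψ - ψ)(w)| <= e^(2r) t J(dd r w)` with `ψ = a.T (dd r) Φ`, and the norm is
`<= e^(2r) t nrm J`.  `tail`: `M_K ψ - ψ = 2^K int_0^{2^-K} (T_t ψ - ψ) dt`, pointwise absolute value at most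
`e^(2r) 2^-K (a.T (dd r) J)(w)`.  `tend`: from `tail`, `e^(2r) 2^-K -> 0`.
`J w >= 0` holds for all `w` (apply `SmA` with some `c`, `0 < d1 c <= 1`, e.g. `c = uu 1`).
-/

set_option autoImplicit false
set_option linter.unusedVariables false
set_option linter.unusedSectionVars false

namespace Pool.Agent.SZ.PR

open Pool.Agent.IRS MeasureTheory Set Filter Topology

section

variable {Z : Type*} [MeasurableSpace Z] {ζ : Measure Z} [SigmaFinite ζ]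

lemma d1_uu (s : ℝ) : d1 (uu s) = |s| := by
  unfold d1 nM
  simp [Matrix.sub_apply]

lemma SmA_nonneg {a : PAct SL2R ζ} {Φ J : BL2 ζ} (h : SmA a Φ J) (w : Z) : 0 ≤ (J : Z → ℝ) w := by
  have h1 := h (uu 1) w (by rw [d1_uu]; norm_num)
  rw [d1_uu] at h1
  have h2 := abs_nonneg ((Φ : Z → ℝ) (a.τ (uu 1) w) - (Φ : Z → ℝ) w)
  norm_num at h1
  linarith

/-- Pointwise bound. -/
lemma R07_pt {a : PAct SL2R ζ} {Φ J : BL2 ζ} (h : SmA a Φ J) {r : ℝ} {K : ℕ}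
    (hK : Real.exp (2 * r) * 2⁻¹ ^ K ≤ 1) (w : Z) :
    |((MM a K (a.T (dd r) Φ) - a.T (dd r) Φ : BL2 ζ) : Z → ℝ) w|
      ≤ Real.exp (2 * r) * 2⁻¹ ^ K * (J : Z → ℝ) (a.τ (dd r) w) := by
  set ψ : BL2 ζ := a.T (dd r) Φ with hψ
  have hJ : 0 ≤ (J : Z → ℝ) (a.τ (dd r) w) := SmA_nonneg h _
  have hexp : 0 < Real.exp (2 * r) := Real.exp_pos _
  have hh : (0 : ℝ) < 2⁻¹ ^ K := by positivity
  have hmu : Measurable uu := measurable_uu
  have hm : Measurable (fun t : ℝ => (ψ : Z → ℝ) (a.τ (uu t) w)) :=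
    (bmeas ψ).comp (a.meas.comp (hmu.prodMk measurable_const))
  have hint : IntervalIntegrable (fun t : ℝ => (ψ : Z → ℝ) (a.τ (uu t) w)) volume 0 (2⁻¹ ^ K) := by
    obtain ⟨M, hM⟩ := bbdd ψ
    refine (intervalIntegrable_const (c := M)).mono_fun hm.aestronglyMeasurable ?_
    filter_upwards with t
    rw [Real.norm_eq_abs, Real.norm_eq_abs]
    exact (hM _).trans (le_abs_self M)
  have e1 : ((MM a K ψ - ψ : BL2 ζ) : Z → ℝ) w
      = 2 ^ K * ∫ t in (0 : ℝ)..(2⁻¹ ^ K), ((ψ : Z → ℝ) (a.τ (uu t) w) - (ψ : Z → ℝ) w) := by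
    rw [intervalIntegral.integral_sub hint intervalIntegrable_const,
      intervalIntegral.integral_const]
    change ((MM a K ψ : BL2 ζ) : Z → ℝ) w - (ψ : Z → ℝ) w = _
    rw [MM_apply, sub_zero, smul_eq_mul, mul_sub, ← mul_assoc (2 ^ K) (2⁻¹ ^ K), ← mul_pow,
      mul_inv_cancel₀ (by norm_num : (2 : ℝ) ≠ 0), one_pow, one_mul]
  rw [e1, abs_mul, abs_of_pos (by positivity : (0 : ℝ) < 2 ^ K)]
  have hb : ‖∫ t in (0 : ℝ)..(2⁻¹ ^ K), ((ψ : Z → ℝ) (a.τ (uu t) w) - (ψ : Z → ℝ) w)‖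
      ≤ (Real.exp (2 * r) * 2⁻¹ ^ K * (J : Z → ℝ) (a.τ (dd r) w)) * |2⁻¹ ^ K - 0| := by
    refine intervalIntegral.norm_integral_le_of_norm_le_const fun t ht => ?_
    rw [uIoc_of_le hh.le] at ht
    have ht1 : Real.exp (2 * r) * t ≤ Real.exp (2 * r) * 2⁻¹ ^ K :=
      mul_le_mul_of_nonneg_left ht.2 hexp.le
    have ht0 : 0 ≤ Real.exp (2 * r) * t := mul_nonneg hexp.le ht.1.le
    have e2 : (ψ : Z → ℝ) (a.τ (uu t) w)
        = (Φ : Z → ℝ) (a.τ (uu (Real.exp (2 * r) * t)) (a.τ (dd r) w)) := by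
      rw [hψ, PAct.T_apply, ← a.mul, ← a.mul, dd_uu]
    have e3 : (ψ : Z → ℝ) w = (Φ : Z → ℝ) (a.τ (dd r) w) := by rw [hψ, PAct.T_apply]
    rw [e2, e3, Real.norm_eq_abs]
    have h5 := h (uu (Real.exp (2 * r) * t)) (a.τ (dd r) w)
      (by rw [d1_uu, abs_of_nonneg ht0]; exact ht1.trans hK)
    rw [d1_uu, abs_of_nonneg ht0] at h5
    exact h5.trans (mul_le_mul_of_nonneg_right ht1 hJ)
  rw [Real.norm_eq_abs, sub_zero, abs_of_pos hh] at hb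
  calc 2 ^ K * |∫ t in (0 : ℝ)..(2⁻¹ ^ K), ((ψ : Z → ℝ) (a.τ (uu t) w) - (ψ : Z → ℝ) w)|
      ≤ 2 ^ K * ((Real.exp (2 * r) * 2⁻¹ ^ K * (J : Z → ℝ) (a.τ (dd r) w)) * 2⁻¹ ^ K) :=
        mul_le_mul_of_nonneg_left hb (by positivity)
    _ = (2 ^ K * 2⁻¹ ^ K) * (Real.exp (2 * r) * 2⁻¹ ^ K * (J : Z → ℝ) (a.τ (dd r) w)) := by ring
    _ = Real.exp (2 * r) * 2⁻¹ ^ K * (J : Z → ℝ) (a.τ (dd r) w) := by
        rw [← mul_pow, mul_inv_cancel₀ (by norm_num : (2 : ℝ) ≠ 0), one_pow, one_mul]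

theorem tail {a : PAct SL2R ζ} {Φ J : BL2 ζ} (h : SmA a Φ J) {r : ℝ} {K : ℕ}
    (hK : Real.exp (2 * r) * 2⁻¹ ^ K ≤ 1) :
    N2 (MM a K (a.T (dd r) Φ) - a.T (dd r) Φ) ≤ (Real.exp (2 * r) * 2⁻¹ ^ K) ^ 2 * N2 J := by
  unfold N2
  rw [← a.T_isom (dd r) J J, frm_self, frm_self, ← integral_const_mul]
  refine integral_mono (bsq _) ((bsq _).const_mul _) fun w => ?_
  have h1 := R07_pt h hK w
  have h2 := abs_nonneg (((MM a K (a.T (dd r) Φ) - a.T (dd r) Φ : BL2 ζ) : Z → ℝ) w)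
  have h3 := pow_le_pow_left₀ h2 h1 2
  rw [sq_abs, mul_pow] at h3
  exact h3

theorem tend {a : PAct SL2R ζ} {Φ J : BL2 ζ} (h : SmA a Φ J) (r : ℝ) :
    Tendsto (fun i => (frm ζ).nrm (MM a i (a.T (dd r) Φ) - a.T (dd r) Φ)) atTop (𝓝 0) := by
  have h0 : Tendsto (fun i : ℕ => Real.exp (2 * r) * (2⁻¹ : ℝ) ^ i) atTop (𝓝 0) := by
    have := (tendsto_pow_atTop_nhds_zero_of_lt_one (r := (2⁻¹ : ℝ)) (by norm_num)
      (by norm_num)).const_mul (Real.exp (2 * r))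
    simpa using this
  have h1 : Tendsto (fun i : ℕ => Real.exp (2 * r) * (2⁻¹ : ℝ) ^ i * (frm ζ).nrm J) atTop (𝓝 0) := by
    have := h0.mul_const ((frm ζ).nrm J)
    simpa using this
  refine squeeze_zero' (Filter.Eventually.of_forall fun i => (frm ζ).nrm_nonneg _) ?_ h1
  filter_upwards [h0.eventually (gt_mem_nhds (by norm_num : (0 : ℝ) < 1))] with i hi
  have h2 := tail h (r := r) (K := i) hi.le
  unfold N2 at h2
  rw [← (frm ζ).nrm_sq, ← (frm ζ).nrm_sq, ← mul_pow] at h2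
  exact abs_le_of_sq_le_sq' h2 (mul_nonneg (by positivity) ((frm ζ).nrm_nonneg _)) |>.2

end

end Pool.Agent.SZ.PR
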