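import Mathlib
import Pool.Agent.SZ.RDefs
import Pool.Agent.SZ.R03

/-!
# SZ part R, module R04: sums of forms of the differences

`L` symmetric, nonnegative, commuting with all `a.T g` (hence with `MM a k`: `(frm ζ).B (L (A_ν f)) h = (frm ζ).B (A_ν f) (L h)
= int B(T_g f, L h) = int B (L T_g f, h) = int B (T_g L f, h) = B (A_ν L f, h)` for all `h`; so the
difference `d = L A_ν f - A_ν L f` has `B d d = 0`; that is enough: only values of the form are used).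
Put `q(x) = B (L x) x`.  `form_MM`: `q(A_ν x) <= q(x)`, from `dq_int_int` (the double integral is
nonnegative): `2 (q(x) - B(L A_ν x) (A_ν x)) >= 0` (library: `dq_int_int ν L hL hT f`).
`form_sum`: `q(M_(k+1) ψ) = q(M_k ψ) + (1/4) q(f_k)`: by `MM_half`, `M_k ψ = (1/2)(X + T X)`,
`f_k = T X - X`, `X = M_(k+1) ψ`, `q(T X) = q(X)` (`L` commutes with `T`, `T_isom`), parallelogram
identity `q((X+TX)/2) + q((TX-X)/2) = (q(X) + q(TX))/2 = q(X)`.  Sum over `k < n`: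
`(1/4) sum q(f_k) = q(M_n ψ) - q(M_0 ψ) <= q(ψ)`.
-/

set_option autoImplicit false
set_option linter.unusedVariables false
set_option linter.unusedSectionVars false

namespace Pool.Agent.SZ.PR

open Pool.Agent.IRS MeasureTheory Set Filter Topology

section

variable {Z : Type*} [MeasurableSpace Z] {ζ : Measure Z} [SigmaFinite ζ]

theorem form_MM (a : PAct SL2R ζ) (L : BL2 ζ →ₗ[ℝ] BL2 ζ) (hL : (frm ζ).Pos L)
    (hT : ∀ g x, L (a.T g x) = a.T g (L x)) (k : ℕ) (x : BL2 ζ) :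
    (frm ζ).B (L (MM a k x)) (MM a k x) ≤ (frm ζ).B (L x) x := by
  have h1 := a.dq_int_int (sg k) L hL.symm hT x
  have h2 : 0 ≤ ∫ g, ∫ g', (frm ζ).B (L (a.T g x - a.T g' x)) (a.T g x - a.T g' x) ∂(sg k) ∂(sg k) :=
    integral_nonneg fun g => integral_nonneg fun g' => hL.nonneg _
  have h3 : MM a k x = a.A (sg k) x := rfl
  rw [h3]
  linarith

theorem form_step (a : PAct SL2R ζ) (L : BL2 ζ →ₗ[ℝ] BL2 ζ) (hL : (frm ζ).Pos L)
    (hT : ∀ g x, L (a.T g x) = a.T g (L x)) (ψ : BL2 ζ) (k : ℕ) :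
    (frm ζ).B (L (ff a ψ k)) (ff a ψ k) =
      4 * ((frm ζ).B (L (MM a (k + 1) ψ)) (MM a (k + 1) ψ) - (frm ζ).B (L (MM a k ψ)) (MM a k ψ)) := by
  have h0 : (frm ζ).B (L (a.T (uu (tk k)) (MM a (k + 1) ψ))) (a.T (uu (tk k)) (MM a (k + 1) ψ)) =
      (frm ζ).B (L (MM a (k + 1) ψ)) (MM a (k + 1) ψ) := by
    rw [hT, a.T_isom]
  rw [MM_half a k ψ, ff]
  set X := MM a (k + 1) ψ
  set Y := a.T (uu (tk k)) X
  simp only [map_sub, map_add, map_smul, LinearMap.sub_apply, LinearMap.add_apply,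
    LinearMap.smul_apply, smul_eq_mul]
  rw [h0]
  ring

theorem form_sum (a : PAct SL2R ζ) (L : BL2 ζ →ₗ[ℝ] BL2 ζ) (hL : (frm ζ).Pos L)
    (hT : ∀ g x, L (a.T g x) = a.T g (L x)) (ψ : BL2 ζ) (n : ℕ) :
    ∑ k ∈ Finset.range n, (frm ζ).B (L (ff a ψ k)) (ff a ψ k) ≤ 4 * (frm ζ).B (L ψ) ψ := by
  have h1 : ∑ k ∈ Finset.range n, (frm ζ).B (L (ff a ψ k)) (ff a ψ k) =
      4 * ((frm ζ).B (L (MM a n ψ)) (MM a n ψ) - (frm ζ).B (L (MM a 0 ψ)) (MM a 0 ψ)) := by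
    induction n with
    | zero => simp
    | succ n ih =>
      rw [Finset.sum_range_succ, ih, form_step a L hL hT ψ n]
      ring
  rw [h1]
  have h2 := form_MM a L hL hT n ψ
  have h3 := hL.nonneg (MM a 0 ψ)
  linarith

theorem N2_sum (a : PAct SL2R ζ) (ψ : BL2 ζ) (n : ℕ) :
    ∑ k ∈ Finset.range n, N2 (ff a ψ k) ≤ 4 * N2 ψ :=
  form_sum a (1 : Module.End ℝ (BL2 ζ)) PSForm.Pos.one (fun _ _ => rfl) ψ n

private lemma LT (a b : PAct SL2R ζ) (hab : ∀ g h z, a.τ g (b.τ h z) = b.τ h (a.τ g z)) :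
    ∀ g x, ((1 : Module.End ℝ (BL2 ζ)) - b.P nuK) (a.T g x) =
      a.T g (((1 : Module.End ℝ (BL2 ζ)) - b.P nuK) x) := by
  intro g x
  have hba : ∀ g h z, b.τ g (a.τ h z) = a.τ h (b.τ g z) := fun g h z => (hab h g z).symm
  simp only [LinearMap.sub_apply, Module.End.one_apply, map_sub, PAct.P_T_comm nuK hba]

theorem Eb_sum (a b : PAct SL2R ζ) (hab : ∀ g h z, a.τ g (b.τ h z) = b.τ h (a.τ g z)) (ψ : BL2 ζ)
    (n : ℕ) : ∑ k ∈ Finset.range n, Eb b (ff a ψ k) ≤ 4 * Eb b ψ :=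
  form_sum a ((1 : Module.End ℝ (BL2 ζ)) - b.P nuK) (b.P_pos' nuK) (LT a b hab) ψ n

theorem Eb_MM (a b : PAct SL2R ζ) (hab : ∀ g h z, a.τ g (b.τ h z) = b.τ h (a.τ g z)) (k : ℕ)
    (ψ : BL2 ζ) : Eb b (MM a k ψ) ≤ Eb b ψ :=
  form_MM a ((1 : Module.End ℝ (BL2 ζ)) - b.P nuK) (b.P_pos' nuK) (LT a b hab) k ψ

theorem Eb_T (a b : PAct SL2R ζ) (hab : ∀ g h z, a.τ g (b.τ h z) = b.τ h (a.τ g z)) (g : SL2R)
    (ψ : BL2 ζ) : Eb b (a.T g ψ) = Eb b ψ := by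
  have h := LT a b hab g ψ
  have h1 : Eb b (a.T g ψ) =
      (frm ζ).B (((1 : Module.End ℝ (BL2 ζ)) - b.P nuK) (a.T g ψ)) (a.T g ψ) := rfl
  rw [h1, h, a.T_isom]
  rfl

theorem Eb_nonneg (b : PAct SL2R ζ) (ψ : BL2 ζ) : 0 ≤ Eb b ψ :=
  (b.P_pos' nuK).nonneg ψ

end

end Pool.Agent.SZ.PR
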