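import Mathlib
import Pool.Agent.SZ.RDefs
import Pool.Agent.SZ.R03
import Pool.Agent.SZ.R04
import Pool.Agent.SZ.R3b

/-!
# SZ part R, module R05: Littlewood Paley bounds

Write `T_s = a.T (uu s)`, `M_i = MM a i`, `τ_k = tk k`, `f_k = ff a ψ k = (T_{τ_k} - 1) M_(k+1) ψ`.
All these operators commute (`MM_comm`, `MM_T_comm`, `uu_add`) and do not increase `nrm` (`nrm_T`, `nrm_MM_le`).

`diff_le` (`k <= i`): `M_(i+1) ψ = M_(k+1) ψ + sum_{l=k+1}^{i} (M_(l+1) ψ - M_l ψ) = M_(k+1) ψ - (1/2) sum_{l=k+1}^i f_l`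
(`MM_succ_sub`), so `(T_{τ_k} - 1) M_(i+1) ψ = f_k - (1/2) sum_{l=k+1}^i (T_{τ_k} - 1) f_l`, and
`nrm ((T-1) f_l) <= 2 nrm f_l`.

`ML`: with `i = k`, and `k - lam` in the place of `k` in `MM_scale`: `(T_{τ_k} - 1) M_(k-lam+1) = 2^-lam (T_{τ_(k-lam)} - 1) M_(k+1)`.
So `M_(k+1-lam) f_k = (T_{τ_k} - 1) M_(k-lam+1) M_(k+1) ψ = 2^-lam (T_{τ_(k-lam)} - 1) M_(k+1) (M_(k+1) ψ)
= 2^-lam M_(k+1) [(T_{τ_(k-lam)} - 1) M_(k+1) ψ]`, of norm at most `2^-lam sum_{l=k-lam}^{k} nrm f_l` (`diff_le`).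
Square, Cauchy Schwarz `(sum_{l} nrm f_l)^2 <= (lam+1) sum_l (nrm f_l)^2`, sum over `k` in `[lam, n)` (each `l` occurs
at most `lam+1` times) and `N2_sum`: total `<= 4^-lam (lam+1)^2 4 N2 ψ`.

`HF`: for every `N >= k2`:  `M_(k+N) f_k - M_(k+k2) f_k = sum_{j=k2}^{N-1} (M_(k+j+1) - M_(k+j)) f_k
= -(1/2) sum_j (T_{τ_(k+j)} - 1) M_(k+j+1) f_k`, and `(T_{τ_(k+j)} - 1) M_(k+j+1) f_k
= (T_{τ_k} - 1) M_(k+j+1) [(T_{τ_(k+j)} - 1) M_(k+1) ψ] = 2^-j (T_{τ_k} - 1) M_(k+j+1) [(T_{τ_k} - 1) M_(k+j+1) ψ]`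
(`MM_scale` with `i = k+j`), of norm `<= 2^-j * 2 * sum_{l=k}^{k+j} nrm f_l` (`diff_le`).
So `nrm (M_(k+N) f_k - M_(k+k2) f_k) <= sum_{j=k2}^{N-1} 2^-j sum_{l=k}^{k+j} nrm f_l`; by Minkowski (in the sum over
`k < n`, or Cauchy Schwarz with weights: `(sum_j 2^-j x_j)^2 <= (sum_j 2^-j) (sum_j 2^-j x_j^2)`, `sum_{j>=k2} 2^-j = 2 2^-k2`,
`x_j^2 <= (j+1) sum_l (nrm f_l)^2`, sum over `k`: `<= (j+1)^2 4 N2 ψ`; `sum_{j>=k2} 2^-j (j+1)^2 <= 2^-k2 (2 (k2+1)^2 + 4 (k2+1) + 6)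
<= 2^-k2 8 (k2+2)^2`): the sum over `k < n` of the squares is `<= 2*2^-k2 * 4 N2 ψ * 2^-k2 * 8 (k2+2)^2 = 64 (k2+2)^2 4^-k2 N2 ψ`.
Let `N` tend to infinity: `nrm (M_(k+N) f_k - f_k) -> 0` since `M_(k+N) f_k - f_k = (T_{τ_k} - 1) M_(k+1) (M_(k+N) ψ - ψ)`
has norm `<= 2 nrm (M_(k+N) ψ - ψ)`.
-/

set_option autoImplicit false
set_option linter.unusedVariables false
set_option linter.unusedSectionVars false

namespace Pool.Agent.SZ.PR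

open Pool.Agent.IRS MeasureTheory Set Filter Topology

section

variable {Z : Type*} [MeasurableSpace Z] {ζ : Measure Z} [SigmaFinite ζ]

lemma R05_sg (k : ℕ) : sg k = R3.unk k := by
  unfold sg R3.unk R3.lamk R3.hk
  rw [Measure.map_smul]
  congr 1
  rw [inv_pow, inv_inv, ENNReal.ofReal_pow (by norm_num)]
  norm_num

lemma R05_A (a : PAct SL2R ζ) (m m' : Measure SL2R) [IsProbabilityMeasure m]
    [IsProbabilityMeasure m'] (h : m = m') : a.A m = a.A m' := by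
  subst h
  rfl

lemma R05_MM (a : PAct SL2R ζ) (k : ℕ) : MM a k = R3.Mk a k :=
  R05_A a _ _ (R05_sg k)

lemma R05_ff (a : PAct SL2R ζ) (ψ : BL2 ζ) (k : ℕ) :
    ff a ψ k = R3.dyf (R3.Wk a) (R3.Mk a) k ψ := by
  unfold ff
  rw [R05_MM]
  rfl

theorem diff_le (a : PAct SL2R ζ) (ψ : BL2 ζ) {k i : ℕ} (h : k ≤ i) :
    (frm ζ).nrm (a.T (uu (tk k)) (MM a (i + 1) ψ) - MM a (i + 1) ψ)
      ≤ ∑ l ∈ Finset.Icc k i, (frm ζ).nrm (ff a ψ l) := by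
  have h1 := R3.nrm_WM (R3.dyCh a) (R3.dyIso a) k (i + 1) (by omega) ψ
  have h2 : Finset.Icc k i = Finset.Ico k (i + 1) := by
    ext x
    simp only [Finset.mem_Icc, Finset.mem_Ico, Nat.lt_succ_iff]
  rw [h2, R05_MM]
  simp only [R05_ff]
  exact h1

theorem ML (a : PAct SL2R ζ) (ψ : BL2 ζ) (lam n : ℕ) :
    ∑ k ∈ Finset.Ico lam n, N2 (MM a (k + 1 - lam) (ff a ψ k))
      ≤ 4 * (4⁻¹ : ℝ) ^ lam * (lam + 1) ^ 2 * N2 ψ := by
  have h1 := R3.lp_large (R3.dyCh a) (R3.dyIso a) lam n ψ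
  have h2 : (2 * ((lam : ℝ) + 1) * (2⁻¹ : ℝ) ^ lam) ^ 2 = 4 * (4⁻¹ : ℝ) ^ lam * (lam + 1) ^ 2 := by
    have h3 : (4⁻¹ : ℝ) ^ lam = ((2⁻¹ : ℝ) ^ lam) ^ 2 := by
      rw [← pow_mul, mul_comm lam 2, pow_mul]
      norm_num
    rw [h3]
    ring
  rw [h2] at h1
  unfold N2
  simp only [R05_MM, R05_ff]
  exact h1

theorem HF (a : PAct SL2R ζ) (ψ : BL2 ζ)
    (hc : Tendsto (fun i => (frm ζ).nrm (MM a i ψ - ψ)) atTop (𝓝 0)) (k2 n : ℕ) :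
    ∑ k ∈ Finset.range n, N2 (ff a ψ k - MM a (k + k2) (ff a ψ k))
      ≤ 64 * (k2 + 2) ^ 2 * (4⁻¹ : ℝ) ^ k2 * N2 ψ := by
  have hN : 0 ≤ N2 ψ := (frm ζ).nonneg ψ
  have h4 : (4⁻¹ : ℝ) ^ k2 = ((2⁻¹ : ℝ) ^ k2) ^ 2 := by
    rw [← pow_mul, mul_comm k2 2, pow_mul]
    norm_num
  have hsmall : ∀ J : ℕ, n + k2 ≤ J →
      ∑ k ∈ Finset.range n, N2 (MM a J (ff a ψ k) - MM a (k + k2) (ff a ψ k))
        ≤ (4 * (k2 + 2) * (2⁻¹ : ℝ) ^ k2) ^ 2 * N2 ψ := by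
    intro J hJ
    have h1 := R3.lp_small (R3.dyCh a) (R3.dyIso a) k2 0 n J hJ ψ
    unfold N2
    simp only [R05_MM, R05_ff]
    rw [Finset.range_eq_Ico]
    exact h1
  have hterm : ∀ k : ℕ, Tendsto
      (fun J : ℕ => N2 (MM a J (ff a ψ k) - MM a (k + k2) (ff a ψ k))) atTop
      (𝓝 (N2 (ff a ψ k - MM a (k + k2) (ff a ψ k)))) := by
    intro k
    have hb : ∀ J : ℕ, (frm ζ).nrm (MM a J (ff a ψ k) - ff a ψ k)
        ≤ 2 * (frm ζ).nrm (MM a J ψ - ψ) := by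
      intro J
      have e1 : MM a J (ff a ψ k) - ff a ψ k
          = a.T (uu (tk k)) (MM a (k + 1) (MM a J ψ - ψ)) - MM a (k + 1) (MM a J ψ - ψ) := by
        unfold ff
        rw [map_sub, MM_T_comm, MM_comm a J (k + 1), map_sub, map_sub]
        abel
      rw [e1]
      have e2 := (R3.dyIso a).nrm_Wsub (k + 1) (MM a (k + 1) (MM a J ψ - ψ))
      refine le_trans e2 ?_
      have e3 := nrm_MM_le a (k + 1) (MM a J ψ - ψ)
      linarith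
    have h0 : Tendsto (fun J : ℕ => (frm ζ).nrm (MM a J (ff a ψ k) - ff a ψ k)) atTop (𝓝 0) := by
      refine squeeze_zero (fun J => (frm ζ).nrm_nonneg _) hb ?_
      have := hc.const_mul 2
      rwa [mul_zero] at this
    have h1 : Tendsto (fun J : ℕ => (frm ζ).nrm (MM a J (ff a ψ k) - MM a (k + k2) (ff a ψ k)))
        atTop (𝓝 ((frm ζ).nrm (ff a ψ k - MM a (k + k2) (ff a ψ k)))) := by
      rw [tendsto_iff_dist_tendsto_zero]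
      refine squeeze_zero (fun J => dist_nonneg) (fun J => ?_) h0
      rw [Real.dist_eq, abs_le]
      constructor
      · have t := R3.nrm_sub_le' (F := frm ζ) (MM a J (ff a ψ k) - MM a (k + k2) (ff a ψ k))
          (MM a J (ff a ψ k) - ff a ψ k)
        have t2 : MM a J (ff a ψ k) - MM a (k + k2) (ff a ψ k) - (MM a J (ff a ψ k) - ff a ψ k)
            = ff a ψ k - MM a (k + k2) (ff a ψ k) := by abel
        rw [t2] at t
        linarith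
      · have t := (frm ζ).nrm_add_le (MM a J (ff a ψ k) - ff a ψ k)
          (ff a ψ k - MM a (k + k2) (ff a ψ k))
        have t2 : MM a J (ff a ψ k) - ff a ψ k + (ff a ψ k - MM a (k + k2) (ff a ψ k))
            = MM a J (ff a ψ k) - MM a (k + k2) (ff a ψ k) := by abel
        rw [t2] at t
        linarith
    have h2 := h1.pow 2
    have e : ∀ x : BL2 ζ, (frm ζ).nrm x ^ 2 = N2 x := fun x => (frm ζ).nrm_sq x
    simp only [e] at h2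
    exact h2
  have hlim := tendsto_finsetSum (Finset.range n) fun k _ => hterm k
  have h5 : ∑ k ∈ Finset.range n, N2 (ff a ψ k - MM a (k + k2) (ff a ψ k))
      ≤ (4 * (k2 + 2) * (2⁻¹ : ℝ) ^ k2) ^ 2 * N2 ψ :=
    le_of_tendsto hlim (Filter.eventually_atTop.mpr ⟨n + k2, fun J hJ => hsmall J hJ⟩)
  refine h5.trans ?_
  refine mul_le_mul_of_nonneg_right ?_ hN
  rw [h4]
  have : (0 : ℝ) ≤ ((k2 : ℝ) + 2) ^ 2 * ((2⁻¹ : ℝ) ^ k2) ^ 2 := by positivity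
  nlinarith

end

end Pool.Agent.SZ.PR
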