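import Mathlib
import Pool.Agent.SZ.RDefs
import Pool.Agent.SZ.R3b

/-!
# SZ part R, module R08: lower triangular perturbations of segment integrals

Identities: `uu σ * lt x v = lt (x+σv) v * uu φ(σ)`, `φ(σ) = σ/(x(x+σv))`; `dd r * lt x v = lt x (e^(-2r) v) * dd r`.
For `|x-1|, |v| <= η <= 1/20`, `|σ| <= 2`: `x+σv` in `[1-3η, 1+3η]`, `φ'(σ) = 1/(x+σv)^2` (positive, between 1/2 and 2),
`|φ(σ)-σ| <= 6 η |σ|`, `|φ'(σ)-1| <= 9 η`.
With `ψ = a.T (dd r) Φ`, `Jr = a.T (dd r) J`: `ψ(n_σ lt(x,v) w) = Φ(lt(x+σv, e^(-2r) v) dd r n_φ(σ) w)`, and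
`d1 (lt(x+σv, e^(-2r) v)) <= 3η + η + 4η = 8 η <= 1` (`r >= 0`), so `|ψ(n_σ lt(x,v) w) - ψ(n_φ(σ) w)| <= 8 η Jr(n_φ(σ) w)`.
Change of variables (measurable bounded integrand: `MeasureTheory.integral_image_eq_integral_abs_deriv_smul`, `φ` is
strictly increasing): `int_{s1}^{s2} g(φ(σ)) φ'(σ) dσ = int_{φ(s1)}^{φ(s2)} g(s) ds` for `g(s) = ψ(n_s w)`.  Hence
`|int_{s1}^{s2} g(φ(σ)) dσ - int_{φ(s1)}^{φ(s2)} g| <= 9η int |g(φ(σ))| dσ <= 18 η int_{φ(s1)}^{φ(s2)} |g|`, the same for `Jr`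
(`int_{s1}^{s2} Jr(n_φ(σ) w) dσ <= 2 int_{φ(s1)}^{φ(s2)} Jr(n_s w) ds`), and `int_{φ(s1)}^{φ(s2)} g` differs from `int_{s1}^{s2} g`
by the integrals of `|g|` over the intervals between `s_i` and `φ(s_i)`, which lie in `[s_i - 6ηS, s_i + 6ηS]`.
-/

set_option autoImplicit false
set_option linter.unusedVariables false
set_option linter.unusedSectionVars false

namespace Pool.Agent.SZ.PR

open Pool.Agent.IRS MeasureTheory Set Filter Topology

lemma R08_int {h : ℝ → ℝ} (hm : Measurable h) {M : ℝ} (hM : ∀ t, |h t| ≤ M) (p q : ℝ) :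
    IntervalIntegrable h volume p q := by
  refine (intervalIntegrable_const (c := M)).mono_fun' hm.aestronglyMeasurable ?_
  filter_upwards with t
  exact hM t

lemma R08_piece {h : ℝ → ℝ} (hi : ∀ p q, IntervalIntegrable h volume p q) {p q c e : ℝ}
    (hp : |p - c| ≤ e) (hq : |q - c| ≤ e) :
    |∫ s in p..q, h s| ≤ ∫ s in (c - e)..(c + e), |h s| := by
  have key : ∀ p q : ℝ, |p - c| ≤ e → |q - c| ≤ e → p ≤ q →
      |∫ s in p..q, h s| ≤ ∫ s in (c - e)..(c + e), |h s| := by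
    intro p q hp hq hpq
    rw [abs_le] at hp hq
    refine (intervalIntegral.abs_integral_le_integral_abs hpq).trans ?_
    exact intervalIntegral.integral_mono_interval (by linarith) hpq (by linarith)
      (Filter.Eventually.of_forall fun s => abs_nonneg _) (hi _ _).abs
  rcases le_total p q with h1 | h1
  · exact key p q hp hq h1
  · rw [intervalIntegral.integral_symm, abs_neg]
    exact key q p hq hp h1

lemma R08_y {x v η σ : ℝ} (hη : 0 ≤ η) (hx : |x - 1| ≤ η) (hv : |v| ≤ η) (hσ : |σ| ≤ 2) :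
    |x + σ * v - 1| ≤ 3 * η := by
  have h1 : |σ * v| ≤ 2 * η := by
    rw [abs_mul]; exact mul_le_mul hσ hv (abs_nonneg _) (by norm_num)
  rw [abs_le] at h1 hx ⊢
  constructor <;> linarith [h1.1, h1.2, hx.1, hx.2]

lemma R08_inv {y η : ℝ} (hη : 0 ≤ η) (hη' : η ≤ 1 / 20) (h : |y - 1| ≤ 3 * η) :
    |y⁻¹ - 1| ≤ 4 * η := by
  have h0 := abs_le.1 h
  have hy : 17 / 20 ≤ y := by linarith [h0.1]
  have hy0 : 0 < y := by linarith
  have e : y⁻¹ - 1 = (1 - y) / y := by field_simp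
  rw [e, abs_div, abs_of_pos hy0, div_le_iff₀ hy0, abs_sub_comm]
  nlinarith

lemma R08_inv2 {y η : ℝ} (hη : 0 ≤ η) (hη' : η ≤ 1 / 20) (h : |y - 1| ≤ 3 * η) :
    |1 - 1 / y ^ 2| ≤ 9 * η := by
  have h0 := abs_le.1 h
  have hy : 17 / 20 ≤ y := by linarith [h0.1]
  have hy' : y ≤ 23 / 20 := by linarith [h0.2]
  have hy0 : 0 < y := by linarith
  have e : 1 - 1 / y ^ 2 = (y - 1) * (y + 1) / y ^ 2 := by field_simp; ring
  rw [e, abs_div, abs_mul, abs_of_pos (by positivity : (0 : ℝ) < y ^ 2),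
    abs_of_pos (by linarith : 0 < y + 1), div_le_iff₀ (by positivity)]
  have h2 : |y - 1| * (y + 1) ≤ 3 * η * (43 / 20) :=
    mul_le_mul h (by linarith) (by linarith) (by positivity)
  have h3 : (289 : ℝ) / 400 ≤ y ^ 2 := by nlinarith
  have h4 := mul_le_mul_of_nonneg_left h3 hη
  linarith

lemma R08_half {y η : ℝ} (hη : 0 ≤ η) (hη' : η ≤ 1 / 20) (h : |y - 1| ≤ 3 * η) :
    1 ≤ 2 * (1 / y ^ 2) := by
  have h0 := abs_le.1 h
  have hy : 17 / 20 ≤ y := by linarith [h0.1]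
  have hy' : y ≤ 23 / 20 := by linarith [h0.2]
  have hy0 : 0 < y := by linarith
  rw [mul_one_div, le_div_iff₀ (by positivity)]
  nlinarith

/-- The change of parameter. -/
noncomputable def R08f (x v σ : ℝ) : ℝ := σ / (x * (x + σ * v))

lemma R08f_sub {x v η σ : ℝ} (hη : 0 ≤ η) (hη' : η ≤ 1 / 20) (hx : |x - 1| ≤ η) (hv : |v| ≤ η)
    (hσ : |σ| ≤ 2) : |R08f x v σ - σ| ≤ 6 * η * |σ| := by
  have h3 := R08_y hη hx hv hσ
  have h0 := abs_le.1 h3
  have hx1 := abs_le.1 hx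
  set y : ℝ := x + σ * v with hy
  have hy1 : 17 / 20 ≤ y := by linarith [h0.1]
  have hy2 : y ≤ 23 / 20 := by linarith [h0.2]
  have hx2 : 19 / 20 ≤ x := by linarith [hx1.1]
  have hy0 : 0 < y := by linarith
  have hx0 : 0 < x := by linarith
  have hp : 0 < x * y := mul_pos hx0 hy0
  have e : R08f x v σ - σ = σ * ((1 - x * y) / (x * y)) := by
    unfold R08f
    rw [← hy]
    field_simp
  rw [e, abs_mul, mul_comm (6 * η)]
  refine mul_le_mul_of_nonneg_left ?_ (abs_nonneg _)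
  rw [abs_div, abs_of_pos hp, div_le_iff₀ hp]
  have h1 : |1 - x * y| ≤ η * (23 / 20) + 3 * η := by
    have e2 : 1 - x * y = -((x - 1) * y) - (y - 1) := by ring
    rw [e2]
    refine (abs_sub _ _).trans ?_
    rw [abs_neg, abs_mul, abs_of_pos hy0]
    exact add_le_add (mul_le_mul hx hy2 hy0.le hη) h3
  have h2 : (19 / 20 : ℝ) * (17 / 20) ≤ x * y := mul_le_mul hx2 hy1 (by norm_num) hx0.le
  nlinarith

lemma R08f_deriv {x v σ : ℝ} (hx : x ≠ 0) (hy : x + σ * v ≠ 0) :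
    HasDerivAt (R08f x v) (1 / (x + σ * v) ^ 2) σ := by
  have h1 : HasDerivAt (fun σ : ℝ => x * (x + σ * v)) (x * v) σ := by
    have := ((hasDerivAt_id σ).mul_const v).const_add x
    have := this.const_mul x
    simpa using this
  have h2 := (hasDerivAt_id σ).div h1 (mul_ne_zero hx hy)
  have e : (1 * (x * (x + σ * v)) - id σ * (x * v)) / (x * (x + σ * v)) ^ 2
      = 1 / (x + σ * v) ^ 2 := by
    simp only [id]
    field_simp
    ring
  rw [e] at h2
  exact h2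

lemma R08f_mono {x v s1 s2 : ℝ} (hx : x ≠ 0) (h1 : 0 < x + s1 * v) (h2 : 0 < x + s2 * v)
    (h12 : s1 ≤ s2) : R08f x v s1 ≤ R08f x v s2 := by
  have e : R08f x v s2 - R08f x v s1 = (s2 - s1) / ((x + s1 * v) * (x + s2 * v)) := by
    unfold R08f
    have h1' := h1.ne'
    have h2' := h2.ne'
    rw [div_sub_div _ _ (mul_ne_zero hx h2') (mul_ne_zero hx h1'),
      div_eq_div_iff (mul_ne_zero (mul_ne_zero hx h2') (mul_ne_zero hx h1'))
        (mul_ne_zero h1' h2')]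
    ring
  have : 0 ≤ (s2 - s1) / ((x + s1 * v) * (x + s2 * v)) :=
    div_nonneg (by linarith) (by positivity)
  linarith

lemma R08_cov {x v s1 s2 : ℝ} (hx : x ≠ 0) (hy : ∀ σ ∈ Icc s1 s2, 0 < x + σ * v)
    (h12 : s1 ≤ s2) (h : ℝ → ℝ) :
    ∫ σ in s1..s2, 1 / (x + σ * v) ^ 2 * h (R08f x v σ)
      = ∫ s in (R08f x v s1)..(R08f x v s2), h s := by
  have hm := R08f_mono hx (hy s1 ⟨le_rfl, h12⟩) (hy s2 ⟨h12, le_rfl⟩) h12
  rw [intervalIntegral.integral_of_le h12, intervalIntegral.integral_of_le hm,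
    ← integral_Icc_eq_integral_Ioc, ← integral_Icc_eq_integral_Ioc]
  have := integral_Icc_deriv_smul_of_deriv_nonneg (g := h) (f := R08f x v)
    (f' := fun σ => 1 / (x + σ * v) ^ 2) (a := s1) (b := s2)
    (fun σ hσ => (R08f_deriv hx (hy σ hσ).ne').continuousAt.continuousWithinAt)
    (fun σ hσ => R08f_deriv hx (hy σ ⟨hσ.1.le, hσ.2.le⟩).ne')
    (fun σ hσ => by positivity) h12
  simpa only [smul_eq_mul] using this

section

variable {Z : Type*} [MeasurableSpace Z] {ζ : Measure Z} [SigmaFinite ζ]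

lemma R08_alg {x y σ v : ℝ} (hx : x ≠ 0) (hy : y ≠ 0) (h : y = x + σ * v) :
    x⁻¹ = v * (σ / (x * y)) + y⁻¹ := by
  have e : v * (σ / (x * y)) + y⁻¹ = (v * σ + x) / (x * y) := by
    field_simp
  rw [e, show v * σ + x = y by rw [h]; ring]
  field_simp

lemma uu_lt (σ x v : ℝ) (hx : x ≠ 0) (hx' : x + σ * v ≠ 0) :
    uu σ * lt x v hx = lt (x + σ * v) v hx' * uu (σ / (x * (x + σ * v))) := by
  apply SL_ext
  · simp [SL_mul_apply, lt]
  · simp only [SL_mul_apply, lt, uu00, uu01, uu11,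
      Matrix.of_apply, Matrix.cons_val', Matrix.cons_val_zero, Matrix.cons_val_one,
      Matrix.cons_val_fin_one]
    field_simp
    ring
  · simp [SL_mul_apply, lt]
  · simp only [SL_mul_apply, lt, uu10, uu01, uu11,
      Matrix.of_apply, Matrix.cons_val', Matrix.cons_val_zero, Matrix.cons_val_one,
      Matrix.cons_val_fin_one]
    rw [zero_mul, zero_add, one_mul, mul_one]
    exact R08_alg hx hx' rfl

lemma dd_lt (r x v : ℝ) (hx : x ≠ 0) :
    dd r * lt x v hx = lt x (Real.exp (-(2 * r)) * v) hx * dd r := by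
  have e : Real.exp (-r) = Real.exp (-(2 * r)) * Real.exp r := by
    rw [← Real.exp_add]; congr 1; ring
  apply SL_ext
  · simp [SL_mul_apply, lt, mul_comm]
  · simp [SL_mul_apply, lt]
  · simp only [SL_mul_apply, lt, dd00, dd10, dd11,
      Matrix.of_apply, Matrix.cons_val', Matrix.cons_val_zero, Matrix.cons_val_one,
      Matrix.cons_val_fin_one]
    rw [e]
    ring
  · simp [SL_mul_apply, lt, mul_comm]

lemma R08_d1 (y u : ℝ) (hy : y ≠ 0) : d1 (lt y u hy) = |y - 1| + |u| + |y⁻¹ - 1| := by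
  unfold d1 nM lt
  simp

theorem prim {a : PAct SL2R ζ} {Φ J : BL2 ζ} (hJ : SmA a Φ J) {r : ℝ} (hr : 0 ≤ r) (w : Z)
    {x v η : ℝ} (hη : 0 ≤ η) (hη' : η ≤ 1 / 20) (hx : |x - 1| ≤ η) (hv : |v| ≤ η) (hx0 : x ≠ 0)
    {s1 s2 S : ℝ} (h12 : s1 ≤ s2) (h1 : |s1| ≤ S) (h2 : |s2| ≤ S) (hS : S ≤ 2) :
    |(∫ σ in s1..s2, ((a.T (dd r) Φ : BL2 ζ) : Z → ℝ) (a.τ (uu σ * lt x v hx0) w))
        - ∫ σ in s1..s2, ((a.T (dd r) Φ : BL2 ζ) : Z → ℝ) (a.τ (uu σ) w)|
      ≤ (∫ σ in (s1 - 6 * η * S)..(s1 + 6 * η * S), |((a.T (dd r) Φ : BL2 ζ) : Z → ℝ) (a.τ (uu σ) w)|)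
        + (∫ σ in (s2 - 6 * η * S)..(s2 + 6 * η * S),
            |((a.T (dd r) Φ : BL2 ζ) : Z → ℝ) (a.τ (uu σ) w)|)
        + 40 * η * ∫ σ in (s1 - 6 * η * S)..(s2 + 6 * η * S),
            (|((a.T (dd r) Φ : BL2 ζ) : Z → ℝ) (a.τ (uu σ) w)|
              + |((a.T (dd r) J : BL2 ζ) : Z → ℝ) (a.τ (uu σ) w)|) := by
  obtain ⟨MΦ, hMΦ⟩ := bbdd (a.T (dd r) Φ)
  obtain ⟨MJ, hMJ⟩ := bbdd (a.T (dd r) J)
  have hS0 : 0 ≤ S := (abs_nonneg _).trans h1
  have mg : Measurable (fun s : ℝ => ((a.T (dd r) Φ : BL2 ζ) : Z → ℝ) (a.τ (uu s) w)) :=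
    R3.sec_meas a _ w
  have mj : Measurable (fun s : ℝ => ((a.T (dd r) J : BL2 ζ) : Z → ℝ) (a.τ (uu s) w)) :=
    R3.sec_meas a _ w
  have mG : Measurable (fun σ : ℝ => ((a.T (dd r) Φ : BL2 ζ) : Z → ℝ)
      (a.τ (uu σ * lt x v hx0) w)) :=
    (a.meas_sec (bmeas (a.T (dd r) Φ)) w).comp (R3.measurable_uu.mul_const _)
  set g : ℝ → ℝ := fun s => ((a.T (dd r) Φ : BL2 ζ) : Z → ℝ) (a.τ (uu s) w) with hg
  set j : ℝ → ℝ := fun s => ((a.T (dd r) J : BL2 ζ) : Z → ℝ) (a.τ (uu s) w) with hj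
  set G : ℝ → ℝ := fun σ => ((a.T (dd r) Φ : BL2 ζ) : Z → ℝ) (a.τ (uu σ * lt x v hx0) w) with hG
  have bg : ∀ s, |g s| ≤ MΦ := fun s => hMΦ _
  have bj : ∀ s, |j s| ≤ MJ := fun s => hMJ _
  have bG : ∀ s, |G s| ≤ MΦ := fun s => hMΦ _
  have mφ : Measurable (R08f x v) := by
    unfold R08f
    exact measurable_id.div ((measurable_id.mul_const v).const_add x |>.const_mul x)
  have hσ : ∀ σ ∈ Icc s1 s2, |σ| ≤ 2 := by
    intro σ hσ
    rw [abs_le] at h1 h2 ⊢
    constructor <;> linarith [h1.1, h2.2, hσ.1, hσ.2]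
  have hyb : ∀ σ ∈ Icc s1 s2, |x + σ * v - 1| ≤ 3 * η := fun σ h => R08_y hη hx hv (hσ σ h)
  have hyp : ∀ σ ∈ Icc s1 s2, 0 < x + σ * v := by
    intro σ h
    have := (abs_le.1 (hyb σ h)).1
    linarith
  -- the pointwise comparison
  have hpt : ∀ σ ∈ Icc s1 s2, |G σ - g (R08f x v σ)| ≤ 8 * η * |j (R08f x v σ)| := by
    intro σ hσI
    have hy0 := (hyp σ hσI).ne'
    have e1 : dd r * (uu σ * lt x v hx0)
        = lt (x + σ * v) (Real.exp (-(2 * r)) * v) hy0 * (dd r * uu (R08f x v σ)) := by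
      rw [uu_lt σ x v hx0 hy0, ← mul_assoc, dd_lt, mul_assoc]
      rfl
    have e2 : G σ = (Φ : Z → ℝ) (a.τ (lt (x + σ * v) (Real.exp (-(2 * r)) * v) hy0)
        (a.τ (dd r * uu (R08f x v σ)) w)) := by
      simp only [hG, PAct.T_apply]
      rw [← a.mul, e1, a.mul]
    have e3 : g (R08f x v σ) = (Φ : Z → ℝ) (a.τ (dd r * uu (R08f x v σ)) w) := by
      simp only [hg, PAct.T_apply]
      rw [a.mul]
    have e4 : j (R08f x v σ) = (J : Z → ℝ) (a.τ (dd r * uu (R08f x v σ)) w) := by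
      simp only [hj, PAct.T_apply]
      rw [a.mul]
    have hd : d1 (lt (x + σ * v) (Real.exp (-(2 * r)) * v) hy0) ≤ 8 * η := by
      rw [R08_d1]
      have h4 := R08_inv hη hη' (hyb σ hσI)
      have h5 : |Real.exp (-(2 * r)) * v| ≤ η := by
        rw [abs_mul, abs_of_pos (Real.exp_pos _)]
        have h6 : Real.exp (-(2 * r)) ≤ 1 := Real.exp_le_one_iff.2 (by linarith)
        calc Real.exp (-(2 * r)) * |v| ≤ 1 * |v| :=
              mul_le_mul_of_nonneg_right h6 (abs_nonneg _)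
          _ ≤ η := by rw [one_mul]; exact hv
      linarith [hyb σ hσI]
    have h7 := hJ (lt (x + σ * v) (Real.exp (-(2 * r)) * v) hy0)
      (a.τ (dd r * uu (R08f x v σ)) w) (by linarith)
    rw [e2, e3, e4]
    refine h7.trans ?_
    have hd0 : 0 ≤ d1 (lt (x + σ * v) (Real.exp (-(2 * r)) * v) hy0) := nM_nonneg _
    calc d1 (lt (x + σ * v) (Real.exp (-(2 * r)) * v) hy0)
          * (J : Z → ℝ) (a.τ (dd r * uu (R08f x v σ)) w)
        ≤ d1 (lt (x + σ * v) (Real.exp (-(2 * r)) * v) hy0)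
          * |(J : Z → ℝ) (a.τ (dd r * uu (R08f x v σ)) w)| :=
          mul_le_mul_of_nonneg_left (le_abs_self _) hd0
      _ ≤ 8 * η * |(J : Z → ℝ) (a.τ (dd r * uu (R08f x v σ)) w)| :=
          mul_le_mul_of_nonneg_right hd (abs_nonneg _)
  -- integrability
  have ig := R08_int mg bg
  have ij := R08_int mj bj
  have iG := R08_int mG bG
  have igφ : ∀ p q, IntervalIntegrable (fun σ => g (R08f x v σ)) volume p q :=
    R08_int (mg.comp mφ) fun s => bg _
  have ijφ : ∀ p q, IntervalIntegrable (fun σ => j (R08f x v σ)) volume p q :=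
    R08_int (mj.comp mφ) fun s => bj _
  have hcont : ContinuousOn (fun σ : ℝ => 1 / (x + σ * v) ^ 2) (uIcc s1 s2) := by
    rw [uIcc_of_le h12]
    refine ContinuousOn.div continuousOn_const (by fun_prop) fun σ hσ => ?_
    have := hyp σ hσ
    positivity
  -- comparison of integrals of nonnegative functions
  have hcmp : ∀ h : ℝ → ℝ, (∀ p q, IntervalIntegrable h volume p q) →
      (∀ p q, IntervalIntegrable (fun σ => h (R08f x v σ)) volume p q) →
      ∫ σ in s1..s2, |h (R08f x v σ)|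
        ≤ 2 * ∫ s in (s1 - 6 * η * S)..(s2 + 6 * η * S), |h s| := by
    intro h hi hiφ
    have c1 := R08_cov hx0 hyp h12 (fun s => |h s|)
    have c2 : ∫ σ in s1..s2, |h (R08f x v σ)|
        ≤ ∫ σ in s1..s2, 2 * (1 / (x + σ * v) ^ 2 * |h (R08f x v σ)|) := by
      refine intervalIntegral.integral_mono_on h12 (hiφ _ _).abs
        (((hiφ _ _).abs.continuousOn_mul hcont).const_mul 2) fun σ hσI => ?_
      have h8 := R08_half hη hη' (hyb σ hσI)
      have h9 := abs_nonneg (h (R08f x v σ))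
      nlinarith
    rw [intervalIntegral.integral_const_mul, c1] at c2
    refine c2.trans (mul_le_mul_of_nonneg_left ?_ (by norm_num))
    have d1' := abs_le.1 (R08f_sub hη hη' hx hv (hσ s1 ⟨le_rfl, h12⟩))
    have d2' := abs_le.1 (R08f_sub hη hη' hx hv (hσ s2 ⟨h12, le_rfl⟩))
    have q1 : 6 * η * |s1| ≤ 6 * η * S := mul_le_mul_of_nonneg_left h1 (by positivity)
    have q2 : 6 * η * |s2| ≤ 6 * η * S := mul_le_mul_of_nonneg_left h2 (by positivity)
    exact intervalIntegral.integral_mono_interval (by linarith [d1'.1])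
      (R08f_mono hx0 (hyp s1 ⟨le_rfl, h12⟩) (hyp s2 ⟨h12, le_rfl⟩) h12) (by linarith [d2'.2])
      (Filter.Eventually.of_forall fun s => abs_nonneg _) (hi _ _).abs
  have A1 : |(∫ σ in s1..s2, G σ) - ∫ σ in s1..s2, g (R08f x v σ)|
      ≤ 16 * η * ∫ s in (s1 - 6 * η * S)..(s2 + 6 * η * S), |j s| := by
    rw [← intervalIntegral.integral_sub (iG _ _) (igφ _ _)]
    refine (intervalIntegral.abs_integral_le_integral_abs h12).trans ?_
    have c1 : ∫ σ in s1..s2, |G σ - g (R08f x v σ)|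
        ≤ ∫ σ in s1..s2, 8 * η * |j (R08f x v σ)| :=
      intervalIntegral.integral_mono_on h12 ((iG _ _).sub (igφ _ _)).abs
        ((ijφ _ _).abs.const_mul _) hpt
    refine c1.trans ?_
    rw [intervalIntegral.integral_const_mul]
    have c2 := hcmp j ij ijφ
    have c3 := mul_le_mul_of_nonneg_left c2 (by positivity : 0 ≤ 8 * η)
    linarith
  have A2 : |(∫ σ in s1..s2, g (R08f x v σ)) - ∫ s in (R08f x v s1)..(R08f x v s2), g s|
      ≤ 18 * η * ∫ s in (s1 - 6 * η * S)..(s2 + 6 * η * S), |g s| := by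
    rw [← R08_cov hx0 hyp h12 g, ← intervalIntegral.integral_sub (igφ _ _)
      ((igφ _ _).continuousOn_mul hcont)]
    refine (intervalIntegral.abs_integral_le_integral_abs h12).trans ?_
    have c1 : ∫ σ in s1..s2, |g (R08f x v σ) - 1 / (x + σ * v) ^ 2 * g (R08f x v σ)|
        ≤ ∫ σ in s1..s2, 9 * η * |g (R08f x v σ)| := by
      refine intervalIntegral.integral_mono_on h12
        ((igφ _ _).sub ((igφ _ _).continuousOn_mul hcont)).abs ((igφ _ _).abs.const_mul _)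
        fun σ hσI => ?_
      have e : g (R08f x v σ) - 1 / (x + σ * v) ^ 2 * g (R08f x v σ)
          = (1 - 1 / (x + σ * v) ^ 2) * g (R08f x v σ) := by ring
      rw [e, abs_mul]
      exact mul_le_mul_of_nonneg_right (R08_inv2 hη hη' (hyb σ hσI)) (abs_nonneg _)
    refine c1.trans ?_
    rw [intervalIntegral.integral_const_mul]
    have c2 := hcmp g ig igφ
    have c3 := mul_le_mul_of_nonneg_left c2 (by positivity : 0 ≤ 9 * η)
    linarith
  have A3 : |(∫ s in (R08f x v s1)..(R08f x v s2), g s) - ∫ s in s1..s2, g s|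
      ≤ (∫ s in (s1 - 6 * η * S)..(s1 + 6 * η * S), |g s|)
        + ∫ s in (s2 - 6 * η * S)..(s2 + 6 * η * S), |g s| := by
    have q1 : 6 * η * |s1| ≤ 6 * η * S := mul_le_mul_of_nonneg_left h1 (by positivity)
    have q2 : 6 * η * |s2| ≤ 6 * η * S := mul_le_mul_of_nonneg_left h2 (by positivity)
    have z0 : 0 ≤ 6 * η * S := by positivity
    have p1 := R08_piece ig ((R08f_sub hη hη' hx hv (hσ s1 ⟨le_rfl, h12⟩)).trans q1)
      (show |s1 - s1| ≤ 6 * η * S by rw [sub_self, abs_zero]; exact z0)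
    have p2 := R08_piece ig (show |s2 - s2| ≤ 6 * η * S by rw [sub_self, abs_zero]; exact z0)
      ((R08f_sub hη hη' hx hv (hσ s2 ⟨h12, le_rfl⟩)).trans q2)
    have e : (∫ s in (R08f x v s1)..(R08f x v s2), g s) - ∫ s in s1..s2, g s
        = (∫ s in (R08f x v s1)..s1, g s) + ∫ s in s2..(R08f x v s2), g s := by
      rw [← intervalIntegral.integral_add_adjacent_intervals (ig (R08f x v s1) s1)
        (ig s1 (R08f x v s2)), ← intervalIntegral.integral_add_adjacent_intervals (ig s1 s2)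
        (ig s2 (R08f x v s2))]
      ring
    rw [e]
    exact (abs_add_le _ _).trans (add_le_add p1 p2)
  have eGJ : ∫ s in (s1 - 6 * η * S)..(s2 + 6 * η * S), (|g s| + |j s|)
      = (∫ s in (s1 - 6 * η * S)..(s2 + 6 * η * S), |g s|)
        + ∫ s in (s1 - 6 * η * S)..(s2 + 6 * η * S), |j s| :=
    intervalIntegral.integral_add (ig _ _).abs (ij _ _).abs
  rw [eGJ]
  have z0 : 0 ≤ 6 * η * S := by positivity
  have hle : s1 - 6 * η * S ≤ s2 + 6 * η * S := by linarith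
  have n1 : 0 ≤ ∫ s in (s1 - 6 * η * S)..(s2 + 6 * η * S), |g s| :=
    intervalIntegral.integral_nonneg hle fun s _ => abs_nonneg _
  have n2 : 0 ≤ ∫ s in (s1 - 6 * η * S)..(s2 + 6 * η * S), |j s| :=
    intervalIntegral.integral_nonneg hle fun s _ => abs_nonneg _
  have t1 : (∫ σ in s1..s2, G σ) - ∫ s in s1..s2, g s
      = ((∫ σ in s1..s2, G σ) - ∫ σ in s1..s2, g (R08f x v σ))
        + ((∫ σ in s1..s2, g (R08f x v σ)) - ∫ s in (R08f x v s1)..(R08f x v s2), g s)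
        + ((∫ s in (R08f x v s1)..(R08f x v s2), g s) - ∫ s in s1..s2, g s) := by ring
  rw [t1]
  refine (abs_add_three _ _ _).trans ?_
  nlinarith [mul_nonneg hη n1, mul_nonneg hη n2]

end

end Pool.Agent.SZ.PR
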