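import Mathlib
import Pool.Agent.SZ.RDefs
import Pool.Agent.SZ.R02
import Pool.Agent.SZ.R03
import Pool.Agent.SZ.R08

/-!
# SZ part R, module R10: regularity of the smoothed differences

`ψ = a.T (dd r) Φ`, `Jr = a.T (dd r) J`, `f_k = ff a ψ k`, `h = MM a (k+k2) f_k`, `τ = 2^-(k+1)`, `ℓ = 2^-(k+k2)`, `η = A 2^-k <= 1/100`,
`S = 4 A 2^-k`, `ρ = 6 η S = 24 A^2 4^-k`.
For real `σ`: `f_k (n_σ w') = 2^(k+1) [ int_{σ+τ}^{σ+2τ} ψ(n_s w') ds - int_σ^{σ+τ} ψ(n_s w') ds ]` (`MM_apply`, `M_(k+1)` is the average over a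
segment of length `τ`).  Let `r' = lt x v`.  `h(n_t r' w) - h(n_t w) = 2^(k+k2) int_t^{t+ℓ} [f_k(n_σ r' w) - f_k(n_σ w)] dσ`.  By `prim` (endpoints
`σ, σ+τ, σ+2τ` have absolute value `<= S`): `|f_k(n_σ r' w) - f_k(n_σ w)| <= 2^(k+1) [ 2 sum_{j=0}^{2} int_{σ+jτ-ρ}^{σ+jτ+ρ} |ψ(n_s w)| ds
+ 80 η int_{-2S}^{2S} (|ψ|+|Jr|)(n_s w) ds ]` (`ρ <= S`).  Averaging over `σ`:
`2^(k+k2) int_t^{t+ℓ} int_{σ+jτ-ρ}^{σ+jτ+ρ} |ψ(n_s w)| ds dσ = 2^(k+k2) int_{-ρ}^{ρ} int_t^{t+ℓ} |ψ(n_{σ+jτ+s} w)| dσ ds <= 2^(k+k2) 2ρ int_{-2S}^{2S} |ψ(n_s w)| ds`.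
So `Er(w) := 2^(k+1) [ 12 * 2^(k+k2) ρ int_{-2S}^{2S} |ψ|(n_s w) ds + 80 η int_{-2S}^{2S} (|ψ|+|Jr|)(n_s w) ds ]` (`seg`); its norm is
`<= 2^(k+1) (12 * 2^(k+k2) * 24 A^2 4^-k + 80 A 2^-k) 4S (nrm Φ + nrm J) = C(A,k2) 2^-k (nrm Φ + nrm J)`.
-/

set_option autoImplicit false
set_option linter.unusedVariables false
set_option linter.unusedSectionVars false

namespace Pool.Agent.SZ.PR

open Pool.Agent.IRS MeasureTheory Set Filter Topology

private lemma R10_ii {G : ℝ → ℝ} (hG : Measurable G) {M : ℝ} (hM : ∀ s, |G s| ≤ M) (α β : ℝ) :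
    IntervalIntegrable G volume α β := by
  refine (intervalIntegrable_const (c := M)).mono_fun' hG.aestronglyMeasurable ?_
  filter_upwards with s
  exact hM s

/-- The averaged integrals over short moving intervals. -/
private lemma R10_fub {G : ℝ → ℝ} (hG : Measurable G) {M : ℝ} (hM : ∀ s, |G s| ≤ M)
    (h0 : ∀ s, 0 ≤ G s) {t l ρ c K : ℝ} (hl : 0 ≤ l) (hρ : 0 ≤ ρ) (h1 : -K ≤ t + c - ρ)
    (h2 : t + l + c + ρ ≤ K) :
    IntervalIntegrable (fun σ => ∫ s in (σ + c - ρ)..(σ + c + ρ), G s) volume t (t + l) ∧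
    ∫ σ in t..(t + l), (∫ s in (σ + c - ρ)..(σ + c + ρ), G s)
      ≤ 2 * ρ * ∫ s in (-K)..K, G s := by
  have hii : ∀ a b, IntervalIntegrable G volume a b := fun a b => R10_ii hG hM a b
  set Γ : ℝ → ℝ := fun x => ∫ s in (0 : ℝ)..x, G s with hΓ
  have hc : Continuous Γ := intervalIntegral.continuous_primitive hii 0
  have hd : ∀ a b, ∫ s in a..b, G s = Γ b - Γ a := fun a b =>
    (intervalIntegral.integral_interval_sub_left (hii _ _) (hii _ _)).symm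
  have hmono : Monotone Γ := fun a b hab => by
    have h3 := hd a b
    have h4 := intervalIntegral.integral_nonneg_of_forall (μ := volume) hab h0
    linarith
  have hi : ∀ d a b, IntervalIntegrable (fun σ => Γ (σ + d)) volume a b := fun d a b =>
    (hc.comp (continuous_add_const d)).intervalIntegrable a b
  set Γ2 : ℝ → ℝ := fun x => ∫ s in (0 : ℝ)..x, Γ s with hΓ2
  have hd2 : ∀ a b, ∫ s in a..b, Γ s = Γ2 b - Γ2 a := fun a b =>
    (intervalIntegral.integral_interval_sub_left (hc.intervalIntegrable _ _)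
      (hc.intervalIntegrable _ _)).symm
  have hfun : (fun σ => ∫ s in (σ + c - ρ)..(σ + c + ρ), G s)
      = fun σ => Γ (σ + (c + ρ)) - Γ (σ + (c - ρ)) := by
    ext σ
    rw [hd]
    congr 2 <;> ring
  constructor
  · rw [hfun]
    exact (hi _ _ _).sub (hi _ _ _)
  · have e0 : ∫ σ in t..(t + l), (∫ s in (σ + c - ρ)..(σ + c + ρ), G s)
        = ∫ σ in t..(t + l), (Γ (σ + (c + ρ)) - Γ (σ + (c - ρ))) := by
      rw [hfun]
    have hK : ∫ s in (-K)..K, G s = Γ K - Γ (-K) := hd _ _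
    rw [e0, intervalIntegral.integral_sub (hi _ _ _) (hi _ _ _),
      intervalIntegral.integral_comp_add_right, intervalIntegral.integral_comp_add_right,
      hd2, hd2, hK]
    have u1 : ∫ s in (t + l + (c - ρ))..(t + l + (c + ρ)), Γ s ≤ 2 * ρ * Γ K := by
      have h5 : t + l + (c - ρ) ≤ t + l + (c + ρ) := by linarith
      calc ∫ s in (t + l + (c - ρ))..(t + l + (c + ρ)), Γ s
          ≤ ∫ s in (t + l + (c - ρ))..(t + l + (c + ρ)), Γ K := by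
            refine intervalIntegral.integral_mono_on h5 (hc.intervalIntegrable _ _)
              (intervalIntegrable_const) fun x hx => hmono ?_
            have := hx.2
            linarith
        _ = 2 * ρ * Γ K := by rw [intervalIntegral.integral_const, smul_eq_mul]; ring
    have u2 : 2 * ρ * Γ (-K) ≤ ∫ s in (t + (c - ρ))..(t + (c + ρ)), Γ s := by
      have h5 : t + (c - ρ) ≤ t + (c + ρ) := by linarith
      calc 2 * ρ * Γ (-K) = ∫ s in (t + (c - ρ))..(t + (c + ρ)), Γ (-K) := by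
            rw [intervalIntegral.integral_const, smul_eq_mul]; ring
        _ ≤ ∫ s in (t + (c - ρ))..(t + (c + ρ)), Γ s := by
            refine intervalIntegral.integral_mono_on h5 (intervalIntegrable_const)
              (hc.intervalIntegrable _ _) fun x hx => hmono ?_
            have := hx.1
            linarith
    rw [hd2] at u1 u2
    linarith

/-- The pointwise estimate for the difference of two consecutive averages. -/
private lemma R10_pt {P0 P1 J0 : ℝ → ℝ} (hP0 : Measurable P0) (hJ0 : Measurable J0) {M : ℝ}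
    (hM0 : ∀ s, |P0 s| ≤ M) (hMJ : ∀ s, |J0 s| ≤ M) {η S ρ τ : ℝ} (hη : 0 ≤ η)
    (hρ0 : 0 ≤ ρ) (hρ : ρ ≤ S) (hτ : 0 ≤ τ)
    (hprim : ∀ s1 s2 : ℝ, s1 ≤ s2 → |s1| ≤ S → |s2| ≤ S →
      |(∫ σ in s1..s2, P1 σ) - ∫ σ in s1..s2, P0 σ|
        ≤ (∫ σ in (s1 - ρ)..(s1 + ρ), |P0 σ|) + (∫ σ in (s2 - ρ)..(s2 + ρ), |P0 σ|)
          + 40 * η * ∫ σ in (s1 - ρ)..(s2 + ρ), (|P0 σ| + |J0 σ|))
    (σ : ℝ) (h1 : |σ| ≤ S) (h2 : |σ + τ| ≤ S) (h3 : |σ + 2 * τ| ≤ S) :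
    |((∫ s in (σ + τ)..(σ + 2 * τ), P1 s) - ∫ s in σ..(σ + τ), P1 s)
      - ((∫ s in (σ + τ)..(σ + 2 * τ), P0 s) - ∫ s in σ..(σ + τ), P0 s)|
      ≤ (∫ s in (σ + 0 - ρ)..(σ + 0 + ρ), |P0 s|) + 2 * (∫ s in (σ + τ - ρ)..(σ + τ + ρ), |P0 s|)
        + (∫ s in (σ + 2 * τ - ρ)..(σ + 2 * τ + ρ), |P0 s|)
        + 80 * η * ∫ s in (-(2 * S))..(2 * S), (|P0 s| + |J0 s|) := by
  have hm : Measurable (fun s => |P0 s| + |J0 s|) := hP0.abs.add hJ0.abs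
  have hmM : ∀ s, |(|P0 s| + |J0 s|)| ≤ M + M := fun s => by
    rw [abs_of_nonneg (by positivity)]
    exact add_le_add (hM0 s) (hMJ s)
  have a1 := hprim σ (σ + τ) (by linarith) h1 h2
  have a2 := hprim (σ + τ) (σ + 2 * τ) (by linarith) h2 h3
  have b : ∀ s1 s2 : ℝ, s1 ≤ s2 → |s1| ≤ S → |s2| ≤ S →
      ∫ s in (s1 - ρ)..(s2 + ρ), (|P0 s| + |J0 s|)
        ≤ ∫ s in (-(2 * S))..(2 * S), (|P0 s| + |J0 s|) := by
    intro s1 s2 h12 hs1 hs2
    have c1 := (abs_le.1 hs1).1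
    have c2 := (abs_le.1 hs2).2
    refine intervalIntegral.integral_mono_interval (by linarith) (by linarith) (by linarith)
      (Eventually.of_forall fun s => ?_) (R10_ii hm hmM _ _)
    simp only [Pi.zero_apply]
    positivity
  have b1 := mul_le_mul_of_nonneg_left (b σ (σ + τ) (by linarith) h1 h2)
    (show 0 ≤ 40 * η by positivity)
  have b2 := mul_le_mul_of_nonneg_left (b (σ + τ) (σ + 2 * τ) (by linarith) h2 h3)
    (show 0 ≤ 40 * η by positivity)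
  have key : ∀ x1 y1 x0 y0 : ℝ, |(x1 - y1) - (x0 - y0)| ≤ |x1 - x0| + |y1 - y0| := by
    intro x1 y1 x0 y0
    have : (x1 - y1) - (x0 - y0) = (x1 - x0) - (y1 - y0) := by ring
    rw [this]
    exact abs_sub _ _
  refine (key _ _ _ _).trans ?_
  rw [add_zero]
  linarith

section

variable {Z : Type*} [MeasurableSpace Z] {ζ : Measure Z} [SigmaFinite ζ]

private lemma R10_MM (a : PAct SL2R ζ) (j : ℕ) (f : BL2 ζ) (t : ℝ) (w : Z) :
    ((MM a j f : BL2 ζ) : Z → ℝ) (a.τ (uu t) w)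
      = 2 ^ j * ∫ s in t..(t + 2⁻¹ ^ j), (f : Z → ℝ) (a.τ (uu s) w) := by
  rw [MM_apply]
  congr 1
  have h1 : ∀ s : ℝ, (f : Z → ℝ) (a.τ (uu s) (a.τ (uu t) w))
      = (fun x => (f : Z → ℝ) (a.τ (uu x) w)) (s + t) := by
    intro s
    simp only
    rw [uu_add, a.mul]
  simp_rw [h1]
  rw [intervalIntegral.integral_comp_add_right (fun x => (f : Z → ℝ) (a.τ (uu x) w)) t]
  congr 1 <;> ring

private lemma R10_ff (a : PAct SL2R ζ) (ψ : BL2 ζ) (k : ℕ) (σ : ℝ) (w : Z) :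
    ((ff a ψ k : BL2 ζ) : Z → ℝ) (a.τ (uu σ) w)
      = 2 ^ (k + 1) * ((∫ s in (σ + tk k)..(σ + 2 * tk k), (ψ : Z → ℝ) (a.τ (uu s) w))
        - ∫ s in σ..(σ + tk k), (ψ : Z → ℝ) (a.τ (uu s) w)) := by
  have h1 : ((ff a ψ k : BL2 ζ) : Z → ℝ) (a.τ (uu σ) w)
      = ((MM a (k + 1) ψ : BL2 ζ) : Z → ℝ) (a.τ (uu (tk k)) (a.τ (uu σ) w))
        - ((MM a (k + 1) ψ : BL2 ζ) : Z → ℝ) (a.τ (uu σ) w) := rfl
  rw [h1, ← a.mul, ← uu_add, R10_MM, R10_MM, mul_sub]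
  have h2 : (2⁻¹ : ℝ) ^ (k + 1) = tk k := rfl
  rw [h2]
  congr 3 <;> ring

private lemma R10_meas (a : PAct SL2R ζ) (f : BL2 ζ) (w : Z) :
    Measurable (fun s : ℝ => (f : Z → ℝ) (a.τ (uu s) w)) :=
  (a.meas_sec (bmeas f) w).comp measurable_uu

end

theorem E1 (A : ℝ) (hA : 1 ≤ A) (k2 : ℕ) : ∃ C : ℝ, 0 ≤ C ∧ ∀ (Z : Type) [MeasurableSpace Z]
    (ζ : Measure Z) [SigmaFinite ζ] (a : PAct SL2R ζ) (Φ J : BL2 ζ), SmA a Φ J → ∀ r : ℝ, 0 ≤ r →
    ∀ k : ℕ, A * 2⁻¹ ^ k ≤ 1 / 100 → ∃ Er : BL2 ζ, N2 Er ≤ C * (4⁻¹ : ℝ) ^ k * (N2 Φ + N2 J) ∧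
      ∀ (w : Z) (t x v : ℝ) (hx : x ≠ 0), |t| ≤ A * 2⁻¹ ^ k → |x - 1| ≤ A * 2⁻¹ ^ k →
        |v| ≤ A * 2⁻¹ ^ k →
        |((MM a (k + k2) (ff a (a.T (dd r) Φ) k) : BL2 ζ) : Z → ℝ) (a.τ (uu t * lt x v hx) w)
          - ((MM a (k + k2) (ff a (a.T (dd r) Φ) k) : BL2 ζ) : Z → ℝ) (a.τ (uu t) w)|
          ≤ (Er : Z → ℝ) w := by
  set c1 : ℝ := 2 * A * (192 * 2 ^ k2 * A + 80) with hc1
  refine ⟨512 * A ^ 2 * c1 ^ 2, by positivity, ?_⟩
  intro Z _ ζ _ a Φ J hJ r hr k hk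
  set η : ℝ := A * 2⁻¹ ^ k with hη
  have hη0 : 0 < η := by positivity
  set S : ℝ := 4 * η with hS
  set ρ : ℝ := 6 * η * S with hρ
  set ψ : BL2 ζ := a.T (dd r) Φ with hψ
  set Jr : BL2 ζ := a.T (dd r) J with hJr
  set l : ℝ := 2⁻¹ ^ (k + k2) with hl
  have hl0 : 0 < l := by positivity
  have h2k : (0 : ℝ) < 2⁻¹ ^ k := by positivity
  have hlk : l ≤ 2⁻¹ ^ k := by
    rw [hl, pow_add]
    have : (2⁻¹ : ℝ) ^ k2 ≤ 1 := pow_le_one₀ (by norm_num) (by norm_num)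
    nlinarith
  have hkη : (2⁻¹ : ℝ) ^ k ≤ η := by rw [hη]; nlinarith
  have htk : 2 * tk k = 2⁻¹ ^ k := by unfold tk; rw [pow_succ]; ring
  have htk0 : 0 < tk k := by unfold tk; positivity
  have hS0 : 0 < S := by positivity
  have hρ0 : 0 ≤ ρ := by positivity
  have hρS : ρ ≤ S := by rw [hρ]; nlinarith
  have hSe : (-(2 * S)) ≤ 2 * S := by linarith
  obtain ⟨g1, hg1, hg1N⟩ := seg a hSe (absB ψ)
  obtain ⟨g2, hg2, hg2N⟩ := seg a hSe (absB Jr)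
  set N1 : ℝ := 2 ^ (k + 1) with hN1
  set N2' : ℝ := 2 ^ (k + k2) with hN2
  have hN1p : 0 < N1 := by positivity
  have hN2p : 0 < N2' := by positivity
  have hNl : N2' * l = 1 := by
    rw [hN2, hl, ← mul_pow]; norm_num
  set d1' : ℝ := N1 * (8 * (N2' * ρ) + 80 * η) with hd1
  set d2' : ℝ := N1 * (80 * η) with hd2
  have hd1p : 0 ≤ d1' := by positivity
  have hd2p : 0 ≤ d2' := by positivity
  have hd21 : d2' ≤ d1' := by
    rw [hd1, hd2]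
    refine mul_le_mul_of_nonneg_left ?_ hN1p.le
    have : 0 ≤ N2' * ρ := by positivity
    linarith
  have hkk : N1 * η = 2 * A := by
    rw [hN1, hη, pow_succ]
    have : (2 : ℝ) ^ k * 2⁻¹ ^ k = 1 := by rw [← mul_pow]; norm_num
    linear_combination (2 * A) * this
  have hN2η : N2' * η = 2 ^ k2 * A := by
    rw [hN2, hη, pow_add]
    have : (2 : ℝ) ^ k * 2⁻¹ ^ k = 1 := by rw [← mul_pow]; norm_num
    linear_combination (2 ^ k2 * A) * this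
  have hd1c : d1' = c1 := by
    rw [hd1, hc1, hρ, hS]
    linear_combination (192 * (N2' * η) + 80) * hkk + (384 * A) * hN2η
  refine ⟨d1' • g1 + d2' • g2, ?_, ?_⟩
  · have n1 := N2_add_le (d1' • g1) (d2' • g2)
    rw [N2_smul, N2_smul] at n1
    have e1 : N2 (absB ψ) = N2 Φ := by rw [N2_absB, hψ, N2_T]
    have e2 : N2 (absB Jr) = N2 J := by rw [N2_absB, hJr, N2_T]
    rw [e1] at hg1N
    rw [e2] at hg2N
    have hpΦ := N2_nonneg Φ
    have hpJ := N2_nonneg J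
    have hd2s : d2' ^ 2 ≤ d1' ^ 2 := pow_le_pow_left₀ hd2p hd21 2
    have e3 : (4⁻¹ : ℝ) ^ k = (2⁻¹ ^ k) ^ 2 := by
      rw [← pow_mul, mul_comm k 2, pow_mul]; norm_num
    have hS2 : (2 * S - -(2 * S)) ^ 2 = 256 * A ^ 2 * (4⁻¹ : ℝ) ^ k := by
      rw [e3, hS, hη]; ring
    rw [hS2] at hg1N hg2N
    have e4 : 0 ≤ 256 * A ^ 2 * (4⁻¹ : ℝ) ^ k := by positivity
    calc N2 (d1' • g1 + d2' • g2) ≤ 2 * (d1' ^ 2 * N2 g1) + 2 * (d2' ^ 2 * N2 g2) := n1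
      _ ≤ 2 * (d1' ^ 2 * (256 * A ^ 2 * (4⁻¹ : ℝ) ^ k * N2 Φ))
          + 2 * (d1' ^ 2 * (256 * A ^ 2 * (4⁻¹ : ℝ) ^ k * N2 J)) := by
          have f1 : d1' ^ 2 * N2 g1 ≤ d1' ^ 2 * (256 * A ^ 2 * (4⁻¹ : ℝ) ^ k * N2 Φ) :=
            mul_le_mul_of_nonneg_left hg1N (sq_nonneg _)
          have f2 : d2' ^ 2 * N2 g2 ≤ d1' ^ 2 * (256 * A ^ 2 * (4⁻¹ : ℝ) ^ k * N2 J) :=
            mul_le_mul hd2s hg2N (N2_nonneg _) (sq_nonneg _)
          linarith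
      _ = 512 * A ^ 2 * c1 ^ 2 * (4⁻¹ : ℝ) ^ k * (N2 Φ + N2 J) := by
          rw [hd1c]; ring
  · intro w t x v hx ht hxx hv
    obtain ⟨M1, hM1⟩ := bbdd ψ
    obtain ⟨M2, hM2⟩ := bbdd Jr
    set M := max M1 M2 with hM
    set w' : Z := a.τ (lt x v hx) w with hw'
    set P0 : ℝ → ℝ := fun s => (ψ : Z → ℝ) (a.τ (uu s) w) with hP0
    set P1 : ℝ → ℝ := fun s => (ψ : Z → ℝ) (a.τ (uu s) w') with hP1
    set J0 : ℝ → ℝ := fun s => (Jr : Z → ℝ) (a.τ (uu s) w) with hJ0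
    have mP0 : Measurable P0 := R10_meas a ψ w
    have mJ0 : Measurable J0 := R10_meas a Jr w
    have bP0 : ∀ s, |P0 s| ≤ M := fun s => (hM1 _).trans (le_max_left _ _)
    have bJ0 : ∀ s, |J0 s| ≤ M := fun s => (hM2 _).trans (le_max_right _ _)
    have hprim : ∀ s1 s2 : ℝ, s1 ≤ s2 → |s1| ≤ S → |s2| ≤ S →
      |(∫ σ in s1..s2, P1 σ) - ∫ σ in s1..s2, P0 σ|
        ≤ (∫ σ in (s1 - ρ)..(s1 + ρ), |P0 σ|) + (∫ σ in (s2 - ρ)..(s2 + ρ), |P0 σ|)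
          + 40 * η * ∫ σ in (s1 - ρ)..(s2 + ρ), (|P0 σ| + |J0 σ|) := by
      intro s1 s2 h12 h1 h2
      have h := prim hJ hr w hη0.le (by linarith) hxx hv hx h12 h1 h2 (by linarith)
      have e1 : ∀ σ, ((a.T (dd r) Φ : BL2 ζ) : Z → ℝ) (a.τ (uu σ * lt x v hx) w) = P1 σ := by
        intro σ
        rw [hP1, hw', hψ]
        simp only
        rw [a.mul (uu σ)]
      simp only [e1] at h
      exact h
    have hf0 : ((MM a (k + k2) (ff a ψ k) : BL2 ζ) : Z → ℝ) (a.τ (uu t) w)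
        = N2' * ∫ s in t..(t + l), ((ff a ψ k : BL2 ζ) : Z → ℝ) (a.τ (uu s) w) := R10_MM _ _ _ _ _
    have hf1 : ((MM a (k + k2) (ff a ψ k) : BL2 ζ) : Z → ℝ) (a.τ (uu t * lt x v hx) w)
        = N2' * ∫ s in t..(t + l), ((ff a ψ k : BL2 ζ) : Z → ℝ) (a.τ (uu s) w') := by
      rw [a.mul (uu t)]
      exact R10_MM _ _ _ _ _
    rw [hf0, hf1]
    obtain ⟨Mf, hMf⟩ := bbdd (ff a ψ k)
    have i0 : ∀ u : Z, IntervalIntegrable
        (fun s => ((ff a ψ k : BL2 ζ) : Z → ℝ) (a.τ (uu s) u)) volume t (t + l) :=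
      fun u => R10_ii (R10_meas a _ u) (fun s => hMf _) _ _
    have htl : t ≤ t + l := by linarith
    have ht' := abs_le.1 ht
    set K0 : ℝ := ∫ s in (-(2 * S))..(2 * S), (|P0 s| + |J0 s|) with hK0
    set K1 : ℝ := ∫ s in (-(2 * S))..(2 * S), |P0 s| with hK1
    have F : ∀ c : ℝ, 0 ≤ c → c ≤ 2⁻¹ ^ k → _ := fun c hc0 hc1' =>
      R10_fub (G := fun s => |P0 s|) mP0.abs (M := M) (fun s => by rw [abs_abs]; exact bP0 s)
        (fun s => abs_nonneg _) (t := t) (l := l) (ρ := ρ) (c := c) (K := 2 * S) hl0.le hρ0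
        (by linarith [ht'.1]) (by linarith [ht'.2])
    obtain ⟨ia, fa⟩ := F 0 le_rfl h2k.le
    obtain ⟨ib, fb⟩ := F (tk k) htk0.le (by linarith)
    obtain ⟨ic, fc⟩ := F (2 * tk k) (by linarith) (by linarith)
    have hpt : ∀ σ ∈ Icc t (t + l),
        |((ff a ψ k : BL2 ζ) : Z → ℝ) (a.τ (uu σ) w') - ((ff a ψ k : BL2 ζ) : Z → ℝ) (a.τ (uu σ) w)|
          ≤ N1 * ((∫ s in (σ + 0 - ρ)..(σ + 0 + ρ), |P0 s|)
            + 2 * (∫ s in (σ + tk k - ρ)..(σ + tk k + ρ), |P0 s|)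
            + (∫ s in (σ + 2 * tk k - ρ)..(σ + 2 * tk k + ρ), |P0 s|) + 80 * η * K0) := by
      intro σ hσ
      have hσ1 := hσ.1
      have hσ2 := hσ.2
      have hb := R10_pt (P1 := P1) mP0 mJ0 bP0 bJ0 hη0.le hρ0 hρS htk0.le hprim σ
        (abs_le.2 ⟨by linarith [ht'.1], by linarith [ht'.2]⟩)
        (abs_le.2 ⟨by linarith [ht'.1], by linarith [ht'.2]⟩)
        (abs_le.2 ⟨by linarith [ht'.1], by linarith [ht'.2]⟩)
      rw [R10_ff, R10_ff, ← mul_sub, abs_mul, abs_of_pos hN1p]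
      exact mul_le_mul_of_nonneg_left hb hN1p.le
    have hint : IntervalIntegrable (fun σ => N1 * ((∫ s in (σ + 0 - ρ)..(σ + 0 + ρ), |P0 s|)
            + 2 * (∫ s in (σ + tk k - ρ)..(σ + tk k + ρ), |P0 s|)
            + (∫ s in (σ + 2 * tk k - ρ)..(σ + 2 * tk k + ρ), |P0 s|) + 80 * η * K0))
        volume t (t + l) :=
      ((((ia.add (ib.const_mul 2)).add ic).add intervalIntegrable_const).const_mul N1)
    have hval : ∫ σ in t..(t + l), (N1 * ((∫ s in (σ + 0 - ρ)..(σ + 0 + ρ), |P0 s|)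
            + 2 * (∫ s in (σ + tk k - ρ)..(σ + tk k + ρ), |P0 s|)
            + (∫ s in (σ + 2 * tk k - ρ)..(σ + 2 * tk k + ρ), |P0 s|) + 80 * η * K0))
        ≤ N1 * (8 * ρ * K1 + l * (80 * η * K0)) := by
      rw [intervalIntegral.integral_const_mul, intervalIntegral.integral_add
        ((ia.add (ib.const_mul 2)).add ic) intervalIntegrable_const,
        intervalIntegral.integral_add (ia.add (ib.const_mul 2)) ic,
        intervalIntegral.integral_add ia (ib.const_mul 2),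
        intervalIntegral.integral_const_mul, intervalIntegral.integral_const]
      refine mul_le_mul_of_nonneg_left ?_ hN1p.le
      rw [smul_eq_mul]
      have : t + l - t = l := by ring
      rw [this]
      linarith
    have hK01 : K0 = K1 + ∫ s in (-(2 * S))..(2 * S), |J0 s| := by
      rw [hK0, hK1]
      exact intervalIntegral.integral_add
        (R10_ii mP0.abs (M := M) (fun s => by rw [abs_abs]; exact bP0 s) _ _)
        (R10_ii mJ0.abs (M := M) (fun s => by rw [abs_abs]; exact bJ0 s) _ _)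
    have hEr : ((d1' • g1 + d2' • g2 : BL2 ζ) : Z → ℝ) w
        = d1' * K1 + d2' * ∫ s in (-(2 * S))..(2 * S), |J0 s| := by
      have e1 : ((d1' • g1 + d2' • g2 : BL2 ζ) : Z → ℝ) w
          = d1' * (g1 : Z → ℝ) w + d2' * (g2 : Z → ℝ) w := rfl
      rw [e1, hg1, hg2]
      rfl
    rw [hEr, ← mul_sub, ← intervalIntegral.integral_sub (i0 w') (i0 w), abs_mul,
      abs_of_pos hN2p]
    calc N2' * |∫ σ in t..(t + l), (((ff a ψ k : BL2 ζ) : Z → ℝ) (a.τ (uu σ) w')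
            - ((ff a ψ k : BL2 ζ) : Z → ℝ) (a.τ (uu σ) w))|
        ≤ N2' * (N1 * (8 * ρ * K1 + l * (80 * η * K0))) := by
          refine mul_le_mul_of_nonneg_left ?_ hN2p.le
          refine (intervalIntegral.abs_integral_le_integral_abs htl).trans ?_
          refine (intervalIntegral.integral_mono_on htl ((i0 w').sub (i0 w)).abs hint hpt).trans ?_
          exact hval
      _ = d1' * K1 + d2' * ∫ s in (-(2 * S))..(2 * S), |J0 s| := by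
          rw [hK01, hd1, hd2]
          linear_combination (N1 * (80 * η * (K1 + ∫ s in (-(2 * S))..(2 * S), |J0 s|))) * hNl

end Pool.Agent.SZ.PR
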