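import Mathlib
import Pool.Agent.SZ.RDefs
import Pool.Agent.SZ.R02
import Pool.Agent.SZ.R03

/-!
# SZ part R, module R11: small unipotent displacements of averages

`M_i f (n_s w) - M_i f (w) = 2^i ( int_{2^-i}^{2^-i+s} - int_0^s ) f(n_σ w) dσ` (`MM_apply`), so for `|s| <= Δ`:
`<= G(w) := 2^i [ int_{-Δ}^{Δ} |f|(n_σ w) dσ + int_{2^-i-Δ}^{2^-i+Δ} |f|(n_σ w) dσ ]` (`seg`, `absB`), of norm `<= 2^i 4Δ nrm f`.
-/

set_option autoImplicit false
set_option linter.unusedVariables false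
set_option linter.unusedSectionVars false

namespace Pool.Agent.SZ.PR

open Pool.Agent.IRS MeasureTheory Set Filter Topology

section

variable {Z : Type*} [MeasurableSpace Z] {ζ : Measure Z} [SigmaFinite ζ]

/-- Integrability of a bounded measurable function on an interval. -/
lemma e2_ii_bdd {h : ℝ → ℝ} (hm : Measurable h) {M : ℝ} (hM : ∀ t, |h t| ≤ M) (x y : ℝ) :
    IntervalIntegrable h volume x y := by
  refine (intervalIntegrable_const (c := M)).mono_fun hm.aestronglyMeasurable ?_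
  filter_upwards with t
  rw [Real.norm_eq_abs, Real.norm_eq_abs]
  exact (hM t).trans (le_abs_self M)

/-- The integral over a short segment is bounded by the integral of the absolute value over a
symmetric segment. -/
lemma e2_short_le {h : ℝ → ℝ} (hm : Measurable h) {M : ℝ} (hM : ∀ t, |h t| ≤ M) (x : ℝ) {s Δ : ℝ}
    (hs : |s| ≤ Δ) : |∫ t in x..(x + s), h t| ≤ ∫ t in (x - Δ)..(x + Δ), |h t| := by
  have hΔ : 0 ≤ Δ := (abs_nonneg s).trans hs
  have hs1 := (abs_le.1 hs).1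
  have hs2 := (abs_le.1 hs).2
  have h1 : |∫ t in x..(x + s), h t| ≤ |∫ t in x..(x + s), (|h t|)| := by
    have := intervalIntegral.norm_integral_le_abs_integral_norm (f := h) (a := x) (b := x + s)
      (μ := volume)
    simpa only [Real.norm_eq_abs] using this
  have habs : ∀ u v : ℝ, IntervalIntegrable (fun t => |h t|) volume u v := fun u v =>
    e2_ii_bdd (hm.norm) (M := M) (fun t => by
      change |‖h t‖| ≤ M
      rw [Real.norm_eq_abs, abs_abs]; exact hM t) u v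
  refine h1.trans ?_
  refine intervalIntegral.abs_integral_mono_interval (c := x - Δ) (d := x + Δ) ?_ ?_ (habs _ _)
    |>.trans ?_
  · rw [uIoc_of_le (show x - Δ ≤ x + Δ by linarith)]
    intro t ht
    rcases le_total 0 s with h0 | h0
    · rw [uIoc_of_le (by linarith)] at ht
      exact ⟨by linarith [ht.1], by linarith [ht.2]⟩
    · rw [uIoc_of_ge (by linarith)] at ht
      exact ⟨by linarith [ht.1], by linarith [ht.2]⟩
  · filter_upwards with t using abs_nonneg _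
  · rw [abs_of_nonneg (intervalIntegral.integral_nonneg (by linarith) fun t _ => abs_nonneg _)]

theorem E2 (a : PAct SL2R ζ) (f : BL2 ζ) (i : ℕ) {Δ : ℝ} (hΔ : 0 ≤ Δ) : ∃ G : BL2 ζ,
    N2 G ≤ 16 * (Δ * 2 ^ i) ^ 2 * N2 f ∧ ∀ (s : ℝ) (w : Z), |s| ≤ Δ →
      |((MM a i f : BL2 ζ) : Z → ℝ) (a.τ (uu s) w) - ((MM a i f : BL2 ζ) : Z → ℝ) w|
        ≤ (G : Z → ℝ) w := by
  obtain ⟨g1, hg1, hn1⟩ := seg a (α := 0 - Δ) (β := 0 + Δ) (by linarith) (absB f)
  obtain ⟨g2, hg2, hn2⟩ := seg a (α := 2⁻¹ ^ i - Δ) (β := 2⁻¹ ^ i + Δ) (by linarith) (absB f)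
  rw [N2_absB] at hn1 hn2
  refine ⟨(2 : ℝ) ^ i • (g1 + g2), ?_, ?_⟩
  · rw [N2_smul]
    have h3 := N2_add_le g1 g2
    have h4 : N2 (g1 + g2) ≤ 16 * Δ ^ 2 * N2 f := by nlinarith
    calc ((2 : ℝ) ^ i) ^ 2 * N2 (g1 + g2) ≤ ((2 : ℝ) ^ i) ^ 2 * (16 * Δ ^ 2 * N2 f) :=
          mul_le_mul_of_nonneg_left h4 (sq_nonneg _)
      _ = 16 * (Δ * 2 ^ i) ^ 2 * N2 f := by ring
  · intro s w hs
    obtain ⟨M, hM⟩ := bbdd f
    have hmm : Measurable (fun t : ℝ => (f : Z → ℝ) (a.τ (uu t) w)) :=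
      (a.meas_sec (bmeas f) w).comp measurable_uu
    have hii : ∀ x y : ℝ, IntervalIntegrable (fun t : ℝ => (f : Z → ℝ) (a.τ (uu t) w)) volume x y :=
      fun x y => e2_ii_bdd hmm (fun t => hM _) x y
    have e1 : ∫ t in (0 : ℝ)..(2⁻¹ ^ i), (f : Z → ℝ) (a.τ (uu t) (a.τ (uu s) w))
        = ∫ t in s..(2⁻¹ ^ i + s), (f : Z → ℝ) (a.τ (uu t) w) := by
      have e0 : (fun t : ℝ => (f : Z → ℝ) (a.τ (uu t) (a.τ (uu s) w)))
          = fun t => (f : Z → ℝ) (a.τ (uu (t + s)) w) := by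
        funext t
        rw [uu_add, a.mul]
      have e9 := intervalIntegral.integral_comp_add_right (a := (0 : ℝ)) (b := 2⁻¹ ^ i)
        (fun σ : ℝ => (f : Z → ℝ) (a.τ (uu σ) w)) s
      rw [e0, e9, zero_add]
    have e2 : (∫ t in s..(2⁻¹ ^ i + s), (f : Z → ℝ) (a.τ (uu t) w))
        - ∫ t in (0 : ℝ)..(2⁻¹ ^ i), (f : Z → ℝ) (a.τ (uu t) w)
        = (∫ t in (2⁻¹ ^ i : ℝ)..(2⁻¹ ^ i + s), (f : Z → ℝ) (a.τ (uu t) w))
          - ∫ t in (0 : ℝ)..(0 + s), (f : Z → ℝ) (a.τ (uu t) w) := by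
      rw [zero_add]
      have h5 := intervalIntegral.integral_add_adjacent_intervals (hii 0 s) (hii s (2⁻¹ ^ i + s))
      have h6 := intervalIntegral.integral_add_adjacent_intervals (hii 0 (2⁻¹ ^ i))
        (hii (2⁻¹ ^ i) (2⁻¹ ^ i + s))
      linarith
    rw [MM_apply, MM_apply, e1, ← mul_sub, e2, abs_mul, abs_of_nonneg (by positivity)]
    change _ ≤ (2 : ℝ) ^ i * ((g1 : Z → ℝ) w + (g2 : Z → ℝ) w)
    refine mul_le_mul_of_nonneg_left ?_ (by positivity)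
    rw [hg1, hg2]
    have h7 := e2_short_le hmm (fun t => hM _) (2⁻¹ ^ i) hs
    have h8 := e2_short_le hmm (fun t => hM _) 0 hs
    calc |(∫ t in (2⁻¹ ^ i : ℝ)..(2⁻¹ ^ i + s), (f : Z → ℝ) (a.τ (uu t) w))
          - ∫ t in (0 : ℝ)..(0 + s), (f : Z → ℝ) (a.τ (uu t) w)|
        ≤ |∫ t in (2⁻¹ ^ i : ℝ)..(2⁻¹ ^ i + s), (f : Z → ℝ) (a.τ (uu t) w)|
          + |∫ t in (0 : ℝ)..(0 + s), (f : Z → ℝ) (a.τ (uu t) w)| := abs_sub _ _
      _ ≤ _ := by
          simp only [absB_apply]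
          linarith

end

end Pool.Agent.SZ.PR
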