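import Mathlib
import Pool.Agent.SZ.RDefs

/-!
# SZ part R, module R12: powers of a small matrix

`C = c - 1`, `nM C <= d`; `nM` is submultiplicative (`nM_mul_le`).  For a natural number `n` with `n d <= 1`:
`nM (c^n - 1 - n C) <= (n d)^2` (binomial: `sum_{i>=2} (n choose i) d^i <= (nd)^2 sum_{i>=2} 1/i! <= (nd)^2`; or by induction on `n`:
`c^(n+1) - 1 - (n+1) C = (c^n - 1 - n C)(1+C) + n C^2`, so `e_(n+1) <= e_n (1+d) + n d^2` (multiply: `X*(1+C) = X + X C`), and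
`e_n <= n^2 d^2` for `n d <= 1`: `n^2 d^2 (1+d) + n d^2 <= (n+1)^2 d^2` iff `n^2 d <= n + 1`).
The inverse of `[[α,β],[γ,δ]]` is `[[δ,-β],[-γ,α]]`: `d1 c⁻¹ = d1 c`, and the (0,1) entry changes sign.
`geo`: let `β = c 0 1`, `m = sign β * ⌊σ/|β|⌋`: `|σ - mβ| <= |β| <= d`, `|m| <= σ/|β| <= L/(κd)`, so `|m| <= Λ`.  With `n = |m|` and `c` or its inverse:
`(c^m) 0 1 = mβ + O(e)`, `e = (Λd)^2 <= d/100` (since `Λ^2 d <= 1/100`), `(c^m) 1 1 = 1 + O(Λd+e)`, `(c^m) 1 0 = O(Λ d + e)`, `Λ d <= 1/100`.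
`c^m = uu t * lt x v`, `x = 1/(c^m) 1 1`, `v = (c^m) 1 0`, `t = (c^m) 0 1/(c^m) 1 1` (`det = 1`).
`|t - mβ| <= 1.02 e + Λd * 1.03 Λd <= 0.03 d`.
-/

set_option autoImplicit false
set_option linter.unusedVariables false
set_option linter.unusedSectionVars false

namespace Pool.Agent.SZ.PR

open Pool.Agent.IRS MeasureTheory Set Filter Topology

lemma d1_inv (g : SL2R) : d1 g⁻¹ = d1 g := by
  unfold d1 nM
  rw [Matrix.SpecialLinearGroup.coe_inv, Matrix.adjugate_fin_two]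
  simp
  ring

lemma d1_nonneg (g : SL2R) : 0 ≤ d1 g := nM_nonneg _

private lemma r12_nM_one : nM (1 : Matrix (Fin 2) (Fin 2) ℝ) = 2 := by
  unfold nM; norm_num

private lemma r12_nM_add (X Y : Matrix (Fin 2) (Fin 2) ℝ) : nM (X + Y) ≤ nM X + nM Y := by
  unfold nM
  simp only [Matrix.add_apply]
  have h1 := abs_add_le (X 0 0) (Y 0 0)
  have h2 := abs_add_le (X 0 1) (Y 0 1)
  have h3 := abs_add_le (X 1 0) (Y 1 0)
  have h4 := abs_add_le (X 1 1) (Y 1 1)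
  linarith

private lemma r12_nM_smul (r : ℝ) (hr : 0 ≤ r) (X : Matrix (Fin 2) (Fin 2) ℝ) :
    nM (r • X) = r * nM X := by
  unfold nM
  simp only [Matrix.smul_apply, smul_eq_mul, abs_mul, abs_of_nonneg hr]
  ring

lemma nS_le_d1 (g : SL2R) : nS g ≤ 2 + d1 g := by
  have h := nM_sub_le (g : Matrix (Fin 2) (Fin 2) ℝ) 1
  rw [r12_nM_one] at h
  exact h

lemma pow_approx (c : SL2R) {d : ℝ} (hd : d1 c ≤ d) (n : ℕ) (hn : n * d ≤ 1) :
    nM (((c ^ n : SL2R) : Matrix (Fin 2) (Fin 2) ℝ) - 1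
      - (n : ℝ) • ((c : Matrix (Fin 2) (Fin 2) ℝ) - 1)) ≤ (n * d) ^ 2 := by
  have hd0 : 0 ≤ d := (d1_nonneg c).trans hd
  induction n with
  | zero => simp [nM]
  | succ n ih =>
    have hn1 : (n : ℝ) * d ≤ 1 := by
      push_cast at hn
      nlinarith
    have ih' := ih hn1
    set C : Matrix (Fin 2) (Fin 2) ℝ := (c : Matrix (Fin 2) (Fin 2) ℝ) - 1 with hC
    have hc : (c : Matrix (Fin 2) (Fin 2) ℝ) = 1 + C := by rw [hC]; abel
    have hCn : nM C ≤ d := hd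
    set X : Matrix (Fin 2) (Fin 2) ℝ :=
      ((c ^ n : SL2R) : Matrix (Fin 2) (Fin 2) ℝ) - 1 - (n : ℝ) • C with hX
    have hcn : ((c ^ n : SL2R) : Matrix (Fin 2) (Fin 2) ℝ) = X + 1 + (n : ℝ) • C := by
      rw [hX]; abel
    have e : ((c ^ (n + 1) : SL2R) : Matrix (Fin 2) (Fin 2) ℝ) - 1
        - ((n + 1 : ℕ) : ℝ) • C = (X + X * C) + (n : ℝ) • (C * C) := by
      rw [pow_succ, Matrix.SpecialLinearGroup.coe_mul, hcn, hc]
      push_cast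
      rw [add_smul, one_smul, Matrix.mul_add, Matrix.mul_one, Matrix.add_mul, Matrix.add_mul,
        Matrix.one_mul, Matrix.smul_mul]
      abel
    rw [e]
    have i1 := r12_nM_add (X + X * C) ((n : ℝ) • (C * C))
    have i2 := r12_nM_add X (X * C)
    have i3 := nM_mul_le X C
    have i4 := nM_mul_le C C
    rw [r12_nM_smul _ (Nat.cast_nonneg n)] at i1
    have hX0 := nM_nonneg X
    have hC0 := nM_nonneg C
    have hn0 : (0 : ℝ) ≤ n := Nat.cast_nonneg n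
    have j1 : nM X * nM C ≤ ((n : ℝ) * d) ^ 2 * d :=
      mul_le_mul ih' hCn hC0 (sq_nonneg _)
    have j2 : nM C * nM C ≤ d * d := mul_le_mul hCn hCn hC0 hd0
    have j3 : (n : ℝ) * nM (C * C) ≤ n * (d * d) :=
      mul_le_mul_of_nonneg_left (i4.trans j2) hn0
    have j4 : ((n : ℝ) * d) ^ 2 * d ≤ n * (d * d) := by
      have : ((n : ℝ) * d) ^ 2 * d = (n * d) * (n * (d * d)) := by ring
      rw [this]
      have h0 : 0 ≤ (n : ℝ) * (d * d) := by positivity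
      nlinarith
    push_cast
    nlinarith

lemma d1_zpow (c : SL2R) {d : ℝ} (hd : d1 c ≤ d) (m : ℤ) (hm : |(m : ℝ)| * d ≤ 1 / 2) :
    d1 (c ^ m) ≤ 2 * |(m : ℝ)| * d := by
  have hd0 : 0 ≤ d := (d1_nonneg c).trans hd
  have key : ∀ n : ℕ, (n : ℝ) * d ≤ 1 / 2 → d1 (c ^ n) ≤ 2 * n * d := by
    intro n hn
    have h := pow_approx c hd n (by linarith)
    have h2 := nM_sub_le (((c ^ n : SL2R) : Matrix (Fin 2) (Fin 2) ℝ) - 1)
      ((n : ℝ) • ((c : Matrix (Fin 2) (Fin 2) ℝ) - 1))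
    rw [r12_nM_smul _ (Nat.cast_nonneg n)] at h2
    have h3 : (n : ℝ) * nM ((c : Matrix (Fin 2) (Fin 2) ℝ) - 1) ≤ n * d :=
      mul_le_mul_of_nonneg_left hd (Nat.cast_nonneg n)
    have h4 : 0 ≤ (n : ℝ) * d := by positivity
    change nM (((c ^ n : SL2R) : Matrix (Fin 2) (Fin 2) ℝ) - 1) ≤ _
    nlinarith
  obtain ⟨n, rfl | rfl⟩ := m.eq_nat_or_neg
  · have e : |((n : ℤ) : ℝ)| = n := by simp
    rw [e] at hm ⊢
    rw [zpow_natCast]
    exact key n hm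
  · have e : |((-(n : ℤ) : ℤ) : ℝ)| = n := by simp
    rw [e] at hm ⊢
    rw [zpow_neg, zpow_natCast, d1_inv]
    exact key n hm

lemma nul_decomp (g : SL2R) (h : g 1 1 ≠ 0) (hx : 1 / g 1 1 ≠ 0) :
    g = uu (g 0 1 / g 1 1) * lt (1 / g 1 1) (g 1 0) hx := by
  have hdet := det_eq g
  have l00 : (lt (1 / g 1 1) (g 1 0) hx) 0 0 = 1 / g 1 1 := rfl
  have l01 : (lt (1 / g 1 1) (g 1 0) hx) 0 1 = 0 := rfl
  have l10 : (lt (1 / g 1 1) (g 1 0) hx) 1 0 = g 1 0 := rfl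
  have l11 : (lt (1 / g 1 1) (g 1 0) hx) 1 1 = (1 / g 1 1)⁻¹ := rfl
  apply SL_ext
  · rw [SL_mul_apply, l00, l10, uu00, uu01]
    field_simp
    linarith
  · rw [SL_mul_apply, l01, l11, uu00, uu01]
    field_simp
    ring
  · rw [SL_mul_apply, l00, l10, uu10, uu11]
    ring
  · rw [SL_mul_apply, l01, l11, uu10, uu11]
    field_simp
    ring

private lemma r12_core {c : SL2R} {d L β : ℝ} {Λ n : ℕ} (hd : 0 < d) (h1 : d1 c ≤ d)
    (hβ : c 0 1 = β) (hβ0 : 0 < β) (hβd : β ≤ d) (hΛ : (n : ℝ) + 1 ≤ Λ)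
    (h3 : 100 * (Λ : ℝ) ^ 2 * d ≤ 1)
    {σ : ℝ} (s1 : n * β ≤ σ) (s2 : σ ≤ (n + 1) * β) :
    ∃ (t x v : ℝ) (hx : x ≠ 0),
      c ^ n = uu t * lt x v hx ∧ |σ - t| ≤ 2 * d ∧ |x - 1| ≤ 4 * Λ * d ∧ |v| ≤ 4 * Λ * d := by
  have hn0 : (0 : ℝ) ≤ n := Nat.cast_nonneg n
  have hL1 : (1 : ℝ) ≤ Λ := by linarith
  set q : ℝ := n * d with hq
  have hq0 : 0 ≤ q := by positivity
  have hqL : q ≤ Λ * d := by
    rw [hq]; nlinarith
  have hLd : (Λ : ℝ) * d ≤ 1 / 100 := by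
    have : (Λ : ℝ) * d ≤ (Λ : ℝ) ^ 2 * d := by
      have : (Λ : ℝ) ≤ (Λ : ℝ) ^ 2 := by nlinarith
      exact mul_le_mul_of_nonneg_right this hd.le
    linarith
  have hqs : q ^ 2 ≤ d / 100 := by
    have h4 : q ^ 2 ≤ (Λ * d) ^ 2 := pow_le_pow_left₀ hq0 hqL 2
    have h5 : ((Λ : ℝ) * d) ^ 2 = ((Λ : ℝ) ^ 2 * d) * d := by ring
    rw [h5] at h4
    have h6 : ((Λ : ℝ) ^ 2 * d) * d ≤ (1 / 100) * d :=
      mul_le_mul_of_nonneg_right (by linarith) hd.le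
    linarith
  have hq1 : q ≤ 1 / 100 := hqL.trans hLd
  have happ := pow_approx c h1 n (by rw [← hq]; linarith)
  rw [← hq] at happ
  set g : SL2R := c ^ n with hg
  unfold nM at happ
  simp only [Matrix.sub_apply, Matrix.smul_apply, smul_eq_mul, Matrix.one_apply_eq, ne_eq,
    Matrix.one_apply_ne (show (0 : Fin 2) ≠ 1 by decide),
    Matrix.one_apply_ne (show (1 : Fin 2) ≠ 0 by decide), sub_zero] at happ
  unfold d1 nM at h1
  simp only [Matrix.sub_apply, Matrix.one_apply_eq,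
    Matrix.one_apply_ne (show (0 : Fin 2) ≠ 1 by decide),
    Matrix.one_apply_ne (show (1 : Fin 2) ≠ 0 by decide), sub_zero] at h1
  change |g 0 0 - 1 - ↑n * (c 0 0 - 1)| + |g 0 1 - ↑n * c 0 1| + |g 1 0 - ↑n * c 1 0| +
    |g 1 1 - 1 - ↑n * (c 1 1 - 1)| ≤ q ^ 2 at happ
  change |c 0 0 - 1| + |c 0 1| + |c 1 0| + |c 1 1 - 1| ≤ d at h1
  have a1 := abs_nonneg (g 0 0 - 1 - ↑n * (c 0 0 - 1))
  have a2 := abs_nonneg (g 0 1 - ↑n * c 0 1)
  have a3 := abs_nonneg (g 1 0 - ↑n * c 1 0)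
  have a4 := abs_nonneg (g 1 1 - 1 - ↑n * (c 1 1 - 1))
  have b1 := abs_nonneg (c 0 0 - 1)
  have b2 := abs_nonneg (c 0 1)
  have b3 := abs_nonneg (c 1 0)
  have b4 := abs_nonneg (c 1 1 - 1)
  have e01 : |g 0 1 - n * β| ≤ q ^ 2 := by rw [← hβ]; linarith
  have e11 : |g 1 1 - 1| ≤ q + q ^ 2 := by
    have k1 : |g 1 1 - 1| ≤ |g 1 1 - 1 - ↑n * (c 1 1 - 1)| + |↑n * (c 1 1 - 1)| := by
      have := abs_add_le (g 1 1 - 1 - ↑n * (c 1 1 - 1)) (↑n * (c 1 1 - 1))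
      rwa [sub_add_cancel] at this
    have k2 : |(n : ℝ) * (c 1 1 - 1)| ≤ q := by
      rw [abs_mul, abs_of_nonneg hn0, hq]
      exact mul_le_mul_of_nonneg_left (by linarith) hn0
    linarith
  have e10 : |g 1 0| ≤ q + q ^ 2 := by
    have k1 : |g 1 0| ≤ |g 1 0 - ↑n * c 1 0| + |↑n * c 1 0| := by
      have := abs_add_le (g 1 0 - ↑n * c 1 0) (↑n * c 1 0)
      rwa [sub_add_cancel] at this
    have k2 : |(n : ℝ) * c 1 0| ≤ q := by
      rw [abs_mul, abs_of_nonneg hn0, hq]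
      exact mul_le_mul_of_nonneg_left (by linarith) hn0
    linarith
  have hqq : q ^ 2 ≤ q / 100 := by nlinarith
  have g11 : (97 / 100 : ℝ) ≤ g 1 1 := by
    have := (abs_le.1 e11).1
    linarith
  have g11p : 0 < g 1 1 := by linarith
  have hne : g 1 1 ≠ 0 := g11p.ne'
  have hx : 1 / g 1 1 ≠ 0 := one_div_ne_zero hne
  refine ⟨g 0 1 / g 1 1, 1 / g 1 1, g 1 0, hx, nul_decomp g hne hx, ?_, ?_, ?_⟩
  · have hnb : (n : ℝ) * β ≤ q := by rw [hq]; exact mul_le_mul_of_nonneg_left hβd hn0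
    have hnb0 : 0 ≤ (n : ℝ) * β := by positivity
    have eq1 : σ - g 0 1 / g 1 1 = (σ - n * β) + (n * β * (g 1 1 - 1) - (g 0 1 - n * β)) / g 1 1 := by
      field_simp
      ring
    rw [eq1]
    have t1 : |σ - n * β| ≤ d := by
      rw [abs_le]; constructor <;> nlinarith
    have t2 : |n * β * (g 1 1 - 1) - (g 0 1 - n * β)| ≤ q * (q + q ^ 2) + q ^ 2 := by
      have u1 := abs_sub (n * β * (g 1 1 - 1)) (g 0 1 - n * β)
      rw [abs_mul, abs_of_nonneg hnb0] at u1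
      have u2 : n * β * |g 1 1 - 1| ≤ q * (q + q ^ 2) :=
        mul_le_mul hnb e11 (abs_nonneg _) hq0
      linarith
    have t3 : q * (q + q ^ 2) + q ^ 2 ≤ 3 * q ^ 2 := by nlinarith
    have t4 : |(n * β * (g 1 1 - 1) - (g 0 1 - n * β)) / g 1 1| ≤ d / 10 := by
      rw [abs_div, abs_of_pos g11p, div_le_iff₀ g11p]
      nlinarith
    have t5 := abs_add_le (σ - n * β) ((n * β * (g 1 1 - 1) - (g 0 1 - n * β)) / g 1 1)
    linarith
  · have eq2 : 1 / g 1 1 - 1 = (1 - g 1 1) / g 1 1 := by field_simp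
    rw [eq2, abs_div, abs_of_pos g11p, div_le_iff₀ g11p, abs_sub_comm]
    have : (Λ : ℝ) * d * (97 / 100) ≤ Λ * d * g 1 1 :=
      mul_le_mul_of_nonneg_left g11 (by positivity)
    nlinarith
  · nlinarith

theorem geo {c : SL2R} {d κ L : ℝ} {Λ : ℕ} (hd : 0 < d) (h1 : d1 c ≤ d) (hκ : 0 < κ)
    (h2 : κ * d ≤ |c 0 1|) (hL : 0 < L) (hΛ : L / (κ * d) + 1 ≤ Λ) (h3 : 100 * (Λ : ℝ) ^ 2 * d ≤ 1)
    {σ : ℝ} (hσ0 : 0 ≤ σ) (hσ : σ ≤ L) : ∃ m : ℤ, |m| ≤ Λ ∧ ∃ (t x v : ℝ) (hx : x ≠ 0),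
      c ^ m = uu t * lt x v hx ∧ |σ - t| ≤ 2 * d ∧ |x - 1| ≤ 4 * Λ * d ∧ |v| ≤ 4 * Λ * d := by
  have hκd : 0 < κ * d := mul_pos hκ hd
  have hb0 : 0 < |c 0 1| := lt_of_lt_of_le hκd h2
  have hbd : |c 0 1| ≤ d := by
    refine le_trans ?_ h1
    change |c 0 1| ≤ |c 0 0 - 1| + |c 0 1 - 0| + |c 1 0 - 0| + |c 1 1 - 1|
    have b1 := abs_nonneg (c 0 0 - 1)
    have b3 := abs_nonneg (c 1 0 - 0)
    have b4 := abs_nonneg (c 1 1 - 1)
    rw [sub_zero]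
    linarith
  set n : ℕ := ⌊σ / |c 0 1|⌋₊ with hn
  have n1 : (n : ℝ) ≤ σ / |c 0 1| := Nat.floor_le (by positivity)
  have n2 : σ / |c 0 1| < n + 1 := Nat.lt_floor_add_one _
  have s1 : (n : ℝ) * |c 0 1| ≤ σ := (le_div_iff₀ hb0).1 n1
  have s2 : σ ≤ (n + 1) * |c 0 1| := ((div_lt_iff₀ hb0).1 n2).le
  have n3 : σ / |c 0 1| ≤ L / (κ * d) := div_le_div₀ hL.le hσ hκd h2
  have n4 : (n : ℝ) + 1 ≤ Λ := by linarith
  have n5 : n ≤ Λ := by
    have : (n : ℝ) ≤ Λ := by linarith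
    exact_mod_cast this
  rcases le_or_gt 0 (c 0 1) with hc | hc
  · refine ⟨n, ?_, ?_⟩
    · rw [Nat.abs_cast]; exact_mod_cast n5
    · rw [zpow_natCast]
      exact r12_core (L := L) hd h1 (abs_of_nonneg hc).symm hb0 hbd n4 h3 s1 s2
  · refine ⟨-n, ?_, ?_⟩
    · rw [abs_neg, Nat.abs_cast]; exact_mod_cast n5
    · rw [zpow_neg, zpow_natCast, ← inv_pow]
      refine r12_core (L := L) hd (by rw [d1_inv]; exact h1) ?_ hb0 hbd n4 h3 s1 s2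
      change (c⁻¹ : SL2R) 0 1 = _
      rw [abs_of_neg hc]
      change ((c⁻¹ : SL2R) : Matrix (Fin 2) (Fin 2) ℝ) 0 1 = _
      rw [Matrix.SpecialLinearGroup.coe_inv, Matrix.adjugate_fin_two]
      simp

end Pool.Agent.SZ.PR
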