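import Mathlib
import Pool.Agent.SZ.RDefs

/-!
# SZ part R, module R13: spanning by three rotations

`X = g - 1`, `m = y * v`.  `(m X m⁻¹) 0 1 = p^2 X01 + p q (X11 - X00) - q^2 X10 =: Q(p,q)`, `(p,q)` = first row of `m`
(`m = [[p,q],[r,s]]`, `m⁻¹ = [[s,-q],[-r,p]]`), and `(y v g v⁻¹ y⁻¹) 0 1 = (m X m⁻¹) 0 1`.
Main term: `V_j = kk (jπ/3)`: the first row of `y V_j` is `(e0 cos θ - e1 sin θ, e0 sin θ + e1 cos θ)`, `(e0,e1)` = first row of `y`,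
`θ = jπ/3`.  With `ρ^2 = e0^2 + e1^2 >= 1/R^2` (`1 = det <= |e| |f|`, `|f| <= nS y <= R`): `Q = ρ^2 (μ + A cos 2φ + B sin 2φ)`, `φ = α + θ`,
`μ = (X01 - X10)/2`, `A = (X01+X10)/2`, `B = (X11-X00)/2`.  The three angles `2φ` are equally spaced, so
`sum_j Q_j^2 = 3 ρ^4 (μ^2 + (A^2+B^2)/2) >= (3/2) ρ^4 (μ^2+A^2+B^2) = (3/8) ρ^4 (2 X01^2 + 2 X10^2 + (X11-X00)^2)`
(one may expand everything as polynomials in `e0, e1` with `cos (π/3) = 1/2`, `sin (π/3) = √3/2`),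
`(X11-X00)^2 = 2 X00^2 + 2 X11^2 - (X00+X11)^2`, and `det g = 1` gives `X00 + X11 = -(X00 X11 - X01 X10)`,
of absolute value `<= (1/2) sum X_ij^2 <= 1/32 ...`; `nM X ^ 2 <= 4 sum X_ij^2`.  So some `|Q_j| >= nM X/(6 R^2)`.
Perturbation: `nM (y v X v⁻¹ y⁻¹ - y V X V⁻¹ y⁻¹) <= R^2 (δ nM X nM v⁻¹ + nM V nM X δ) <= 7 R^2 δ nM X <= nM X/(12 R^2)`
(`nM (v⁻¹ - V⁻¹) = nM (v - V)`, `nM V <= 3`, `nM v <= 4`, `δ <= 1/(10^4 R^4)`).
-/

set_option autoImplicit false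
set_option linter.unusedVariables false
set_option linter.unusedSectionVars false

namespace Pool.Agent.SZ.PR

open Pool.Agent.IRS MeasureTheory Set Filter Topology

private lemma R13_nS_kk_aux (c s : ℝ) (h : c ^ 2 + s ^ 2 = 1) : 2 * (|c| + |s|) ≤ 283 / 100 := by
  have h1 := sq_abs c
  have h2 := sq_abs s
  by_contra hcon
  push Not at hcon
  have h3 : (283 / 200 : ℝ) < |c| + |s| := by linarith
  nlinarith [sq_nonneg (|c| - |s|), abs_nonneg c, abs_nonneg s]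

lemma nS_kk (θ : ℝ) : nS (kk θ) ≤ 283 / 100 := by
  have h := R13_nS_kk_aux (Real.cos θ) (Real.sin θ) (by
    linarith [Real.cos_sq_add_sin_sq θ])
  have e : nS (kk θ) = 2 * (|Real.cos θ| + |Real.sin θ|) := by
    unfold nS nM kk
    simp [abs_neg]
    ring
  rw [e]
  exact h

/-- The quadratic form. -/
private def R13_Q (a b c d p q : ℝ) : ℝ := p ^ 2 * b + p * q * (d - a) - q ^ 2 * c

private lemma R13_sum (a b c d e0 e1 t : ℝ) (ht : t ^ 2 = 3 / 4) :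
    R13_Q a b c d e0 e1 ^ 2 + R13_Q a b c d (e0 * (1 / 2) - e1 * t) (e0 * t + e1 * (1 / 2)) ^ 2
      + R13_Q a b c d (e0 * (-1 / 2) - e1 * t) (e0 * t + e1 * (-1 / 2)) ^ 2
      = 3 / 8 * (e0 ^ 2 + e1 ^ 2) ^ 2 * (2 * (b - c) ^ 2 + (b + c) ^ 2 + (d - a) ^ 2) := by
  have h1 : R13_Q a b c d (e0 * (1 / 2) - e1 * t) (e0 * t + e1 * (1 / 2)) =
      (e0 ^ 2 / 4 + 3 / 4 * e1 ^ 2) * b - (3 / 4 * e0 ^ 2 + e1 ^ 2 / 4) * c
        - e0 * e1 / 2 * (d - a)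
        + t * (- e0 * e1 * b + (e0 ^ 2 / 2 - e1 ^ 2 / 2) * (d - a) - e0 * e1 * c) := by
    unfold R13_Q
    linear_combination (e1 ^ 2 * b - e0 * e1 * (d - a) - e0 ^ 2 * c) * ht
  have h2 : R13_Q a b c d (e0 * (-1 / 2) - e1 * t) (e0 * t + e1 * (-1 / 2)) =
      (e0 ^ 2 / 4 + 3 / 4 * e1 ^ 2) * b - (3 / 4 * e0 ^ 2 + e1 ^ 2 / 4) * c
        - e0 * e1 / 2 * (d - a)
        - t * (- e0 * e1 * b + (e0 ^ 2 / 2 - e1 ^ 2 / 2) * (d - a) - e0 * e1 * c) := by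
    unfold R13_Q
    linear_combination (e1 ^ 2 * b - e0 * e1 * (d - a) - e0 ^ 2 * c) * ht
  rw [h1, h2]
  unfold R13_Q
  linear_combination 2 * (- e0 * e1 * b + (e0 ^ 2 / 2 - e1 ^ 2 / 2) * (d - a) - e0 * e1 * c) ^ 2 * ht

private lemma R13_low {a b c d N : ℝ} (hN : N = |a| + |b| + |c| + |d|) (hN4 : N ≤ 1 / 4)
    (htr : a + d = b * c - a * d) :
    N ^ 2 * (127 / 256) ≤ 2 * (b - c) ^ 2 + (b + c) ^ 2 + (d - a) ^ 2 := by
  have ha := sq_abs a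
  have hb := sq_abs b
  have hc := sq_abs c
  have hd := sq_abs d
  have pa := abs_nonneg a
  have pb := abs_nonneg b
  have pc := abs_nonneg c
  have pd := abs_nonneg d
  have hN0 : 0 ≤ N := by rw [hN]; positivity
  set S : ℝ := a ^ 2 + b ^ 2 + c ^ 2 + d ^ 2 with hS
  have hS0 : 0 ≤ S := by positivity
  have hNS : N ^ 2 ≤ 4 * S := by
    rw [hN, hS, ← ha, ← hb, ← hc, ← hd]
    nlinarith [sq_nonneg (|a| - |b|), sq_nonneg (|a| - |c|), sq_nonneg (|a| - |d|),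
      sq_nonneg (|b| - |c|), sq_nonneg (|b| - |d|), sq_nonneg (|c| - |d|)]
  have hSN : S ≤ N ^ 2 := by
    rw [hN, hS, ← ha, ← hb, ← hc, ← hd]
    nlinarith [mul_nonneg pa pb, mul_nonneg pa pc, mul_nonneg pa pd, mul_nonneg pb pc,
      mul_nonneg pb pd, mul_nonneg pc pd]
  have hN2 : N ^ 2 ≤ 1 / 16 := by nlinarith
  have hτ : (a + d) ^ 2 ≤ S ^ 2 / 4 := by
    rw [htr]
    have h1 : b * c - a * d ≤ S / 2 := by
      rw [hS]; nlinarith [sq_nonneg (b - c), sq_nonneg (a + d)]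
    have h2 : -(S / 2) ≤ b * c - a * d := by
      rw [hS]; nlinarith [sq_nonneg (b + c), sq_nonneg (a - d)]
    nlinarith
  have hS16 : S ≤ 1 / 16 := hSN.trans hN2
  have hS2 : S ^ 2 ≤ S / 16 := by nlinarith
  nlinarith [sq_nonneg (b - c)]

private lemma R13_rho {e0 e1 f0 f1 R : ℝ} (hdet : e0 * f1 - e1 * f0 = 1)
    (hR : |e0| + |e1| + |f0| + |f1| ≤ R) : 1 ≤ (e0 ^ 2 + e1 ^ 2) * R ^ 2 := by
  have pe0 := abs_nonneg e0
  have pe1 := abs_nonneg e1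
  have pf0 := abs_nonneg f0
  have pf1 := abs_nonneg f1
  have hf0 := sq_abs f0
  have hf1 := sq_abs f1
  have hf : f0 ^ 2 + f1 ^ 2 ≤ R ^ 2 := by
    have h1 : |f0| + |f1| ≤ R := by linarith
    have h2 : (|f0| + |f1|) ^ 2 ≤ R ^ 2 := pow_le_pow_left₀ (by positivity) h1 2
    nlinarith [mul_nonneg pf0 pf1]
  have hL : (e0 ^ 2 + e1 ^ 2) * (f0 ^ 2 + f1 ^ 2) = 1 + (e0 * f0 + e1 * f1) ^ 2 := by
    linear_combination (e0 * f1 - e1 * f0 + 1) * hdet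
  have hE : 0 ≤ e0 ^ 2 + e1 ^ 2 := by positivity
  nlinarith [mul_le_mul_of_nonneg_left hf hE, sq_nonneg (e0 * f0 + e1 * f1)]

private lemma R13_pick {Q0 Q1 Q2 N ρ R : ℝ} (hR : 0 < R) (hN : 0 ≤ N) (hρ : 1 ≤ ρ * R ^ 2)
    (h : 3 / 8 * ρ ^ 2 * (N ^ 2 * (127 / 256)) ≤ Q0 ^ 2 + Q1 ^ 2 + Q2 ^ 2) :
    N / (6 * R ^ 2) ≤ |Q0| ∨ N / (6 * R ^ 2) ≤ |Q1| ∨ N / (6 * R ^ 2) ≤ |Q2| := by
  by_contra hcon
  push Not at hcon
  obtain ⟨h0, h1, h2⟩ := hcon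
  have hR2 : 0 < R ^ 2 := by positivity
  have hpos : 0 ≤ N / (6 * R ^ 2) := by positivity
  have s0 : Q0 ^ 2 ≤ (N / (6 * R ^ 2)) ^ 2 := by
    rw [← sq_abs Q0]; exact pow_le_pow_left₀ (abs_nonneg _) h0.le 2
  have s1 : Q1 ^ 2 ≤ (N / (6 * R ^ 2)) ^ 2 := by
    rw [← sq_abs Q1]; exact pow_le_pow_left₀ (abs_nonneg _) h1.le 2
  have s2 : Q2 ^ 2 < (N / (6 * R ^ 2)) ^ 2 := by
    rw [← sq_abs Q2]; exact pow_lt_pow_left₀ h2 (abs_nonneg _) (by norm_num)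
  have hsum : 3 / 8 * ρ ^ 2 * (N ^ 2 * (127 / 256)) < 3 * (N / (6 * R ^ 2)) ^ 2 := by linarith
  have e : (N / (6 * R ^ 2)) ^ 2 = N ^ 2 / (36 * R ^ 4) := by
    field_simp; ring
  rw [e] at hsum
  have hR4 : 0 < R ^ 4 := by positivity
  have h3 : 3 * (N ^ 2 / (36 * R ^ 4)) = N ^ 2 / 12 / R ^ 4 := by
    field_simp; ring
  rw [h3, lt_div_iff₀ hR4] at hsum
  have h4 : 1 ≤ (ρ * R ^ 2) ^ 2 := by nlinarith
  have h5 : 3 / 8 * ρ ^ 2 * (N ^ 2 * (127 / 256)) * R ^ 4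
      = (3 / 8 * (127 / 256)) * N ^ 2 * (ρ * R ^ 2) ^ 2 := by ring
  rw [h5] at hsum
  nlinarith [mul_le_mul_of_nonneg_left h4 (sq_nonneg N), sq_nonneg N]

private lemma R13_nM_add (X Y : Matrix (Fin 2) (Fin 2) ℝ) : nM (X + Y) ≤ nM X + nM Y := by
  have h := nM_sub_le (X + Y) X
  rwa [add_sub_cancel_left] at h

private lemma R13_nM_inv_sub (v w : SL2R) :
    nM (((v⁻¹ : SL2R) : Matrix (Fin 2) (Fin 2) ℝ) - ((w⁻¹ : SL2R) : Matrix (Fin 2) (Fin 2) ℝ))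
      = nM ((v : Matrix (Fin 2) (Fin 2) ℝ) - (w : Matrix (Fin 2) (Fin 2) ℝ)) := by
  unfold nM
  rw [Matrix.SpecialLinearGroup.coe_inv, Matrix.SpecialLinearGroup.coe_inv,
    Matrix.adjugate_fin_two, Matrix.adjugate_fin_two]
  simp only [Matrix.sub_apply, Matrix.of_apply, Matrix.cons_val', Matrix.cons_val_zero,
    Matrix.cons_val_one, Matrix.cons_val_fin_one]
  rw [show -v.1 0 1 - -w.1 0 1 = -(v.1 0 1 - w.1 0 1) by ring,
    show -v.1 1 0 - -w.1 1 0 = -(v.1 1 0 - w.1 1 0) by ring, abs_neg, abs_neg]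
  ring

private lemma R13_entry_le (X : Matrix (Fin 2) (Fin 2) ℝ) : |X 0 1| ≤ nM X := by
  unfold nM
  have p0 := abs_nonneg (X 0 0)
  have p1 := abs_nonneg (X 0 1)
  have p2 := abs_nonneg (X 1 0)
  have p3 := abs_nonneg (X 1 1)
  linarith

private lemma R13_conj (m g : SL2R) :
    (m * g * m⁻¹ : SL2R) 0 1 = ((m : Matrix (Fin 2) (Fin 2) ℝ) *
      ((g : Matrix (Fin 2) (Fin 2) ℝ) - 1) * ((m⁻¹ : SL2R) : Matrix (Fin 2) (Fin 2) ℝ)) 0 1 := by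
  have h1 : (m : Matrix (Fin 2) (Fin 2) ℝ) * ((m⁻¹ : SL2R) : Matrix (Fin 2) (Fin 2) ℝ) = 1 := by
    rw [← Matrix.SpecialLinearGroup.coe_mul, mul_inv_cancel, Matrix.SpecialLinearGroup.coe_one]
  rw [mul_sub, sub_mul, mul_one, h1]
  rw [Matrix.sub_apply, Matrix.one_apply_ne (by decide : (0 : Fin 2) ≠ 1), sub_zero,
    ← Matrix.SpecialLinearGroup.coe_mul, ← Matrix.SpecialLinearGroup.coe_mul]

private lemma R13_conj_Q (m : SL2R) (X : Matrix (Fin 2) (Fin 2) ℝ) :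
    ((m : Matrix (Fin 2) (Fin 2) ℝ) * X * ((m⁻¹ : SL2R) : Matrix (Fin 2) (Fin 2) ℝ)) 0 1
      = R13_Q (X 0 0) (X 0 1) (X 1 0) (X 1 1) (m 0 0) (m 0 1) := by
  unfold R13_Q
  rw [Matrix.SpecialLinearGroup.coe_inv, Matrix.adjugate_fin_two]
  simp [Matrix.mul_apply, Fin.sum_univ_two]
  ring

private lemma R13_pert {y v V : SL2R} {X : Matrix (Fin 2) (Fin 2) ℝ} {R δ : ℝ} (hy : nS y ≤ R)
    (hδ1 : δ ≤ 1) (hv : nM ((v : Matrix (Fin 2) (Fin 2) ℝ) - (V : Matrix (Fin 2) (Fin 2) ℝ)) ≤ δ)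
    (hV : nS V ≤ 3) :
    |(((y * v : SL2R) : Matrix (Fin 2) (Fin 2) ℝ) * X *
        (((y * v)⁻¹ : SL2R) : Matrix (Fin 2) (Fin 2) ℝ)) 0 1
      - (((y * V : SL2R) : Matrix (Fin 2) (Fin 2) ℝ) * X *
        (((y * V)⁻¹ : SL2R) : Matrix (Fin 2) (Fin 2) ℝ)) 0 1| ≤ 7 * R ^ 2 * δ * nM X := by
  have hX := nM_nonneg X
  have hδ0 : 0 ≤ δ := (nM_nonneg _).trans hv
  have hvS : nS v ≤ 4 := by
    have := nM_sub_le (v : Matrix (Fin 2) (Fin 2) ℝ) (V : Matrix (Fin 2) (Fin 2) ℝ)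
    have h2 : nM (V : Matrix (Fin 2) (Fin 2) ℝ) ≤ 3 := hV
    have h3 : nM (v : Matrix (Fin 2) (Fin 2) ℝ) = nS v := rfl
    linarith
  rw [← Matrix.sub_apply]
  refine (R13_entry_le _).trans ?_
  have e : ((y * v : SL2R) : Matrix (Fin 2) (Fin 2) ℝ) * X *
        (((y * v)⁻¹ : SL2R) : Matrix (Fin 2) (Fin 2) ℝ)
      - ((y * V : SL2R) : Matrix (Fin 2) (Fin 2) ℝ) * X *
        (((y * V)⁻¹ : SL2R) : Matrix (Fin 2) (Fin 2) ℝ)
      = (y : Matrix (Fin 2) (Fin 2) ℝ) *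
        ((((v : Matrix (Fin 2) (Fin 2) ℝ) - (V : Matrix (Fin 2) (Fin 2) ℝ)) * X *
            ((v⁻¹ : SL2R) : Matrix (Fin 2) (Fin 2) ℝ))
          + ((V : Matrix (Fin 2) (Fin 2) ℝ) * X *
            (((v⁻¹ : SL2R) : Matrix (Fin 2) (Fin 2) ℝ)
              - ((V⁻¹ : SL2R) : Matrix (Fin 2) (Fin 2) ℝ)))) *
        ((y⁻¹ : SL2R) : Matrix (Fin 2) (Fin 2) ℝ) := by
    rw [mul_inv_rev, mul_inv_rev]
    simp only [Matrix.SpecialLinearGroup.coe_mul]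
    noncomm_ring
  rw [e]
  have hyS : nM (y : Matrix (Fin 2) (Fin 2) ℝ) ≤ R := hy
  have hyI : nM ((y⁻¹ : SL2R) : Matrix (Fin 2) (Fin 2) ℝ) ≤ R := by
    have : nM ((y⁻¹ : SL2R) : Matrix (Fin 2) (Fin 2) ℝ) = nS y := nS_inv y
    rw [this]; exact hy
  have hR0 : 0 ≤ R := (nM_nonneg _).trans hyS
  have hvI : nM ((v⁻¹ : SL2R) : Matrix (Fin 2) (Fin 2) ℝ) ≤ 4 := by
    have : nM ((v⁻¹ : SL2R) : Matrix (Fin 2) (Fin 2) ℝ) = nS v := nS_inv v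
    rw [this]; exact hvS
  have hVS : nM (V : Matrix (Fin 2) (Fin 2) ℝ) ≤ 3 := hV
  have hd2 := R13_nM_inv_sub v V
  set D : Matrix (Fin 2) (Fin 2) ℝ := (v : Matrix (Fin 2) (Fin 2) ℝ) -
    (V : Matrix (Fin 2) (Fin 2) ℝ) with hD
  set E : Matrix (Fin 2) (Fin 2) ℝ := ((v⁻¹ : SL2R) : Matrix (Fin 2) (Fin 2) ℝ) -
    ((V⁻¹ : SL2R) : Matrix (Fin 2) (Fin 2) ℝ) with hE
  have hEδ : nM E ≤ δ := by rw [hd2]; exact hv
  have b1 : nM (D * X * ((v⁻¹ : SL2R) : Matrix (Fin 2) (Fin 2) ℝ)) ≤ δ * nM X * 4 := by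
    refine (nM_mul_le _ _).trans ?_
    refine mul_le_mul ?_ hvI (nM_nonneg _) (by positivity)
    refine (nM_mul_le _ _).trans ?_
    exact mul_le_mul_of_nonneg_right hv hX
  have b2 : nM ((V : Matrix (Fin 2) (Fin 2) ℝ) * X * E) ≤ 3 * nM X * δ := by
    refine (nM_mul_le _ _).trans ?_
    refine mul_le_mul ?_ hEδ (nM_nonneg _) (by positivity)
    refine (nM_mul_le _ _).trans ?_
    exact mul_le_mul_of_nonneg_right hVS hX
  have b3 := R13_nM_add (D * X * ((v⁻¹ : SL2R) : Matrix (Fin 2) (Fin 2) ℝ))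
    ((V : Matrix (Fin 2) (Fin 2) ℝ) * X * E)
  set F := D * X * ((v⁻¹ : SL2R) : Matrix (Fin 2) (Fin 2) ℝ)
    + (V : Matrix (Fin 2) (Fin 2) ℝ) * X * E with hF
  have hFle : nM F ≤ 7 * δ * nM X := by linarith
  have hprod := nM_mul_le ((y : Matrix (Fin 2) (Fin 2) ℝ) * F)
    ((y⁻¹ : SL2R) : Matrix (Fin 2) (Fin 2) ℝ)
  have hprod2 := nM_mul_le (y : Matrix (Fin 2) (Fin 2) ℝ) F
  have hF0 := nM_nonneg F
  have g1 : nM ((y : Matrix (Fin 2) (Fin 2) ℝ) * F) ≤ R * (7 * δ * nM X) :=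
    hprod2.trans (mul_le_mul hyS hFle hF0 hR0)
  have g2 : nM ((y : Matrix (Fin 2) (Fin 2) ℝ) * F * ((y⁻¹ : SL2R) : Matrix (Fin 2) (Fin 2) ℝ))
      ≤ (R * (7 * δ * nM X)) * R :=
    hprod.trans (mul_le_mul g1 hyI (nM_nonneg _) (by positivity))
  calc _ ≤ _ := g2
    _ = _ := by ring

private lemma R13_row (y : SL2R) (θ : ℝ) :
    (y * kk θ : SL2R) 0 0 = y 0 0 * Real.cos θ - y 0 1 * Real.sin θ ∧
    (y * kk θ : SL2R) 0 1 = y 0 0 * Real.sin θ + y 0 1 * Real.cos θ := by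
  constructor
  · rw [Matrix.SpecialLinearGroup.coe_mul, Matrix.mul_apply, Fin.sum_univ_two]
    unfold kk
    simp
    ring
  · rw [Matrix.SpecialLinearGroup.coe_mul, Matrix.mul_apply, Fin.sum_univ_two]
    unfold kk
    simp

private lemma R13_cos2 : Real.cos (2 * (Real.pi / 3)) = -1 / 2 := by
  rw [Real.cos_two_mul, Real.cos_pi_div_three]; norm_num

private lemma R13_sin2 : Real.sin (2 * (Real.pi / 3)) = Real.sin (Real.pi / 3) := by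
  rw [Real.sin_two_mul, Real.cos_pi_div_three]; ring

theorem span {y g : SL2R} {R δ : ℝ} (hy : nS y ≤ R) (v : Fin 3 → SL2R)
    (hv : ∀ j : Fin 3, nM ((v j : Matrix (Fin 2) (Fin 2) ℝ)
      - (kk ((j : ℕ) * (Real.pi / 3)) : Matrix (Fin 2) (Fin 2) ℝ)) ≤ δ)
    (hδ : δ ≤ 1 / (10 ^ 4 * R ^ 4)) (hg : d1 g ≤ 1 / 4) :
    ∃ j : Fin 3, d1 g / (12 * R ^ 2) ≤ |(y * v j * g * (v j)⁻¹ * y⁻¹) 0 1| := by
  have hR2 : 2 ≤ R := (two_le_nS y).trans hy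
  have hR : 0 < R := by linarith
  set X : Matrix (Fin 2) (Fin 2) ℝ := (g : Matrix (Fin 2) (Fin 2) ℝ) - 1 with hX
  have hdX : d1 g = nM X := rfl
  have hN0 : 0 ≤ nM X := nM_nonneg X
  rw [hdX] at hg ⊢
  have x00 : X 0 0 = g 0 0 - 1 := by rw [hX]; simp
  have x01 : X 0 1 = g 0 1 := by rw [hX]; simp
  have x10 : X 1 0 = g 1 0 := by rw [hX]; simp
  have x11 : X 1 1 = g 1 1 - 1 := by rw [hX]; simp
  have htr : X 0 0 + X 1 1 = X 0 1 * X 1 0 - X 0 0 * X 1 1 := by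
    rw [x00, x01, x10, x11]
    have := det_eq g
    linarith [(by ring : (g 0 0 - 1) * (g 1 1 - 1) = g 0 0 * g 1 1 - g 0 0 - g 1 1 + 1)]
  have hlow := R13_low (N := nM X) (a := X 0 0) (b := X 0 1) (c := X 1 0) (d := X 1 1) rfl hg htr
  have hρ := R13_rho (e0 := y 0 0) (e1 := y 0 1) (f0 := y 1 0) (f1 := y 1 1) (R := R)
    (det_eq y) hy
  have ht : Real.sin (Real.pi / 3) ^ 2 = 3 / 4 := by
    rw [Real.sin_pi_div_three, div_pow, Real.sq_sqrt (by norm_num)]; norm_num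
  have hsum := R13_sum (X 0 0) (X 0 1) (X 1 0) (X 1 1) (y 0 0) (y 0 1)
    (Real.sin (Real.pi / 3)) ht
  -- the main terms
  have key : ∀ j : Fin 3, ∀ p q : ℝ,
      (y * kk ((j : ℕ) * (Real.pi / 3)) : SL2R) 0 0 = p →
      (y * kk ((j : ℕ) * (Real.pi / 3)) : SL2R) 0 1 = q →
      nM X / (6 * R ^ 2) ≤ |R13_Q (X 0 0) (X 0 1) (X 1 0) (X 1 1) p q| →
      nM X / (12 * R ^ 2) ≤ |(y * v j * g * (v j)⁻¹ * y⁻¹) 0 1| := by
    intro j p q hp hq hQ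
    have hδ1 : δ ≤ 1 := by
      refine hδ.trans ?_
      rw [div_le_one (by positivity)]
      have : 1 ≤ R ^ 4 := one_le_pow₀ (by linarith)
      nlinarith
    have hpert := R13_pert (X := X) hy hδ1 (hv j)
      ((nS_kk ((j : ℕ) * (Real.pi / 3))).trans (by norm_num))
    rw [R13_conj_Q (y * kk _) X, hp, hq] at hpert
    have e : (y * v j * g * (v j)⁻¹ * y⁻¹ : SL2R) = (y * v j) * g * (y * v j)⁻¹ := by group
    rw [e, R13_conj, ← hX]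
    set A := (((y * v j : SL2R) : Matrix (Fin 2) (Fin 2) ℝ) * X *
        (((y * v j)⁻¹ : SL2R) : Matrix (Fin 2) (Fin 2) ℝ)) 0 1 with hA
    set B := R13_Q (X 0 0) (X 0 1) (X 1 0) (X 1 1) p q with hB
    have h7 : 7 * R ^ 2 * δ * nM X ≤ nM X / (12 * R ^ 2) := by
      have h8 : 7 * R ^ 2 * δ ≤ 1 / (12 * R ^ 2) := by
        have h9 : 7 * R ^ 2 * δ ≤ 7 * R ^ 2 * (1 / (10 ^ 4 * R ^ 4)) :=
          mul_le_mul_of_nonneg_left hδ (by positivity)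
        refine h9.trans ?_
        have e1 : 7 * R ^ 2 * (1 / (10 ^ 4 * R ^ 4)) = (7 / 10 ^ 4) * (1 / R ^ 2) := by
          field_simp
        have e2 : 1 / (12 * R ^ 2) = (1 / 12) * (1 / R ^ 2) := by
          field_simp
        rw [e1, e2]
        refine mul_le_mul_of_nonneg_right (by norm_num) (by positivity)
      calc 7 * R ^ 2 * δ * nM X ≤ 1 / (12 * R ^ 2) * nM X :=
            mul_le_mul_of_nonneg_right h8 hN0
        _ = _ := by ring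
    have h10 : |B| ≤ |A| + |A - B| := by
      have := abs_sub_abs_le_abs_sub B A
      rw [abs_sub_comm B A] at this
      linarith
    have h11 : nM X / (6 * R ^ 2) = nM X / (12 * R ^ 2) + nM X / (12 * R ^ 2) := by
      field_simp; ring
    linarith
  have h0 := R13_row y ((0 : ℕ) * (Real.pi / 3))
  have h1 := R13_row y ((1 : ℕ) * (Real.pi / 3))
  have h2 := R13_row y ((2 : ℕ) * (Real.pi / 3))
  simp only [Nat.cast_zero, zero_mul, Real.cos_zero, Real.sin_zero, mul_one, mul_zero, sub_zero,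
    zero_add] at h0
  simp only [Nat.cast_one, one_mul, Real.cos_pi_div_three] at h1
  simp only [Nat.cast_ofNat, R13_cos2, R13_sin2] at h2
  have hle : 3 / 8 * ((y 0 0) ^ 2 + (y 0 1) ^ 2) ^ 2 * (nM X ^ 2 * (127 / 256)) ≤
      R13_Q (X 0 0) (X 0 1) (X 1 0) (X 1 1) (y 0 0) (y 0 1) ^ 2 +
      R13_Q (X 0 0) (X 0 1) (X 1 0) (X 1 1) (y 0 0 * (1 / 2) - y 0 1 * Real.sin (Real.pi / 3))
        (y 0 0 * Real.sin (Real.pi / 3) + y 0 1 * (1 / 2)) ^ 2 +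
      R13_Q (X 0 0) (X 0 1) (X 1 0) (X 1 1) (y 0 0 * (-1 / 2) - y 0 1 * Real.sin (Real.pi / 3))
        (y 0 0 * Real.sin (Real.pi / 3) + y 0 1 * (-1 / 2)) ^ 2 := by
    rw [hsum]
    exact mul_le_mul_of_nonneg_left hlow (by positivity)
  rcases R13_pick hR hN0 hρ hle with h | h | h
  · exact ⟨0, key 0 _ _ (by simpa using h0.1) (by simpa using h0.2) h⟩
  · exact ⟨1, key 1 _ _ (by simpa using h1.1) (by simpa using h1.2) h⟩
  · exact ⟨2, key 2 _ _ (by simpa using h2.1) (by simpa using h2.2) h⟩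

end Pool.Agent.SZ.PR
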