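import Mathlib
import Pool.Agent.SZ.R3b

/-!
# SZ part R: the local martingale inequality (R3)

For every point `z`, every radius and all `k0 ≤ K`, the integral of `(M K x)^2` over a ball of the
local coordinate is at most the one of `(M k0 x)^2` plus a quarter of the sum of those of
`(f k x)^2`, `k0 ≤ k < K`, over a three times larger ball.
-/

set_option autoImplicit false
set_option linter.unusedSectionVars false

namespace Pool.Agent.SZ.R3

open Pool.Agent.IRS MeasureTheory Set Filter Topology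

lemma nS_uu_mul (t : ℝ) (b : SL2R) : nS (uu t * b) ≤ (1 + |t|) * nS b := by
  unfold nS nM
  have e00 : (uu t * b) 0 0 = b 0 0 + t * b 1 0 := by
    rw [Matrix.SpecialLinearGroup.coe_mul, Matrix.mul_apply, Fin.sum_univ_two]; simp
  have e01 : (uu t * b) 0 1 = b 0 1 + t * b 1 1 := by
    rw [Matrix.SpecialLinearGroup.coe_mul, Matrix.mul_apply, Fin.sum_univ_two]; simp
  have e10 : (uu t * b) 1 0 = b 1 0 := by
    rw [Matrix.SpecialLinearGroup.coe_mul, Matrix.mul_apply, Fin.sum_univ_two]; simp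
  have e11 : (uu t * b) 1 1 = b 1 1 := by
    rw [Matrix.SpecialLinearGroup.coe_mul, Matrix.mul_apply, Fin.sum_univ_two]; simp
  have h0 : |b 0 0 + t * b 1 0| ≤ |b 0 0| + |t| * |b 1 0| := by
    rw [← abs_mul]; exact abs_add_le _ _
  have h1 : |b 0 1 + t * b 1 1| ≤ |b 0 1| + |t| * |b 1 1| := by
    rw [← abs_mul]; exact abs_add_le _ _
  rw [e00, e01, e10, e11]
  nlinarith [abs_nonneg t, abs_nonneg (b 0 0), abs_nonneg (b 0 1),
    mul_nonneg (abs_nonneg t) (abs_nonneg (b 0 0)), mul_nonneg (abs_nonneg t) (abs_nonneg (b 0 1))]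

lemma meas_Bn' (R : ℝ) : MeasurableSet (Bn R) := measurableSet_le measurable_nS measurable_const

lemma mp_left' (g : SL2R) : MeasurePreserving (fun x => g * x) mH mH :=
  ⟨measurable_const_mul g, mH_left g⟩

/-- Bounded measurable functions are integrable on balls. -/
lemma int_Bn {G : SL2R → ℝ} (hG : Measurable G) {M : ℝ} (hM : ∀ b, |G b| ≤ M) (R : ℝ) :
    IntegrableOn G (Bn R) mH := by
  haveI : IsFiniteMeasure (mH.restrict (Bn R)) :=
    ⟨by rw [Measure.restrict_apply_univ]; exact mH_ball_lt R⟩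
  exact integrable_of_bdd (mH.restrict (Bn R)) hG hM

lemma shift_uu {G : SL2R → ℝ} (hG : Measurable G) (h0 : ∀ b, 0 ≤ G b) {M : ℝ} (hM : ∀ b, |G b| ≤ M)
    (R t : ℝ) (hR : 0 ≤ R) :
    ∫ b in Bn R, G b ∂mH ≤ ∫ b in Bn ((1 + |t|) * R), G (uu t * b) ∂mH := by
  have h1 : ∫ b in Bn R, G b ∂mH
      = ∫ b, (Bn R).indicator G (uu t * b) ∂mH := by
    rw [← integral_indicator (meas_Bn' R)]
    have := (mp_left' (uu t)).integral_comp' (g := (Bn R).indicator G)
      (f := MeasurableEquiv.mulLeft (uu t))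
    exact this.symm
  rw [h1, ← integral_indicator (meas_Bn' _)]
  have i1 : Integrable ((Bn ((1 + |t|) * R)).indicator fun b => G (uu t * b)) mH :=
    (integrable_indicator_iff (meas_Bn' _)).2
      (int_Bn (hG.comp (measurable_const_mul _)) (fun b => hM _) _)
  refine integral_mono_of_nonneg (Filter.Eventually.of_forall fun b => ?_) i1
    (Filter.Eventually.of_forall fun b => ?_)
  · exact indicator_nonneg (fun x _ => h0 x) _
  · by_cases hb : uu t * b ∈ Bn R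
    · have hb2 : b ∈ Bn ((1 + |t|) * R) := by
        have e : b = uu (-t) * (uu t * b) := by
          rw [← mul_assoc, ← uu_add, neg_add_cancel, uu_zero, one_mul]
        have h2 := nS_uu_mul (-t) (uu t * b)
        rw [← e, abs_neg] at h2
        exact h2.trans (mul_le_mul_of_nonneg_left hb (by positivity))
      simp only
      rw [indicator_of_mem hb, indicator_of_mem hb2]
    · simp only
      rw [indicator_of_notMem hb]
      exact indicator_nonneg (fun x _ => h0 _) _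

section

variable {Z : Type*} [MeasurableSpace Z] {ζ : Measure Z} [SigmaFinite ζ] (a : PAct SL2R ζ)

lemma orb_meas (f : BL2 ζ) (z : Z) : Measurable (fun b : SL2R => (f : Z → ℝ) (a.τ b z)) :=
  a.meas_sec (bmeas f) z

lemma orb_sq (f : BL2 ζ) (z : Z) : Measurable (fun b : SL2R => (f : Z → ℝ) (a.τ b z) ^ 2)
    ∧ (∀ b : SL2R, 0 ≤ (f : Z → ℝ) (a.τ b z) ^ 2)
    ∧ ∃ M, ∀ b : SL2R, |(f : Z → ℝ) (a.τ b z) ^ 2| ≤ M := by
  obtain ⟨M, hM⟩ := bbdd f
  refine ⟨(orb_meas a f z).pow_const 2, fun b => sq_nonneg _, M ^ 2, fun b => ?_⟩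
  rw [abs_pow]
  exact pow_le_pow_left₀ (abs_nonneg _) (hM _) 2

/-- The integral of the square along the orbit, over a ball. -/
noncomputable def lq (f : BL2 ζ) (z : Z) (R : ℝ) : ℝ := ∫ b in Bn R, (f : Z → ℝ) (a.τ b z) ^ 2 ∂mH

lemma lq_nonneg (f : BL2 ζ) (z : Z) (R : ℝ) : 0 ≤ lq a f z R :=
  integral_nonneg fun b => sq_nonneg _

lemma lq_int (f : BL2 ζ) (z : Z) (R : ℝ) :
    IntegrableOn (fun b : SL2R => (f : Z → ℝ) (a.τ b z) ^ 2) (Bn R) mH := by
  obtain ⟨h1, -, M, hM⟩ := orb_sq a f z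
  exact int_Bn h1 hM R

lemma lq_mono (f : BL2 ζ) (z : Z) {R R' : ℝ} (h : R ≤ R') : lq a f z R ≤ lq a f z R' := by
  refine setIntegral_mono_set (lq_int a f z R')
    (Filter.Eventually.of_forall fun b => sq_nonneg _) ?_
  exact HasSubset.Subset.eventuallyLE fun b (hb : nS b ≤ R) => hb.trans h

/-- One step. -/
lemma lq_step (k : ℕ) (x : BL2 ζ) (z : Z) {R : ℝ} (hR : 0 ≤ R) :
    lq a (Mk a (k + 1) x) z R ≤ lq a (Mk a k x) z ((1 + hk (k + 1)) * R)
      + 4⁻¹ * lq a (dyf (Wk a) (Mk a) k x) z ((1 + hk (k + 1)) * R) := by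
  set R' : ℝ := (1 + hk (k + 1)) * R with hR'
  have hh := hk_pos (k + 1)
  obtain ⟨m1, n1, M, hM⟩ := orb_sq a (Mk a (k + 1) x) z
  have habs : |hk (k + 1)| = hk (k + 1) := abs_of_pos hh
  have h1 := shift_uu m1 n1 hM R (hk (k + 1)) hR
  rw [habs, ← hR'] at h1
  have h2 : lq a (Mk a (k + 1) x) z R ≤ lq a (Mk a (k + 1) x) z R' :=
    lq_mono a _ z (by rw [hR']; nlinarith)
  have e1 : ∀ b : SL2R, ((Mk a k x : BL2 ζ) : Z → ℝ) (a.τ b z)
      = 2⁻¹ * (((Mk a (k + 1) x : BL2 ζ) : Z → ℝ) (a.τ b z)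
        + ((Mk a (k + 1) x : BL2 ζ) : Z → ℝ) (a.τ (uu (hk (k + 1)) * b) z)) := by
    intro b
    have := (dyCh a).M_eq k x
    rw [this, a.mul]
    rfl
  have e2 : ∀ b : SL2R, ((dyf (Wk a) (Mk a) k x : BL2 ζ) : Z → ℝ) (a.τ b z)
      = ((Mk a (k + 1) x : BL2 ζ) : Z → ℝ) (a.τ (uu (hk (k + 1)) * b) z)
        - ((Mk a (k + 1) x : BL2 ζ) : Z → ℝ) (a.τ b z) := by
    intro b
    rw [a.mul]
    rfl
  have i1 := lq_int a (Mk a k x) z R'
  have i2 := lq_int a (dyf (Wk a) (Mk a) k x) z R'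
  have i3 := lq_int a (Mk a (k + 1) x) z R'
  have i4 : IntegrableOn (fun b : SL2R =>
      ((Mk a (k + 1) x : BL2 ζ) : Z → ℝ) (a.τ (uu (hk (k + 1)) * b) z) ^ 2) (Bn R') mH :=
    int_Bn (m1.comp (measurable_const_mul (uu (hk (k + 1))))) (fun b => hM _) R'
  have h3 : lq a (Mk a k x) z R' + 4⁻¹ * lq a (dyf (Wk a) (Mk a) k x) z R'
      = 2⁻¹ * (lq a (Mk a (k + 1) x) z R' + ∫ b in Bn R',
        ((Mk a (k + 1) x : BL2 ζ) : Z → ℝ) (a.τ (uu (hk (k + 1)) * b) z) ^ 2 ∂mH) := by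
    unfold lq
    rw [← integral_const_mul, ← integral_add i1 (i2.const_mul _), ← integral_add i3 i4,
      ← integral_const_mul]
    refine integral_congr_ae (Filter.Eventually.of_forall fun b => ?_)
    simp only
    rw [e1 b, e2 b]
    ring
  have h4 : lq a (Mk a (k + 1) x) z R ≤ ∫ b in Bn R',
        ((Mk a (k + 1) x : BL2 ζ) : Z → ℝ) (a.τ (uu (hk (k + 1)) * b) z) ^ 2 ∂mH := h1
  rw [h3]
  linarith

/-- Radius factors. -/
noncomputable def rf (k0 K : ℕ) : ℝ := ∏ i ∈ Finset.Ico k0 K, (1 + hk (i + 1))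

lemma rf_pos (k0 K : ℕ) : 0 < rf k0 K :=
  Finset.prod_pos fun i _ => by have := hk_pos (i + 1); linarith

lemma one_le_rf (k0 K : ℕ) : 1 ≤ rf k0 K := by
  unfold rf
  induction K with
  | zero => simp
  | succ K ih =>
    rcases le_or_gt k0 K with h | h
    · rw [Finset.prod_Ico_succ_top h]
      have := hk_pos (K + 1)
      nlinarith
    · rw [Finset.Ico_eq_empty_of_le (by omega), Finset.prod_empty]

lemma rf_le (k0 K : ℕ) : rf k0 K ≤ 3 := by
  have h1 : rf k0 K ≤ Real.exp (∑ i ∈ Finset.Ico k0 K, hk (i + 1)) := by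
    rw [Real.exp_sum]
    refine Finset.prod_le_prod (fun i _ => by have := hk_pos (i + 1); linarith) fun i _ => ?_
    have := Real.add_one_le_exp (hk (i + 1))
    linarith
  have h2 : ∑ i ∈ Finset.Ico k0 K, hk (i + 1) ≤ 1 := by
    have h3 : ∑ i ∈ Finset.Ico k0 K, hk (i + 1) ≤ ∑ i ∈ Finset.range K, hk (i + 1) := by
      refine Finset.sum_le_sum_of_subset_of_nonneg ?_ fun i _ _ => (hk_pos _).le
      intro i hi
      exact Finset.mem_range.2 (Finset.mem_Ico.1 hi).2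
    refine h3.trans ?_
    have h4 : ∀ K : ℕ, ∑ i ∈ Finset.range K, hk (i + 1) = 1 - hk K := by
      intro K
      induction K with
      | zero => simp [hk]
      | succ K ih => rw [Finset.sum_range_succ, ih]; have := hk_succ K; linarith
    rw [h4]
    have := hk_pos K
    linarith
  refine h1.trans ((Real.exp_le_exp.2 h2).trans ?_)
  have := Real.exp_one_lt_d9
  linarith

lemma loc_mart_aux (k0 K : ℕ) (hK : k0 ≤ K) (x : BL2 ζ) (z : Z) : ∀ {R : ℝ}, 0 ≤ R →
    lq a (Mk a K x) z R ≤ lq a (Mk a k0 x) z (rf k0 K * R)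
      + 4⁻¹ * ∑ k ∈ Finset.Ico k0 K, lq a (dyf (Wk a) (Mk a) k x) z (rf k0 K * R) := by
  induction K, hK using Nat.le_induction with
  | base => intro R _; simp [rf]
  | succ K hK ih =>
    intro R hR
    have hh := hk_pos (K + 1)
    have hR' : 0 ≤ (1 + hk (K + 1)) * R := mul_nonneg (by linarith) hR
    have h1 := lq_step a K x z hR
    have h2 := ih hR'
    have e : rf k0 K * ((1 + hk (K + 1)) * R) = rf k0 (K + 1) * R := by
      unfold rf; rw [Finset.prod_Ico_succ_top hK]; ring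
    rw [e] at h2
    have h3 : lq a (dyf (Wk a) (Mk a) K x) z ((1 + hk (K + 1)) * R)
        ≤ lq a (dyf (Wk a) (Mk a) K x) z (rf k0 (K + 1) * R) := by
      refine lq_mono a _ z ?_
      rw [← e]
      exact le_mul_of_one_le_left hR' (one_le_rf k0 K)
    rw [Finset.sum_Ico_succ_top hK]
    linarith

/-- The local martingale inequality. -/
theorem loc_mart (k0 K : ℕ) (hK : k0 ≤ K) (x : BL2 ζ) (z : Z) {R : ℝ} (hR : 0 ≤ R) :
    ∫ b in Bn R, ((Mk a K x : BL2 ζ) : Z → ℝ) (a.τ b z) ^ 2 ∂mH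
      ≤ ∫ b in Bn (3 * R), ((Mk a k0 x : BL2 ζ) : Z → ℝ) (a.τ b z) ^ 2 ∂mH
        + 4⁻¹ * ∑ k ∈ Finset.Ico k0 K, ∫ b in Bn (3 * R),
          ((dyf (Wk a) (Mk a) k x : BL2 ζ) : Z → ℝ) (a.τ b z) ^ 2 ∂mH := by
  have h1 := loc_mart_aux a k0 K hK x z hR
  have h2 : rf k0 K * R ≤ 3 * R := mul_le_mul_of_nonneg_right (rf_le k0 K) hR
  refine h1.trans (add_le_add (lq_mono a _ z h2) ?_)
  exact mul_le_mul_of_nonneg_left (Finset.sum_le_sum fun k _ => lq_mono a _ z h2) (by norm_num)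

end

end Pool.Agent.SZ.R3
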