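import Mathlib
import Pool.Agent.SZ.RDefs
import Pool.Agent.SZ.R01
import Pool.Agent.SZ.R12
import Pool.Agent.SZ.R3c

/-!
# SZ part R, module R14: near invariance under powers

For `q` in the stabiliser: `a.τ q.1 (b.τ q.2 z) = z`, hence `a.τ q.1 z = b.τ q.2⁻¹ z` (apply `b.τ q.2⁻¹`, commute), and
`f (a.τ (y * q.1) z) = f (b.τ q.2⁻¹ (a.τ y z))`.  Let `w = a.τ y z`.
(i) `a.τ v.1⁻¹ z = b.τ v.2 z`, so `f(a.τ (y v.1 g.1^m v.1⁻¹) z) = f(b.τ v.2 (a.τ (y v.1 g.1^m) z))`, which differs from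
`f(a.τ (y v.1 g.1^m) z)` by at most `G(a.τ (y v.1 g.1^m) z)`; integral of the square over `y` in `Bn 36`: `<= Rz a 400 z G` by `Rz_right`
(`nS (v.1 g.1^m) <= 3 * 3`, `36*9 = 324`; `nS (g.1^m) <= 2 + 2 |m| d1 g.1 <= 3`).
(ii) `f(a.τ (y v.1 g.1^m) z) - f(a.τ (y v.1) z)` is the telescoping sum of `|m|` terms `± D(y v.1 g.1^i)`, `D(y) = f(a.τ (y g.1) z) - f(a.τ y z)`,
(`i = 0..m-1`, or `i = -1..m` for negative `m`), each of square integral over `Bn 36` at most `int_{Bn 400} D^2 <= K` (right invariance of `mH`);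
so by Cauchy Schwarz the square integral of the sum is `<= m^2 K <= Λ^2 K`.
(iii) `f(a.τ (y v.1) z) = f(b.τ v.2⁻¹ w)`, differs from `f w` by `<= G w`; square integral `<= Rz a 36 z G <= Rz a 400 z G`.
Total: `(A+B+C)^2 <= 3(A^2+B^2+C^2)`.
-/

set_option autoImplicit false
set_option linter.unusedVariables false
set_option linter.unusedSectionVars false

namespace Pool.Agent.SZ.PR

open Pool.Agent.IRS MeasureTheory Set Filter Topology

lemma NI_shift {F : SL2R → ℝ} (hF : Measurable F) (h0 : ∀ b, 0 ≤ F b) {M : ℝ}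
    (hM : ∀ b, |F b| ≤ M) {R S : ℝ} (hR : 0 ≤ R) {u : SL2R} (hu : nS u ≤ S) :
    ∫ b in Bn R, F (b * u) ∂mH ≤ ∫ b in Bn (R * S), F b ∂mH := by
  have hmp : MeasurePreserving (fun x => x * u) mH mH := ⟨measurable_mul_const u, mH_right u⟩
  have h1 : ∫ b in Bn (R * S), F b ∂mH = ∫ b, (Bn (R * S)).indicator F (b * u) ∂mH := by
    rw [← integral_indicator (R3.meas_Bn' _)]
    have := hmp.integral_comp' (g := (Bn (R * S)).indicator F) (f := MeasurableEquiv.mulRight u)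
    exact this.symm
  have i0 : Integrable ((Bn (R * S)).indicator F) mH :=
    (integrable_indicator_iff (R3.meas_Bn' _)).2 (R3.int_Bn hF hM _)
  have i1 : Integrable (fun b => (Bn (R * S)).indicator F (b * u)) mH :=
    hmp.integrable_comp_of_integrable i0
  rw [h1, ← integral_indicator (R3.meas_Bn' _)]
  refine integral_mono_of_nonneg (Filter.Eventually.of_forall fun b => ?_) i1
    (Filter.Eventually.of_forall fun b => ?_)
  · exact indicator_nonneg (fun x _ => h0 _) _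
  · by_cases hb : b ∈ Bn R
    · have hb2 : b * u ∈ Bn (R * S) := by
        refine (nS_mul_le _ _).trans ?_
        exact mul_le_mul hb hu (nS_pos _).le hR
      simp only
      rw [indicator_of_mem hb, indicator_of_mem hb2]
    · simp only
      rw [indicator_of_notMem hb]
      exact indicator_nonneg (fun x _ => h0 _) _

/-- Telescoping along the powers. -/
lemma NI_tel (φ : SL2R → ℝ) (g : SL2R) (m : ℤ) :
    ∃ (s : Finset ℤ), (s.card : ℤ) = |m| ∧ (∀ k ∈ s, |k| ≤ |m|) ∧ ∀ x : SL2R,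
      (φ (x * g ^ m) - φ x) ^ 2 ≤ s.card * ∑ k ∈ s, (φ (x * g ^ k * g) - φ (x * g ^ k)) ^ 2 := by
  obtain ⟨n, hn | hn⟩ := Int.eq_nat_or_neg m
  · refine ⟨(Finset.range n).map ⟨fun i : ℕ => (i : ℤ), Nat.cast_injective⟩, ?_, ?_, ?_⟩
    · rw [hn]; simp
    · intro k hk
      rw [Finset.mem_map] at hk
      obtain ⟨i, hi, rfl⟩ := hk
      rw [Finset.mem_range] at hi
      simp only [Function.Embedding.coeFn_mk]
      rw [hn, Nat.abs_cast, Nat.abs_cast]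
      exact_mod_cast hi.le
    · intro x
      rw [Finset.sum_map, Finset.card_map, Finset.card_range, hn]
      simp only [Function.Embedding.coeFn_mk]
      have e : φ (x * g ^ (n : ℤ)) - φ x
          = ∑ i ∈ Finset.range n, (φ (x * g ^ (i : ℤ) * g) - φ (x * g ^ (i : ℤ))) := by
        have h1 : ∀ i : ℕ, φ (x * g ^ (i : ℤ) * g) = φ (x * g ^ ((i + 1 : ℕ) : ℤ)) := by
          intro i
          rw [mul_assoc, ← zpow_add_one]; push_cast; rfl
        simp only [h1]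
        rw [Finset.sum_range_sub (fun i : ℕ => φ (x * g ^ (i : ℤ)))]
        simp
      rw [e]
      have := sq_sum_le_card_mul_sum_sq (s := Finset.range n)
        (f := fun i : ℕ => φ (x * g ^ (i : ℤ) * g) - φ (x * g ^ (i : ℤ)))
      rwa [Finset.card_range] at this
  · refine ⟨(Finset.range n).map ⟨fun i : ℕ => -(i : ℤ) - 1, fun i j h => by
      have : (i : ℤ) = j := by simp only at h; linarith
      exact_mod_cast this⟩, ?_, ?_, ?_⟩
    · rw [hn]; simp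
    · intro k hk
      rw [Finset.mem_map] at hk
      obtain ⟨i, hi, rfl⟩ := hk
      rw [Finset.mem_range] at hi
      simp only [Function.Embedding.coeFn_mk]
      rw [hn, abs_neg, Nat.abs_cast, abs_le]
      constructor <;> omega
    · intro x
      rw [Finset.sum_map, Finset.card_map, Finset.card_range, hn]
      simp only [Function.Embedding.coeFn_mk]
      have e : φ (x * g ^ (-(n : ℤ))) - φ x
          = -∑ i ∈ Finset.range n, (φ (x * g ^ (-(i : ℤ) - 1) * g) - φ (x * g ^ (-(i : ℤ) - 1))) := by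
        have h1 : ∀ i : ℕ, φ (x * g ^ (-(i : ℤ) - 1) * g) - φ (x * g ^ (-(i : ℤ) - 1))
            = φ (x * g ^ (-(i : ℤ))) - φ (x * g ^ (-((i + 1 : ℕ) : ℤ))) := by
          intro i
          have e1 : x * g ^ (-(i : ℤ) - 1) * g = x * g ^ (-(i : ℤ)) := by
            rw [mul_assoc, ← zpow_add_one]; congr 2; ring
          have e2 : -((i + 1 : ℕ) : ℤ) = -(i : ℤ) - 1 := by push_cast; ring
          rw [e1, e2]
        simp only [h1]
        have h2 := Finset.sum_range_sub (fun i : ℕ => φ (x * g ^ (-(i : ℤ)))) n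
        have h3 : ∑ i ∈ Finset.range n, (φ (x * g ^ (-(i : ℤ))) - φ (x * g ^ (-((i + 1 : ℕ) : ℤ))))
            = -∑ i ∈ Finset.range n,
              (φ (x * g ^ (-((i + 1 : ℕ) : ℤ))) - φ (x * g ^ (-(i : ℤ)))) := by
          rw [← Finset.sum_neg_distrib]
          exact Finset.sum_congr rfl fun i _ => by ring
        rw [h3, h2]
        simp
      rw [e, neg_sq]
      have := sq_sum_le_card_mul_sum_sq (s := Finset.range n)
        (f := fun i : ℕ => φ (x * g ^ (-(i : ℤ) - 1) * g) - φ (x * g ^ (-(i : ℤ) - 1)))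
      rwa [Finset.card_range] at this

section

variable {Z : Type*} [MeasurableSpace Z] {ζ : Measure Z} [SigmaFinite ζ]

theorem NI (a b : PAct SL2R ζ) (hab : ∀ g h z, a.τ g (b.τ h z) = b.τ h (a.τ g z)) {z : Z}
    {H : Subgroup G2} (hH : ∀ h ∈ H, a.τ h.1 (b.τ h.2 z) = z) {g v : G2} (hg : g ∈ H) (hv : v ∈ H)
    {f G : BL2 ζ} {S : ℝ} (hG : ∀ (q : SL2R) (w : Z), nS q ≤ S →
      |(f : Z → ℝ) (b.τ q w) - (f : Z → ℝ) w| ≤ (G : Z → ℝ) w)
    (hv1 : nS v.1 ≤ 3) (hv2 : nS v.2 ≤ S) {Λ : ℕ} (hΛ : 4 * Λ * d1 g.1 ≤ 1) {K : ℝ}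
    (hK : ∫ y in Bn 400, ((f : Z → ℝ) (a.τ (y * g.1) z) - (f : Z → ℝ) (a.τ y z)) ^ 2 ∂mH ≤ K)
    {m : ℤ} (hm : |m| ≤ Λ) :
    ∫ y in Bn 36, ((f : Z → ℝ) (a.τ (y * v.1 * g.1 ^ m * v.1⁻¹) z) - (f : Z → ℝ) (a.τ y z)) ^ 2 ∂mH
      ≤ 3 * ((Λ : ℝ) ^ 2 * K + 2 * Rz a 400 z G) := by
  obtain ⟨M, hM⟩ := bbdd f
  obtain ⟨N, hN⟩ := bbdd G
  have hφm : Measurable (fun y => (f : Z → ℝ) (a.τ y z)) := a.meas_sec (bmeas f) z
  have hψm : Measurable (fun y => (G : Z → ℝ) (a.τ y z)) := a.meas_sec (bmeas G) z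
  set φ : SL2R → ℝ := fun y => (f : Z → ℝ) (a.τ y z) with hφ
  set ψ : SL2R → ℝ := fun y => (G : Z → ℝ) (a.τ y z) with hψ
  have hφM : ∀ y, |φ y| ≤ M := fun y => hM _
  have hψN : ∀ y, |ψ y| ≤ N := fun y => hN _
  have hφc : ∀ u : SL2R, Measurable (fun y => φ (y * u)) := fun u =>
    hφm.comp (measurable_mul_const u)
  -- norm bounds
  have hpow : ∀ k : ℤ, |k| ≤ Λ → nS (v.1 * g.1 ^ k) ≤ 9 := by
    intro k hk
    have hk' : |(k : ℝ)| ≤ Λ := by exact_mod_cast hk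
    have hd := d1_nonneg g.1
    have h1 : |(k : ℝ)| * d1 g.1 ≤ 1 / 4 := by
      have := mul_le_mul_of_nonneg_right hk' hd
      linarith
    have h2 := d1_zpow g.1 le_rfl k (by linarith)
    have h3 := nS_le_d1 (g.1 ^ k)
    calc nS (v.1 * g.1 ^ k) ≤ nS v.1 * nS (g.1 ^ k) := nS_mul_le _ _
      _ ≤ 3 * 3 := mul_le_mul hv1 (by nlinarith) (nS_pos _).le (by norm_num)
      _ = 9 := by norm_num
  have hvz : a.τ v.1⁻¹ z = b.τ v.2 z := by
    have h1 := hH v hv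
    calc a.τ v.1⁻¹ z = a.τ v.1⁻¹ (a.τ v.1 (b.τ v.2 z)) := by rw [h1]
      _ = b.τ v.2 z := by rw [← a.mul, inv_mul_cancel, a.one]
  have hvz2 : a.τ v.1 z = b.τ v.2⁻¹ z := by
    have h1 := hH v hv
    calc a.τ v.1 z = b.τ v.2⁻¹ (b.τ v.2 (a.τ v.1 z)) := by rw [← b.mul, inv_mul_cancel, b.one]
      _ = b.τ v.2⁻¹ z := by rw [← hab, h1]
  have hA : ∀ y, |φ (y * v.1 * g.1 ^ m * v.1⁻¹) - φ (y * (v.1 * g.1 ^ m))|
      ≤ ψ (y * (v.1 * g.1 ^ m)) := by
    intro y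
    have e : φ (y * v.1 * g.1 ^ m * v.1⁻¹)
        = (f : Z → ℝ) (b.τ v.2 (a.τ (y * (v.1 * g.1 ^ m)) z)) := by
      simp only [hφ]
      rw [mul_assoc y, a.mul, hvz, hab]
    rw [e]
    exact hG v.2 (a.τ (y * (v.1 * g.1 ^ m)) z) hv2
  have hC : ∀ y, |φ (y * v.1) - φ y| ≤ ψ y := by
    intro y
    have e : φ (y * v.1) = (f : Z → ℝ) (b.τ v.2⁻¹ (a.τ y z)) := by
      simp only [hφ]
      rw [a.mul, hvz2, hab]
    rw [e]
    exact hG v.2⁻¹ (a.τ y z) (by rw [nS_inv]; exact hv2)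
  have sq_bd : ∀ {x M : ℝ}, |x| ≤ M → |x ^ 2| ≤ M ^ 2 := fun {x M} h => by
    rw [abs_pow]; exact pow_le_pow_left₀ (abs_nonneg _) h 2
  have sub_bd : ∀ {x y : ℝ}, |x| ≤ M → |y| ≤ M → |x - y| ≤ 2 * M := fun {x y} h1 h2 => by
    rw [abs_le] at h1 h2 ⊢
    constructor <;> linarith [h1.1, h1.2, h2.1, h2.2]
  -- integrability
  have int1 : ∀ u w : SL2R, IntegrableOn (fun y => (φ (y * u) - φ (y * w)) ^ 2) (Bn 36) mH :=
    fun u w => R3.int_Bn (((hφc u).sub (hφc w)).pow_const 2)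
      (fun y => sq_bd (sub_bd (hφM _) (hφM _))) 36
  have int2 : ∀ u : SL2R, IntegrableOn (fun y => ψ (y * u) ^ 2) (Bn 36) mH :=
    fun u => R3.int_Bn ((hψm.comp (measurable_mul_const u)).pow_const 2)
      (fun y => sq_bd (hψN _)) 36
  have IA : ∫ y in Bn 36, (φ (y * v.1 * g.1 ^ m * v.1⁻¹) - φ (y * (v.1 * g.1 ^ m))) ^ 2 ∂mH
      ≤ Rz a 400 z G := by
    have h1 : ∫ y in Bn 36, (φ (y * v.1 * g.1 ^ m * v.1⁻¹) - φ (y * (v.1 * g.1 ^ m))) ^ 2 ∂mH
        ≤ ∫ y in Bn 36, ψ (y * (v.1 * g.1 ^ m)) ^ 2 ∂mH := by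
      refine integral_mono_of_nonneg (Filter.Eventually.of_forall fun y => sq_nonneg _)
        (int2 _) (Filter.Eventually.of_forall fun y => ?_)
      simp only
      rw [← sq_abs]
      exact pow_le_pow_left₀ (abs_nonneg _) (hA y) 2
    refine h1.trans ((Rz_right a (by norm_num : (0 : ℝ) ≤ 36) z G (hpow m hm)).trans ?_)
    exact Rz_mono a (by norm_num) z G
  have i21 : IntegrableOn (fun y => ψ y ^ 2) (Bn 36) mH := by simpa using int2 1
  have IC : ∫ y in Bn 36, (φ (y * v.1) - φ y) ^ 2 ∂mH ≤ Rz a 400 z G := by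
    have h1 : ∫ y in Bn 36, (φ (y * v.1) - φ y) ^ 2 ∂mH ≤ Rz a 36 z G := by
      refine integral_mono_of_nonneg (Filter.Eventually.of_forall fun y => sq_nonneg _)
        i21 (Filter.Eventually.of_forall fun y => ?_)
      simp only
      rw [← sq_abs]
      exact pow_le_pow_left₀ (abs_nonneg _) (hC y) 2
    exact h1.trans (Rz_mono a (by norm_num) z G)
  have hK0 : 0 ≤ K := (integral_nonneg fun y => sq_nonneg _).trans hK
  have ID : ∀ k : ℤ, |k| ≤ Λ → ∫ y in Bn 36, (φ (y * v.1 * g.1 ^ k * g.1)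
      - φ (y * v.1 * g.1 ^ k)) ^ 2 ∂mH ≤ K := by
    intro k hk
    have h1 := NI_shift (F := fun y => (φ (y * g.1) - φ y) ^ 2) (((hφc g.1).sub hφm).pow_const 2)
      (fun y => sq_nonneg _) (fun y => sq_bd (sub_bd (hφM _) (hφM _))) (by norm_num : (0 : ℝ) ≤ 36)
      (hpow k hk)
    have h2 : ∫ y in Bn (36 * 9), (φ (y * g.1) - φ y) ^ 2 ∂mH
        ≤ ∫ y in Bn 400, (φ (y * g.1) - φ y) ^ 2 ∂mH := by
      refine setIntegral_mono_set (R3.int_Bn (((hφc g.1).sub hφm).pow_const 2)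
        (fun y => sq_bd (sub_bd (hφM _) (hφM _))) 400)
        (Filter.Eventually.of_forall fun y => sq_nonneg _) ?_
      refine LE.le.eventuallyLE fun y (hy : nS y ≤ 36 * 9) => ?_
      change nS y ≤ 400
      linarith
    refine le_trans (le_of_eq ?_) (h1.trans (h2.trans hK))
    refine integral_congr_ae (Filter.Eventually.of_forall fun y => ?_)
    simp only [mul_assoc]
  have IB : ∫ y in Bn 36, (φ (y * (v.1 * g.1 ^ m)) - φ (y * v.1)) ^ 2 ∂mH ≤ (Λ : ℝ) ^ 2 * K := by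
    obtain ⟨s, hs1, hs2, hs3⟩ := NI_tel φ g.1 m
    have hk : ∀ k ∈ s, IntegrableOn (fun y => (φ (y * v.1 * g.1 ^ k * g.1)
        - φ (y * v.1 * g.1 ^ k)) ^ 2) (Bn 36) mH := by
      intro k _
      have := int1 (v.1 * g.1 ^ k * g.1) (v.1 * g.1 ^ k)
      simpa only [mul_assoc] using this
    have hc : (s.card : ℝ) ≤ Λ := by
      have h1 : (s.card : ℤ) ≤ Λ := hs1.le.trans hm
      exact_mod_cast h1
    calc ∫ y in Bn 36, (φ (y * (v.1 * g.1 ^ m)) - φ (y * v.1)) ^ 2 ∂mH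
        ≤ ∫ y in Bn 36, (s.card : ℝ) * ∑ k ∈ s, (φ (y * v.1 * g.1 ^ k * g.1)
            - φ (y * v.1 * g.1 ^ k)) ^ 2 ∂mH := by
          refine integral_mono_of_nonneg (Filter.Eventually.of_forall fun y => sq_nonneg _)
            ((integrable_finsetSum _ hk).const_mul _) (Filter.Eventually.of_forall fun y => ?_)
          have := hs3 (y * v.1)
          simp only
          rw [← mul_assoc y]
          exact this
      _ = (s.card : ℝ) * ∑ k ∈ s, ∫ y in Bn 36, (φ (y * v.1 * g.1 ^ k * g.1)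
            - φ (y * v.1 * g.1 ^ k)) ^ 2 ∂mH := by
          rw [integral_const_mul, integral_finsetSum _ hk]
      _ ≤ (s.card : ℝ) * ∑ k ∈ s, K := by
          refine mul_le_mul_of_nonneg_left (Finset.sum_le_sum fun k hk => ?_) (Nat.cast_nonneg _)
          exact ID k ((hs2 k hk).trans hm)
      _ = (s.card : ℝ) ^ 2 * K := by rw [Finset.sum_const, nsmul_eq_mul]; ring
      _ ≤ (Λ : ℝ) ^ 2 * K := by
          refine mul_le_mul_of_nonneg_right ?_ hK0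
          exact pow_le_pow_left₀ (Nat.cast_nonneg _) hc 2
  have hfin : ∀ y, (φ (y * v.1 * g.1 ^ m * v.1⁻¹) - φ y) ^ 2
      ≤ 3 * ((φ (y * v.1 * g.1 ^ m * v.1⁻¹) - φ (y * (v.1 * g.1 ^ m))) ^ 2
        + (φ (y * (v.1 * g.1 ^ m)) - φ (y * v.1)) ^ 2 + (φ (y * v.1) - φ y) ^ 2) := by
    intro y
    nlinarith [sq_nonneg ((φ (y * v.1 * g.1 ^ m * v.1⁻¹) - φ (y * (v.1 * g.1 ^ m)))
        - (φ (y * (v.1 * g.1 ^ m)) - φ (y * v.1))),
      sq_nonneg ((φ (y * (v.1 * g.1 ^ m)) - φ (y * v.1)) - (φ (y * v.1) - φ y)),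
      sq_nonneg ((φ (y * v.1 * g.1 ^ m * v.1⁻¹) - φ (y * (v.1 * g.1 ^ m)))
        - (φ (y * v.1) - φ y))]
  have iA : IntegrableOn (fun y => (φ (y * v.1 * g.1 ^ m * v.1⁻¹)
      - φ (y * (v.1 * g.1 ^ m))) ^ 2) (Bn 36) mH := by
    have := int1 (v.1 * g.1 ^ m * v.1⁻¹) (v.1 * g.1 ^ m)
    simpa only [mul_assoc] using this
  have iB := int1 (v.1 * g.1 ^ m) v.1
  have iC : IntegrableOn (fun y => (φ (y * v.1) - φ y) ^ 2) (Bn 36) mH := by
    simpa using int1 v.1 1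
  have iAB : IntegrableOn (fun y => (φ (y * v.1 * g.1 ^ m * v.1⁻¹) - φ (y * (v.1 * g.1 ^ m))) ^ 2
      + (φ (y * (v.1 * g.1 ^ m)) - φ (y * v.1)) ^ 2) (Bn 36) mH := iA.add iB
  have iABC : IntegrableOn (fun y => (φ (y * v.1 * g.1 ^ m * v.1⁻¹) - φ (y * (v.1 * g.1 ^ m))) ^ 2
      + (φ (y * (v.1 * g.1 ^ m)) - φ (y * v.1)) ^ 2 + (φ (y * v.1) - φ y) ^ 2) (Bn 36) mH :=
    iAB.add iC
  calc ∫ y in Bn 36, (φ (y * v.1 * g.1 ^ m * v.1⁻¹) - φ y) ^ 2 ∂mH
      ≤ ∫ y in Bn 36, 3 * ((φ (y * v.1 * g.1 ^ m * v.1⁻¹) - φ (y * (v.1 * g.1 ^ m))) ^ 2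
        + (φ (y * (v.1 * g.1 ^ m)) - φ (y * v.1)) ^ 2 + (φ (y * v.1) - φ y) ^ 2) ∂mH :=
        integral_mono_of_nonneg (Filter.Eventually.of_forall fun y => sq_nonneg _)
          (iABC.const_mul 3) (Filter.Eventually.of_forall hfin)
    _ = 3 * (∫ y in Bn 36, (φ (y * v.1 * g.1 ^ m * v.1⁻¹) - φ (y * (v.1 * g.1 ^ m))) ^ 2 ∂mH
        + ∫ y in Bn 36, (φ (y * (v.1 * g.1 ^ m)) - φ (y * v.1)) ^ 2 ∂mH
        + ∫ y in Bn 36, (φ (y * v.1) - φ y) ^ 2 ∂mH) := by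
        rw [integral_const_mul, integral_add iAB iC, integral_add iA iB]
    _ ≤ 3 * ((Λ : ℝ) ^ 2 * K + 2 * Rz a 400 z G) := by linarith

end

end Pool.Agent.SZ.PR
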