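import Mathlib
import Pool.Agent.SZ.RDefs
import Pool.Agent.SZ.R03
import Pool.Agent.SZ.R3b

/-!
# SZ part R, module R15: comparison with the long average

`L = 2^-i`.  `h(w) - M_i h(w) = 2^i int_0^L (h(w) - h(n_σ w)) dσ` (`MM_apply`).  For `σ` in `(0,L]` take `m, t, x, v` from the hypothesis `hc`:
`|h(n_σ w) - h(n_t w)| <= E2(n_σ w)` (with `w' = n_σ w`, `n_t w = n_(t-σ) w'`, `|t-σ| <= Δ`);
`|h(n_t w) - h(c^m w)| <= Er(w)`; `|h(c^m w) - h(w)| <= sum_{|m'|<=Λ} |h(c^m' w) - h(w)|`.  Average.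
-/

set_option autoImplicit false
set_option linter.unusedVariables false
set_option linter.unusedSectionVars false

namespace Pool.Agent.SZ.PR

open Pool.Agent.IRS MeasureTheory Set Filter Topology

section

variable {Z : Type*} [MeasurableSpace Z] {ζ : Measure Z} [SigmaFinite ζ]

theorem avg_cmp (a : PAct SL2R ζ) (h G2' Er : BL2 ζ) (i : ℕ) {Δ A : ℝ} {Λ : ℕ}
    (h2 : ∀ (s : ℝ) (w : Z), |s| ≤ Δ →
      |(h : Z → ℝ) (a.τ (uu s) w) - (h : Z → ℝ) w| ≤ (G2' : Z → ℝ) w)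
    (h1 : ∀ (w : Z) (t x v : ℝ) (hx : x ≠ 0), |t| ≤ A → |x - 1| ≤ A → |v| ≤ A →
      |(h : Z → ℝ) (a.τ (uu t * lt x v hx) w) - (h : Z → ℝ) (a.τ (uu t) w)| ≤ (Er : Z → ℝ) w)
    (c : SL2R) (hc : ∀ σ : ℝ, 0 ≤ σ → σ ≤ 2⁻¹ ^ i → ∃ m : ℤ, |m| ≤ Λ ∧ ∃ (t x v : ℝ) (hx : x ≠ 0),
      c ^ m = uu t * lt x v hx ∧ |σ - t| ≤ Δ ∧ |t| ≤ A ∧ |x - 1| ≤ A ∧ |v| ≤ A) (w : Z) :
    |(h : Z → ℝ) w| ≤ |((MM a i h : BL2 ζ) : Z → ℝ) w| + ((MM a i G2' : BL2 ζ) : Z → ℝ) w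
      + (Er : Z → ℝ) w
      + ∑ m ∈ Finset.Icc (-(Λ : ℤ)) Λ, |(h : Z → ℝ) (a.τ (c ^ m) w) - (h : Z → ℝ) w| := by
  set S : ℝ := ∑ m ∈ Finset.Icc (-(Λ : ℤ)) Λ, |(h : Z → ℝ) (a.τ (c ^ m) w) - (h : Z → ℝ) w|
    with hS
  have hL : (0 : ℝ) < 2⁻¹ ^ i := by positivity
  have hL1 : (2 : ℝ) ^ i * 2⁻¹ ^ i = 1 := by rw [← mul_pow]; norm_num
  -- the pointwise bound
  have key : ∀ σ : ℝ, 0 ≤ σ → σ ≤ 2⁻¹ ^ i →
      |(h : Z → ℝ) w - (h : Z → ℝ) (a.τ (uu σ) w)|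
        ≤ (G2' : Z → ℝ) (a.τ (uu σ) w) + ((Er : Z → ℝ) w + S) := by
    intro σ h0 hσ
    obtain ⟨m, hm, t, x, v, hx, e, e1, e2, e3, e4⟩ := hc σ h0 hσ
    have a1 := h2 (t - σ) (a.τ (uu σ) w) (by rw [abs_sub_comm]; exact e1)
    rw [← a.mul, ← uu_add, sub_add_cancel] at a1
    have a2 := h1 w t x v hx e2 e3 e4
    rw [← e] at a2
    have a3 : |(h : Z → ℝ) (a.τ (c ^ m) w) - (h : Z → ℝ) w| ≤ S := by
      rw [hS]
      refine Finset.single_le_sum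
        (f := fun m : ℤ => |(h : Z → ℝ) (a.τ (c ^ m) w) - (h : Z → ℝ) w|)
        (fun _ _ => abs_nonneg _) ?_
      rw [Finset.mem_Icc]
      exact abs_le.1 hm
    rw [abs_le] at a1 a2 a3 ⊢
    constructor <;> linarith [a1.1, a1.2, a2.1, a2.2, a3.1, a3.2]
  have i1 : IntervalIntegrable (fun t : ℝ => (h : Z → ℝ) (a.τ (uu t) w)) volume 0 (2⁻¹ ^ i) :=
    R3.sec_int a h w _ _
  have i2 : IntervalIntegrable (fun t : ℝ => (G2' : Z → ℝ) (a.τ (uu t) w)) volume 0 (2⁻¹ ^ i) :=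
    R3.sec_int a G2' w _ _
  have e1 : (h : Z → ℝ) w - ((MM a i h : BL2 ζ) : Z → ℝ) w
      = 2 ^ i * ∫ t in (0 : ℝ)..(2⁻¹ ^ i), ((h : Z → ℝ) w - (h : Z → ℝ) (a.τ (uu t) w)) := by
    rw [MM_apply, intervalIntegral.integral_sub intervalIntegrable_const i1,
      intervalIntegral.integral_const, sub_zero, smul_eq_mul, mul_sub, ← mul_assoc, hL1, one_mul]
  have e2 : |∫ t in (0 : ℝ)..(2⁻¹ ^ i), ((h : Z → ℝ) w - (h : Z → ℝ) (a.τ (uu t) w))|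
      ≤ ∫ t in (0 : ℝ)..(2⁻¹ ^ i), ((G2' : Z → ℝ) (a.τ (uu t) w) + ((Er : Z → ℝ) w + S)) := by
    refine (intervalIntegral.abs_integral_le_integral_abs hL.le).trans ?_
    refine intervalIntegral.integral_mono_on hL.le (intervalIntegrable_const.sub i1).abs
      (i2.add intervalIntegrable_const) ?_
    intro σ hσ
    exact key σ hσ.1 hσ.2
  have e3 : (2 : ℝ) ^ i * ∫ t in (0 : ℝ)..(2⁻¹ ^ i),
      ((G2' : Z → ℝ) (a.τ (uu t) w) + ((Er : Z → ℝ) w + S))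
      = ((MM a i G2' : BL2 ζ) : Z → ℝ) w + ((Er : Z → ℝ) w + S) := by
    rw [MM_apply, intervalIntegral.integral_add i2 intervalIntegrable_const,
      intervalIntegral.integral_const, sub_zero, smul_eq_mul, mul_add, ← mul_assoc, hL1, one_mul]
  have e4 : |(h : Z → ℝ) w - ((MM a i h : BL2 ζ) : Z → ℝ) w|
      ≤ ((MM a i G2' : BL2 ζ) : Z → ℝ) w + ((Er : Z → ℝ) w + S) := by
    rw [e1, abs_mul, abs_of_pos (by positivity : (0 : ℝ) < 2 ^ i), ← e3]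
    exact mul_le_mul_of_nonneg_left e2 (by positivity)
  have e5 := abs_sub_abs_le_abs_sub ((h : Z → ℝ) w) (((MM a i h : BL2 ζ) : Z → ℝ) w)
  linarith

end

end Pool.Agent.SZ.PR
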