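import Mathlib
import Pool.Agent.SZ.RDefs
import Pool.Agent.SZ.R01
import Pool.Agent.SZ.R02
import Pool.Agent.SZ.R03
import Pool.Agent.SZ.R12
import Pool.Agent.SZ.R13
import Pool.Agent.SZ.R14
import Pool.Agent.SZ.R15

/-!
# SZ part R, module R16: the local estimate at one scale

`z` good: `H`, `hH : ∀ q in H, a.τ q.1 (b.τ q.2 z) = z`, `LocL 1000 R' C c T H`, `Den δ 3 T2 H`.
`d = 11664 * 2^-(k+k1)` (`11664 = 36^2 * 9`), `L = 2^-(k+1-lam)`, `κ = c/(15552*11664)` (`15552 = 12*36^2`).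
1. `Den` at `Y = kk (jπ/3)` (`nS <= 3`, `nS_kk`): `v_j in H`, `nM (v_j.1 - kk (jπ/3)) <= δ`, `nS v_j.2 <= T2`, `nS v_j.1 <= nS (kk ..) + δ`;
   `nS (kk θ) = 2(|cos|+|sin|) <= 2√2 <= 2.83`, so `nS v_j.1 <= 3` (`δ` is tiny).
2. `LocL` at scale `k+k1` for the function `y -> h(a.τ y z)`: `g in H`, `c 2^-(k+k1) <= d1 g.1 <= 2^-(k+k1)` and
   `int_{Bn 1000} (h(y g.1 z) - h(y z))^2 <= C (1+k+k1) sum_{q in Q} int_{Bn R'} (h(y q.1 z) - h(y z))^2`; for `q in Q` (in `H`, `nS q.2 <= T`):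
   `h(a.τ (y q.1) z) = h(b.τ q.2⁻¹ (a.τ y z))`, so each integral is `<= Rz a R' z G`.  Hence `K := |C| (1+k+k1) |T| Rz a R' z G`.
3. For `y in Bn 36` choose `j` by `span` (`R = 36`, `X = g.1 - 1`): `c' := y v_j g v_j⁻¹ y⁻¹` (first coordinates) has
   `|c' 0 1| >= d1 g.1/15552 >= κ d`, and `d1 c' <= nS y ^2 * nS v_j ^2 * d1 g.1 <= 11664 * 2^-(k+k1) = d` (`nM (m X m⁻¹) <= nM m nM X nM m⁻¹`, `nS_inv`).
   `geo` (for `c', d, κ, L, Λ`) gives for every `σ in [0,L]` the data needed in `avg_cmp` with `Δ = 2d`, `A` (`|t| <= L + 2d <= A`, `4Λd <= A`).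
   `avg_cmp` at `w = a.τ y z`, `c'^m w = a.τ (y v_j g^m v_j⁻¹) z` (`c'^m = y v_j g^m v_j⁻¹ y⁻¹`): 
   `|h w| <= |M_i h w| + M_i E w + Er w + sum_j sum_{|m|<=Λ} |h(a.τ (y v_j g^m v_j⁻¹) z) - h w|`, `i = k+1-lam`.
4. Square (`(A+B+C+D)^2 <= 4(...)`, `D^2 <= N sum (..)^2`, `N = 3(2Λ+1)`), integrate over `Bn 36`, use `NI` for each `(j,m)`
   (`4 Λ d1 g.1 <= 1` follows from `100 Λ^2 d <= 1`; `Bn 400` inside `Bn 1000`): each term `<= 3 (Λ^2 K + 2 Rz a 400 z G)`.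
-/

set_option autoImplicit false
set_option linter.unusedVariables false
set_option linter.unusedSectionVars false

namespace Pool.Agent.SZ.PR

open Pool.Agent.IRS MeasureTheory Set Filter Topology

section

variable {Z : Type*} [MeasurableSpace Z] {ζ : Measure Z} [SigmaFinite ζ]

private lemma hp_int {f : SL2R → ℝ} (hf : Measurable f) {M : ℝ} (hM : ∀ y, |f y| ≤ M) (R : ℝ) :
    IntegrableOn f (Bn R) mH := by
  have : IsFiniteMeasure (mH.restrict (Bn R)) := ⟨by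
    rw [Measure.restrict_apply_univ]; exact mH_ball_lt R⟩
  exact integrable_of_bdd _ hf hM

private lemma hp_meas (a : PAct SL2R ζ) (f : BL2 ζ) (z : Z) (g : SL2R) :
    Measurable (fun y : SL2R => (f : Z → ℝ) (a.τ (y * g) z)) :=
  (a.meas_sec (bmeas f) z).comp (measurable_mul_const g)

private lemma hp_dint (a : PAct SL2R ζ) (f : BL2 ζ) (z : Z) (g : SL2R) (R : ℝ) :
    IntegrableOn (fun y : SL2R => ((f : Z → ℝ) (a.τ (y * g) z) - (f : Z → ℝ) (a.τ y z)) ^ 2)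
      (Bn R) mH := by
  obtain ⟨M, hM⟩ := bbdd f
  refine hp_int (((hp_meas a f z g).sub (a.meas_sec (bmeas f) z)).pow_const 2)
    (M := (M + M) ^ 2) (fun y => ?_) R
  rw [abs_pow]
  refine pow_le_pow_left₀ (abs_nonneg _) ?_ 2
  refine (abs_sub _ _).trans (add_le_add (hM _) (hM _))

private lemma hp_sint (a : PAct SL2R ζ) (f : BL2 ζ) (z : Z) (R : ℝ) :
    IntegrableOn (fun y : SL2R => ((f : Z → ℝ) (a.τ y z)) ^ 2) (Bn R) mH := by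
  obtain ⟨M, hM⟩ := bbdd f
  refine hp_int ((a.meas_sec (bmeas f) z).pow_const 2) (M := M ^ 2) (fun y => ?_) R
  rw [abs_pow]
  exact pow_le_pow_left₀ (abs_nonneg _) (hM _) 2

private lemma hp_Q (a b : PAct SL2R ζ) (hab : ∀ g h z, a.τ g (b.τ h z) = b.τ h (a.τ g z)) {z : Z}
    {q : G2} (hq : a.τ q.1 (b.τ q.2 z) = z) {h G : BL2 ζ} {S : ℝ}
    (hG : ∀ (q : SL2R) (w : Z), nS q ≤ S →
      |(h : Z → ℝ) (b.τ q w) - (h : Z → ℝ) w| ≤ (G : Z → ℝ) w)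
    (hS : nS q.2 ≤ S) (R : ℝ) :
    ∫ y in Bn R, ((h : Z → ℝ) (a.τ (y * q.1) z) - (h : Z → ℝ) (a.τ y z)) ^ 2 ∂mH
      ≤ Rz a R z G := by
  have hz : a.τ q.1 z = b.τ q.2⁻¹ z := by
    have h1 : b.τ q.2 (a.τ q.1 z) = z := by rw [← hab, hq]
    rw [← b.inv_apply q.2 (a.τ q.1 z), h1]
  unfold Rz
  refine integral_mono (hp_dint a h z q.1 R) (hp_sint a G z R) fun y => ?_
  have h2 : a.τ (y * q.1) z = b.τ q.2⁻¹ (a.τ y z) := by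
    rw [a.mul, hz, hab]
  have h3 := hG q.2⁻¹ (a.τ y z) (by rw [nS_inv]; exact hS)
  show ((h : Z → ℝ) (a.τ (y * q.1) z) - (h : Z → ℝ) (a.τ y z)) ^ 2 ≤ ((G : Z → ℝ) (a.τ y z)) ^ 2
  rw [h2, ← sq_abs]
  exact pow_le_pow_left₀ (abs_nonneg _) h3 2

private lemma hp_conj (v h : SL2R) : d1 (v * h * v⁻¹) ≤ nS v ^ 2 * d1 h := by
  have e : ((v * h * v⁻¹ : SL2R) : Matrix (Fin 2) (Fin 2) ℝ) - 1 =
      (v : Matrix (Fin 2) (Fin 2) ℝ) * ((h : Matrix (Fin 2) (Fin 2) ℝ) - 1) *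
        ((v⁻¹ : SL2R) : Matrix (Fin 2) (Fin 2) ℝ) := by
    have e1 : (v : Matrix (Fin 2) (Fin 2) ℝ) * ((v⁻¹ : SL2R) : Matrix (Fin 2) (Fin 2) ℝ) = 1 := by
      rw [← Matrix.SpecialLinearGroup.coe_mul, mul_inv_cancel, Matrix.SpecialLinearGroup.coe_one]
    rw [Matrix.SpecialLinearGroup.coe_mul, Matrix.SpecialLinearGroup.coe_mul, mul_sub, sub_mul,
      mul_one, e1]
  unfold d1
  rw [e]
  have h1 := nM_mul_le ((v : Matrix (Fin 2) (Fin 2) ℝ) * ((h : Matrix (Fin 2) (Fin 2) ℝ) - 1))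
    ((v⁻¹ : SL2R) : Matrix (Fin 2) (Fin 2) ℝ)
  have h2 := nM_mul_le (v : Matrix (Fin 2) (Fin 2) ℝ) ((h : Matrix (Fin 2) (Fin 2) ℝ) - 1)
  have h3 : nM ((v⁻¹ : SL2R) : Matrix (Fin 2) (Fin 2) ℝ) = nS v := nS_inv v
  have h4 : nM (v : Matrix (Fin 2) (Fin 2) ℝ) = nS v := rfl
  rw [h3] at h1
  rw [h4] at h2
  calc _ ≤ _ := h1
    _ ≤ (nS v * nM ((h : Matrix (Fin 2) (Fin 2) ℝ) - 1)) * nS v :=
        mul_le_mul_of_nonneg_right h2 (nS_pos v).le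
    _ = _ := by ring

/-- The pointwise inequality. -/
private lemma hp_pt (a : PAct SL2R ζ) {z : Z} {c δ d : ℝ} (hc : 0 < c)
    (hδ : δ ≤ 1 / (10 ^ 4 * 36 ^ 4)) {h E Er : BL2 ζ} {i Λ : ℕ} {g : SL2R} {e : ℝ}
    (he : 0 < e) (hd : d = 11664 * e) (hg1 : c * e ≤ d1 g) (hg2 : d1 g ≤ e)
    (v : Fin 3 → SL2R) (hv3 : ∀ j, nS (v j) ≤ 3)
    (hv : ∀ j : Fin 3, nM ((v j : Matrix (Fin 2) (Fin 2) ℝ)
      - (kk ((j : ℕ) * (Real.pi / 3)) : Matrix (Fin 2) (Fin 2) ℝ)) ≤ δ)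
    (hΛ : 2⁻¹ ^ i / (c / (15552 * 11664) * d) + 1 ≤ (Λ : ℝ))
    (hΛ2 : 100 * (Λ : ℝ) ^ 2 * d ≤ 1) {A : ℝ}
    (hA1 : 2⁻¹ ^ i + 2 * d ≤ A) (hA2 : 4 * (Λ : ℝ) * d ≤ A)
    (hE : ∀ (s : ℝ) (w : Z), |s| ≤ 2 * d →
      |(h : Z → ℝ) (a.τ (uu s) w) - (h : Z → ℝ) w| ≤ (E : Z → ℝ) w)
    (hEr : ∀ (w : Z) (t x v : ℝ) (hx : x ≠ 0), |t| ≤ A → |x - 1| ≤ A → |v| ≤ A →
      |(h : Z → ℝ) (a.τ (uu t * lt x v hx) w) - (h : Z → ℝ) (a.τ (uu t) w)| ≤ (Er : Z → ℝ) w)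
    {y : SL2R} (hy : nS y ≤ 36) :
    ((h : Z → ℝ) (a.τ y z)) ^ 2 ≤ 4 * (((MM a i h : BL2 ζ) : Z → ℝ) (a.τ y z) ^ 2
      + ((MM a i E : BL2 ζ) : Z → ℝ) (a.τ y z) ^ 2 + (Er : Z → ℝ) (a.τ y z) ^ 2)
      + 4 * ((3 * (2 * (Λ : ℝ) + 1)) * ∑ j : Fin 3, ∑ m ∈ Finset.Icc (-(Λ : ℤ)) Λ,
        ((h : Z → ℝ) (a.τ (y * v j * g ^ m * (v j)⁻¹) z) - (h : Z → ℝ) (a.τ y z)) ^ 2) := by
  have hd0 : 0 < d := by rw [hd]; positivity
  have hL0 : (0 : ℝ) < 2⁻¹ ^ i := by positivity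
  have hκ : 0 < c / (15552 * 11664) := by positivity
  have hΛ1 : (1 : ℝ) ≤ Λ := by
    have : 0 ≤ 2⁻¹ ^ i / (c / (15552 * 11664) * d) := by positivity
    linarith
  have he4 : e ≤ 1 / 4 := by nlinarith [sq_nonneg ((Λ : ℝ) - 1)]
  obtain ⟨j, hj⟩ := span hy v hv hδ (hg2.trans he4)
  set cc : SL2R := y * v j * g * (v j)⁻¹ * y⁻¹ with hcc
  have hcc' : cc = (y * v j) * g * (y * v j)⁻¹ := by rw [hcc, mul_inv_rev]; group
  have hc1 : d1 cc ≤ d := by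
    rw [hcc']
    refine (hp_conj _ _).trans ?_
    have h1 : nS (y * v j) ≤ 36 * 3 :=
      (nS_mul_le _ _).trans (mul_le_mul hy (hv3 j) (nS_pos _).le (by norm_num))
    have h2 : nS (y * v j) ^ 2 ≤ (36 * 3) ^ 2 := pow_le_pow_left₀ (nS_pos _).le h1 2
    have h3 : 0 ≤ d1 g := d1_nonneg g
    rw [hd]
    nlinarith
  have hc2 : c / (15552 * 11664) * d ≤ |cc 0 1| := by
    refine le_trans ?_ hj
    rw [hd]
    have : d1 g / (12 * 36 ^ 2) = d1 g / 15552 := by norm_num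
    rw [this, le_div_iff₀ (by norm_num)]
    calc c / (15552 * 11664) * (11664 * e) * 15552 = c * e := by ring
      _ ≤ d1 g := hg1
  have hcmp := avg_cmp a h E Er i hE hEr cc (Λ := Λ) (fun σ hσ0 hσ => by
    obtain ⟨m, hm, t, x, v', hx, h1, h2, h3, h4⟩ :=
      geo hd0 hc1 hκ hc2 hL0 hΛ hΛ2 hσ0 hσ
    refine ⟨m, hm, t, x, v', hx, h1, h2, ?_, h3.trans hA2, h4.trans hA2⟩
    rw [abs_le] at h2 ⊢
    constructor <;> linarith [h2.1, h2.2]) (a.τ y z)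
  have hpow : ∀ m : ℤ, a.τ (cc ^ m) (a.τ y z) = a.τ (y * v j * g ^ m * (v j)⁻¹) z := by
    intro m
    rw [← a.mul, hcc', conj_zpow]
    congr 1
    rw [mul_inv_rev]; group
  simp only [hpow] at hcmp
  set w := a.τ y z with hw
  set P : Fin 3 → ℤ → ℝ := fun j m =>
    |(h : Z → ℝ) (a.τ (y * v j * g ^ m * (v j)⁻¹) z) - (h : Z → ℝ) w| with hP
  set D : ℝ := ∑ m ∈ Finset.Icc (-(Λ : ℤ)) Λ, P j m with hD
  have hD0 : 0 ≤ D := Finset.sum_nonneg fun m _ => abs_nonneg _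
  have hD2 : D ^ 2 ≤ (2 * (Λ : ℝ) + 1) * ∑ m ∈ Finset.Icc (-(Λ : ℤ)) Λ, P j m ^ 2 := by
    have h1 := sq_sum_le_card_mul_sum_sq (s := Finset.Icc (-(Λ : ℤ)) Λ) (f := P j)
    have h2 : ((Finset.Icc (-(Λ : ℤ)) Λ).card : ℝ) = 2 * (Λ : ℝ) + 1 := by
      rw [Int.card_Icc]
      have : ((Λ : ℤ) + 1 - -(Λ : ℤ)).toNat = 2 * Λ + 1 := by omega
      rw [this]; push_cast; ring
    rw [h2] at h1
    exact h1
  have hD3 : ∑ m ∈ Finset.Icc (-(Λ : ℤ)) Λ, P j m ^ 2 ≤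
      ∑ j : Fin 3, ∑ m ∈ Finset.Icc (-(Λ : ℤ)) Λ, P j m ^ 2 :=
    Finset.single_le_sum (f := fun j => ∑ m ∈ Finset.Icc (-(Λ : ℤ)) Λ, P j m ^ 2)
      (fun j _ => Finset.sum_nonneg fun m _ => sq_nonneg _) (Finset.mem_univ j)
  have hS0 : 0 ≤ ∑ j : Fin 3, ∑ m ∈ Finset.Icc (-(Λ : ℤ)) Λ, P j m ^ 2 :=
    Finset.sum_nonneg fun j _ => Finset.sum_nonneg fun m _ => sq_nonneg _
  have hSS : ∑ j : Fin 3, ∑ m ∈ Finset.Icc (-(Λ : ℤ)) Λ,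
        ((h : Z → ℝ) (a.τ (y * v j * g ^ m * (v j)⁻¹) z) - (h : Z → ℝ) w) ^ 2 =
      ∑ j : Fin 3, ∑ m ∈ Finset.Icc (-(Λ : ℤ)) Λ, P j m ^ 2 := by
    refine Finset.sum_congr rfl fun j _ => Finset.sum_congr rfl fun m _ => ?_
    rw [hP, sq_abs]
  rw [hSS]
  set SS := ∑ j : Fin 3, ∑ m ∈ Finset.Icc (-(Λ : ℤ)) Λ, P j m ^ 2 with hSSd
  have hD4 : D ^ 2 ≤ (3 * (2 * (Λ : ℝ) + 1)) * SS := by
    refine hD2.trans ?_
    have : (2 * (Λ : ℝ) + 1) * ∑ m ∈ Finset.Icc (-(Λ : ℤ)) Λ, P j m ^ 2 ≤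
        (2 * (Λ : ℝ) + 1) * SS := mul_le_mul_of_nonneg_left hD3 (by positivity)
    have h2 : 0 ≤ (2 * (Λ : ℝ) + 1) * SS := by positivity
    nlinarith
  have h1 : ((h : Z → ℝ) w) ^ 2 ≤ (|((MM a i h : BL2 ζ) : Z → ℝ) w|
      + ((MM a i E : BL2 ζ) : Z → ℝ) w + (Er : Z → ℝ) w + D) ^ 2 := by
    rw [← sq_abs ((h : Z → ℝ) w)]
    exact pow_le_pow_left₀ (abs_nonneg _) hcmp 2
  have h5 := sq_abs (((MM a i h : BL2 ζ) : Z → ℝ) w)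
  set x1 := |((MM a i h : BL2 ζ) : Z → ℝ) w| with hx1
  set x2 := ((MM a i E : BL2 ζ) : Z → ℝ) w with hx2
  set x3 := (Er : Z → ℝ) w with hx3
  have h6 : (x1 + x2 + x3 + D) ^ 2 ≤ 4 * (x1 ^ 2 + x2 ^ 2 + x3 ^ 2 + D ^ 2) := by
    nlinarith [sq_nonneg (x1 - x2), sq_nonneg (x1 - x3), sq_nonneg (x1 - D), sq_nonneg (x2 - x3),
      sq_nonneg (x2 - D), sq_nonneg (x3 - D)]
  rw [← h5]
  linarith

theorem high_pt (a b : PAct SL2R ζ) (hab : ∀ g h z, a.τ g (b.τ h z) = b.τ h (a.τ g z)) {z : Z}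
    {R' C c T δ T2 : ℝ} (hz : Gd a b 1000 R' C c T δ 3 T2 z) (hc : 0 < c)
    (hδ : δ ≤ 1 / (10 ^ 4 * 36 ^ 4)) {h E Er G : BL2 ζ} {k k1 lam Λ : ℕ} (hk : lam ≤ k)
    (hΛ : 2⁻¹ ^ (k + 1 - lam) / (c / (15552 * 11664) * (11664 * 2⁻¹ ^ (k + k1))) + 1 ≤ (Λ : ℝ))
    (hΛ2 : 100 * (Λ : ℝ) ^ 2 * (11664 * 2⁻¹ ^ (k + k1)) ≤ 1) {A : ℝ}
    (hA1 : 2⁻¹ ^ (k + 1 - lam) + 2 * (11664 * 2⁻¹ ^ (k + k1)) ≤ A)
    (hA2 : 4 * (Λ : ℝ) * (11664 * 2⁻¹ ^ (k + k1)) ≤ A)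
    (hE : ∀ (s : ℝ) (w : Z), |s| ≤ 2 * (11664 * 2⁻¹ ^ (k + k1)) →
      |(h : Z → ℝ) (a.τ (uu s) w) - (h : Z → ℝ) w| ≤ (E : Z → ℝ) w)
    (hEr : ∀ (w : Z) (t x v : ℝ) (hx : x ≠ 0), |t| ≤ A → |x - 1| ≤ A → |v| ≤ A →
      |(h : Z → ℝ) (a.τ (uu t * lt x v hx) w) - (h : Z → ℝ) (a.τ (uu t) w)| ≤ (Er : Z → ℝ) w)
    (hG : ∀ (q : SL2R) (w : Z), nS q ≤ max T T2 →
      |(h : Z → ℝ) (b.τ q w) - (h : Z → ℝ) w| ≤ (G : Z → ℝ) w) :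
    Rz a 36 z h ≤ 4 * (Rz a 36 z (MM a (k + 1 - lam) h) + Rz a 36 z (MM a (k + 1 - lam) E)
        + Rz a 36 z Er)
      + 12 * (3 * (2 * (Λ : ℝ) + 1)) ^ 2 * ((Λ : ℝ) ^ 2 * (|C| * (1 + k + k1) * |T|) + 2)
        * Rz a (max 400 R') z G := by
  obtain ⟨H, hH, ⟨Q, hQc, hQ, hLoc⟩, hDen⟩ := hz
  -- the three rotations
  have hnkk : ∀ j : Fin 3, nS (kk ((j : ℕ) * (Real.pi / 3))) ≤ 3 := fun j =>
    (nS_kk _).trans (by norm_num)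
  choose v hvH hvδ hvT using fun j : Fin 3 => hDen _ (hnkk j)
  have hv3 : ∀ j, nS (v j).1 ≤ 3 := by
    intro j
    have h1 := nM_sub_le ((v j).1 : Matrix (Fin 2) (Fin 2) ℝ)
      (kk ((j : ℕ) * (Real.pi / 3)) : Matrix (Fin 2) (Fin 2) ℝ)
    have h2 : nM (kk ((j : ℕ) * (Real.pi / 3)) : Matrix (Fin 2) (Fin 2) ℝ) ≤ 283 / 100 := nS_kk _
    have h3 := hvδ j
    have h4 : nS (v j).1 = nM ((v j).1 : Matrix (Fin 2) (Fin 2) ℝ) := rfl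
    rw [h4]
    have h5 : δ ≤ 17 / 100 := hδ.trans (by norm_num)
    linarith
  -- the local element
  obtain ⟨g, hgH, hg1, hg2, hgi⟩ := hLoc (k + k1) (fun y => (h : Z → ℝ) (a.τ y z))
    (a.meas_sec (bmeas h) z) (by
      obtain ⟨M, hM⟩ := bbdd h
      exact ⟨M, fun y => hM _⟩)
  set e : ℝ := 2⁻¹ ^ (k + k1) with he
  have he0 : 0 < e := by rw [he]; positivity
  set i := k + 1 - lam with hi
  set K : ℝ := |C| * (1 + k + k1) * |T| * Rz a R' z G with hK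
  have hRG : 0 ≤ Rz a R' z G := Rz_nonneg a R' z G
  have hKb : ∫ y in Bn 1000, ((h : Z → ℝ) (a.τ (y * g.1) z) - (h : Z → ℝ) (a.τ y z)) ^ 2 ∂mH
      ≤ K := by
    refine hgi.trans ?_
    have h1 : ∑ q ∈ Q, ∫ y in Bn R', ((h : Z → ℝ) (a.τ (y * q.1) z) - (h : Z → ℝ) (a.τ y z)) ^ 2
        ∂mH ≤ |T| * Rz a R' z G := by
      calc _ ≤ ∑ q ∈ Q, Rz a R' z G := by
            refine Finset.sum_le_sum fun q hq => ?_
            exact hp_Q a b hab (hH q (hQ q hq).1) hG ((hQ q hq).2.2.trans (le_max_left _ _)) R'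
        _ = (Q.card : ℝ) * Rz a R' z G := by rw [Finset.sum_const, nsmul_eq_mul]
        _ ≤ |T| * Rz a R' z G :=
            mul_le_mul_of_nonneg_right (hQc.trans (le_abs_self T)) hRG
    have h2 : 0 ≤ ∑ q ∈ Q, ∫ y in Bn R',
        ((h : Z → ℝ) (a.τ (y * q.1) z) - (h : Z → ℝ) (a.τ y z)) ^ 2 ∂mH :=
      Finset.sum_nonneg fun q _ => integral_nonneg fun y => sq_nonneg _
    have h3 : (0 : ℝ) ≤ 1 + ((k + k1 : ℕ) : ℝ) := by positivity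
    calc C * (1 + ((k + k1 : ℕ) : ℝ)) * ∑ q ∈ Q, ∫ y in Bn R',
          ((h : Z → ℝ) (a.τ (y * q.1) z) - (h : Z → ℝ) (a.τ y z)) ^ 2 ∂mH
        ≤ |C| * (1 + ((k + k1 : ℕ) : ℝ)) * ∑ q ∈ Q, ∫ y in Bn R',
          ((h : Z → ℝ) (a.τ (y * q.1) z) - (h : Z → ℝ) (a.τ y z)) ^ 2 ∂mH :=
          mul_le_mul_of_nonneg_right (mul_le_mul_of_nonneg_right (le_abs_self C) h3) h2
      _ ≤ |C| * (1 + ((k + k1 : ℕ) : ℝ)) * (|T| * Rz a R' z G) :=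
          mul_le_mul_of_nonneg_left h1 (mul_nonneg (abs_nonneg _) h3)
      _ = K := by rw [hK]; push_cast; ring
  have hK400 : ∫ y in Bn 400, ((h : Z → ℝ) (a.τ (y * g.1) z) - (h : Z → ℝ) (a.τ y z)) ^ 2 ∂mH
      ≤ K := by
    refine le_trans ?_ hKb
    refine setIntegral_mono_set (hp_dint a h z g.1 1000) ?_ ?_
    · filter_upwards with y
      exact sq_nonneg _
    · refine (LE.le.eventuallyLE ?_)
      intro y hy
      exact le_trans (show nS y ≤ 400 from hy) (by norm_num)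
  -- Λ is at least one
  have hκ : 0 < c / (15552 * 11664) := by positivity
  have hΛ1 : (1 : ℝ) ≤ Λ := by
    have : 0 ≤ 2⁻¹ ^ i / (c / (15552 * 11664) * (11664 * e)) := by positivity
    linarith
  have hΛg : 4 * (Λ : ℝ) * d1 g.1 ≤ 1 := by
    have h1 : (Λ : ℝ) ≤ (Λ : ℝ) ^ 2 := by nlinarith
    have h2 : 0 ≤ d1 g.1 := d1_nonneg g.1
    have h3 : (Λ : ℝ) * d1 g.1 ≤ (Λ : ℝ) ^ 2 * e :=
      mul_le_mul h1 hg2 h2 (by positivity)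
    nlinarith [mul_nonneg (sq_nonneg (Λ : ℝ)) he0.le]
  have hNI : ∀ (j : Fin 3) (m : ℤ), m ∈ Finset.Icc (-(Λ : ℤ)) Λ →
      ∫ y in Bn 36, ((h : Z → ℝ) (a.τ (y * (v j).1 * g.1 ^ m * (v j).1⁻¹) z)
        - (h : Z → ℝ) (a.τ y z)) ^ 2 ∂mH ≤ 3 * ((Λ : ℝ) ^ 2 * K + 2 * Rz a 400 z G) := by
    intro j m hm
    rw [Finset.mem_Icc] at hm
    exact NI a b hab hH hgH (hvH j) hG (hv3 j) ((hvT j).trans (le_max_right _ _)) hΛg hK400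
      (abs_le.2 hm)
  -- integrability
  have hFint : ∀ (j : Fin 3) (m : ℤ), IntegrableOn (fun y : SL2R =>
      ((h : Z → ℝ) (a.τ (y * (v j).1 * g.1 ^ m * (v j).1⁻¹) z)
        - (h : Z → ℝ) (a.τ y z)) ^ 2) (Bn 36) mH := by
    intro j m
    have := hp_dint a h z ((v j).1 * g.1 ^ m * (v j).1⁻¹) 36
    simpa only [mul_assoc] using this
  set N : ℝ := 3 * (2 * (Λ : ℝ) + 1) with hN
  have hN0 : 0 ≤ N := by rw [hN]; positivity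
  -- integrate the pointwise inequality
  have hmain : Rz a 36 z h ≤ ∫ y in Bn 36, (4 * (((MM a i h : BL2 ζ) : Z → ℝ) (a.τ y z) ^ 2
      + ((MM a i E : BL2 ζ) : Z → ℝ) (a.τ y z) ^ 2 + (Er : Z → ℝ) (a.τ y z) ^ 2)
      + 4 * (N * ∑ j : Fin 3, ∑ m ∈ Finset.Icc (-(Λ : ℤ)) Λ,
        ((h : Z → ℝ) (a.τ (y * (v j).1 * g.1 ^ m * (v j).1⁻¹) z)
          - (h : Z → ℝ) (a.τ y z)) ^ 2)) ∂mH := by
    unfold Rz
    refine setIntegral_mono_on (hp_sint a h z 36) ?_ (measurableSet_le measurable_nS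
      measurable_const) fun y hy => ?_
    · refine Integrable.add ?_ ?_
      · exact (((hp_sint a (MM a i h) z 36).add (hp_sint a (MM a i E) z 36)).add
          (hp_sint a Er z 36)).const_mul 4
      · refine Integrable.const_mul (Integrable.const_mul ?_ _) _
        exact integrable_finsetSum _ fun j _ => integrable_finsetSum _ fun m _ => hFint j m
    · exact hp_pt a hc hδ he0 rfl hg1 hg2 (fun j => (v j).1) hv3 hvδ hΛ hΛ2 hA1 hA2 hE hEr hy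
  refine hmain.trans ?_
  have i1 : IntegrableOn (fun y : SL2R => 4 * (((MM a i h : BL2 ζ) : Z → ℝ) (a.τ y z) ^ 2
      + ((MM a i E : BL2 ζ) : Z → ℝ) (a.τ y z) ^ 2 + (Er : Z → ℝ) (a.τ y z) ^ 2)) (Bn 36) mH :=
    (((hp_sint a (MM a i h) z 36).add (hp_sint a (MM a i E) z 36)).add
          (hp_sint a Er z 36)).const_mul 4
  have i2 : IntegrableOn (fun y : SL2R => ∑ j : Fin 3, ∑ m ∈ Finset.Icc (-(Λ : ℤ)) Λ,
        ((h : Z → ℝ) (a.τ (y * (v j).1 * g.1 ^ m * (v j).1⁻¹) z)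
          - (h : Z → ℝ) (a.τ y z)) ^ 2) (Bn 36) mH :=
    integrable_finsetSum _ fun j _ => integrable_finsetSum _ fun m _ => hFint j m
  rw [integral_add i1 ((i2.const_mul N).const_mul 4), integral_const_mul, integral_const_mul,
    integral_const_mul]
  have e1 : ∫ y in Bn 36, (((MM a i h : BL2 ζ) : Z → ℝ) (a.τ y z) ^ 2
      + ((MM a i E : BL2 ζ) : Z → ℝ) (a.τ y z) ^ 2 + (Er : Z → ℝ) (a.τ y z) ^ 2) ∂mH =
      Rz a 36 z (MM a i h) + Rz a 36 z (MM a i E) + Rz a 36 z Er := by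
    have i3 : IntegrableOn (fun y : SL2R => ((MM a i h : BL2 ζ) : Z → ℝ) (a.τ y z) ^ 2
        + ((MM a i E : BL2 ζ) : Z → ℝ) (a.τ y z) ^ 2) (Bn 36) mH :=
      (hp_sint a (MM a i h) z 36).add (hp_sint a (MM a i E) z 36)
    rw [integral_add i3 (hp_sint a Er z 36),
      integral_add (hp_sint a (MM a i h) z 36) (hp_sint a (MM a i E) z 36)]
    rfl
  have e2 : ∫ y in Bn 36, ∑ j : Fin 3, ∑ m ∈ Finset.Icc (-(Λ : ℤ)) Λ,
        ((h : Z → ℝ) (a.τ (y * (v j).1 * g.1 ^ m * (v j).1⁻¹) z)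
          - (h : Z → ℝ) (a.τ y z)) ^ 2 ∂mH ≤
      N * (3 * ((Λ : ℝ) ^ 2 * K + 2 * Rz a 400 z G)) := by
    rw [integral_finsetSum _ fun j _ => integrable_finsetSum _ fun m _ => hFint j m]
    calc _ ≤ ∑ j : Fin 3, ∑ m ∈ Finset.Icc (-(Λ : ℤ)) Λ,
          3 * ((Λ : ℝ) ^ 2 * K + 2 * Rz a 400 z G) := by
          refine Finset.sum_le_sum fun j _ => ?_
          rw [integral_finsetSum _ fun m _ => hFint j m]
          exact Finset.sum_le_sum fun m hm => hNI j m hm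
      _ = _ := by
          rw [Finset.sum_const, Finset.sum_const, Finset.card_univ, Fintype.card_fin,
            Int.card_Icc]
          have : ((Λ : ℤ) + 1 - -(Λ : ℤ)).toNat = 2 * Λ + 1 := by omega
          rw [this, hN]
          simp only [nsmul_eq_mul]
          push_cast
          ring
  rw [e1]
  have hm1 : Rz a 400 z G ≤ Rz a (max 400 R') z G := Rz_mono a (le_max_left _ _) z G
  have hm2 : Rz a R' z G ≤ Rz a (max 400 R') z G := Rz_mono a (le_max_right _ _) z G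
  have hc0 : 0 ≤ |C| * (1 + k + k1) * |T| := by positivity
  have hK2 : K ≤ |C| * (1 + k + k1) * |T| * Rz a (max 400 R') z G :=
    mul_le_mul_of_nonneg_left hm2 hc0
  have hfin : 4 * (N * ∫ y in Bn 36, ∑ j : Fin 3, ∑ m ∈ Finset.Icc (-(Λ : ℤ)) Λ,
        ((h : Z → ℝ) (a.τ (y * (v j).1 * g.1 ^ m * (v j).1⁻¹) z)
          - (h : Z → ℝ) (a.τ y z)) ^ 2 ∂mH) ≤
      12 * N ^ 2 * ((Λ : ℝ) ^ 2 * (|C| * (1 + k + k1) * |T|) + 2) * Rz a (max 400 R') z G := by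
    have h1 := mul_le_mul_of_nonneg_left e2 hN0
    have h2 : (Λ : ℝ) ^ 2 * K + 2 * Rz a 400 z G ≤
        ((Λ : ℝ) ^ 2 * (|C| * (1 + k + k1) * |T|) + 2) * Rz a (max 400 R') z G := by
      have h3 := mul_le_mul_of_nonneg_left hK2 (sq_nonneg (Λ : ℝ))
      nlinarith
    have h4 := mul_le_mul_of_nonneg_left h2 (mul_nonneg hN0 hN0)
    nlinarith
  linarith

end

end Pool.Agent.SZ.PR
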