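import Mathlib
import Pool.Agent.SZ.RDefs
import Pool.Agent.SZ.R02
import Pool.Agent.SZ.R18

/-!
# SZ part R, module R19: the averages are Lipschitz

`(a.A nuK f)(a.τ c w) = int wd(h c⁻¹) f(a.τ h w) dmH(h)` (`nuK_integral`, right invariance of `mH`); compare `rep`, `far_bound`,
`near_bound` in `IRS/Bnd.lean`.  `wd` is supported in `{xx <= 3}`, inside `{nS <= 5}`, bounded by `8 wc` and Lipschitz:
`|wd g - wd g'| <= 12 wc |xx g - xx g'|` (the derivative of `(3-x)_+^3` is `>= -12` on `[1,3]`), `|xx g - xx g'| <= nM (g - g') (nS g + nS g')`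
(sum over entries of `(x-x')(x+x')/2`).
Subtract the constant `f(w)` (`int wd = 1`): for `nS c, nS c' <= S`:
`(A f)(c w) - (A f)(c' w) = int (wd(h c⁻¹) - wd(h c'⁻¹)) (f(h w) - f(w)) dmH(h)`, supported in `nS h <= 5 S`.
(1) `c' `= 1: gives `cost`: `|(A f)(q w) - (A f)(w)| <= 16 wc int_{nS h <= 5 S'} |f(h w) - f(w)| dmH =: G(w)` (`S' = max S 2`; here the action is `b`).
(2) Lipschitz: `|wd(h c⁻¹) - wd(h c'⁻¹)| <= 12 wc * nM (h (c⁻¹ - c'⁻¹)) * (nS (h c⁻¹) + nS (h c'⁻¹)) <= C_S nM (c - c')`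
(`nM (c⁻¹ - c'⁻¹) = nM (c - c')` for 2x2 matrices of determinant one).  Apply it with `u c`, `u` in the place of `c, c'` (`d1 c <= 1`, `nS (u c) <= 3 nS u`),
`nM (u c - u) <= nS u d1 c`.
In both cases `G = C int_{nS h <= R} |f(a.τ h w) - f(w)| dmH(h)` is in `BL2`, and `N2 G <= C^2 mH(Bn R) int_{nS h <= R} (ψ f h)^2 dmH <= C' E f` by `disp`.
(`G` in `BL2`: it is `C` times an average; measurability in `w` by `StronglyMeasurable.integral_prod_left'`; square integrability and the bound by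
Cauchy Schwarz and Tonelli; `int (f(h w) - f(w))^2 dζ = a.ψ f h ^ 2`.)
`Eb b x = (frm ζ).B (x - b.P nuK x) x = b.E nuK x` (`B_P`).
-/

set_option autoImplicit false
set_option linter.unusedVariables false
set_option linter.unusedSectionVars false

namespace Pool.Agent.SZ.PR

open Pool.Agent.IRS MeasureTheory Set Filter Topology

section

variable {Z : Type*} [MeasurableSpace Z] {ζ : Measure Z} [SigmaFinite ζ]

lemma Eb_eq_E (b : PAct SL2R ζ) (x : BL2 ζ) : Eb b x = b.E nuK x := by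
  unfold Eb PAct.E
  rw [map_sub, LinearMap.sub_apply, b.B_P]

namespace R19

/-- The measure on a ball is finite. -/
lemma fin_ball (R : ℝ) : IsFiniteMeasure (mH.restrict (Bn R)) :=
  ⟨by rw [Measure.restrict_apply_univ]; exact mH_ball_lt R⟩

/-- The local variation as a bounded square integrable function. -/
lemma gl (a : PAct SL2R ζ) (f : BL2 ζ) (R : ℝ) : ∃ G : BL2 ζ,
    (∀ w, (G : Z → ℝ) w = ∫ h in Bn R, |(f : Z → ℝ) (a.τ h w) - (f : Z → ℝ) w| ∂mH) ∧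
    (IntegrableOn (fun h => a.ψ f h ^ 2) (Bn R) mH) ∧
    N2 G ≤ mH.real (Bn R) * ∫ h in Bn R, a.ψ f h ^ 2 ∂mH := by
  have hfin := fin_ball R
  set ν : Measure SL2R := mH.restrict (Bn R) with hν
  have hνu : ν.real univ = mH.real (Bn R) := by
    unfold Measure.real
    rw [hν, Measure.restrict_apply_univ]
  obtain ⟨M, hM⟩ := bbdd f
  -- the product function
  have hQm : Measurable (fun p : SL2R × Z => |(f : Z → ℝ) (a.τ p.1 p.2) - (f : Z → ℝ) p.2|) :=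
    ((a.meas_comp (bmeas f)).sub ((bmeas f).comp measurable_snd)).abs
  have hQ2m : Measurable (fun p : SL2R × Z =>
      ((f : Z → ℝ) (a.τ p.1 p.2) - (f : Z → ℝ) p.2) ^ 2) :=
    ((a.meas_comp (bmeas f)).sub ((bmeas f).comp measurable_snd)).pow_const 2
  have hQ2i : Integrable (fun p : SL2R × Z =>
      ((f : Z → ℝ) (a.τ p.1 p.2) - (f : Z → ℝ) p.2) ^ 2) (ν.prod ζ) := by
    have h1 := a.sq_prod_int ν f
    have h2 : Integrable (fun p : SL2R × Z => (f : Z → ℝ) p.2 ^ 2) (ν.prod ζ) :=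
      (bsq f).comp_snd ν
    refine ((h1.const_mul 2).add (h2.const_mul 2)).mono' hQ2m.aestronglyMeasurable ?_
    filter_upwards with p
    rw [Real.norm_eq_abs, abs_pow, sq_abs]
    simp only [Pi.add_apply]
    nlinarith [sq_nonneg ((f : Z → ℝ) (a.τ p.1 p.2) + (f : Z → ℝ) p.2)]
  have hQb : ∀ (h : SL2R) (w : Z), |(f : Z → ℝ) (a.τ h w) - (f : Z → ℝ) w| ≤ 2 * M := by
    intro h w
    exact (abs_sub _ _).trans (by linarith [hM (a.τ h w), hM w])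
  have hsec : ∀ w, Integrable (fun h => |(f : Z → ℝ) (a.τ h w) - (f : Z → ℝ) w|) ν := by
    intro w
    refine integrable_of_bdd ν ((a.meas_sec (bmeas f) w).sub_const _).abs (M := 2 * M) fun h => ?_
    rw [abs_abs]
    exact hQb h w
  have hsec2 : ∀ w, Integrable (fun h => |(f : Z → ℝ) (a.τ h w) - (f : Z → ℝ) w| ^ 2) ν := by
    intro w
    refine integrable_of_bdd ν (((a.meas_sec (bmeas f) w).sub_const _).abs.pow_const 2)
      (M := (2 * M) ^ 2) fun h => ?_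
    rw [abs_pow, abs_abs]
    exact pow_le_pow_left₀ (abs_nonneg _) (hQb h w) 2
  have hGm : Measurable (fun w => ∫ h, |(f : Z → ℝ) (a.τ h w) - (f : Z → ℝ) w| ∂ν) :=
    hQm.stronglyMeasurable.integral_prod_left'.measurable
  have hcs : ∀ w, (∫ h, |(f : Z → ℝ) (a.τ h w) - (f : Z → ℝ) w| ∂ν) ^ 2
      ≤ ν.real univ * ∫ h, ((f : Z → ℝ) (a.τ h w) - (f : Z → ℝ) w) ^ 2 ∂ν := by
    intro w
    have h1 := sq_int_le_fin ν (hsec w) (hsec2 w)
    simp only [sq_abs] at h1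
    exact h1
  have hint : Integrable (fun w => ∫ h, ((f : Z → ℝ) (a.τ h w) - (f : Z → ℝ) w) ^ 2 ∂ν) ζ :=
    hQ2i.integral_prod_right
  have hG2 : Integrable (fun w => (∫ h, |(f : Z → ℝ) (a.τ h w) - (f : Z → ℝ) w| ∂ν) ^ 2) ζ := by
    refine (hint.const_mul (ν.real univ)).mono' (hGm.pow_const 2).aestronglyMeasurable ?_
    filter_upwards with w
    rw [Real.norm_eq_abs, abs_pow, sq_abs]
    exact hcs w
  have hψ : ∀ h : SL2R, ∫ w, ((f : Z → ℝ) (a.τ h w) - (f : Z → ℝ) w) ^ 2 ∂ζ = a.ψ f h ^ 2 := by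
    intro h
    unfold PAct.ψ
    rw [nrm_sq_eq]
    rfl
  have hψi : Integrable (fun h => a.ψ f h ^ 2) ν := by
    have h1 := hQ2i.integral_prod_left
    refine h1.congr ?_
    filter_upwards with h
    exact hψ h
  refine ⟨⟨fun w => ∫ h, |(f : Z → ℝ) (a.τ h w) - (f : Z → ℝ) w| ∂ν, hGm,
    ⟨2 * M * ν.real univ, fun w => ?_⟩, hG2⟩, fun w => rfl, hψi, ?_⟩
  · rw [abs_of_nonneg (integral_nonneg fun h => abs_nonneg _)]
    calc ∫ h, |(f : Z → ℝ) (a.τ h w) - (f : Z → ℝ) w| ∂ν ≤ ∫ _, 2 * M ∂ν :=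
          integral_mono (hsec w) (integrable_const _) fun h => hQb h w
      _ = 2 * M * ν.real univ := by
          rw [integral_const, smul_eq_mul, mul_comm]
  · unfold N2
    rw [frm_self, ← hνu]
    calc ∫ w, (∫ h, |(f : Z → ℝ) (a.τ h w) - (f : Z → ℝ) w| ∂ν) ^ 2 ∂ζ
        ≤ ∫ w, ν.real univ * ∫ h, ((f : Z → ℝ) (a.τ h w) - (f : Z → ℝ) w) ^ 2 ∂ν ∂ζ :=
          integral_mono hG2 (hint.const_mul _) fun w => hcs w
      _ = ν.real univ * ∫ w, ∫ h, ((f : Z → ℝ) (a.τ h w) - (f : Z → ℝ) w) ^ 2 ∂ν ∂ζ :=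
          integral_const_mul _ _
      _ = ν.real univ * ∫ h, ∫ w, ((f : Z → ℝ) (a.τ h w) - (f : Z → ℝ) w) ^ 2 ∂ζ ∂ν := by
          rw [integral_integral_swap (f := fun h w =>
            ((f : Z → ℝ) (a.τ h w) - (f : Z → ℝ) w) ^ 2) hQ2i]
      _ = ν.real univ * ∫ h, a.ψ f h ^ 2 ∂ν := by simp_rw [hψ]

/-- The norm of the local variation. -/
lemma gl_le (a : PAct SL2R ζ) (f : BL2 ζ) (R C : ℝ)
    (hC : ∀ g : SL2R, nS g ≤ R → a.ψ f g ^ 2 ≤ C * a.E nuK f) : ∃ G : BL2 ζ,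
    (∀ w, (G : Z → ℝ) w = ∫ h in Bn R, |(f : Z → ℝ) (a.τ h w) - (f : Z → ℝ) w| ∂mH) ∧
    N2 G ≤ mH.real (Bn R) ^ 2 * C * a.E nuK f := by
  have hfin := fin_ball R
  obtain ⟨G, h1, hi, h2⟩ := gl a f R
  refine ⟨G, h1, h2.trans ?_⟩
  have h3 : ∫ h in Bn R, a.ψ f h ^ 2 ∂mH ≤ ∫ _h in Bn R, C * a.E nuK f ∂mH :=
    setIntegral_mono_on hi (integrableOn_const (mH_ball_lt R).ne) (ball_meas R) fun g hg => hC g hg
  rw [setIntegral_const, smul_eq_mul] at h3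
  have h4 : 0 ≤ mH.real (Bn R) := measureReal_nonneg
  calc mH.real (Bn R) * ∫ h in Bn R, a.ψ f h ^ 2 ∂mH
      ≤ mH.real (Bn R) * (mH.real (Bn R) * (C * a.E nuK f)) := mul_le_mul_of_nonneg_left h3 h4
    _ = _ := by ring

/-- Right translation of integrals. -/
lemma int_right (c : SL2R) {F : SL2R → ℝ} (hF : Measurable F) :
    ∫ h, F h ∂mH = ∫ g, F (g * c) ∂mH := by
  conv_lhs => rw [← mH_right c]
  rw [integral_map (measurable_mul_const c).aemeasurable hF.aestronglyMeasurable]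

lemma wd_right_integrable (c : SL2R) : Integrable (fun h => wd (h * c⁻¹)) mH := by
  have h1 : Integrable wd (mH.map (· * c⁻¹)) := by rw [mH_right]; exact wd_integrable
  exact (integrable_map_measure measurable_wd.aestronglyMeasurable
    (measurable_mul_const c⁻¹).aemeasurable).1 h1

lemma wd_right_int (c : SL2R) : ∫ h, wd (h * c⁻¹) ∂mH = 1 := by
  rw [← int_right c⁻¹ measurable_wd, wd_int]

/-- The representation of an average. -/
lemma rep (a : PAct SL2R ζ) (f : BL2 ζ) (c : SL2R) (w : Z) :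
    ((a.A nuK f : BL2 ζ) : Z → ℝ) (a.τ c w) = ∫ h, wd (h * c⁻¹) * (f : Z → ℝ) (a.τ h w) ∂mH := by
  rw [a.A_apply, nuK_integral, int_right c (F := fun h => wd (h * c⁻¹) * (f : Z → ℝ) (a.τ h w))]
  · congr 1; ext g
    rw [mul_inv_cancel_right, a.mul]
  · exact (measurable_wd.comp (measurable_mul_const _)).mul (a.meas_sec (bmeas f) w)

/-- Support of the density. -/
lemma wd_supp {h c : SL2R} {S : ℝ} (hc : nS c ≤ S) (hh : wd (h * c⁻¹) ≠ 0) : nS h ≤ 5 * S := by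
  have h1 : xx (h * c⁻¹) < 3 := by
    by_contra hcon
    push Not at hcon
    apply hh
    unfold wd
    rw [wp_zero hcon, mul_zero]
  have h2 : nS (h * c⁻¹) ≤ 5 := by
    have h3 := nS_sq_le (h * c⁻¹)
    nlinarith [nS_pos (h * c⁻¹)]
  have h3 : nS h ≤ nS (h * c⁻¹) * nS c := by
    have h4 := nS_mul_le (h * c⁻¹) c
    rwa [inv_mul_cancel_right] at h4
  have h5 := nS_pos c
  have h6 := nS_pos (h * c⁻¹)
  nlinarith

/-- The main estimate. -/
lemma main (a : PAct SL2R ζ) (f : BL2 ζ) {c c' : SL2R} {S D : ℝ} (hc : nS c ≤ S) (hc' : nS c' ≤ S)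
    (hD : ∀ h ∈ Bn (5 * S), |wd (h * c⁻¹) - wd (h * c'⁻¹)| ≤ D) (w : Z) :
    |((a.A nuK f : BL2 ζ) : Z → ℝ) (a.τ c w) - ((a.A nuK f : BL2 ζ) : Z → ℝ) (a.τ c' w)|
      ≤ D * ∫ h in Bn (5 * S), |(f : Z → ℝ) (a.τ h w) - (f : Z → ℝ) w| ∂mH := by
  have hfin := fin_ball (5 * S)
  obtain ⟨M, hM⟩ := bbdd f
  have hfm : Measurable (fun h => (f : Z → ℝ) (a.τ h w)) := a.meas_sec (bmeas f) w
  have hi1 : ∀ c : SL2R, Integrable (fun h => wd (h * c⁻¹) * (f : Z → ℝ) (a.τ h w)) mH := by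
    intro c
    refine ((wd_right_integrable c).mul_const M).mono'
      ((measurable_wd.comp (measurable_mul_const _)).mul hfm).aestronglyMeasurable ?_
    filter_upwards with k
    rw [Real.norm_eq_abs, abs_mul, abs_of_nonneg (wd_nonneg _)]
    exact mul_le_mul_of_nonneg_left (hM _) (wd_nonneg _)
  have e1 : ((a.A nuK f : BL2 ζ) : Z → ℝ) (a.τ c w) - ((a.A nuK f : BL2 ζ) : Z → ℝ) (a.τ c' w)
      = ∫ h, (wd (h * c⁻¹) - wd (h * c'⁻¹)) * ((f : Z → ℝ) (a.τ h w) - (f : Z → ℝ) w) ∂mH := by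
    rw [rep, rep]
    have e2 : (fun h => (wd (h * c⁻¹) - wd (h * c'⁻¹)) * ((f : Z → ℝ) (a.τ h w) - (f : Z → ℝ) w))
        = fun h => (wd (h * c⁻¹) * (f : Z → ℝ) (a.τ h w) - wd (h * c'⁻¹) * (f : Z → ℝ) (a.τ h w))
          - (wd (h * c⁻¹) * (f : Z → ℝ) w - wd (h * c'⁻¹) * (f : Z → ℝ) w) := by
      ext h; ring
    have i1 := (wd_right_integrable c).mul_const ((f : Z → ℝ) w)
    have i2 := (wd_right_integrable c').mul_const ((f : Z → ℝ) w)
    have i3 : Integrable (fun h => wd (h * c⁻¹) * (f : Z → ℝ) (a.τ h w)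
        - wd (h * c'⁻¹) * (f : Z → ℝ) (a.τ h w)) mH := (hi1 c).sub (hi1 c')
    have i4 : Integrable (fun h => wd (h * c⁻¹) * (f : Z → ℝ) w
        - wd (h * c'⁻¹) * (f : Z → ℝ) w) mH := i1.sub i2
    rw [e2, integral_sub i3 i4, integral_sub (hi1 c) (hi1 c'), integral_sub i1 i2,
      integral_mul_const, integral_mul_const, wd_right_int, wd_right_int]
    ring
  have e3 : ∫ h, (wd (h * c⁻¹) - wd (h * c'⁻¹)) * ((f : Z → ℝ) (a.τ h w) - (f : Z → ℝ) w) ∂mH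
      = ∫ h in Bn (5 * S), (wd (h * c⁻¹) - wd (h * c'⁻¹))
        * ((f : Z → ℝ) (a.τ h w) - (f : Z → ℝ) w) ∂mH := by
    rw [setIntegral_eq_integral_of_forall_compl_eq_zero]
    intro h hh
    have h1 : wd (h * c⁻¹) = 0 := by
      by_contra hcon
      exact hh (wd_supp hc hcon)
    have h2 : wd (h * c'⁻¹) = 0 := by
      by_contra hcon
      exact hh (wd_supp hc' hcon)
    rw [h1, h2, sub_zero, zero_mul]
  rw [e1, e3]
  have hsi : Integrable (fun h => |(f : Z → ℝ) (a.τ h w) - (f : Z → ℝ) w|)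
      (mH.restrict (Bn (5 * S))) := by
    refine integrable_of_bdd _ (hfm.sub_const _).abs (M := 2 * M) fun h => ?_
    rw [abs_abs]
    exact (abs_sub _ _).trans (by linarith [hM (a.τ h w), hM w])
  rw [← integral_const_mul]
  refine (abs_integral_le_integral_abs).trans ?_
  refine setIntegral_mono_on ?_ (hsi.const_mul D) (ball_meas _) ?_
  · have hm : Measurable (fun h => |(wd (h * c⁻¹) - wd (h * c'⁻¹))
        * ((f : Z → ℝ) (a.τ h w) - (f : Z → ℝ) w)|) :=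
      (((measurable_wd.comp (measurable_mul_const _)).sub
        (measurable_wd.comp (measurable_mul_const _))).mul (hfm.sub_const _)).abs
    refine integrable_of_bdd _ hm (M := (16 * wc) * (2 * M)) fun h => ?_
    rw [abs_abs, abs_mul]
    have hw := wc_pos
    refine mul_le_mul ?_ ((abs_sub _ _).trans (by linarith [hM (a.τ h w), hM w])) (abs_nonneg _)
      (by positivity)
    refine (abs_sub _ _).trans ?_
    rw [abs_of_nonneg (wd_nonneg _), abs_of_nonneg (wd_nonneg _)]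
    linarith [wd_le (h * c⁻¹), wd_le (h * c'⁻¹)]
  · intro h hh
    rw [abs_mul]
    exact mul_le_mul_of_nonneg_right (hD h hh) (abs_nonneg _)

/-- The profile is Lipschitz. -/
lemma wp_lip {x y : ℝ} (hx : 1 ≤ x) (hy : 1 ≤ y) : |wp x - wp y| ≤ 12 * |x - y| := by
  unfold wp
  set p := max 0 (3 - x) with hp
  set q := max 0 (3 - y) with hq
  have hp0 : 0 ≤ p := le_max_left _ _
  have hq0 : 0 ≤ q := le_max_left _ _
  have hp2 : p ≤ 2 := max_le (by norm_num) (by linarith)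
  have hq2 : q ≤ 2 := max_le (by norm_num) (by linarith)
  have h1 : |p - q| ≤ |x - y| := by
    rw [hp, hq, max_comm, max_comm (0 : ℝ)]
    refine (abs_max_sub_max_le_abs _ _ _).trans ?_
    rw [sub_sub_sub_cancel_left, abs_sub_comm]
  have h2 : p ^ 3 - q ^ 3 = (p - q) * (p ^ 2 + p * q + q ^ 2) := by ring
  have h3 : 0 ≤ p ^ 2 + p * q + q ^ 2 := by positivity
  have h4 : p ^ 2 + p * q + q ^ 2 ≤ 12 := by nlinarith
  rw [h2, abs_mul, abs_of_nonneg h3, mul_comm]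
  exact mul_le_mul h4 h1 (abs_nonneg _) (by norm_num)

lemma xx_lip (g g' : SL2R) : |xx g - xx g'|
    ≤ nM ((g : Matrix (Fin 2) (Fin 2) ℝ) - (g' : Matrix (Fin 2) (Fin 2) ℝ)) * (nS g + nS g') := by
  have hg : nS g = |g 0 0| + |g 0 1| + |g 1 0| + |g 1 1| := rfl
  have hg' : nS g' = |g' 0 0| + |g' 0 1| + |g' 1 0| + |g' 1 1| := rfl
  have hn : nM ((g : Matrix (Fin 2) (Fin 2) ℝ) - (g' : Matrix (Fin 2) (Fin 2) ℝ))
      = |g 0 0 - g' 0 0| + |g 0 1 - g' 0 1| + |g 1 0 - g' 1 0| + |g 1 1 - g' 1 1| := rfl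
  have key : ∀ x y s : ℝ, |x| + |y| ≤ s → |x ^ 2 - y ^ 2| ≤ |x - y| * s := by
    intro x y s hs
    have : x ^ 2 - y ^ 2 = (x - y) * (x + y) := by ring
    rw [this, abs_mul]
    exact mul_le_mul_of_nonneg_left ((abs_add_le _ _).trans hs) (abs_nonneg _)
  have p0 := abs_nonneg (g 0 0)
  have p1 := abs_nonneg (g 0 1)
  have p2 := abs_nonneg (g 1 0)
  have p3 := abs_nonneg (g 1 1)
  have q0 := abs_nonneg (g' 0 0)
  have q1 := abs_nonneg (g' 0 1)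
  have q2 := abs_nonneg (g' 1 0)
  have q3 := abs_nonneg (g' 1 1)
  have k0 := key (g 0 0) (g' 0 0) (nS g + nS g') (by rw [hg, hg']; linarith)
  have k1 := key (g 0 1) (g' 0 1) (nS g + nS g') (by rw [hg, hg']; linarith)
  have k2 := key (g 1 0) (g' 1 0) (nS g + nS g') (by rw [hg, hg']; linarith)
  have k3 := key (g 1 1) (g' 1 1) (nS g + nS g') (by rw [hg, hg']; linarith)
  have e : xx g - xx g' = ((g 0 0 ^ 2 - g' 0 0 ^ 2) + (g 0 1 ^ 2 - g' 0 1 ^ 2)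
      + (g 1 0 ^ 2 - g' 1 0 ^ 2) + (g 1 1 ^ 2 - g' 1 1 ^ 2)) / 2 := by
    unfold xx; ring
  have h1 := abs_add_le ((g 0 0 ^ 2 - g' 0 0 ^ 2) + (g 0 1 ^ 2 - g' 0 1 ^ 2)
      + (g 1 0 ^ 2 - g' 1 0 ^ 2)) (g 1 1 ^ 2 - g' 1 1 ^ 2)
  have h2 := abs_add_le ((g 0 0 ^ 2 - g' 0 0 ^ 2) + (g 0 1 ^ 2 - g' 0 1 ^ 2))
      (g 1 0 ^ 2 - g' 1 0 ^ 2)
  have h3 := abs_add_le (g 0 0 ^ 2 - g' 0 0 ^ 2) (g 0 1 ^ 2 - g' 0 1 ^ 2)
  have hnn : 0 ≤ nM ((g : Matrix (Fin 2) (Fin 2) ℝ) - (g' : Matrix (Fin 2) (Fin 2) ℝ))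
      * (nS g + nS g') := mul_nonneg (nM_nonneg _) (by linarith [nS_pos g, nS_pos g'])
  rw [e, abs_div, abs_of_pos (by norm_num : (0:ℝ) < 2), div_le_iff₀ (by norm_num)]
  rw [hn] at hnn ⊢
  nlinarith

lemma wd_lip (g g' : SL2R) : |wd g - wd g'|
    ≤ 12 * wc * (nM ((g : Matrix (Fin 2) (Fin 2) ℝ) - (g' : Matrix (Fin 2) (Fin 2) ℝ))
      * (nS g + nS g')) := by
  unfold wd
  rw [← mul_sub, abs_mul, abs_of_pos wc_pos]
  have h1 := wp_lip (one_le_xx g) (one_le_xx g')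
  have h2 := xx_lip g g'
  have h3 := wc_pos
  calc wc * |wp (xx g) - wp (xx g')| ≤ wc * (12 * |xx g - xx g'|) :=
        mul_le_mul_of_nonneg_left h1 h3.le
    _ = 12 * wc * |xx g - xx g'| := by ring
    _ ≤ _ := mul_le_mul_of_nonneg_left h2 (by positivity)

/-- Inversion preserves the distance of matrices. -/
lemma nM_inv_sub (c c' : SL2R) : nM (((c⁻¹ : SL2R) : Matrix (Fin 2) (Fin 2) ℝ) - (c'⁻¹ : SL2R))
    = nM ((c : Matrix (Fin 2) (Fin 2) ℝ) - (c' : Matrix (Fin 2) (Fin 2) ℝ)) := by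
  unfold nM
  simp only [Matrix.SpecialLinearGroup.coe_inv, Matrix.adjugate_fin_two, Matrix.sub_apply,
    Matrix.of_apply, Matrix.cons_val', Matrix.cons_val_zero, Matrix.cons_val_one,
    Matrix.cons_val_fin_one]
  rw [neg_sub_neg, neg_sub_neg, abs_sub_comm (c' 0 1), abs_sub_comm (c' 1 0)]
  ring

/-- The Lipschitz bound of the translated densities. -/
lemma wd_trans_lip {c c' h : SL2R} {S : ℝ} (hc : nS c ≤ S) (hc' : nS c' ≤ S)
    (hh : h ∈ Bn (5 * S)) : |wd (h * c⁻¹) - wd (h * c'⁻¹)|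
    ≤ 600 * wc * S ^ 3 * nM ((c : Matrix (Fin 2) (Fin 2) ℝ) - (c' : Matrix (Fin 2) (Fin 2) ℝ)) := by
  have hh' : nS h ≤ 5 * S := hh
  have hS : 0 < S := (nS_pos c).trans_le hc
  have hn := nM_nonneg ((c : Matrix (Fin 2) (Fin 2) ℝ) - (c' : Matrix (Fin 2) (Fin 2) ℝ))
  have h1 : nM (((h * c⁻¹ : SL2R) : Matrix (Fin 2) (Fin 2) ℝ) - ((h * c'⁻¹ : SL2R) :
      Matrix (Fin 2) (Fin 2) ℝ)) ≤ 5 * S
        * nM ((c : Matrix (Fin 2) (Fin 2) ℝ) - (c' : Matrix (Fin 2) (Fin 2) ℝ)) := by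
    rw [Matrix.SpecialLinearGroup.coe_mul, Matrix.SpecialLinearGroup.coe_mul, ← Matrix.mul_sub]
    refine (nM_mul_le _ _).trans ?_
    rw [nM_inv_sub]
    exact mul_le_mul_of_nonneg_right hh' hn
  have h2 : ∀ c : SL2R, nS c ≤ S → nS (h * c⁻¹) ≤ 5 * S * S := by
    intro c hc
    refine (nS_mul_le _ _).trans ?_
    rw [nS_inv]
    exact mul_le_mul hh' hc (nS_pos c).le (by positivity)
  refine (wd_lip _ _).trans ?_
  have hw := wc_pos
  have h3 : nM (((h * c⁻¹ : SL2R) : Matrix (Fin 2) (Fin 2) ℝ) - ((h * c'⁻¹ : SL2R) :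
      Matrix (Fin 2) (Fin 2) ℝ)) * (nS (h * c⁻¹) + nS (h * c'⁻¹))
      ≤ (5 * S * nM ((c : Matrix (Fin 2) (Fin 2) ℝ) - (c' : Matrix (Fin 2) (Fin 2) ℝ)))
        * (5 * S * S + 5 * S * S) := by
    refine mul_le_mul h1 (add_le_add (h2 c hc) (h2 c' hc')) ?_ (by positivity)
    linarith [nS_pos (h * c⁻¹), nS_pos (h * c'⁻¹)]
  calc 12 * wc * (nM (((h * c⁻¹ : SL2R) : Matrix (Fin 2) (Fin 2) ℝ) - ((h * c'⁻¹ : SL2R) :
      Matrix (Fin 2) (Fin 2) ℝ)) * (nS (h * c⁻¹) + nS (h * c'⁻¹)))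
      ≤ 12 * wc * ((5 * S * nM ((c : Matrix (Fin 2) (Fin 2) ℝ)
        - (c' : Matrix (Fin 2) (Fin 2) ℝ))) * (5 * S * S + 5 * S * S)) :=
        mul_le_mul_of_nonneg_left h3 (by positivity)
    _ = _ := by ring

end R19

end

theorem cost (S : ℝ) : ∃ C : ℝ, 0 ≤ C ∧ ∀ (Z : Type) [MeasurableSpace Z] (ζ : Measure Z)
    [SigmaFinite ζ] (b : PAct SL2R ζ) (f : BL2 ζ), ∃ G : BL2 ζ, N2 G ≤ C * b.E nuK f ∧
      ∀ (q : SL2R) (w : Z), nS q ≤ S →
        |((b.A nuK f : BL2 ζ) : Z → ℝ) (b.τ q w) - ((b.A nuK f : BL2 ζ) : Z → ℝ) w|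
          ≤ (G : Z → ℝ) w := by
  obtain ⟨S', hS'⟩ : ∃ S', S' = max S 2 := ⟨_, rfl⟩
  obtain ⟨C, hC0, hC⟩ := disp (5 * S')
  have hw := wc_pos
  have hm : 0 ≤ mH.real (Bn (5 * S')) := measureReal_nonneg
  refine ⟨(16 * wc) ^ 2 * (mH.real (Bn (5 * S')) ^ 2 * C), by positivity, ?_⟩
  intro Z _ ζ _ b f
  obtain ⟨G, hG1, hG2⟩ := R19.gl_le b f (5 * S') C fun g hg => hC Z ζ b f g hg
  refine ⟨(16 * wc) • G, ?_, ?_⟩
  · rw [N2_smul, mul_assoc]
    exact mul_le_mul_of_nonneg_left hG2 (by positivity)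
  · intro q w hq
    have h1 : nS (1 : SL2R) ≤ S' := by
      have e : nS (1 : SL2R) = 2 := by
        unfold nS nM; simp; norm_num
      rw [e, hS']
      exact le_max_right _ _
    have h2 := R19.main b f (c := q) (c' := 1) (S := S') (D := 16 * wc)
      (hq.trans (by rw [hS']; exact le_max_left _ _)) h1 (fun h _ => by
        refine (abs_sub _ _).trans ?_
        rw [abs_of_nonneg (wd_nonneg _), abs_of_nonneg (wd_nonneg _)]
        linarith [wd_le (h * q⁻¹), wd_le (h * (1 : SL2R)⁻¹)]) w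
    rw [b.one] at h2
    refine h2.trans (le_of_eq ?_)
    rw [← hG1]
    rfl

theorem lip (S : ℝ) : ∃ C : ℝ, 0 ≤ C ∧ ∀ (Z : Type) [MeasurableSpace Z] (ζ : Measure Z)
    [SigmaFinite ζ] (a : PAct SL2R ζ) (f : BL2 ζ), ∃ J : BL2 ζ, N2 J ≤ C * a.E nuK f ∧
      ∀ (u c : SL2R) (w : Z), nS u ≤ S → d1 c ≤ 1 →
        |((a.A nuK f : BL2 ζ) : Z → ℝ) (a.τ (u * c) w) - ((a.A nuK f : BL2 ζ) : Z → ℝ) (a.τ u w)|
          ≤ d1 c * (J : Z → ℝ) w := by
  obtain ⟨S1, hS1⟩ : ∃ S1, S1 = max S 2 := ⟨_, rfl⟩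
  have hS1pos : 0 < S1 := by rw [hS1]; exact lt_max_of_lt_right (by norm_num)
  obtain ⟨C, hC0, hC⟩ := disp (5 * (3 * S1))
  have hw := wc_pos
  have hm : 0 ≤ mH.real (Bn (5 * (3 * S1))) := measureReal_nonneg
  refine ⟨(600 * wc * (3 * S1) ^ 3 * S1) ^ 2 * (mH.real (Bn (5 * (3 * S1))) ^ 2 * C),
    by positivity, ?_⟩
  intro Z _ ζ _ a f
  obtain ⟨G, hG1, hG2⟩ := R19.gl_le a f (5 * (3 * S1)) C fun g hg => hC Z ζ a f g hg
  refine ⟨(600 * wc * (3 * S1) ^ 3 * S1) • G, ?_, ?_⟩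
  · rw [N2_smul]
    have h5 := mul_le_mul_of_nonneg_left hG2 (sq_nonneg (600 * wc * (3 * S1) ^ 3 * S1))
    refine h5.trans (le_of_eq ?_)
    ring
  · intro u c w hu hc
    have hu1 : nS u ≤ S1 := hu.trans (by rw [hS1]; exact le_max_left _ _)
    have hnc : nS c ≤ 3 := by
      have h3 := nM_sub_le (c : Matrix (Fin 2) (Fin 2) ℝ) 1
      have h4 : nM (1 : Matrix (Fin 2) (Fin 2) ℝ) = 2 := by
        unfold nM; simp; norm_num
      rw [h4] at h3
      unfold d1 at hc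
      unfold nS
      linarith
    have hd0 : 0 ≤ d1 c := nM_nonneg _
    have huc : nS (u * c) ≤ 3 * S1 := by
      refine (nS_mul_le _ _).trans ?_
      nlinarith [nS_pos u, nS_pos c]
    have hu2 : nS u ≤ 3 * S1 := by linarith
    have hdist : nM (((u * c : SL2R) : Matrix (Fin 2) (Fin 2) ℝ) - (u : Matrix (Fin 2) (Fin 2) ℝ))
        ≤ S1 * d1 c := by
      have e : ((u * c : SL2R) : Matrix (Fin 2) (Fin 2) ℝ) - (u : Matrix (Fin 2) (Fin 2) ℝ)
          = (u : Matrix (Fin 2) (Fin 2) ℝ) * ((c : Matrix (Fin 2) (Fin 2) ℝ) - 1) := by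
        rw [Matrix.SpecialLinearGroup.coe_mul, Matrix.mul_sub, Matrix.mul_one]
      rw [e]
      refine (nM_mul_le _ _).trans ?_
      exact mul_le_mul_of_nonneg_right hu1 hd0
    have h2 := R19.main a f (c := u * c) (c' := u) (S := 3 * S1)
      (D := 600 * wc * (3 * S1) ^ 3 * (S1 * d1 c)) huc hu2 (fun h hh =>
        (R19.wd_trans_lip huc hu2 hh).trans (mul_le_mul_of_nonneg_left hdist (by positivity))) w
    refine h2.trans (le_of_eq ?_)
    rw [← hG1]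
    change _ = d1 c * ((600 * wc * (3 * S1) ^ 3 * S1) * (G : Z → ℝ) w)
    ring

end Pool.Agent.SZ.PR
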