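import Mathlib
import Pool.Agent.SZ.RDefs
import Pool.Agent.SZ.R01
import Pool.Agent.SZ.R02
import Pool.Agent.SZ.R03
import Pool.Agent.SZ.R04
import Pool.Agent.SZ.R05
import Pool.Agent.SZ.R07
import Pool.Agent.SZ.R10
import Pool.Agent.SZ.R11
import Pool.Agent.SZ.R16
import Pool.Agent.SZ.R19

/-!
# SZ part R, module R17: the high frequencies

Order of the constants.  Let `C9 = 16 * 36^4` (`RI_le` for radius 36).  `ψ = a.T (dd r) Φ`, `f_k = ff a ψ k`, `h_k = MM a (k+k2) f_k`, `N2 ψ = N2 Φ`.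
Given `ε, R', C, c, T`: choose `lam` with `C9 * 8 * 4 * 4^-lam (lam+1)^2 <= ε/5`; `k2` with `2 * C9 * 64 (k2+2)^2 4^-k2 <= ε/5`; `k1` with
`C9 * 8 * 16 * (2 * 11664 * 2^(k2-k1))^2 * 4 <= ε/5` (as real number `2^k2 * 2^-k1`); then `Λ := ⌈15552 * 2^(lam+k1) / c⌉₊ + 1`, so that `L/(κ d) + 1 <= Λ` for all
`k >= lam`: `L/(κ d) = 2^-(k+1-lam) / (c/15552 * 2^-(k+k1)) = 15552 2^(lam+k1-1)/c`; `A0 := 2^lam + 4*Λ*11664 + 2*11664 >= 1` (then `A := A0 2^-k` satisfies `hA1, hA2` of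
`high_pt`); `C10` := the constant of `E1 A0 k2`; `k0 >= lam` with `100 Λ^2 11664 2^-k0 <= 1`, `A0 2^-k0 <= 1/100`, `C9 * 8 * C10 * 2 * 4^-k0 <= ε/5`;
`δ := 1/(10^4 * 36^4)`.  Given `T2`: `C19` := the constant of `cost (max T T2)`, and `C1` as computed below.
For `k0 <= k < K`: `h_k = b.A nuK h''_k`, `h''_k = MM a (k+k2) (ff a (a.T (dd r) Φ'') k)` (`A_T_comm`, `A_comm` in `IRS/Avg3.lean`).  `cost` gives `G_k` with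
`N2 G_k <= C19 * b.E nuK h''_k = C19 * Eb b h''_k <= C19 * Eb b (ff a (a.T (dd r) Φ'') k)` (`Eb_MM`).  `E2` (for `f_k`, `i = k+k2`, `Δ = 2*11664*2^-(k+k1)`) gives `E_k`;
`E1` gives `Er_k`.  `high_pt` for every `z in W`, integrated over `W` (both sides are integrable: `Rz_integrable`):
`RI a W 36 h_k <= 4 (RI 36 (M h_k) + RI 36 (M E_k) + RI 36 Er_k) + C11 (1+k+k1) RI a W (max 400 R') G_k`, `M = MM a (k+1-lam)`,
`C11 = 12 (3(2Λ+1))^2 (Λ^2 |C||T| + 2)`.  (`12 N^2 (Λ^2 |C|(1+k+k1)|T| + 2) <= C11 (1+k+k1)`.)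
By `RI_le`, `N2_A_le`: `RI 36 (M h_k) <= C9 N2 (M h_k) <= C9 N2 (MM a (k+1-lam) f_k)` (`MM_comm`); `RI 36 (M E_k) <= C9 N2 E_k <= C9 16 (2*11664*2^(k2-k1))^2 N2 f_k`;
`RI 36 Er_k <= C9 C10 4^-k (N2 Φ + N2 J)`; `RI (max 400 R') G_k <= 16 (max 400 R')^4 N2 G_k`.
`RI 36 f_k <= 2 RI 36 h_k + 2 RI 36 (f_k - h_k) <= 2 RI 36 h_k + 2 C9 N2 (f_k - h_k)`.  Sum over `k in [k0,K)`: `ML`, `HF` (with `tend`), `N2_sum`,
`sum_{k>=k0} 4^-k <= 2 * 4^-k0`, `Eb_sum` and `Eb_T`: `sum_k (1+k+k1) Eb b (ff ..) <= (1+k1)(1+K) 4 Eb b Φ''`.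
-/

set_option autoImplicit false
set_option linter.unusedVariables false
set_option linter.unusedSectionVars false

namespace Pool.Agent.SZ.PR

open Pool.Agent.IRS MeasureTheory Set Filter Topology

namespace R17

lemma ex_small (x : ℝ) (hx : 0 < x) : ∃ n : ℕ, (2⁻¹ : ℝ) ^ n ≤ x := by
  obtain ⟨n, hn⟩ := exists_pow_lt_of_lt_one hx (by norm_num : (2⁻¹ : ℝ) < 1)
  exact ⟨n, hn.le⟩

lemma ex_quad (X x : ℝ) (hx : 0 < x) :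
    ∃ n : ℕ, X * (((n : ℝ) + 2) ^ 2 * (4⁻¹ : ℝ) ^ n) ≤ x := by
  have h := tendsto_pow_const_mul_const_pow_of_abs_lt_one (r := (4⁻¹ : ℝ)) 2
    (by rw [abs_of_pos] <;> norm_num)
  have h2 := (h.comp (tendsto_add_atTop_nat 2)).const_mul (16 * X)
  rw [mul_zero] at h2
  obtain ⟨n, hn⟩ := (h2.eventually_lt_const hx).exists
  refine ⟨n, le_of_eq_of_le ?_ hn.le⟩
  simp only [Function.comp_apply]
  push_cast
  rw [pow_add (4⁻¹ : ℝ) n 2]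
  ring

lemma N2_MM_le {Z : Type*} [MeasurableSpace Z] {ζ : Measure Z} [SigmaFinite ζ] (a : PAct SL2R ζ)
    (k : ℕ) (f : BL2 ζ) : N2 (MM a k f) ≤ N2 f := N2_A_le a (sg k) f

lemma RI_le9 {Z : Type*} [MeasurableSpace Z] {ζ : Measure Z} [SigmaFinite ζ] (a : PAct SL2R ζ)
    {W : Set Z} (hW : MeasurableSet W) (f : BL2 ζ) : RI a W 36 f ≤ 16 * 36 ^ 4 * N2 f :=
  RI_le a hW (by norm_num) f

lemma step {Z : Type*} [MeasurableSpace Z] {ζ : Measure Z} [SigmaFinite ζ] (a b : PAct SL2R ζ)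
    (hab : ∀ g h z, a.τ g (b.τ h z) = b.τ h (a.τ g z)) {W : Set Z} (hW : MeasurableSet W)
    {R' C c T δ T2 : ℝ} (hz : ∀ z ∈ W, Gd a b 1000 R' C c T δ 3 T2 z) (hc : 0 < c)
    (hδ : δ ≤ 1 / (10 ^ 4 * 36 ^ 4)) {f Er G : BL2 ζ} {k k1 k2 lam Λ : ℕ} (hk : lam ≤ k)
    (hΛ : 2⁻¹ ^ (k + 1 - lam) / (c / (15552 * 11664) * (11664 * 2⁻¹ ^ (k + k1))) + 1 ≤ (Λ : ℝ))
    (hΛ2 : 100 * (Λ : ℝ) ^ 2 * (11664 * 2⁻¹ ^ (k + k1)) ≤ 1) {A : ℝ}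
    (hA1 : 2⁻¹ ^ (k + 1 - lam) + 2 * (11664 * 2⁻¹ ^ (k + k1)) ≤ A)
    (hA2 : 4 * (Λ : ℝ) * (11664 * 2⁻¹ ^ (k + k1)) ≤ A)
    (hEr : ∀ (w : Z) (t x v : ℝ) (hx : x ≠ 0), |t| ≤ A → |x - 1| ≤ A → |v| ≤ A →
      |((MM a (k + k2) f : BL2 ζ) : Z → ℝ) (a.τ (uu t * lt x v hx) w)
        - ((MM a (k + k2) f : BL2 ζ) : Z → ℝ) (a.τ (uu t) w)| ≤ (Er : Z → ℝ) w)
    (hG : ∀ (q : SL2R) (w : Z), nS q ≤ max T T2 →
      |((MM a (k + k2) f : BL2 ζ) : Z → ℝ) (b.τ q w) - ((MM a (k + k2) f : BL2 ζ) : Z → ℝ) w|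
        ≤ (G : Z → ℝ) w) :
    RI a W 36 (MM a (k + k2) f) ≤ 4 * (16 * 36 ^ 4) * (N2 (MM a (k + 1 - lam) f)
        + 16 * (2 * (11664 * 2⁻¹ ^ (k + k1)) * 2 ^ (k + k2)) ^ 2 * N2 f + N2 Er)
      + 12 * (3 * (2 * (Λ : ℝ) + 1)) ^ 2 * ((Λ : ℝ) ^ 2 * (|C| * (1 + k + k1) * |T|) + 2)
        * (16 * (max 400 R') ^ 4 * N2 G) := by
  obtain ⟨E, hEN, hE⟩ := E2 a f (k + k2) (Δ := 2 * (11664 * 2⁻¹ ^ (k + k1))) (by positivity)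
  set h := MM a (k + k2) f with hh
  set D : ℝ := 12 * (3 * (2 * (Λ : ℝ) + 1)) ^ 2 * ((Λ : ℝ) ^ 2 * (|C| * (1 + k + k1) * |T|) + 2)
    with hD
  have hD0 : 0 ≤ D := by positivity
  have hpt : ∀ z ∈ W, Rz a 36 z h ≤ 4 * (Rz a 36 z (MM a (k + 1 - lam) h)
      + Rz a 36 z (MM a (k + 1 - lam) E) + Rz a 36 z Er) + D * Rz a (max 400 R') z G :=
    fun z hzW => high_pt a b hab (hz z hzW) hc hδ hk hΛ hΛ2 hA1 hA2 hE hEr hG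
  have i1 := (Rz_integrable a 36 h).integrableOn (s := W)
  have i2 := (Rz_integrable a 36 (MM a (k + 1 - lam) h)).integrableOn (s := W)
  have i3 := (Rz_integrable a 36 (MM a (k + 1 - lam) E)).integrableOn (s := W)
  have i4 := (Rz_integrable a 36 Er).integrableOn (s := W)
  have i5 := (Rz_integrable a (max 400 R') G).integrableOn (s := W)
  have i23 : IntegrableOn (fun z => Rz a 36 z (MM a (k + 1 - lam) h)
      + Rz a 36 z (MM a (k + 1 - lam) E)) W ζ := i2.add i3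
  have i234 : IntegrableOn (fun z => Rz a 36 z (MM a (k + 1 - lam) h)
      + Rz a 36 z (MM a (k + 1 - lam) E) + Rz a 36 z Er) W ζ := i23.add i4
  have i6 : IntegrableOn (fun z => 4 * (Rz a 36 z (MM a (k + 1 - lam) h)
      + Rz a 36 z (MM a (k + 1 - lam) E) + Rz a 36 z Er)) W ζ := i234.const_mul 4
  have i7 : IntegrableOn (fun z => D * Rz a (max 400 R') z G) W ζ := i5.const_mul D
  have key : RI a W 36 h ≤ 4 * (RI a W 36 (MM a (k + 1 - lam) h)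
      + RI a W 36 (MM a (k + 1 - lam) E) + RI a W 36 Er) + D * RI a W (max 400 R') G := by
    unfold RI
    calc ∫ z in W, Rz a 36 z h ∂ζ
        ≤ ∫ z in W, (4 * (Rz a 36 z (MM a (k + 1 - lam) h)
          + Rz a 36 z (MM a (k + 1 - lam) E) + Rz a 36 z Er) + D * Rz a (max 400 R') z G) ∂ζ :=
          setIntegral_mono_on i1 (i6.add i7) hW hpt
      _ = _ := by
          rw [integral_add i6 i7, integral_const_mul, integral_const_mul, integral_add i23 i4,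
            integral_add i2 i3]
  have n1 : RI a W 36 (MM a (k + 1 - lam) h) ≤ 16 * 36 ^ 4 * N2 (MM a (k + 1 - lam) f) := by
    refine (RI_le9 a hW _).trans ?_
    refine mul_le_mul_of_nonneg_left ?_ (by positivity)
    rw [hh, MM_comm]
    exact N2_MM_le a _ _
  have n2 : RI a W 36 (MM a (k + 1 - lam) E) ≤ 16 * 36 ^ 4 *
      (16 * (2 * (11664 * 2⁻¹ ^ (k + k1)) * 2 ^ (k + k2)) ^ 2 * N2 f) := by
    refine (RI_le9 a hW _).trans ?_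
    refine mul_le_mul_of_nonneg_left ?_ (by positivity)
    exact (N2_MM_le a _ _).trans hEN
  have n3 : RI a W 36 Er ≤ 16 * 36 ^ 4 * N2 Er := RI_le9 a hW _
  have n4 : RI a W (max 400 R') G ≤ 16 * (max 400 R') ^ 4 * N2 G :=
    RI_le a hW (le_trans (by norm_num) (le_max_left _ _)) G
  have n5 := mul_le_mul_of_nonneg_left n4 hD0
  linarith

/-- One scale, for the differences. -/
lemma step2 {Z : Type*} [MeasurableSpace Z] {ζ : Measure Z} [SigmaFinite ζ] (a : PAct SL2R ζ)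
    {W : Set Z} (hW : MeasurableSet W) (f h : BL2 ζ) :
    RI a W 36 f ≤ 2 * RI a W 36 h + 2 * (16 * 36 ^ 4) * N2 (f - h) := by
  have h1 := RI_add_le a hW 36 h (f - h)
  have h2 := RI_le9 a hW (f - h)
  have h3 : h + (f - h) = f := by abel
  rw [h3] at h1
  linarith

lemma geom (k0 K : ℕ) : ∑ k ∈ Finset.Ico k0 K, (4⁻¹ : ℝ) ^ k ≤ 2 * (4⁻¹ : ℝ) ^ k0 := by
  have h : ∀ n, ∑ k ∈ Finset.Ico k0 (k0 + n), (4⁻¹ : ℝ) ^ k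
      ≤ 2 * (4⁻¹ : ℝ) ^ k0 - 2 * (4⁻¹ : ℝ) ^ (k0 + n) := by
    intro n
    induction n with
    | zero => simp
    | succ n ih =>
      rw [← add_assoc, Finset.sum_Ico_succ_top (by omega)]
      have : (4⁻¹ : ℝ) ^ (k0 + n + 1) = (4⁻¹ : ℝ) ^ (k0 + n) * 4⁻¹ := pow_succ _ _
      have p : 0 < (4⁻¹ : ℝ) ^ (k0 + n) := by positivity
      rw [this]
      linarith
  rcases le_or_gt K k0 with hK | hK
  · rw [Finset.Ico_eq_empty (by omega), Finset.sum_empty]; positivity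
  · obtain ⟨n, rfl⟩ := Nat.exists_eq_add_of_le hK.le
    have := h n
    have p : 0 < (4⁻¹ : ℝ) ^ (k0 + n) := by positivity
    linarith

lemma sum_Ico_le (F : ℕ → ℝ) (hF : ∀ k, 0 ≤ F k) (k0 K : ℕ) :
    ∑ k ∈ Finset.Ico k0 K, F k ≤ ∑ k ∈ Finset.range K, F k := by
  refine Finset.sum_le_sum_of_subset_of_nonneg ?_ (fun _ _ _ => hF _)
  intro x hx
  rw [Finset.mem_Ico] at hx
  exact Finset.mem_range.2 hx.2

lemma sum_Ico_le' (F : ℕ → ℝ) (hF : ∀ k, 0 ≤ F k) {k0 l : ℕ} (hl : l ≤ k0) (K : ℕ) :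
    ∑ k ∈ Finset.Ico k0 K, F k ≤ ∑ k ∈ Finset.Ico l K, F k := by
  refine Finset.sum_le_sum_of_subset_of_nonneg ?_ (fun _ _ _ => hF _)
  intro x hx
  rw [Finset.mem_Ico] at hx ⊢
  exact ⟨hl.trans hx.1, hx.2⟩

end R17

open R17 in
theorem high (ε : ℝ) (hε : 0 < ε) (R' C c T : ℝ) (hc : 0 < c) : ∃ k0 : ℕ, ∃ δ : ℝ, 0 < δ ∧
    ∀ T2 : ℝ, ∃ C1 : ℝ, 0 ≤ C1 ∧ ∀ (Z : Type) [MeasurableSpace Z] (ζ : Measure Z) [SigmaFinite ζ]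
      (a b : PAct SL2R ζ) (hab : ∀ g h z, a.τ g (b.τ h z) = b.τ h (a.τ g z)) (W : Set Z),
      MeasurableSet W → (∀ z ∈ W, Gd a b 1000 R' C c T δ 3 T2 z) →
      ∀ Φ J Φ'' : BL2 ζ, Φ = b.A nuK Φ'' → SmA a Φ J → ∀ r : ℝ, 0 ≤ r → ∀ K : ℕ,
        ∑ k ∈ Finset.Ico k0 K, RI a W 36 (ff a (a.T (dd r) Φ) k)
          ≤ C1 * (1 + K) * Eb b Φ'' + ε * (N2 Φ + N2 J) := by
  obtain ⟨lam, hlam⟩ := ex_quad (16 * 36 ^ 4 * 8 * 4) (ε / 5) (by positivity)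
  obtain ⟨k2, hk2⟩ := ex_quad (2 * (16 * 36 ^ 4) * 64) (ε / 5) (by positivity)
  have hlam' : 16 * 36 ^ 4 * 8 * (4 * (4⁻¹ : ℝ) ^ lam * ((lam : ℝ) + 1) ^ 2) ≤ ε / 5 := by
    refine le_trans ?_ hlam
    have p : 0 < (4⁻¹ : ℝ) ^ lam := by positivity
    have q : ((lam : ℝ) + 1) ^ 2 ≤ ((lam : ℝ) + 2) ^ 2 :=
      pow_le_pow_left₀ (by positivity) (by linarith) 2
    have := mul_le_mul_of_nonneg_right q p.le
    linarith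
  have hk2' : 2 * (16 * 36 ^ 4) * (64 * ((k2 : ℝ) + 2) ^ 2 * (4⁻¹ : ℝ) ^ k2) ≤ ε / 5 := by
    refine le_trans (le_of_eq ?_) hk2; ring
  obtain ⟨k1, hk1⟩ : ∃ k1 : ℕ, 16 * 36 ^ 4 * 8 *
      (16 * (2 * (11664 * 2⁻¹ ^ k1) * (2 : ℝ) ^ k2) ^ 2 * 4) ≤ ε / 5 := by
    obtain ⟨n, hn⟩ := ex_small (ε / 5 / (16 * 36 ^ 4 * 8 * (16 * (2 * 11664 * (2 : ℝ) ^ k2) ^ 2 * 4)))
      (by positivity)
    refine ⟨n, ?_⟩
    have p1 : (2⁻¹ : ℝ) ^ n ≤ 1 := pow_le_one₀ (by norm_num) (by norm_num)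
    have p0 : (0 : ℝ) ≤ 2⁻¹ ^ n := by positivity
    have p2 : ((2⁻¹ : ℝ) ^ n) ^ 2 ≤ 2⁻¹ ^ n := by nlinarith
    rw [le_div_iff₀ (by positivity)] at hn
    refine le_trans ?_ hn
    have := mul_le_mul_of_nonneg_right p2
      (by positivity : (0 : ℝ) ≤ 16 * 36 ^ 4 * 8 * (16 * (2 * 11664 * (2 : ℝ) ^ k2) ^ 2 * 4))
    refine le_trans (le_of_eq ?_) this
    ring
  obtain ⟨Λ, hΛdef⟩ : ∃ Λ : ℕ, 15552 * 2 ^ (lam + k1) / c + 1 ≤ (Λ : ℝ) := by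
    obtain ⟨n, hn⟩ := exists_nat_ge (15552 * 2 ^ (lam + k1) / c + 1)
    exact ⟨n, hn⟩
  set A0 : ℝ := 2 ^ lam + 4 * (Λ : ℝ) * 11664 + 2 * 11664 with hA0def
  have hA0 : 1 ≤ A0 := by
    have : (0 : ℝ) ≤ 2 ^ lam := by positivity
    have : (0 : ℝ) ≤ (Λ : ℝ) := Nat.cast_nonneg _
    rw [hA0def]; linarith
  obtain ⟨C10, hC10, hE1⟩ := E1 A0 hA0 k2
  obtain ⟨n1, hn1⟩ := ex_small (1 / (100 * (Λ : ℝ) ^ 2 * 11664 + 1)) (by positivity)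
  obtain ⟨n2, hn2⟩ := ex_small (1 / 100 / A0) (by positivity)
  obtain ⟨n3, hn3⟩ := ex_small (ε / 5 / (16 * 36 ^ 4 * 8 * (C10 * 2) + 1)) (by positivity)
  set k0 : ℕ := max lam (max n1 (max n2 n3)) with hk0def
  have hk0lam : lam ≤ k0 := le_max_left _ _
  have hk0n1 : n1 ≤ k0 := (le_max_left _ _).trans (le_max_right _ _)
  have hk0n2 : n2 ≤ k0 := (le_max_left _ _).trans ((le_max_right _ _).trans (le_max_right _ _))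
  have hk0n3 : n3 ≤ k0 := (le_max_right _ _).trans ((le_max_right _ _).trans (le_max_right _ _))
  have half_mono : ∀ {m n : ℕ}, m ≤ n → (2⁻¹ : ℝ) ^ n ≤ 2⁻¹ ^ m := fun h =>
    pow_le_pow_of_le_one (by norm_num) (by norm_num) h
  have hC10' : 16 * 36 ^ 4 * 8 * (C10 * (2 * (4⁻¹ : ℝ) ^ k0)) ≤ ε / 5 := by
    have q1 : (4⁻¹ : ℝ) ^ k0 ≤ 2⁻¹ ^ k0 := pow_le_pow_left₀ (by norm_num) (by norm_num) _
    have q2 : (4⁻¹ : ℝ) ^ k0 ≤ ε / 5 / (16 * 36 ^ 4 * 8 * (C10 * 2) + 1) :=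
      q1.trans ((half_mono hk0n3).trans hn3)
    rw [le_div_iff₀ (by positivity)] at q2
    have q3 : (0 : ℝ) ≤ (4⁻¹ : ℝ) ^ k0 := by positivity
    linarith
  refine ⟨k0, 1 / (10 ^ 4 * 36 ^ 4), by positivity, ?_⟩
  intro T2
  obtain ⟨C19, hC19, hcost⟩ := cost (max T T2)
  set C11 : ℝ := 12 * (3 * (2 * (Λ : ℝ) + 1)) ^ 2 * ((Λ : ℝ) ^ 2 * |C| * |T| + 2) with hC11def
  have hC11 : 0 ≤ C11 := by positivity
  set M4 : ℝ := 16 * (max 400 R') ^ 4 with hM4def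
  have hM4 : 0 ≤ M4 := by positivity
  refine ⟨2 * (C11 * (M4 * (C19 * ((1 + k1) * 4)))), by positivity, ?_⟩
  intro Z _ ζ _ a b hab W hW hGd Φ J Φ'' hΦ hSm r hr K
  have hba : ∀ g h z, b.τ g (a.τ h z) = a.τ h (b.τ g z) := fun g h z => (hab h g z).symm
  set ψ : BL2 ζ := a.T (dd r) Φ with hψ
  set ψ' : BL2 ζ := a.T (dd r) Φ'' with hψ'
  have hψψ : ψ = b.A nuK ψ' := by
    rw [hψ, hψ', hΦ, PAct.A_T_comm nuK hba]
  have hff : ∀ k, ff a ψ k = b.A nuK (ff a ψ' k) := by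
    intro k
    unfold ff MM
    rw [map_sub, PAct.A_T_comm nuK hba, PAct.A_comm nuK hba (sg (k + 1)), ← hψψ]
  have hMM : ∀ i k, MM a i (ff a ψ k) = b.A nuK (MM a i (ff a ψ' k)) := by
    intro i k
    rw [hff]
    unfold MM
    rw [PAct.A_comm nuK hba (sg i)]
  have hN2ψ : N2 ψ = N2 Φ := N2_T a _ _
  have hN2Φ : 0 ≤ N2 Φ := N2_nonneg _
  have hN2J : 0 ≤ N2 J := N2_nonneg _
  -- one scale
  have hscale : ∀ k ∈ Finset.Ico k0 K, RI a W 36 (ff a ψ k) ≤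
      16 * 36 ^ 4 * 8 * N2 (MM a (k + 1 - lam) (ff a ψ k))
      + 16 * 36 ^ 4 * 8 * (16 * (2 * (11664 * 2⁻¹ ^ k1) * (2 : ℝ) ^ k2) ^ 2) * N2 (ff a ψ k)
      + 16 * 36 ^ 4 * 8 * C10 * (N2 Φ + N2 J) * (4⁻¹ : ℝ) ^ k
      + 2 * (16 * 36 ^ 4) * N2 (ff a ψ k - MM a (k + k2) (ff a ψ k))
      + 2 * (C11 * (M4 * (C19 * ((1 + k1) * (1 + K))))) * Eb b (ff a ψ' k) := by
    intro k hk
    rw [Finset.mem_Ico] at hk
    have hkl : lam ≤ k := hk0lam.trans hk.1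
    have hp : (2⁻¹ : ℝ) ^ (k + k1) ≤ 2⁻¹ ^ k := half_mono (Nat.le_add_right _ _)
    have hp0 : (0 : ℝ) < 2⁻¹ ^ (k + k1) := by positivity
    have hq0 : (0 : ℝ) < 2⁻¹ ^ k := by positivity
    have hΛ0 : (0 : ℝ) ≤ (Λ : ℝ) := Nat.cast_nonneg _
    have e1 : (2⁻¹ : ℝ) ^ (k + 1 - lam) = 2 ^ lam * 2⁻¹ ^ (k + 1) := by
      have : (2⁻¹ : ℝ) ^ (k + 1) = 2⁻¹ ^ (k + 1 - lam) * 2⁻¹ ^ lam := by
        rw [← pow_add]; congr 1; omega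
      rw [this]
      have h2 : (2 : ℝ) ^ lam * 2⁻¹ ^ lam = 1 := by rw [← mul_pow]; norm_num
      calc (2⁻¹ : ℝ) ^ (k + 1 - lam) = 2⁻¹ ^ (k + 1 - lam) * (2 ^ lam * 2⁻¹ ^ lam) := by
            rw [h2, mul_one]
        _ = _ := by ring
    have hΛ : 2⁻¹ ^ (k + 1 - lam) / (c / (15552 * 11664) * (11664 * 2⁻¹ ^ (k + k1))) + 1
        ≤ (Λ : ℝ) := by
      refine le_trans ?_ hΛdef
      have : (2⁻¹ : ℝ) ^ (k + 1 - lam) / (c / (15552 * 11664) * (11664 * 2⁻¹ ^ (k + k1)))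
          = 15552 * 2 ^ (lam + k1) / c * 2⁻¹ := by
        rw [e1, pow_add (2⁻¹ : ℝ) k k1, pow_add (2⁻¹ : ℝ) k 1, pow_add (2 : ℝ) lam k1]
        have h2 : (2⁻¹ : ℝ) ^ k1 = ((2 : ℝ) ^ k1)⁻¹ := by rw [inv_pow]
        rw [h2]
        have hk1p : (0 : ℝ) < 2 ^ k1 := by positivity
        field_simp
      rw [this]
      have : 0 ≤ 15552 * (2 : ℝ) ^ (lam + k1) / c := by positivity
      linarith
    have hΛ2 : 100 * (Λ : ℝ) ^ 2 * (11664 * 2⁻¹ ^ (k + k1)) ≤ 1 := by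
      have h1 : (2⁻¹ : ℝ) ^ (k + k1) ≤ 1 / (100 * (Λ : ℝ) ^ 2 * 11664 + 1) :=
        hp.trans ((half_mono (hk0n1.trans hk.1)).trans hn1)
      rw [le_div_iff₀ (by positivity)] at h1
      linarith
    have hAA : A0 * 2⁻¹ ^ k ≤ 1 / 100 := by
      have h1 : (2⁻¹ : ℝ) ^ k ≤ 1 / 100 / A0 := (half_mono (hk0n2.trans hk.1)).trans hn2
      rw [le_div_iff₀ (by positivity)] at h1
      linarith
    have hA1 : 2⁻¹ ^ (k + 1 - lam) + 2 * (11664 * 2⁻¹ ^ (k + k1)) ≤ A0 * 2⁻¹ ^ k := by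
      rw [e1, hA0def, pow_succ]
      have h2l : (0 : ℝ) < 2 ^ lam := by positivity
      have h3 : (0 : ℝ) ≤ 2 ^ lam * 2⁻¹ ^ k := by positivity
      have h4 : (0 : ℝ) ≤ (Λ : ℝ) * 2⁻¹ ^ k := by positivity
      linarith
    have hA2 : 4 * (Λ : ℝ) * (11664 * 2⁻¹ ^ (k + k1)) ≤ A0 * 2⁻¹ ^ k := by
      rw [hA0def]
      have h3 : (0 : ℝ) ≤ 2 ^ lam * 2⁻¹ ^ k := by positivity
      have h4 : (Λ : ℝ) * 2⁻¹ ^ (k + k1) ≤ (Λ : ℝ) * 2⁻¹ ^ k := mul_le_mul_of_nonneg_left hp hΛ0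
      linarith
    obtain ⟨Er, hErN, hEr⟩ := hE1 Z ζ a Φ J hSm r hr k hAA
    obtain ⟨G, hGN, hG⟩ := hcost Z ζ b (MM a (k + k2) (ff a ψ' k))
    rw [← hMM] at hG
    have hEG : N2 G ≤ C19 * Eb b (ff a ψ' k) := by
      refine hGN.trans (mul_le_mul_of_nonneg_left ?_ hC19)
      rw [← Eb_eq_E]
      exact Eb_MM a b hab _ _
    have s1 := step a b hab hW hGd hc le_rfl (f := ff a ψ k) (k2 := k2) hkl hΛ hΛ2 hA1 hA2 hEr hG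
    have s2 := step2 a hW (ff a ψ k) (MM a (k + k2) (ff a ψ k))
    have e2 : (2 * (11664 * 2⁻¹ ^ (k + k1)) * (2 : ℝ) ^ (k + k2))
        = 2 * (11664 * 2⁻¹ ^ k1) * (2 : ℝ) ^ k2 := by
      rw [pow_add, pow_add]
      have h2 : (2⁻¹ : ℝ) ^ k * 2 ^ k = 1 := by rw [← mul_pow]; norm_num
      calc 2 * (11664 * ((2⁻¹ : ℝ) ^ k * 2⁻¹ ^ k1)) * (2 ^ k * 2 ^ k2)
          = 2 * (11664 * 2⁻¹ ^ k1) * (2 : ℝ) ^ k2 * ((2⁻¹ : ℝ) ^ k * 2 ^ k) := by ring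
        _ = _ := by rw [h2, mul_one]
    rw [e2] at s1
    have hEb0 : 0 ≤ Eb b (ff a ψ' k) := Eb_nonneg _ _
    have hcoef : 12 * (3 * (2 * (Λ : ℝ) + 1)) ^ 2 * ((Λ : ℝ) ^ 2 * (|C| * (1 + k + k1) * |T|) + 2)
        ≤ C11 * ((1 + k1) * (1 + K)) := by
      rw [hC11def, mul_assoc (12 * (3 * (2 * (Λ : ℝ) + 1)) ^ 2)]
      refine mul_le_mul_of_nonneg_left ?_ (by positivity)
      have hkK : (k : ℝ) ≤ K := by exact_mod_cast hk.2.le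
      have hk0' : (0 : ℝ) ≤ k := Nat.cast_nonneg _
      have hk1' : (0 : ℝ) ≤ k1 := Nat.cast_nonneg _
      have hm : (1 + k + k1 : ℝ) ≤ (1 + k1) * (1 + K) := by nlinarith
      have hm1 : (1 : ℝ) ≤ (1 + k1) * (1 + K) := by nlinarith
      have hx : 0 ≤ (Λ : ℝ) ^ 2 * |C| * |T| := by positivity
      have := mul_le_mul_of_nonneg_left hm hx
      linarith
    have s3 : 12 * (3 * (2 * (Λ : ℝ) + 1)) ^ 2 * ((Λ : ℝ) ^ 2 * (|C| * (1 + k + k1) * |T|) + 2)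
        * (16 * (max 400 R') ^ 4 * N2 G)
        ≤ C11 * ((1 + k1) * (1 + K)) * (M4 * (C19 * Eb b (ff a ψ' k))) := by
      refine mul_le_mul hcoef (mul_le_mul_of_nonneg_left hEG hM4)
        (mul_nonneg hM4 (N2_nonneg _)) (by positivity)
    have s4 : 16 * 36 ^ 4 * N2 Er ≤ 16 * 36 ^ 4 * (C10 * (4⁻¹ : ℝ) ^ k * (N2 Φ + N2 J)) :=
      mul_le_mul_of_nonneg_left hErN (by positivity)
    linarith
  refine (Finset.sum_le_sum hscale).trans ?_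
  simp only [Finset.sum_add_distrib, ← Finset.mul_sum]
  have t1 : ∑ k ∈ Finset.Ico k0 K, N2 (MM a (k + 1 - lam) (ff a ψ k))
      ≤ 4 * (4⁻¹ : ℝ) ^ lam * (lam + 1) ^ 2 * N2 ψ :=
    (sum_Ico_le' _ (fun _ => N2_nonneg _) hk0lam K).trans (ML a ψ lam K)
  have t2 : ∑ k ∈ Finset.Ico k0 K, N2 (ff a ψ k) ≤ 4 * N2 ψ :=
    (sum_Ico_le _ (fun _ => N2_nonneg _) k0 K).trans (N2_sum a ψ K)
  have t3 : ∑ k ∈ Finset.Ico k0 K, (4⁻¹ : ℝ) ^ k ≤ 2 * (4⁻¹ : ℝ) ^ k0 := geom k0 K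
  have t4 : ∑ k ∈ Finset.Ico k0 K, N2 (ff a ψ k - MM a (k + k2) (ff a ψ k))
      ≤ 64 * (k2 + 2) ^ 2 * (4⁻¹ : ℝ) ^ k2 * N2 ψ :=
    (sum_Ico_le _ (fun _ => N2_nonneg _) k0 K).trans (HF a ψ (tend hSm r) k2 K)
  have t5 : ∑ k ∈ Finset.Ico k0 K, Eb b (ff a ψ' k) ≤ 4 * Eb b Φ'' := by
    refine (sum_Ico_le _ (fun _ => Eb_nonneg _ _) k0 K).trans ((Eb_sum a b hab ψ' K).trans ?_)
    rw [hψ', Eb_T a b hab]
  rw [hN2ψ] at t1 t2 t4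
  have u1 := mul_le_mul_of_nonneg_left t1 (by positivity : (0 : ℝ) ≤ 16 * 36 ^ 4 * 8)
  have u2 := mul_le_mul_of_nonneg_left t2
    (by positivity : (0 : ℝ) ≤ 16 * 36 ^ 4 * 8 * (16 * (2 * (11664 * 2⁻¹ ^ k1) * (2 : ℝ) ^ k2) ^ 2))
  have u3 := mul_le_mul_of_nonneg_left t3
    (by positivity : (0 : ℝ) ≤ 16 * 36 ^ 4 * 8 * C10 * (N2 Φ + N2 J))
  have u4 := mul_le_mul_of_nonneg_left t4 (by positivity : (0 : ℝ) ≤ 2 * (16 * 36 ^ 4))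
  have u5 := mul_le_mul_of_nonneg_left t5
    (by positivity : (0 : ℝ) ≤ 2 * (C11 * (M4 * (C19 * ((1 + k1) * (1 + K))))))
  have v1 := mul_le_mul_of_nonneg_right hlam' hN2Φ
  have v2 := mul_le_mul_of_nonneg_right hk1 hN2Φ
  have v3 := mul_le_mul_of_nonneg_right hC10' (add_nonneg hN2Φ hN2J)
  have v4 := mul_le_mul_of_nonneg_right hk2' hN2Φ
  have v6 : 0 ≤ ε * N2 Φ := by positivity
  have v7 : 0 ≤ ε * N2 J := by positivity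
  linarith

end Pool.Agent.SZ.PR
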