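import Mathlib
import Pool.Agent.SZ.RDefs
import Pool.Agent.SZ.R18
import Pool.Agent.IRS.Spec

/-!
# SZ part R, module R20: operator inequalities

`P = a.P nuK`, `Q = b.P nuK` are commuting, `0 <= P, Q <= 1` (`P_pos`, `P_pos'`, `P_comm` or `cpair`), `D = 1 - PQ`.  Products of commuting
positive operators which are `<= 1` are positive (`Pos.mul`).
(1) `B((1-P)QF, QF) <= B(DF,F)`: `D - Q(1-P)Q = (1-Q) + Q(1-P)(1-Q)`, positive.   [`D = 1 - PQ = (1-Q) + Q(1-P)`.]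
(2) `|(1-P)QF|^2 <= |DF|^2`: `D^2 - (Q(1-P))^2 = (D - Q(1-P))(D + Q(1-P)) = (1-Q)((1-Q) + 2Q(1-P))`, positive.
(3) `B((1-Q)(1-P) P^2 Q F, F) <= |DF|^2`: `P^2 Q <= 1` and `(1-P)(1-Q) <= D^2`: `D^2 = [(1-P) + P(1-Q)][(1-Q) + Q(1-P)] = (1-P)(1-Q) + (1-P)^2 Q
+ P (1-Q)^2 + PQ (1-Q)(1-P)`.
`L = 1 - Q` commutes with all `a.T g`.  `em (frm ζ) P Q y = B((1-P)(1-Q) y, y)` in the library (`CPair.em`, `em_P_le`, `em_Q_le`: it decreases under `P`, `Q`).
`E_a(QF) = a.E nuK (Q F) = B((1-P)QF, QF)` (`ea_eq`, `B_P`).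
(3') `em (P (b.A nuK F))`: `em(X) = B((1-P)(1-Q)X, X)` with `X = P (b.A nuK F)`, `B(S b.A F, b.A F) = B(S Q F, F)` for `S` commuting with `b.T` (`B_P`, `adj`, `nui_nuK`).
-/

set_option autoImplicit false
set_option linter.unusedVariables false
set_option linter.unusedSectionVars false

namespace Pool.Agent.SZ.PR

open Pool.Agent.IRS MeasureTheory Set Filter Topology

namespace CP

variable {V : Type*} [AddCommGroup V] [Module ℝ V] {F : PSForm V} {P Q : Module.End ℝ V}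

lemma d_nonneg (h : CPair F P Q) (y : V) : 0 ≤ F.B (y - P (Q y)) y := by
  have h1 := (h.good_Q' CPair.good_one).1.nonneg y
  have h2 := (h.good_P' (h.good_Q CPair.good_one)).1.nonneg y
  simp only [map_sub, map_add, LinearMap.sub_apply, Module.End.one_apply,
    Module.End.mul_apply, h.rP, h.rQ, h.cPQ] at h1 h2 ⊢
  linarith

lemma ea_Q_le_d (h : CPair F P Q) (y : V) :
    CPair.ea F P (Q y) ≤ F.B (y - P (Q y)) y := by
  have h1 := (h.good_Q' CPair.good_one).1.nonneg y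
  have h2 := (h.good_Q (h.good_P' (h.good_Q' CPair.good_one))).1.nonneg y
  simp only [CPair.ea, map_sub, map_add, LinearMap.sub_apply, Module.End.one_apply,
    Module.End.mul_apply, h.rP, h.rQ, h.cPQ] at h1 h2 ⊢
  linarith

lemma sq_Q_le_d (h : CPair F P Q) (y : V) :
    F.B (Q y - P (Q y)) (Q y - P (Q y)) ≤ F.B (y - P (Q y)) (y - P (Q y)) := by
  have h1 := (h.good_Q' (h.good_Q' CPair.good_one)).1.nonneg y
  have h2 := (h.good_Q (h.good_P' (h.good_Q' CPair.good_one))).1.nonneg y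
  simp only [map_sub, map_add, LinearMap.sub_apply, Module.End.one_apply,
    Module.End.mul_apply, h.rP, h.rQ, h.cPQ] at h1 h2 ⊢
  linarith

lemma em_le_d (h : CPair F P Q) (y : V) :
    F.B ((1 - P) ((1 - Q) (P (P (Q y))))) y ≤ F.B (y - P (Q y)) (y - P (Q y)) := by
  have h1 := (h.good_P' (h.good_Q' (h.good_P' CPair.good_one))).1.nonneg y
  have h2 := (h.good_P' (h.good_Q' (h.good_P (h.good_P' CPair.good_one)))).1.nonneg y
  have h3 := (h.good_P' (h.good_Q' (h.good_P (h.good_P (h.good_Q' CPair.good_one))))).1.nonneg y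
  have h4 := (h.good_P' (h.good_P' (h.good_Q CPair.good_one))).1.nonneg y
  have h5 := (h.good_P (h.good_Q' (h.good_Q' CPair.good_one))).1.nonneg y
  have h6 := (h.good_P (h.good_Q (h.good_Q' (h.good_P' CPair.good_one)))).1.nonneg y
  simp only [map_sub, map_add, LinearMap.sub_apply, Module.End.one_apply,
    Module.End.mul_apply, h.rP, h.rQ, h.cPQ] at h1 h2 h3 h4 h5 h6 ⊢
  linarith

end CP

section

variable {Z : Type*} [MeasurableSpace Z] {ζ : Measure Z} [SigmaFinite ζ]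

lemma DD_eq (a b : PAct SL2R ζ) (F : BL2 ζ) : DD a b F = F - a.P nuK (b.P nuK F) := rfl

theorem en_Q_le (a b : PAct SL2R ζ) (hab : ∀ g h z, a.τ g (b.τ h z) = b.τ h (a.τ g z)) (F : BL2 ζ) :
    a.E nuK (b.P nuK F) ≤ (frm ζ).B (DD a b F) F := by
  rw [← a.ea_eq, DD_eq]
  exact CP.ea_Q_le_d (PAct.cpair (a := a) (b := b) nuK hab) F

theorem sq_Q_le (a b : PAct SL2R ζ) (hab : ∀ g h z, a.τ g (b.τ h z) = b.τ h (a.τ g z)) (F : BL2 ζ) :
    (frm ζ).B (b.P nuK F - a.P nuK (b.P nuK F)) (b.P nuK F - a.P nuK (b.P nuK F))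
      ≤ (frm ζ).B (DD a b F) (DD a b F) := by
  rw [DD_eq]
  exact CP.sq_Q_le_d (PAct.cpair (a := a) (b := b) nuK hab) F

theorem em_le (a b : PAct SL2R ζ) (hab : ∀ g h z, a.τ g (b.τ h z) = b.τ h (a.τ g z)) (F : BL2 ζ) :
    CPair.em (frm ζ) (a.P nuK) (b.P nuK) (a.P nuK (b.A nuK F)) ≤ (frm ζ).B (DD a b F) (DD a b F) := by
  have h := PAct.cpair (a := a) (b := b) nuK hab
  -- `a.P` and `b.P` commute with `b.A`
  have c1 : ∀ x : BL2 ζ, a.P nuK (b.A nuK x) = b.A nuK (a.P nuK x) := by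
    intro x
    rw [PAct.P_apply, PAct.P_apply, PAct.A_comm nuK hab, PAct.A_comm (nui nuK) hab]
  have c2 : ∀ x : BL2 ζ, b.P nuK (b.A nuK x) = b.A nuK (b.P nuK x) := by
    intro x
    rw [P_eq, P_eq]
  have hs : ∀ x y : BL2 ζ, (frm ζ).B x (b.A nuK y) = (frm ζ).B (b.A nuK x) y := by
    intro x y
    have := b.adj nuK x y
    simp only [nui_nuK] at this
    exact this.symm
  have key : CPair.em (frm ζ) (a.P nuK) (b.P nuK) (a.P nuK (b.A nuK F))
      = (frm ζ).B ((1 - a.P nuK) ((1 - b.P nuK) (a.P nuK (a.P nuK (b.P nuK F))))) F := by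
    have e0 : b.P nuK F = b.A nuK (b.A nuK F) := P_eq b F
    unfold CPair.em
    rw [h.rP]
    rw [c1 F, hs]
    congr 1
    rw [e0]
    simp only [map_sub, LinearMap.sub_apply, Module.End.one_apply, c1, c2, h.cPQ]
  rw [key, DD_eq]
  exact CP.em_le_d h F

theorem DD_nonneg (a b : PAct SL2R ζ) (hab : ∀ g h z, a.τ g (b.τ h z) = b.τ h (a.τ g z)) (F : BL2 ζ) :
    0 ≤ (frm ζ).B (DD a b F) F := by
  rw [DD_eq]
  exact CP.d_nonneg (PAct.cpair (a := a) (b := b) nuK hab) F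

end

end Pool.Agent.SZ.PR
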