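import Mathlib
import Pool.Agent.SZ.RDefs
import Pool.Agent.SZ.R02
import Pool.Agent.SZ.R18
import Pool.Agent.SZ.R19
import Pool.Agent.SZ.R20

/-!
# SZ part R, module R21: smoothness of the functions

`F~ = AA a b F = P Q F`, `P = a.P nuK`, `Q = b.P nuK`; `P = A_a A_a`, `Q = A_b A_b` (`P_eq`), everything in `a` commutes with everything in `b`
(`A_comm`, `A_T_comm`).  `Φ = a.T u F~ - F~`.
* `Φ'' := a.T u X - X`, `X := P (b.A nuK F)`; `b.A nuK X = F~`, so `Φ = b.A nuK Φ''`.  `Eb b Φ'' = b.E nuK (a.T u X - X) <= C * em X` by `E_diff_le` (`IRS/Avg3.lean`,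
  with `K` from `disp`), and `em X <= B(DF,DF)` (`em_le`).
* `F~ = a.A nuK G1`, `G1 = a.A nuK (Q F)`.  `lip` (R19) for `f = G1`, radius `max 100 2`: `J0` with `N2 J0 <= C a.E nuK G1` and
  `|F~(u c w) - F~(u w)|, |F~(c w) - F~(w)| <= d1 c J0 w` (the second with `1` in the place of `u`), so `J := 2 • J0`.
  `a.E nuK G1 <= a.E nuK (Q F)`: `E(A f) = B(A f,A f) - B(A A f, A A f) = B((P - P^2) f, f) <= B((1-P) f, f)` (`E f = B f f - B (A f)(A f)`, `B_P`, `(1-P)^2 >= 0`).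
  `a.E nuK (Q F) <= B(DF,F)` (`en_Q_le`).
* `N2 Φ = ψ F~ u ^2 <= C a.E nuK F~` (`disp`), `F~ = P (Q F)`, `a.E nuK (P f) <= a.E nuK f` (twice the previous inequality; `P f = A (A f)`).
-/

set_option autoImplicit false
set_option linter.unusedVariables false
set_option linter.unusedSectionVars false

namespace Pool.Agent.SZ.PR

open Pool.Agent.IRS MeasureTheory Set Filter Topology



section

variable {Z : Type*} [MeasurableSpace Z] {ζ : Measure Z} [SigmaFinite ζ]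

lemma R21_E_A (a : PAct SL2R ζ) (f : BL2 ζ) : a.E nuK (a.A nuK f) ≤ a.E nuK f := by
  have h1 : (frm ζ).B (a.A nuK f) (a.A nuK f) = (frm ζ).B (a.P nuK f) f := (a.B_P nuK f f).symm
  have h2 : (frm ζ).B (a.A nuK (a.A nuK f)) (a.A nuK (a.A nuK f))
      = (frm ζ).B (a.P nuK f) (a.P nuK f) := by rw [P_eq]
  have h3 := (frm ζ).nonneg (f - a.P nuK f)
  simp only [map_sub, LinearMap.sub_apply] at h3
  have h4 := (frm ζ).symm f (a.P nuK f)
  unfold PAct.E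
  rw [h2, h1]
  linarith

lemma R21_E_P (a : PAct SL2R ζ) (f : BL2 ζ) : a.E nuK (a.P nuK f) ≤ a.E nuK f := by
  rw [P_eq]
  exact (R21_E_A a _).trans (R21_E_A a f)

lemma R21_A_P (a b : PAct SL2R ζ) (hab : ∀ g h z, a.τ g (b.τ h z) = b.τ h (a.τ g z)) (f : BL2 ζ) :
    b.A nuK (a.P nuK f) = a.P nuK (b.A nuK f) := by
  rw [P_eq, P_eq, PAct.A_comm nuK hab nuK, PAct.A_comm nuK hab nuK]

end

theorem smooth : ∃ C : ℝ, 0 ≤ C ∧ ∀ (Z : Type) [MeasurableSpace Z] (ζ : Measure Z) [SigmaFinite ζ]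
    (a b : PAct SL2R ζ) (hab : ∀ g h z, a.τ g (b.τ h z) = b.τ h (a.τ g z)) (F : BL2 ζ) (u : SL2R),
    nS u ≤ 100 → ∃ J Φ'' : BL2 ζ, a.T u (AA a b F) - AA a b F = b.A nuK Φ'' ∧
      SmA a (a.T u (AA a b F) - AA a b F) J ∧
      N2 (a.T u (AA a b F) - AA a b F) ≤ C * (frm ζ).B (DD a b F) F ∧
      N2 J ≤ C * (frm ζ).B (DD a b F) F ∧
      Eb b Φ'' ≤ C * (frm ζ).B (DD a b F) (DD a b F) := by
  obtain ⟨C1, hC1, hlip⟩ := lip 100
  obtain ⟨C2, hC2, hdisp⟩ := disp 100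
  refine ⟨4 * C1 + C2, by positivity, ?_⟩
  intro Z _ ζ _ a b hab F u hu
  have hba : ∀ g h z, b.τ g (a.τ h z) = a.τ h (b.τ g z) := fun g h z => (hab h g z).symm
  have hAA : AA a b F = a.P nuK (b.P nuK F) := rfl
  have hD0 := DD_nonneg a b hab F
  have hDD0 : 0 ≤ (frm ζ).B (DD a b F) (DD a b F) := (frm ζ).nonneg _
  have hen := en_Q_le a b hab F
  obtain ⟨J0, hJ0, hJ0'⟩ := hlip Z ζ a (a.A nuK (b.P nuK F))
  have hF : a.A nuK (a.A nuK (b.P nuK F)) = AA a b F := by rw [hAA, P_eq a]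
  rw [hF] at hJ0'
  have hJE : N2 J0 ≤ C1 * (frm ζ).B (DD a b F) F := by
    refine hJ0.trans (mul_le_mul_of_nonneg_left ?_ hC1)
    exact (R21_E_A a _).trans hen
  refine ⟨(2 : ℝ) • J0, a.T u (a.P nuK (b.A nuK F)) - a.P nuK (b.A nuK F), ?_, ?_, ?_, ?_, ?_⟩
  · rw [map_sub, PAct.A_T_comm nuK hba, R21_A_P a b hab, ← P_eq b, hAA]
  · intro c w hc
    have h1 := hJ0' u c w hu hc
    have h2 := hJ0' 1 c w (by
      have : nS (1 : SL2R) = 2 := by
        simp [nS, nM]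
        try norm_num
      rw [this]; norm_num) hc
    rw [one_mul, a.one] at h2
    have e1 : ∀ z, ((a.T u (AA a b F) - AA a b F : BL2 ζ) : Z → ℝ) z
        = ((AA a b F : BL2 ζ) : Z → ℝ) (a.τ u z) - ((AA a b F : BL2 ζ) : Z → ℝ) z := fun z => rfl
    have e2 : (((2 : ℝ) • J0 : BL2 ζ) : Z → ℝ) w = 2 * (J0 : Z → ℝ) w := rfl
    rw [e1, e1, e2, ← a.mul]
    rw [abs_le] at h1 h2 ⊢
    constructor <;> linarith [h1.1, h1.2, h2.1, h2.2]
  · have h1 : N2 (a.T u (AA a b F) - AA a b F) = a.ψ (AA a b F) u ^ 2 := by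
      unfold PAct.ψ N2
      rw [(frm ζ).nrm_sq]
    rw [h1]
    have h2 := hdisp Z ζ a (AA a b F) u hu
    have h3 : a.E nuK (AA a b F) ≤ (frm ζ).B (DD a b F) F := by
      rw [hAA]
      exact (R21_E_P a _).trans hen
    have h4 := mul_le_mul_of_nonneg_left h3 hC2
    have h5 : 0 ≤ 4 * C1 * (frm ζ).B (DD a b F) F := by positivity
    linarith
  · rw [N2_smul]
    have h5 : 0 ≤ C2 * (frm ζ).B (DD a b F) F := by positivity
    linarith
  · rw [Eb_eq_E]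
    have h1 := PAct.E_diff_le nuK hab u (K := C2) (fun x => hdisp Z ζ a x u hu)
      (a.P nuK (b.A nuK F))
    have h2 := mul_le_mul_of_nonneg_left (em_le a b hab F) hC2
    have h5 : 0 ≤ 4 * C1 * (frm ζ).B (DD a b F) (DD a b F) := by positivity
    linarith

end Pool.Agent.SZ.PR
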