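import Mathlib
import Pool.Agent.SZ.RDefs
import Pool.Agent.SZ.R02
import Pool.Agent.SZ.R03
import Pool.Agent.SZ.R08

/-!
# SZ part R, module R09: regularity of MM near the identity

`ψ = a.T (dd r) Φ`, `Jr = a.T (dd r) J`.  For `d1 e <= δ <= 1/100`: `e = uu t * lt x v` with `x = 1/e11`, `v = e10`, `t = e01/e11`
(check entries with `det e = 1`), `|t|, |x-1|, |v| <= 2δ =: η <= 1/20`.
`M_k ψ (e w) = 2^k int_0^{2^-k} ψ(n_{s+t} lt(x,v) w) ds = 2^k int_t^{t+2^-k} ψ(n_σ lt(x,v) w) dσ`.  `prim` with `s1 = t`, `s2 = t + 2^-k`,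
`S = 1.1`: `6 η S <= 14 δ`.  Then replace `int_t^{t+2^-k} ψ(n_σ w)` by `int_0^{2^-k}`: error at most the integrals of `|ψ|` over
`[-2δ, 2δ]` and `[2^-k - 2δ, 2^-k + 2δ]`.  So `|M_k ψ(e w) - M_k ψ(w)| <= Er(w)`,
`Er(w) = 2^k [ 2 int_{-16δ}^{16δ} |ψ|(n_σ w) dσ + 2 int_{2^-k - 16δ}^{2^-k + 16δ} |ψ|(n_σ w) dσ + 80 δ int_{-2}^{2} (|ψ| + |Jr|)(n_σ w) dσ ]`,
an element of `BL2` by `seg`, of norm `<= 2^k (64δ + 64δ + 320 δ) nrm ψ + 2^k 320 δ nrm J`; `nrm ψ = nrm Φ`, `nrm Jr = nrm J`.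
-/

set_option autoImplicit false
set_option linter.unusedVariables false
set_option linter.unusedSectionVars false

namespace Pool.Agent.SZ.PR

open Pool.Agent.IRS MeasureTheory Set Filter Topology

lemma R09_sub {f : ℝ → ℝ} (hf : ∀ α β, IntervalIntegrable f volume α β) {a b c d : ℝ}
    (hca : c ≤ a) (hcb : c ≤ b) (had : a ≤ d) (hbd : b ≤ d) :
    |∫ x in a..b, f x| ≤ ∫ x in c..d, |f x| := by
  rcases le_total a b with h | h
  · refine (intervalIntegral.abs_integral_le_integral_abs h).trans ?_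
    exact intervalIntegral.integral_mono_interval hca h hbd
      (Eventually.of_forall fun x => abs_nonneg _) (hf _ _).abs
  · rw [intervalIntegral.integral_symm, abs_neg]
    refine (intervalIntegral.abs_integral_le_integral_abs h).trans ?_
    exact intervalIntegral.integral_mono_interval hcb h had
      (Eventually.of_forall fun x => abs_nonneg _) (hf _ _).abs

lemma R09_uu_mul (s t : ℝ) : uu (s + t) = uu s * uu t := by
  apply SL_ext <;> simp only [SL_mul_apply, uu00, uu01, uu10, uu11] <;> ring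

lemma R09_dec (e : SL2R) (h11 : e 1 1 ≠ 0) :
    e = uu (e 0 1 / e 1 1) * lt (1 / e 1 1) (e 1 0) (one_div_ne_zero h11) := by
  have hd := det_eq e
  have l00 : (lt (1 / e 1 1) (e 1 0) (one_div_ne_zero h11) : SL2R) 0 0 = 1 / e 1 1 := rfl
  have l01 : (lt (1 / e 1 1) (e 1 0) (one_div_ne_zero h11) : SL2R) 0 1 = 0 := rfl
  have l10 : (lt (1 / e 1 1) (e 1 0) (one_div_ne_zero h11) : SL2R) 1 0 = e 1 0 := rfl
  have l11 : (lt (1 / e 1 1) (e 1 0) (one_div_ne_zero h11) : SL2R) 1 1 = (1 / e 1 1)⁻¹ := rfl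
  apply SL_ext
  · rw [SL_mul_apply, uu00, uu01, l00, l10]
    field_simp
    linarith
  · rw [SL_mul_apply, uu00, uu01, l01, l11]
    field_simp
    ring
  · rw [SL_mul_apply, uu10, uu11, l00, l10]
    ring
  · rw [SL_mul_apply, uu10, uu11, l01, l11]
    field_simp
    ring

section

variable {Z : Type*} [MeasurableSpace Z] {ζ : Measure Z} [SigmaFinite ζ]

lemma R09_int (a : PAct SL2R ζ) (f : BL2 ζ) (g : SL2R) (w : Z) (α β : ℝ) :
    IntervalIntegrable (fun σ => (f : Z → ℝ) (a.τ (uu σ * g) w)) volume α β := by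
  obtain ⟨M, hM⟩ := bbdd f
  have hm : Measurable (fun σ : ℝ => (f : Z → ℝ) (a.τ (uu σ * g) w)) :=
    (bmeas f).comp (a.meas.comp ((measurable_uu.mul_const g).prodMk measurable_const))
  refine (intervalIntegrable_const (c := M)).mono_fun hm.aestronglyMeasurable ?_
  filter_upwards with σ
  rw [Real.norm_eq_abs, Real.norm_eq_abs]
  exact (hM _).trans (le_abs_self _)

lemma R09_int' (a : PAct SL2R ζ) (f : BL2 ζ) (w : Z) (α β : ℝ) :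
    IntervalIntegrable (fun σ => (f : Z → ℝ) (a.τ (uu σ) w)) volume α β := by
  have h := R09_int a f 1 w α β
  simpa only [mul_one] using h

lemma R09_pt {a : PAct SL2R ζ} {Φ J : BL2 ζ} (hJ : SmA a Φ J) {r : ℝ} (hr : 0 ≤ r) {δ : ℝ}
    (hδ : 0 ≤ δ) (hδ' : δ ≤ 1 / 100) {L : ℝ} (hL0 : 0 ≤ L) (hL1 : L ≤ 1) {e : SL2R}
    (he : d1 e ≤ δ) (w : Z) :
    |(∫ s in (0 : ℝ)..L, ((a.T (dd r) Φ : BL2 ζ) : Z → ℝ) (a.τ (uu s) (a.τ e w)))
        - ∫ s in (0 : ℝ)..L, ((a.T (dd r) Φ : BL2 ζ) : Z → ℝ) (a.τ (uu s) w)|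
      ≤ 2 * (∫ σ in (-(16 * δ))..(16 * δ), |((a.T (dd r) Φ : BL2 ζ) : Z → ℝ) (a.τ (uu σ) w)|)
        + 2 * (∫ σ in (L - 16 * δ)..(L + 16 * δ),
            |((a.T (dd r) Φ : BL2 ζ) : Z → ℝ) (a.τ (uu σ) w)|)
        + 80 * δ * ∫ σ in (-2 : ℝ)..2,
            (|((a.T (dd r) Φ : BL2 ζ) : Z → ℝ) (a.τ (uu σ) w)|
              + |((a.T (dd r) J : BL2 ζ) : Z → ℝ) (a.τ (uu σ) w)|) := by
  have he' : |e 0 0 - 1| + |e 0 1| + |e 1 0| + |e 1 1 - 1| ≤ δ := by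
    have := he
    unfold d1 nM at this
    simpa [Matrix.sub_apply, Matrix.one_apply] using this
  have q00 := abs_nonneg (e 0 0 - 1)
  have q01 := abs_nonneg (e 0 1)
  have q10 := abs_nonneg (e 1 0)
  have q11 := abs_nonneg (e 1 1 - 1)
  have h11 : 99 / 100 ≤ e 1 1 := by
    have h1 : |e 1 1 - 1| ≤ 1 / 100 := by linarith
    have := (abs_le.1 h1).1
    linarith
  have h11p : 0 < e 1 1 := by linarith
  set t : ℝ := e 0 1 / e 1 1 with ht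
  set x : ℝ := 1 / e 1 1 with hx
  set v : ℝ := e 1 0 with hv
  have hx0 : x ≠ 0 := one_div_ne_zero h11p.ne'
  have htδ : |t| ≤ 2 * δ := by
    rw [ht, abs_div, abs_of_pos h11p, div_le_iff₀ h11p]
    nlinarith
  have hxδ : |x - 1| ≤ 2 * δ := by
    have : x - 1 = -(e 1 1 - 1) / e 1 1 := by rw [hx]; field_simp; ring
    rw [this, abs_div, abs_neg, abs_of_pos h11p, div_le_iff₀ h11p]
    nlinarith
  have hvδ : |v| ≤ 2 * δ := by linarith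
  have hdec : e = uu t * lt x v hx0 := R09_dec e h11p.ne'
  have ht1 := (abs_le.1 htδ).1
  have ht2 := (abs_le.1 htδ).2
  set F : ℝ → ℝ := fun σ => ((a.T (dd r) Φ : BL2 ζ) : Z → ℝ) (a.τ (uu σ) w) with hF
  have hFi : ∀ α β, IntervalIntegrable F volume α β := fun α β => R09_int' a _ w α β
  have hGi : ∀ α β, IntervalIntegrable (fun σ => |((a.T (dd r) Φ : BL2 ζ) : Z → ℝ) (a.τ (uu σ) w)|
      + |((a.T (dd r) J : BL2 ζ) : Z → ℝ) (a.τ (uu σ) w)|) volume α β := fun α β =>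
    (R09_int' a _ w α β).abs.add (R09_int' a _ w α β).abs
  -- the translated integral
  have e1 : (∫ s in (0 : ℝ)..L, ((a.T (dd r) Φ : BL2 ζ) : Z → ℝ) (a.τ (uu s) (a.τ e w)))
      = ∫ σ in t..(t + L), ((a.T (dd r) Φ : BL2 ζ) : Z → ℝ) (a.τ (uu σ * lt x v hx0) w) := by
    have h1 : ∀ s : ℝ, ((a.T (dd r) Φ : BL2 ζ) : Z → ℝ) (a.τ (uu s) (a.τ e w))
        = ((a.T (dd r) Φ : BL2 ζ) : Z → ℝ) (a.τ (uu (s + t) * lt x v hx0) w) := by
      intro s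
      rw [R09_uu_mul, mul_assoc, ← hdec, a.mul]
    simp_rw [h1]
    rw [intervalIntegral.integral_comp_add_right
      (fun σ => ((a.T (dd r) Φ : BL2 ζ) : Z → ℝ) (a.τ (uu σ * lt x v hx0) w)) t, zero_add,
      add_comm L t]
  rw [e1]
  have hp := prim hJ hr w (x := x) (v := v) (η := 2 * δ) (by linarith) (by linarith) hxδ hvδ hx0
    (s1 := t) (s2 := t + L) (S := 11 / 10) (by linarith)
    (by rw [abs_le]; constructor <;> linarith) (by rw [abs_le]; constructor <;> linarith)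
    (by norm_num)
  have hS : 6 * (2 * δ) * (11 / 10) ≤ 14 * δ := by linarith
  have hS0 : 0 ≤ 6 * (2 * δ) * (11 / 10) := by linarith
  have b1 : (∫ σ in (t - 6 * (2 * δ) * (11 / 10))..(t + 6 * (2 * δ) * (11 / 10)),
      |((a.T (dd r) Φ : BL2 ζ) : Z → ℝ) (a.τ (uu σ) w)|)
      ≤ ∫ σ in (-(16 * δ))..(16 * δ), |((a.T (dd r) Φ : BL2 ζ) : Z → ℝ) (a.τ (uu σ) w)| :=
    intervalIntegral.integral_mono_interval (by linarith) (by linarith) (by linarith)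
      (Eventually.of_forall fun x => abs_nonneg _) (hFi _ _).abs
  have b2 : (∫ σ in (t + L - 6 * (2 * δ) * (11 / 10))..(t + L + 6 * (2 * δ) * (11 / 10)),
      |((a.T (dd r) Φ : BL2 ζ) : Z → ℝ) (a.τ (uu σ) w)|)
      ≤ ∫ σ in (L - 16 * δ)..(L + 16 * δ), |((a.T (dd r) Φ : BL2 ζ) : Z → ℝ) (a.τ (uu σ) w)| :=
    intervalIntegral.integral_mono_interval (by linarith) (by linarith) (by linarith)
      (Eventually.of_forall fun x => abs_nonneg _) (hFi _ _).abs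
  have b3 : (∫ σ in (t - 6 * (2 * δ) * (11 / 10))..(t + L + 6 * (2 * δ) * (11 / 10)),
      (|((a.T (dd r) Φ : BL2 ζ) : Z → ℝ) (a.τ (uu σ) w)|
        + |((a.T (dd r) J : BL2 ζ) : Z → ℝ) (a.τ (uu σ) w)|))
      ≤ ∫ σ in (-2 : ℝ)..2, (|((a.T (dd r) Φ : BL2 ζ) : Z → ℝ) (a.τ (uu σ) w)|
        + |((a.T (dd r) J : BL2 ζ) : Z → ℝ) (a.τ (uu σ) w)|) :=
    intervalIntegral.integral_mono_interval (by linarith) (by linarith) (by linarith)
      (Eventually.of_forall fun x => add_nonneg (abs_nonneg _) (abs_nonneg _)) (hGi _ _)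
  have b4 : |∫ σ in t..(0 : ℝ), F σ| ≤ ∫ σ in (-(16 * δ))..(16 * δ), |F σ| :=
    R09_sub hFi (by linarith) (by linarith) (by linarith) (by linarith)
  have b5 : |∫ σ in L..(t + L), F σ| ≤ ∫ σ in (L - 16 * δ)..(L + 16 * δ), |F σ| :=
    R09_sub hFi (by linarith) (by linarith) (by linarith) (by linarith)
  have e2 : (∫ σ in t..(t + L), F σ) - ∫ σ in (0 : ℝ)..L, F σ
      = (∫ σ in t..(0 : ℝ), F σ) + ∫ σ in L..(t + L), F σ := by
    have h1 := intervalIntegral.integral_add_adjacent_intervals (hFi t 0) (hFi 0 L)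
    have h2 := intervalIntegral.integral_add_adjacent_intervals (hFi t L) (hFi L (t + L))
    linarith
  have b6 : |(∫ σ in t..(t + L), F σ) - ∫ σ in (0 : ℝ)..L, F σ|
      ≤ (∫ σ in (-(16 * δ))..(16 * δ), |F σ|) + ∫ σ in (L - 16 * δ)..(L + 16 * δ), |F σ| := by
    rw [e2]
    exact (abs_add_le _ _).trans (add_le_add b4 b5)
  have b7 := abs_sub_le (∫ σ in t..(t + L), ((a.T (dd r) Φ : BL2 ζ) : Z → ℝ)
    (a.τ (uu σ * lt x v hx0) w)) (∫ σ in t..(t + L), F σ) (∫ σ in (0 : ℝ)..L, F σ)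
  have b8 : 40 * (2 * δ) * (∫ σ in (t - 6 * (2 * δ) * (11 / 10))..(t + L + 6 * (2 * δ) * (11 / 10)),
      (|((a.T (dd r) Φ : BL2 ζ) : Z → ℝ) (a.τ (uu σ) w)|
        + |((a.T (dd r) J : BL2 ζ) : Z → ℝ) (a.τ (uu σ) w)|))
      ≤ 40 * (2 * δ) * ∫ σ in (-2 : ℝ)..2, (|((a.T (dd r) Φ : BL2 ζ) : Z → ℝ) (a.τ (uu σ) w)|
        + |((a.T (dd r) J : BL2 ζ) : Z → ℝ) (a.τ (uu σ) w)|) :=
    mul_le_mul_of_nonneg_left b3 (by linarith)
  simp only [hF] at b6 b7 hp ⊢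
  linarith

end

theorem E0 (k : ℕ) : ∃ C : ℝ, 0 ≤ C ∧ ∀ (Z : Type) [MeasurableSpace Z] (ζ : Measure Z)
    [SigmaFinite ζ] (a : PAct SL2R ζ) (Φ J : BL2 ζ), SmA a Φ J → ∀ r : ℝ, 0 ≤ r → ∀ δ : ℝ, 0 ≤ δ →
    δ ≤ 1 / 100 → ∃ Er : BL2 ζ, N2 Er ≤ C * δ ^ 2 * (N2 Φ + N2 J) ∧
      ∀ (e : SL2R) (w : Z), d1 e ≤ δ →
        |((MM a k (a.T (dd r) Φ) : BL2 ζ) : Z → ℝ) (a.τ e w)
          - ((MM a k (a.T (dd r) Φ) : BL2 ζ) : Z → ℝ) w| ≤ (Er : Z → ℝ) w := by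
  refine ⟨(2 ^ k) ^ 2 * 1000000, by positivity, ?_⟩
  intro Z _ ζ _ a Φ J hJ r hr δ hδ hδ'
  set ψ : BL2 ζ := a.T (dd r) Φ with hψ
  set Jr : BL2 ζ := a.T (dd r) J with hJr
  have hL0 : (0 : ℝ) ≤ 2⁻¹ ^ k := by positivity
  have hL1 : (2⁻¹ : ℝ) ^ k ≤ 1 := pow_le_one₀ (by norm_num) (by norm_num)
  obtain ⟨g1, hg1, hn1⟩ := seg a (show -(16 * δ) ≤ 16 * δ by linarith) (absB ψ)
  obtain ⟨g2, hg2, hn2⟩ := seg a (show (2⁻¹ : ℝ) ^ k - 16 * δ ≤ 2⁻¹ ^ k + 16 * δ by linarith)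
    (absB ψ)
  obtain ⟨g3, hg3, hn3⟩ := seg a (show (-2 : ℝ) ≤ 2 by norm_num) (absB ψ + absB Jr)
  have hNψ : N2 ψ = N2 Φ := N2_T a _ Φ
  have hNJ : N2 Jr = N2 J := N2_T a _ J
  refine ⟨(2 ^ k : ℝ) • ((2 : ℝ) • g1 + (2 : ℝ) • g2 + (80 * δ) • g3), ?_, ?_⟩
  · have h3 := N2_add_le (absB ψ) (absB Jr)
    rw [N2_absB, N2_absB, hNψ, hNJ] at h3
    rw [N2_absB, hNψ] at hn1 hn2
    have hΦ0 := N2_nonneg Φ
    have hJ0 := N2_nonneg J
    have h4 := N2_add3_le ((2 : ℝ) • g1) ((2 : ℝ) • g2) ((80 * δ) • g3)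
    rw [N2_smul, N2_smul, N2_smul] at h4
    rw [N2_smul]
    have hδ2 : 0 ≤ δ ^ 2 := sq_nonneg δ
    have hn3' : N2 g3 ≤ 32 * (N2 Φ + N2 J) := by
      refine hn3.trans ?_
      nlinarith
    have hn1' : N2 g1 ≤ 1024 * δ ^ 2 * N2 Φ := by
      refine hn1.trans (le_of_eq ?_); ring
    have hn2' : N2 g2 ≤ 1024 * δ ^ 2 * N2 Φ := by
      refine hn2.trans (le_of_eq ?_); ring
    have h5 : (80 * δ) ^ 2 * N2 g3 ≤ 204800 * δ ^ 2 * (N2 Φ + N2 J) := by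
      have := mul_le_mul_of_nonneg_left hn3' (sq_nonneg (80 * δ))
      refine this.trans (le_of_eq ?_); ring
    have h6 : N2 ((2 : ℝ) • g1 + (2 : ℝ) • g2 + (80 * δ) • g3)
        ≤ 1000000 * δ ^ 2 * (N2 Φ + N2 J) := by
      refine h4.trans ?_
      have h7 : 0 ≤ δ ^ 2 * N2 Φ := mul_nonneg hδ2 hΦ0
      have h8 : 0 ≤ δ ^ 2 * N2 J := mul_nonneg hδ2 hJ0
      nlinarith
    have h9 : (0 : ℝ) ≤ (2 ^ k) ^ 2 := by positivity
    refine (mul_le_mul_of_nonneg_left h6 h9).trans (le_of_eq ?_)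
    ring
  · intro e w he
    have hp := R09_pt hJ hr hδ hδ' hL0 hL1 he w
    rw [MM_apply, MM_apply, ← mul_sub, abs_mul, abs_of_nonneg (by positivity : (0 : ℝ) ≤ 2 ^ k)]
    have hv : (((2 ^ k : ℝ) • ((2 : ℝ) • g1 + (2 : ℝ) • g2 + (80 * δ) • g3) : BL2 ζ) : Z → ℝ) w
        = 2 ^ k * (2 * (g1 : Z → ℝ) w + 2 * (g2 : Z → ℝ) w + 80 * δ * (g3 : Z → ℝ) w) := rfl
    rw [hv, hg1, hg2, hg3]
    exact mul_le_mul_of_nonneg_left hp (by positivity)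

end Pool.Agent.SZ.PR
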