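import Mathlib
import Pool.Agent.SZ.RDefs
import Pool.Agent.SZ.R01
import Pool.Agent.SZ.R02
import Pool.Agent.SZ.R03
import Pool.Agent.SZ.R04
import Pool.Agent.SZ.R09
import Pool.Agent.SZ.R12
import Pool.Agent.SZ.R13
import Pool.Agent.SZ.R19

/-!
# SZ part R, module R22: the low frequencies

`M := MM a k0 (a.T (dd r) Φ)`.  Given `k0, ε`: `C0` = constant of `E0 k0`, `δ <= 10^-9` so small that `δ' := 144 * 434 * δ` satisfies `δ' <= 1/100`,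
`10^6 C0 δ'^2 <= ε`.  Given `T2`: `C19` = constant of `cost T2`, `C1 := 10^6 C19`.
`z in W`, `H` its subgroup, `y in Bn 12`, `θ` real.  `Y := y⁻¹ kk θ y`, `nS Y <= 12*3*12 = 432 <= 1000` (`nS_kk`, `nS_inv`).  `Den`: `q in H`, `nM (q.1 - Y) <= δ`,
`nS q.2 <= T2`.  `e := (y q.1) (kk θ y)⁻¹ = y q.1 Y⁻¹ y⁻¹`, `e - 1 = y (q.1 - Y) Y⁻¹ y⁻¹`, `d1 e <= 12 * δ * 432 * 12 <= δ'`.
So with `w' = a.τ (kk θ y) z`: `a.τ (y q.1) z = a.τ e w'`, `|M(a.τ e w') - M(w')| <= Er(w')` (`E0`);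
and `a.τ q.1 z = b.τ q.2⁻¹ z`, so `M(a.τ (y q.1) z) = M(b.τ q.2⁻¹ (a.τ y z))`, `|M(b.τ q.2⁻¹ w) - M(w)| <= G(w)`, `w = a.τ y z`, where `M = b.A nuK M''`,
`M'' = MM a k0 (a.T (dd r) Φ'')`, `N2 G <= C19 Eb b M'' <= C19 Eb b Φ''` (`cost`, `Eb_eq_E`, `Eb_MM`, `Eb_T`).
Hence `|M(w) - M(a.τ (kk θ) w)| <= G(w) + Er(a.τ (kk θ) w)` for all `θ`; average over `θ` (i.e. integrate against `rot`; `a.A rot`):
`|M(w)| <= |(a.A rot M)(w)| + G(w) + (a.A rot Er)(w)`, `M(w)^2 <= 3 (...)`; integrate over `y in Bn 12` and `z in W` (`RI_le`: `3*16*12^4 <= 10^6`):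
`RI a W 12 M <= 10^6 (N2 (a.A rot M) + N2 G + N2 Er)` (`N2_A_le`).
-/

set_option autoImplicit false
set_option linter.unusedVariables false
set_option linter.unusedSectionVars false

namespace Pool.Agent.SZ.PR

open Pool.Agent.IRS MeasureTheory Set Filter Topology



private lemma R22_mono {Y : Type*} [MeasurableSpace Y] {ρ : Measure Y} {S : Set Y}
    (hS : MeasurableSet S) {m α g e : Y → ℝ} (hm : IntegrableOn m S ρ) (hα : IntegrableOn α S ρ)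
    (hg : IntegrableOn g S ρ) (he : IntegrableOn e S ρ)
    (h : ∀ y ∈ S, m y ≤ 3 * α y + 3 * g y + 3 * e y) :
    ∫ y in S, m y ∂ρ ≤ 3 * ∫ y in S, α y ∂ρ + 3 * ∫ y in S, g y ∂ρ + 3 * ∫ y in S, e y ∂ρ := by
  have h1 : ∫ y in S, (3 * α y + 3 * g y) ∂ρ = 3 * ∫ y in S, α y ∂ρ + 3 * ∫ y in S, g y ∂ρ := by
    rw [← integral_const_mul, ← integral_const_mul]
    exact integral_add (hα.const_mul 3) (hg.const_mul 3)
  have h2 : ∫ y in S, (3 * α y + 3 * g y + 3 * e y) ∂ρ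
      = 3 * ∫ y in S, α y ∂ρ + 3 * ∫ y in S, g y ∂ρ + 3 * ∫ y in S, e y ∂ρ := by
    rw [← h1, ← integral_const_mul]
    exact integral_add ((hα.const_mul 3).add (hg.const_mul 3)) (he.const_mul 3)
  rw [← h2]
  exact setIntegral_mono_on hm (((hα.const_mul 3).add (hg.const_mul 3)).add (he.const_mul 3)) hS h

section

variable {Z : Type*} [MeasurableSpace Z] {ζ : Measure Z} [SigmaFinite ζ]

/-- A pointwise bound valid for all rotations gives a bound by rotation averages. -/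
private lemma R22_avg (a : PAct SL2R ζ) (M G Er : BL2 ζ) (w : Z)
    (h : ∀ θ : ℝ, |(M : Z → ℝ) w - (M : Z → ℝ) (a.τ (kk θ) w)|
      ≤ (G : Z → ℝ) w + (Er : Z → ℝ) (a.τ (kk θ) w)) :
    |(M : Z → ℝ) w| ≤ |((a.A rot M : BL2 ζ) : Z → ℝ) w| + (G : Z → ℝ) w
      + ((a.A rot Er : BL2 ζ) : Z → ℝ) w := by
  obtain ⟨CM, hCM⟩ := bbdd M
  obtain ⟨CE, hCE⟩ := bbdd Er
  have hmM : Measurable (fun g : SL2R => (M : Z → ℝ) (a.τ g w)) := a.meas_sec (bmeas M) w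
  have hmE : Measurable (fun g : SL2R => (Er : Z → ℝ) (a.τ g w)) := a.meas_sec (bmeas Er) w
  have hiM : Integrable (fun g : SL2R => (M : Z → ℝ) (a.τ g w)) rot :=
    integrable_of_bdd rot hmM fun g => hCM _
  have hiE : Integrable (fun g : SL2R => (Er : Z → ℝ) (a.τ g w)) rot :=
    integrable_of_bdd rot hmE fun g => hCE _
  have hae : ∀ᵐ g ∂rot, |(M : Z → ℝ) w - (M : Z → ℝ) (a.τ g w)|
      ≤ (G : Z → ℝ) w + (Er : Z → ℝ) (a.τ g w) := by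
    unfold rot
    refine Measure.ae_smul_measure ?_ _
    have hs : MeasurableSet {g : SL2R | |(M : Z → ℝ) w - (M : Z → ℝ) (a.τ g w)|
        ≤ (G : Z → ℝ) w + (Er : Z → ℝ) (a.τ g w)} :=
      measurableSet_le (hmM.const_sub _).abs (hmE.const_add _)
    rw [ae_map_iff measurable_kk.aemeasurable hs]
    filter_upwards with θ
    exact h θ
  have h1 : (M : Z → ℝ) w - ((a.A rot M : BL2 ζ) : Z → ℝ) w
      = ∫ g, ((M : Z → ℝ) w - (M : Z → ℝ) (a.τ g w)) ∂rot := by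
    rw [integral_sub (integrable_const _) hiM, a.A_apply]
    simp
  have h2 : |(M : Z → ℝ) w - ((a.A rot M : BL2 ζ) : Z → ℝ) w|
      ≤ (G : Z → ℝ) w + ((a.A rot Er : BL2 ζ) : Z → ℝ) w := by
    rw [h1]
    calc |∫ g, ((M : Z → ℝ) w - (M : Z → ℝ) (a.τ g w)) ∂rot|
        ≤ ∫ g, |(M : Z → ℝ) w - (M : Z → ℝ) (a.τ g w)| ∂rot := abs_integral_le_integral_abs
      _ ≤ ∫ g, ((G : Z → ℝ) w + (Er : Z → ℝ) (a.τ g w)) ∂rot :=
          integral_mono_ae ((integrable_const _).sub hiM).abs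
            ((integrable_const _).add hiE) hae
      _ = (G : Z → ℝ) w + ((a.A rot Er : BL2 ζ) : Z → ℝ) w := by
          rw [integral_add (integrable_const _) hiE, a.A_apply]
          simp
  have h3 : |(M : Z → ℝ) w| ≤ |((a.A rot M : BL2 ζ) : Z → ℝ) w|
      + |(M : Z → ℝ) w - ((a.A rot M : BL2 ζ) : Z → ℝ) w| := by
    have := abs_add_le (((a.A rot M : BL2 ζ) : Z → ℝ) w)
      ((M : Z → ℝ) w - ((a.A rot M : BL2 ζ) : Z → ℝ) w)
    simpa using this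
  linarith

/-- Integrated form of a pointwise bound by three functions. -/
private lemma R22_RI (a : PAct SL2R ζ) {W : Set Z} (hW : MeasurableSet W) (M A G E : BL2 ζ)
    (h : ∀ z ∈ W, ∀ y : SL2R, nS y ≤ 12 → |(M : Z → ℝ) (a.τ y z)|
      ≤ |(A : Z → ℝ) (a.τ y z)| + (G : Z → ℝ) (a.τ y z) + (E : Z → ℝ) (a.τ y z)) :
    RI a W 12 M ≤ 10 ^ 6 * (N2 A + N2 G + N2 E) := by
  have key : ∀ z ∈ W, Rz a 12 z M ≤ 3 * Rz a 12 z A + 3 * Rz a 12 z G + 3 * Rz a 12 z E := by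
    intro z hz
    have hi : ∀ f : BL2 ζ, IntegrableOn (fun y => ((f : Z → ℝ) (a.τ y z)) ^ 2) (Bn 12) mH := by
      intro f
      have := Rz_int a 12 z f 1
      simpa using this
    unfold Rz
    refine R22_mono (ball_meas' 12) (hi M) (hi A) (hi G) (hi E) ?_
    intro y hy
    have h1 := h z hz y hy
    set m := (M : Z → ℝ) (a.τ y z)
    set α := (A : Z → ℝ) (a.τ y z)
    set g := (G : Z → ℝ) (a.τ y z)
    set e := (E : Z → ℝ) (a.τ y z)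
    have h2 : m ^ 2 ≤ (|α| + g + e) ^ 2 := by
      rw [← sq_abs m]
      exact pow_le_pow_left₀ (abs_nonneg _) h1 2
    have h3 := sq_abs α
    nlinarith [sq_nonneg (|α| - g), sq_nonneg (g - e), sq_nonneg (|α| - e)]
  have h1 : RI a W 12 M ≤ 3 * RI a W 12 A + 3 * RI a W 12 G + 3 * RI a W 12 E := by
    unfold RI
    have hi : ∀ f : BL2 ζ, IntegrableOn (fun z => Rz a 12 z f) W ζ :=
      fun f => (Rz_integrable a 12 f).integrableOn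
    exact R22_mono hW (hi M) (hi A) (hi G) (hi E) key
  have hA := RI_le a hW (R := 12) (by norm_num) A
  have hG := RI_le a hW (R := 12) (by norm_num) G
  have hE := RI_le a hW (R := 12) (by norm_num) E
  have nA := N2_nonneg A
  have nG := N2_nonneg G
  have nE := N2_nonneg E
  norm_num at hA hG hE
  linarith

end

/-- The comparison element is close to the identity. -/
private lemma R22_d1 {y g : SL2R} {δ θ : ℝ} (hy : nS y ≤ 12)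
    (h : nM ((g : Matrix (Fin 2) (Fin 2) ℝ) - ((y⁻¹ * kk θ * y : SL2R) :
      Matrix (Fin 2) (Fin 2) ℝ)) ≤ δ) (hδ : 0 ≤ δ) :
    d1 (y * g * (kk θ * y)⁻¹) ≤ 408 * δ := by
  have e1 : y * (y⁻¹ * kk θ * y) * (kk θ * y)⁻¹ = 1 := by group
  have e2 : (((y * g * (kk θ * y)⁻¹ : SL2R) : Matrix (Fin 2) (Fin 2) ℝ) - 1)
      = (y : Matrix (Fin 2) (Fin 2) ℝ) * ((g : Matrix (Fin 2) (Fin 2) ℝ)
        - ((y⁻¹ * kk θ * y : SL2R) : Matrix (Fin 2) (Fin 2) ℝ))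
        * (((kk θ * y)⁻¹ : SL2R) : Matrix (Fin 2) (Fin 2) ℝ) := by
    have e3 : (1 : Matrix (Fin 2) (Fin 2) ℝ)
        = ((y * (y⁻¹ * kk θ * y) * (kk θ * y)⁻¹ : SL2R) : Matrix (Fin 2) (Fin 2) ℝ) := by
      rw [e1]; rfl
    rw [e3]
    simp only [Matrix.SpecialLinearGroup.coe_mul, mul_sub, sub_mul]
  unfold d1
  rw [e2]
  have h1 := nM_mul_le ((y : Matrix (Fin 2) (Fin 2) ℝ) * ((g : Matrix (Fin 2) (Fin 2) ℝ)
        - ((y⁻¹ * kk θ * y : SL2R) : Matrix (Fin 2) (Fin 2) ℝ)))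
        (((kk θ * y)⁻¹ : SL2R) : Matrix (Fin 2) (Fin 2) ℝ)
  have h2 := nM_mul_le (y : Matrix (Fin 2) (Fin 2) ℝ) ((g : Matrix (Fin 2) (Fin 2) ℝ)
        - ((y⁻¹ * kk θ * y : SL2R) : Matrix (Fin 2) (Fin 2) ℝ))
  have h3 : nM (((kk θ * y)⁻¹ : SL2R) : Matrix (Fin 2) (Fin 2) ℝ) ≤ 34 := by
    change nS ((kk θ * y)⁻¹) ≤ 34
    rw [nS_inv]
    refine (nS_mul_le _ _).trans ?_
    calc nS (kk θ) * nS y ≤ 283 / 100 * 12 :=
          mul_le_mul (nS_kk θ) hy (nS_pos y).le (by norm_num)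
      _ ≤ 34 := by norm_num
  have hy' : nM (y : Matrix (Fin 2) (Fin 2) ℝ) ≤ 12 := hy
  have h4 : nM (y : Matrix (Fin 2) (Fin 2) ℝ) * nM ((g : Matrix (Fin 2) (Fin 2) ℝ)
        - ((y⁻¹ * kk θ * y : SL2R) : Matrix (Fin 2) (Fin 2) ℝ)) ≤ 12 * δ :=
    mul_le_mul hy' h (nM_nonneg _) (by norm_num)
  calc _ ≤ _ := h1
    _ ≤ (12 * δ) * 34 := mul_le_mul (h2.trans h4) h3 (nM_nonneg _) (by linarith)
    _ = 408 * δ := by ring

theorem low (k0 : ℕ) (ε : ℝ) (hε : 0 < ε) : ∃ δ : ℝ, 0 < δ ∧ ∀ T2 : ℝ, ∃ C1 : ℝ, 0 ≤ C1 ∧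
    ∀ (Z : Type) [MeasurableSpace Z] (ζ : Measure Z) [SigmaFinite ζ]
      (a b : PAct SL2R ζ) (hab : ∀ g h z, a.τ g (b.τ h z) = b.τ h (a.τ g z)) (W : Set Z),
      MeasurableSet W →
      (∀ z ∈ W, ∃ H : Subgroup G2, (∀ h ∈ H, a.τ h.1 (b.τ h.2 z) = z) ∧ Den δ 1000 T2 H) →
      ∀ Φ J Φ'' : BL2 ζ, Φ = b.A nuK Φ'' → SmA a Φ J → ∀ r : ℝ, 0 ≤ r →
        RI a W 12 (MM a k0 (a.T (dd r) Φ))
          ≤ 10 ^ 6 * N2 (a.A rot (MM a k0 (a.T (dd r) Φ))) + C1 * Eb b Φ''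
            + ε * (N2 Φ + N2 J) := by
  obtain ⟨C0, hC0, hE0⟩ := E0 k0
  obtain ⟨δ, hδ0, hδ1, hδ2⟩ : ∃ δ : ℝ, 0 < δ ∧ 408 * δ ≤ 1 / 100
      ∧ 10 ^ 6 * (C0 * (408 * δ) ^ 2) ≤ ε := by
    have hc : 0 < 10 ^ 6 * (C0 + 1) := by positivity
    refine ⟨min (1 / 100) (Real.sqrt (ε / (10 ^ 6 * (C0 + 1)))) / 408, ?_, ?_, ?_⟩
    · have : 0 < Real.sqrt (ε / (10 ^ 6 * (C0 + 1))) := Real.sqrt_pos.2 (by positivity)
      positivity
    · rw [mul_div_cancel₀ _ (by norm_num)]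
      exact min_le_left _ _
    · rw [mul_div_cancel₀ _ (by norm_num)]
      have h1 : (min (1 / 100) (Real.sqrt (ε / (10 ^ 6 * (C0 + 1))))) ^ 2
          ≤ ε / (10 ^ 6 * (C0 + 1)) := by
        rw [← Real.sq_sqrt (show 0 ≤ ε / (10 ^ 6 * (C0 + 1)) by positivity)]
        refine pow_le_pow_left₀ (le_min (by norm_num) (Real.sqrt_nonneg _)) ?_ 2
        rw [Real.sq_sqrt (show 0 ≤ ε / (10 ^ 6 * (C0 + 1)) by positivity)]
        exact min_le_right _ _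
      have h2 : (ε / (10 ^ 6 * (C0 + 1))) * (10 ^ 6 * (C0 + 1)) = ε :=
        div_mul_cancel₀ _ hc.ne'
      have h3 : 0 ≤ ε / (10 ^ 6 * (C0 + 1)) := by positivity
      have h4 : 10 ^ 6 * (C0 * (min (1 / 100) (Real.sqrt (ε / (10 ^ 6 * (C0 + 1))))) ^ 2)
          ≤ 10 ^ 6 * (C0 * (ε / (10 ^ 6 * (C0 + 1)))) := by gcongr
      nlinarith
  refine ⟨δ, hδ0, fun T2 => ?_⟩
  obtain ⟨C19, hC19, hcost⟩ := cost T2
  refine ⟨10 ^ 6 * C19, by positivity, ?_⟩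
  intro Z _ ζ _ a b hab W hW hH Φ J Φ'' hΦ hSm r hr
  have hba : ∀ g h z, b.τ g (a.τ h z) = a.τ h (b.τ g z) := fun g h z => (hab h g z).symm
  obtain ⟨Er, hEr, hErp⟩ := hE0 Z ζ a Φ J hSm r hr (408 * δ) (by positivity) hδ1
  obtain ⟨G, hG, hGp⟩ := hcost Z ζ b (MM a k0 (a.T (dd r) Φ''))
  set M := MM a k0 (a.T (dd r) Φ) with hM
  have hMb : M = b.A nuK (MM a k0 (a.T (dd r) Φ'')) := by
    rw [hM, hΦ]
    unfold MM
    rw [← PAct.A_T_comm nuK hba, PAct.A_comm (sg k0) hab nuK]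
  have hG2 : N2 G ≤ C19 * Eb b Φ'' := by
    refine hG.trans (mul_le_mul_of_nonneg_left ?_ hC19)
    rw [← Eb_eq_E]
    refine (Eb_MM a b hab k0 _).trans ?_
    rw [Eb_T a b hab]
  have hpt : ∀ z ∈ W, ∀ y : SL2R, nS y ≤ 12 → |(M : Z → ℝ) (a.τ y z)|
      ≤ |((a.A rot M : BL2 ζ) : Z → ℝ) (a.τ y z)| + (G : Z → ℝ) (a.τ y z)
        + ((a.A rot Er : BL2 ζ) : Z → ℝ) (a.τ y z) := by
    intro z hz y hy
    refine R22_avg a M G Er (a.τ y z) fun θ => ?_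
    obtain ⟨H, hH1, hH2⟩ := hH z hz
    have hY : nS (y⁻¹ * kk θ * y) ≤ 1000 := by
      refine (nS_mul_le _ _).trans ?_
      have h1 := nS_mul_le y⁻¹ (kk θ)
      rw [nS_inv] at h1
      calc nS (y⁻¹ * kk θ) * nS y ≤ (12 * (283 / 100)) * 12 :=
            mul_le_mul (h1.trans (mul_le_mul hy (nS_kk θ) (nS_pos _).le (by norm_num))) hy
              (nS_pos y).le (by norm_num)
        _ ≤ 1000 := by norm_num
    obtain ⟨q, hq, hq1, hq2⟩ := hH2 _ hY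
    have he := R22_d1 hy hq1 hδ0.le
    have e1 : a.τ (y * q.1 * (kk θ * y)⁻¹) (a.τ (kk θ * y) z) = a.τ (y * q.1) z := by
      rw [← a.mul]
      congr 1
      group
    have e2 : a.τ q.1 z = b.τ q.2⁻¹ z := by
      have h1 := hH1 q hq
      rw [hab] at h1
      have h2 := congrArg (b.τ q.2⁻¹) h1
      rw [b.inv_apply] at h2
      exact h2
    have e3 : a.τ (y * q.1) z = b.τ q.2⁻¹ (a.τ y z) := by
      rw [a.mul, e2, hab]
    have h1 := hErp (y * q.1 * (kk θ * y)⁻¹) (a.τ (kk θ * y) z) he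
    rw [e1, e3] at h1
    have h2 := hGp q.2⁻¹ (a.τ y z) (by rw [nS_inv]; exact hq2)
    rw [← hMb] at h2
    rw [← a.mul]
    have h3 : |(M : Z → ℝ) (a.τ y z) - (M : Z → ℝ) (a.τ (kk θ * y) z)|
        ≤ |(M : Z → ℝ) (a.τ y z) - (M : Z → ℝ) (b.τ q.2⁻¹ (a.τ y z))|
          + |(M : Z → ℝ) (b.τ q.2⁻¹ (a.τ y z)) - (M : Z → ℝ) (a.τ (kk θ * y) z)| :=
      abs_sub_le _ _ _
    rw [abs_sub_comm ((M : Z → ℝ) (a.τ y z)) ((M : Z → ℝ) (b.τ q.2⁻¹ (a.τ y z)))] at h3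
    linarith
  have hfin := R22_RI a hW M (a.A rot M) G (a.A rot Er) hpt
  have hA := N2_A_le a rot Er
  have h5 : 10 ^ 6 * (C0 * (408 * δ) ^ 2 * (N2 Φ + N2 J)) ≤ ε * (N2 Φ + N2 J) := by
    have h6 : 0 ≤ N2 Φ + N2 J := add_nonneg (N2_nonneg _) (N2_nonneg _)
    have := mul_le_mul_of_nonneg_right hδ2 h6
    linarith
  linarith

end Pool.Agent.SZ.PR
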