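import Mathlib
import Pool.Agent.SZ.RDefs
import Pool.Agent.SZ.R02
import Pool.Agent.SZ.R03
import Pool.Agent.SZ.R18
import Pool.Agent.SZ.R20

/-!
# SZ part R, module R23: the rotation average of the low part

`F~ = AA a b F = a.P nuK (b.P nuK F)`.  For `w` in `Z`, `t` real, `g_t := kk θ * dd r * uu t`:
`(a.T (dd r) (a.T (u * kk θ) F~ - F~)) (a.τ (uu t * kk s) w) = F~(a.τ (u * g_t * kk s) w) - F~(a.τ (dd r * uu t * kk s) w)
= F~(a.τ (u * g_t * kk s) w) - F~(a.τ (g_t * kk s) w)` by `AA_kk`.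
So `(a.A rot (MM a k0 (..)))(w) = (2π)^-1 int_0^{2π} 2^k0 int_0^{2^-k0} [F~(u g_t kk s w) - F~(g_t kk s w)] dt ds` (order of the operators:
`(a.A rot M)(w) = int M(a.τ (kk s) w)`, `M(w') = average of ψ(a.τ (uu t) w')`), Fubini: `= 2^k0 int_0^{2^-k0} (2π)^-1 Θ_t(w) dt`,
`Θ_t(w) = int_0^{2π} (..) ds`, whose `L2` norm squared is `<= C B(F' - P F', F' - P F')`, `F' = b.P nuK F`, by the hypothesis `hleg` with `g = g_t`; Cauchy Schwarz in `t`, Tonelli;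
`sq_Q_le` (R20).
-/

set_option autoImplicit false
set_option linter.unusedVariables false
set_option linter.unusedSectionVars false

namespace Pool.Agent.SZ.PR

open Pool.Agent.IRS MeasureTheory Set Filter Topology



/-- The statement of part LEG. -/
def LegSt : Prop := ∃ C : ℝ, 0 ≤ C ∧ ∀ (Z : Type) [MeasurableSpace Z] (ζ : Measure Z) [SigmaFinite ζ]
    (a : PAct SL2R ζ) (F : BL2 ζ) (u g : SL2R), nS u ≤ 20 →
    ∫ z, (∫ θ in (0 : ℝ)..(2 * Real.pi), (((a.P nuK F : BL2 ζ) : Z → ℝ) (a.τ (u * g * kk θ) z)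
        - ((a.P nuK F : BL2 ζ) : Z → ℝ) (a.τ (g * kk θ) z))) ^ 2 ∂ζ
      ≤ C * (frm ζ).B (F - a.P nuK F) (F - a.P nuK F)

section

variable {Z : Type*} [MeasurableSpace Z] {ζ : Measure Z} [SigmaFinite ζ]

private lemma R23_rot (a : PAct SL2R ζ) (f : BL2 ζ) (w : Z) :
    ((a.A rot f : BL2 ζ) : Z → ℝ) w
      = (2 * Real.pi)⁻¹ * ∫ s in (0 : ℝ)..(2 * Real.pi), (f : Z → ℝ) (a.τ (kk s) w) := by
  have hpi : 0 ≤ 2 * Real.pi := by positivity
  rw [a.A_apply, rot, integral_smul_measure, integral_map measurable_kk.aemeasurable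
    (a.meas_sec (bmeas f) w).aestronglyMeasurable, intervalIntegral.integral_of_le hpi,
    ENNReal.toReal_inv, ENNReal.toReal_ofReal hpi, smul_eq_mul]

end

theorem rotlow (hleg : LegSt) : ∃ C : ℝ, 0 ≤ C ∧ ∀ (Z : Type) [MeasurableSpace Z] (ζ : Measure Z)
    [SigmaFinite ζ] (a b : PAct SL2R ζ) (hab : ∀ g h z, a.τ g (b.τ h z) = b.τ h (a.τ g z))
    (F : BL2 ζ) (u : SL2R) (θ r : ℝ) (k0 : ℕ), nS u ≤ 20 →
    N2 (a.A rot (MM a k0 (a.T (dd r) (a.T (u * kk θ) (AA a b F) - AA a b F))))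
      ≤ C * (frm ζ).B (DD a b F) (DD a b F) := by
  obtain ⟨C, hC, h⟩ := hleg
  refine ⟨C, hC, ?_⟩
  intro Z _ ζ _ a b hab F u θ r k0 hu
  set ψ : BL2 ζ := a.T (dd r) (a.T (u * kk θ) (AA a b F) - AA a b F) with hψ
  set K : ℝ := C * (frm ζ).B (DD a b F) (DD a b F) with hK
  have hK0 : 0 ≤ K := mul_nonneg hC ((frm ζ).nonneg _)
  set F' : BL2 ζ := b.P nuK F with hF'
  have hAA : AA a b F = a.P nuK F' := rfl
  have step : ∀ t : ℝ, N2 (a.A rot (a.T (uu t) ψ)) ≤ K := by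
    intro t
    set g : SL2R := kk θ * dd r * uu t with hg
    have e1 : ∀ w : Z, ((a.A rot (a.T (uu t) ψ) : BL2 ζ) : Z → ℝ) w
        = (2 * Real.pi)⁻¹ * ∫ s in (0 : ℝ)..(2 * Real.pi),
          (((a.P nuK F' : BL2 ζ) : Z → ℝ) (a.τ (u * g * kk s) w)
            - ((a.P nuK F' : BL2 ζ) : Z → ℝ) (a.τ (g * kk s) w)) := by
      intro w
      rw [R23_rot]
      congr 2
      ext s
      have e2 : ((a.T (uu t) ψ : BL2 ζ) : Z → ℝ) (a.τ (kk s) w)
          = ((AA a b F : BL2 ζ) : Z → ℝ) (a.τ (u * kk θ) (a.τ (dd r) (a.τ (uu t) (a.τ (kk s) w))))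
            - ((AA a b F : BL2 ζ) : Z → ℝ) (a.τ (dd r) (a.τ (uu t) (a.τ (kk s) w))) := rfl
      have e3 : ∀ z : Z, ((AA a b F : BL2 ζ) : Z → ℝ) z
          = ((AA a b F : BL2 ζ) : Z → ℝ) (a.τ (kk θ) z) := by
        intro z
        have := AA_kk a b F θ
        conv_lhs => rw [← this]
        rfl
      rw [e2, e3 (a.τ (dd r) (a.τ (uu t) (a.τ (kk s) w))), hAA]
      simp only [← a.mul, hg, mul_assoc]
    have e4 : N2 (a.A rot (a.T (uu t) ψ)) = ((2 * Real.pi)⁻¹) ^ 2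
        * ∫ z, (∫ s in (0 : ℝ)..(2 * Real.pi),
          (((a.P nuK F' : BL2 ζ) : Z → ℝ) (a.τ (u * g * kk s) z)
            - ((a.P nuK F' : BL2 ζ) : Z → ℝ) (a.τ (g * kk s) z))) ^ 2 ∂ζ := by
      rw [R02_N2_eq, ← integral_const_mul]
      congr 1
      ext z
      rw [e1 z, mul_pow]
    have e5 := h Z ζ a F' u g hu
    have e6 := sq_Q_le a b hab F
    have e7 : (frm ζ).B (F' - a.P nuK F') (F' - a.P nuK F')
        ≤ (frm ζ).B (DD a b F) (DD a b F) := e6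
    have hpi : ((2 * Real.pi)⁻¹) ^ 2 ≤ 1 := by
      have h3 : (1 : ℝ) ≤ 2 * Real.pi := by nlinarith [Real.pi_gt_three]
      exact pow_le_one₀ (by positivity) (inv_le_one_of_one_le₀ h3)
    rw [e4]
    calc ((2 * Real.pi)⁻¹) ^ 2 * _ ≤ 1 * (C * (frm ζ).B (F' - a.P nuK F') (F' - a.P nuK F')) :=
          mul_le_mul hpi e5 (integral_nonneg fun z => sq_nonneg _) (by norm_num)
      _ ≤ K := by
          rw [one_mul, hK]
          exact mul_le_mul_of_nonneg_left e7 hC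
  set X : BL2 ζ := a.A rot (MM a k0 ψ) with hX
  have h1 : (frm ζ).B X X = ∫ g, (frm ζ).B (a.T g ψ) (a.A (nui rot) X) ∂(sg k0) := by
    have e1 : (frm ζ).B (a.A rot (MM a k0 ψ)) X = (frm ζ).B (MM a k0 ψ) (a.A (nui rot) X) :=
      a.adj rot (MM a k0 ψ) X
    have e2 : (frm ζ).B (MM a k0 ψ) (a.A (nui rot) X)
        = ∫ g, (frm ζ).B (a.T g ψ) (a.A (nui rot) X) ∂(sg k0) :=
      a.B_A (sg k0) ψ (a.A (nui rot) X)
    rw [← e2, ← e1]
  have h2 : ∀ t : ℝ, (frm ζ).B (a.T (uu t) ψ) (a.A (nui rot) X)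
      ≤ Real.sqrt K * (frm ζ).nrm X := by
    intro t
    rw [← a.adj rot]
    refine ((frm ζ).le_nrm_mul _ _).trans ?_
    refine mul_le_mul_of_nonneg_right ?_ ((frm ζ).nrm_nonneg X)
    refine Real.le_sqrt_of_sq_le ?_
    have := step t
    rwa [N2_eq_nrm] at this
  have h3 : ∀ᵐ g ∂(sg k0), (frm ζ).B (a.T g ψ) (a.A (nui rot) X)
      ≤ Real.sqrt K * (frm ζ).nrm X := by
    unfold sg
    refine Measure.ae_smul_measure ?_ _
    rw [ae_map_iff measurable_uu.aemeasurable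
      (measurableSet_le (a.B_T_measurable _ _) measurable_const)]
    exact Eventually.of_forall h2
  have h4 : (frm ζ).nrm X ^ 2 ≤ Real.sqrt K * (frm ζ).nrm X := by
    rw [(frm ζ).nrm_sq, h1]
    calc ∫ g, (frm ζ).B (a.T g ψ) (a.A (nui rot) X) ∂(sg k0)
        ≤ ∫ g, Real.sqrt K * (frm ζ).nrm X ∂(sg k0) :=
          integral_mono_ae (a.B_T_integrable (sg k0) ψ _) (integrable_const _) h3
      _ = Real.sqrt K * (frm ζ).nrm X := by simp
  have h5 : (frm ζ).nrm X ≤ Real.sqrt K := by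
    by_contra hcon
    push Not at hcon
    have h6 : 0 < (frm ζ).nrm X := lt_of_le_of_lt (Real.sqrt_nonneg _) hcon
    nlinarith
  rw [N2_eq_nrm, ← Real.sq_sqrt hK0]
  exact pow_le_pow_left₀ ((frm ζ).nrm_nonneg X) h5 2

end Pool.Agent.SZ.PR
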