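import Mathlib
import Pool.Agent.SZ.RDefs
import Pool.Agent.SZ.R01

/-!
# SZ part R, module R24: the set Wt and the Cartan decomposition

`Wt a W = {y | mH.real (Bx 2) / 2 <= mH.real (Bx 2 ∩ {c | a.τ c⁻¹ y in W})}`.
`Wt_meas`: `y -> mH (Bx 2 ∩ {c | ..})` is measurable (`measurable_measure_prodMk_left` for the finite measure `mH.restrict (Bx 2)`).  `Bx 2` lies in `Bn 4` (`nS_sq_le`),
so it has finite measure; it has positive measure (`mH_open_pos`).
`Wt_inv`: `a.τ (kk θ) y in Wt a W` iff `y in Wt a W`: `{c | a.τ c⁻¹ (a.τ (kk θ) y) in W} = kk θ {c' | a.τ c'⁻¹ y in W}`, `Bx 2 = kk θ Bx 2` (`xx` is left invariant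
under rotations), `mH_left`.
`Wt_le`: `int_{Wt} f(kk θ z)^2 = int_{Wt} f(z)^2` (`Wt_inv`, `a.mp`), and `1_{Wt}(y) <= (2/mH(Bx 2)) mH (Bx 2 ∩ {c | c⁻¹ y in W})`, so
`int_{Wt} f^2 <= (2/mH(Bx 2)) int_{c in Bx 2} int f(y)^2 1_W(c⁻¹ y) dζ(y) dmH(c) = (2/mH(Bx 2)) int_{c in Bx 2} int_W f(c z)^2 dζ(z) dmH(c)
<= (2/mH(Bx 2)) RI a W 4 f` (Tonelli).
`cartan`: for `g` let `S = g gᵀ`...; or: choose `θ` such that the two columns of `g kk θ` are orthogonal (the inner product of the columns of `g kk θ` is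
`A cos 2θ + B sin 2θ`), then `g kk θ = kk θ' * diag(s, 1/s)` with `s > 0` (normalise the first column), `s = e^r`; if `r < 0` conjugate by `kk (π/2)`:
`kk (π/2) dd r kk (-π/2) = dd (-r)`.
`cartan_log`: `xx (kk θ1 * dd r * kk θ2) = xx (dd r) = (e^(2r) + e^(-2r))/2`, and `2 xx g <= nS g ^2` (`two_xx_le`): `e^(2r) <= nS g ^2`.
-/

set_option autoImplicit false
set_option linter.unusedVariables false
set_option linter.unusedSectionVars false

namespace Pool.Agent.SZ.PR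

open Pool.Agent.IRS MeasureTheory Set Filter Topology

section

variable {Z : Type*} [MeasurableSpace Z] {ζ : Measure Z} [SigmaFinite ζ]

private lemma kk00 (θ : ℝ) : kk θ 0 0 = Real.cos θ := rfl
private lemma kk01 (θ : ℝ) : kk θ 0 1 = Real.sin θ := rfl
private lemma kk10 (θ : ℝ) : kk θ 1 0 = -Real.sin θ := rfl
private lemma kk11 (θ : ℝ) : kk θ 1 1 = Real.cos θ := rfl

private lemma r24_kk_add (s t : ℝ) : kk (s + t) = kk s * kk t := by
  apply SL_ext
  · rw [SL_mul_apply, kk00, kk00, kk01, kk00, kk10, Real.cos_add]; ring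
  · rw [SL_mul_apply, kk01, kk00, kk01, kk01, kk11, Real.sin_add]; ring
  · rw [SL_mul_apply, kk10, kk10, kk11, kk00, kk10, Real.sin_add]; ring
  · rw [SL_mul_apply, kk11, kk10, kk11, kk01, kk11, Real.cos_add]; ring

private lemma r24_kk_zero : kk 0 = 1 := by
  apply SL_ext
  · rw [kk00, Real.cos_zero]; simp
  · rw [kk01, Real.sin_zero]; simp
  · rw [kk10, Real.sin_zero]; simp
  · rw [kk11, Real.cos_zero]; simp

private lemma r24_left (θ : ℝ) (g : SL2R) : xx (kk θ * g) = xx g := by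
  have h := Real.sin_sq_add_cos_sq θ
  unfold xx
  rw [SL_mul_apply, SL_mul_apply, SL_mul_apply, SL_mul_apply, kk00, kk01, kk10, kk11]
  linear_combination ((g 0 0 ^ 2 + g 0 1 ^ 2 + g 1 0 ^ 2 + g 1 1 ^ 2) / 2) * h

private lemma r24_right (g : SL2R) (θ : ℝ) : xx (g * kk θ) = xx g := by
  have h := Real.sin_sq_add_cos_sq θ
  unfold xx
  rw [SL_mul_apply, SL_mul_apply, SL_mul_apply, SL_mul_apply, kk00, kk01, kk10, kk11]
  linear_combination ((g 0 0 ^ 2 + g 0 1 ^ 2 + g 1 0 ^ 2 + g 1 1 ^ 2) / 2) * h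

private lemma Bx_meas : MeasurableSet (Bx 2) := measurableSet_le measurable_xx measurable_const

private lemma Bx_sub : Bx 2 ⊆ Bn 4 := by
  intro g hg
  have h1 : xx g ≤ 2 := hg
  have h2 := nS_sq_le g
  have h3 := nS_pos g
  change nS g ≤ 4
  nlinarith

private lemma Bx_lt : mH (Bx 2) < ⊤ := (measure_mono Bx_sub).trans_lt (mH_ball_lt 4)

private instance finBx : IsFiniteMeasure (mH.restrict (Bx 2)) :=
  ⟨by rw [Measure.restrict_apply_univ]; exact Bx_lt⟩

private lemma setc_meas (a : PAct SL2R ζ) {W : Set Z} (hW : MeasurableSet W) :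
    MeasurableSet {p : Z × SL2R | a.τ p.2⁻¹ p.1 ∈ W} := by
  have h1 : Measurable (fun p : Z × SL2R => a.τ p.2⁻¹ p.1) :=
    a.meas.comp (measurable_snd.inv.prodMk measurable_fst)
  exact h1 hW

private lemma seccc (a : PAct SL2R ζ) {W : Set Z} (hW : MeasurableSet W) (y : Z) :
    MeasurableSet {c : SL2R | a.τ c⁻¹ y ∈ W} := by
  have h1 : Measurable (fun c : SL2R => (y, c)) := measurable_const.prodMk measurable_id
  exact h1 (setc_meas a hW)

private lemma real_eq (a : PAct SL2R ζ) {W : Set Z} (hW : MeasurableSet W) (y : Z) :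
    mH.real (Bx 2 ∩ {c | a.τ c⁻¹ y ∈ W}) =
      ((mH.restrict (Bx 2)) (Prod.mk y ⁻¹' {p : Z × SL2R | a.τ p.2⁻¹ p.1 ∈ W})).toReal := by
  have h : Prod.mk y ⁻¹' {p : Z × SL2R | a.τ p.2⁻¹ p.1 ∈ W} = {c : SL2R | a.τ c⁻¹ y ∈ W} := rfl
  rw [h, Measure.restrict_apply (seccc a hW y), inter_comm]
  rfl

lemma Wt_meas (a : PAct SL2R ζ) {W : Set Z} (hW : MeasurableSet W) : MeasurableSet (Wt a W) := by
  have h1 : Measurable (fun y : Z => ((mH.restrict (Bx 2))
      (Prod.mk y ⁻¹' {p : Z × SL2R | a.τ p.2⁻¹ p.1 ∈ W})).toReal) :=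
    (measurable_measure_prodMk_left (setc_meas a hW)).ennreal_toReal
  have h2 : Wt a W = {y | mH.real (Bx 2) / 2 ≤ ((mH.restrict (Bx 2))
      (Prod.mk y ⁻¹' {p : Z × SL2R | a.τ p.2⁻¹ p.1 ∈ W})).toReal} := by
    ext y
    change mH.real (Bx 2) / 2 ≤ mH.real (Bx 2 ∩ {c | a.τ c⁻¹ y ∈ W}) ↔ mH.real (Bx 2) / 2 ≤
      ((mH.restrict (Bx 2)) (Prod.mk y ⁻¹' {p : Z × SL2R | a.τ p.2⁻¹ p.1 ∈ W})).toReal
    rw [real_eq a hW]
  rw [h2]
  exact measurableSet_le measurable_const h1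

lemma Bx_pos : 0 < mH.real (Bx 2) := by
  have hc : Continuous xx := by
    have hcont : Continuous (fun g : SL2R => (g : Matrix (Fin 2) (Fin 2) ℝ)) :=
      continuous_subtype_val
    unfold xx
    exact (((((hcont.matrix_elem 0 0).pow 2).add ((hcont.matrix_elem 0 1).pow 2)).add
      ((hcont.matrix_elem 1 0).pow 2)).add ((hcont.matrix_elem 1 1).pow 2)).div_const 2
  have hU : IsOpen {g : SL2R | xx g < 2} := isOpen_lt hc continuous_const
  have h1 : 0 < mH (Bx 2) := by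
    refine lt_of_lt_of_le (mH_open_pos hU ⟨1, ?_⟩) (measure_mono ?_)
    · change xx 1 < 2
      rw [xx_one]; norm_num
    · intro g hg
      exact le_of_lt (show xx g < 2 from hg)
  exact ENNReal.toReal_pos h1.ne' Bx_lt.ne

lemma Wt_inv (a : PAct SL2R ζ) (W : Set Z) (θ : ℝ) (y : Z) : a.τ (kk θ) y ∈ Wt a W ↔ y ∈ Wt a W := by
  have h1 : mH (Bx 2 ∩ {c | a.τ c⁻¹ (a.τ (kk θ) y) ∈ W}) =
      mH (Bx 2 ∩ {c | a.τ c⁻¹ y ∈ W}) := by
    have h2 := (mp_left (kk θ)).measure_preimage_equiv (f := MeasurableEquiv.mulLeft (kk θ))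
      (Bx 2 ∩ {c | a.τ c⁻¹ (a.τ (kk θ) y) ∈ W})
    rw [← h2]
    congr 1
    ext c
    have e1 : xx (kk θ * c) = xx c := r24_left θ c
    have e2 : a.τ (kk θ * c)⁻¹ (a.τ (kk θ) y) = a.τ c⁻¹ y := by
      rw [← a.mul]
      congr 1
      group
    change (xx (kk θ * c) ≤ 2 ∧ a.τ (kk θ * c)⁻¹ (a.τ (kk θ) y) ∈ W) ↔
      (xx c ≤ 2 ∧ a.τ c⁻¹ y ∈ W)
    rw [e1, e2]
  change _ ≤ (mH (Bx 2 ∩ {c | a.τ c⁻¹ (a.τ (kk θ) y) ∈ W})).toReal ↔
    _ ≤ (mH (Bx 2 ∩ {c | a.τ c⁻¹ y ∈ W})).toReal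
  rw [h1]

theorem Wt_le (a : PAct SL2R ζ) {W : Set Z} (hW : MeasurableSet W) (f : BL2 ζ) (θ : ℝ) :
    ∫ z in Wt a W, ((f : Z → ℝ) (a.τ (kk θ) z)) ^ 2 ∂ζ ≤ 2 / mH.real (Bx 2) * RI a W 4 f := by
  classical
  set m := mH.real (Bx 2) with hm
  have m0 : 0 < m := Bx_pos
  set ν := mH.restrict (Bx 2) with hν
  have hWt := Wt_meas a hW
  -- the rotation disappears
  have h1 : ∫ z in Wt a W, ((f : Z → ℝ) (a.τ (kk θ) z)) ^ 2 ∂ζ =
      ∫ z in Wt a W, ((f : Z → ℝ) z) ^ 2 ∂ζ := by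
    rw [← integral_indicator hWt, ← integral_indicator hWt]
    have h2 := a.integral_comp (kk θ) (F := (Wt a W).indicator (fun z => ((f : Z → ℝ) z) ^ 2))
      (((bmeas f).pow_const 2).indicator hWt)
    rw [← h2]
    congr 1
    funext z
    by_cases hz : z ∈ Wt a W
    · rw [indicator_of_mem hz, indicator_of_mem ((Wt_inv a W θ z).2 hz)]
    · rw [indicator_of_notMem hz, indicator_of_notMem (fun h => hz ((Wt_inv a W θ z).1 h))]
  rw [h1]
  -- the double integral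
  obtain ⟨G, hG⟩ : ∃ G : SL2R → Z → ℝ, ∀ c z, G c z =
      W.indicator (fun _ => (1 : ℝ)) (a.τ c⁻¹ z) * (f : Z → ℝ) z ^ 2 := ⟨_, fun _ _ => rfl⟩
  have hGm : Measurable (fun p : SL2R × Z => G p.1 p.2) := by
    have e1 : Measurable (fun p : SL2R × Z => a.τ p.1⁻¹ p.2) :=
      a.meas.comp (measurable_fst.inv.prodMk measurable_snd)
    simp only [hG]
    exact ((measurable_const.indicator hW).comp e1).mul
      (((bmeas f).comp measurable_snd).pow_const 2)
  have hG0 : ∀ c z, 0 ≤ G c z := fun c z => by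
    rw [hG]
    exact mul_nonneg (indicator_nonneg (fun _ _ => zero_le_one) _) (sq_nonneg _)
  have hG1 : ∀ c z, G c z ≤ (f : Z → ℝ) z ^ 2 := by
    intro c z
    have e1 : W.indicator (fun _ => (1 : ℝ)) (a.τ c⁻¹ z) ≤ 1 := by
      by_cases hz : a.τ c⁻¹ z ∈ W
      · rw [indicator_of_mem hz]
      · rw [indicator_of_notMem hz]; norm_num
    rw [hG]
    calc _ ≤ 1 * (f : Z → ℝ) z ^ 2 := mul_le_mul_of_nonneg_right e1 (sq_nonneg _)
      _ = _ := one_mul _
  have hGi : Integrable (fun p : SL2R × Z => G p.1 p.2) (ν.prod ζ) := by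
    refine ((bsq f).comp_snd ν).mono' hGm.aestronglyMeasurable ?_
    filter_upwards with p
    rw [Real.norm_eq_abs, abs_of_nonneg (hG0 _ _)]
    exact hG1 _ _
  have hsw : ∫ c, (∫ z, G c z ∂ζ) ∂ν = ∫ z, (∫ c, G c z ∂ν) ∂ζ :=
    integral_integral_swap (f := G) hGi
  have hGi2 : Integrable (fun z => ∫ c, G c z ∂ν) ζ := hGi.integral_prod_right
  have h3 : ∫ z in Wt a W, ((f : Z → ℝ) z) ^ 2 ∂ζ ≤ ∫ z, 2 / m * (∫ c, G c z ∂ν) ∂ζ := by
    rw [← integral_indicator hWt]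
    refine integral_mono_ae ((bsq f).indicator hWt) (hGi2.const_mul _) ?_
    filter_upwards with z
    have e0 : 0 ≤ ∫ c, G c z ∂ν := integral_nonneg (fun c => hG0 c z)
    by_cases hz : z ∈ Wt a W
    · rw [indicator_of_mem hz]
      have e1 : ∫ c, G c z ∂ν = mH.real (Bx 2 ∩ {c | a.τ c⁻¹ z ∈ W}) * (f : Z → ℝ) z ^ 2 := by
        have e2 : ∀ c, G c z = ({c : SL2R | a.τ c⁻¹ z ∈ W}.indicator (fun _ => (1 : ℝ)) c) *
            (f : Z → ℝ) z ^ 2 := fun c => hG c z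
        simp only [e2]
        rw [integral_mul_const, integral_indicator (seccc a hW z), integral_const,
          smul_eq_mul, mul_one]
        congr 1
        rw [real_eq a hW]
        have h : Prod.mk z ⁻¹' {p : Z × SL2R | a.τ p.2⁻¹ p.1 ∈ W} =
          {c : SL2R | a.τ c⁻¹ z ∈ W} := rfl
        rw [h, Measure.real, Measure.restrict_apply_univ]
      rw [e1]
      have e3 : m / 2 ≤ mH.real (Bx 2 ∩ {c | a.τ c⁻¹ z ∈ W}) := hz
      have e4 : 1 ≤ 2 / m * mH.real (Bx 2 ∩ {c | a.τ c⁻¹ z ∈ W}) := by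
        calc (1 : ℝ) = 2 / m * (m / 2) := by field_simp
          _ ≤ _ := mul_le_mul_of_nonneg_left e3 (by positivity)
      calc (f : Z → ℝ) z ^ 2 = 1 * (f : Z → ℝ) z ^ 2 := (one_mul _).symm
        _ ≤ (2 / m * mH.real (Bx 2 ∩ {c | a.τ c⁻¹ z ∈ W})) * (f : Z → ℝ) z ^ 2 :=
            mul_le_mul_of_nonneg_right e4 (sq_nonneg _)
        _ = _ := by ring
    · rw [indicator_of_notMem hz]
      positivity
  refine h3.trans ?_
  rw [integral_const_mul, ← hsw]
  refine mul_le_mul_of_nonneg_left ?_ (by positivity)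
  -- substitution in the inner integral
  have h4 : ∀ c, ∫ z, G c z ∂ζ = ∫ z in W, (f : Z → ℝ) (a.τ c z) ^ 2 ∂ζ := by
    intro c
    have e0 : Measurable (fun z : Z => (c, z)) := measurable_const.prodMk measurable_id
    have e1 : Measurable (fun z => G c z) := hGm.comp e0
    rw [← a.integral_comp c (F := fun z => G c z) e1, ← integral_indicator hW]
    congr 1
    funext z
    have e2 : a.τ c⁻¹ (a.τ c z) = z := a.inv_apply c z
    rw [hG, e2]
    by_cases hz : z ∈ W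
    · rw [indicator_of_mem hz, indicator_of_mem hz, one_mul]
    · rw [indicator_of_notMem hz, indicator_of_notMem hz, zero_mul]
  simp only [h4]
  have hi : Integrable (fun p : SL2R × Z => (f : Z → ℝ) (a.τ p.1 p.2) ^ 2)
      (ν.prod (ζ.restrict W)) := by
    have e1 := a.sq_prod_int ν f
    have e2 : ν.prod (ζ.restrict W) = (ν.prod ζ).restrict (univ ×ˢ W) := by
      rw [← Measure.prod_restrict, Measure.restrict_univ]
    rw [e2]
    exact e1.restrict
  have h5 : ∫ c, (∫ z in W, (f : Z → ℝ) (a.τ c z) ^ 2 ∂ζ) ∂ν =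
      ∫ z in W, (∫ c, (f : Z → ℝ) (a.τ c z) ^ 2 ∂ν) ∂ζ :=
    integral_integral_swap (f := fun c z => (f : Z → ℝ) (a.τ c z) ^ 2) hi
  rw [h5]
  refine integral_mono_ae hi.integral_prod_right (Rz_integrable a 4 f).restrict ?_
  filter_upwards with z
  have e1 := Rz_int a 4 z f 1
  simp only [mul_one] at e1
  exact setIntegral_mono_set e1 (by filter_upwards with c; exact sq_nonneg _)
    (HasSubset.Subset.eventuallyLE Bx_sub)

private lemma exists_cs {x y : ℝ} (h : x ^ 2 + y ^ 2 = 1) :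
    ∃ φ : ℝ, Real.cos φ = x ∧ Real.sin φ = y := by
  have hn : ‖(⟨x, y⟩ : ℂ)‖ = 1 := by
    rw [← sq_eq_sq₀ (norm_nonneg _) zero_le_one, ← Complex.normSq_eq_norm_sq, Complex.normSq_mk]
    nlinarith
  have hz : (⟨x, y⟩ : ℂ) ≠ 0 := by
    intro h0
    rw [h0, norm_zero] at hn
    exact zero_ne_one hn
  refine ⟨Complex.arg ⟨x, y⟩, ?_, ?_⟩
  · rw [Complex.cos_arg hz, hn, div_one]
  · rw [Complex.sin_arg, hn, div_one]

private lemma exists_zero (A B : ℝ) : ∃ φ : ℝ, A * Real.sin φ + B * Real.cos φ = 0 := by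
  by_cases h : A ^ 2 + B ^ 2 = 0
  · have hA : A = 0 := by nlinarith [sq_nonneg A, sq_nonneg B]
    have hB : B = 0 := by nlinarith [sq_nonneg A, sq_nonneg B]
    exact ⟨0, by rw [hA, hB]; ring⟩
  · have hp : 0 < A ^ 2 + B ^ 2 := lt_of_le_of_ne (by positivity) (Ne.symm h)
    have hs := Real.sqrt_pos.2 hp
    have hsq := Real.sq_sqrt hp.le
    obtain ⟨φ, h1, h2⟩ := exists_cs (x := A / Real.sqrt (A ^ 2 + B ^ 2))
      (y := -B / Real.sqrt (A ^ 2 + B ^ 2)) (by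
        rw [div_pow, div_pow, hsq]
        field_simp)
    refine ⟨φ, ?_⟩
    rw [h1, h2]
    ring

theorem cartan (g : SL2R) : ∃ θ1 θ2 r : ℝ, 0 ≤ r ∧ g = kk θ1 * dd r * kk θ2 := by
  -- a rotation which makes the columns orthogonal
  obtain ⟨φ, hφ⟩ := exists_zero ((g 0 0 ^ 2 - g 0 1 ^ 2 + g 1 0 ^ 2 - g 1 1 ^ 2) / 2)
    (g 0 0 * g 0 1 + g 1 0 * g 1 1)
  set h := g * kk (φ / 2) with hh
  have e00 : h 0 0 = g 0 0 * Real.cos (φ / 2) + g 0 1 * (-Real.sin (φ / 2)) := by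
    rw [hh, SL_mul_apply]; rfl
  have e01 : h 0 1 = g 0 0 * Real.sin (φ / 2) + g 0 1 * Real.cos (φ / 2) := by
    rw [hh, SL_mul_apply]; rfl
  have e10 : h 1 0 = g 1 0 * Real.cos (φ / 2) + g 1 1 * (-Real.sin (φ / 2)) := by
    rw [hh, SL_mul_apply]; rfl
  have e11 : h 1 1 = g 1 0 * Real.sin (φ / 2) + g 1 1 * Real.cos (φ / 2) := by
    rw [hh, SL_mul_apply]; rfl
  have hs2 : Real.sin φ = 2 * Real.sin (φ / 2) * Real.cos (φ / 2) := by
    rw [← Real.sin_two_mul]; congr 1; ring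
  have hc2 : Real.cos φ = Real.cos (φ / 2) ^ 2 - Real.sin (φ / 2) ^ 2 := by
    rw [← Real.cos_two_mul']; congr 1; ring
  have ho : h 0 0 * h 0 1 + h 1 0 * h 1 1 = 0 := by
    rw [e00, e01, e10, e11]
    rw [hs2, hc2] at hφ
    linear_combination hφ
  have hd : h 0 0 * h 1 1 - h 0 1 * h 1 0 = 1 := det_eq h
  -- normalise
  have hp : 0 < h 0 0 ^ 2 + h 1 0 ^ 2 := by
    by_contra hc
    have h1 : h 0 0 = 0 := by nlinarith [sq_nonneg (h 0 0), sq_nonneg (h 1 0)]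
    have h2 : h 1 0 = 0 := by nlinarith [sq_nonneg (h 0 0), sq_nonneg (h 1 0)]
    rw [h1, h2] at hd
    norm_num at hd
  set s := Real.sqrt (h 0 0 ^ 2 + h 1 0 ^ 2) with hs
  have s0 : 0 < s := Real.sqrt_pos.2 hp
  have s2 : s ^ 2 = h 0 0 ^ 2 + h 1 0 ^ 2 := Real.sq_sqrt hp.le
  obtain ⟨α, ha1, ha2⟩ := exists_cs (x := h 0 0 / s) (y := -h 1 0 / s) (by
    rw [div_pow, div_pow, s2]
    field_simp)
  have hes : Real.exp (Real.log s) = s := Real.exp_log s0
  have hes' : Real.exp (-Real.log s) = s⁻¹ := by rw [Real.exp_neg, hes]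
  have h01 : s ^ 2 * h 0 1 = -h 1 0 := by
    rw [s2]
    linear_combination h 0 0 * ho - h 1 0 * hd
  have h11 : s ^ 2 * h 1 1 = h 0 0 := by
    rw [s2]
    linear_combination h 1 0 * ho + h 0 0 * hd
  clear_value h s
  have hk : h = kk α * dd (Real.log s) := by
    apply SL_ext
    · rw [SL_mul_apply, kk00, kk01, dd00, dd10, hes, ha1, ha2]
      field_simp
      ring
    · rw [SL_mul_apply, kk00, kk01, dd01, dd11, hes', ha1, ha2]
      field_simp
      linear_combination h01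
    · rw [SL_mul_apply, kk10, kk11, dd00, dd10, hes, ha1, ha2]
      field_simp
      ring
    · rw [SL_mul_apply, kk10, kk11, dd01, dd11, hes', ha1, ha2]
      field_simp
      linear_combination h11
  have hg : g = kk α * dd (Real.log s) * kk (-(φ / 2)) := by
    rw [← hk, hh, mul_assoc, ← r24_kk_add, add_neg_cancel, r24_kk_zero, mul_one]
  rcases le_total 0 (Real.log s) with hl | hl
  · exact ⟨α, -(φ / 2), Real.log s, hl, hg⟩
  · have hdd : dd (Real.log s) = kk (Real.pi / 2) * dd (-Real.log s) * kk (-(Real.pi / 2)) := by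
      apply SL_ext
      · rw [SL_mul_apply, SL_mul_apply, SL_mul_apply, kk00, kk01, kk00, kk10, dd00, dd01, dd10,
          dd11, dd00, Real.cos_neg, Real.sin_neg, Real.cos_pi_div_two, Real.sin_pi_div_two, neg_neg]
        ring
      · rw [SL_mul_apply, SL_mul_apply, SL_mul_apply, kk00, kk01, kk01, kk11, dd00, dd01, dd10,
          dd11, dd01, Real.cos_neg, Real.sin_neg, Real.cos_pi_div_two, Real.sin_pi_div_two]
        ring
      · rw [SL_mul_apply, SL_mul_apply, SL_mul_apply, kk10, kk11, kk00, kk10, dd00, dd01, dd10,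
          dd11, dd10, Real.cos_neg, Real.sin_neg, Real.cos_pi_div_two, Real.sin_pi_div_two]
        ring
      · rw [SL_mul_apply, SL_mul_apply, SL_mul_apply, kk10, kk11, kk01, kk11, dd00, dd01, dd10,
          dd11, dd11, Real.cos_neg, Real.sin_neg, Real.cos_pi_div_two, Real.sin_pi_div_two]
        ring
    refine ⟨α + Real.pi / 2, -(Real.pi / 2) + -(φ / 2), -Real.log s, by linarith, ?_⟩
    rw [r24_kk_add, r24_kk_add]
    calc g = kk α * dd (Real.log s) * kk (-(φ / 2)) := hg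
      _ = _ := by rw [hdd]; group

theorem cartan_log {θ1 θ2 r : ℝ} (hr : 0 ≤ r) : r ≤ Real.log (nS (kk θ1 * dd r * kk θ2)) := by
  set g := kk θ1 * dd r * kk θ2 with hg
  have h1 : xx g = (Real.exp r ^ 2 + Real.exp (-r) ^ 2) / 2 := by
    rw [hg, r24_right, r24_left]
    unfold xx
    rw [dd00, dd01, dd10, dd11]
    ring
  have h2 := two_xx_le g
  rw [h1] at h2
  have h3 : Real.exp r ≤ nS g := by
    have e1 : Real.exp r ^ 2 ≤ nS g ^ 2 := by nlinarith [sq_nonneg (Real.exp (-r))]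
    exact (pow_le_pow_iff_left₀ (Real.exp_pos r).le (nS_pos g).le (by norm_num)).1 e1
  rw [Real.le_log_iff_exp_le (nS_pos g)]
  exact h3

end

end Pool.Agent.SZ.PR
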