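import Mathlib
import Pool.Agent.SZ.RDefs
import Pool.Agent.SZ.R01
import Pool.Agent.SZ.R02
import Pool.Agent.SZ.R03
import Pool.Agent.SZ.R06
import Pool.Agent.SZ.R07
import Pool.Agent.SZ.R17
import Pool.Agent.SZ.R18
import Pool.Agent.SZ.R20
import Pool.Agent.SZ.R21
import Pool.Agent.SZ.R22
import Pool.Agent.SZ.R23
import Pool.Agent.SZ.R24

/-!
# SZ part R, module R25: the theorem

`R0 := 1000`.  Let `m = mH.real (Bx 2)`, `C21` the constant of `smooth`, `C23` of `rotlow`.  Given `ε`, put `ε1 := ε m / (12 (1 + C21))`, apply `high ε1`,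
get `k0, δh`; `low k0 ε1` gives `δl`; `δ := min δh δl`, `R1 := 1000`.  Given `T2`: `C1h, C1l`.
Let `F, u, p`; `p = kk θ1 * dd r * kk θ2` (`cartan`), `u' = u * kk θ1` (`nS u' <= 20*4 <= 100`), `Φ = a.T u' F~ - F~`, `F~ = AA a b F`, `ψ = a.T (dd r) Φ`.
`F~(a.τ (u p) z) - F~(a.τ p z) = ψ(a.τ (kk θ2) z)` (`AA_kk` for the rotation `kk θ1` in the second term).
`Wt_le`: `int_{Wt} ψ(kk θ2 z)^2 <= (2/m) RI a W 4 ψ`.  `J, Φ''` from `smooth`.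
Let `K` be `k0 + m'`, so `e^(2r) 2^-K <= δ1`, where `δ1 <= 1` and `8192 δ1^2 <= ε1`.
`RI 4 ψ <= 2 RI 4 (M_K ψ) + 2 RI 4 (ψ - M_K ψ)` (`RI_add_le`), second: `RI_le`, `tail`: `<= ε1 N2 J`.
`mart` (`R = 4`, `m = K - k0`): `RI 4 (M_K ψ) <= RI 12 (M_k0 ψ) + (1/4) sum_{k0<=k<K} RI 36 f_k`; `low`, `rotlow`, `high`
(the hypothesis on `z in W` gives `Gd a b 1000 R' C c T δh 3 T2 z` and the hypothesis of `low`: `Den` is monotone in `δ` and antitone in `R`).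
-/

set_option autoImplicit false
set_option linter.unusedVariables false
set_option linter.unusedSectionVars false

namespace Pool.Agent.SZ.PR

open Pool.Agent.IRS MeasureTheory Set Filter Topology

private lemma Den_mono {δ δ' R R' T : ℝ} {H : Subgroup G2} (hδ : δ ≤ δ') (hR : R' ≤ R)
    (h : Den δ R T H) : Den δ' R' T H := by
  intro Y hY
  obtain ⟨h, hh, h1, h2⟩ := h Y (hY.trans hR)
  exact ⟨h, hh, h1.trans hδ, h2⟩

private lemma nS_kk_le (θ : ℝ) : nS (kk θ) ≤ 4 := by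
  have e : nS (kk θ) = |Real.cos θ| + |Real.sin θ| + |-Real.sin θ| + |Real.cos θ| := rfl
  rw [e, abs_neg]
  have h1 := Real.abs_cos_le_one θ
  have h2 := Real.abs_sin_le_one θ
  linarith

private lemma exists_scale {δ1 r : ℝ} (hδ : 0 < δ1) (hδ1 : δ1 ≤ 1) (hr : 0 ≤ r) (k0 : ℕ) :
    ∃ n : ℕ, Real.exp (2 * r) * 2⁻¹ ^ (k0 + n) ≤ δ1 ∧ (n : ℝ) ≤ 4 * r + 2 * (-Real.log δ1) + 1 := by
  have hL : 0 ≤ -Real.log δ1 := by
    have := Real.log_nonpos hδ.le hδ1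
    linarith
  set x : ℝ := 2 * r + -Real.log δ1 with hx
  have hx0 : 0 ≤ x := by rw [hx]; linarith
  refine ⟨⌈2 * x⌉₊, ?_, ?_⟩
  · have h1 : 2 * x ≤ (⌈2 * x⌉₊ : ℝ) := Nat.le_ceil _
    have hlog : (1 : ℝ) / 2 ≤ Real.log 2 := by
      have := Real.log_two_gt_d9
      linarith
    have h2 : x ≤ (⌈2 * x⌉₊ : ℝ) * Real.log 2 := by nlinarith
    have h3 : (2⁻¹ : ℝ) ^ ⌈2 * x⌉₊ ≤ Real.exp (-x) := by
      have e : (2⁻¹ : ℝ) ^ ⌈2 * x⌉₊ = Real.exp (-((⌈2 * x⌉₊ : ℝ) * Real.log 2)) := by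
        rw [Real.exp_neg, Real.exp_nat_mul, Real.exp_log (by norm_num), inv_pow]
      rw [e]
      exact Real.exp_le_exp.2 (by linarith)
    have h4 : (2⁻¹ : ℝ) ^ (k0 + ⌈2 * x⌉₊) ≤ Real.exp (-x) := by
      rw [pow_add]
      have h5 : (2⁻¹ : ℝ) ^ k0 ≤ 1 := pow_le_one₀ (by norm_num) (by norm_num)
      calc (2⁻¹ : ℝ) ^ k0 * 2⁻¹ ^ ⌈2 * x⌉₊ ≤ 1 * Real.exp (-x) :=
            mul_le_mul h5 h3 (by positivity) (by norm_num)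
        _ = Real.exp (-x) := one_mul _
    calc Real.exp (2 * r) * 2⁻¹ ^ (k0 + ⌈2 * x⌉₊) ≤ Real.exp (2 * r) * Real.exp (-x) :=
          mul_le_mul_of_nonneg_left h4 (Real.exp_pos _).le
      _ = Real.exp (Real.log δ1) := by
          rw [← Real.exp_add]; congr 1; rw [hx]; ring
      _ = δ1 := Real.exp_log hδ
  · have h1 : (⌈2 * x⌉₊ : ℝ) < 2 * x + 1 := Nat.ceil_lt_add_one (by linarith)
    rw [hx] at h1
    linarith

theorem starR_of (hleg : LegSt) : ∃ R0 : ℝ, ∀ ε : ℝ, 0 < ε → ∀ R' C c T : ℝ, 0 < c → ∃ δ : ℝ, 0 < δ ∧ ∃ R1 : ℝ,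
    ∀ T2 : ℝ, ∃ C1 : ℝ, ∀ (Z : Type) [MeasurableSpace Z] (ζ : Measure Z) [SigmaFinite ζ]
      (a b : PAct SL2R ζ) (hab : ∀ g h z, a.τ g (b.τ h z) = b.τ h (a.τ g z)) (W : Set Z),
      MeasurableSet W →
      (∀ z ∈ W, ∃ H : Subgroup G2, (∀ h ∈ H, a.τ h.1 (b.τ h.2 z) = z) ∧
        LocL R0 R' C c T H ∧ Den δ R1 T2 H) →
      ∀ (F : BL2 ζ) (u p : SL2R), nS u ≤ 20 →
        ∫ z in Wt a W, (((AA a b F : BL2 ζ) : Z → ℝ) (a.τ (u * p) z)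
            - ((AA a b F : BL2 ζ) : Z → ℝ) (a.τ p z)) ^ 2 ∂ζ
          ≤ C1 * (1 + Real.log (nS p)) * (frm ζ).B (DD a b F) (DD a b F)
            + ε * (frm ζ).B (DD a b F) F := by
  obtain ⟨C21, hC21, hsm⟩ := smooth
  obtain ⟨C23, hC23, hrl⟩ := rotlow hleg
  refine ⟨1000, fun ε hε R' C c T hc => ?_⟩
  have hm : 0 < mH.real (Bx 2) := Bx_pos
  set m : ℝ := mH.real (Bx 2) with hmdef
  obtain ⟨ε1, hε1d⟩ : ∃ ε1 : ℝ, ε1 = ε * m / (12 * (1 + C21)) := ⟨_, rfl⟩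
  have hε1 : 0 < ε1 := by rw [hε1d]; positivity
  have hε1' : 2 / m * (C21 * (6 * ε1)) ≤ ε := by
    have e : 2 / m * (C21 * (6 * ε1)) = ε * (C21 / (1 + C21)) := by
      rw [hε1d]; field_simp; ring
    rw [e]
    have h1 : C21 / (1 + C21) ≤ 1 := by
      rw [div_le_one (by linarith)]; linarith
    nlinarith
  obtain ⟨k0, δh, hδh, hhigh⟩ := high ε1 hε1 R' C c T hc
  obtain ⟨δl, hδl, hlow⟩ := low k0 ε1 hε1
  refine ⟨min δh δl, lt_min hδh hδl, 1000, fun T2 => ?_⟩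
  obtain ⟨C1h, hC1h, hhigh⟩ := hhigh T2
  obtain ⟨C1l, hC1l, hlow⟩ := hlow T2
  obtain ⟨δ1, hδ1d⟩ : ∃ δ1 : ℝ, δ1 = min 1 (ε1 / 8192) := ⟨_, rfl⟩
  have hδ1 : 0 < δ1 := by rw [hδ1d]; exact lt_min one_pos (by positivity)
  have hδ1a : δ1 ≤ 1 := by rw [hδ1d]; exact min_le_left _ _
  have hδ1b : 8192 * δ1 ^ 2 ≤ ε1 := by
    have h1 : δ1 ≤ ε1 / 8192 := by rw [hδ1d]; exact min_le_right _ _
    nlinarith
  have hL : 0 ≤ -Real.log δ1 := by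
    have := Real.log_nonpos hδ1.le hδ1a
    linarith
  set L : ℝ := -Real.log δ1 with hLdef
  refine ⟨2 / m * (2 * (10 ^ 6 * C23 + (C1l + C1h * (k0 + 2 * L + 4)) * C21)),
    fun Z _ ζ _ a b hab W hW hgood F u p hu => ?_⟩
  obtain ⟨θ1, θ2, r, hr, rfl⟩ := cartan p
  have hlog := cartan_log (θ1 := θ1) (θ2 := θ2) hr
  set ℓ : ℝ := Real.log (nS (kk θ1 * dd r * kk θ2)) with hℓ
  have hu' : nS (u * kk θ1) ≤ 100 := by
    refine (nS_mul_le _ _).trans ?_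
    have h1 := nS_kk_le θ1
    have h2 := nS_pos (kk θ1)
    have h3 := nS_pos u
    nlinarith
  obtain ⟨J, Φ'', hΦ'', hSm, hNΦ, hNJ, hEb⟩ := hsm Z ζ a b hab F (u * kk θ1) hu'
  have hrot := hrl Z ζ a b hab F u θ1 r k0 hu
  set Φ : BL2 ζ := a.T (u * kk θ1) (AA a b F) - AA a b F with hΦ
  set ψ : BL2 ζ := a.T (dd r) Φ with hψ
  set DDn : ℝ := (frm ζ).B (DD a b F) (DD a b F) with hDDn
  set DFn : ℝ := (frm ζ).B (DD a b F) F with hDFn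
  have hDD0 : 0 ≤ DDn := N2_nonneg (DD a b F)
  have hDF0 : 0 ≤ DFn := DD_nonneg a b hab F
  -- the integrand
  have hpt : ∀ z : Z, ((AA a b F : BL2 ζ) : Z → ℝ) (a.τ (u * (kk θ1 * dd r * kk θ2)) z)
      - ((AA a b F : BL2 ζ) : Z → ℝ) (a.τ (kk θ1 * dd r * kk θ2) z)
      = (ψ : Z → ℝ) (a.τ (kk θ2) z) := by
    intro z
    have e1 : a.τ (u * (kk θ1 * dd r * kk θ2)) z
        = a.τ (u * kk θ1) (a.τ (dd r) (a.τ (kk θ2) z)) := by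
      rw [← a.mul, ← a.mul]; congr 1; simp only [mul_assoc]
    have e2 : a.τ (kk θ1 * dd r * kk θ2) z = a.τ (kk θ1) (a.τ (dd r) (a.τ (kk θ2) z)) := by
      rw [← a.mul, ← a.mul]
    have e3 := congrArg (fun f : BL2 ζ => (f : Z → ℝ) (a.τ (dd r) (a.τ (kk θ2) z)))
      (AA_kk a b F θ1)
    simp only [PAct.T_apply] at e3
    rw [e1, e2, e3]
    rfl
  have h1 : ∫ z in Wt a W, (((AA a b F : BL2 ζ) : Z → ℝ) (a.τ (u * (kk θ1 * dd r * kk θ2)) z)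
      - ((AA a b F : BL2 ζ) : Z → ℝ) (a.τ (kk θ1 * dd r * kk θ2) z)) ^ 2 ∂ζ
      ≤ 2 / m * RI a W 4 ψ := by
    simp_rw [hpt]
    exact Wt_le a hW ψ θ2
  refine h1.trans ?_
  -- the scales
  obtain ⟨n, hn1, hn2⟩ := exists_scale hδ1 hδ1a hr k0
  have h2 : RI a W 4 ψ ≤ 2 * RI a W 4 (MM a (k0 + n) ψ) + 2 * RI a W 4 (ψ - MM a (k0 + n) ψ) := by
    have h := RI_add_le a hW 4 (MM a (k0 + n) ψ) (ψ - MM a (k0 + n) ψ)
    rwa [add_sub_cancel] at h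
  have h3 : RI a W 4 (ψ - MM a (k0 + n) ψ) ≤ 4096 * δ1 ^ 2 * N2 J := by
    have h4 := RI_le a hW (by norm_num : (0 : ℝ) ≤ 4) (ψ - MM a (k0 + n) ψ)
    have h5 : N2 (ψ - MM a (k0 + n) ψ) = N2 (MM a (k0 + n) ψ - ψ) := by
      rw [← neg_sub (MM a (k0 + n) ψ) ψ, ← neg_one_smul ℝ (MM a (k0 + n) ψ - ψ), N2_smul]
      norm_num
    have h6 := tail hSm (r := r) (K := k0 + n) (hn1.trans hδ1a)
    have h7 : (Real.exp (2 * r) * 2⁻¹ ^ (k0 + n)) ^ 2 ≤ δ1 ^ 2 :=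
      pow_le_pow_left₀ (by positivity) hn1 2
    have h8 : N2 (MM a (k0 + n) ψ - ψ) ≤ δ1 ^ 2 * N2 J :=
      h6.trans (mul_le_mul_of_nonneg_right h7 (N2_nonneg J))
    rw [h5] at h4
    refine h4.trans ?_
    nlinarith
  have h4 := mart a ψ hW (by norm_num : (0 : ℝ) ≤ 4) k0 n
  have e12 : (3 : ℝ) * 4 = 12 := by norm_num
  have e36 : (9 : ℝ) * 4 = 36 := by norm_num
  rw [e12, e36] at h4
  have h5 := hhigh Z ζ a b hab W hW (fun z hz => by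
    obtain ⟨H, hH1, hH2, hH3⟩ := hgood z hz
    exact ⟨H, hH1, hH2, Den_mono (min_le_left _ _) (by norm_num) hH3⟩) Φ J Φ'' hΦ'' hSm r hr (k0 + n)
  rw [Finset.sum_Ico_eq_sum_range, Nat.add_sub_cancel_left] at h5
  have h6 := hlow Z ζ a b hab W hW (fun z hz => by
    obtain ⟨H, hH1, hH2, hH3⟩ := hgood z hz
    exact ⟨H, hH1, Den_mono (min_le_right _ _) le_rfl hH3⟩) Φ J Φ'' hΦ'' hSm r hr
  have hNJ0 := N2_nonneg J
  have hNΦ0 := N2_nonneg Φ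
  -- assembly
  have hK : (1 : ℝ) + ((k0 + n : ℕ) : ℝ) ≤ (k0 + 2 * L + 4) * (1 + ℓ) := by
    push_cast
    have h7 : (n : ℝ) ≤ 4 * ℓ + 2 * L + 1 := by linarith
    have hl0 : 0 ≤ ℓ := hr.trans hlog
    have hk0 : (0 : ℝ) ≤ k0 := Nat.cast_nonneg _
    nlinarith [mul_nonneg hk0 hl0, mul_nonneg hL hl0]
  have hl1 : 1 ≤ 1 + ℓ := by linarith
  -- energies
  have hEb' : Eb b Φ'' ≤ C21 * DDn := hEb
  have hS : N2 Φ + N2 J ≤ 2 * (C21 * DFn) := by linarith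
  have hk1 : C1h * (1 + ((k0 + n : ℕ) : ℝ)) * Eb b Φ''
      ≤ C1h * ((k0 + 2 * L + 4) * (1 + ℓ)) * (C21 * DDn) := by
    have hp : 0 ≤ C1h * (1 + ((k0 + n : ℕ) : ℝ)) := by positivity
    calc C1h * (1 + ((k0 + n : ℕ) : ℝ)) * Eb b Φ''
        ≤ C1h * (1 + ((k0 + n : ℕ) : ℝ)) * (C21 * DDn) := mul_le_mul_of_nonneg_left hEb' hp
      _ ≤ C1h * ((k0 + 2 * L + 4) * (1 + ℓ)) * (C21 * DDn) :=
          mul_le_mul_of_nonneg_right (mul_le_mul_of_nonneg_left hK hC1h)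
            (mul_nonneg hC21 hDD0)
  have hk2 : C1l * Eb b Φ'' ≤ C1l * (C21 * DDn) := mul_le_mul_of_nonneg_left hEb' hC1l
  have hk3 : ε1 * (N2 Φ + N2 J) ≤ ε1 * (2 * (C21 * DFn)) := mul_le_mul_of_nonneg_left hS hε1.le
  have hk4 : 4096 * δ1 ^ 2 * N2 J ≤ ε1 / 2 * (C21 * DFn) := by
    have h9 : 4096 * δ1 ^ 2 ≤ ε1 / 2 := by linarith
    calc 4096 * δ1 ^ 2 * N2 J ≤ ε1 / 2 * N2 J := mul_le_mul_of_nonneg_right h9 hNJ0
      _ ≤ ε1 / 2 * (C21 * DFn) := mul_le_mul_of_nonneg_left hNJ (by positivity)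
  have hq : RI a W 4 ψ ≤ 2 * (10 ^ 6 * (C23 * DDn) + C1l * (C21 * DDn)
      + C1h * ((k0 + 2 * L + 4) * (1 + ℓ)) * (C21 * DDn)) + 6 * ε1 * (C21 * DFn) := by
    have hsumnn : 0 ≤ C1h * ((k0 + 2 * L + 4) * (1 + ℓ)) * (C21 * DDn) := by
      have hk0 : (0 : ℝ) ≤ k0 := Nat.cast_nonneg _
      have hl0 : 0 ≤ ℓ := hr.trans hlog
      have h10 : 0 ≤ (k0 + 2 * L + 4) * (1 + ℓ) := mul_nonneg (by linarith) (by linarith)
      exact mul_nonneg (mul_nonneg hC1h h10) (mul_nonneg hC21 hDD0)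
    have hnn2 : 0 ≤ ε1 * (C21 * DFn) := mul_nonneg hε1.le (mul_nonneg hC21 hDF0)
    have hrot' : N2 (a.A rot (MM a k0 ψ)) ≤ C23 * DDn := hrot
    linarith
  have hfin : 2 * (10 ^ 6 * (C23 * DDn) + C1l * (C21 * DDn)
      + C1h * ((k0 + 2 * L + 4) * (1 + ℓ)) * (C21 * DDn))
      ≤ 2 * (10 ^ 6 * C23 + (C1l + C1h * (k0 + 2 * L + 4)) * C21) * (1 + ℓ) * DDn := by
    have g1 : 0 ≤ C23 * DDn := mul_nonneg hC23 hDD0
    have g2 : 0 ≤ C1l * (C21 * DDn) := mul_nonneg hC1l (mul_nonneg hC21 hDD0)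
    have hl0 : 0 ≤ ℓ := hr.trans hlog
    nlinarith [mul_nonneg g1 hl0, mul_nonneg g2 hl0]
  have hm2 : 0 ≤ 2 / m := by positivity
  calc 2 / m * RI a W 4 ψ
      ≤ 2 / m * (2 * (10 ^ 6 * C23 + (C1l + C1h * (k0 + 2 * L + 4)) * C21) * (1 + ℓ) * DDn
          + 6 * ε1 * (C21 * DFn)) := mul_le_mul_of_nonneg_left (hq.trans (by linarith)) hm2
    _ = 2 / m * (2 * (10 ^ 6 * C23 + (C1l + C1h * (k0 + 2 * L + 4)) * C21)) * (1 + ℓ) * DDn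
          + 2 / m * (C21 * (6 * ε1)) * DFn := by ring
    _ ≤ 2 / m * (2 * (10 ^ 6 * C23 + (C1l + C1h * (k0 + 2 * L + 4)) * C21)) * (1 + ℓ) * DDn
          + ε * DFn := by
        have := mul_le_mul_of_nonneg_right hε1' hDF0
        linarith

end Pool.Agent.SZ.PR
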