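import Mathlib
import Pool.Agent.SZ.Nuk

/-!
# SZ, part S: definitions

Part S works with ONE measure preserving action `c` of a group `G` on `(Z, zeta)`, an action `c'` on a
probability space `(X, mu)`, an equivariant measurable map `pi : Z -> X`, and a symmetric probability
measure `m` on `G` (`nui m = m`).  Markov operators: `c.A m` on `BL2 zeta`, `c'.A m` on `BL2 mu`.
-/

set_option autoImplicit false
set_option linter.unusedSectionVars false

namespace Pool.Agent.SZ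

open Pool.Agent.IRS MeasureTheory Set Filter Topology

section mul

variable {X Z : Type*} [MeasurableSpace X] [MeasurableSpace Z] {μ : Measure X} {ζ : Measure Z}

/-- Multiplication by a function of the base point. -/
noncomputable def mulX (π : Z → X) (hπ : Measurable π) (w : BL2 μ) : Module.End ℝ (BL2 ζ) where
  toFun f := ⟨fun z => (w : X → ℝ) (π z) * (f : Z → ℝ) z, ((bmeas w).comp hπ).mul (bmeas f), by
    obtain ⟨M, hM⟩ := bbdd w
    obtain ⟨N, hN⟩ := bbdd f
    refine ⟨M * N, fun z => ?_⟩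
    rw [abs_mul]
    exact mul_le_mul (hM _) (hN z) (abs_nonneg _) ((abs_nonneg _).trans (hM (π z))), by
    obtain ⟨M, hM⟩ := bbdd w
    refine ((bsq f).const_mul (M ^ 2)).mono'
      ((((bmeas w).comp hπ).mul (bmeas f)).pow_const 2).aestronglyMeasurable ?_
    filter_upwards with z
    rw [Real.norm_eq_abs, abs_pow, abs_mul, mul_pow, sq_abs ((f : Z → ℝ) z)]
    exact mul_le_mul_of_nonneg_right (pow_le_pow_left₀ (abs_nonneg _) (hM _) 2) (sq_nonneg _)⟩
  map_add' f g := by apply Subtype.ext; funext z; simp [mul_add]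
  map_smul' r f := by apply Subtype.ext; funext z; simp; ring

@[simp] lemma mulX_apply (π : Z → X) (hπ : Measurable π) (w : BL2 μ) (f : BL2 ζ) (z : Z) :
    ((mulX π hπ w f : BL2 ζ) : Z → ℝ) z = (w : X → ℝ) (π z) * (f : Z → ℝ) z := rfl

/-- The indicator function of a measurable set. -/
noncomputable def indB (μ : Measure X) [IsFiniteMeasure μ] (S : Set X) (hS : MeasurableSet S) :
    BL2 μ :=
  ⟨S.indicator (fun _ => (1 : ℝ)), measurable_const.indicator hS, ⟨1, fun x => by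
    by_cases h : x ∈ S <;> simp [h]⟩, by
    refine integrable_of_bdd μ ((measurable_const.indicator hS).pow_const 2) (M := 1) fun x => ?_
    by_cases h : x ∈ S <;> simp [h]⟩

lemma indB_apply (μ : Measure X) [IsFiniteMeasure μ] (S : Set X) (hS : MeasurableSet S) (x : X) :
    ((indB μ S hS : BL2 μ) : X → ℝ) x = S.indicator (fun _ => (1 : ℝ)) x := rfl

/-- Constants. -/
noncomputable def cstB (μ : Measure X) [IsFiniteMeasure μ] (t : ℝ) : BL2 μ :=
  ⟨fun _ => t, measurable_const, ⟨|t|, fun _ => le_rfl⟩,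
    integrable_of_bdd μ measurable_const (M := |t ^ 2|) fun _ => le_rfl⟩

@[simp] lemma cstB_apply (μ : Measure X) [IsFiniteMeasure μ] (t : ℝ) (x : X) :
    ((cstB μ t : BL2 μ) : X → ℝ) x = t := rfl

end mul

section gm

variable {Γ : Type*} [Group Γ] [MeasurableSpace Γ] {Z : Type*} [MeasurableSpace Z]
  {ζ : Measure Z} [SigmaFinite ζ]

/-- The energy density of the Markov operator `c.A m`. -/
noncomputable def gmC (c : PAct Γ ζ) (m : Measure Γ) [IsProbabilityMeasure m] (F : BL2 ζ) : BL2 ζ :=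
  (2 : ℝ)⁻¹ • (c.A m (mulB F F) - (2 : ℝ) • mulB F (c.A m F) + mulB F F)

lemma gmC_apply (c : PAct Γ ζ) (m : Measure Γ) [IsProbabilityMeasure m] (F : BL2 ζ) (z : Z) :
    ((gmC c m F : BL2 ζ) : Z → ℝ) z = 2⁻¹ * (((c.A m (mulB F F) : BL2 ζ) : Z → ℝ) z
      - 2 * ((F : Z → ℝ) z * ((c.A m F : BL2 ζ) : Z → ℝ) z) + (F : Z → ℝ) z * (F : Z → ℝ) z) := rfl

end gm

section hit

variable {Γ : Type*} [Group Γ] [MeasurableSpace Γ] {X : Type*} [MeasurableSpace X]
  {μ : Measure X} [IsProbabilityMeasure μ]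

/-- The discounted hitting function `u` of `Y`: `u = 1` on `Y`, `(1+alpha) u = A' u` off `Y`. -/
structure IsHit (c' : PAct Γ μ) (m : Measure Γ) [IsProbabilityMeasure m] (Y : Set X) (α : ℝ)
    (u : BL2 μ) : Prop where
  nn : ∀ x, 0 ≤ (u : X → ℝ) x
  le : ∀ x, (u : X → ℝ) x ≤ 1
  on : ∀ x ∈ Y, (u : X → ℝ) x = 1
  off : ∀ x, x ∉ Y → (1 + α) * (u : X → ℝ) x = ((c'.A m u : BL2 μ) : X → ℝ) x

/-- The partial sums of the Green function of a set `S`. -/
noncomputable def grn (c' : PAct Γ μ) (m : Measure Γ) [IsProbabilityMeasure m] (S : Set X)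
    (hS : MeasurableSet S) (α : ℝ) (J : ℕ) (x : X) : ℝ :=
  ∑ j ∈ Finset.range J, α * ((1 + α)⁻¹) ^ (j + 1)
    * ((((c'.A m) ^ j) (indB μ S hS) : BL2 μ) : X → ℝ) x

end hit

section abs

variable {V : Type*} [AddCommGroup V] [Module ℝ V]

/-- A symmetric projection `Pi`, a positive operator `D` and the inverse `Bi` of `Pi + D + kappa`. -/
structure SCR (F : PSForm V) (D Pi Bi : Module.End ℝ V) (κ : ℝ) : Prop where
  hκ : 0 < κ
  hD : F.Pos D
  hPi : F.Pos Pi
  hid : ∀ g, Pi (Pi g) = Pi g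
  inv1 : ∀ g, Pi (Bi g) + D (Bi g) + κ • Bi g = g
  inv2 : ∀ g, Bi (Pi g + D g + κ • g) = g

/-- `K = Pi B^-1 Pi`. -/
def scK (Pi Bi : Module.End ℝ V) : Module.End ℝ V := Pi * Bi * Pi

/-- `F_n = B^-1 Pi K^(n-1) f` (used for `n >= 1`). -/
def scF (Pi Bi : Module.End ℝ V) (f : V) (n : ℕ) : V := Bi (Pi ((scK Pi Bi ^ (n - 1)) f))

/-- `d_n = (D + kappa) F_n`. -/
def scd (D Pi Bi : Module.End ℝ V) (κ : ℝ) (f : V) (n : ℕ) : V :=
  D (scF Pi Bi f n) + κ • scF Pi Bi f n

/-- `e(n) = <(D + kappa) F_n, F_n>`. -/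
def sce (F : PSForm V) (D Pi Bi : Module.End ℝ V) (κ : ℝ) (f : V) (n : ℕ) : ℝ :=
  F.B (scd D Pi Bi κ f n) (scF Pi Bi f n)

/-- `N(n) = |K^n Pi f|^2`. -/
def scN (F : PSForm V) (Pi Bi : Module.End ℝ V) (f : V) (n : ℕ) : ℝ :=
  F.B ((scK Pi Bi ^ n) (Pi f)) ((scK Pi Bi ^ n) (Pi f))

end abs

end Pool.Agent.SZ
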