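import Mathlib
import Pool.Agent.SZ.SDefs

/-!
# SZ S01: Neumann series on BL2 (30 min)

PROOF.  Put `s n f := sum_{i<n} L^i f` (a member of `BL2`).  By induction `|L^i f z| <= q^i M` if `|f| <= M`, and
`nrm (L^i f) <= q^i nrm f`.  For every `z` the series `sum_i (L^i f) z` converges (comparison with `M q^i`); let
`N f z := tsum_i (L^i f) z`.  It is measurable (limit of measurable functions: `measurable_of_tendsto_metrizable`),
bounded by `M/(1-q)`, and its square is integrable: `int (s n f)^2 <= (nrm f/(1-q))^2`, Fatou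
(`lintegral_liminf_le`, or `MeasureTheory.Integrable` via `integrable_of_tendsto` / `lintegral` of `ENNReal.ofReal`).
Linearity: `tsum_add`, `tsum_mul_left`.
`N f = f + N (L f)`: shift of the series (`L^(i+1) f = L^i (L f)`) (`Summable.sum_add_tsum_nat_add` or
`tsum_eq_zero_add`).  `N f = f + L (N f)`: `|N f - s n f| <= M q^n/(1-q)` pointwise, so by `hinf` applied to
`N f - s n f`: `|L (N f) - L (s n f)| <= q M q^n/(1-q) -> 0`, and `f + L (s n f) = s (n+1) f`.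
-/

set_option autoImplicit false
set_option linter.unusedSectionVars false
set_option linter.unusedVariables false

namespace Pool.Agent.SZ

open Pool.Agent.IRS MeasureTheory Set Filter Topology

variable {Γ : Type*} [Group Γ] [MeasurableSpace Γ] {Z : Type*} [MeasurableSpace Z]
  {ζ : Measure Z} [SigmaFinite ζ]

lemma neumann_coe_sum {ι : Type*} (s : Finset ι) (g : ι → BL2 ζ) (z : Z) :
    ((∑ i ∈ s, g i : BL2 ζ) : Z → ℝ) z = ∑ i ∈ s, ((g i : BL2 ζ) : Z → ℝ) z := by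
  classical
  induction s using Finset.induction_on with
  | empty => simp
  | insert a s ha ih => rw [Finset.sum_insert ha, Finset.sum_insert ha, ← ih]; rfl

lemma neumann_pw (L : Module.End ℝ (BL2 ζ)) {q : ℝ}
    (hinf : ∀ (f : BL2 ζ) (M : ℝ), (∀ z, |(f : Z → ℝ) z| ≤ M) →
      ∀ z, |((L f : BL2 ζ) : Z → ℝ) z| ≤ q * M)
    (f : BL2 ζ) (M : ℝ) (hM : ∀ z, |(f : Z → ℝ) z| ≤ M) (i : ℕ) :
    ∀ z, |(((L ^ i) f : BL2 ζ) : Z → ℝ) z| ≤ q ^ i * M := by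
  induction i with
  | zero => simpa using hM
  | succ i ih =>
    intro z
    rw [pow_succ', pow_succ', mul_assoc]
    exact hinf _ _ ih z

lemma neumann_nrm (L : Module.End ℝ (BL2 ζ)) {q : ℝ} (hq0 : 0 ≤ q)
    (h2 : ∀ f : BL2 ζ, (frm ζ).nrm (L f) ≤ q * (frm ζ).nrm f) (f : BL2 ζ) (i : ℕ) :
    (frm ζ).nrm ((L ^ i) f) ≤ q ^ i * (frm ζ).nrm f := by
  induction i with
  | zero => simp
  | succ i ih =>
    rw [pow_succ', pow_succ', mul_assoc]
    exact (h2 _).trans (mul_le_mul_of_nonneg_left ih hq0)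

lemma neumann_nrm_sum (L : Module.End ℝ (BL2 ζ)) {q : ℝ} (hq0 : 0 ≤ q) (hq : q < 1)
    (h2 : ∀ f : BL2 ζ, (frm ζ).nrm (L f) ≤ q * (frm ζ).nrm f) (f : BL2 ζ) (n : ℕ) :
    (frm ζ).nrm (∑ i ∈ Finset.range n, (L ^ i) f) ≤ (1 - q)⁻¹ * (frm ζ).nrm f := by
  have h : (frm ζ).nrm (∑ i ∈ Finset.range n, (L ^ i) f)
      ≤ ∑ i ∈ Finset.range n, q ^ i * (frm ζ).nrm f := by
    induction n with
    | zero => simp [PSForm.nrm]
    | succ n ih =>
      rw [Finset.sum_range_succ, Finset.sum_range_succ]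
      exact ((frm ζ).nrm_add_le _ _).trans (add_le_add ih (neumann_nrm L hq0 h2 f n))
  refine h.trans ?_
  rw [← Finset.sum_mul]
  refine mul_le_mul_of_nonneg_right ?_ ((frm ζ).nrm_nonneg f)
  rw [← tsum_geometric_of_lt_one hq0 hq]
  exact (summable_geometric_of_lt_one hq0 hq).sum_le_tsum _ (fun i _ => pow_nonneg hq0 i)

lemma neumann_summable (L : Module.End ℝ (BL2 ζ)) {q : ℝ} (hq0 : 0 ≤ q) (hq : q < 1)
    (hinf : ∀ (f : BL2 ζ) (M : ℝ), (∀ z, |(f : Z → ℝ) z| ≤ M) →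
      ∀ z, |((L f : BL2 ζ) : Z → ℝ) z| ≤ q * M) (f : BL2 ζ) (z : Z) :
    Summable (fun i => (((L ^ i) f : BL2 ζ) : Z → ℝ) z) := by
  obtain ⟨M, hM⟩ := bbdd f
  refine Summable.of_norm_bounded ((summable_geometric_of_lt_one hq0 hq).mul_right M) fun i => ?_
  rw [Real.norm_eq_abs]
  exact neumann_pw L hinf f M hM i z

lemma neumann_bdd (L : Module.End ℝ (BL2 ζ)) {q : ℝ} (hq0 : 0 ≤ q) (hq : q < 1)
    (hinf : ∀ (f : BL2 ζ) (M : ℝ), (∀ z, |(f : Z → ℝ) z| ≤ M) →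
      ∀ z, |((L f : BL2 ζ) : Z → ℝ) z| ≤ q * M) (f : BL2 ζ) (M : ℝ)
    (hM : ∀ z, |(f : Z → ℝ) z| ≤ M) (z : Z) :
    |∑' i, (((L ^ i) f : BL2 ζ) : Z → ℝ) z| ≤ (1 - q)⁻¹ * M := by
  have h1 : HasSum (fun i : ℕ => q ^ i * M) ((1 - q)⁻¹ * M) :=
    (hasSum_geometric_of_lt_one hq0 hq).mul_right M
  have h2 := tsum_of_norm_bounded (f := fun i => (((L ^ i) f : BL2 ζ) : Z → ℝ) z) h1
    (fun i => by rw [Real.norm_eq_abs]; exact neumann_pw L hinf f M hM i z)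
  simpa [Real.norm_eq_abs] using h2

lemma neumann_tend (L : Module.End ℝ (BL2 ζ)) {q : ℝ} (hq0 : 0 ≤ q) (hq : q < 1)
    (hinf : ∀ (f : BL2 ζ) (M : ℝ), (∀ z, |(f : Z → ℝ) z| ≤ M) →
      ∀ z, |((L f : BL2 ζ) : Z → ℝ) z| ≤ q * M) (f : BL2 ζ) (z : Z) :
    Tendsto (fun n => ∑ i ∈ Finset.range n, (((L ^ i) f : BL2 ζ) : Z → ℝ) z) atTop
        (𝓝 (∑' i, (((L ^ i) f : BL2 ζ) : Z → ℝ) z)) :=
  (neumann_summable L hq0 hq hinf f z).hasSum.tendsto_sum_nat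

lemma neumann_meas (L : Module.End ℝ (BL2 ζ)) {q : ℝ} (hq0 : 0 ≤ q) (hq : q < 1)
    (hinf : ∀ (f : BL2 ζ) (M : ℝ), (∀ z, |(f : Z → ℝ) z| ≤ M) →
      ∀ z, |((L f : BL2 ζ) : Z → ℝ) z| ≤ q * M) (f : BL2 ζ) :
    Measurable (fun z => ∑' i, (((L ^ i) f : BL2 ζ) : Z → ℝ) z) := by
  refine measurable_of_tendsto_metrizable
    (f := fun n z => ∑ i ∈ Finset.range n, (((L ^ i) f : BL2 ζ) : Z → ℝ) z) (fun n => ?_) ?_
  · exact Finset.measurable_sum _ fun i _ => bmeas _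
  · rw [tendsto_pi_nhds]
    intro z
    exact neumann_tend L hq0 hq hinf f z

lemma neumann_sq (L : Module.End ℝ (BL2 ζ)) {q : ℝ} (hq0 : 0 ≤ q) (hq : q < 1)
    (hinf : ∀ (f : BL2 ζ) (M : ℝ), (∀ z, |(f : Z → ℝ) z| ≤ M) →
      ∀ z, |((L f : BL2 ζ) : Z → ℝ) z| ≤ q * M)
    (h2 : ∀ f : BL2 ζ, (frm ζ).nrm (L f) ≤ q * (frm ζ).nrm f) (f : BL2 ζ) :
    Integrable (fun z => (∑' i, (((L ^ i) f : BL2 ζ) : Z → ℝ) z) ^ 2) ζ := by
  have hm := neumann_meas L hq0 hq hinf f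
  refine ⟨(hm.pow_const 2).aestronglyMeasurable, ?_⟩
  rw [hasFiniteIntegral_iff_norm]
  set C : ℝ := ((1 - q)⁻¹ * (frm ζ).nrm f) ^ 2 with hC
  set s : ℕ → BL2 ζ := fun n => ∑ i ∈ Finset.range n, (L ^ i) f with hs
  have hbound : ∀ n, ∫⁻ z, ENNReal.ofReal ((s n : Z → ℝ) z ^ 2) ∂ζ ≤ ENNReal.ofReal C := by
    intro n
    rw [← ofReal_integral_eq_lintegral_ofReal (bsq (s n)) (by filter_upwards with z; positivity),
      ← nrm_sq_eq]
    refine ENNReal.ofReal_le_ofReal ?_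
    exact pow_le_pow_left₀ ((frm ζ).nrm_nonneg _) (neumann_nrm_sum L hq0 hq h2 f n) 2
  have hfat := lintegral_liminf_le (μ := ζ)
    (f := fun n z => ENNReal.ofReal ((s n : Z → ℝ) z ^ 2)) (u := atTop)
    (fun n => ((bmeas (s n)).pow_const 2).ennreal_ofReal)
  have hlim : ∀ z, liminf (fun n => ENNReal.ofReal ((s n : Z → ℝ) z ^ 2)) atTop
      = ENNReal.ofReal (‖(∑' i, (((L ^ i) f : BL2 ζ) : Z → ℝ) z) ^ 2‖) := by
    intro z
    have h3 : Tendsto (fun n => ENNReal.ofReal ((s n : Z → ℝ) z ^ 2)) atTop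
        (𝓝 (ENNReal.ofReal ((∑' i, (((L ^ i) f : BL2 ζ) : Z → ℝ) z) ^ 2))) := by
      refine ENNReal.tendsto_ofReal ?_
      refine Tendsto.pow ?_ 2
      refine (neumann_tend L hq0 hq hinf f z).congr fun n => ?_
      rw [hs, neumann_coe_sum]
    rw [h3.liminf_eq, Real.norm_eq_abs, abs_pow, sq_abs]
  simp_rw [hlim] at hfat
  refine lt_of_le_of_lt (hfat.trans ?_) (ENNReal.ofReal_lt_top (r := C))
  refine Filter.liminf_le_of_frequently_le' ?_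
  exact Frequently.of_forall hbound

/-- The sum of the Neumann series. -/
noncomputable def neumannN (L : Module.End ℝ (BL2 ζ)) {q : ℝ} (hq0 : 0 ≤ q) (hq : q < 1)
    (hinf : ∀ (f : BL2 ζ) (M : ℝ), (∀ z, |(f : Z → ℝ) z| ≤ M) →
      ∀ z, |((L f : BL2 ζ) : Z → ℝ) z| ≤ q * M)
    (h2 : ∀ f : BL2 ζ, (frm ζ).nrm (L f) ≤ q * (frm ζ).nrm f) : Module.End ℝ (BL2 ζ) where
  toFun f := ⟨fun z => ∑' i, (((L ^ i) f : BL2 ζ) : Z → ℝ) z, neumann_meas L hq0 hq hinf f, by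
    obtain ⟨M, hM⟩ := bbdd f
    exact ⟨_, neumann_bdd L hq0 hq hinf f M hM⟩, neumann_sq L hq0 hq hinf h2 f⟩
  map_add' f g := by
    apply Subtype.ext; funext z
    have := (neumann_summable L hq0 hq hinf f z).tsum_add (neumann_summable L hq0 hq hinf g z)
    change ∑' i, (((L ^ i) (f + g) : BL2 ζ) : Z → ℝ) z
      = ∑' i, (((L ^ i) f : BL2 ζ) : Z → ℝ) z + ∑' i, (((L ^ i) g : BL2 ζ) : Z → ℝ) z
    rw [← this]
    refine tsum_congr fun i => ?_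
    rw [map_add]; rfl
  map_smul' r f := by
    apply Subtype.ext; funext z
    change ∑' i, (((L ^ i) (r • f) : BL2 ζ) : Z → ℝ) z
      = r * ∑' i, (((L ^ i) f : BL2 ζ) : Z → ℝ) z
    rw [← tsum_mul_left]
    refine tsum_congr fun i => ?_
    rw [map_smul]; rfl

theorem neumann (L : Module.End ℝ (BL2 ζ)) {q : ℝ} (hq0 : 0 ≤ q) (hq : q < 1)
    (hinf : ∀ (f : BL2 ζ) (M : ℝ), (∀ z, |(f : Z → ℝ) z| ≤ M) →
      ∀ z, |((L f : BL2 ζ) : Z → ℝ) z| ≤ q * M)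
    (h2 : ∀ f : BL2 ζ, (frm ζ).nrm (L f) ≤ q * (frm ζ).nrm f) :
    ∃ N : Module.End ℝ (BL2 ζ), (∀ f, N f = f + L (N f)) ∧ (∀ f, N f = f + N (L f)) ∧
      ∀ f z, Tendsto (fun n => ∑ i ∈ Finset.range n, (((L ^ i) f : BL2 ζ) : Z → ℝ) z) atTop
        (𝓝 (((N f : BL2 ζ) : Z → ℝ) z)) := by
  have hNL : ∀ f z, ((neumannN L hq0 hq hinf h2 f : BL2 ζ) : Z → ℝ) z
      = (f : Z → ℝ) z + ((neumannN L hq0 hq hinf h2 (L f) : BL2 ζ) : Z → ℝ) z := by
    intro f z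
    change ∑' i, (((L ^ i) f : BL2 ζ) : Z → ℝ) z
      = (f : Z → ℝ) z + ∑' i, (((L ^ i) (L f) : BL2 ζ) : Z → ℝ) z
    rw [(neumann_summable L hq0 hq hinf f z).tsum_eq_zero_add]
    congr 1
  refine ⟨neumannN L hq0 hq hinf h2, fun f => ?_, fun f => ?_, fun f z => ?_⟩
  · apply Subtype.ext; funext z
    set N := neumannN L hq0 hq hinf h2 with hN
    obtain ⟨M, hM⟩ := bbdd f
    have hM0 : 0 ≤ M := (abs_nonneg _).trans (hM z)
    have h1q : 0 < 1 - q := by linarith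
    set s : ℕ → BL2 ζ := fun n => ∑ i ∈ Finset.range n, (L ^ i) f with hs
    -- difference of `N f` and the partial sums
    have hdiff : ∀ n, ∀ w, |((N f - s n : BL2 ζ) : Z → ℝ) w| ≤ (1 - q)⁻¹ * (q ^ n * M) := by
      intro n w
      have e1 : ((N f - s n : BL2 ζ) : Z → ℝ) w
          = ∑' i, (((L ^ i) ((L ^ n) f) : BL2 ζ) : Z → ℝ) w := by
        change (∑' i, (((L ^ i) f : BL2 ζ) : Z → ℝ) w) - ((s n : BL2 ζ) : Z → ℝ) w = _
        rw [hs, neumann_coe_sum, ← (neumann_summable L hq0 hq hinf f w).sum_add_tsum_nat_add n,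
          add_sub_cancel_left]
        refine tsum_congr fun i => ?_
        rw [pow_add]; rfl
      rw [e1]
      exact neumann_bdd L hq0 hq hinf _ _ (neumann_pw L hinf f M hM n) w
    have hLs : ∀ n, f + L (s n) = s (n + 1) := by
      intro n
      rw [hs]
      simp only [map_sum]
      rw [Finset.sum_range_succ']
      rw [add_comm]
      congr 1
      refine Finset.sum_congr rfl fun i _ => ?_
      rw [pow_succ']; rfl
    have hkey : ∀ n, |((N f : BL2 ζ) : Z → ℝ) z - ((f + L (N f) : BL2 ζ) : Z → ℝ) z|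
        ≤ ((1 - q)⁻¹ * M) * (q ^ (n + 1)) + q * ((1 - q)⁻¹ * M * q ^ n) := by
      intro n
      have e2 : ((N f : BL2 ζ) : Z → ℝ) z - ((f + L (N f) : BL2 ζ) : Z → ℝ) z
          = ((N f - s (n + 1) : BL2 ζ) : Z → ℝ) z - ((L (N f - s n) : BL2 ζ) : Z → ℝ) z := by
        rw [← hLs n, map_sub]
        change ((N f : BL2 ζ) : Z → ℝ) z
            - ((f : Z → ℝ) z + ((L (N f) : BL2 ζ) : Z → ℝ) z)
          = (((N f : BL2 ζ) : Z → ℝ) z - ((f : Z → ℝ) z + ((L (s n) : BL2 ζ) : Z → ℝ) z))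
            - (((L (N f) : BL2 ζ) : Z → ℝ) z - ((L (s n) : BL2 ζ) : Z → ℝ) z)
        ring
      rw [e2]
      refine (abs_sub _ _).trans ?_
      have e3 := hdiff (n + 1) z
      have e4 := hinf _ _ (hdiff n) z
      have e5 : (1 - q)⁻¹ * (q ^ (n + 1) * M) = ((1 - q)⁻¹ * M) * (q ^ (n + 1)) := by ring
      have e6 : q * ((1 - q)⁻¹ * (q ^ n * M)) = q * ((1 - q)⁻¹ * M * q ^ n) := by ring
      rw [e5] at e3
      rw [e6] at e4
      exact add_le_add e3 e4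
    have hlim : Tendsto (fun n : ℕ => ((1 - q)⁻¹ * M) * (q ^ (n + 1))
        + q * ((1 - q)⁻¹ * M * q ^ n)) atTop (𝓝 (((1 - q)⁻¹ * M) * 0
        + q * ((1 - q)⁻¹ * M * 0))) := by
      have t1 := tendsto_pow_atTop_nhds_zero_of_lt_one hq0 hq
      have t2 := (tendsto_add_atTop_iff_nat 1).2 t1
      exact (t2.const_mul _).add ((t1.const_mul _).const_mul _)
    have hle := ge_of_tendsto' hlim hkey
    have h0 : |((N f : BL2 ζ) : Z → ℝ) z - ((f + L (N f) : BL2 ζ) : Z → ℝ) z| ≤ 0 := by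
      simpa using hle
    have h00 := abs_nonpos_iff.1 h0
    linarith
  · apply Subtype.ext; funext z
    exact hNL f z
  · exact neumann_tend L hq0 hq hinf f z

end Pool.Agent.SZ
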