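import Mathlib
import Pool.Agent.SZ.SDefs

/-!
# SZ S02: the Markov operator of a symmetric measure (20 min)

PROOFS.  `A_le`, `A_mono`, `A_cst`: `A f z = int f (g z) dm(g)`, `m` a probability measure (see `A_bdd` in
`IRS/Lim.lean`).  `A_nrm`: `0 <= PAct.E m f = B f f - B (A f) (A f)` (`PAct.E_nonneg`).
`A_symm`: `PAct.adj` and `hm`.  `D_pos`: `B (f - A f) f = |f|^2 - <A f, f> >= |f|^2 - nrm (A f) nrm f >= 0` and symmetry.
-/

set_option autoImplicit false
set_option linter.unusedSectionVars false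
set_option linter.unusedVariables false

namespace Pool.Agent.SZ

open Pool.Agent.IRS MeasureTheory Set Filter Topology

variable {Γ : Type*} [Group Γ] [MeasurableSpace Γ] {Z : Type*} [MeasurableSpace Z]
  {ζ : Measure Z} [SigmaFinite ζ]

theorem A_sup (c : PAct Γ ζ) (m : Measure Γ) [IsProbabilityMeasure m] {f : BL2 ζ} {M : ℝ}
    (hM : ∀ z, |(f : Z → ℝ) z| ≤ M) (z : Z) : |((c.A m f : BL2 ζ) : Z → ℝ) z| ≤ M := by
  rw [c.A_apply]
  calc |∫ g, (f : Z → ℝ) (c.τ g z) ∂m| ≤ ∫ g, |(f : Z → ℝ) (c.τ g z)| ∂m :=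
        abs_integral_le_integral_abs
    _ ≤ ∫ _, M ∂m := by
        refine integral_mono_of_nonneg (by filter_upwards with g; positivity)
          (integrable_const _) (by filter_upwards with g; exact hM _)
    _ = M := by simp

theorem A_mono (c : PAct Γ ζ) (m : Measure Γ) [IsProbabilityMeasure m] {f g : BL2 ζ}
    (h : ∀ z, (f : Z → ℝ) z ≤ (g : Z → ℝ) z) (z : Z) :
    ((c.A m f : BL2 ζ) : Z → ℝ) z ≤ ((c.A m g : BL2 ζ) : Z → ℝ) z := by
  rw [c.A_apply, c.A_apply]
  obtain ⟨M, hM⟩ := bbdd f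
  obtain ⟨M', hM'⟩ := bbdd g
  exact integral_mono (integrable_of_bdd m (c.meas_sec (bmeas f) z) fun g => hM _)
    (integrable_of_bdd m (c.meas_sec (bmeas g) z) fun g => hM' _) fun x => h _

theorem A_nn (c : PAct Γ ζ) (m : Measure Γ) [IsProbabilityMeasure m] {f : BL2 ζ}
    (h : ∀ z, 0 ≤ (f : Z → ℝ) z) (z : Z) : 0 ≤ ((c.A m f : BL2 ζ) : Z → ℝ) z := by
  rw [c.A_apply]
  exact integral_nonneg fun x => h _

theorem A_cst {X : Type*} [MeasurableSpace X] {μ : Measure X} [IsProbabilityMeasure μ]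
    (c : PAct Γ μ) (m : Measure Γ) [IsProbabilityMeasure m] (t : ℝ) :
    c.A m (cstB μ t) = cstB μ t := by
  apply Subtype.ext
  funext z
  rw [c.A_apply]
  simp

theorem A_nrm (c : PAct Γ ζ) (m : Measure Γ) [IsProbabilityMeasure m] (f : BL2 ζ) :
    (frm ζ).nrm (c.A m f) ≤ (frm ζ).nrm f := by
  have h := c.E_nonneg m f
  unfold PAct.E at h
  unfold PSForm.nrm
  exact Real.sqrt_le_sqrt (by linarith)

theorem A_symm [MeasurableInv Γ] (c : PAct Γ ζ) (m : Measure Γ) [IsProbabilityMeasure m]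
    (hm : nui m = m) (f g : BL2 ζ) : (frm ζ).B (c.A m f) g = (frm ζ).B f (c.A m g) := by
  rw [c.adj m]
  simp only [hm]

theorem D_pos [MeasurableInv Γ] (c : PAct Γ ζ) (m : Measure Γ) [IsProbabilityMeasure m]
    (hm : nui m = m) : (frm ζ).Pos (1 - c.A m) := by
  refine ⟨fun f g => ?_, fun f => ?_⟩
  · simp only [LinearMap.sub_apply, Module.End.one_apply, map_sub, A_symm c m hm f g]
  · simp only [LinearMap.sub_apply, Module.End.one_apply, map_sub]
    have h1 := (frm ζ).le_nrm_mul (c.A m f) f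
    have h2 := A_nrm c m f
    have h3 := (frm ζ).nrm_sq f
    have h4 := (frm ζ).nrm_nonneg f
    nlinarith

end Pool.Agent.SZ
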