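import Mathlib
import Pool.Agent.SZ.SDefs
import Pool.Agent.SZ.S01Neu
import Pool.Agent.SZ.S02Mk

/-!
# SZ S03: the resolvent of `Pi + D + kappa` (40 min)

PROOF.  `Pi := mulX pi hpi (indB mu Y hY)`, `D := 1 - A`, `A := c.A m`.  Let `r(x) := 1/(1+kappa+1_Y(x))` (a bounded
measurable function, `0 < r <= 1/(1+kappa)`; as a member of `BL2 mu`), `R := mulX pi hpi r`, `L := R * A` (that is
`L f = R (A f)`).  `|L f| <= q M` and `nrm (L f) <= q nrm f` with `q := 1/(1+kappa) < 1` (`A_sup`, `A_nrm`).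
`neumann` gives `N`; `Bi := N * R`.
`inv1`: `F := Bi g = N (R g) = R g + R (A F)` pointwise: `(1+kappa+1_Y) F = g + A F`, i.e. `Pi F + F - A F + kappa F = g`.
`inv2`: `R (Pi g + D g + kappa g) = g - L g` pointwise, and `N (g - L g) = g` because `N g = g + N (L g)`.
Iterates: `G k := sum_{i<k} L^i (R g)`; `G (k+1) = R g + L (G k)` (`Finset.sum_range_succ'`, `pow_succ'`), i.e.
`G (k+1) * (1+kappa+1_Y) = g + A (G k)`; `hPi`: symmetric, `<1_Y f, f> >= 0`, idempotent.
-/

set_option autoImplicit false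
set_option linter.unusedSectionVars false
set_option linter.unusedVariables false

namespace Pool.Agent.SZ

open Pool.Agent.IRS MeasureTheory Set Filter Topology

variable {Γ : Type*} [Group Γ] [MeasurableSpace Γ] [MeasurableInv Γ] {X Z : Type*}
  [MeasurableSpace X] [MeasurableSpace Z] {μ : Measure X} [IsProbabilityMeasure μ]
  {ζ : Measure Z} [SigmaFinite ζ]

private lemma res_coe_sum (s : Finset ℕ) (F : ℕ → BL2 ζ) (z : Z) :
    ((∑ i ∈ s, F i : BL2 ζ) : Z → ℝ) z = ∑ i ∈ s, (F i : Z → ℝ) z := by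
  rw [Submodule.coe_sum, Finset.sum_apply]

theorem resolvent (c : PAct Γ ζ) (m : Measure Γ) [IsProbabilityMeasure m] (hm : nui m = m)
    (π : Z → X) (hπ : Measurable π) {Y : Set X} (hY : MeasurableSet Y) {κ : ℝ} (hκ : 0 < κ) :
    ∃ Bi : Module.End ℝ (BL2 ζ),
      SCR (frm ζ) (1 - c.A m) (mulX π hπ (indB μ Y hY)) Bi κ ∧
      ∀ g : BL2 ζ, ∃ G : ℕ → BL2 ζ, G 0 = 0 ∧
        (∀ k z, ((G (k + 1) : BL2 ζ) : Z → ℝ) z * (1 + κ + Y.indicator (fun _ => (1 : ℝ)) (π z))
          = ((c.A m (G k) : BL2 ζ) : Z → ℝ) z + (g : Z → ℝ) z) ∧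
        ∀ z, Tendsto (fun k => ((G k : BL2 ζ) : Z → ℝ) z) atTop (𝓝 (((Bi g : BL2 ζ) : Z → ℝ) z)) := by
  classical
  -- the function `r`
  have hind : ∀ x, 0 ≤ Y.indicator (fun _ => (1 : ℝ)) x := fun x => by
    by_cases h : x ∈ Y <;> simp [h]
  have hden : ∀ x, 0 < 1 + κ + Y.indicator (fun _ => (1 : ℝ)) x := fun x => by
    have := hind x; linarith
  have hmr : Measurable (fun x => (1 + κ + Y.indicator (fun _ => (1 : ℝ)) x)⁻¹) :=
    (measurable_const.add (measurable_const.indicator hY)).inv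
  have hr0 : ∀ x, 0 ≤ (1 + κ + Y.indicator (fun _ => (1 : ℝ)) x)⁻¹ := fun x =>
    inv_nonneg.mpr (hden x).le
  have hrq : ∀ x, (1 + κ + Y.indicator (fun _ => (1 : ℝ)) x)⁻¹ ≤ (1 + κ)⁻¹ := fun x => by
    apply inv_anti₀ (by linarith)
    have := hind x; linarith
  have hrabs : ∀ x, |(1 + κ + Y.indicator (fun _ => (1 : ℝ)) x)⁻¹| ≤ (1 + κ)⁻¹ := fun x => by
    rw [abs_of_nonneg (hr0 x)]; exact hrq x
  let r : BL2 μ := ⟨fun x => (1 + κ + Y.indicator (fun _ => (1 : ℝ)) x)⁻¹, hmr, ⟨(1 + κ)⁻¹, hrabs⟩,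
    integrable_of_bdd μ (hmr.pow_const 2) (M := ((1 + κ)⁻¹) ^ 2) fun x => by
      rw [abs_pow]; exact pow_le_pow_left₀ (abs_nonneg _) (hrabs x) 2⟩
  let R : Module.End ℝ (BL2 ζ) := mulX π hπ r
  have hR : ∀ (f : BL2 ζ) (z : Z), ((R f : BL2 ζ) : Z → ℝ) z =
      (1 + κ + Y.indicator (fun _ => (1 : ℝ)) (π z))⁻¹ * (f : Z → ℝ) z := fun f z => rfl
  let A : Module.End ℝ (BL2 ζ) := c.A m
  let L : Module.End ℝ (BL2 ζ) := R * A
  have hL : ∀ (f : BL2 ζ), L f = R (c.A m f) := fun f => rfl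
  have hq0 : 0 ≤ (1 + κ)⁻¹ := by positivity
  have hq1 : (1 + κ)⁻¹ < 1 := by
    rw [inv_lt_one₀ (by linarith)]; linarith
  have hinf : ∀ (f : BL2 ζ) (M : ℝ), (∀ z, |(f : Z → ℝ) z| ≤ M) →
      ∀ z, |((L f : BL2 ζ) : Z → ℝ) z| ≤ (1 + κ)⁻¹ * M := by
    intro f M hM z
    rw [hL, hR, abs_mul]
    exact mul_le_mul (hrabs _) (A_sup c m hM z) (abs_nonneg _) hq0
  have h2 : ∀ f : BL2 ζ, (frm ζ).nrm (L f) ≤ (1 + κ)⁻¹ * (frm ζ).nrm f := by
    intro f
    have h3 : (frm ζ).nrm (R (c.A m f)) ≤ (1 + κ)⁻¹ * (frm ζ).nrm (c.A m f) := by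
      have h4 : (frm ζ).nrm (R (c.A m f)) ^ 2 ≤ ((1 + κ)⁻¹ * (frm ζ).nrm (c.A m f)) ^ 2 := by
        rw [mul_pow, nrm_sq_eq, nrm_sq_eq, ← integral_const_mul]
        refine integral_mono (bsq _) ((bsq _).const_mul _) fun z => ?_
        simp only
        rw [hR, mul_pow]
        apply mul_le_mul_of_nonneg_right _ (sq_nonneg _)
        exact pow_le_pow_left₀ (hr0 _) (hrq _) 2
      exact le_of_sq_le_sq h4 (mul_nonneg hq0 ((frm ζ).nrm_nonneg _))
    calc (frm ζ).nrm (L f) ≤ (1 + κ)⁻¹ * (frm ζ).nrm (c.A m f) := h3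
      _ ≤ (1 + κ)⁻¹ * (frm ζ).nrm f := mul_le_mul_of_nonneg_left (A_nrm c m f) hq0
  obtain ⟨N, hN1, hN2, hN3⟩ := neumann L hq0 hq1 hinf h2
  refine ⟨N * R, ?_, ?_⟩
  · constructor
    · exact hκ
    · exact D_pos c m hm
    · constructor
      · intro x y
        rw [frm_apply, frm_apply]
        congr 1; ext z
        rw [mulX_apply, mulX_apply]; ring
      · intro x
        rw [frm_apply]
        refine integral_nonneg fun z => ?_
        rw [mulX_apply, indB_apply]
        have h5 := mul_nonneg (hind (π z)) (mul_self_nonneg ((x : Z → ℝ) z))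
        simp only [Pi.zero_apply]
        nlinarith [h5]
    · intro g
      apply Subtype.ext; funext z
      rw [mulX_apply, mulX_apply, indB_apply]
      by_cases h : π z ∈ Y <;> simp [h]
    · intro g
      have h6 : (N * R) g = N (R g) := rfl
      rw [h6]
      have h7 := hN1 (R g)
      rw [hL] at h7
      set F : BL2 ζ := N (R g) with hF
      have h8 : ∀ z, (F : Z → ℝ) z = (1 + κ + Y.indicator (fun _ => (1 : ℝ)) (π z))⁻¹ * (g : Z → ℝ) z +
          (1 + κ + Y.indicator (fun _ => (1 : ℝ)) (π z))⁻¹ * ((c.A m F : BL2 ζ) : Z → ℝ) z := by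
        intro z
        have h9 := congrArg (fun u : BL2 ζ => (u : Z → ℝ) z) h7
        simp only [Submodule.coe_add, Pi.add_apply, hR] at h9
        exact h9
      apply Subtype.ext; funext z
      have h10 := h8 z
      have h11 := (hden (π z)).ne'
      have h12 : (F : Z → ℝ) z * (1 + κ + Y.indicator (fun _ => (1 : ℝ)) (π z)) =
          (g : Z → ℝ) z + ((c.A m F : BL2 ζ) : Z → ℝ) z := by
        rw [← mul_add, inv_mul_eq_div, eq_div_iff h11] at h10
        exact h10
      simp only [Submodule.coe_add, Pi.add_apply, mulX_apply, indB_apply, LinearMap.sub_apply,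
        Module.End.one_apply, AddSubgroupClass.coe_sub, Pi.sub_apply, Submodule.coe_smul,
        Pi.smul_apply, smul_eq_mul]
      linarith
    · intro g
      have h6 : ∀ u, (N * R) u = N (R u) := fun u => rfl
      rw [h6]
      have h7 : R (mulX π hπ (indB μ Y hY) g + (1 - c.A m) g + κ • g) = g - L g := by
        apply Subtype.ext; funext z
        rw [hR]
        simp only [Submodule.coe_add, Pi.add_apply, mulX_apply, indB_apply, LinearMap.sub_apply,
          Module.End.one_apply, AddSubgroupClass.coe_sub, Pi.sub_apply, Submodule.coe_smul,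
          Pi.smul_apply, smul_eq_mul, hL, hR]
        have h11 := (hden (π z)).ne'
        field_simp
        ring
      rw [h7, map_sub]
      have h8 := hN2 g
      rw [sub_eq_iff_eq_add]
      exact h8
  · intro g
    refine ⟨fun k => ∑ i ∈ Finset.range k, (L ^ i) (R g), by simp, ?_, ?_⟩
    · intro k z
      have h9 : (∑ i ∈ Finset.range (k + 1), (L ^ i) (R g)) =
          R g + L (∑ i ∈ Finset.range k, (L ^ i) (R g)) := by
        rw [Finset.sum_range_succ', map_sum, add_comm]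
        congr 1
        refine Finset.sum_congr rfl fun i _ => ?_
        rw [pow_succ']
        rfl
      simp only
      rw [h9, hL]
      simp only [Submodule.coe_add, Pi.add_apply, hR]
      have h11 := (hden (π z)).ne'
      field_simp
      ring
    · intro z
      have h10 := hN3 (R g) z
      have h12 : ((N * R) g) = N (R g) := rfl
      rw [h12]
      refine h10.congr fun n => ?_
      rw [res_coe_sum]

end Pool.Agent.SZ
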