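import Mathlib
import Pool.Agent.SZ.SDefs

/-!
# SZ S04: the averaging operators preserve the class ClP (40 min)

PROOFS.  `ClP_T`: `int u(pi z) F(g z)^2 dzeta = int u(pi (g^-1 z)) F(z)^2 dzeta` (measure preservation of `c.τ g`,
`PAct.integral_comp` applied to `z -> u(pi(g^-1 z)) F(z)^2`) `= int u(g^-1 . pi z) F(z)^2 <= int u(g^-1 x) dmu = int u dmu`
(`ClP` for `u o c'.τ g^-1`).
`ClP_A`: `(A F z)^2 <= int F(g z)^2 dm(g)` (`sq_integral_le`); so `int u(pi z) (A F z)^2 dzeta <=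
int int u(pi z) F(g z)^2 dm(g) dzeta = int (int u(pi z) F(g z)^2 dzeta) dm(g) <= int u dmu` (Fubini: integrability by
`PAct.sq_prod_int` times a bounded function; `integral_integral_swap`).
`ClP_int`: `u = 1`.  `ClP_ind`: apply `ClP` to `u * 1_Y^2 <= u`.  `ClP_mass`: `F^2 = 1_Y F^2 + 1_{Y^c} F^2` and ClP
with `u = 1_{Y^c}`.
-/

set_option autoImplicit false
set_option linter.unusedSectionVars false
set_option linter.unusedVariables false

namespace Pool.Agent.SZ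

open Pool.Agent.IRS MeasureTheory Set Filter Topology

variable {Γ : Type*} [Group Γ] [MeasurableSpace Γ] [MeasurableInv Γ] {X Z : Type*}
  [MeasurableSpace X] [MeasurableSpace Z] {μ : Measure X} [IsProbabilityMeasure μ]
  {ζ : Measure Z} [SigmaFinite ζ]

/-- A bounded function of the base point times an integrable function is integrable. -/
private lemma cl_int {π : Z → X} (hπ : Measurable π) {u : X → ℝ} (hu : Measurable u) {M : ℝ}
    (hM : ∀ x, |u x| ≤ M) {h : Z → ℝ} (hh : Integrable h ζ) :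
    Integrable (fun z => u (π z) * h z) ζ :=
  hh.bdd_mul (hu.comp hπ).aestronglyMeasurable
    (Filter.Eventually.of_forall fun z => by rw [Real.norm_eq_abs]; exact hM _)

theorem ClP_T (c : PAct Γ ζ) (c' : PAct Γ μ) (π : Z → X) (hπ : Measurable π)
    (heq : ∀ g z, π (c.τ g z) = c'.τ g (π z)) {F : BL2 ζ} (hF : ClP μ π F) (g : Γ) :
    ClP μ π (c.T g F) := by
  intro u hu h0 hM
  have h1 : ∫ z, u (π z) * ((c.T g F : BL2 ζ) : Z → ℝ) z ^ 2 ∂ζ
      = ∫ z, u (c'.τ g⁻¹ (π z)) * (F : Z → ℝ) z ^ 2 ∂ζ := by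
    have h2 := c.integral_comp g (F := fun z => u (c'.τ g⁻¹ (π z)) * (F : Z → ℝ) z ^ 2)
      (((hu.comp (c'.meas_g g⁻¹)).comp hπ).mul ((bmeas F).pow_const 2))
    rw [← h2]
    refine integral_congr_ae (Filter.Eventually.of_forall fun z => ?_)
    simp only [PAct.T_apply, heq, c'.inv_apply]
  rw [h1]
  have h3 := hF (fun x => u (c'.τ g⁻¹ x)) (hu.comp (c'.meas_g g⁻¹)) (fun x => h0 _)
    (hM.imp fun M hM x => hM _)
  refine h3.trans (le_of_eq ?_)
  exact c'.integral_comp g⁻¹ hu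

theorem ClP_A (c : PAct Γ ζ) (c' : PAct Γ μ) (π : Z → X) (hπ : Measurable π)
    (heq : ∀ g z, π (c.τ g z) = c'.τ g (π z)) (m : Measure Γ) [IsProbabilityMeasure m]
    {F : BL2 ζ} (hF : ClP μ π F) : ClP μ π (c.A m F) := by
  intro u hu h0 hM
  obtain ⟨M, hM⟩ := hM
  obtain ⟨N, hN⟩ := bbdd F
  have hM' : ∀ x, |u x| ≤ M := fun x => by rw [abs_of_nonneg (h0 x)]; exact hM x
  -- integrability on the product
  have hprod : Integrable (fun p : Γ × Z => u (π p.2) * (F : Z → ℝ) (c.τ p.1 p.2) ^ 2)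
      (m.prod ζ) := by
    refine (c.sq_prod_int m F).bdd_mul (c := M) ?_ ?_
    · exact ((hu.comp hπ).comp measurable_snd).aestronglyMeasurable
    · exact Filter.Eventually.of_forall fun p => by rw [Real.norm_eq_abs]; exact hM' _
  have hpt : ∀ z, u (π z) * ((c.A m F : BL2 ζ) : Z → ℝ) z ^ 2
      ≤ ∫ g, u (π z) * (F : Z → ℝ) (c.τ g z) ^ 2 ∂m := by
    intro z
    have hm := c.meas_sec (bmeas F) z
    have hi2 : Integrable (fun g => (F : Z → ℝ) (c.τ g z) ^ 2) m := by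
      refine integrable_of_bdd m (hm.pow_const 2) (M := N ^ 2) fun g => ?_
      rw [abs_pow]
      exact pow_le_pow_left₀ (abs_nonneg _) (hN _) 2
    have h1 := sq_integral_le m (integrable_of_bdd m hm fun g => hN _) hi2
    rw [PAct.A_apply, integral_const_mul]
    exact mul_le_mul_of_nonneg_left h1 (h0 _)
  calc ∫ z, u (π z) * ((c.A m F : BL2 ζ) : Z → ℝ) z ^ 2 ∂ζ
      ≤ ∫ z, ∫ g, u (π z) * (F : Z → ℝ) (c.τ g z) ^ 2 ∂m ∂ζ := by
        refine integral_mono (cl_int hπ hu hM' (bsq _)) ?_ hpt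
        exact hprod.integral_prod_right
    _ = ∫ g, ∫ z, u (π z) * (F : Z → ℝ) (c.τ g z) ^ 2 ∂ζ ∂m := by
        exact (integral_integral_swap (f := fun g z => u (π z) * (F : Z → ℝ) (c.τ g z) ^ 2)
          hprod).symm
    _ ≤ ∫ _, (∫ x, u x ∂μ) ∂m := by
        refine integral_mono hprod.integral_prod_left (integrable_const _) fun g => ?_
        exact ClP_T c c' π hπ heq hF g u hu h0 ⟨M, hM⟩
    _ = ∫ x, u x ∂μ := by simp

theorem ClP_int {π : Z → X} {F : BL2 ζ} (hF : ClP μ π F) : ∫ z, (F : Z → ℝ) z ^ 2 ∂ζ ≤ 1 := by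
  have h := hF (fun _ => 1) measurable_const (fun _ => zero_le_one) ⟨1, fun _ => le_rfl⟩
  simpa using h

theorem ClP_ind {π : Z → X} (hπ : Measurable π) {Y : Set X} (hY : MeasurableSet Y) {F : BL2 ζ}
    (hF : ClP μ π F) : ClP μ π (mulX π hπ (indB μ Y hY) F) := by
  intro u hu h0 hM
  obtain ⟨M, hM⟩ := hM
  have hM' : ∀ x, |u x| ≤ M := fun x => by rw [abs_of_nonneg (h0 x)]; exact hM x
  have h1 := hF (fun x => u x * Y.indicator (fun _ => (1 : ℝ)) x ^ 2)
    (hu.mul ((measurable_const.indicator hY).pow_const 2))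
    (fun x => mul_nonneg (h0 x) (sq_nonneg _)) ⟨M, fun x => by
      by_cases hx : x ∈ Y
      · simpa [hx] using hM x
      · have := (h0 x).trans (hM x)
        simpa [hx] using this⟩
  have h2 : ∫ z, u (π z) * ((mulX π hπ (indB μ Y hY) F : BL2 ζ) : Z → ℝ) z ^ 2 ∂ζ
      = ∫ z, (u (π z) * Y.indicator (fun _ => (1 : ℝ)) (π z) ^ 2) * (F : Z → ℝ) z ^ 2 ∂ζ := by
    refine integral_congr_ae (Filter.Eventually.of_forall fun z => ?_)
    simp only [mulX_apply, indB_apply]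
    ring
  rw [h2]
  refine h1.trans ?_
  refine integral_mono_of_nonneg (Filter.Eventually.of_forall fun x =>
    mul_nonneg (h0 x) (sq_nonneg _)) (integrable_of_bdd μ hu hM')
    (Filter.Eventually.of_forall fun x => ?_)
  by_cases hx : x ∈ Y
  · simp [hx]
  · simpa [hx] using h0 x

theorem ClP_mass {π : Z → X} (hπ : Measurable π) {Y : Set X} (hY : MeasurableSet Y) {F : BL2 ζ}
    (hF : ClP μ π F) : ∫ z, (F : Z → ℝ) z ^ 2 ∂ζ ≤
      (frm ζ).B (mulX π hπ (indB μ Y hY) F) (mulX π hπ (indB μ Y hY) F) + μ.real Yᶜ := by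
  have hc : ∀ (S : Set X) (x : X), |S.indicator (fun _ => (1 : ℝ)) x| ≤ 1 := fun S x => by
    by_cases h : x ∈ S <;> simp [h]
  have h1 := hF (Yᶜ.indicator (fun _ => (1 : ℝ))) (measurable_const.indicator hY.compl)
    (fun x => by by_cases h : x ∈ Yᶜ <;> simp [h]) ⟨1, fun x => (le_abs_self _).trans (hc _ x)⟩
  have h2 : ∫ x, Yᶜ.indicator (fun _ => (1 : ℝ)) x ∂μ = μ.real Yᶜ := by
    rw [integral_indicator hY.compl, setIntegral_const, smul_eq_mul, mul_one]
  rw [h2] at h1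
  have hi1 : Integrable (fun z => Y.indicator (fun _ => (1 : ℝ)) (π z) * (F : Z → ℝ) z ^ 2) ζ :=
    cl_int hπ (measurable_const.indicator hY) (hc Y) (bsq F)
  have hi2 : Integrable (fun z => Yᶜ.indicator (fun _ => (1 : ℝ)) (π z) * (F : Z → ℝ) z ^ 2) ζ :=
    cl_int hπ (measurable_const.indicator hY.compl) (hc Yᶜ) (bsq F)
  have h3 : (frm ζ).B (mulX π hπ (indB μ Y hY) F) (mulX π hπ (indB μ Y hY) F)
      = ∫ z, Y.indicator (fun _ => (1 : ℝ)) (π z) * (F : Z → ℝ) z ^ 2 ∂ζ := by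
    rw [frm_self]
    refine integral_congr_ae (Filter.Eventually.of_forall fun z => ?_)
    simp only [mulX_apply, indB_apply]
    by_cases h : π z ∈ Y <;> simp [h]
  have h4 : ∫ z, (F : Z → ℝ) z ^ 2 ∂ζ
      = ∫ z, Y.indicator (fun _ => (1 : ℝ)) (π z) * (F : Z → ℝ) z ^ 2 ∂ζ
        + ∫ z, Yᶜ.indicator (fun _ => (1 : ℝ)) (π z) * (F : Z → ℝ) z ^ 2 ∂ζ := by
    rw [← integral_add hi1 hi2]
    refine integral_congr_ae (Filter.Eventually.of_forall fun z => ?_)
    by_cases h : π z ∈ Y <;> simp [h]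
  rw [h4, h3]
  linarith

end Pool.Agent.SZ
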