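import Mathlib
import Pool.Agent.SZ.SDefs
import Pool.Agent.SZ.S04Cl

/-!
# SZ S05: the resolvent preserves the class ClP (30 min)

PROOF.  By induction every `G k` is in ClP (`G 0 = 0`): let `w := 1_Y(pi z)`.  If `w = 1`:
`G(k+1)^2 = (A G_k + g)^2/(2+kappa)^2 <= ((A G_k)^2 + g^2)/2`; if `w = 0`: `G(k+1)^2 = (A G_k)^2/(1+kappa)^2 <= (A G_k)^2`.
So `int u(pi) G(k+1)^2 <= int (u (1 - 1_Y/2))(pi) (A G_k)^2 + int (u 1_Y/2)(pi) g^2 <= int u (1 - 1_Y/2) + int u 1_Y/2
= int u` (`ClP_A` for `G_k`, `ClP` for `g`).  Limit: `ClP_lim`: Fatou for `ENNReal.ofReal (u(pi z) G_k(z)^2)`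
(`lintegral_liminf_le`) and `ofReal_integral_eq_lintegral_ofReal`.
-/

set_option autoImplicit false
set_option linter.unusedSectionVars false
set_option linter.unusedVariables false

namespace Pool.Agent.SZ

open Pool.Agent.IRS MeasureTheory Set Filter Topology

variable {Γ : Type*} [Group Γ] [MeasurableSpace Γ] [MeasurableInv Γ] {X Z : Type*}
  [MeasurableSpace X] [MeasurableSpace Z] {μ : Measure X} [IsProbabilityMeasure μ]
  {ζ : Measure Z} [SigmaFinite ζ]

/-- A bounded function of the base point times an integrable function is integrable. -/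
private lemma cl5_int {π : Z → X} (hπ : Measurable π) {u : X → ℝ} (hu : Measurable u) {M : ℝ}
    (hM : ∀ x, |u x| ≤ M) {h : Z → ℝ} (hh : Integrable h ζ) :
    Integrable (fun z => u (π z) * h z) ζ :=
  hh.bdd_mul (hu.comp hπ).aestronglyMeasurable
    (Filter.Eventually.of_forall fun z => by rw [Real.norm_eq_abs]; exact hM _)

theorem ClP_lim {π : Z → X} (hπ : Measurable π) {F : BL2 ζ} (G : ℕ → BL2 ζ)
    (hG : ∀ k, ClP μ π (G k))
    (hlim : ∀ z, Tendsto (fun k => ((G k : BL2 ζ) : Z → ℝ) z) atTop (𝓝 ((F : Z → ℝ) z))) :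
    ClP μ π F := by
  intro u hu h0 hM
  obtain ⟨M, hM⟩ := hM
  have hM' : ∀ x, |u x| ≤ M := fun x => by rw [abs_of_nonneg (h0 x)]; exact hM x
  have hpos : 0 ≤ ∫ x, u x ∂μ := integral_nonneg h0
  have hnn : ∀ (f : BL2 ζ) (z : Z), 0 ≤ u (π z) * (f : Z → ℝ) z ^ 2 := fun f z =>
    mul_nonneg (h0 _) (sq_nonneg _)
  have hmeas : ∀ f : BL2 ζ, Measurable (fun z => u (π z) * (f : Z → ℝ) z ^ 2) := fun f =>
    (hu.comp hπ).mul ((bmeas f).pow_const 2)
  rw [integral_eq_lintegral_of_nonneg_ae (Filter.Eventually.of_forall (hnn F))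
    (hmeas F).aestronglyMeasurable]
  refine ENNReal.toReal_le_of_le_ofReal hpos ?_
  have hle : ∀ z, ENNReal.ofReal (u (π z) * (F : Z → ℝ) z ^ 2)
      ≤ liminf (fun k => ENNReal.ofReal (u (π z) * ((G k : BL2 ζ) : Z → ℝ) z ^ 2)) atTop := by
    intro z
    have h1 : Tendsto (fun k => ENNReal.ofReal (u (π z) * ((G k : BL2 ζ) : Z → ℝ) z ^ 2)) atTop
        (𝓝 (ENNReal.ofReal (u (π z) * (F : Z → ℝ) z ^ 2))) :=
      ENNReal.tendsto_ofReal (((hlim z).pow 2).const_mul _)
    exact h1.liminf_eq.ge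
  calc ∫⁻ z, ENNReal.ofReal (u (π z) * (F : Z → ℝ) z ^ 2) ∂ζ
      ≤ ∫⁻ z, liminf (fun k => ENNReal.ofReal (u (π z) * ((G k : BL2 ζ) : Z → ℝ) z ^ 2)) atTop ∂ζ :=
        lintegral_mono hle
    _ ≤ liminf (fun k => ∫⁻ z, ENNReal.ofReal (u (π z) * ((G k : BL2 ζ) : Z → ℝ) z ^ 2) ∂ζ) atTop :=
        lintegral_liminf_le fun k => (hmeas (G k)).ennreal_ofReal
    _ ≤ liminf (fun _ : ℕ => ENNReal.ofReal (∫ x, u x ∂μ)) atTop := by
        refine liminf_le_liminf (Filter.Eventually.of_forall fun k => ?_)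
        rw [← ofReal_integral_eq_lintegral_ofReal (cl5_int hπ hu hM' (bsq (G k)))
          (Filter.Eventually.of_forall (hnn (G k)))]
        exact ENNReal.ofReal_le_ofReal (hG k u hu h0 ⟨M, hM⟩)
    _ = ENNReal.ofReal (∫ x, u x ∂μ) := liminf_const _

theorem ClP_res (c : PAct Γ ζ) (c' : PAct Γ μ) (π : Z → X) (hπ : Measurable π)
    (heq : ∀ g z, π (c.τ g z) = c'.τ g (π z)) (m : Measure Γ) [IsProbabilityMeasure m]
    {Y : Set X} (hY : MeasurableSet Y) {κ : ℝ} (hκ : 0 < κ) {g F : BL2 ζ} (hg : ClP μ π g)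
    (G : ℕ → BL2 ζ) (h0 : G 0 = 0)
    (hG : ∀ k z, ((G (k + 1) : BL2 ζ) : Z → ℝ) z * (1 + κ + Y.indicator (fun _ => (1 : ℝ)) (π z))
      = ((c.A m (G k) : BL2 ζ) : Z → ℝ) z + ((mulX π hπ (indB μ Y hY) g : BL2 ζ) : Z → ℝ) z)
    (hlim : ∀ z, Tendsto (fun k => ((G k : BL2 ζ) : Z → ℝ) z) atTop (𝓝 ((F : Z → ℝ) z))) :
    ClP μ π F := by
  refine ClP_lim hπ G ?_ hlim
  intro k
  induction k with
  | zero =>
    intro u hu h0' _
    rw [h0]
    have : ∫ z, u (π z) * ((0 : BL2 ζ) : Z → ℝ) z ^ 2 ∂ζ = 0 := by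
      have h1 : (fun z => u (π z) * ((0 : BL2 ζ) : Z → ℝ) z ^ 2) = fun _ => (0 : ℝ) := by
        funext z; simp
      rw [h1, integral_zero]
    rw [this]
    exact integral_nonneg h0'
  | succ k ih =>
    have hA := ClP_A c c' π hπ heq m ih
    intro u hu h0' hM
    obtain ⟨M, hM⟩ := hM
    have hM' : ∀ x, |u x| ≤ M := fun x => by rw [abs_of_nonneg (h0' x)]; exact hM x
    set w : X → ℝ := Y.indicator (fun _ => (1 : ℝ)) with hw
    have hwm : Measurable w := measurable_const.indicator hY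
    have hw01 : ∀ x, w x = 0 ∨ w x = 1 := fun x => by
      by_cases h : x ∈ Y
      · right; simp [hw, h]
      · left; simp [hw, h]
    have hw0 : ∀ x, 0 ≤ w x := fun x => by rcases hw01 x with h | h <;> rw [h] <;> norm_num
    have hw1 : ∀ x, w x ≤ 1 := fun x => by rcases hw01 x with h | h <;> rw [h] <;> norm_num
    -- the two weights
    have hu1 : Measurable (fun x => u x * (1 - w x / 2)) :=
      hu.mul (measurable_const.sub (hwm.div_const 2))
    have hu2 : Measurable (fun x => u x * (w x / 2)) := hu.mul (hwm.div_const 2)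
    have hu1n : ∀ x, 0 ≤ u x * (1 - w x / 2) := fun x =>
      mul_nonneg (h0' x) (by have := hw1 x; linarith)
    have hu2n : ∀ x, 0 ≤ u x * (w x / 2) := fun x =>
      mul_nonneg (h0' x) (by have := hw0 x; linarith)
    have hu1b : ∀ x, u x * (1 - w x / 2) ≤ M := fun x =>
      (mul_le_of_le_one_right (h0' x) (by have := hw0 x; linarith)).trans (hM x)
    have hu2b : ∀ x, u x * (w x / 2) ≤ M := fun x =>
      (mul_le_of_le_one_right (h0' x) (by have := hw1 x; linarith)).trans (hM x)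
    have e1 := hA _ hu1 hu1n ⟨M, hu1b⟩
    have e2 := hg _ hu2 hu2n ⟨M, hu2b⟩
    have i1 : Integrable (fun z => (u (π z) * (1 - w (π z) / 2))
        * ((c.A m (G k) : BL2 ζ) : Z → ℝ) z ^ 2) ζ :=
      cl5_int (u := fun x => u x * (1 - w x / 2)) hπ hu1
        (fun x => by rw [abs_of_nonneg (hu1n x)]; exact hu1b x) (bsq _)
    have i2 : Integrable (fun z => (u (π z) * (w (π z) / 2)) * (g : Z → ℝ) z ^ 2) ζ :=
      cl5_int (u := fun x => u x * (w x / 2)) hπ hu2
        (fun x => by rw [abs_of_nonneg (hu2n x)]; exact hu2b x) (bsq _)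
    have j1 : Integrable (fun x => u x * (1 - w x / 2)) μ :=
      integrable_of_bdd μ hu1 (fun x => by rw [abs_of_nonneg (hu1n x)]; exact hu1b x)
    have j2 : Integrable (fun x => u x * (w x / 2)) μ :=
      integrable_of_bdd μ hu2 (fun x => by rw [abs_of_nonneg (hu2n x)]; exact hu2b x)
    calc ∫ z, u (π z) * ((G (k + 1) : BL2 ζ) : Z → ℝ) z ^ 2 ∂ζ
        ≤ ∫ z, ((u (π z) * (1 - w (π z) / 2)) * ((c.A m (G k) : BL2 ζ) : Z → ℝ) z ^ 2
          + (u (π z) * (w (π z) / 2)) * (g : Z → ℝ) z ^ 2) ∂ζ := by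
          refine integral_mono (cl5_int hπ hu hM' (bsq _)) (i1.add i2) fun z => ?_
          have hz := hG k z
          rw [mulX_apply, indB_apply] at hz
          change u (π z) * ((G (k + 1) : BL2 ζ) : Z → ℝ) z ^ 2 ≤
            (u (π z) * (1 - w (π z) / 2)) * ((c.A m (G k) : BL2 ζ) : Z → ℝ) z ^ 2
              + (u (π z) * (w (π z) / 2)) * (g : Z → ℝ) z ^ 2
          change ((G (k + 1) : BL2 ζ) : Z → ℝ) z * (1 + κ + w (π z))
            = ((c.A m (G k) : BL2 ζ) : Z → ℝ) z + w (π z) * (g : Z → ℝ) z at hz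
          generalize ((G (k + 1) : BL2 ζ) : Z → ℝ) z = x at hz ⊢
          generalize ((c.A m (G k) : BL2 ζ) : Z → ℝ) z = y at hz ⊢
          generalize (g : Z → ℝ) z = t at hz ⊢
          have hu0 := h0' (π z)
          generalize u (π z) = v at hu0 ⊢
          rcases hw01 (π z) with h | h
          · rw [h] at hz ⊢
            have hz' : x * (1 + κ) = y := by linarith
            have h5 : x ^ 2 ≤ y ^ 2 := by
              rw [← hz', mul_pow]
              have : 1 ≤ (1 + κ) ^ 2 := by nlinarith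
              nlinarith [sq_nonneg x]
            nlinarith [mul_le_mul_of_nonneg_left h5 hu0]
          · rw [h] at hz ⊢
            have hz' : x * (2 + κ) = y + t := by linarith
            have h5 : x ^ 2 ≤ (y ^ 2 + t ^ 2) / 2 := by
              have h6 : (x * 2) ^ 2 ≤ (y + t) ^ 2 := by
                rw [← hz', mul_pow, mul_pow]
                have : (2 : ℝ) ^ 2 ≤ (2 + κ) ^ 2 := by nlinarith
                exact mul_le_mul_of_nonneg_left this (sq_nonneg x)
              nlinarith [sq_nonneg (y - t)]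
            nlinarith [mul_le_mul_of_nonneg_left h5 hu0]
      _ = ∫ z, (u (π z) * (1 - w (π z) / 2)) * ((c.A m (G k) : BL2 ζ) : Z → ℝ) z ^ 2 ∂ζ
          + ∫ z, (u (π z) * (w (π z) / 2)) * (g : Z → ℝ) z ^ 2 ∂ζ := integral_add i1 i2
      _ ≤ ∫ x, u x * (1 - w x / 2) ∂μ + ∫ x, u x * (w x / 2) ∂μ := add_le_add e1 e2
      _ = ∫ x, u x ∂μ := by
          rw [← integral_add j1 j2]
          refine integral_congr_ae (Filter.Eventually.of_forall fun x => ?_)
          change u x * (1 - w x / 2) + u x * (w x / 2) = u x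
          ring

end Pool.Agent.SZ
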