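import Mathlib
import Pool.Agent.SZ.SDefs

/-!
# SZ S06: the abstract operator inequalities (60 min)

`K := scK Pi Bi = Pi Bi Pi`.  All statements are in a semidefinite space, pointwise identities of vectors are exact.
PROOFS.  `B^-1` symmetric: with `x := Bi g`, `y := Bi h`: `<Bi g, h> = <x, Pi y + D y + k y> = <Pi x + D x + k x, y> = <g, Bi h>`.
`K` symmetric; `<K g, g> = <Bi (Pi g), Pi g> = <x, Pi x + D x + k x> >= |Pi x|^2 >= 0` with `x := Bi (Pi g)`.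
`Pos (1 - K)`: moreover `<K g, g> = <x, Pi g> = <Pi x, Pi g> <= |Pi x| |Pi g|` and `|Pi x|^2 <= <K g, g>`, hence
`<K g, g> <= |Pi g|^2 <= <g, g>` (`|Pi g|^2 = <Pi g, g> <= |Pi g| |g|`).
`K Pi = Pi K = K`.  `Pi_F`: for `n >= 1`: `Pi F_n = Pi Bi Pi K^(n-1) f = K^n f = K^n (Pi f)`.
`d_eq`: `inv1` with `g = Pi K^(n-1) f`: `d_n = Pi K^(n-1) f - Pi F_n = K^(n-1) (Pi f) - K^n (Pi f)` (`Pi K^(n-1) f =
K^(n-1) Pi f`: for `n = 1` trivial).
With `x := Pi f`, `e(n) = <d_n, F_n> = <Pi d_n, F_n> = <d_n, Pi F_n> = <(1-K) K^(n-1) x, K^n x> = <(1-K) K^(2n-1) x, x>`.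
All polynomials in `K` with the factors `K, 1-K` are positive (`PSForm.Pos.mul`).
-/

set_option autoImplicit false
set_option linter.unusedSectionVars false
set_option linter.unusedVariables false

namespace Pool.Agent.SZ

open Pool.Agent.IRS MeasureTheory Set Filter Topology

section
variable {V : Type*} [AddCommGroup V] [Module ℝ V] {F : PSForm V} {D Pi Bi : Module.End ℝ V}
  {κ : ℝ} (h : SCR F D Pi Bi κ)
include h

theorem sc_Bi_symm (x y : V) : F.B (Bi x) y = F.B x (Bi y) := by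
  have h1 := h.inv1 x
  have h2 := h.inv1 y
  have e1 : F.B (Bi x) y = F.B (Bi x) (Pi (Bi y) + D (Bi y) + κ • Bi y) := by rw [h2]
  have e2 : F.B x (Bi y) = F.B (Pi (Bi x) + D (Bi x) + κ • Bi x) (Bi y) := by rw [h1]
  rw [e1, e2]
  simp only [map_add, map_smul, LinearMap.add_apply, LinearMap.smul_apply, smul_eq_mul]
  rw [h.hPi.symm, h.hD.symm]

theorem sc_K_apply (g : V) : scK Pi Bi g = Pi (Bi (Pi g)) := rfl

theorem sc_K_symm (x y : V) : F.B (scK Pi Bi x) y = F.B x (scK Pi Bi y) := by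
  rw [sc_K_apply h, sc_K_apply h, h.hPi.symm, sc_Bi_symm h, h.hPi.symm]

theorem sc_K_low (g : V) :
    F.B (Pi (Bi (Pi g))) (Pi (Bi (Pi g))) ≤ F.B (scK Pi Bi g) g := by
  rw [sc_K_apply h, h.hPi.symm _ g]
  have h2 := h.inv1 (Pi g)
  have e1 : F.B (Bi (Pi g)) (Pi g)
      = F.B (Bi (Pi g)) (Pi (Bi (Pi g)) + D (Bi (Pi g)) + κ • Bi (Pi g)) := by rw [h2]
  rw [e1]
  simp only [map_add, map_smul, smul_eq_mul]
  have e2 : F.B (Bi (Pi g)) (Pi (Bi (Pi g))) = F.B (Pi (Bi (Pi g))) (Pi (Bi (Pi g))) := by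
    rw [h.hPi.symm, h.hid]
  have e3 : 0 ≤ F.B (Bi (Pi g)) (D (Bi (Pi g))) := by
    rw [← h.hD.symm]; exact h.hD.nonneg _
  have e4 : 0 ≤ κ * F.B (Bi (Pi g)) (Bi (Pi g)) := mul_nonneg h.hκ.le (F.nonneg _)
  linarith

theorem sc_Pi_le (g : V) : F.B (Pi g) (Pi g) ≤ F.B g g := by
  have e1 : F.B (Pi g) g = F.B (Pi g) (Pi g) := by
    rw [← h.hPi.symm, h.hid]
  have e2 := F.cs (Pi g) g
  rw [e1] at e2
  have e3 := F.nonneg (Pi g)
  by_contra hc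
  push Not at hc
  have e4 : 0 < F.B (Pi g) (Pi g) := lt_of_le_of_lt (F.nonneg g) hc
  nlinarith

theorem sc_K_le (g : V) : F.B (scK Pi Bi g) g ≤ F.B (Pi g) (Pi g) := by
  have e1 := sc_K_low h g
  have e2 : F.B (scK Pi Bi g) g = F.B (Pi (Bi (Pi g))) (Pi g) := by
    rw [sc_K_apply h, ← h.hPi.symm (Pi (Bi (Pi g))) g, h.hid]
  have e3 := F.cs (Pi (Bi (Pi g))) (Pi g)
  rw [← e2] at e3
  have e4 := F.nonneg (Pi (Bi (Pi g)))
  have e5 := F.nonneg (Pi g)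
  by_contra hc
  push Not at hc
  have e6 : 0 < F.B (scK Pi Bi g) g := lt_of_le_of_lt e5 hc
  nlinarith [mul_le_mul_of_nonneg_right e1 e5]

theorem sc_K_pos : F.Pos (scK Pi Bi) ∧ F.Pos (1 - scK Pi Bi) := by
  refine ⟨⟨sc_K_symm h, fun x => ?_⟩, ⟨fun x y => ?_, fun x => ?_⟩⟩
  · exact (F.nonneg _).trans (sc_K_low h x)
  · simp only [LinearMap.sub_apply, map_sub, Module.End.one_apply]
    rw [sc_K_symm h]
  · simp only [LinearMap.sub_apply, map_sub, Module.End.one_apply]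
    have e1 := sc_K_le h x
    have e2 := sc_Pi_le h x
    linarith

theorem sc_K_Pi (g : V) : scK Pi Bi (Pi g) = scK Pi Bi g := by
  rw [sc_K_apply h, sc_K_apply h, h.hid]

theorem sc_Pi_K (g : V) : Pi (scK Pi Bi g) = scK Pi Bi g := by
  rw [sc_K_apply h, h.hid]

theorem sc_pow_Pi (n : ℕ) (g : V) : (scK Pi Bi ^ (n + 1)) (Pi g) = (scK Pi Bi ^ (n + 1)) g := by
  rw [pow_succ, Module.End.mul_apply, Module.End.mul_apply, sc_K_Pi h]

theorem sc_Pi_pow (n : ℕ) (g : V) : Pi ((scK Pi Bi ^ n) (Pi g)) = (scK Pi Bi ^ n) (Pi g) := by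
  rcases n with _ | n
  · simp only [pow_zero, Module.End.one_apply]
    exact h.hid g
  · rw [pow_succ', Module.End.mul_apply, sc_Pi_K h]

theorem sc_Pi_pow' (n : ℕ) (g : V) : Pi ((scK Pi Bi ^ n) g) = (scK Pi Bi ^ n) (Pi g) := by
  rcases n with _ | n
  · rfl
  · rw [sc_pow_Pi h, pow_succ', Module.End.mul_apply, sc_Pi_K h]

theorem sc_Pi_F' (f : V) {n : ℕ} (hn : 1 ≤ n) :
    Pi (scF Pi Bi f n) = (scK Pi Bi ^ n) f := by
  obtain ⟨m, rfl⟩ := Nat.exists_eq_add_of_le' hn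
  rw [scF, Nat.add_sub_cancel, pow_succ' _ m, Module.End.mul_apply, sc_K_apply h]

theorem sc_Pi_F (f : V) {n : ℕ} (hn : 1 ≤ n) :
    Pi (scF Pi Bi f n) = (scK Pi Bi ^ n) (Pi f) := by
  obtain ⟨m, rfl⟩ := Nat.exists_eq_add_of_le' hn
  rw [sc_Pi_F' h f hn, sc_pow_Pi h]

theorem sc_d_eq (f : V) {n : ℕ} (hn : 1 ≤ n) :
    scd D Pi Bi κ f n = (scK Pi Bi ^ (n - 1)) (Pi f) - (scK Pi Bi ^ n) (Pi f) := by
  have h1 := h.inv1 (Pi ((scK Pi Bi ^ (n - 1)) f))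
  have h2 : Pi (scF Pi Bi f n) + D (scF Pi Bi f n) + κ • scF Pi Bi f n
      = Pi ((scK Pi Bi ^ (n - 1)) f) := h1
  rw [sc_Pi_F h f hn, sc_Pi_pow' h] at h2
  rw [scd, ← h2]
  abel

theorem sc_Pi_d (f : V) {n : ℕ} (hn : 1 ≤ n) :
    Pi (scd D Pi Bi κ f n) = scd D Pi Bi κ f n := by
  rw [sc_d_eq h f hn, map_sub, sc_Pi_pow h, sc_Pi_pow h]

theorem sc_pow_symm (a b : ℕ) (x y : V) :
    F.B ((scK Pi Bi ^ a) x) ((scK Pi Bi ^ b) y) = F.B ((scK Pi Bi ^ (a + b)) x) y := by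
  induction b generalizing a y with
  | zero => simp
  | succ b ih =>
    rw [pow_succ (scK Pi Bi) b, Module.End.mul_apply, ih, ← sc_K_symm h, ← Module.End.mul_apply,
      ← pow_succ', add_assoc]

theorem sc_e_eq (f : V) {n : ℕ} (hn : 1 ≤ n) :
    sce F D Pi Bi κ f n
      = F.B ((scK Pi Bi ^ (2 * n - 1)) (Pi f)) (Pi f) - F.B ((scK Pi Bi ^ (2 * n)) (Pi f)) (Pi f) := by
  rw [sce, ← sc_Pi_d h f hn, h.hPi.symm, sc_Pi_F h f hn, sc_d_eq h f hn, map_sub,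
    LinearMap.sub_apply, sc_pow_symm h, sc_pow_symm h]
  congr 3
  · congr 1
    congr 1
    omega
  · congr 1
    congr 1
    omega

theorem sc_N_eq (f : V) (n : ℕ) :
    scN F Pi Bi f n = F.B ((scK Pi Bi ^ (2 * n)) (Pi f)) (Pi f) := by
  rw [scN, sc_pow_symm h, two_mul]

end

end Pool.Agent.SZ
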