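import Mathlib
import Pool.Agent.SZ.SDefs
import Pool.Agent.SZ.S06Abs

/-!
# SZ S07: monotonicity and decay (60 min)

Notation: `x := Pi f`, `a_j := F.B (K^j x) x`.  From `sc_K_pos` and `PSForm.Pos.mul`:
`a_j - a_(j+1) = <K^j (1-K) x, x> >= 0`, and `a_j - 2 a_(j+1) + a_(j+2) = <K^j (1-K)^2 x, x> >= 0`.
`sc_e_eq`: `e(n) = a_(2n-1) - a_(2n)`, `sc_N_eq`: `N(n) = a_(2n)`.
PROOFS.  `sc_nonneg`, `sc_anti`: the differences `a_j - a_(j+1)` are nonnegative and decreasing.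
`sc_small`: `2n (a_(2n-1) - a_(2n)) <= sum_{j<2n} (a_j - a_(j+1)) <= a_0 = |Pi f|^2 <= |f|^2`.
`sc_dd`: `|d_(2n)|^2 = <(1-K)^2 K^(4n-2) x, x> = <(1-K) y, K^(2n-1) ...>`: for every `y` and `j < 2n`:
`<(1-K) K^(2n-1) y, y> <= <(1-K) K^j y, y>`, hence `2n <(1-K)K^(2n-1) y, y> <= <y,y>`; as operators
`Pos (1 - 2n (1-K) K^(2n-1))`, multiplied by the commuting positive operator `(1-K) K^(2n-1)` (which is `<= 1`):
`2n <((1-K)K^(2n-1))^2 x, x> <= <(1-K)K^(2n-1) x, x> = e(n)`.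
`sc_drop`: `N(n-1) - N(n) = a_(2n-2) - a_(2n) <= 2 (a_(2n-2) - a_(2n-1)) <= 2 (a_(2n-3) - a_(2n-2)) = 2 e(n-1)`, `n >= 2`.
`sc_first`: `a_0 - a_1 <= <D f, f> + k <f,f>`: with `y := Bi (Pi f)`, `b(u,v) := <Pi u,v> + <D u,v> + k <u,v>`:
`0 <= b(f - y, f - y) = b(f,f) - 2 <Pi f, f> + <Pi f, y>` and `<Pi f, y> = <K f, f> = a_1`, `b(f,f) = <Pi f,f> + <D f,f> + k <f,f>`,
so `a_0 - a_1 = <Pi f,f> - a_1 <= <D f,f> + k <f,f>`; `e(1) = a_1 - a_2 <= a_0 - a_1`, `N(0) - N(1) = a_0 - a_2 <= 2 (a_0 - a_1)`.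
`sc_pair`: `<F_n, Pi f> = <Pi F_n, Pi f> = a_n >= a_(2n) = N(n)`.
-/

set_option autoImplicit false
set_option linter.unusedSectionVars false
set_option linter.unusedVariables false

namespace Pool.Agent.SZ

open Pool.Agent.IRS MeasureTheory Set Filter Topology

section
variable {V : Type*} [AddCommGroup V] [Module ℝ V] {F : PSForm V} {D Pi Bi : Module.End ℝ V}
  {κ : ℝ}

theorem s07_pow_mul {K T : Module.End ℝ V} (hK : F.Pos K) (hK' : F.Pos (1 - K)) (hT : F.Pos T)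
    (hc : Commute K T) (j : ℕ) : F.Pos (K ^ j * T) := by
  induction j with
  | zero => simpa using hT
  | succ j ih =>
    have hcc : Commute K (K ^ j * T) := ((Commute.refl K).pow_right j).mul_right hc
    have := PSForm.Pos.mul hK hK' ih hcc
    rwa [← mul_assoc, ← pow_succ'] at this

theorem s07_pow {K : Module.End ℝ V} (hK : F.Pos K) (hK' : F.Pos (1 - K)) (j : ℕ) :
    F.Pos (K ^ j) := by
  have := s07_pow_mul hK hK' PSForm.Pos.one (Commute.one_right K) j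
  rwa [mul_one] at this

theorem s07_comm (K : Module.End ℝ V) : Commute K (1 - K) :=
  (Commute.one_right K).sub_right (Commute.refl K)

theorem s07_d1 {K : Module.End ℝ V} (hK : F.Pos K) (hK' : F.Pos (1 - K)) (y : V) (j : ℕ) :
    F.B ((K ^ (j + 1)) y) y ≤ F.B ((K ^ j) y) y := by
  have h := (s07_pow_mul hK hK' hK' (s07_comm K) j).nonneg y
  have e : K ^ j * (1 - K) = K ^ j - K ^ (j + 1) := by rw [mul_sub, mul_one, pow_succ]
  rw [e] at h
  simp only [LinearMap.sub_apply, map_sub] at h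
  linarith

theorem s07_d2 {K : Module.End ℝ V} (hK : F.Pos K) (hK' : F.Pos (1 - K)) (y : V) (j : ℕ) :
    F.B ((K ^ (j + 1)) y) y - F.B ((K ^ (j + 2)) y) y
      ≤ F.B ((K ^ j) y) y - F.B ((K ^ (j + 1)) y) y := by
  have h1 : F.Pos ((1 - K) * (1 - K)) := by
    refine PSForm.Pos.mul hK' ?_ hK' (Commute.refl _)
    rwa [sub_sub_cancel]
  have h := (s07_pow_mul hK hK' h1 ((s07_comm K).mul_right (s07_comm K)) j).nonneg y
  have e : K ^ j * ((1 - K) * (1 - K)) = K ^ j - K ^ (j + 1) - (K ^ (j + 1) - K ^ (j + 2)) := by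
    rw [pow_succ, pow_succ, pow_succ]
    noncomm_ring
  rw [e] at h
  simp only [LinearMap.sub_apply, map_sub] at h
  linarith

theorem s07_anti {K : Module.End ℝ V} (hK : F.Pos K) (hK' : F.Pos (1 - K)) (y : V) :
    Antitone (fun j : ℕ => F.B ((K ^ j) y) y) :=
  antitone_nat_of_succ_le fun j => s07_d1 hK hK' y j

theorem s07_danti {K : Module.End ℝ V} (hK : F.Pos K) (hK' : F.Pos (1 - K)) (y : V) :
    Antitone (fun j : ℕ => F.B ((K ^ j) y) y - F.B ((K ^ (j + 1)) y) y) :=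
  antitone_nat_of_succ_le fun j => s07_d2 hK hK' y j

theorem s07_sum {K : Module.End ℝ V} (hK : F.Pos K) (hK' : F.Pos (1 - K)) (y : V) (m : ℕ) :
    ((m : ℝ) + 1) * (F.B ((K ^ m) y) y - F.B ((K ^ (m + 1)) y) y) ≤ F.B y y := by
  have h1 : ∀ m : ℕ, ((m : ℝ) + 1) * (F.B ((K ^ m) y) y - F.B ((K ^ (m + 1)) y) y)
      ≤ F.B y y - F.B ((K ^ (m + 1)) y) y := by
    intro m
    induction m with
    | zero => simp
    | succ m ih =>
      have h2 := s07_d2 hK hK' y m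
      push_cast
      have h3 : ((m : ℝ) + 1) * (F.B ((K ^ (m + 1)) y) y - F.B ((K ^ (m + 2)) y) y)
          ≤ ((m : ℝ) + 1) * (F.B ((K ^ m) y) y - F.B ((K ^ (m + 1)) y) y) :=
        mul_le_mul_of_nonneg_left h2 (by positivity)
      nlinarith
  have h2 := (s07_pow hK hK' (m + 1)).nonneg y
  linarith [h1 m]

variable (h : SCR F D Pi Bi κ)
include h

theorem s07_Pi_le (f : V) : F.B (Pi f) (Pi f) ≤ F.B f f := by
  have h1 := F.nonneg (f - Pi f)
  simp only [map_sub, LinearMap.sub_apply] at h1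
  have h2 : F.B (Pi f) (Pi f) = F.B (Pi f) f := by
    rw [← h.hPi.symm (Pi f) f, h.hid]
  have h3 := F.symm f (Pi f)
  linarith

theorem sc_nonneg (f : V) {n : ℕ} (hn : 1 ≤ n) : 0 ≤ sce F D Pi Bi κ f n := by
  obtain ⟨hK, hK'⟩ := sc_K_pos h
  rw [sc_e_eq h f hn]
  have h1 := s07_d1 hK hK' (Pi f) (2 * n - 1)
  have e : 2 * n - 1 + 1 = 2 * n := by omega
  rw [e] at h1
  linarith

theorem sc_anti (f : V) {n k : ℕ} (hn : 1 ≤ n) (hk : n ≤ k) :
    sce F D Pi Bi κ f k ≤ sce F D Pi Bi κ f n := by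
  obtain ⟨hK, hK'⟩ := sc_K_pos h
  rw [sc_e_eq h f hn, sc_e_eq h f (hn.trans hk)]
  have h1 := s07_danti hK hK' (Pi f) (show 2 * n - 1 ≤ 2 * k - 1 by omega)
  have e : 2 * n - 1 + 1 = 2 * n := by omega
  have e' : 2 * k - 1 + 1 = 2 * k := by omega
  simp only [e, e'] at h1
  exact h1

theorem sc_small (f : V) {n : ℕ} (hn : 1 ≤ n) :
    sce F D Pi Bi κ f n ≤ F.B f f / (2 * n) := by
  obtain ⟨hK, hK'⟩ := sc_K_pos h
  rw [sc_e_eq h f hn]
  have h1 := s07_sum hK hK' (Pi f) (2 * n - 1)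
  have e : 2 * n - 1 + 1 = 2 * n := by omega
  have e2 : ((2 * n - 1 : ℕ) : ℝ) + 1 = 2 * n := by
    have : ((2 * n - 1 + 1 : ℕ) : ℝ) = ((2 * n : ℕ) : ℝ) := by rw [e]
    push_cast at this
    push_cast
    linarith
  rw [e, e2] at h1
  have h2 := s07_Pi_le h f
  have hn0 : (0 : ℝ) < 2 * n := by
    have : (0 : ℝ) < n := by exact_mod_cast hn
    linarith
  rw [le_div_iff₀ hn0]
  linarith

theorem sc_dd (f : V) {n : ℕ} (hn : 1 ≤ n) :
    F.B (scd D Pi Bi κ f (2 * n)) (scd D Pi Bi κ f (2 * n)) ≤ sce F D Pi Bi κ f n / (2 * n) := by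
  obtain ⟨hK, hK'⟩ := sc_K_pos h
  rw [sc_e_eq h f hn, sc_d_eq h f (show 1 ≤ 2 * n by omega)]
  set K := scK Pi Bi with hKd
  set x := Pi f with hx
  have e : 2 * n - 1 + 1 = 2 * n := by omega
  have e2 : ((2 * n - 1 : ℕ) : ℝ) + 1 = 2 * n := by
    have : ((2 * n - 1 + 1 : ℕ) : ℝ) = ((2 * n : ℕ) : ℝ) := by rw [e]
    push_cast at this
    push_cast
    linarith
  have hn1 : (1 : ℝ) ≤ 2 * n := by
    have : (1 : ℝ) ≤ n := by exact_mod_cast hn
    linarith
  set S : Module.End ℝ V := K ^ (2 * n - 1) * (1 - K) with hS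
  have hSa : ∀ y, S y = (K ^ (2 * n - 1)) y - (K ^ (2 * n)) y := by
    intro y
    have : S = K ^ (2 * n - 1) - K ^ (2 * n) := by
      rw [hS, mul_sub, mul_one, ← pow_succ, e]
    rw [this, LinearMap.sub_apply]
  have hSp : F.Pos S := s07_pow_mul hK hK' hK' (s07_comm K) _
  have hle : ∀ y, (2 * n : ℝ) * F.B (S y) y ≤ F.B y y := by
    intro y
    have h1 := s07_sum hK hK' y (2 * n - 1)
    rw [e, e2] at h1
    rw [hSa y]
    simpa only [map_sub, LinearMap.sub_apply] using h1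
  have hT : F.Pos (1 - (2 * n : ℝ) • S) := by
    refine ⟨fun y z => ?_, fun y => ?_⟩
    · simp only [LinearMap.sub_apply, map_sub, Module.End.one_apply, LinearMap.smul_apply, map_smul,
        hSp.symm y z]
    · have := hle y
      simp only [LinearMap.sub_apply, map_sub, Module.End.one_apply, LinearMap.smul_apply, map_smul,
        smul_eq_mul]
      linarith
  have hS1 : F.Pos (1 - S) := by
    refine ⟨fun y z => ?_, fun y => ?_⟩
    · simp only [LinearMap.sub_apply, map_sub, Module.End.one_apply, hSp.symm y z]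
    · have h1 := hle y
      have h2 := hSp.nonneg y
      simp only [LinearMap.sub_apply, map_sub, Module.End.one_apply]
      nlinarith
  have hc : Commute S (1 - (2 * n : ℝ) • S) :=
    (Commute.one_right S).sub_right ((Commute.refl S).smul_right _)
  have h3 := (PSForm.Pos.mul hSp hS1 hT hc).nonneg x
  simp only [Module.End.mul_apply, LinearMap.sub_apply, map_sub, Module.End.one_apply,
    LinearMap.smul_apply, map_smul, smul_eq_mul] at h3
  have h4 : F.B (S (S x)) x = F.B (S x) (S x) := hSp.symm (S x) x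
  rw [h4] at h3
  have h5 : (K ^ (2 * n - 1)) x - (K ^ (2 * n)) x = S x := (hSa x).symm
  rw [h5]
  have h6 : F.B ((K ^ (2 * n - 1)) x) x - F.B ((K ^ (2 * n)) x) x = F.B (S x) x := by
    rw [hSa x, map_sub, LinearMap.sub_apply]
  rw [h6, le_div_iff₀ (by linarith)]
  linarith

theorem sc_drop (f : V) {n : ℕ} (hn : 2 ≤ n) :
    scN F Pi Bi f (n - 1) - scN F Pi Bi f n ≤ 2 * sce F D Pi Bi κ f (n - 1) := by
  obtain ⟨hK, hK'⟩ := sc_K_pos h
  rw [sc_e_eq h f (show 1 ≤ n - 1 by omega), sc_N_eq h f, sc_N_eq h f]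
  obtain ⟨m, rfl⟩ : ∃ m, n = m + 2 := ⟨n - 2, by omega⟩
  have e1 : 2 * (m + 2 - 1) - 1 = 2 * m + 1 := by omega
  have e2 : 2 * (m + 2 - 1) = 2 * m + 1 + 1 := by omega
  have e3 : 2 * (m + 2) = 2 * m + 2 + 2 := by omega
  rw [e1, e2, e3]
  have h1 := s07_d2 hK hK' (Pi f) (2 * m + 1)
  have h2 := s07_d2 hK hK' (Pi f) (2 * m + 2)
  have a1 : 2 * m + 1 + 1 = 2 * m + 2 := rfl
  have a2 : 2 * m + 1 + 2 = 2 * m + 3 := rfl
  have a3 : 2 * m + 2 + 1 = 2 * m + 3 := rfl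
  rw [a1, a2] at h1
  rw [a3] at h2
  rw [a1]
  linarith

theorem sc_first (f : V) : sce F D Pi Bi κ f 1 ≤ F.B (D f) f + κ * F.B f f ∧
    scN F Pi Bi f 0 - scN F Pi Bi f 1 ≤ 2 * (F.B (D f) f + κ * F.B f f) := by
  obtain ⟨hK, hK'⟩ := sc_K_pos h
  have key : F.B (Pi f) (Pi f) - F.B ((scK Pi Bi ^ 1) (Pi f)) (Pi f)
      ≤ F.B (D f) f + κ * F.B f f := by
    set y := Bi (Pi f) with hy
    have h1 := h.inv1 (Pi f)
    rw [← hy] at h1
    have a1 : F.B ((scK Pi Bi ^ 1) (Pi f)) (Pi f) = F.B (Pi f) y := by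
      rw [pow_one]
      have : scK Pi Bi (Pi f) = Pi y := by
        show Pi (Bi (Pi (Pi f))) = Pi y
        rw [h.hid]
      rw [this, h.hPi.symm y (Pi f), h.hid, F.symm]
    have a0 : F.B (Pi f) (Pi f) = F.B (Pi f) f := by
      rw [← h.hPi.symm (Pi f) f, h.hid]
    have hp := h.hPi.nonneg (f - y)
    have hd := h.hD.nonneg (f - y)
    have hn := F.nonneg (f - y)
    have hkn := mul_nonneg h.hκ.le hn
    have b1 : F.B (Pi f) f = F.B (Pi y) f + F.B (D y) f + κ * F.B y f := by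
      have : F.B (Pi f) f = F.B (Pi y + D y + κ • y) f := by rw [h1]
      rw [this]
      simp only [map_add, LinearMap.add_apply, map_smul, LinearMap.smul_apply, smul_eq_mul]
    have b2 : F.B (Pi f) y = F.B (Pi y) y + F.B (D y) y + κ * F.B y y := by
      have : F.B (Pi f) y = F.B (Pi y + D y + κ • y) y := by rw [h1]
      rw [this]
      simp only [map_add, LinearMap.add_apply, map_smul, LinearMap.smul_apply, smul_eq_mul]
    simp only [map_sub, LinearMap.sub_apply] at hp hd hkn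
    have c1 : F.B (Pi f) y = F.B (Pi y) f := by rw [h.hPi.symm f y, F.symm]
    have c2 : F.B (D f) y = F.B (D y) f := by rw [h.hD.symm f y, F.symm]
    have c3 : F.B f y = F.B y f := F.symm _ _
    have hk2 : 0 ≤ κ * F.B f f - 2 * (κ * F.B y f) + κ * F.B y y := by
      have e : κ * F.B f f - 2 * (κ * F.B y f) + κ * F.B y y
          = κ * (F.B f f - F.B f y - (F.B y f - F.B y y)) := by rw [c3]; ring
      rw [e]
      have e' : F.B f f - F.B f y - (F.B y f - F.B y y)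
          = F.B f f - F.B y f - (F.B f y - F.B y y) := by ring
      first
        | exact hkn
        | (rw [e']; exact hkn)
        | (rw [c3] at hkn ⊢; linarith)
    rw [a1, a0]
    linarith
  have d0 := s07_d2 hK hK' (Pi f) 0
  have e0 : F.B ((scK Pi Bi ^ 0) (Pi f)) (Pi f) = F.B (Pi f) (Pi f) := by simp
  rw [e0, zero_add, zero_add] at d0
  refine ⟨?_, ?_⟩
  · rw [sc_e_eq h f le_rfl]
    have : 2 * 1 - 1 = 1 := rfl
    rw [this, mul_one]
    linarith
  · rw [sc_N_eq h f, sc_N_eq h f, mul_zero, mul_one, e0]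
    linarith

theorem sc_pair (f : V) {n : ℕ} (hn : 1 ≤ n) :
    scN F Pi Bi f n ≤ F.B (scF Pi Bi f n) (Pi f) := by
  obtain ⟨hK, hK'⟩ := sc_K_pos h
  rw [sc_N_eq h f]
  have h1 : F.B (scF Pi Bi f n) (Pi f) = F.B ((scK Pi Bi ^ n) (Pi f)) (Pi f) := by
    rw [← sc_Pi_F h f hn, h.hPi.symm, h.hid]
  rw [h1]
  exact s07_anti hK hK' (Pi f) (show n ≤ 2 * n by omega)

end

end Pool.Agent.SZ
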