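import Mathlib
import Pool.Agent.SZ.SDefs
import Pool.Agent.SZ.S01Neu
import Pool.Agent.SZ.S02Mk

/-!
# SZ S12: existence and monotonicity of the hitting function (50 min)

PROOFS.  `max_pr` (maximum principle): if `h : BL2 mu` satisfies `h >= 0` on `Y` and `(1+alpha) h >= A' h` off `Y` then
`h >= 0`: `h` is bounded, let `I := inf h` (`iInf`, or: for every lower bound `-M` of `h` with `M >= 0`, `-M/(1+alpha)` is
again a lower bound: off `Y`, `(1+alpha) h >= A' h >= -M`; iterate: `-M/(1+alpha)^k` is a lower bound for every `k`; let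
`k -> oo`).
`hit_exists`: `L := (1+alpha)^-1 mulX id (1_{Y^c}) A'` on `BL2 mu`, `q = (1+alpha)^-1`, `neumann` gives `N`;
`v := N (L 1_Y)`, so `v = L 1_Y + L v`, `u := 1_Y + v`: `v = 0` on `Y`, and off `Y`: `(1+alpha) u = A'(1_Y + v) = A' u`.
`u >= 0` by `max_pr`, `1 - u >= 0` by `max_pr` (off `Y`: `(1+alpha)(1-u) = 1 + alpha - A' u >= A'(1-u)`).
`hit_mono`: `h := u' - u`: `0` on `Y`; off `Y`: `(1+alpha') (u'-u) = A' u' - (1+alpha') u >= A' u' - (1+alpha) u = A'(u'-u)`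
since `alpha' <= alpha`, `u >= 0`; `max_pr` with `alpha'`.
-/

set_option autoImplicit false
set_option linter.unusedSectionVars false
set_option linter.unusedVariables false

namespace Pool.Agent.SZ

open Pool.Agent.IRS MeasureTheory Set Filter Topology

variable {Γ : Type*} [Group Γ] [MeasurableSpace Γ] [MeasurableInv Γ] {X : Type*}
  [MeasurableSpace X] {μ : Measure X} [IsProbabilityMeasure μ]

theorem max_pr (c' : PAct Γ μ) (m : Measure Γ) [IsProbabilityMeasure m] (Y : Set X) {α : ℝ}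
    (hα : 0 < α) (h : BL2 μ) (h1 : ∀ x ∈ Y, 0 ≤ (h : X → ℝ) x)
    (h2 : ∀ x, x ∉ Y → ((c'.A m h : BL2 μ) : X → ℝ) x ≤ (1 + α) * (h : X → ℝ) x) (x : X) :
    0 ≤ (h : X → ℝ) x := by
  obtain ⟨M, hM⟩ := bbdd h
  have hM0 : 0 ≤ M := (abs_nonneg _).trans (hM x)
  have h5 : 0 < 1 + α := by linarith
  have step : ∀ k : ℕ, ∀ z, -(M / (1 + α) ^ k) ≤ (h : X → ℝ) z := by
    intro k
    induction k with
    | zero => intro z; simpa using neg_le_of_abs_le (hM z)
    | succ k ih =>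
      intro z
      by_cases hz : z ∈ Y
      · exact (neg_nonpos.2 (by positivity)).trans (h1 z hz)
      · have h3 : -(M / (1 + α) ^ k) ≤ ((c'.A m h : BL2 μ) : X → ℝ) z := by
          have h6 := A_mono c' m (f := cstB μ (-(M / (1 + α) ^ k))) (g := h)
            (fun z => by rw [cstB_apply]; exact ih z) z
          rw [A_cst, cstB_apply] at h6
          exact h6
        have h4 : -(M / (1 + α) ^ k) ≤ (1 + α) * (h : X → ℝ) z := h3.trans (h2 z hz)
        have h7 : -(M / (1 + α) ^ (k+1)) = (-(M / (1 + α) ^ k)) / (1 + α) := by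
          rw [pow_succ]; field_simp
        rw [h7, div_le_iff₀ h5]; linarith
  have hlim : Tendsto (fun k : ℕ => -(M / (1 + α) ^ k)) atTop (𝓝 (-0)) :=
    (Tendsto.div_atTop tendsto_const_nhds
      (tendsto_pow_atTop_atTop_of_one_lt (by linarith))).neg
  have h8 := le_of_tendsto' hlim (fun k => step k x)
  simpa using h8

lemma mulX_nrm_le (w g : BL2 μ) (hw : ∀ x, |(w : X → ℝ) x| ≤ 1) :
    (frm μ).nrm (mulX id measurable_id w g) ≤ (frm μ).nrm g := by
  unfold PSForm.nrm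
  apply Real.sqrt_le_sqrt
  rw [frm_self, frm_self]
  refine integral_mono (bsq _) (bsq _) fun z => ?_
  simp only [mulX_apply, id]
  rw [mul_pow]
  have h1 : (w : X → ℝ) z ^ 2 ≤ 1 := by
    rw [← sq_abs]
    exact pow_le_one₀ (abs_nonneg _) (hw z)
  have h2 := mul_le_mul_of_nonneg_right h1 (sq_nonneg ((g : X → ℝ) z))
  linarith

theorem hit_exists (c' : PAct Γ μ) (m : Measure Γ) [IsProbabilityMeasure m] {Y : Set X}
    (hY : MeasurableSet Y) {α : ℝ} (hα : 0 < α) : ∃ u : BL2 μ, IsHit c' m Y α u := by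
  have h5 : 0 < 1 + α := by linarith
  have hq0 : 0 ≤ (1 + α)⁻¹ := by positivity
  have hq : (1 + α)⁻¹ < 1 := inv_lt_one_of_one_lt₀ (by linarith)
  set w : BL2 μ := indB μ Yᶜ hY.compl with hw
  have hw1 : ∀ x, |(w : X → ℝ) x| ≤ 1 := by
    intro x
    rw [hw, indB_apply]
    by_cases hx : x ∈ Yᶜ
    · rw [Set.indicator_of_mem hx]; simp
    · rw [Set.indicator_of_notMem hx]; simp
  have hwon : ∀ x ∈ Y, (w : X → ℝ) x = 0 := by
    intro x hx
    rw [hw, indB_apply, Set.indicator_of_notMem (fun (h : x ∈ Yᶜ) => h hx)]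
  have hwoff : ∀ x, x ∉ Y → (w : X → ℝ) x = 1 := by
    intro x hx
    rw [hw, indB_apply, Set.indicator_of_mem (by exact hx)]
  set L : Module.End ℝ (BL2 μ) := (1 + α)⁻¹ • (mulX id measurable_id w * c'.A m) with hL
  have hLa : ∀ (f : BL2 μ) (z : X), ((L f : BL2 μ) : X → ℝ) z
      = (1 + α)⁻¹ * ((w : X → ℝ) z * ((c'.A m f : BL2 μ) : X → ℝ) z) := fun f z => rfl
  obtain ⟨N, hN1, -, -⟩ := neumann L hq0 hq
    (by
      intro f M hM z
      rw [hLa, abs_mul, abs_mul, abs_of_nonneg hq0]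
      have h1 := A_sup c' m hM z
      have h2 : |(w : X → ℝ) z| * |((c'.A m f : BL2 μ) : X → ℝ) z| ≤ 1 * M :=
        mul_le_mul (hw1 z) h1 (abs_nonneg _) zero_le_one
      rw [one_mul] at h2
      exact mul_le_mul_of_nonneg_left h2 hq0)
    (by
      intro f
      change (frm μ).nrm ((1 + α)⁻¹ • (mulX id measurable_id w (c'.A m f))) ≤ _
      rw [PSForm.nrm_smul, abs_of_nonneg hq0]
      exact mul_le_mul_of_nonneg_left
        ((mulX_nrm_le w _ hw1).trans (A_nrm c' m f)) hq0)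
  set one : BL2 μ := indB μ Y hY with hone
  have hone_on : ∀ x ∈ Y, (one : X → ℝ) x = 1 := by
    intro x hx
    rw [hone, indB_apply, Set.indicator_of_mem hx]
  have hone_off : ∀ x, x ∉ Y → (one : X → ℝ) x = 0 := by
    intro x hx
    rw [hone, indB_apply, Set.indicator_of_notMem hx]
  set v : BL2 μ := N (L one) with hv
  have hv1 : v = L (one + v) := by
    rw [map_add, hv]
    exact hN1 (L one)
  have hva : ∀ z, (v : X → ℝ) z
      = (1 + α)⁻¹ * ((w : X → ℝ) z * ((c'.A m (one + v) : BL2 μ) : X → ℝ) z) := by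
    intro z
    rw [← hLa, ← hv1]
  have hua : ∀ z, ((one + v : BL2 μ) : X → ℝ) z = (one : X → ℝ) z + (v : X → ℝ) z := fun z => rfl
  have hon : ∀ x ∈ Y, ((one + v : BL2 μ) : X → ℝ) x = 1 := by
    intro x hx
    rw [hua, hone_on x hx, hva, hwon x hx]; simp
  have hoff : ∀ x, x ∉ Y → (1 + α) * ((one + v : BL2 μ) : X → ℝ) x
      = ((c'.A m (one + v) : BL2 μ) : X → ℝ) x := by
    intro x hx
    rw [hua, hone_off x hx, hva, hwoff x hx, zero_add, one_mul, ← mul_assoc,
      mul_inv_cancel₀ h5.ne', one_mul]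
  have hnn : ∀ x, 0 ≤ ((one + v : BL2 μ) : X → ℝ) x := by
    refine max_pr c' m Y hα (one + v) (fun x hx => by rw [hon x hx]; exact zero_le_one)
      (fun x hx => (hoff x hx).ge)
  have hle : ∀ x, 0 ≤ ((cstB μ 1 - (one + v) : BL2 μ) : X → ℝ) x := by
    have hsub : ∀ x, ((cstB μ 1 - (one + v) : BL2 μ) : X → ℝ) x
        = 1 - ((one + v : BL2 μ) : X → ℝ) x := fun x => rfl
    refine max_pr c' m Y hα (cstB μ 1 - (one + v)) (fun x hx => ?_) (fun x hx => ?_)
    · rw [hsub, hon x hx]; simp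
    · rw [hsub, map_sub, A_cst]
      have h9 : ((cstB μ 1 - c'.A m (one + v) : BL2 μ) : X → ℝ) x
          = 1 - ((c'.A m (one + v) : BL2 μ) : X → ℝ) x := rfl
      rw [h9, ← hoff x hx]
      linarith
  refine ⟨one + v, hnn, fun x => ?_, hon, hoff⟩
  have h10 : ((cstB μ 1 - (one + v) : BL2 μ) : X → ℝ) x
        = 1 - ((one + v : BL2 μ) : X → ℝ) x := rfl
  have h11 := hle x
  rw [h10] at h11
  linarith

theorem hit_mono (c' : PAct Γ μ) (m : Measure Γ) [IsProbabilityMeasure m] {Y : Set X}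
    {α α' : ℝ} (hα' : 0 < α') (hle : α' ≤ α) {u u' : BL2 μ} (hu : IsHit c' m Y α u)
    (hu' : IsHit c' m Y α' u') (x : X) : (u : X → ℝ) x ≤ (u' : X → ℝ) x := by
  have hsub : ∀ x, ((u' - u : BL2 μ) : X → ℝ) x = (u' : X → ℝ) x - (u : X → ℝ) x := fun x => rfl
  have h := max_pr c' m Y hα' (u' - u)
    (fun x hx => by rw [hsub, hu.on x hx, hu'.on x hx, sub_self])
    (fun x hx => by
      rw [map_sub]
      have h1 : ((c'.A m u' - c'.A m u : BL2 μ) : X → ℝ) x
          = ((c'.A m u' : BL2 μ) : X → ℝ) x - ((c'.A m u : BL2 μ) : X → ℝ) x := rfl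
      rw [h1, hsub, ← hu.off x hx, ← hu'.off x hx]
      have h2 := hu.nn x
      nlinarith) x
  rw [hsub] at h
  linarith

end Pool.Agent.SZ
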