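import Mathlib
import Pool.Agent.SZ.SDefs
import Pool.Agent.SZ.S12Hit

/-!
# SZ S13: the energy of the hitting function and its summability (50 min)

PROOFS.  `chi := 1 - u`, `chi' := 1 - u'` (members of `BL2 mu`).  `(1-A')chi = A'u - u` (as `A' 1 = 1`, `A_cst`); off `Y` it is
`alpha u`; on `Y` `chi = 0`.  `hit_energy`: `<(1-A')chi, chi> = int alpha u (1-u)` (pointwise equality of integrands).
`hit_cross`: `<(1-A')chi, chi'> = alpha int u (1-u')` and `<(1-A')chi', chi> = alpha' int u' (1-u)`; `A'` is symmetric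
(`A_symm`).
`hit_sigma` (`alpha' = alpha/2`): `int u'(1-u) = 2 int u (1-u')` by `hit_cross`, so `int u' - int u = int u'(1-u) - int u(1-u')
= int u(1-u')`, and `int u(1-u) <= int u'(1-u) = 2 (int u' - int u)` (`hit_mono`).
`hit_sum`: choose `u k` by `hit_exists` for `alpha = M/2^k`; `sigma k := 2 (U(k+1) - U(k))`, `U k := int u_k` is monotone
(`hit_mono`) with values in `[0,1]`; so `sigma k >= 0` and the partial sums are `<= 2` (`summable_of_sum_range_le`).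
-/

set_option autoImplicit false
set_option linter.unusedSectionVars false
set_option linter.unusedVariables false

namespace Pool.Agent.SZ

open Pool.Agent.IRS MeasureTheory Set Filter Topology

variable {Γ : Type*} [Group Γ] [MeasurableSpace Γ] [MeasurableInv Γ] {X : Type*}
  [MeasurableSpace X] {μ : Measure X} [IsProbabilityMeasure μ]

theorem hit_D_apply (c' : PAct Γ μ) (m : Measure Γ) [IsProbabilityMeasure m] (u : BL2 μ) (x : X) :
    ((((1 - c'.A m) (cstB μ 1 - u)) : BL2 μ) : X → ℝ) x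
      = ((c'.A m u : BL2 μ) : X → ℝ) x - (u : X → ℝ) x := by
  have e1 : (1 - c'.A m) (cstB μ 1 - u) = c'.A m u - u := by
    rw [LinearMap.sub_apply, Module.End.one_apply, map_sub, A_cst]
    abel
  rw [e1]
  rfl

theorem hit_B (c' : PAct Γ μ) (m : Measure Γ) [IsProbabilityMeasure m]
    {Y : Set X} {α α' : ℝ} {u u' : BL2 μ} (hu : IsHit c' m Y α u) (hu' : IsHit c' m Y α' u') :
    (frm μ).B ((1 - c'.A m) (cstB μ 1 - u)) (cstB μ 1 - u')
      = α * ∫ x, (u : X → ℝ) x * (1 - (u' : X → ℝ) x) ∂μ := by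
  rw [frm_apply, ← integral_const_mul]
  congr 1
  funext x
  rw [hit_D_apply]
  have e2 : ((cstB μ 1 - u' : BL2 μ) : X → ℝ) x = 1 - (u' : X → ℝ) x := rfl
  rw [e2]
  by_cases hx : x ∈ Y
  · rw [hu'.on x hx]; ring
  · rw [← hu.off x hx]; ring

theorem hit_energy (c' : PAct Γ μ) (m : Measure Γ) [IsProbabilityMeasure m] {Y : Set X}
    {α : ℝ} {u : BL2 μ} (hu : IsHit c' m Y α u) :
    (frm μ).B ((1 - c'.A m) (cstB μ 1 - u)) (cstB μ 1 - u)
      = α * ∫ x, (u : X → ℝ) x * (1 - (u : X → ℝ) x) ∂μ := hit_B c' m hu hu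

theorem hit_cross (c' : PAct Γ μ) (m : Measure Γ) [IsProbabilityMeasure m] (hm : nui m = m)
    {Y : Set X} {α α' : ℝ} {u u' : BL2 μ} (hu : IsHit c' m Y α u) (hu' : IsHit c' m Y α' u') :
    α * ∫ x, (u : X → ℝ) x * (1 - (u' : X → ℝ) x) ∂μ
      = α' * ∫ x, (u' : X → ℝ) x * (1 - (u : X → ℝ) x) ∂μ := by
  rw [← hit_B c' m hu hu', ← hit_B c' m hu' hu, (frm μ).symm ((1 - c'.A m) (cstB μ 1 - u'))]
  simp only [LinearMap.sub_apply, Module.End.one_apply, map_sub, A_symm c' m hm]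
  ring

theorem hit_int (u : BL2 μ) : Integrable (fun x => (u : X → ℝ) x) μ := by
  obtain ⟨M, hM⟩ := bbdd u
  exact integrable_of_bdd μ (bmeas u) hM

theorem hit_int_mul (u u' : BL2 μ) :
    Integrable (fun x => (u : X → ℝ) x * (1 - (u' : X → ℝ) x)) μ := by
  have e : (fun x => (u : X → ℝ) x * (1 - (u' : X → ℝ) x))
      = fun x => (u : X → ℝ) x - (u : X → ℝ) x * (u' : X → ℝ) x := by funext x; ring
  rw [e]
  exact (hit_int u).sub (bmul u u')

theorem hit_sigma (c' : PAct Γ μ) (m : Measure Γ) [IsProbabilityMeasure m] (hm : nui m = m)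
    {Y : Set X} {α : ℝ} (hα : 0 < α) {u u' : BL2 μ} (hu : IsHit c' m Y α u)
    (hu' : IsHit c' m Y (α / 2) u') :
    ∫ x, (u : X → ℝ) x * (1 - (u : X → ℝ) x) ∂μ
      ≤ 2 * (∫ x, (u' : X → ℝ) x ∂μ - ∫ x, (u : X → ℝ) x ∂μ) := by
  have h1 := hit_cross c' m hm hu hu'
  have h2 : ∫ x, (u' : X → ℝ) x * (1 - (u : X → ℝ) x) ∂μ
      = 2 * ∫ x, (u : X → ℝ) x * (1 - (u' : X → ℝ) x) ∂μ := by
    have : α * (∫ x, (u' : X → ℝ) x * (1 - (u : X → ℝ) x) ∂μ)
        = α * (2 * ∫ x, (u : X → ℝ) x * (1 - (u' : X → ℝ) x) ∂μ) := by linarith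
    exact mul_left_cancel₀ hα.ne' this
  have h3 : ∫ x, (u' : X → ℝ) x ∂μ - ∫ x, (u : X → ℝ) x ∂μ
      = ∫ x, (u' : X → ℝ) x * (1 - (u : X → ℝ) x) ∂μ
        - ∫ x, (u : X → ℝ) x * (1 - (u' : X → ℝ) x) ∂μ := by
    rw [← integral_sub (hit_int u') (hit_int u), ← integral_sub (hit_int_mul u' u)
      (hit_int_mul u u')]
    congr 1
    funext x
    ring
  have h4 : ∫ x, (u : X → ℝ) x * (1 - (u : X → ℝ) x) ∂μ
      ≤ ∫ x, (u' : X → ℝ) x * (1 - (u : X → ℝ) x) ∂μ := by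
    refine integral_mono (hit_int_mul u u) (hit_int_mul u' u) (fun x => ?_)
    have e1 := hit_mono c' m (by linarith) (by linarith) hu hu' x
    have e2 := hu.le x
    exact mul_le_mul_of_nonneg_right e1 (by linarith)
  linarith

theorem hit_sum (c' : PAct Γ μ) (m : Measure Γ) [IsProbabilityMeasure m] (hm : nui m = m)
    {Y : Set X} (hY : MeasurableSet Y) {M : ℝ} (hM : 0 < M) :
    ∃ (u : ℕ → BL2 μ) (σ : ℕ → ℝ), (∀ k, IsHit c' m Y (M / 2 ^ k) (u k)) ∧ (∀ k, 0 ≤ σ k) ∧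
      (∀ k, ∫ x, (u k : X → ℝ) x * (1 - (u k : X → ℝ) x) ∂μ ≤ σ k) ∧ Summable σ := by
  have hpos : ∀ k : ℕ, 0 < M / 2 ^ k := fun k => by positivity
  choose u hu using fun k : ℕ => hit_exists c' m hY (hpos k)
  have hu2 : ∀ k, IsHit c' m Y (M / 2 ^ k / 2) (u (k + 1)) := by
    intro k
    have e : M / 2 ^ k / 2 = M / 2 ^ (k + 1) := by rw [pow_succ]; field_simp
    rw [e]
    exact hu (k + 1)
  have hmono : ∀ k, ∫ x, (u k : X → ℝ) x ∂μ ≤ ∫ x, (u (k + 1) : X → ℝ) x ∂μ := by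
    intro k
    refine integral_mono (hit_int _) (hit_int _) (fun x => ?_)
    exact hit_mono c' m (half_pos (hpos k)) (half_le_self (hpos k).le) (hu k) (hu2 k) x
  refine ⟨u, fun k => 2 * (∫ x, (u (k + 1) : X → ℝ) x ∂μ - ∫ x, (u k : X → ℝ) x ∂μ), hu,
    fun k => ?_, fun k => hit_sigma c' m hm (hpos k) (hu k) (hu2 k), ?_⟩
  · have := hmono k
    linarith
  · refine summable_of_sum_range_le (c := 2) (fun k => ?_) (fun n => ?_)
    · have := hmono k
      linarith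
    · rw [← Finset.mul_sum, Finset.sum_range_sub (fun k => ∫ x, (u k : X → ℝ) x ∂μ)]
      have h1 : ∫ x, (u n : X → ℝ) x ∂μ ≤ 1 := by
        have : ∫ x, (u n : X → ℝ) x ∂μ ≤ ∫ _, (1 : ℝ) ∂μ :=
          integral_mono (hit_int _) (integrable_const _) (fun x => (hu n).le x)
        simpa using this
      have h2 : 0 ≤ ∫ x, (u 0 : X → ℝ) x ∂μ := integral_nonneg (fun x => (hu 0).nn x)
      linarith

end Pool.Agent.SZ
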