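import Mathlib
import Pool.Agent.SZ.SDefs
import Pool.Agent.SZ.S02Mk

/-!
# SZ S14: the Hopf maximal ergodic theorem for the Markov operator (50 min)

PROOF (Garsia).  `P := c'.A m` (positive, linear, `int P f dmu = int f dmu`: Fubini and invariance, or `A_symm`-free: for
each `g`, `int f(g x) = int f`).  Let `S_n := sum_{j<n} P^j h`, `M := max(0, S_1, ..., S_N)` (a member of `BL2 mu`: it is
measurable and bounded; define it by recursion `M_0 = 0`, `M_{n+1} = max (M_n) (S_{n+1})`).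
For `1 <= n <= N`: `S_n = h + P S_{n-1} <= h + P M` (`S_{n-1} <= M`; `S_0 = 0 <= M`; positivity `A_mono`).  On
`E = {M > 0}` (`= {exists n, 1 <= n <= N, S_n > 0}`) `M = max_{1<=n<=N} S_n <= h + P M`, so
`int_E h >= int_E M - int_E P M >= int M - int P M = 0` (`M = 0` off `E`, `P M >= 0`).
-/

set_option autoImplicit false
set_option linter.unusedSectionVars false
set_option linter.unusedVariables false

namespace Pool.Agent.SZ

open Pool.Agent.IRS MeasureTheory Set Filter Topology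

variable {Γ : Type*} [Group Γ] [MeasurableSpace Γ] [MeasurableInv Γ] {X : Type*}
  [MeasurableSpace X] {μ : Measure X} [IsProbabilityMeasure μ]

theorem A_int (c' : PAct Γ μ) (m : Measure Γ) [IsProbabilityMeasure m] (f : BL2 μ) :
    ∫ x, ((c'.A m f : BL2 μ) : X → ℝ) x ∂μ = ∫ x, (f : X → ℝ) x ∂μ := by
  obtain ⟨M, hM⟩ := bbdd f
  have h1 : Integrable (Function.uncurry fun (x : X) (g : Γ) => (f : X → ℝ) (c'.τ g x))
      (μ.prod m) := by
    refine integrable_of_bdd _ ?_ (M := M) fun p => hM _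
    exact (c'.meas_comp (bmeas f)).comp measurable_swap
  calc ∫ x, ((c'.A m f : BL2 μ) : X → ℝ) x ∂μ
      = ∫ x, ∫ g, (f : X → ℝ) (c'.τ g x) ∂m ∂μ := rfl
    _ = ∫ g, ∫ x, (f : X → ℝ) (c'.τ g x) ∂μ ∂m := integral_integral_swap h1
    _ = ∫ g, ∫ x, (f : X → ℝ) x ∂μ ∂m := by
        congr 1; ext g; exact c'.integral_comp g (bmeas f)
    _ = ∫ x, (f : X → ℝ) x ∂μ := by simp

/-- The maximum of two members. -/
noncomputable def hopfMax (f g : BL2 μ) : BL2 μ :=
  ⟨fun x => max ((f : X → ℝ) x) ((g : X → ℝ) x), (bmeas f).max (bmeas g), by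
    obtain ⟨M, hM⟩ := bbdd f
    obtain ⟨N, hN⟩ := bbdd g
    refine ⟨max M N, fun x => ?_⟩
    exact abs_max_le_max_abs_abs.trans (max_le_max (hM x) (hN x)), by
    obtain ⟨M, hM⟩ := bbdd f
    obtain ⟨N, hN⟩ := bbdd g
    refine integrable_of_bdd μ (((bmeas f).max (bmeas g)).pow_const 2) (M := (max M N) ^ 2)
      fun x => ?_
    rw [abs_pow]
    exact pow_le_pow_left₀ (abs_nonneg _)
      (abs_max_le_max_abs_abs.trans (max_le_max (hM x) (hN x))) 2⟩

lemma hopfMax_apply (f g : BL2 μ) (x : X) :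
    ((hopfMax f g : BL2 μ) : X → ℝ) x = max ((f : X → ℝ) x) ((g : X → ℝ) x) := rfl

/-- The partial sums. -/
noncomputable def hopfS (P : Module.End ℝ (BL2 μ)) (h : BL2 μ) (n : ℕ) : BL2 μ :=
  ∑ j ∈ Finset.range n, (P ^ j) h

/-- The maximal function. -/
noncomputable def hopfM (P : Module.End ℝ (BL2 μ)) (h : BL2 μ) : ℕ → BL2 μ
  | 0 => 0
  | n + 1 => hopfMax (hopfM P h n) (hopfS P h (n + 1))

omit [IsProbabilityMeasure μ] in
lemma hopf_coe_sum (F : ℕ → BL2 μ) (s : Finset ℕ) (x : X) :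
    ((∑ j ∈ s, F j : BL2 μ) : X → ℝ) x = ∑ j ∈ s, ((F j : BL2 μ) : X → ℝ) x := by
  rw [Submodule.coe_sum, Finset.sum_apply]

omit [IsProbabilityMeasure μ] in
lemma hopfS_succ (P : Module.End ℝ (BL2 μ)) (h : BL2 μ) (n : ℕ) :
    hopfS P h (n + 1) = h + P (hopfS P h n) := by
  unfold hopfS
  rw [Finset.sum_range_succ', map_sum, add_comm]
  congr 1
  refine Finset.sum_congr rfl fun j _ => ?_
  rw [pow_succ']; rfl

lemma hopfM_nn (P : Module.End ℝ (BL2 μ)) (h : BL2 μ) (N : ℕ) (x : X) :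
    0 ≤ ((hopfM P h N : BL2 μ) : X → ℝ) x := by
  induction N with
  | zero => exact le_rfl
  | succ n ih => exact ih.trans (le_max_left _ _)

lemma hopfM_ge (P : Module.End ℝ (BL2 μ)) (h : BL2 μ) (N : ℕ) (x : X) (n : ℕ) (hn : n ≤ N) :
    ((hopfS P h n : BL2 μ) : X → ℝ) x ≤ ((hopfM P h N : BL2 μ) : X → ℝ) x := by
  induction N with
  | zero =>
      obtain rfl : n = 0 := by omega
      simp [hopfS, hopfM]
  | succ N ih =>
      rcases Nat.lt_or_ge N n with h1 | h1
      · obtain rfl : n = N + 1 := by omega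
        exact le_max_right _ _
      · exact (ih h1).trans (le_max_left _ _)

lemma hopfM_eq (P : Module.End ℝ (BL2 μ)) (h : BL2 μ) (N : ℕ) (x : X) :
    ((hopfM P h N : BL2 μ) : X → ℝ) x = 0 ∨ ∃ n, 1 ≤ n ∧ n ≤ N ∧
      ((hopfM P h N : BL2 μ) : X → ℝ) x = ((hopfS P h n : BL2 μ) : X → ℝ) x := by
  induction N with
  | zero => left; rfl
  | succ N ih =>
      rcases max_choice (((hopfM P h N : BL2 μ) : X → ℝ) x)
        (((hopfS P h (N + 1) : BL2 μ) : X → ℝ) x) with h1 | h1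
      · rcases ih with h2 | ⟨n, hn, hn', h2⟩
        · left
          exact (hopfMax_apply _ _ x).trans (h1.trans h2)
        · right
          exact ⟨n, hn, by omega, (hopfMax_apply _ _ x).trans (h1.trans h2)⟩
      · right
        exact ⟨N + 1, by omega, le_rfl, (hopfMax_apply _ _ x).trans h1⟩

theorem hopf (c' : PAct Γ μ) (m : Measure Γ) [IsProbabilityMeasure m] (h : BL2 μ) (N : ℕ) :
    0 ≤ ∫ x in {x | ∃ n, 1 ≤ n ∧ n ≤ N ∧
      0 < ∑ j ∈ Finset.range n, ((((c'.A m) ^ j) h : BL2 μ) : X → ℝ) x}, (h : X → ℝ) x ∂μ := by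
  set P : Module.End ℝ (BL2 μ) := c'.A m with hP
  set E : Set X := {x | ∃ n, 1 ≤ n ∧ n ≤ N ∧
      0 < ∑ j ∈ Finset.range n, ((((c'.A m) ^ j) h : BL2 μ) : X → ℝ) x} with hE
  have hSx : ∀ n x, ((hopfS P h n : BL2 μ) : X → ℝ) x
      = ∑ j ∈ Finset.range n, (((P ^ j) h : BL2 μ) : X → ℝ) x := fun n x => hopf_coe_sum _ _ _
  have hEm : MeasurableSet E := by
    have : E = ⋃ n ∈ Finset.Icc 1 N, {x | 0 < ((hopfS P h n : BL2 μ) : X → ℝ) x} := by
      ext x
      simp only [hE, mem_setOf_eq, mem_iUnion, Finset.mem_Icc, exists_prop, hSx, and_assoc]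
      rfl
    rw [this]
    exact Finset.measurableSet_biUnion _ fun n _ =>
      measurableSet_lt measurable_const (bmeas _)
  set M : BL2 μ := hopfM P h N with hM
  have hPM : ∀ x, 0 ≤ ((P M : BL2 μ) : X → ℝ) x := A_nn c' m (hopfM_nn P h N)
  have hS1 : ∀ n, 1 ≤ n → n ≤ N → ∀ x, ((hopfS P h n : BL2 μ) : X → ℝ) x
      ≤ (h : X → ℝ) x + ((P M : BL2 μ) : X → ℝ) x := by
    intro n hn hn' x
    obtain ⟨k, rfl⟩ : ∃ k, n = k + 1 := ⟨n - 1, by omega⟩
    rw [hopfS_succ]
    have := A_mono c' m (f := hopfS P h k) (g := M) (fun z => hopfM_ge P h N z k (by omega)) x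
    change (h : X → ℝ) x + ((P (hopfS P h k) : BL2 μ) : X → ℝ) x ≤ _
    linarith
  have key : ∀ x, ((M : BL2 μ) : X → ℝ) x - ((P M : BL2 μ) : X → ℝ) x
      ≤ E.indicator (h : X → ℝ) x := by
    intro x
    by_cases hx : x ∈ E
    · rw [indicator_of_mem hx]
      rcases hopfM_eq P h N x with h1 | ⟨n, hn, hn', h1⟩
      · obtain ⟨n, hn, hn', h2⟩ := hx
        have h3 := hopfM_ge P h N x n hn'
        rw [h1, hSx] at h3
        exact absurd h3 (not_le.mpr h2)
      · have h2 := hS1 n hn hn' x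
        rw [← h1] at h2
        linarith
    · rw [indicator_of_notMem hx]
      rcases hopfM_eq P h N x with h1 | ⟨n, hn, hn', h1⟩
      · have := hPM x
        rw [hM, h1]
        linarith
      · have h2 : ((hopfS P h n : BL2 μ) : X → ℝ) x ≤ 0 := by
          by_contra h3
          exact hx ⟨n, hn, hn', by rw [← hP, ← hSx]; exact not_le.mp h3⟩
        have h4 := hPM x
        have h5 : ((M : BL2 μ) : X → ℝ) x ≤ 0 := by rw [hM, h1]; exact h2
        linarith
  have hint : ∀ f : BL2 μ, Integrable (f : X → ℝ) μ := by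
    intro f
    obtain ⟨C, hC⟩ := bbdd f
    exact integrable_of_bdd μ (bmeas f) hC
  rw [← integral_indicator hEm]
  calc (0 : ℝ) = ∫ x, (((M : BL2 μ) : X → ℝ) x - ((P M : BL2 μ) : X → ℝ) x) ∂μ := by
        rw [integral_sub (hint M) (hint (P M)), A_int c' m M, sub_self]
    _ ≤ ∫ x, E.indicator (h : X → ℝ) x ∂μ :=
        integral_mono ((hint M).sub (hint (P M))) ((hint h).indicator hEm) key

end Pool.Agent.SZ
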