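import Mathlib
import Pool.Agent.SZ.SDefs
import Pool.Agent.SZ.S14Hopf

/-!
# SZ S15: the good set of the maximal inequality (40 min)

PROOF.  `h := 1_{S^c} - 1/2 = 1/2 - 1_S` (in `BL2 mu`), `P := c'.A m`, `P^j h = 1/2 - P^j 1_S` (`A_cst`).  `E_N` the set of
`hopf`, increasing in `N`.  `0 <= int_{E_N} h = mu(E_N)/2 - mu(E_N cap S)`, so `mu(E_N) <= 2 mu(E_N) - 2 mu(E_N cap S) =
2 mu(E_N cap S^c) <= 2 mu(S^c)`.  `E := union E_N` has `mu(E) <= 2 mu(S^c)` (`measure_iUnion_eq_iSup` /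
`tendsto_measure_iUnion_atTop`, monotone).  `Y := E^c`: for `x` in `Y` and `n >= 1`: `sum_{j<n} P^j h (x) <= 0`, i.e.
`n/2 <= sum_{j<n} P^j 1_S (x)`; `n = 0` trivial.  `P^j 1_S` is between `0` and `1` (`Apow_01`, induction, `A_mono`, `A_cst`).
-/

set_option autoImplicit false
set_option linter.unusedSectionVars false
set_option linter.unusedVariables false

namespace Pool.Agent.SZ

open Pool.Agent.IRS MeasureTheory Set Filter Topology

variable {Γ : Type*} [Group Γ] [MeasurableSpace Γ] [MeasurableInv Γ] {X : Type*}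
  [MeasurableSpace X] {μ : Measure X} [IsProbabilityMeasure μ]

theorem Apow_01 (c' : PAct Γ μ) (m : Measure Γ) [IsProbabilityMeasure m] {S : Set X}
    (hS : MeasurableSet S) (j : ℕ) (x : X) :
    0 ≤ ((((c'.A m) ^ j) (indB μ S hS) : BL2 μ) : X → ℝ) x ∧
      ((((c'.A m) ^ j) (indB μ S hS) : BL2 μ) : X → ℝ) x ≤ 1 := by
  induction j generalizing x with
  | zero =>
      change 0 ≤ ((indB μ S hS : BL2 μ) : X → ℝ) x ∧ ((indB μ S hS : BL2 μ) : X → ℝ) x ≤ 1
      rw [indB_apply]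
      by_cases h : x ∈ S <;> simp [h]
  | succ j ih =>
      have e : ((c'.A m) ^ (j + 1)) (indB μ S hS) = c'.A m (((c'.A m) ^ j) (indB μ S hS)) := by
        rw [pow_succ']; rfl
      rw [e]
      refine ⟨A_nn c' m (fun z => (ih z).1) x, ?_⟩
      have h1 := A_mono c' m (f := ((c'.A m) ^ j) (indB μ S hS)) (g := cstB μ 1)
        (fun z => by rw [cstB_apply]; exact (ih z).2) x
      rw [A_cst, cstB_apply] at h1
      exact h1

theorem maxset (c' : PAct Γ μ) (m : Measure Γ) [IsProbabilityMeasure m] {S : Set X}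
    (hS : MeasurableSet S) : ∃ Y : Set X, MeasurableSet Y ∧ μ Yᶜ ≤ 2 * μ Sᶜ ∧
      ∀ x ∈ Y, ∀ n : ℕ, (n : ℝ) ≤ 2 * ∑ j ∈ Finset.range n,
        ((((c'.A m) ^ j) (indB μ S hS) : BL2 μ) : X → ℝ) x := by
  set P : Module.End ℝ (BL2 μ) := c'.A m with hP
  set h : BL2 μ := cstB μ 2⁻¹ - indB μ S hS with hh
  have hPc : ∀ j, (P ^ j) (cstB μ 2⁻¹) = cstB μ 2⁻¹ := by
    intro j
    induction j with
    | zero => rfl
    | succ j ih =>
        have e : (P ^ (j + 1)) (cstB μ 2⁻¹) = P ((P ^ j) (cstB μ 2⁻¹)) := by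
          rw [pow_succ']; rfl
        rw [e, ih]
        exact A_cst c' m 2⁻¹
  have hPh : ∀ j x, (((P ^ j) h : BL2 μ) : X → ℝ) x
      = 2⁻¹ - (((P ^ j) (indB μ S hS) : BL2 μ) : X → ℝ) x := by
    intro j x
    rw [hh, map_sub, hPc]
    rfl
  have hsum : ∀ n x, ∑ j ∈ Finset.range n, (((P ^ j) h : BL2 μ) : X → ℝ) x
      = n * 2⁻¹ - ∑ j ∈ Finset.range n, (((P ^ j) (indB μ S hS) : BL2 μ) : X → ℝ) x := by
    intro n x
    simp only [hPh, Finset.sum_sub_distrib, Finset.sum_const, Finset.card_range, nsmul_eq_mul]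
  set E : ℕ → Set X := fun N => {x | ∃ n, 1 ≤ n ∧ n ≤ N ∧
      0 < ∑ j ∈ Finset.range n, (((P ^ j) h : BL2 μ) : X → ℝ) x} with hE
  have hEm : ∀ N, MeasurableSet (E N) := by
    intro N
    have : E N = ⋃ n ∈ Finset.Icc 1 N, {x | 0 < ∑ j ∈ Finset.range n,
        (((P ^ j) h : BL2 μ) : X → ℝ) x} := by
      ext x
      simp only [hE, mem_ofPred_eq, mem_iUnion, Finset.mem_Icc, exists_prop, and_assoc]
    rw [this]
    exact Finset.measurableSet_biUnion _ fun n _ =>
      measurableSet_lt measurable_const (Finset.measurable_sum _ fun j _ => bmeas _)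
  have hEmono : Monotone E := by
    intro N N' hNN x hx
    obtain ⟨n, h1, h2, h3⟩ := hx
    exact ⟨n, h1, h2.trans hNN, h3⟩
  have hEμ : ∀ N, μ (E N) ≤ 2 * μ Sᶜ := by
    intro N
    have h0 := hopf c' m h N
    change 0 ≤ ∫ x in E N, (h : X → ℝ) x ∂μ at h0
    have h1 : ∫ x in E N, (h : X → ℝ) x ∂μ
        = 2⁻¹ * μ.real (E N) - μ.real (S ∩ E N) := by
      have e1 : ∀ x, (h : X → ℝ) x = 2⁻¹ - S.indicator (fun _ => (1 : ℝ)) x := fun x => rfl
      simp only [e1]
      rw [integral_sub (integrable_const _)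
        ((integrable_const (1 : ℝ)).indicator hS), integral_indicator hS]
      simp only [integral_const, smul_eq_mul, mul_one]
      rw [Measure.restrict_restrict hS, measureReal_restrict_apply_univ,
        measureReal_restrict_apply_univ, mul_comm]
    rw [h1] at h0
    have h2 : μ.real (E N) = μ.real (S ∩ E N) + μ.real (Sᶜ ∩ E N) := by
      have := measureReal_inter_add_diff (μ := μ) (s := E N) hS
      rw [← this, inter_comm, diff_eq, inter_comm (E N) Sᶜ]
    have h3 : μ.real (E N) ≤ 2 * μ.real Sᶜ := by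
      have h4 : μ.real (Sᶜ ∩ E N) ≤ μ.real Sᶜ := measureReal_mono inter_subset_left
      linarith
    have h5 : μ (E N) = ENNReal.ofReal (μ.real (E N)) := by
      rw [Measure.real, ENNReal.ofReal_toReal (measure_ne_top _ _)]
    have h6 : μ Sᶜ = ENNReal.ofReal (μ.real Sᶜ) := by
      rw [Measure.real, ENNReal.ofReal_toReal (measure_ne_top _ _)]
    rw [h5, h6]
    calc ENNReal.ofReal (μ.real (E N)) ≤ ENNReal.ofReal (2 * μ.real Sᶜ) :=
          ENNReal.ofReal_le_ofReal h3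
      _ = 2 * ENNReal.ofReal (μ.real Sᶜ) := by
          rw [ENNReal.ofReal_mul (by norm_num : (0 : ℝ) ≤ 2), ENNReal.ofReal_ofNat]
  refine ⟨(⋃ N, E N)ᶜ, (MeasurableSet.iUnion hEm).compl, ?_, ?_⟩
  · rw [compl_compl, hEmono.measure_iUnion]
    exact iSup_le hEμ
  · intro x hx n
    rcases Nat.eq_zero_or_pos n with rfl | hn
    · simp
    · have h1 : ¬ 0 < ∑ j ∈ Finset.range n, (((P ^ j) h : BL2 μ) : X → ℝ) x := by
        intro h2
        exact hx (mem_iUnion.mpr ⟨n, n, hn, le_rfl, h2⟩)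
      rw [hsum] at h1
      linarith [not_lt.mp h1]

end Pool.Agent.SZ
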