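import Mathlib
import Pool.Agent.SZ.SDefs

/-!
# SZ S16: Abel means from Cesaro means (30 min)

PROOF.  `b := (1+alpha)^-1` in `(0,1)`, `alpha b = 1 - b`.  `A_n := sum_{j<n} a_j >= n/2`.  Summation by parts:
`sum_{j<J} b^j a_j = b^(J-1) A_J + sum_{n=1}^{J-1} (b^(n-1) - b^n) A_n` (J >= 1) `>= (1/2) (b^(J-1) J + sum (b^(n-1)-b^n) n)
= (1/2) sum_{j<J} b^j = (1/2) (1 - b^J)/(1-b)`.  Easier by induction on `J`: the statement
`sum_{j<J} b^j (a_j - 1/2) >= b^J * (A_J - J/2) * (b^-1 ...)`: let `c_n := A_n - n/2 >= 0`; claim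
`sum_{j<J} b^j (a_j - 1/2) >= b^J c_J` for all `J`: `J = 0` trivial; step: `a_J - 1/2 = c_(J+1) - c_J`, so the new sum is
`>= b^J c_J + b^J (c_(J+1) - c_J) = b^J c_(J+1) >= b^(J+1) c_(J+1)`.
Hence `sum_{j<J} alpha b^(j+1) a_j >= (1/2) sum_{j<J} alpha b^(j+1) = (1/2) (1 - b^J)`.
-/

set_option autoImplicit false
set_option linter.unusedSectionVars false
set_option linter.unusedVariables false

namespace Pool.Agent.SZ

open Pool.Agent.IRS MeasureTheory Set Filter Topology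

theorem abel_half (a : ℕ → ℝ) (h : ∀ n : ℕ, (n : ℝ) ≤ 2 * ∑ j ∈ Finset.range n, a j) {α : ℝ}
    (hα : 0 < α) (J : ℕ) :
    1 ≤ 2 * ∑ j ∈ Finset.range J, α * ((1 + α)⁻¹) ^ (j + 1) * a j + ((1 + α)⁻¹) ^ J := by
  set b : ℝ := (1 + α)⁻¹ with hb
  have hb0 : 0 < b := by rw [hb]; positivity
  have hb1 : b ≤ 1 := by rw [hb]; exact inv_le_one_of_one_le₀ (by linarith)
  have hαb : α * b = 1 - b := by
    rw [hb]; field_simp; ring
  have key : ∀ J : ℕ, b ^ J * (∑ j ∈ Finset.range J, a j - J / 2)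
      ≤ ∑ j ∈ Finset.range J, b ^ j * (a j - 1 / 2) := by
    intro J
    induction J with
    | zero => simp
    | succ J ih =>
      have hc := h (J + 1)
      rw [Finset.sum_range_succ, Finset.sum_range_succ]
      rw [Finset.sum_range_succ] at hc
      push_cast at hc ⊢
      have h1 : 0 ≤ ∑ j ∈ Finset.range J, a j + a J - (J + 1) / 2 := by linarith
      have h2 : b ^ (J + 1) * (∑ j ∈ Finset.range J, a j + a J - (J + 1) / 2)
          ≤ b ^ J * (∑ j ∈ Finset.range J, a j + a J - (J + 1) / 2) :=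
        mul_le_mul_of_nonneg_right (pow_le_pow_of_le_one hb0.le hb1 (Nat.le_succ J)) h1
      have h3 : b ^ J * (∑ j ∈ Finset.range J, a j + a J - (J + 1) / 2)
          = b ^ J * (∑ j ∈ Finset.range J, a j - J / 2) + b ^ J * (a J - 1 / 2) := by ring
      linarith
  have h0 : 0 ≤ ∑ j ∈ Finset.range J, b ^ j * (a j - 1 / 2) := by
    refine le_trans ?_ (key J)
    have := h J
    exact mul_nonneg (by positivity) (by linarith)
  have h1 : ∑ j ∈ Finset.range J, α * b ^ (j + 1) * a j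
      = (1 - b) * ∑ j ∈ Finset.range J, b ^ j * (a j - 1 / 2)
        + (1 / 2) * ((1 - b) * ∑ j ∈ Finset.range J, b ^ j) := by
    rw [← hαb, Finset.mul_sum, Finset.mul_sum, Finset.mul_sum, ← Finset.sum_add_distrib]
    refine Finset.sum_congr rfl fun j _ => ?_
    ring
  have h2 : (1 - b) * ∑ j ∈ Finset.range J, b ^ j = 1 - b ^ J := by
    have := mul_neg_geom_sum b J
    linarith
  rw [h1, h2]
  have h3 : 0 ≤ (1 - b) * ∑ j ∈ Finset.range J, b ^ j * (a j - 1 / 2) :=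
    mul_nonneg (by linarith) h0
  linarith

end Pool.Agent.SZ
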