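import Mathlib
import Pool.Agent.SZ.SDefs
import Pool.Agent.SZ.S12Hit
import Pool.Agent.SZ.S15Max
import Pool.Agent.SZ.S16Abl

/-!
# SZ S17: the hitting function is at most twice the Green function (30 min)

PROOF.  `b := (1+alpha)^-1`, `g_J := grn .. J`, `P := c'.A m`.  Claim `u <= 2 g_J + b^J` on all of `X`, by induction on `J`?
The step works directly: `g_(J+1) = alpha b 1_S + b P g_J` (shift of the sum; `P` is linear).  `J = 0`: `u <= 1`.
Step: on `Y`: `1 <= 2 g_(J+1) + b^(J+1)` by `abel_half` (`hYS`), `u = 1`.  Off `Y`: `u = b P u <= b P (2 g_J + b^J)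
= 2 b P g_J + b^(J+1) <= 2 g_(J+1) + b^(J+1)`.  (To apply `A_mono` write `g_J` as the member
`sum_{j<J} (alpha b^(j+1)) • P^j 1_S` of `BL2 mu`.)
-/

set_option autoImplicit false
set_option linter.unusedSectionVars false
set_option linter.unusedVariables false

namespace Pool.Agent.SZ

open Pool.Agent.IRS MeasureTheory Set Filter Topology

variable {Γ : Type*} [Group Γ] [MeasurableSpace Γ] [MeasurableInv Γ] {X : Type*}
  [MeasurableSpace X] {μ : Measure X} [IsProbabilityMeasure μ]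

theorem hit_le_grn (c' : PAct Γ μ) (m : Measure Γ) [IsProbabilityMeasure m] {S Y : Set X}
    (hS : MeasurableSet S) (hYS : ∀ x ∈ Y, ∀ n : ℕ, (n : ℝ) ≤ 2 * ∑ j ∈ Finset.range n,
        ((((c'.A m) ^ j) (indB μ S hS) : BL2 μ) : X → ℝ) x) {α : ℝ} (hα : 0 < α) {u : BL2 μ}
    (hu : IsHit c' m Y α u) (J : ℕ) (x : X) :
    (u : X → ℝ) x ≤ 2 * grn c' m S hS α J x + ((1 + α)⁻¹) ^ J := by
  have hb0 : 0 < (1 + α)⁻¹ := by positivity
  have h1b : (1 + α)⁻¹ * (1 + α) = 1 := inv_mul_cancel₀ (by positivity)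
  have hgB : ∀ (J : ℕ) (x : X), (((∑ j ∈ Finset.range J, (α * ((1 + α)⁻¹) ^ (j + 1)) •
      (((c'.A m) ^ j) (indB μ S hS)) : BL2 μ)) : X → ℝ) x = grn c' m S hS α J x := by
    intro J x
    rw [grn, Submodule.coe_sum, Finset.sum_apply]
    exact Finset.sum_congr rfl fun j _ => rfl
  have hAg : ∀ (J : ℕ) (x : X), ((c'.A m ((2 : ℝ) • (∑ j ∈ Finset.range J, (α * ((1 + α)⁻¹) ^ (j + 1)) •
      (((c'.A m) ^ j) (indB μ S hS))) + cstB μ (((1 + α)⁻¹) ^ J)) : BL2 μ) : X → ℝ) x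
      = 2 * (∑ j ∈ Finset.range J, (α * ((1 + α)⁻¹) ^ (j + 1)) *
        ((((c'.A m) ^ (j + 1)) (indB μ S hS) : BL2 μ) : X → ℝ) x) + ((1 + α)⁻¹) ^ J := by
    intro J x
    have e1 : c'.A m ((2 : ℝ) • (∑ j ∈ Finset.range J, (α * ((1 + α)⁻¹) ^ (j + 1)) •
      (((c'.A m) ^ j) (indB μ S hS))) + cstB μ (((1 + α)⁻¹) ^ J))
      = (2 : ℝ) • (∑ j ∈ Finset.range J, (α * ((1 + α)⁻¹) ^ (j + 1)) •
      (((c'.A m) ^ (j + 1)) (indB μ S hS))) + cstB μ (((1 + α)⁻¹) ^ J) := by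
      rw [map_add, map_smul, map_sum, A_cst]
      congr 2
      refine Finset.sum_congr rfl fun j _ => ?_
      have e0 : (c'.A m ^ (j + 1)) (indB μ S hS) = c'.A m ((c'.A m ^ j) (indB μ S hS)) := by
        rw [pow_succ']
        rfl
      rw [map_smul, e0]
    rw [e1]
    have e2 : (((2 : ℝ) • (∑ j ∈ Finset.range J, (α * ((1 + α)⁻¹) ^ (j + 1)) •
      (((c'.A m) ^ (j + 1)) (indB μ S hS))) + cstB μ (((1 + α)⁻¹) ^ J) : BL2 μ) : X → ℝ) x
      = 2 * (((∑ j ∈ Finset.range J, (α * ((1 + α)⁻¹) ^ (j + 1)) •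
      (((c'.A m) ^ (j + 1)) (indB μ S hS)) : BL2 μ)) : X → ℝ) x + ((1 + α)⁻¹) ^ J := rfl
    rw [e2, Submodule.coe_sum, Finset.sum_apply]
    congr 2
  induction J generalizing x with
  | zero =>
    have := hu.le x
    simpa [grn] using this
  | succ J ih =>
    by_cases hx : x ∈ Y
    · rw [hu.on x hx]
      have := abel_half (fun j => ((((c'.A m) ^ j) (indB μ S hS) : BL2 μ) : X → ℝ) x)
        (hYS x hx) hα (J + 1)
      exact this
    · have h1 : (u : X → ℝ) x = (1 + α)⁻¹ * ((c'.A m u : BL2 μ) : X → ℝ) x := by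
        rw [← hu.off x hx, ← mul_assoc, h1b, one_mul]
      have h2 : ((c'.A m u : BL2 μ) : X → ℝ) x ≤ ((c'.A m ((2 : ℝ) • (∑ j ∈ Finset.range J,
          (α * ((1 + α)⁻¹) ^ (j + 1)) • (((c'.A m) ^ j) (indB μ S hS)))
          + cstB μ (((1 + α)⁻¹) ^ J)) : BL2 μ) : X → ℝ) x := by
        refine A_mono c' m (fun z => ?_) x
        have h3 := ih z
        rw [← hgB J z] at h3
        exact h3
      rw [hAg J x] at h2
      rw [h1]
      have h4 : grn c' m S hS α (J + 1) x = (∑ j ∈ Finset.range J, α * ((1 + α)⁻¹) ^ (j + 1 + 1)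
          * ((((c'.A m) ^ (j + 1)) (indB μ S hS) : BL2 μ) : X → ℝ) x)
          + α * ((1 + α)⁻¹) ^ (0 + 1) * ((((c'.A m) ^ 0) (indB μ S hS) : BL2 μ) : X → ℝ) x := by
        rw [grn, Finset.sum_range_succ']
      have h5 : 0 ≤ α * ((1 + α)⁻¹) ^ (0 + 1)
          * ((((c'.A m) ^ 0) (indB μ S hS) : BL2 μ) : X → ℝ) x := by
        have : 0 ≤ ((((c'.A m) ^ 0) (indB μ S hS) : BL2 μ) : X → ℝ) x := by
          rw [pow_zero]
          change 0 ≤ S.indicator (fun _ => (1 : ℝ)) x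
          exact Set.indicator_nonneg (fun _ _ => zero_le_one) x
        positivity
      have h6 : (1 + α)⁻¹ * (∑ j ∈ Finset.range J, (α * ((1 + α)⁻¹) ^ (j + 1)) *
        ((((c'.A m) ^ (j + 1)) (indB μ S hS) : BL2 μ) : X → ℝ) x)
        = ∑ j ∈ Finset.range J, α * ((1 + α)⁻¹) ^ (j + 1 + 1)
          * ((((c'.A m) ^ (j + 1)) (indB μ S hS) : BL2 μ) : X → ℝ) x := by
        rw [Finset.mul_sum]
        refine Finset.sum_congr rfl fun j _ => ?_
        rw [pow_succ _ (j + 1)]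
        ring
      calc (1 + α)⁻¹ * ((c'.A m u : BL2 μ) : X → ℝ) x
          ≤ (1 + α)⁻¹ * (2 * (∑ j ∈ Finset.range J, (α * ((1 + α)⁻¹) ^ (j + 1)) *
            ((((c'.A m) ^ (j + 1)) (indB μ S hS) : BL2 μ) : X → ℝ) x) + ((1 + α)⁻¹) ^ J) :=
            mul_le_mul_of_nonneg_left h2 hb0.le
        _ = 2 * ((1 + α)⁻¹ * (∑ j ∈ Finset.range J, (α * ((1 + α)⁻¹) ^ (j + 1)) *
            ((((c'.A m) ^ (j + 1)) (indB μ S hS) : BL2 μ) : X → ℝ) x)) + ((1 + α)⁻¹) ^ (J + 1) := by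
            rw [pow_succ]; ring
        _ ≤ 2 * grn c' m S hS α (J + 1) x + ((1 + α)⁻¹) ^ (J + 1) := by
            rw [h6, h4]; linarith

end Pool.Agent.SZ
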