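import Mathlib
import Pool.Agent.SZ.SDefs

/-!
# SZ S08: double integral formulas (60 min)

PROOFS.  `dbl`: for fixed `g`, `int (F z - F(gz))(G z - G(gz)) dzeta = 2 <F,G> - <T_g F, G> - <F, T_g G>`
(measure preservation `PAct.T_isom`); integrate over `g` (`PAct.B_A`, `PAct.B_A_right`, `A_symm`-type identity from
`PAct.adj` and `hm`): `2 <F,G> - 2 <A F, G>`.
`gm_dbl`: `gmC F z = (1/2) int (F(gz) - F z)^2 dm(g)` pointwise (expand, `PAct.A_apply`, bounded functions), multiply by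
the bounded function `w(pi z)` and use Fubini (integrability on the product: `PAct.sq_prod_int`, `PAct.mul_prod_int`,
`(bsq F).comp_snd m`).
`gm_nn`: from the pointwise formula.  `gm_tot`: `int gmC F = <(1-A)F,F>`: `int A(F^2) = int F^2` or `gm_dbl` with `w = 1`
and `dbl` with `G = F`.
`gm_base`: `int_g int_z F(z)^2 (chi(pi z) - chi(pi(g z)))^2 = int_z F(z)^2 (2 gmC c' m chi)(pi z) dzeta` (Fubini and the
pointwise formula on `X`, `pi(g z) = g . pi z`) `<= int 2 gmC c' m chi dmu` (ClP for the nonnegative bounded measurable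
function `2 gmC c' m chi`) `= 2 <(1-A')chi, chi>` (`gm_tot` on `X`).
`gm_base'`: for each `g`, substitute `z -> g^-1 z`: `int_z F(gz)^2 (chi(pi z) - chi(pi(gz)))^2 =
int_z F(z)^2 (chi(pi(g^-1 z)) - chi(pi z))^2`, then `g -> g^-1` in the `m`-integral (`hm`).
-/

set_option autoImplicit false
set_option linter.unusedSectionVars false
set_option linter.unusedVariables false

namespace Pool.Agent.SZ

open Pool.Agent.IRS MeasureTheory Set Filter Topology

variable {Γ : Type*} [Group Γ] [MeasurableSpace Γ] [MeasurableInv Γ] {X Z : Type*}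
  [MeasurableSpace X] [MeasurableSpace Z] {μ : Measure X} [IsProbabilityMeasure μ]
  {ζ : Measure Z} [SigmaFinite ζ]

/-- Measurability of the square difference on the product. -/
private lemma dmeas (c : PAct Γ ζ) (F : BL2 ζ) :
    Measurable (fun p : Γ × Z => (F : Z → ℝ) p.2 - (F : Z → ℝ) (c.τ p.1 p.2)) :=
  ((bmeas F).comp measurable_snd).sub (c.meas_comp (bmeas F))

/-- Integrability of the product of differences. -/
private lemma dprod (c : PAct Γ ζ) (m : Measure Γ) [IsProbabilityMeasure m] (F G : BL2 ζ) :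
    Integrable (fun p : Γ × Z => ((F : Z → ℝ) p.2 - (F : Z → ℝ) (c.τ p.1 p.2))
      * ((G : Z → ℝ) p.2 - (G : Z → ℝ) (c.τ p.1 p.2))) (m.prod ζ) := by
  have h1 := c.sq_prod_int m F
  have h2 : Integrable (fun p : Γ × Z => (F : Z → ℝ) p.2 ^ 2) (m.prod ζ) := (bsq F).comp_snd m
  have h3 := c.sq_prod_int m G
  have h4 : Integrable (fun p : Γ × Z => (G : Z → ℝ) p.2 ^ 2) (m.prod ζ) := (bsq G).comp_snd m
  refine ((h1.add h2).add (h3.add h4)).mono' ((dmeas c F).mul (dmeas c G)).aestronglyMeasurable ?_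
  filter_upwards with p
  simp only [Real.norm_eq_abs, Pi.add_apply]
  rw [abs_le]
  constructor <;>
  nlinarith [sq_nonneg ((F : Z → ℝ) p.2 - (F : Z → ℝ) (c.τ p.1 p.2)
      + ((G : Z → ℝ) p.2 - (G : Z → ℝ) (c.τ p.1 p.2))),
    sq_nonneg ((F : Z → ℝ) p.2 - (F : Z → ℝ) (c.τ p.1 p.2)
      - ((G : Z → ℝ) p.2 - (G : Z → ℝ) (c.τ p.1 p.2))),
    sq_nonneg ((F : Z → ℝ) p.2 + (F : Z → ℝ) (c.τ p.1 p.2)),
    sq_nonneg ((G : Z → ℝ) p.2 + (G : Z → ℝ) (c.τ p.1 p.2))]

/-- The identity for a fixed group element. -/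
private lemma dfix (c : PAct Γ ζ) (F G : BL2 ζ) (g : Γ) :
    ∫ z, ((F : Z → ℝ) z - (F : Z → ℝ) (c.τ g z)) * ((G : Z → ℝ) z - (G : Z → ℝ) (c.τ g z)) ∂ζ
      = 2 * (frm ζ).B F G - (frm ζ).B (c.T g F) G - (frm ζ).B F (c.T g G) := by
  have h0 : ∫ z, ((F : Z → ℝ) z - (F : Z → ℝ) (c.τ g z))
      * ((G : Z → ℝ) z - (G : Z → ℝ) (c.τ g z)) ∂ζ = (frm ζ).B (F - c.T g F) (G - c.T g G) := rfl
  rw [h0]
  simp only [map_sub, LinearMap.sub_apply]
  rw [c.T_isom]
  ring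

theorem dbl (c : PAct Γ ζ) (m : Measure Γ) [IsProbabilityMeasure m] (hm : nui m = m)
    (F G : BL2 ζ) :
    (frm ζ).B ((1 - c.A m) F) G = 2⁻¹ * ∫ g, ∫ z, ((F : Z → ℝ) z - (F : Z → ℝ) (c.τ g z))
      * ((G : Z → ℝ) z - (G : Z → ℝ) (c.τ g z)) ∂ζ ∂m := by
  simp_rw [dfix c F G]
  have i1 : Integrable (fun g => (frm ζ).B (c.T g F) G) m := c.B_T_integrable m F G
  have i2 : Integrable (fun g => (frm ζ).B F (c.T g G)) m := by
    refine (c.B_T_integrable m G F).congr ?_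
    filter_upwards with g
    rw [(frm ζ).symm]
  have e1 := c.B_A m F G
  have e2 := c.B_A_right m G F
  have e3 : (frm ζ).B (c.A m F) G = (frm ζ).B F (c.A m G) := by
    have h := c.adj m F G
    simp only [hm] at h
    exact h
  have i3 : Integrable (fun g => 2 * (frm ζ).B F G - (frm ζ).B (c.T g F) G) m :=
    (integrable_const _).sub i1
  rw [integral_sub i3 i2, integral_sub (integrable_const _) i1,
    integral_const, ← e1, ← e2, ← e3]
  simp only [LinearMap.sub_apply, Module.End.one_apply, map_sub]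
  simp
  ring

theorem dbl_int (c : PAct Γ ζ) (m : Measure Γ) [IsProbabilityMeasure m] (F G : BL2 ζ) :
    Integrable (fun g => ∫ z, ((F : Z → ℝ) z - (F : Z → ℝ) (c.τ g z))
      * ((G : Z → ℝ) z - (G : Z → ℝ) (c.τ g z)) ∂ζ) m :=
  (dprod c m F G).integral_prod_left

theorem gm_pt (c : PAct Γ ζ) (m : Measure Γ) [IsProbabilityMeasure m] (F : BL2 ζ) (z : Z) :
    ((gmC c m F : BL2 ζ) : Z → ℝ) z
      = 2⁻¹ * ∫ g, ((F : Z → ℝ) z - (F : Z → ℝ) (c.τ g z)) ^ 2 ∂m := by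
  obtain ⟨M, hM⟩ := bbdd F
  have i1 : Integrable (fun g => (F : Z → ℝ) (c.τ g z)) m :=
    integrable_of_bdd m (c.meas_sec (bmeas F) z) fun g => hM _
  have i2 : Integrable (fun g => (F : Z → ℝ) (c.τ g z) * (F : Z → ℝ) (c.τ g z)) m := by
    refine integrable_of_bdd m ((c.meas_sec (bmeas F) z).mul (c.meas_sec (bmeas F) z))
      (M := M * M) fun g => ?_
    rw [abs_mul]
    exact mul_le_mul (hM _) (hM _) (abs_nonneg _) ((abs_nonneg _).trans (hM (c.τ g z)))
  have e : ∀ g, ((F : Z → ℝ) z - (F : Z → ℝ) (c.τ g z)) ^ 2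
      = (F : Z → ℝ) (c.τ g z) * (F : Z → ℝ) (c.τ g z)
        - (2 * (F : Z → ℝ) z) * (F : Z → ℝ) (c.τ g z) + (F : Z → ℝ) z * (F : Z → ℝ) z := by
    intro g; ring
  simp_rw [e]
  have i3 : Integrable (fun g => (F : Z → ℝ) (c.τ g z) * (F : Z → ℝ) (c.τ g z)
      - (2 * (F : Z → ℝ) z) * (F : Z → ℝ) (c.τ g z)) m := i2.sub (i1.const_mul _)
  rw [integral_add i3 (integrable_const _), integral_sub i2
    (i1.const_mul _), integral_const_mul, integral_const, gmC_apply, c.A_apply, c.A_apply]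
  have e2 : ∀ g, ((mulB F F : BL2 ζ) : Z → ℝ) (c.τ g z)
      = (F : Z → ℝ) (c.τ g z) * (F : Z → ℝ) (c.τ g z) := fun g => rfl
  simp_rw [e2]
  simp
  ring

theorem gm_nn (c : PAct Γ ζ) (m : Measure Γ) [IsProbabilityMeasure m] (F : BL2 ζ) (z : Z) :
    0 ≤ ((gmC c m F : BL2 ζ) : Z → ℝ) z := by
  rw [gm_pt]
  exact mul_nonneg (by norm_num) (integral_nonneg fun g => sq_nonneg _)

/-- Integrability of the square of the difference on the product. -/
private lemma dsq (c : PAct Γ ζ) (m : Measure Γ) [IsProbabilityMeasure m] (F : BL2 ζ) :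
    Integrable (fun p : Γ × Z => ((F : Z → ℝ) p.2 - (F : Z → ℝ) (c.τ p.1 p.2)) ^ 2)
      (m.prod ζ) := by
  refine (dprod c m F F).congr ?_
  filter_upwards with p
  ring

theorem gm_integrable (c : PAct Γ ζ) (m : Measure Γ) [IsProbabilityMeasure m] (F : BL2 ζ) :
    Integrable (((gmC c m F : BL2 ζ) : Z → ℝ)) ζ := by
  have h := ((dsq c m F).integral_prod_right).const_mul (2⁻¹ : ℝ)
  refine h.congr ?_
  filter_upwards with z
  exact (gm_pt c m F z).symm

/-- Integrability of the weighted square on the product. -/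
private lemma dwsq (c : PAct Γ ζ) (m : Measure Γ) [IsProbabilityMeasure m] (F : BL2 ζ)
    (π : Z → X) (hπ : Measurable π) (w : BL2 μ) :
    Integrable (fun p : Γ × Z => (w : X → ℝ) (π p.2)
      * ((F : Z → ℝ) p.2 - (F : Z → ℝ) (c.τ p.1 p.2)) ^ 2) (m.prod ζ) := by
  obtain ⟨M, hM⟩ := bbdd w
  refine ((dsq c m F).const_mul M).mono' ?_ ?_
  · exact (((bmeas w).comp (hπ.comp measurable_snd)).mul
      ((dmeas c F).pow_const 2)).aestronglyMeasurable
  · filter_upwards with p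
    rw [Real.norm_eq_abs, abs_mul, abs_of_nonneg (sq_nonneg ((F : Z → ℝ) p.2 - _))]
    exact mul_le_mul_of_nonneg_right (hM _) (sq_nonneg _)

theorem gm_dbl (c : PAct Γ ζ) (m : Measure Γ) [IsProbabilityMeasure m] (F : BL2 ζ)
    (π : Z → X) (hπ : Measurable π) (w : BL2 μ) :
    ∫ z, (w : X → ℝ) (π z) * ((gmC c m F : BL2 ζ) : Z → ℝ) z ∂ζ
      = 2⁻¹ * ∫ g, ∫ z, (w : X → ℝ) (π z) * ((F : Z → ℝ) z - (F : Z → ℝ) (c.τ g z)) ^ 2 ∂ζ ∂m := by
  rw [integral_integral_swap (dwsq c m F π hπ w), ← integral_const_mul]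
  congr 1
  ext z
  rw [gm_pt, integral_const_mul]
  ring

theorem gm_dbl_int (c : PAct Γ ζ) (m : Measure Γ) [IsProbabilityMeasure m] (F : BL2 ζ)
    (π : Z → X) (hπ : Measurable π) (w : BL2 μ) :
    Integrable (fun g => ∫ z, (w : X → ℝ) (π z)
      * ((F : Z → ℝ) z - (F : Z → ℝ) (c.τ g z)) ^ 2 ∂ζ) m :=
  (dwsq c m F π hπ w).integral_prod_left

theorem gm_tot (c : PAct Γ ζ) (m : Measure Γ) [IsProbabilityMeasure m] (hm : nui m = m)
    (F : BL2 ζ) : ∫ z, ((gmC c m F : BL2 ζ) : Z → ℝ) z ∂ζ = (frm ζ).B ((1 - c.A m) F) F := by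
  rw [dbl c m hm F F]
  have e : ∀ z, ((gmC c m F : BL2 ζ) : Z → ℝ) z
      = 2⁻¹ * ∫ g, ((F : Z → ℝ) z - (F : Z → ℝ) (c.τ g z)) ^ 2 ∂m := gm_pt c m F
  simp_rw [e]
  rw [integral_const_mul, ← integral_integral_swap (dsq c m F)]
  congr 2
  ext g
  congr 1
  ext z
  ring

end Pool.Agent.SZ
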