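import Mathlib
import Pool.Agent.SZ.SDefs
import Pool.Agent.SZ.S08Dbl

/-!
# SZ S09: the base energy terms (40 min)

PROOFS.  `gm_base`: `int_g int_z F(z)^2 (chi(pi z) - chi(pi(g z)))^2 = int_z F(z)^2 (2 gmC c' m chi)(pi z) dzeta` (Fubini
and `gm_pt` on `X`, `pi(g z) = g . pi z`) `<= int 2 gmC c' m chi dmu` (ClP for the nonnegative bounded measurable
function `2 gmC c' m chi`) `= 2 <(1-A')chi, chi>` (`gm_tot` on `X`).
`gm_base'`: for each `g`, substitute `z -> g^-1 z` (`PAct.integral_comp`): `int_z F(gz)^2 (chi(pi z) - chi(pi(gz)))^2 =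
int_z F(z)^2 (chi(pi(g^-1 z)) - chi(pi z))^2`, then `g -> g^-1` in the `m`-integral (`hm`, `nui m = m.map (·)⁻¹`,
`integral_map`).
Integrability: on the product space `(g,z) -> F(z)^2 (chi(pi z) - chi(pi(gz)))^2` is a bounded measurable function times
the integrable function `F(z)^2` (`(bsq F).comp_snd m`), resp. `F(gz)^2` (`PAct.sq_prod_int`).
-/

set_option autoImplicit false
set_option linter.unusedSectionVars false
set_option linter.unusedVariables false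

namespace Pool.Agent.SZ

open Pool.Agent.IRS MeasureTheory Set Filter Topology

variable {Γ : Type*} [Group Γ] [MeasurableSpace Γ] [MeasurableInv Γ] {X Z : Type*}
  [MeasurableSpace X] [MeasurableSpace Z] {μ : Measure X} [IsProbabilityMeasure μ]
  {ζ : Measure Z} [SigmaFinite ζ]

/-- The integrand is integrable on the product. -/
lemma gm_base_prod (c : PAct Γ ζ) (m : Measure Γ) [IsProbabilityMeasure m]
    (π : Z → X) (hπ : Measurable π) (F : BL2 ζ) (χ : BL2 μ) :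
    Integrable (Function.uncurry fun (g : Γ) (z : Z) => (F : Z → ℝ) z ^ 2
      * ((χ : X → ℝ) (π z) - (χ : X → ℝ) (π (c.τ g z))) ^ 2) (m.prod ζ) := by
  obtain ⟨M, hM⟩ := bbdd χ
  have h1 : Integrable (fun p : Γ × Z => (F : Z → ℝ) p.2 ^ 2) (m.prod ζ) := (bsq F).comp_snd m
  have hm1 : Measurable (fun p : Γ × Z => (χ : X → ℝ) (π p.2)) :=
    ((bmeas χ).comp hπ).comp measurable_snd
  have hm2 : Measurable (fun p : Γ × Z => (χ : X → ℝ) (π (c.τ p.1 p.2))) :=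
    ((bmeas χ).comp hπ).comp c.meas
  have hm3 : Measurable (fun p : Γ × Z => (F : Z → ℝ) p.2 ^ 2) :=
    ((bmeas F).comp measurable_snd).pow_const 2
  refine (h1.const_mul (4 * M ^ 2)).mono' (hm3.mul ((hm1.sub hm2).pow_const 2)).aestronglyMeasurable ?_
  filter_upwards with p
  obtain ⟨g, z⟩ := p
  simp only [Function.uncurry]
  rw [Real.norm_eq_abs, abs_of_nonneg (by positivity)]
  have h2 : ((χ : X → ℝ) (π z) - (χ : X → ℝ) (π (c.τ g z))) ^ 2 ≤ 4 * M ^ 2 := by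
    have h3 := hM (π z)
    have h4 := hM (π (c.τ g z))
    have h5 : |(χ : X → ℝ) (π z) - (χ : X → ℝ) (π (c.τ g z))| ≤ 2 * M := by
      have := abs_sub ((χ : X → ℝ) (π z)) ((χ : X → ℝ) (π (c.τ g z)))
      linarith
    calc _ = |(χ : X → ℝ) (π z) - (χ : X → ℝ) (π (c.τ g z))| ^ 2 := (sq_abs _).symm
      _ ≤ (2 * M) ^ 2 := pow_le_pow_left₀ (abs_nonneg _) h5 2
      _ = 4 * M ^ 2 := by ring
  calc _ ≤ (F : Z → ℝ) z ^ 2 * (4 * M ^ 2) := mul_le_mul_of_nonneg_left h2 (sq_nonneg _)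
    _ = _ := by ring

theorem gm_base (c : PAct Γ ζ) (c' : PAct Γ μ) (m : Measure Γ) [IsProbabilityMeasure m]
    (hm : nui m = m) (π : Z → X) (hπ : Measurable π) (heq : ∀ g z, π (c.τ g z) = c'.τ g (π z))
    {F : BL2 ζ} (hF : ClP μ π F) (χ : BL2 μ) :
    Integrable (fun g => ∫ z, (F : Z → ℝ) z ^ 2
      * ((χ : X → ℝ) (π z) - (χ : X → ℝ) (π (c.τ g z))) ^ 2 ∂ζ) m ∧
    ∫ g, ∫ z, (F : Z → ℝ) z ^ 2 * ((χ : X → ℝ) (π z) - (χ : X → ℝ) (π (c.τ g z))) ^ 2 ∂ζ ∂m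
      ≤ 2 * (frm μ).B ((1 - c'.A m) χ) χ := by
  have hprod := gm_base_prod c m π hπ F χ
  refine ⟨hprod.integral_prod_left, ?_⟩
  rw [integral_integral_swap hprod]
  have h1 : ∀ z : Z, ∫ g, (F : Z → ℝ) z ^ 2
      * ((χ : X → ℝ) (π z) - (χ : X → ℝ) (π (c.τ g z))) ^ 2 ∂m
      = (2 * ((gmC c' m χ : BL2 μ) : X → ℝ) (π z)) * (F : Z → ℝ) z ^ 2 := by
    intro z
    rw [integral_const_mul, gm_pt]
    simp_rw [heq]
    ring
  simp_rw [h1]
  obtain ⟨M, hM⟩ := bbdd (gmC c' m χ)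
  have h2 := hF (fun x => 2 * ((gmC c' m χ : BL2 μ) : X → ℝ) x)
    ((bmeas (gmC c' m χ)).const_mul 2)
    (fun x => mul_nonneg (by norm_num) (gm_nn c' m χ x))
    ⟨2 * M, fun x => mul_le_mul_of_nonneg_left ((le_abs_self _).trans (hM x)) (by norm_num)⟩
  refine h2.trans (le_of_eq ?_)
  rw [integral_const_mul, gm_tot c' m hm χ]

theorem gm_base' (c : PAct Γ ζ) (c' : PAct Γ μ) (m : Measure Γ) [IsProbabilityMeasure m]
    (hm : nui m = m) (π : Z → X) (hπ : Measurable π) (heq : ∀ g z, π (c.τ g z) = c'.τ g (π z))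
    {F : BL2 ζ} (hF : ClP μ π F) (χ : BL2 μ) :
    Integrable (fun g => ∫ z, (F : Z → ℝ) (c.τ g z) ^ 2
      * ((χ : X → ℝ) (π z) - (χ : X → ℝ) (π (c.τ g z))) ^ 2 ∂ζ) m ∧
    ∫ g, ∫ z, (F : Z → ℝ) (c.τ g z) ^ 2
      * ((χ : X → ℝ) (π z) - (χ : X → ℝ) (π (c.τ g z))) ^ 2 ∂ζ ∂m
      ≤ 2 * (frm μ).B ((1 - c'.A m) χ) χ := by
  obtain ⟨hi, hle⟩ := gm_base c c' m hm π hπ heq hF χ
  set φ : Γ → ℝ := fun g => ∫ z, (F : Z → ℝ) z ^ 2
      * ((χ : X → ℝ) (π z) - (χ : X → ℝ) (π (c.τ g z))) ^ 2 ∂ζ with hφ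
  have h1 : (fun g => ∫ z, (F : Z → ℝ) (c.τ g z) ^ 2
      * ((χ : X → ℝ) (π z) - (χ : X → ℝ) (π (c.τ g z))) ^ 2 ∂ζ) = fun g => φ g⁻¹ := by
    funext g
    have hH : Measurable (fun z => (F : Z → ℝ) z ^ 2
        * ((χ : X → ℝ) (π (c.τ g⁻¹ z)) - (χ : X → ℝ) (π z)) ^ 2) :=
      ((bmeas F).pow_const 2).mul (((((bmeas χ).comp hπ).comp (c.meas_g g⁻¹)).sub
        ((bmeas χ).comp hπ)).pow_const 2)
    have h2 := c.integral_comp g hH
    simp only [c.inv_apply] at h2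
    rw [h2, hφ]
    simp only
    congr 1; ext z
    ring
  have hi' : Integrable φ (m.map fun g => g⁻¹) := by
    have : nui m = m.map fun g => g⁻¹ := rfl
    rw [← this, hm]; exact hi
  have h3 : Integrable (fun g => φ g⁻¹) m :=
    (integrable_map_measure hi'.aestronglyMeasurable measurable_inv.aemeasurable).1 hi'
  have h4 : ∫ g, φ g⁻¹ ∂m = ∫ g, φ g ∂m := by
    rw [← integral_map measurable_inv.aemeasurable hi'.aestronglyMeasurable]
    have : nui m = m.map fun g => g⁻¹ := rfl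
    rw [← this, hm]
  rw [h1]
  exact ⟨h3, by rw [h4]; exact hle⟩

end Pool.Agent.SZ
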