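import Mathlib
import Pool.Agent.SZ.SDefs
import Pool.Agent.SZ.S09Bas

/-!
# SZ S10: the long part (50 min)

PROOF.  Write `F = F z`, `F' = F(g z)`, `x = chi(pi z)`, `x' = chi(pi(g z))`, `I[Phi] := int_g int_z Phi`,
`E1 := <(1-A)(chi F), chi F> = (1/2) I[(x F - x' F')^2]` (`dbl`), `S := <(1-A')chi, chi>`.
(i) `(F - F')(x^2 F - x'^2 F') = (x F - x' F')^2 - F F' (x - x')^2`, so by `dbl` and the hypothesis
`0 >= <(1-A)F, chi^2 F> = E1 - (1/2) I[F F' (x-x')^2]`; `F F' <= (F^2 + F'^2)/2`, `gm_base`, `gm_base'`: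
`I[F F' (x-x')^2] <= 2 S`, so `E1 <= S`.
(ii) `x^2 (F - F')^2 = (x F - x F')^2 <= 2 (x F - x' F')^2 + 2 F'^2 (x - x')^2`, so by `gm_dbl` (with `w = chi^2`)
`int chi^2 gmC F = (1/2) I[x^2 (F-F')^2] <= 2 E1 + 2 S <= 4 S`.
For each fixed `g` compare the `z`-integrals (`integral_mono`, all integrands are integrable in `z` for every `g`
because `F`, `F o g` are square integrable and `chi` is bounded), then integrate over `g` (`dbl_int`, `gm_dbl_int`).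
-/

set_option autoImplicit false
set_option linter.unusedSectionVars false
set_option linter.unusedVariables false

namespace Pool.Agent.SZ

open Pool.Agent.IRS MeasureTheory Set Filter Topology

variable {Γ : Type*} [Group Γ] [MeasurableSpace Γ] [MeasurableInv Γ] {X Z : Type*}
  [MeasurableSpace X] [MeasurableSpace Z] {μ : Measure X} [IsProbabilityMeasure μ]
  {ζ : Measure Z} [SigmaFinite ζ]

theorem long_part (c : PAct Γ ζ) (c' : PAct Γ μ) (m : Measure Γ) [IsProbabilityMeasure m]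
    (hm : nui m = m) (π : Z → X) (hπ : Measurable π) (heq : ∀ g z, π (c.τ g z) = c'.τ g (π z))
    {F : BL2 ζ} (hF : ClP μ π F) (χ : BL2 μ)
    (h : (frm ζ).B ((1 - c.A m) F) (mulX π hπ (mulB χ χ) F) ≤ 0) :
    ∫ z, ((χ : X → ℝ) (π z)) ^ 2 * ((gmC c m F : BL2 ζ) : Z → ℝ) z ∂ζ
      ≤ 4 * (frm μ).B ((1 - c'.A m) χ) χ := by
  set P : BL2 ζ := mulX π hπ χ F with hP
  set Q : BL2 ζ := mulX π hπ (mulB χ χ) F with hQ
  have hPz : ∀ z, (P : Z → ℝ) z = (χ : X → ℝ) (π z) * (F : Z → ℝ) z := fun z => rfl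
  have hQz : ∀ z, (Q : Z → ℝ) z = (χ : X → ℝ) (π z) * (χ : X → ℝ) (π z) * (F : Z → ℝ) z :=
    fun z => rfl
  obtain ⟨hb1, hb2⟩ := gm_base c c' m hm π hπ heq hF χ
  obtain ⟨hb1', hb2'⟩ := gm_base' c c' m hm π hπ heq hF χ
  have ha1 := dbl_int c m P P
  have hc0 := dbl c m hm F Q
  have hc1 := dbl_int c m F Q
  have hd0 := gm_dbl c m F π hπ (mulB χ χ)
  have hd1 := gm_dbl_int c m F π hπ (mulB χ χ)
  rw [hc0] at h
  -- integrability in `z`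
  have ia : ∀ g, Integrable (fun z => ((P : Z → ℝ) z - (P : Z → ℝ) (c.τ g z))
      * ((P : Z → ℝ) z - (P : Z → ℝ) (c.τ g z))) ζ := fun g =>
    bmul (P - c.T g P) (P - c.T g P)
  have ic : ∀ g, Integrable (fun z => ((F : Z → ℝ) z - (F : Z → ℝ) (c.τ g z))
      * ((Q : Z → ℝ) z - (Q : Z → ℝ) (c.τ g z))) ζ := fun g =>
    bmul (F - c.T g F) (Q - c.T g Q)
  have ib : ∀ g, Integrable (fun z => (F : Z → ℝ) z ^ 2
      * ((χ : X → ℝ) (π z) - (χ : X → ℝ) (π (c.τ g z))) ^ 2) ζ := by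
    intro g
    have h1 := bsq (P - mulX (fun z => π (c.τ g z)) (hπ.comp (c.meas_g g)) χ F)
    refine h1.congr ?_
    filter_upwards with z
    have h2 : ((P - mulX (fun z => π (c.τ g z)) (hπ.comp (c.meas_g g)) χ F : BL2 ζ) : Z → ℝ) z
      = (χ : X → ℝ) (π z) * (F : Z → ℝ) z - (χ : X → ℝ) (π (c.τ g z)) * (F : Z → ℝ) z := rfl
    rw [h2]; ring
  have ib' : ∀ g, Integrable (fun z => (F : Z → ℝ) (c.τ g z) ^ 2
      * ((χ : X → ℝ) (π z) - (χ : X → ℝ) (π (c.τ g z))) ^ 2) ζ := by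
    intro g
    have h1 := bsq (mulX π hπ χ (c.T g F) - c.T g P)
    refine h1.congr ?_
    filter_upwards with z
    have h2 : ((mulX π hπ χ (c.T g F) - c.T g P : BL2 ζ) : Z → ℝ) z
      = (χ : X → ℝ) (π z) * (F : Z → ℝ) (c.τ g z)
        - (χ : X → ℝ) (π (c.τ g z)) * (F : Z → ℝ) (c.τ g z) := rfl
    rw [h2]; ring
  have id' : ∀ g, Integrable (fun z => ((mulB χ χ : BL2 μ) : X → ℝ) (π z)
      * ((F : Z → ℝ) z - (F : Z → ℝ) (c.τ g z)) ^ 2) ζ := by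
    intro g
    have h1 := bsq (mulX π hπ χ (F - c.T g F))
    refine h1.congr ?_
    filter_upwards with z
    have h2 : ((mulX π hπ χ (F - c.T g F) : BL2 ζ) : Z → ℝ) z
      = (χ : X → ℝ) (π z) * ((F : Z → ℝ) z - (F : Z → ℝ) (c.τ g z)) := rfl
    rw [h2, mulB_apply]; ring
  have hbb : Integrable (fun g => (2 : ℝ)⁻¹ * ((∫ z, (F : Z → ℝ) z ^ 2
      * ((χ : X → ℝ) (π z) - (χ : X → ℝ) (π (c.τ g z))) ^ 2 ∂ζ)
      + ∫ z, (F : Z → ℝ) (c.τ g z) ^ 2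
        * ((χ : X → ℝ) (π z) - (χ : X → ℝ) (π (c.τ g z))) ^ 2 ∂ζ)) m :=
    (hb1.add hb1').const_mul _
  -- comparison (i)
  have k1 : ∫ g, ∫ z, ((P : Z → ℝ) z - (P : Z → ℝ) (c.τ g z))
      * ((P : Z → ℝ) z - (P : Z → ℝ) (c.τ g z)) ∂ζ ∂m
      ≤ ∫ g, ((∫ z, ((F : Z → ℝ) z - (F : Z → ℝ) (c.τ g z))
        * ((Q : Z → ℝ) z - (Q : Z → ℝ) (c.τ g z)) ∂ζ)
        + 2⁻¹ * ((∫ z, (F : Z → ℝ) z ^ 2
          * ((χ : X → ℝ) (π z) - (χ : X → ℝ) (π (c.τ g z))) ^ 2 ∂ζ)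
          + ∫ z, (F : Z → ℝ) (c.τ g z) ^ 2
          * ((χ : X → ℝ) (π z) - (χ : X → ℝ) (π (c.τ g z))) ^ 2 ∂ζ)) ∂m := by
    refine integral_mono ha1 (hc1.add hbb) fun g => ?_
    show ∫ z, _ ∂ζ ≤ _
    have ibb : Integrable (fun z => (2 : ℝ)⁻¹ * ((F : Z → ℝ) z ^ 2
        * ((χ : X → ℝ) (π z) - (χ : X → ℝ) (π (c.τ g z))) ^ 2
        + (F : Z → ℝ) (c.τ g z) ^ 2
          * ((χ : X → ℝ) (π z) - (χ : X → ℝ) (π (c.τ g z))) ^ 2)) ζ :=
      ((ib g).add (ib' g)).const_mul _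
    rw [← integral_add (ib g) (ib' g), ← integral_const_mul, ← integral_add (ic g) ibb]
    refine integral_mono (ia g) ((ic g).add ibb) fun z => ?_
    simp only [hPz, hQz]
    nlinarith [mul_nonneg (sq_nonneg ((F : Z → ℝ) z - (F : Z → ℝ) (c.τ g z)))
      (sq_nonneg ((χ : X → ℝ) (π z) - (χ : X → ℝ) (π (c.τ g z))))]
  rw [integral_add hc1 hbb, integral_const_mul, integral_add hb1 hb1'] at k1
  -- comparison (ii)
  have k2 : ∫ g, ∫ z, ((mulB χ χ : BL2 μ) : X → ℝ) (π z)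
      * ((F : Z → ℝ) z - (F : Z → ℝ) (c.τ g z)) ^ 2 ∂ζ ∂m
      ≤ ∫ g, (2 * (∫ z, ((P : Z → ℝ) z - (P : Z → ℝ) (c.τ g z))
      * ((P : Z → ℝ) z - (P : Z → ℝ) (c.τ g z)) ∂ζ)
      + 2 * ∫ z, (F : Z → ℝ) (c.τ g z) ^ 2
          * ((χ : X → ℝ) (π z) - (χ : X → ℝ) (π (c.τ g z))) ^ 2 ∂ζ) ∂m := by
    refine integral_mono hd1 ((ha1.const_mul _).add (hb1'.const_mul _)) fun g => ?_
    show ∫ z, _ ∂ζ ≤ _
    rw [← integral_const_mul, ← integral_const_mul,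
      ← integral_add ((ia g).const_mul _) ((ib' g).const_mul _)]
    refine integral_mono (id' g) (((ia g).const_mul _).add ((ib' g).const_mul _)) fun z => ?_
    simp only [hPz, mulB_apply]
    nlinarith [sq_nonneg (((χ : X → ℝ) (π z) * (F : Z → ℝ) z
      - (χ : X → ℝ) (π (c.τ g z)) * (F : Z → ℝ) (c.τ g z))
      + (F : Z → ℝ) (c.τ g z) * ((χ : X → ℝ) (π z) - (χ : X → ℝ) (π (c.τ g z))))]
  rw [integral_add (ha1.const_mul _) (hb1'.const_mul _), integral_const_mul,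
    integral_const_mul] at k2
  have hd2 : ∫ z, ((χ : X → ℝ) (π z)) ^ 2 * ((gmC c m F : BL2 ζ) : Z → ℝ) z ∂ζ
      = ∫ z, ((mulB χ χ : BL2 μ) : X → ℝ) (π z) * ((gmC c m F : BL2 ζ) : Z → ℝ) z ∂ζ := by
    congr 1
    ext z
    rw [mulB_apply]; ring
  rw [hd2, hd0]
  linarith

end Pool.Agent.SZ
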