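import Mathlib
import Pool.Agent.SZ.SDefs

/-!
# SZ S11: intertwining (30 min)

PROOFS.  `A_pull`: `(c'.A m w)(pi z) = int w(g . pi z) dm = int w(pi(g z)) dm`.
`A_adj1`: `int (c'.A m w)(pi z) G(z) dzeta = int int w(pi(gz)) G(z) dm dzeta`, Fubini (`G` integrable, `w` bounded), for each
`g` substitute `z -> g^-1 z`: `int w(pi z) G(g^-1 z) dzeta`, then `g -> g^-1` by `hm`: `= int w(pi z) (A G)(z) dzeta`.
Here `G` is a member of `BL2` which is also integrable; `A G` is integrable again (`A_integrable`: Fubini).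
`A_adj`: induction on `j` (`pow_succ`, `pow_succ'`).
-/

set_option autoImplicit false
set_option linter.unusedSectionVars false
set_option linter.unusedVariables false

namespace Pool.Agent.SZ

open Pool.Agent.IRS MeasureTheory Set Filter Topology

variable {Γ : Type*} [Group Γ] [MeasurableSpace Γ] [MeasurableInv Γ] {X Z : Type*}
  [MeasurableSpace X] [MeasurableSpace Z] {μ : Measure X} [IsProbabilityMeasure μ]
  {ζ : Measure Z} [SigmaFinite ζ]

private lemma A_prod_integrable (c : PAct Γ ζ) (m : Measure Γ) [IsProbabilityMeasure m]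
    {G : BL2 ζ} (hG : Integrable (G : Z → ℝ) ζ) :
    Integrable (fun p : Γ × Z => (G : Z → ℝ) (c.τ p.1 p.2)) (m.prod ζ) := by
  rw [integrable_prod_iff (c.meas_comp (bmeas G)).aestronglyMeasurable]
  refine ⟨?_, ?_⟩
  · filter_upwards with g
    exact (c.mp g).integrable_comp_of_integrable hG
  · have : (fun g : Γ => ∫ z, ‖(G : Z → ℝ) (c.τ g z)‖ ∂ζ)
        = fun _ => ∫ z, ‖(G : Z → ℝ) z‖ ∂ζ := by
      ext g
      exact c.integral_comp g (F := fun z => ‖(G : Z → ℝ) z‖) (bmeas G).norm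
    rw [this]
    exact integrable_const _

theorem A_integrable (c : PAct Γ ζ) (m : Measure Γ) [IsProbabilityMeasure m] {G : BL2 ζ}
    (hG : Integrable (G : Z → ℝ) ζ) : Integrable ((c.A m G : BL2 ζ) : Z → ℝ) ζ :=
  (A_prod_integrable c m hG).integral_prod_right

theorem Apow_integrable (c : PAct Γ ζ) (m : Measure Γ) [IsProbabilityMeasure m] {G : BL2 ζ}
    (hG : Integrable (G : Z → ℝ) ζ) (j : ℕ) :
    Integrable ((((c.A m) ^ j) G : BL2 ζ) : Z → ℝ) ζ := by
  induction j with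
  | zero => simpa using hG
  | succ j ih =>
    have h := A_integrable c m ih
    rw [pow_succ']
    exact h

theorem A_adj1 (c : PAct Γ ζ) (c' : PAct Γ μ) (m : Measure Γ) [IsProbabilityMeasure m]
    (hm : nui m = m) (π : Z → X) (hπ : Measurable π) (heq : ∀ g z, π (c.τ g z) = c'.τ g (π z))
    (w : BL2 μ) {G : BL2 ζ} (hG : Integrable (G : Z → ℝ) ζ) :
    ∫ z, ((c'.A m w : BL2 μ) : X → ℝ) (π z) * (G : Z → ℝ) z ∂ζ
      = ∫ z, (w : X → ℝ) (π z) * ((c.A m G : BL2 ζ) : Z → ℝ) z ∂ζ := by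
  obtain ⟨M, hM⟩ := bbdd w
  have hw : Measurable (fun z => (w : X → ℝ) (π z)) := (bmeas w).comp hπ
  -- the two integrands on the product are integrable
  have i1 : Integrable (fun p : Γ × Z => (w : X → ℝ) (π (c.τ p.1 p.2)) * (G : Z → ℝ) p.2)
      (m.prod ζ) := by
    have h0 : Integrable (fun p : Γ × Z => (G : Z → ℝ) p.2) (m.prod ζ) := hG.comp_snd m
    refine h0.bdd_mul (c := M) ?_ ?_
    · exact (hw.comp c.meas).aestronglyMeasurable
    · filter_upwards with p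
      exact hM _
  have i2 : Integrable (fun p : Γ × Z => (w : X → ℝ) (π p.2) * (G : Z → ℝ) (c.τ p.1 p.2))
      (m.prod ζ) := by
    refine (A_prod_integrable c m hG).bdd_mul (c := M) ?_ ?_
    · exact (hw.comp measurable_snd).aestronglyMeasurable
    · filter_upwards with p
      exact hM _
  have e1 : ∫ z, ((c'.A m w : BL2 μ) : X → ℝ) (π z) * (G : Z → ℝ) z ∂ζ
      = ∫ z, ∫ g, (w : X → ℝ) (π (c.τ g z)) * (G : Z → ℝ) z ∂m ∂ζ := by
    congr 1; ext z
    rw [integral_mul_const, c'.A_apply]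
    simp_rw [heq]
  have e2 : ∫ z, (w : X → ℝ) (π z) * ((c.A m G : BL2 ζ) : Z → ℝ) z ∂ζ
      = ∫ z, ∫ g, (w : X → ℝ) (π z) * (G : Z → ℝ) (c.τ g z) ∂m ∂ζ := by
    congr 1; ext z
    rw [integral_const_mul, c.A_apply]
  rw [e1, e2, ← integral_integral_swap (f := fun g z => (w : X → ℝ) (π (c.τ g z)) * (G : Z → ℝ) z) i1,
    ← integral_integral_swap (f := fun g z => (w : X → ℝ) (π z) * (G : Z → ℝ) (c.τ g z)) i2]
  have e3 : ∀ g : Γ, ∫ z, (w : X → ℝ) (π (c.τ g z)) * (G : Z → ℝ) z ∂ζ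
      = ∫ z, (w : X → ℝ) (π z) * (G : Z → ℝ) (c.τ g⁻¹ z) ∂ζ := by
    intro g
    have h := c.integral_comp g⁻¹ (F := fun z => (w : X → ℝ) (π (c.τ g z)) * (G : Z → ℝ) z)
      ((hw.comp (c.meas_g g)).mul (bmeas G))
    rw [← h]
    simp only [c.apply_inv]
  simp_rw [e3]
  have hΦ : AEStronglyMeasurable (fun g : Γ => ∫ z, (w : X → ℝ) (π z) * (G : Z → ℝ) (c.τ g z) ∂ζ)
      (nui m) := by
    have h := ((hw.comp measurable_snd).mul (c.meas_comp (bmeas G))).stronglyMeasurable.integral_prod_right'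
      (ν := ζ)
    exact h.aestronglyMeasurable
  have e4 : ∫ g, ∫ z, (w : X → ℝ) (π z) * (G : Z → ℝ) (c.τ g z) ∂ζ ∂(nui m)
      = ∫ g, ∫ z, (w : X → ℝ) (π z) * (G : Z → ℝ) (c.τ g⁻¹ z) ∂ζ ∂m := by
    unfold nui at hΦ ⊢
    rw [integral_map measurable_inv.aemeasurable hΦ]
  rw [← e4, hm]

theorem A_adj (c : PAct Γ ζ) (c' : PAct Γ μ) (m : Measure Γ) [IsProbabilityMeasure m]
    (hm : nui m = m) (π : Z → X) (hπ : Measurable π) (heq : ∀ g z, π (c.τ g z) = c'.τ g (π z))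
    (w : BL2 μ) {G : BL2 ζ} (hG : Integrable (G : Z → ℝ) ζ) (j : ℕ) :
    ∫ z, ((((c'.A m) ^ j) w : BL2 μ) : X → ℝ) (π z) * (G : Z → ℝ) z ∂ζ
      = ∫ z, (w : X → ℝ) (π z) * ((((c.A m) ^ j) G : BL2 ζ) : Z → ℝ) z ∂ζ := by
  induction j generalizing w with
  | zero => rfl
  | succ j ih =>
    have h1 := ih (c'.A m w)
    have h2 := A_adj1 c c' m hm π hπ heq w (Apow_integrable c m hG j)
    rw [pow_succ (c'.A m), pow_succ' (c.A m)]
    exact h1.trans h2

end Pool.Agent.SZ
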