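import Mathlib
import Pool.Agent.SZ.SDefs
import Pool.Agent.SZ.S08Dbl
import Pool.Agent.SZ.S11Ent

/-!
# SZ S18: the short part (40 min)

PROOF.  `b := (1+alpha)^-1`, `G := gmC c m F >= 0`, integrable.  For every `J`:
`int u(pi z) G <= 2 int g_J(pi z) G + b^J int G`, and `int g_J(pi z) G = sum_{j<J} alpha b^(j+1) int (A'^j 1_S)(pi z) G(z)
= sum_{j<J} alpha b^(j+1) int 1_S(pi z) (A^j G)(z)` (`A_adj`) `= sum_{j<J} alpha b^(j+1) int_{pi^-1 S} A^j G
<= sum_{j<J} alpha b^(j+1) (Q (1+j) + R) <= Q (1 + 1/alpha) + R` because `sum_{j<J} alpha b^(j+1) (1+j) <= (1+alpha)/alpha`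
(induction: `sum_{j<J} (1+j) b^j <= (1-b)^-2`, `hasSum_coe_mul_geometric_of_norm_lt_one`; or the closed form
`sum_{j<J} (1+j) b^j (1-b)^2 = 1 - (J+1) b^J + J b^(J+1) <= 1`) and `sum_{j<J} alpha b^(j+1) = 1 - b^J <= 1`.
Let `J -> oo` (`b^J -> 0`, `ge_of_tendsto`).
-/

set_option autoImplicit false
set_option linter.unusedSectionVars false
set_option linter.unusedVariables false

namespace Pool.Agent.SZ

open Pool.Agent.IRS MeasureTheory Set Filter Topology

variable {Γ : Type*} [Group Γ] [MeasurableSpace Γ] [MeasurableInv Γ] {X Z : Type*}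
  [MeasurableSpace X] [MeasurableSpace Z] {μ : Measure X} [IsProbabilityMeasure μ]
  {ζ : Measure Z} [SigmaFinite ζ]

/-- The weighted geometric sum. -/
lemma sum_wt_geom {α : ℝ} (hα : 0 < α) (J : ℕ) :
    ∑ j ∈ Finset.range J, α * ((1 + α)⁻¹) ^ (j + 1) * (1 + (j : ℝ)) ≤ 1 + 1 / α := by
  set b : ℝ := (1 + α)⁻¹ with hb
  have hb0 : 0 < b := by rw [hb]; positivity
  have hb1 : b ≤ 1 := by rw [hb]; exact inv_le_one_of_one_le₀ (by linarith)
  have hαb : α * b = 1 - b := by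
    rw [hb]; field_simp; ring
  have hcl : ∀ J : ℕ, (1 - b) * ∑ j ∈ Finset.range J, α * b ^ (j + 1) * (1 + (j : ℝ))
      = 1 - ((J : ℝ) + 1) * b ^ J + J * b ^ (J + 1) := by
    intro J
    induction J with
    | zero => simp
    | succ J ih =>
      rw [Finset.sum_range_succ, mul_add, ih]
      have e : (1 - b) * (α * b ^ (J + 1) * (1 + (J : ℝ))) = (1 - b) ^ 2 * b ^ J * (1 + (J : ℝ)) := by
        rw [pow_succ]
        calc (1 - b) * (α * (b ^ J * b) * (1 + (J : ℝ))) = (1 - b) * (α * b) * b ^ J * (1 + (J : ℝ)) := by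
              ring
          _ = _ := by rw [hαb]; ring
      rw [e]
      push_cast
      ring
  have h1 := hcl J
  have h2 : (1 - b) * ∑ j ∈ Finset.range J, α * b ^ (j + 1) * (1 + (j : ℝ)) ≤ 1 := by
    rw [h1]
    have h3 : (J : ℝ) * b ^ (J + 1) ≤ J * b ^ J :=
      mul_le_mul_of_nonneg_left (pow_le_pow_of_le_one hb0.le hb1 (Nat.le_succ J)) (Nat.cast_nonneg J)
    have h4 : 0 < b ^ J := by positivity
    nlinarith
  have h3 : (1 - b) * (1 + 1 / α) = 1 := by
    rw [← hαb, hb]; field_simp; ring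
  have hb2 : 0 < 1 - b := by rw [← hαb]; positivity
  have h4 : (1 - b) * ∑ j ∈ Finset.range J, α * b ^ (j + 1) * (1 + (j : ℝ)) ≤ (1 - b) * (1 + 1 / α) := by
    rw [h3]; exact h2
  exact le_of_mul_le_mul_left h4 hb2

lemma sum_wt_geom' {α : ℝ} (hα : 0 < α) (J : ℕ) :
    ∑ j ∈ Finset.range J, α * ((1 + α)⁻¹) ^ (j + 1) ≤ 1 := by
  set b : ℝ := (1 + α)⁻¹ with hb
  have hb0 : 0 < b := by rw [hb]; positivity
  have hαb : α * b = 1 - b := by
    rw [hb]; field_simp; ring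
  have h1 : ∑ j ∈ Finset.range J, α * b ^ (j + 1) = (1 - b) * ∑ j ∈ Finset.range J, b ^ j := by
    rw [← hαb, Finset.mul_sum]
    refine Finset.sum_congr rfl fun j _ => ?_
    ring
  have h2 := mul_neg_geom_sum b J
  rw [h1, h2]
  have : 0 < b ^ J := by positivity
  linarith

theorem short_part (c : PAct Γ ζ) (c' : PAct Γ μ) (m : Measure Γ) [IsProbabilityMeasure m]
    (hm : nui m = m) (π : Z → X) (hπ : Measurable π) (heq : ∀ g z, π (c.τ g z) = c'.τ g (π z))
    {S : Set X} (hS : MeasurableSet S) {α : ℝ} (hα : 0 < α) (u : BL2 μ)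
    (hu : ∀ (J : ℕ) (x : X), (u : X → ℝ) x ≤ 2 * grn c' m S hS α J x + ((1 + α)⁻¹) ^ J)
    (F : BL2 ζ) {Q R : ℝ} (hQ : 0 ≤ Q) (hR : 0 ≤ R)
    (hstar : ∀ j : ℕ, ∫ z in π ⁻¹' S, ((((c.A m) ^ j) (gmC c m F) : BL2 ζ) : Z → ℝ) z ∂ζ
      ≤ Q * (1 + j) + R) :
    ∫ z, (u : X → ℝ) (π z) * ((gmC c m F : BL2 ζ) : Z → ℝ) z ∂ζ ≤ 2 * (Q * (1 + 1 / α) + R) := by
  set G : BL2 ζ := gmC c m F with hG
  have hGi : Integrable (G : Z → ℝ) ζ := gm_integrable c m F
  have hGn : ∀ z, 0 ≤ (G : Z → ℝ) z := gm_nn c m F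
  have hint : ∀ w : BL2 μ, Integrable (fun z => (w : X → ℝ) (π z) * (G : Z → ℝ) z) ζ := by
    intro w
    obtain ⟨M, hM⟩ := bbdd w
    refine hGi.bdd_mul (c := M) ((bmeas w).comp hπ).aestronglyMeasurable ?_
    filter_upwards with z
    rw [Real.norm_eq_abs]; exact hM _
  set b : ℝ := (1 + α)⁻¹ with hb
  have hb0 : 0 < b := by rw [hb]; positivity
  have hb1 : b < 1 := by rw [hb]; exact inv_lt_one_of_one_lt₀ (by linarith)
  have hterm : ∀ j : ℕ, ∫ z, ((((c'.A m) ^ j) (indB μ S hS) : BL2 μ) : X → ℝ) (π z) * (G : Z → ℝ) z ∂ζ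
      ≤ Q * (1 + j) + R := by
    intro j
    rw [A_adj c c' m hm π hπ heq (indB μ S hS) hGi j]
    refine le_trans (le_of_eq ?_) (hstar j)
    rw [← integral_indicator (hπ hS)]
    congr 1; ext z
    rw [indB_apply]
    by_cases h : π z ∈ S
    · rw [indicator_of_mem h, indicator_of_mem (show z ∈ π ⁻¹' S from h), one_mul]
    · rw [indicator_of_notMem h, indicator_of_notMem (show z ∉ π ⁻¹' S from h), zero_mul]
  have hJ : ∀ J : ℕ, ∫ z, (u : X → ℝ) (π z) * (G : Z → ℝ) z ∂ζ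
      ≤ 2 * (Q * (1 + 1 / α) + R) + b ^ J * ∫ z, (G : Z → ℝ) z ∂ζ := by
    intro J
    have hgi : Integrable (fun z => grn c' m S hS α J (π z) * (G : Z → ℝ) z) ζ := by
      unfold grn
      simp only [Finset.sum_mul]
      refine integrable_finsetSum _ fun j _ => ?_
      have := (hint (((c'.A m) ^ j) (indB μ S hS))).const_mul (α * ((1 + α)⁻¹) ^ (j + 1))
      refine this.congr ?_
      filter_upwards with z
      ring
    have h1 : ∫ z, (u : X → ℝ) (π z) * (G : Z → ℝ) z ∂ζ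
        ≤ ∫ z, (2 * (grn c' m S hS α J (π z) * (G : Z → ℝ) z) + b ^ J * (G : Z → ℝ) z) ∂ζ := by
      refine integral_mono (hint u) ((hgi.const_mul 2).add (hGi.const_mul _)) fun z => ?_
      have h2 := mul_le_mul_of_nonneg_right (hu J (π z)) (hGn z)
      change (u : X → ℝ) (π z) * (G : Z → ℝ) z ≤ 2 * (grn c' m S hS α J (π z) * (G : Z → ℝ) z)
        + b ^ J * (G : Z → ℝ) z
      linarith
    rw [integral_add (hgi.const_mul 2) (hGi.const_mul _), integral_const_mul,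
      integral_const_mul] at h1
    have h3 : ∫ z, grn c' m S hS α J (π z) * (G : Z → ℝ) z ∂ζ
        = ∑ j ∈ Finset.range J, α * b ^ (j + 1) *
          ∫ z, ((((c'.A m) ^ j) (indB μ S hS) : BL2 μ) : X → ℝ) (π z) * (G : Z → ℝ) z ∂ζ := by
      unfold grn
      simp only [Finset.sum_mul]
      rw [integral_finsetSum]
      · refine Finset.sum_congr rfl fun j _ => ?_
        rw [← integral_const_mul]
        congr 1; ext z; ring
      · intro j _
        have := (hint (((c'.A m) ^ j) (indB μ S hS))).const_mul (α * ((1 + α)⁻¹) ^ (j + 1))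
        refine this.congr ?_
        filter_upwards with z
        ring
    have h4 : ∫ z, grn c' m S hS α J (π z) * (G : Z → ℝ) z ∂ζ ≤ Q * (1 + 1 / α) + R := by
      rw [h3]
      calc _ ≤ ∑ j ∈ Finset.range J, α * b ^ (j + 1) * (Q * (1 + j) + R) := by
            refine Finset.sum_le_sum fun j _ => ?_
            exact mul_le_mul_of_nonneg_left (hterm j) (by positivity)
        _ = Q * ∑ j ∈ Finset.range J, α * b ^ (j + 1) * (1 + (j : ℝ))
              + R * ∑ j ∈ Finset.range J, α * b ^ (j + 1) := by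
            rw [Finset.mul_sum, Finset.mul_sum, ← Finset.sum_add_distrib]
            refine Finset.sum_congr rfl fun j _ => ?_
            ring
        _ ≤ Q * (1 + 1 / α) + R * 1 :=
            add_le_add (mul_le_mul_of_nonneg_left (sum_wt_geom hα J) hQ)
              (mul_le_mul_of_nonneg_left (sum_wt_geom' hα J) hR)
        _ = _ := by ring
    linarith
  have hlim : Tendsto (fun J : ℕ => 2 * (Q * (1 + 1 / α) + R) + b ^ J * ∫ z, (G : Z → ℝ) z ∂ζ) atTop
      (𝓝 (2 * (Q * (1 + 1 / α) + R) + 0 * ∫ z, (G : Z → ℝ) z ∂ζ)) :=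
    ((tendsto_pow_atTop_nhds_zero_of_lt_one hb0.le hb1).mul_const _).const_add _
  rw [zero_mul, add_zero] at hlim
  exact ge_of_tendsto' hlim hJ

end Pool.Agent.SZ
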