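import Mathlib
import Pool.Agent.SZ.SDefs
import Pool.Agent.SZ.S02Mk
import Pool.Agent.SZ.S08Dbl
import Pool.Agent.SZ.S10Long
import Pool.Agent.SZ.S13Hit
import Pool.Agent.SZ.S18Sht

/-!
# SZ S19: the basic inequality (S6) (40 min)

PROOF.  `chi := 1 - u` (`cstB mu 1 - u`), `E := <(1-A)F,F> = int G`, `G := gmC c m F` (`gm_tot`), `Q := |(1-A)F|^2`.
`1 = chi^2 + (2u - u^2)`, so `E = int chi^2 G + int (2u-u^2) G <= int chi^2 G + 2 int u G` (`G >= 0`, `gm_nn`,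
integrability: `G` integrable (`gm_integrable`) times bounded).
`long_part` with `chi`: the hypothesis: `<(1-A)F, chi^2 F> = int ((1-A)F)(z) chi(pi z)^2 F(z)`; on `pi^-1 Y` `chi = 0`; off
it `(1-A)F = -kappa F`; so the integrand is `-kappa chi^2 F^2 <= 0`.  Hence `int chi^2 G <= 4 <(1-A')chi,chi> =
4 alpha int u(1-u)` (`hit_energy`).
`short_part` with `Q := C1 |(1-A)F|^2`, `R := (1/16) E`: `2 int u G <= 4 C1 (1+1/alpha) |(1-A)F|^2 + (1/4) E`.
So `(3/4) E <= 4 alpha s + 4 C1 (1 + 1/alpha) |..|^2` and `1 + 1/alpha <= 2/alpha`: `E <= (16/3) alpha s +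
(32/3) (C1/alpha) |..|^2`.
-/

set_option autoImplicit false
set_option linter.unusedSectionVars false
set_option linter.unusedVariables false

namespace Pool.Agent.SZ

open Pool.Agent.IRS MeasureTheory Set Filter Topology

variable {Γ : Type*} [Group Γ] [MeasurableSpace Γ] [MeasurableInv Γ] {X Z : Type*}
  [MeasurableSpace X] [MeasurableSpace Z] {μ : Measure X} [IsProbabilityMeasure μ]
  {ζ : Measure Z} [SigmaFinite ζ]

theorem step_six (c : PAct Γ ζ) (c' : PAct Γ μ) (m : Measure Γ) [IsProbabilityMeasure m]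
    (hm : nui m = m) (π : Z → X) (hπ : Measurable π) (heq : ∀ g z, π (c.τ g z) = c'.τ g (π z))
    {S Y : Set X} (hS : MeasurableSet S) {κ α C1 : ℝ} (hκ : 0 ≤ κ) (hα : 0 < α) (hα1 : α ≤ 1)
    (hC1 : 0 ≤ C1) {u : BL2 μ} (hu : IsHit c' m Y α u)
    (hug : ∀ (J : ℕ) (x : X), (u : X → ℝ) x ≤ 2 * grn c' m S hS α J x + ((1 + α)⁻¹) ^ J)
    {F : BL2 ζ} (hF : ClP μ π F)
    (hoff : ∀ z, π z ∉ Y → (((1 - c.A m) F : BL2 ζ) : Z → ℝ) z + κ * (F : Z → ℝ) z = 0)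
    (hstar : ∀ j : ℕ, ∫ z in π ⁻¹' S, ((((c.A m) ^ j) (gmC c m F) : BL2 ζ) : Z → ℝ) z ∂ζ
      ≤ C1 * (1 + j) * (frm ζ).B ((1 - c.A m) F) ((1 - c.A m) F)
        + 1 / 16 * (frm ζ).B ((1 - c.A m) F) F) :
    (frm ζ).B ((1 - c.A m) F) F ≤ 8 * α * ∫ x, (u : X → ℝ) x * (1 - (u : X → ℝ) x) ∂μ
      + 16 * C1 / α * (frm ζ).B ((1 - c.A m) F) ((1 - c.A m) F) := by
  have htot := gm_tot c m hm F
  have hQ0 : 0 ≤ (frm ζ).B ((1 - c.A m) F) ((1 - c.A m) F) := (frm ζ).nonneg _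
  have hG0 : ∀ z, 0 ≤ ((gmC c m F : BL2 ζ) : Z → ℝ) z := gm_nn c m F
  have hE0 : 0 ≤ (frm ζ).B ((1 - c.A m) F) F := by
    rw [← htot]
    exact integral_nonneg hG0
  -- integrability
  have hint : ∀ w : BL2 μ, Integrable (fun z => (w : X → ℝ) (π z)
      * ((gmC c m F : BL2 ζ) : Z → ℝ) z) ζ := by
    intro w
    obtain ⟨M, hM⟩ := bbdd w
    refine ((gm_integrable c m F).norm.const_mul M).mono'
      (((bmeas w).comp hπ).mul (bmeas (gmC c m F))).aestronglyMeasurable ?_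
    filter_upwards with z
    rw [norm_mul]
    exact mul_le_mul_of_nonneg_right (by simpa using hM (π z)) (norm_nonneg _)
  -- the long part
  have hlong : ∫ z, (((cstB μ 1 - u : BL2 μ) : X → ℝ) (π z)) ^ 2
      * ((gmC c m F : BL2 ζ) : Z → ℝ) z ∂ζ
      ≤ 4 * (α * ∫ x, (u : X → ℝ) x * (1 - (u : X → ℝ) x) ∂μ) := by
    rw [← hit_energy c' m hu]
    refine long_part c c' m hm π hπ heq hF (cstB μ 1 - u) ?_
    rw [frm_apply]
    refine integral_nonpos fun z => ?_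
    change (((1 - c.A m) F : BL2 ζ) : Z → ℝ) z
      * ((1 - (u : X → ℝ) (π z)) * (1 - (u : X → ℝ) (π z)) * (F : Z → ℝ) z) ≤ 0
    by_cases hz : π z ∈ Y
    · rw [hu.on _ hz]
      simp
    · have h1 := hoff z hz
      have h2 : (((1 - c.A m) F : BL2 ζ) : Z → ℝ) z = -(κ * (F : Z → ℝ) z) := by linarith
      rw [h2]
      have h3 : 0 ≤ κ * ((1 - (u : X → ℝ) (π z)) ^ 2 * ((F : Z → ℝ) z) ^ 2) := by positivity
      nlinarith [h3]
  -- the short part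
  have hshort := short_part c c' m hm π hπ heq hS hα u hug F
    (Q := C1 * (frm ζ).B ((1 - c.A m) F) ((1 - c.A m) F))
    (R := 1 / 16 * (frm ζ).B ((1 - c.A m) F) F) (mul_nonneg hC1 hQ0) (by positivity)
    (fun j => (hstar j).trans (le_of_eq (by ring)))
  -- the splitting
  have hsplit : (frm ζ).B ((1 - c.A m) F) F
      ≤ ∫ z, (((cstB μ 1 - u : BL2 μ) : X → ℝ) (π z)) ^ 2 * ((gmC c m F : BL2 ζ) : Z → ℝ) z ∂ζ
        + 2 * ∫ z, (u : X → ℝ) (π z) * ((gmC c m F : BL2 ζ) : Z → ℝ) z ∂ζ := by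
    rw [← htot, ← integral_const_mul]
    have i1 : Integrable (fun z => (((cstB μ 1 - u : BL2 μ) : X → ℝ) (π z)) ^ 2
        * ((gmC c m F : BL2 ζ) : Z → ℝ) z) ζ := by
      have := hint (mulB (cstB μ 1 - u) (cstB μ 1 - u))
      refine this.congr (Filter.Eventually.of_forall fun z => ?_)
      simp only [mulB_apply]
      ring
    have i2 : Integrable (fun z => 2 * ((u : X → ℝ) (π z)
        * ((gmC c m F : BL2 ζ) : Z → ℝ) z)) ζ := (hint u).const_mul 2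
    rw [← integral_add i1 i2]
    refine integral_mono (gm_integrable c m F) (i1.add i2) fun z => ?_
    change ((gmC c m F : BL2 ζ) : Z → ℝ) z ≤ (1 - (u : X → ℝ) (π z)) ^ 2
      * ((gmC c m F : BL2 ζ) : Z → ℝ) z + 2 * ((u : X → ℝ) (π z) * ((gmC c m F : BL2 ζ) : Z → ℝ) z)
    nlinarith [mul_nonneg (sq_nonneg ((u : X → ℝ) (π z))) (hG0 z)]
  have hs0 : 0 ≤ ∫ x, (u : X → ℝ) x * (1 - (u : X → ℝ) x) ∂μ :=
    integral_nonneg fun x => mul_nonneg (hu.nn x) (by have := hu.le x; simpa using this)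
  have hαi : 1 + 1 / α ≤ 2 / α := by
    rw [le_div_iff₀ hα]
    have : (1 + 1 / α) * α = α + 1 := by field_simp
    rw [this]; linarith
  have hC : C1 * (frm ζ).B ((1 - c.A m) F) ((1 - c.A m) F) * (1 + 1 / α)
      ≤ C1 * (frm ζ).B ((1 - c.A m) F) ((1 - c.A m) F) * (2 / α) :=
    mul_le_mul_of_nonneg_left hαi (mul_nonneg hC1 hQ0)
  have hC2 : 16 * C1 / α * (frm ζ).B ((1 - c.A m) F) ((1 - c.A m) F)
      = 8 * (C1 * (frm ζ).B ((1 - c.A m) F) ((1 - c.A m) F) * (2 / α)) := by ring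
  have hC3 : 0 ≤ C1 * (frm ζ).B ((1 - c.A m) F) ((1 - c.A m) F) * (2 / α) :=
    mul_nonneg (mul_nonneg hC1 hQ0) (by positivity)
  have hs1 : 0 ≤ α * ∫ x, (u : X → ℝ) x * (1 - (u : X → ℝ) x) ∂μ := mul_nonneg hα.le hs0
  rw [hC2]
  nlinarith [hsplit, hlong, hshort, hC, hC3, hs1]

end Pool.Agent.SZ
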