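import Mathlib
import Pool.Agent.SZ.SDefs

/-!
# SZ S20: the numerical recursion (50 min)

PROOF.  `M := 128 C1`, `E_k := 2^k e(2^k)`, `err_k := 2^(k+1) (kappa + (16 C1 2^k/M) * 2 kappa^2) = 2^(k+1) kappa + 2^(2k-1) kappa^2`
(since `16 C1/M = 1/8`: `2^(k+1) * 2^k/8 * 2 = 2^(2k-1)`).  For `k >= k0` (`M <= 2^k0`), from `hrec`:
`E_(k+1) = 2^(k+1) e(2^(k+1)) <= 16 M sigma_k + (1/4) E_k + err_k`.
Let `A := sum_{k0<=k<k1} E_k`, then `A <= E_(k0) + sum_{k0<=k<k1-1} E_(k+1) <= E_(k0) + 16 M sum sigma + A/4 + sum err`, so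
`A <= (4/3)(E_(k0) + 16 M sum_{k0<=k<k1} sigma_k + sum_{k0<=k<k1} err_k)`; `sum err <= 2^(k1+1) kappa + 4^k1 kappa^2`
(geometric; `<= 4^(k1+1) (kappa + kappa^2)` is all we need).
`N(2^k) - N(2^(k+1)) = sum_{n=2^k+1}^{2^(k+1)} (N(n-1) - N(n)) <= sum 2 e(n-1) <= 2 * 2^k e(2^k) = 2 E_k`.
`N(0) - N(2^k0) <= 2 W + sum_{n=2}^{2^k0} 2 e(n-1) <= 2 * 2^k0 W`, `W := E + kappa` bounds `e(1)`; `E_(k0) <= 2^k0 W`.
Total: `N(0) - N(2^k1) <= 2^(k0+1) W + (8/3)(2^k0 W + 16 M sum sigma + sum err) <= 5 * 2^k0 W + 43 M s + 3 * 4^(k1+1)(kappa+kappa^2)`.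
-/

set_option autoImplicit false
set_option linter.unusedSectionVars false
set_option linter.unusedVariables false

namespace Pool.Agent.SZ

open Pool.Agent.IRS MeasureTheory Set Filter Topology

/-- Block decrement of `N`. -/
lemma numRec_block (e N : ℕ → ℝ) (hanti : ∀ n k, 1 ≤ n → n ≤ k → e k ≤ e n)
    (hN : ∀ n, 2 ≤ n → N (n - 1) - N n ≤ 2 * e (n - 1)) (a : ℕ) (ha : 1 ≤ a) (j : ℕ) :
    N a - N (a + j) ≤ 2 * j * e a := by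
  induction j with
  | zero => simp
  | succ j ih =>
      have h1 := hN (a + j + 1) (by omega)
      rw [show a + j + 1 - 1 = a + j by omega] at h1
      have h2 := hanti a (a + j) ha (by omega)
      push_cast
      rw [← add_assoc]
      nlinarith

theorem num_rec (e N σ : ℕ → ℝ) {C1 κ W s : ℝ} (hC1 : 0 < C1) (hκ : 0 ≤ κ)
    (he0 : ∀ n, 1 ≤ n → 0 ≤ e n) (hanti : ∀ n k, 1 ≤ n → n ≤ k → e k ≤ e n)
    (he1 : e 1 ≤ W) (hN1 : N 0 - N 1 ≤ 2 * W) (hN : ∀ n, 2 ≤ n → N (n - 1) - N n ≤ 2 * e (n - 1))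
    (k0 : ℕ) (hk0 : 128 * C1 ≤ 2 ^ k0)
    (hrec : ∀ k, k0 ≤ k → e (2 ^ (k + 1)) ≤ 8 * (128 * C1 / 2 ^ k) * σ k
      + 16 * C1 / (128 * C1 / 2 ^ k) * (e (2 ^ k) / 2 ^ k + 2 * κ ^ 2) + κ)
    (hσ : ∀ k, 0 ≤ σ k) (hs : ∀ k1, k0 ≤ k1 → ∑ k ∈ Finset.Ico k0 k1, σ k ≤ s) (k1 : ℕ)
    (hk1 : k0 ≤ k1) :
    N 0 - N (2 ^ k1) ≤ 5 * 2 ^ k0 * W + 43 * (128 * C1) * s + 3 * 4 ^ (k1 + 1) * (κ + κ ^ 2) := by
  have hW : 0 ≤ W := (he0 1 le_rfl).trans he1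
  have hs0 : 0 ≤ s := by simpa using hs k0 le_rfl
  -- the recursion
  have hE : ∀ k, k0 ≤ k → (2 : ℝ) ^ (k + 1) * e (2 ^ (k + 1)) ≤ 16 * (128 * C1) * σ k
      + 1 / 4 * ((2 : ℝ) ^ k * e (2 ^ k)) + ((2 : ℝ) ^ (k + 1) * κ + 1 / 2 * 4 ^ k * κ ^ 2) := by
    intro k hk
    have h2 : (0 : ℝ) < 2 ^ k := by positivity
    have h4 : (4 : ℝ) ^ k = 2 ^ k * 2 ^ k := by
      rw [← mul_pow]; norm_num
    have h := mul_le_mul_of_nonneg_left (hrec k hk) (show (0 : ℝ) ≤ 2 ^ (k + 1) by positivity)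
    refine h.trans (le_of_eq ?_)
    rw [h4, pow_succ]
    field_simp
    ring
  -- the beginning
  have hbeg : ∀ n, 1 ≤ n → N 0 - N n ≤ 2 * n * W := by
    intro n hn
    obtain ⟨j, rfl⟩ : ∃ j, n = 1 + j := ⟨n - 1, by omega⟩
    have h1 := numRec_block e N hanti hN 1 le_rfl j
    have h2 : (2 : ℝ) * j * e 1 ≤ 2 * j * W :=
      mul_le_mul_of_nonneg_left he1 (by positivity)
    push_cast
    linarith
  have hblock : ∀ k, N (2 ^ k) - N (2 ^ (k + 1)) ≤ 2 * (2 ^ k * e (2 ^ k)) := by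
    intro k
    have h1 := numRec_block e N hanti hN (2 ^ k) Nat.one_le_two_pow (2 ^ k)
    rw [show 2 ^ k + 2 ^ k = 2 ^ (k + 1) by ring] at h1
    push_cast at h1
    linarith
  have main : ∀ k, k0 ≤ k → N 0 - N (2 ^ k) + 8 / 3 * (2 ^ k * e (2 ^ k))
      ≤ 14 / 3 * (2 ^ k0 * W) + 128 / 3 * (128 * C1) * (∑ i ∈ Finset.Ico k0 k, σ i)
        + 8 / 3 * ((2 : ℝ) ^ (k + 1) * κ + 4 ^ k * κ ^ 2) := by
    intro k hk
    induction k, hk using Nat.le_induction with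
    | base =>
        have h1 := hbeg (2 ^ k0) Nat.one_le_two_pow
        push_cast at h1
        have h2 : e (2 ^ k0) ≤ W := (hanti 1 (2 ^ k0) le_rfl Nat.one_le_two_pow).trans he1
        have h3 : (2 : ℝ) ^ k0 * e (2 ^ k0) ≤ 2 ^ k0 * W :=
          mul_le_mul_of_nonneg_left h2 (by positivity)
        have h4 : (0 : ℝ) ≤ (2 : ℝ) ^ (k0 + 1) * κ + 4 ^ k0 * κ ^ 2 := by positivity
        rw [Finset.Ico_self, Finset.sum_empty]
        nlinarith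
    | succ k hk ih =>
        have h1 := hE k hk
        have h2 := hblock k
        rw [Finset.sum_Ico_succ_top hk, mul_add]
        have h4 : (0 : ℝ) ≤ 4 ^ k * κ ^ 2 := by positivity
        have h5 : (2 : ℝ) ^ (k + 1 + 1) * κ = 2 * ((2 : ℝ) ^ (k + 1) * κ) := by ring
        have h6 : (4 : ℝ) ^ (k + 1) * κ ^ 2 = 4 * (4 ^ k * κ ^ 2) := by ring
        rw [h5, h6]
        nlinarith
  have h1 := main k1 hk1
  have h2 := he0 (2 ^ k1) Nat.one_le_two_pow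
  have h3 : (0 : ℝ) ≤ 2 ^ k1 * e (2 ^ k1) := mul_nonneg (by positivity) h2
  have h4 : 128 / 3 * (128 * C1) * (∑ i ∈ Finset.Ico k0 k1, σ i)
      ≤ 43 * (128 * C1) * s := by
    have h5 : 128 / 3 * (128 * C1) * (∑ i ∈ Finset.Ico k0 k1, σ i)
        ≤ 128 / 3 * (128 * C1) * s :=
      mul_le_mul_of_nonneg_left (hs k1 hk1) (by positivity)
    have h6 : 0 ≤ (128 * C1) * s := by positivity
    linarith
  have h7 : (2 : ℝ) ^ (k1 + 1) * κ ≤ 4 ^ (k1 + 1) * κ :=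
    mul_le_mul_of_nonneg_right (pow_le_pow_left₀ (by norm_num) (by norm_num) _) hκ
  have h8 : (4 : ℝ) ^ k1 * κ ^ 2 ≤ 4 ^ (k1 + 1) * κ ^ 2 :=
    mul_le_mul_of_nonneg_right (pow_le_pow_right₀ (by norm_num) (by omega)) (sq_nonneg κ)
  have h9 : (0 : ℝ) ≤ 4 ^ (k1 + 1) * κ := by positivity
  have h10 : (0 : ℝ) ≤ 4 ^ (k1 + 1) * κ ^ 2 := by positivity
  have h11 : (0 : ℝ) ≤ 2 ^ k0 * W := by positivity
  nlinarith

end Pool.Agent.SZ
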