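import Mathlib
import Pool.Agent.SZ.SDefs
import Pool.Agent.SZ.S03Res
import Pool.Agent.SZ.S05Cl
import Pool.Agent.SZ.S07Abs
import Pool.Agent.SZ.S13Hit
import Pool.Agent.SZ.S15Max
import Pool.Agent.SZ.S17Grn
import Pool.Agent.SZ.S19Six
import Pool.Agent.SZ.S20Rec

/-!
# SZ S21: the lower bound for all k1 (60 min)

PROOF.  `hstar` with `eps = 1/16`, `eta = 1/8` gives `S` and a constant; let `C1 := max (that constant) 1`.  `maxset` gives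
`Y` with `mu(Y^c) <= 2 mu(S^c) <= 1/4`.  `M := 128 C1`, `hit_sum` gives `u_k, sigma_k` (`alpha_k = M/2^k`), `hit_le_grn`.
Choose `k0` with `M <= 2^k0` and `43 M sum_{k>=k0} sigma_k <= 1/32` (tail of a summable series), then
`eta0 := 1/(5 * 2^k0 * 64)`.  Let `f` be in ClP with `<(1-A)f,f> <= eta0` and, for contradiction, `|f|^2 >= 7/8`.  Given
`k1 >= max k0 1`, choose `kappa in (0,1]` with `5 * 2^k0 kappa + 6 * 4^(k1+1) kappa <= 1/32`; `resolvent` gives `Bi`.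
`F_n := scF Pi Bi f n`, `e := sce .. f`, `N := scN .. f`.  `num_rec` with `W := <(1-A)f,f> + kappa` (`|f|^2 <= 1` by
`ClP_int`): `sc_anti`, `sc_first`, `sc_drop`, `sc_nonneg`.
`hrec`: for `k >= k0`, `n := 2^k`, `alpha := M/n <= 1`, `F := F_(2n)`: ClP (`T`, `K` preserve ClP: `ClP_res`, `ClP_ind`,
induction on the power: `K g = Pi (Bi (Pi g))`), and off `Y`: `((1-A) + kappa) F_(2n) = d_(2n) = Pi d_(2n)` vanishes
(`sc_Pi_d`).  `step_six`: `E(F) <= 8 alpha sigma_k + (16 C1/alpha) |(1-A)F|^2`, `(1-A)F = d_(2n) - kappa F`,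
`|(1-A)F|^2 <= 2 |d_(2n)|^2 + 2 kappa^2 |F|^2 <= e(n)/n + 2 kappa^2` (`sc_dd`), and `e(2n) = E(F) + kappa |F|^2 <= E(F) + kappa`.
`2^(k+1) = 2 * 2^k`.  The hypothesis `hstar` of `step_six` follows from ours since `|..|^2 >= 0` and `C1` is enlarged.
So `N(0) - N(2^k1) <= 1/64 + ... <= 1/8` and `N(0) = |Pi f|^2 >= 7/8 - 1/4` (`ClP_mass`): `N(2^k1) >= 1/4`.
`F := F_(2^k1)`: `<F, Pi f> >= N(2^k1) >= 1/4` (`sc_pair`), `E(F) <= e(2^k1) <= 1/(2*2^k1)` (`sc_small`; `e(n) =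
E(F_n) + kappa |F_n|^2`), `|F|^2 <= 1` (ClP).
-/

set_option autoImplicit false
set_option linter.unusedSectionVars false
set_option linter.unusedVariables false

namespace Pool.Agent.SZ

open Pool.Agent.IRS MeasureTheory Set Filter Topology

variable {Γ : Type*} [Group Γ] [MeasurableSpace Γ] [MeasurableInv Γ] {X Z : Type*}
  [MeasurableSpace X] [MeasurableSpace Z] {μ : Measure X} [IsProbabilityMeasure μ]
  {ζ : Measure Z} [SigmaFinite ζ]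

/-- Powers of `K` preserve the class. -/
theorem low_ClP (c : PAct Γ ζ) (c' : PAct Γ μ) (m : Measure Γ) [IsProbabilityMeasure m]
    (π : Z → X) (hπ : Measurable π) (heq : ∀ g z, π (c.τ g z) = c'.τ g (π z))
    {Y : Set X} (hY : MeasurableSet Y) {κ : ℝ} (hκ : 0 < κ) {Bi : Module.End ℝ (BL2 ζ)}
    (hG : ∀ g : BL2 ζ, ∃ G : ℕ → BL2 ζ, G 0 = 0 ∧
        (∀ k z, ((G (k + 1) : BL2 ζ) : Z → ℝ) z * (1 + κ + Y.indicator (fun _ => (1 : ℝ)) (π z))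
          = ((c.A m (G k) : BL2 ζ) : Z → ℝ) z + (g : Z → ℝ) z) ∧
        ∀ z, Tendsto (fun k => ((G k : BL2 ζ) : Z → ℝ) z) atTop (𝓝 (((Bi g : BL2 ζ) : Z → ℝ) z)))
    {f : BL2 ζ} (hf : ClP μ π f) (n : ℕ) :
    ClP μ π (scF (mulX π hπ (indB μ Y hY)) Bi f n) := by
  have h1 : ∀ g : BL2 ζ, ClP μ π g → ClP μ π (Bi (mulX π hπ (indB μ Y hY) g)) := by
    intro g hg
    obtain ⟨G, g0, g1, g2⟩ := hG (mulX π hπ (indB μ Y hY) g)
    exact ClP_res c c' π hπ heq m hY hκ hg G g0 g1 g2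
  have h2 : ∀ j : ℕ, ClP μ π ((scK (mulX π hπ (indB μ Y hY)) Bi ^ j) f) := by
    intro j
    induction j with
    | zero => simpa using hf
    | succ j ih =>
      rw [pow_succ', Module.End.mul_apply]
      exact ClP_ind hπ hY (h1 _ ih)
  exact h1 _ (h2 (n - 1))

/-- One step of the recursion. -/
theorem low_step (c : PAct Γ ζ) (c' : PAct Γ μ) (m : Measure Γ) [IsProbabilityMeasure m]
    (hm : nui m = m) (π : Z → X) (hπ : Measurable π) (heq : ∀ g z, π (c.τ g z) = c'.τ g (π z))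
    {S Y : Set X} (hS : MeasurableSet S) (hY : MeasurableSet Y) {C1 : ℝ} (hC1 : 1 ≤ C1)
    (hC : ∀ (F : BL2 ζ) (j : ℕ),
        ∫ z in π ⁻¹' S, ((((c.A m) ^ j) (gmC c m F) : BL2 ζ) : Z → ℝ) z ∂ζ
          ≤ C1 * (1 + j) * (frm ζ).B ((1 - c.A m) F) ((1 - c.A m) F)
            + 1 / 16 * (frm ζ).B ((1 - c.A m) F) F)
    {κ : ℝ} (hκ : 0 < κ) {Bi : Module.End ℝ (BL2 ζ)}
    (hR : SCR (frm ζ) (1 - c.A m) (mulX π hπ (indB μ Y hY)) Bi κ)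
    {f : BL2 ζ} (hcl : ∀ n, ClP μ π (scF (mulX π hπ (indB μ Y hY)) Bi f n))
    {k : ℕ} (hk : 128 * C1 ≤ 2 ^ k) {u : BL2 μ} (hu : IsHit c' m Y (128 * C1 / 2 ^ k) u)
    (hug : ∀ (J : ℕ) (x : X), (u : X → ℝ) x ≤ 2 * grn c' m S hS (128 * C1 / 2 ^ k) J x
      + ((1 + 128 * C1 / 2 ^ k)⁻¹) ^ J) {σ : ℝ}
    (hσ : ∫ x, (u : X → ℝ) x * (1 - (u : X → ℝ) x) ∂μ ≤ σ) :
    sce (frm ζ) (1 - c.A m) (mulX π hπ (indB μ Y hY)) Bi κ f (2 ^ (k + 1))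
      ≤ 8 * (128 * C1 / 2 ^ k) * σ
        + 16 * C1 / (128 * C1 / 2 ^ k)
          * (sce (frm ζ) (1 - c.A m) (mulX π hπ (indB μ Y hY)) Bi κ f (2 ^ k) / 2 ^ k + 2 * κ ^ 2)
        + κ := by
  have hC1' : 0 < C1 := by linarith
  have h2k : (0 : ℝ) < 2 ^ k := by positivity
  have hα : 0 < 128 * C1 / 2 ^ k := by positivity
  have hα1 : 128 * C1 / 2 ^ k ≤ 1 := by
    rw [div_le_one h2k]; exact hk
  have hn1 : 1 ≤ 2 ^ k := Nat.one_le_two_pow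
  have e2 : (2 : ℕ) ^ (k + 1) = 2 * 2 ^ k := by rw [pow_succ]; ring
  have hn2 : 1 ≤ 2 * 2 ^ k := by omega
  rw [e2]
  set F : BL2 ζ := scF (mulX π hπ (indB μ Y hY)) Bi f (2 * 2 ^ k) with hF
  have hFF : (frm ζ).B F F ≤ 1 := by
    rw [frm_self]; exact ClP_int (hcl _)
  have hFF0 : 0 ≤ (frm ζ).B F F := (frm ζ).nonneg F
  set d : BL2 ζ := scd (1 - c.A m) (mulX π hπ (indB μ Y hY)) Bi κ f (2 * 2 ^ k) with hd
  have hdF : d = (1 - c.A m) F + κ • F := rfl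
  have hoff : ∀ z, π z ∉ Y → (((1 - c.A m) F : BL2 ζ) : Z → ℝ) z + κ * (F : Z → ℝ) z = 0 := by
    intro z hz
    have h1 : (d : Z → ℝ) z = (((1 - c.A m) F : BL2 ζ) : Z → ℝ) z + κ * (F : Z → ℝ) z := rfl
    rw [← h1]
    have h2 := sc_Pi_d hR f hn2
    rw [← hd] at h2
    rw [← h2, mulX_apply, indB_apply, indicator_of_notMem hz, zero_mul]
  have h6 := step_six c c' m hm π hπ heq hS hκ.le hα hα1 hC1'.le hu hug (hcl (2 * 2 ^ k)) hoff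
    (hC F)
  have hdd := sc_dd hR f hn1
  rw [← hd] at hdd
  have hDF : (1 - c.A m) F = d - κ • F := by rw [hdF]; abel
  have hq : (frm ζ).B ((1 - c.A m) F) ((1 - c.A m) F)
      ≤ sce (frm ζ) (1 - c.A m) (mulX π hπ (indB μ Y hY)) Bi κ f (2 ^ k) / 2 ^ k + 2 * κ ^ 2 := by
    have h1 := (frm ζ).nonneg (d + κ • F)
    have h2 : (frm ζ).B ((1 - c.A m) F) ((1 - c.A m) F) + (frm ζ).B (d + κ • F) (d + κ • F)
        = 2 * (frm ζ).B d d + 2 * κ ^ 2 * (frm ζ).B F F := by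
      rw [hDF]
      simp only [map_add, map_sub, map_smul, LinearMap.add_apply, LinearMap.sub_apply,
        LinearMap.smul_apply, smul_eq_mul]
      ring
    have h3 : 2 * κ ^ 2 * (frm ζ).B F F ≤ 2 * κ ^ 2 * 1 :=
      mul_le_mul_of_nonneg_left hFF (by positivity)
    have h4 : (frm ζ).B d d
        ≤ sce (frm ζ) (1 - c.A m) (mulX π hπ (indB μ Y hY)) Bi κ f (2 ^ k) / (2 * 2 ^ k) := by
      have := hdd
      push_cast at this
      exact this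
    have h5 : 2 * (sce (frm ζ) (1 - c.A m) (mulX π hπ (indB μ Y hY)) Bi κ f (2 ^ k) / (2 * 2 ^ k))
        = sce (frm ζ) (1 - c.A m) (mulX π hπ (indB μ Y hY)) Bi κ f (2 ^ k) / 2 ^ k := by
      field_simp
    linarith
  have he : sce (frm ζ) (1 - c.A m) (mulX π hπ (indB μ Y hY)) Bi κ f (2 * 2 ^ k)
      = (frm ζ).B ((1 - c.A m) F) F + κ * (frm ζ).B F F := by
    rw [sce, ← hd, ← hF, hdF]
    simp only [map_add, map_smul, LinearMap.add_apply, LinearMap.smul_apply, smul_eq_mul]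
  have h7 : κ * (frm ζ).B F F ≤ κ * 1 := mul_le_mul_of_nonneg_left hFF hκ.le
  have h8 : 8 * (128 * C1 / 2 ^ k) * ∫ x, (u : X → ℝ) x * (1 - (u : X → ℝ) x) ∂μ
      ≤ 8 * (128 * C1 / 2 ^ k) * σ := mul_le_mul_of_nonneg_left hσ (by positivity)
  have h9 : 16 * C1 / (128 * C1 / 2 ^ k) * (frm ζ).B ((1 - c.A m) F) ((1 - c.A m) F)
      ≤ 16 * C1 / (128 * C1 / 2 ^ k)
          * (sce (frm ζ) (1 - c.A m) (mulX π hπ (indB μ Y hY)) Bi κ f (2 ^ k) / 2 ^ k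
            + 2 * κ ^ 2) := mul_le_mul_of_nonneg_left hq (by positivity)
  rw [he]
  linarith

theorem low_bound (c : PAct Γ ζ) (c' : PAct Γ μ) (m : Measure Γ) [IsProbabilityMeasure m]
    (hm : nui m = m) (π : Z → X) (hπ : Measurable π) (heq : ∀ g z, π (c.τ g z) = c'.τ g (π z))
    (hstar : ∀ ε η : ℝ, 0 < ε → 0 < η → ∃ S : Set X, MeasurableSet S ∧
      μ Sᶜ ≤ ENNReal.ofReal η ∧ ∃ C1 : ℝ, ∀ (F : BL2 ζ) (j : ℕ),
        ∫ z in π ⁻¹' S, ((((c.A m) ^ j) (gmC c m F) : BL2 ζ) : Z → ℝ) z ∂ζ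
          ≤ C1 * (1 + j) * (frm ζ).B ((1 - c.A m) F) ((1 - c.A m) F)
            + ε * (frm ζ).B ((1 - c.A m) F) F) :
    ∃ η : ℝ, 0 < η ∧ ∀ f : BL2 ζ, ClP μ π f → (frm ζ).B ((1 - c.A m) f) f ≤ η →
      7 / 8 ≤ ∫ z, (f : Z → ℝ) z ^ 2 ∂ζ →
      ∃ h : BL2 ζ, ∀ k : ℕ, ∃ F : BL2 ζ, (frm ζ).B F F ≤ 1 ∧
        (frm ζ).B ((1 - c.A m) F) F ≤ 1 / 2 ^ k ∧ 1 / 4 ≤ (frm ζ).B F h := by
  obtain ⟨S, hS, hSμ, C0, hC0⟩ := hstar (1 / 16) (1 / 8) (by norm_num) (by norm_num)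
  set C1 : ℝ := max C0 1 with hC1d
  have hC1 : 1 ≤ C1 := le_max_right _ _
  have hC : ∀ (F : BL2 ζ) (j : ℕ),
        ∫ z in π ⁻¹' S, ((((c.A m) ^ j) (gmC c m F) : BL2 ζ) : Z → ℝ) z ∂ζ
          ≤ C1 * (1 + j) * (frm ζ).B ((1 - c.A m) F) ((1 - c.A m) F)
            + 1 / 16 * (frm ζ).B ((1 - c.A m) F) F := by
    intro F j
    have h1 := hC0 F j
    have h2 : C0 * (1 + j) * (frm ζ).B ((1 - c.A m) F) ((1 - c.A m) F)
        ≤ C1 * (1 + j) * (frm ζ).B ((1 - c.A m) F) ((1 - c.A m) F) := by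
      apply mul_le_mul_of_nonneg_right _ ((frm ζ).nonneg _)
      exact mul_le_mul_of_nonneg_right (le_max_left _ _) (by positivity)
    linarith
  obtain ⟨Y, hY, hYμ, hYS⟩ := maxset c' m hS
  have hYr : μ.real Yᶜ ≤ 1 / 4 := by
    have h1 : μ Yᶜ ≤ ENNReal.ofReal (1 / 4) := by
      refine hYμ.trans ((mul_le_mul_right hSμ 2).trans (le_of_eq ?_))
      rw [← ENNReal.ofReal_ofNat, ← ENNReal.ofReal_mul (by norm_num)]
      norm_num
    exact ENNReal.toReal_le_of_le_ofReal (by norm_num) h1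
  have hM : 0 < 128 * C1 := by linarith
  obtain ⟨u, σ, hu, hσ0, hσ, hsum⟩ := hit_sum c' m hm hY hM
  -- the choice of k0
  set s : ℝ := 1 / (43 * (128 * C1) * 32) with hs
  have hs0 : 0 < s := by positivity
  obtain ⟨ka, hka⟩ : ∃ ka : ℕ, 128 * C1 ≤ 2 ^ ka := by
    obtain ⟨n, hn⟩ := pow_unbounded_of_one_lt (128 * C1) (show (1 : ℝ) < 2 by norm_num)
    exact ⟨n, hn.le⟩
  obtain ⟨kb, hkb⟩ : ∃ kb : ℕ, ∀ n, kb ≤ n → (∑' k, σ k) - ∑ k ∈ Finset.range n, σ k ≤ s := by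
    have h1 := hsum.hasSum.tendsto_sum_nat
    have h2 := (Metric.tendsto_atTop.1 h1) s hs0
    obtain ⟨N, hN⟩ := h2
    refine ⟨N, fun n hn => ?_⟩
    have h3 := hN n hn
    rw [Real.dist_eq, abs_lt] at h3
    linarith [h3.1]
  set k0 : ℕ := max ka kb with hk0d
  have hk0 : 128 * C1 ≤ 2 ^ k0 :=
    hka.trans (pow_le_pow_right₀ (by norm_num) (le_max_left _ _))
  have hsk : ∀ k1, k0 ≤ k1 → ∑ k ∈ Finset.Ico k0 k1, σ k ≤ s := by
    intro k1 hk1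
    rw [Finset.sum_Ico_eq_sub _ hk1]
    have h1 := hkb k0 (le_max_right _ _)
    have h2 : ∑ k ∈ Finset.range k1, σ k ≤ ∑' k, σ k := hsum.sum_le_tsum _ (fun k _ => hσ0 k)
    linarith
  have h2k0 : (0 : ℝ) < 2 ^ k0 := by positivity
  refine ⟨1 / (5 * 2 ^ k0 * 64), by positivity, ?_⟩
  intro f hf hE hmass
  refine ⟨mulX π hπ (indB μ Y hY) f, fun k => ?_⟩
  set k1 : ℕ := max k k0 with hk1d
  have hk1 : k0 ≤ k1 := le_max_right _ _
  have hkk1 : k ≤ k1 := le_max_left _ _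
  have h4k : (0 : ℝ) < 4 ^ (k1 + 1) := by positivity
  set κ : ℝ := 1 / (32 * (5 * 2 ^ k0 + 6 * 4 ^ (k1 + 1))) with hκd
  have hκ : 0 < κ := by positivity
  have hκm : κ * (5 * 2 ^ k0 + 6 * 4 ^ (k1 + 1)) = 1 / 32 := by
    rw [hκd]; field_simp
  have h4k1 : (1 : ℝ) ≤ 4 ^ (k1 + 1) := one_le_pow₀ (by norm_num)
  have hκ1 : κ ≤ 1 := by
    by_contra hc
    push Not at hc
    nlinarith
  obtain ⟨Bi, hR, hG⟩ := resolvent (μ := μ) c m hm π hπ hY hκ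
  have hcl : ∀ n, ClP μ π (scF (mulX π hπ (indB μ Y hY)) Bi f n) :=
    fun n => low_ClP c c' m π hπ heq hY hκ hG hf n
  have hff : (frm ζ).B f f ≤ 1 := by rw [frm_self]; exact ClP_int hf
  set W : ℝ := (frm ζ).B ((1 - c.A m) f) f + κ with hW
  have hfirst := sc_first hR f
  have hκf : κ * (frm ζ).B f f ≤ κ * 1 := mul_le_mul_of_nonneg_left hff hκ.le
  have hnum := num_rec (sce (frm ζ) (1 - c.A m) (mulX π hπ (indB μ Y hY)) Bi κ f)
    (scN (frm ζ) (mulX π hπ (indB μ Y hY)) Bi f) σ (C1 := C1) (κ := κ) (W := W) (s := s)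
    (by linarith) hκ.le (fun n hn => sc_nonneg hR f hn) (fun n k hn hk => sc_anti hR f hn hk)
    (by linarith [hfirst.1]) (by linarith [hfirst.2]) (fun n hn => sc_drop hR f hn) k0 hk0
    (fun k hk => low_step c c' m hm π hπ heq hS hY hC1 hC hκ hR hcl
      (hk0.trans (pow_le_pow_right₀ (by norm_num) hk)) (hu k)
      (fun J x => hit_le_grn c' m hS hYS (by positivity) (hu k) J x) (hσ k))
    hσ0 hsk k1 hk1
  have hn1 : 1 ≤ 2 ^ k1 := Nat.one_le_two_pow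
  have hN0 : (7 : ℝ) / 8 - 1 / 4 ≤ scN (frm ζ) (mulX π hπ (indB μ Y hY)) Bi f 0 := by
    have h1 := ClP_mass hπ hY hf
    have h2 : scN (frm ζ) (mulX π hπ (indB μ Y hY)) Bi f 0
        = (frm ζ).B (mulX π hπ (indB μ Y hY) f) (mulX π hπ (indB μ Y hY) f) := by
      rw [scN]; simp
    rw [h2]
    linarith
  have hb1 : 5 * 2 ^ k0 * W ≤ 1 / 64 + κ * (5 * 2 ^ k0) := by
    have h1 : 5 * 2 ^ k0 * (frm ζ).B ((1 - c.A m) f) f
        ≤ 5 * 2 ^ k0 * (1 / (5 * 2 ^ k0 * 64)) := mul_le_mul_of_nonneg_left hE (by positivity)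
    have h2 : 5 * 2 ^ k0 * (1 / (5 * 2 ^ k0 * 64)) = (1 : ℝ) / 64 := by field_simp
    rw [hW]
    linarith
  have hb2 : 43 * (128 * C1) * s = 1 / 32 := by
    rw [hs]; field_simp
  have hb3 : 3 * 4 ^ (k1 + 1) * (κ + κ ^ 2) ≤ κ * (6 * 4 ^ (k1 + 1)) := by
    have h1 : κ ^ 2 ≤ κ := by nlinarith
    have h2 : 3 * 4 ^ (k1 + 1) * (κ + κ ^ 2) ≤ 3 * 4 ^ (k1 + 1) * (κ + κ) :=
      mul_le_mul_of_nonneg_left (by linarith) (by positivity)
    linarith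
  have hpair := sc_pair hR f hn1
  have hsmall := sc_small hR f hn1
  have he : sce (frm ζ) (1 - c.A m) (mulX π hπ (indB μ Y hY)) Bi κ f (2 ^ k1)
      = (frm ζ).B ((1 - c.A m) (scF (mulX π hπ (indB μ Y hY)) Bi f (2 ^ k1)))
          (scF (mulX π hπ (indB μ Y hY)) Bi f (2 ^ k1))
        + κ * (frm ζ).B (scF (mulX π hπ (indB μ Y hY)) Bi f (2 ^ k1))
          (scF (mulX π hπ (indB μ Y hY)) Bi f (2 ^ k1)) := by
    rw [sce, scd]
    simp only [map_add, map_smul, LinearMap.add_apply, LinearMap.smul_apply, smul_eq_mul]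
  refine ⟨scF (mulX π hπ (indB μ Y hY)) Bi f (2 ^ k1), ?_, ?_, ?_⟩
  · rw [frm_self]; exact ClP_int (hcl _)
  · have h1 := (frm ζ).nonneg (scF (mulX π hπ (indB μ Y hY)) Bi f (2 ^ k1))
    have h2 := mul_nonneg hκ.le h1
    have h3 : (frm ζ).B f f / (2 * ((2 ^ k1 : ℕ) : ℝ)) ≤ 1 / 2 ^ k := by
      push_cast
      have h4 : (2 : ℝ) ^ k ≤ 2 ^ k1 := pow_le_pow_right₀ (by norm_num) hkk1
      have h5 : (0 : ℝ) < 2 ^ k := by positivity
      calc (frm ζ).B f f / (2 * 2 ^ k1) ≤ 1 / (2 * 2 ^ k1) := by gcongr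
        _ ≤ 1 / 2 ^ k := by
            apply one_div_le_one_div_of_le h5
            linarith
    linarith
  · linarith

end Pool.Agent.SZ
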