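import Mathlib
import Pool.Agent.SZ.SDefs

/-!
# SZ S22: displacement and energies for `nuK` (45 min)

PROOF.  `psi_K`.  Let `B := {g | xx g <= 3/2}` (contains the open set `xx < 3/2` around `1`: `0 < mH B < oo`, `mH_open_pos`,
`mH_ball_lt`), `sigma := (mH B)^-1 • mH.restrict B` (a probability measure).  For `c = uu t` or `vv t`, `|t| <= 1/10`, and
`g` in `B`: `xx (c g) <= xx g (1 + |t| + t^2) <= 2` (the first row of `uu t * g` is first row + t * second row; `|ac+bd| <= xx g`,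
`c^2+d^2 <= 2 xx g`).  On `{xx g <= 2}` the density is `wd g >= wc` (`wp x >= 1` for `x <= 2`).  So `sigma <= C0 • nuK` and
`sigma.map (c * .) <= C0 • nuK`, `C0 = (wc * mH.real B)^-1` (copy `key_le`, `sig_le`, `sig_map_le` of `IRS/Dens.lean`), and
`PAct.ψ_le_E` gives `ψ f c <= sqrt (8 C0 (a.E nuK f))`.  `uu x`, `|x| <= 1`, is `uu (x/10)` to the tenth power (`uu_add`), so
`SubLen (a.ψ f) (10 * sqrt (8 C0 (a.E nuK f)))` and `SubLen.le_log` (see `subLen`, `psi_log` in `IRS/Dens.lean`): `C := 2100 sqrt (8 C0)`.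
`E_cmp`: `nuM` is supported on `nS g <= 10` (`rho_zero`), `PAct.E_le` with `S := C (1 + log 10) sqrt (a.E nuK f)`.
-/

set_option autoImplicit false
set_option linter.unusedSectionVars false
set_option linter.unusedVariables false

namespace Pool.Agent.SZ

open Pool.Agent.IRS MeasureTheory Set Filter Topology

lemma xx_uu_le (t : ℝ) (ht : |t| ≤ 1 / 10) (g : SL2R) (hg : xx g ≤ 3 / 2) :
    xx (uu t * g) ≤ 2 := by
  have h0 := abs_le.1 ht
  have e : xx (uu t * g) = xx g + t * (g 0 0 * g 1 0 + g 0 1 * g 1 1)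
      + t ^ 2 * ((g 1 0) ^ 2 + (g 1 1) ^ 2) / 2 := by
    unfold xx
    simp only [SL_mul_apply, uu00, uu01, uu10, uu11]
    ring
  have h1 : (g 0 0 * g 1 0 + g 0 1 * g 1 1) ≤ xx g := by
    unfold xx; nlinarith [sq_nonneg (g 0 0 - g 1 0), sq_nonneg (g 0 1 - g 1 1)]
  have h2 : -(g 0 0 * g 1 0 + g 0 1 * g 1 1) ≤ xx g := by
    unfold xx; nlinarith [sq_nonneg (g 0 0 + g 1 0), sq_nonneg (g 0 1 + g 1 1)]
  have h3 : (g 1 0) ^ 2 + (g 1 1) ^ 2 ≤ 2 * xx g := by
    unfold xx; nlinarith [sq_nonneg (g 0 0), sq_nonneg (g 0 1)]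
  have h4 : t * (g 0 0 * g 1 0 + g 0 1 * g 1 1) ≤ 1 / 10 * (3 / 2) := by
    rcases le_total 0 t with h | h
    · nlinarith
    · nlinarith
  have h5 : t ^ 2 ≤ 1 / 100 := by nlinarith
  have h6 : t ^ 2 * ((g 1 0) ^ 2 + (g 1 1) ^ 2) ≤ 1 / 100 * 3 := by
    refine mul_le_mul h5 (by linarith) (by positivity) (by norm_num)
  rw [e]; linarith

lemma xx_vv_le (t : ℝ) (ht : |t| ≤ 1 / 10) (g : SL2R) (hg : xx g ≤ 3 / 2) :
    xx (vv t * g) ≤ 2 := by
  have h0 := abs_le.1 ht
  have e : xx (vv t * g) = xx g + t * (g 0 0 * g 1 0 + g 0 1 * g 1 1)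
      + t ^ 2 * ((g 0 0) ^ 2 + (g 0 1) ^ 2) / 2 := by
    unfold xx
    simp only [SL_mul_apply, vv00, vv01, vv10, vv11]
    ring
  have h1 : (g 0 0 * g 1 0 + g 0 1 * g 1 1) ≤ xx g := by
    unfold xx; nlinarith [sq_nonneg (g 0 0 - g 1 0), sq_nonneg (g 0 1 - g 1 1)]
  have h2 : -(g 0 0 * g 1 0 + g 0 1 * g 1 1) ≤ xx g := by
    unfold xx; nlinarith [sq_nonneg (g 0 0 + g 1 0), sq_nonneg (g 0 1 + g 1 1)]
  have h3 : (g 0 0) ^ 2 + (g 0 1) ^ 2 ≤ 2 * xx g := by
    unfold xx; nlinarith [sq_nonneg (g 1 0), sq_nonneg (g 1 1)]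
  have h4 : t * (g 0 0 * g 1 0 + g 0 1 * g 1 1) ≤ 1 / 10 * (3 / 2) := by
    rcases le_total 0 t with h | h
    · nlinarith
    · nlinarith
  have h5 : t ^ 2 ≤ 1 / 100 := by nlinarith
  have h6 : t ^ 2 * ((g 0 0) ^ 2 + (g 0 1) ^ 2) ≤ 1 / 100 * 3 := by
    refine mul_le_mul h5 (by linarith) (by positivity) (by norm_num)
  rw [e]; linarith

/-- The ball. -/
def BK : Set SL2R := {g | xx g ≤ 3 / 2}

lemma BK_meas : MeasurableSet BK := measurableSet_le measurable_xx measurable_const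

lemma BK_pos : 0 < mH BK := by
  have hc : Continuous xx := by
    have hcont : Continuous (fun g : SL2R => (g : Matrix (Fin 2) (Fin 2) ℝ)) :=
      continuous_subtype_val
    unfold xx
    exact (((((hcont.matrix_elem 0 0).pow 2).add ((hcont.matrix_elem 0 1).pow 2)).add
      ((hcont.matrix_elem 1 0).pow 2)).add ((hcont.matrix_elem 1 1).pow 2)).div_const 2
  have hU : IsOpen {g : SL2R | xx g < 3 / 2} := isOpen_lt hc continuous_const
  refine lt_of_lt_of_le (mH_open_pos hU ⟨1, ?_⟩) (measure_mono ?_)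
  · change xx 1 < 3 / 2
    rw [xx_one]; norm_num
  · intro g hg
    have hg' : xx g < 3 / 2 := hg
    exact hg'.le

lemma BK_lt : mH BK < ⊤ := by
  refine lt_of_le_of_lt (measure_mono ?_) (mH_ball_lt 5)
  intro g hg
  have hg' : xx g ≤ 3 / 2 := hg
  have h2 := nS_sq_le g
  have h3 := nS_pos g
  change nS g ≤ 5
  nlinarith

lemma BK_real_pos : 0 < mH.real BK := ENNReal.toReal_pos BK_pos.ne' BK_lt.ne

/-- The constant. -/
noncomputable def CK : NNReal := ⟨(wc * mH.real BK)⁻¹, by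
  have := wc_pos; positivity⟩

/-- The normalised measure on the ball. -/
noncomputable def sigK : Measure SL2R := (mH BK)⁻¹ • mH.restrict BK

instance instProbSigK : IsProbabilityMeasure sigK := by
  refine ⟨?_⟩
  unfold sigK
  rw [Measure.smul_apply, Measure.restrict_apply_univ, smul_eq_mul]
  exact ENNReal.inv_mul_cancel BK_pos.ne' BK_lt.ne

lemma key_leK (S : Set SL2R) (hS : MeasurableSet S) (hS9 : ∀ g ∈ S, xx g ≤ 2) :
    (mH BK)⁻¹ • mH.restrict S ≤ CK • nuK := by
  rw [Measure.le_iff]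
  intro s hs
  rw [Measure.smul_apply, Measure.restrict_apply hs, smul_eq_mul, Measure.smul_apply]
  have h1 : ENNReal.ofReal wc * mH (s ∩ S) ≤ nuK s := by
    unfold nuK
    rw [withDensity_apply _ hs]
    calc ENNReal.ofReal wc * mH (s ∩ S) = ∫⁻ _ in s ∩ S, ENNReal.ofReal wc ∂mH := by
          rw [setLIntegral_const]
      _ ≤ ∫⁻ g in s ∩ S, ENNReal.ofReal (wd g) ∂mH := by
          refine setLIntegral_mono' (hs.inter hS) fun g hg => ?_
          apply ENNReal.ofReal_le_ofReal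
          have h9 := hS9 g hg.2
          have h2 : 1 ≤ wp (xx g) := by
            unfold wp
            have h3 : 1 ≤ max 0 (3 - xx g) := le_max_of_le_right (by linarith)
            calc (1 : ℝ) = 1 ^ 3 := by norm_num
              _ ≤ (max 0 (3 - xx g)) ^ 3 := pow_le_pow_left₀ (by norm_num) h3 3
          unfold wd
          nlinarith [wc_pos]
      _ ≤ ∫⁻ g in s, ENNReal.ofReal (wd g) ∂mH :=
          lintegral_mono_set Set.inter_subset_left
  have h2 : (mH BK)⁻¹ = (CK : ENNReal) * ENNReal.ofReal wc := by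
    have e1 : mH BK = ENNReal.ofReal (mH.real BK) := by
      have hne : mH BK ≠ ⊤ := BK_lt.ne
      unfold Measure.real
      rw [ENNReal.ofReal_toReal hne]
    have e2 : (CK : ENNReal) = ENNReal.ofReal ((wc * mH.real BK)⁻¹) := by
      rw [ENNReal.ofReal, Real.toNNReal_of_nonneg]
      · rfl
    rw [e1, e2, ← ENNReal.ofReal_mul (by have := wc_pos; positivity),
      ← ENNReal.ofReal_inv_of_pos BK_real_pos]
    congr 1
    have := wc_pos
    have := BK_real_pos
    field_simp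
  rw [h2, mul_assoc]
  change _ ≤ (CK : ENNReal) * nuK s
  gcongr

lemma sigK_le : sigK ≤ CK • nuK := key_leK BK BK_meas fun g hg => by
  have : xx g ≤ 3 / 2 := hg
  linarith

lemma sigK_map_le (c : SL2R) (hc : ∀ g : SL2R, xx g ≤ 3 / 2 → xx (c * g) ≤ 2) :
    sigK.map (c * ·) ≤ CK • nuK := by
  have hcm : Measurable (fun x : SL2R => c * x) := by
    apply measurable_to_SL
    intro i j
    simp_rw [SL_mul_apply]
    exact ((measurable_entry 0 j).const_mul _).add ((measurable_entry 1 j).const_mul _)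
  have hcm' : Measurable (fun x : SL2R => c⁻¹ * x) := by
    apply measurable_to_SL
    intro i j
    simp_rw [SL_mul_apply]
    exact ((measurable_entry 0 j).const_mul _).add ((measurable_entry 1 j).const_mul _)
  set S : Set SL2R := (fun x => c⁻¹ * x) ⁻¹' BK with hS
  have hSm : MeasurableSet S := hcm' BK_meas
  have h1 : sigK.map (c * ·) = (mH BK)⁻¹ • mH.restrict S := by
    unfold sigK
    rw [Measure.map_smul]
    congr 1
    ext s hs
    rw [Measure.map_apply hcm hs, Measure.restrict_apply (hcm hs), Measure.restrict_apply hs]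
    conv_rhs => rw [← mH_left c, Measure.map_apply hcm (hs.inter hSm)]
    congr 1
    ext x
    simp [hS]
  rw [h1]
  refine key_leK S hSm fun g hg => ?_
  have h2 : xx (c⁻¹ * g) ≤ 3 / 2 := hg
  have h3 : g = c * (c⁻¹ * g) := by rw [mul_inv_cancel_left]
  rw [h3]
  exact hc _ h2

section act

variable {Z : Type*} [MeasurableSpace Z] {ζ : Measure Z} [SigmaFinite ζ] (a : PAct SL2R ζ)

lemma psiK_small (f : BL2 ζ) (c : SL2R) (hc : ∀ g : SL2R, xx g ≤ 3 / 2 → xx (c * g) ≤ 2) :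
    a.ψ f c ≤ √(8 * CK * a.E nuK f) := by
  apply Real.le_sqrt_of_sq_le
  have : MeasurableMul SL2R := inferInstance
  exact a.ψ_le_E nuK f c sigK sigK_le (sigK_map_le c hc)

lemma psi_pow_le (f : BL2 ζ) (g : SL2R) (n : ℕ) : a.ψ f (g ^ n) ≤ n * a.ψ f g := by
  induction n with
  | zero => simp [a.ψ_one]
  | succ n ih =>
    rw [pow_succ]
    refine (a.ψ_mul_le f _ _).trans ?_
    push_cast
    linarith

lemma subLenK (f : BL2 ζ) : SubLen (a.ψ f) (10 * √(8 * CK * a.E nuK f)) where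
  nonneg := a.ψ_nonneg f
  mul := a.ψ_mul_le f
  inv := a.ψ_inv f
  uu := fun x hx => by
    have e : uu x = uu (x / 10) ^ 10 := by
      simp only [pow_succ, pow_zero, one_mul, ← uu_add]
      congr 1; ring
    have h1 : |x / 10| ≤ 1 / 10 := by
      rw [abs_div, abs_of_pos (by norm_num : (0 : ℝ) < 10)]; linarith
    rw [e]
    refine (psi_pow_le a f _ 10).trans ?_
    have := psiK_small a f (uu (x / 10)) (xx_uu_le (x / 10) h1)
    push_cast
    linarith
  vv := fun x hx => by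
    have e : vv x = vv (x / 10) ^ 10 := by
      simp only [pow_succ, pow_zero, one_mul, ← vv_add]
      congr 1; ring
    have h1 : |x / 10| ≤ 1 / 10 := by
      rw [abs_div, abs_of_pos (by norm_num : (0 : ℝ) < 10)]; linarith
    rw [e]
    refine (psi_pow_le a f _ 10).trans ?_
    have := psiK_small a f (vv (x / 10)) (xx_vv_le (x / 10) h1)
    push_cast
    linarith

end act

theorem psi_K : ∃ C : ℝ, 0 ≤ C ∧ ∀ {Z : Type} [MeasurableSpace Z] {ζ : Measure Z} [SigmaFinite ζ]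
    (a : PAct SL2R ζ) (f : BL2 ζ) (g : SL2R),
    a.ψ f g ≤ C * (1 + Real.log (nS g)) * Real.sqrt (a.E nuK f) := by
  refine ⟨2100 * √(8 * CK), by positivity, ?_⟩
  intro Z _ ζ _ a f g
  have h1 := (subLenK a f).le_log g
  have h2 : √(8 * CK * a.E nuK f) = √(8 * CK) * √(a.E nuK f) :=
    Real.sqrt_mul (by positivity) _
  rw [h2] at h1
  refine h1.trans (le_of_eq ?_)
  ring

theorem E_cmp : ∃ C : ℝ, 0 ≤ C ∧ ∀ {Z : Type} [MeasurableSpace Z] {ζ : Measure Z} [SigmaFinite ζ]
    (a : PAct SL2R ζ) (f : BL2 ζ), a.E nuM f ≤ C * a.E nuK f := by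
  obtain ⟨C, hC, hψ⟩ := psi_K
  refine ⟨2 * (C * (1 + Real.log 10)) ^ 2, by positivity, ?_⟩
  intro Z _ ζ _ a f
  have h0 : ∀ᵐ g ∂nuM, nS g ≤ 10 := by
    unfold nuM
    rw [ae_withDensity_iff (measurable_rho.ennreal_ofReal)]
    filter_upwards with g hg
    by_contra hcon
    push Not at hcon
    exact hg (by rw [rho_zero hcon.le, ENNReal.ofReal_zero])
  have h1 : ∀ᵐ g ∂nuM, a.ψ f g ≤ C * (1 + Real.log 10) * √(a.E nuK f) := by
    filter_upwards [h0] with g hg
    refine (hψ a f g).trans ?_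
    have h4 : Real.log (nS g) ≤ Real.log 10 := Real.log_le_log (nS_pos _) hg
    have h5 := Real.sqrt_nonneg (a.E nuK f)
    gcongr
  refine (a.E_le nuM f h1).trans (le_of_eq ?_)
  rw [mul_pow, Real.sq_sqrt (a.E_nonneg nuK f)]
  ring

end Pool.Agent.SZ
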