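import Mathlib
import Pool.Agent.SZ.SDefs
import Pool.Agent.SZ.S22Cmp

/-!
# SZ S23: no almost invariant sequence stays near a fixed vector (50 min)

PROOF.  `Q := a.P nuM * b.P nuM`, `CPair` for `(a.P nuM, b.P nuM)` and for `(a.P nuK, b.P nuK)` (`PAct.cpair`).
(1) `<(1-Q)F,F> <= a.E nuM F + b.E nuM F`: `1 - PQ' = (1-P) + P(1-Q')`, `<P(1-Q')F,F> <= <(1-Q')F,F>` (`(1-P)(1-Q') >= 0`),
`PAct.ea_eq`.  (2) `a.E nuK F <= <DD F,F>`: `1 - PQ' - (1-P) = P(1-Q') >= 0`; the same for `b`.  So with `E_cmp`: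
`<(1-Q)F,F> <= 2 C <DD a b F, F>`.
(3) `<F,f> = <F,Q^s f> + sum_{i<s} <F,(1-Q)Q^i f>`, and by Cauchy-Schwarz for the positive form `<(1-Q).,.>`:
`|<F,(1-Q)Q^i f>| <= sqrt<(1-Q)F,F> sqrt<(1-Q)Q^i f,Q^i f> <= sqrt(2 C <DD F,F>) nrm f`.
(4) `Q^s f = it a b f s`, `nrm (it a b f s)^2 = NN a b f s -> 0` (`NN_tendsto`; its hypothesis: `w` invariant gives `w = 0`
a.e. by `hinv`, so the integral vanishes).  Given `eps`, choose `s` with `nrm (Q^s f) <= eps`.
-/

set_option autoImplicit false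
set_option linter.unusedSectionVars false
set_option linter.unusedVariables false

namespace Pool.Agent.SZ

open Pool.Agent.IRS MeasureTheory Set Filter Topology

section abs23

variable {V : Type*} [AddCommGroup V] [Module ℝ V] {F : PSForm V} {P Q : Module.End ℝ V}

lemma s23_ea_le (h : CPair F P Q) (y : V) :
    CPair.ea F P y ≤ F.B y y - F.B (P (Q y)) y := by
  have h1 := (h.good_P (h.good_Q' CPair.good_one)).1.nonneg y
  simp only [CPair.ea, map_sub, map_add, LinearMap.sub_apply, Module.End.one_apply,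
    Module.End.mul_apply, h.rP, h.rQ, h.cPQ] at h1 ⊢
  linarith

lemma s23_le (h : CPair F P Q) (y : V) :
    F.B y y - F.B (P (Q y)) y ≤ CPair.ea F P y + CPair.ea F Q y := by
  have h1 := (h.good_P' (h.good_Q' CPair.good_one)).1.nonneg y
  simp only [CPair.ea, map_sub, map_add, LinearMap.sub_apply, Module.End.one_apply,
    Module.End.mul_apply, h.rP, h.rQ, h.cPQ] at h1 ⊢
  linarith

lemma s23_symm (h : CPair F P Q) (x y : V) : F.B (P (Q x)) y = F.B x (P (Q y)) := by
  rw [h.hP.symm, h.hQ.symm, h.cPQ]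

lemma s23_PQ_nonneg (h : CPair F P Q) (y : V) : 0 ≤ F.B (P (Q y)) y := by
  have h1 := (h.good_P (h.good_Q CPair.good_one)).1.nonneg y
  simpa using h1

/-- The form of `1 - P Q`. -/
noncomputable def s23F (h : CPair F P Q) : PSForm V where
  B := F.B ∘ₗ (1 - P * Q)
  symm x y := by
    simp only [LinearMap.comp_apply, LinearMap.sub_apply, Module.End.one_apply,
      Module.End.mul_apply, map_sub]
    rw [s23_symm h x y, F.symm x (P (Q y)), F.symm x y]
  nonneg x := by
    simp only [LinearMap.comp_apply, LinearMap.sub_apply, Module.End.one_apply,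
      Module.End.mul_apply, map_sub]
    have h1 := s23_ea_le h x
    have h2 := h.ea_nonneg x
    linarith

lemma s23F_apply (h : CPair F P Q) (x y : V) :
    (s23F h).B x y = F.B x y - F.B (P (Q x)) y := by
  simp [s23F]

end abs23

theorem lim_bound {Z : Type} [MeasurableSpace Z] {ζ : Measure Z} [SigmaFinite ζ]
    (a b : PAct SL2R ζ) (hab : ∀ g h z, a.τ g (b.τ h z) = b.τ h (a.τ g z))
    (hinv : ∀ w : BL2 ζ, (∀ g, ((a.T g w : BL2 ζ) : Z → ℝ) =ᵐ[ζ] (w : Z → ℝ)) →
      (∀ g, ((b.T g w : BL2 ζ) : Z → ℝ) =ᵐ[ζ] (w : Z → ℝ)) → (w : Z → ℝ) =ᵐ[ζ] 0)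
    (f : BL2 ζ) {ε : ℝ} (hε : 0 < ε) : ∃ C : ℝ, 0 ≤ C ∧ ∀ F : BL2 ζ,
      (frm ζ).B F f ≤ C * Real.sqrt ((frm ζ).B (DD a b F) F) + ε * (frm ζ).nrm F := by
  obtain ⟨C, hC0, hC⟩ := E_cmp
  have hM := PAct.cpair (a := a) (b := b) nuM hab
  have hK := PAct.cpair (a := a) (b := b) nuK hab
  -- convergence to zero
  have hlim : Tendsto (NN a b f) atTop (𝓝 0) := by
    refine NN_tendsto hab f fun w hw1 hw2 => ?_
    have h0 := hinv w hw1 hw2
    have : (fun z => (f : Z → ℝ) z * (w : Z → ℝ) z) =ᵐ[ζ] fun _ => (0 : ℝ) := by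
      filter_upwards [h0] with z hz
      rw [hz]; simp
    rw [integral_congr_ae this, integral_zero]
  obtain ⟨s, hs⟩ : ∃ s, NN a b f s < ε ^ 2 :=
    ((hlim.eventually (gt_mem_nhds (by positivity : (0 : ℝ) < ε ^ 2)))).exists
  have hs' : (frm ζ).nrm (it a b f s) ≤ ε := by
    refine abs_le_of_sq_le_sq' ?_ hε.le |>.2
    rw [(frm ζ).nrm_sq]
    exact hs.le
  refine ⟨s * (Real.sqrt (2 * C) * (frm ζ).nrm f), by
    have := (frm ζ).nrm_nonneg f
    positivity, fun F => ?_⟩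
  set e := (frm ζ).B (DD a b F) F with he
  have he1 : e = (frm ζ).B F F - (frm ζ).B (a.P nuK (b.P nuK F)) F := by
    rw [he]
    simp only [DD, AA, LinearMap.sub_apply, Module.End.one_apply, Module.End.mul_apply, map_sub]
  have hea : a.E nuK F ≤ e := by
    rw [he1, ← a.ea_eq]
    exact s23_ea_le hK F
  have heb : b.E nuK F ≤ e := by
    rw [he1, ← b.ea_eq, hK.cPQ]
    exact s23_ea_le hK.swap F
  have he0 : 0 ≤ e := (a.E_nonneg nuK F).trans hea
  have hq : (s23F hM).B F F ≤ 2 * C * e := by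
    rw [s23F_apply]
    refine (s23_le hM F).trans ?_
    rw [a.ea_eq, b.ea_eq]
    have h1 := hC a F
    have h2 := hC b F
    have h3 : C * a.E nuK F ≤ C * e := mul_le_mul_of_nonneg_left hea hC0
    have h4 : C * b.E nuK F ≤ C * e := mul_le_mul_of_nonneg_left heb hC0
    linarith
  have hqn : (s23F hM).nrm F ≤ Real.sqrt (2 * C) * Real.sqrt e := by
    rw [← Real.sqrt_mul (by positivity)]
    exact Real.sqrt_le_sqrt hq
  have hstep : ∀ i : ℕ, (frm ζ).B F (it a b f i) - (frm ζ).B F (it a b f (i + 1))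
      ≤ Real.sqrt (2 * C) * Real.sqrt e * (frm ζ).nrm f := by
    intro i
    have h1 : (frm ζ).B F (it a b f i) - (frm ζ).B F (it a b f (i + 1))
        = (s23F hM).B F (it a b f i) := by
      rw [s23F_apply, it_succ, ← s23_symm hM]
    rw [h1]
    refine ((s23F hM).le_nrm_mul _ _).trans ?_
    have h2 : (s23F hM).nrm (it a b f i) ≤ (frm ζ).nrm f := by
      unfold PSForm.nrm
      apply Real.sqrt_le_sqrt
      rw [s23F_apply]
      have h3 := s23_PQ_nonneg hM (it a b f i)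
      have h4 : NN a b f i ≤ NN a b f 0 := NN_anti hab f (Nat.zero_le i)
      unfold NN at h4
      rw [it_zero] at h4
      linarith
    exact mul_le_mul hqn h2 ((s23F hM).nrm_nonneg _) (by positivity)
  have hsum : ∀ n : ℕ, (frm ζ).B F f ≤ (frm ζ).B F (it a b f n)
      + n * (Real.sqrt (2 * C) * Real.sqrt e * (frm ζ).nrm f) := by
    intro n
    induction n with
    | zero => simp [it_zero]
    | succ n ih =>
      have := hstep n
      push_cast
      linarith
  have h5 := hsum s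
  have h6 : (frm ζ).B F (it a b f s) ≤ ε * (frm ζ).nrm F := by
    refine ((frm ζ).le_nrm_mul _ _).trans ?_
    rw [mul_comm]
    exact mul_le_mul_of_nonneg_right hs' ((frm ζ).nrm_nonneg F)
  calc (frm ζ).B F f ≤ _ := h5
    _ ≤ ε * (frm ζ).nrm F + s * (Real.sqrt (2 * C) * Real.sqrt e * (frm ζ).nrm f) := by linarith
    _ = _ := by ring

end Pool.Agent.SZ
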