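import Mathlib
import Pool.Agent.SZ.SDefs

/-!
# SZ S24: the product action and its symmetric measure (50 min)

PROOF.  `nuK` is symmetric: `nui nuK = nuK` (`xx_inv`, `mH_inv`, `withDensity` and `map`; compare `nuK_integral`; or show
equality of integrals of bounded measurable functions / measures of sets with `Measure.ext`).
`mKs := (nuK.prod nuK).map (fun p => p.1 * p.2)`, symmetric: the inverse of `g h` is `h^-1 g^-1`, swap the factors.
`m2K := mKs.prod mKs` on `G2 = SL2R × SL2R`, `nui m2K = m2K` (inverse is componentwise, `Measure.map_prod_map`).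
The action `prdAct a b hab`: `(g1,g2) . z = a.τ g1 (b.τ g2 z)` (a definition with its proofs; `mul` uses `hab`).
`A_prd`: `(prdAct ..).A m2K F z = int int F(a(g1) b(g2) z) dmK(g2) dmK(g1)` and `int f dmK = int int f(g h) dnuK dnuK`;
`a.P nuK F z = a.A (nui nuK) (a.A nuK F) z = int int F(a(h) a(g) z) dnuK(h) dnuK(g)` with `nui nuK = nuK`, `= int F(a(k) z) dmK(k)`
(`h g` has the law `mKs`).  `AA a b = a.P nuK * b.P nuK`: `AA F z = int_{k1} (b.P F)(a(k1) z) = int_{k1} int_{k2} F(b(k2) a(k1) z)`
and `hab`.  All functions are bounded and measurable (`integral_prod`, `integral_map`).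
-/

set_option autoImplicit false
set_option linter.unusedSectionVars false
set_option linter.unusedVariables false

namespace Pool.Agent.SZ

open Pool.Agent.IRS MeasureTheory Set Filter Topology

/-- The product action. -/
noncomputable def prdAct {Z : Type*} [MeasurableSpace Z] {ζ : Measure Z} (a b : PAct SL2R ζ)
    (hab : ∀ g h z, a.τ g (b.τ h z) = b.τ h (a.τ g z)) : PAct G2 ζ where
  τ g z := a.τ g.1 (b.τ g.2 z)
  one z := by
    change a.τ 1 (b.τ 1 z) = z
    rw [a.one, b.one]
  mul g h z := by
    change a.τ (g.1 * h.1) (b.τ (g.2 * h.2) z) = a.τ g.1 (b.τ g.2 (a.τ h.1 (b.τ h.2 z)))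
    rw [a.mul, b.mul, hab h.1 g.2]
  meas := a.meas.comp ((measurable_fst.comp measurable_fst).prodMk
    (b.meas.comp ((measurable_snd.comp measurable_fst).prodMk measurable_snd)))
  mp g := (a.mp g.1).comp (b.mp g.2)

/-- The law of a product of two independent elements. -/
noncomputable def mKs : Measure SL2R := (nuK.prod nuK).map (fun p => p.1 * p.2)

/-- The law on the product group. -/
noncomputable def m2K : Measure G2 := mKs.prod mKs

instance instProbMK : IsProbabilityMeasure mKs :=
  Measure.isProbabilityMeasure_map (measurable_fst.mul measurable_snd).aemeasurable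

instance instProbM2K : IsProbabilityMeasure m2K := by
  unfold m2K; infer_instance

theorem nui_nuK : nui nuK = nuK := by
  refine Measure.ext fun s hs => ?_
  unfold nui nuK
  rw [Measure.map_apply measurable_inv hs, withDensity_apply _ (measurable_inv hs),
    withDensity_apply _ hs, ← lintegral_indicator (measurable_inv hs), ← lintegral_indicator hs]
  have hm : Measurable (s.indicator fun g : SL2R => ENNReal.ofReal (wd g)) :=
    measurable_wd.ennreal_ofReal.indicator hs
  conv_rhs => rw [← mH_inv]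
  rw [lintegral_map hm measurable_inv]
  refine lintegral_congr fun g => ?_
  have e : wd g⁻¹ = wd g := by unfold wd; rw [xx_inv]
  by_cases h : g⁻¹ ∈ s
  · rw [indicator_of_mem (by exact h), indicator_of_mem h, e]
  · rw [indicator_of_notMem (by exact h), indicator_of_notMem h]

theorem nui_mKs : nui mKs = mKs := by
  have hmul : Measurable (fun p : SL2R × SL2R => p.1 * p.2) := measurable_fst.mul measurable_snd
  unfold nui mKs
  rw [Measure.map_map measurable_inv hmul]
  have h1 : ((fun g : SL2R => g⁻¹) ∘ fun p : SL2R × SL2R => p.1 * p.2)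
      = (fun p : SL2R × SL2R => p.1 * p.2) ∘ (Prod.swap ∘ Prod.map (fun g => g⁻¹) (fun g => g⁻¹)) := by
    funext p
    simp [mul_inv_rev]
  have hpi : Measurable (Prod.map (fun g : SL2R => g⁻¹) (fun g : SL2R => g⁻¹)) :=
    measurable_inv.prodMap measurable_inv
  rw [h1, ← Measure.map_map hmul (measurable_swap.comp hpi),
    ← Measure.map_map measurable_swap hpi,
    ← Measure.map_prod_map _ _ measurable_inv measurable_inv]
  have h2 : nuK.map (fun g : SL2R => g⁻¹) = nuK := nui_nuK
  rw [h2, Measure.prod_swap]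

theorem nui_m2K : nui m2K = m2K := by
  unfold nui m2K
  have h1 : (fun g : G2 => g⁻¹) = Prod.map (fun g : SL2R => g⁻¹) (fun g : SL2R => g⁻¹) := by
    funext p; rfl
  rw [h1, ← Measure.map_prod_map _ _ measurable_inv measurable_inv]
  have h2 : mKs.map (fun g : SL2R => g⁻¹) = mKs := nui_mKs
  rw [h2]

/-- The operator `P` is the average over the law `mKs`. -/
lemma P_mKs {Z : Type*} [MeasurableSpace Z] {ζ : Measure Z} [SigmaFinite ζ]
    (a : PAct SL2R ζ) (F : BL2 ζ) (z : Z) :
    ((a.P nuK F : BL2 ζ) : Z → ℝ) z = ∫ k, (F : Z → ℝ) (a.τ k z) ∂mKs := by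
  obtain ⟨M, hM⟩ := bbdd F
  have hmul : Measurable (fun p : SL2R × SL2R => p.1 * p.2) := measurable_fst.mul measurable_snd
  have hsec : Measurable (fun g : SL2R => (F : Z → ℝ) (a.τ g z)) := a.meas_sec (bmeas F) z
  unfold mKs
  rw [integral_map hmul.aemeasurable hsec.aestronglyMeasurable]
  have hint : Integrable (fun p : SL2R × SL2R => (F : Z → ℝ) (a.τ (p.1 * p.2) z))
      (nuK.prod nuK) :=
    integrable_of_bdd (nuK.prod nuK) (hsec.comp hmul) fun p => hM _
  have hint' : Integrable (fun p : SL2R × SL2R => (F : Z → ℝ) (a.τ (p.2 * p.1) z))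
      (nuK.prod nuK) := hint.swap
  have e1 : ∫ p, (F : Z → ℝ) (a.τ (p.1 * p.2) z) ∂(nuK.prod nuK)
      = ∫ p, (F : Z → ℝ) (a.τ (p.2 * p.1) z) ∂(nuK.prod nuK) :=
    (integral_prod_swap (fun p : SL2R × SL2R => (F : Z → ℝ) (a.τ (p.1 * p.2) z))).symm
  rw [e1, integral_prod _ hint', PAct.P_apply, PAct.A_apply, nui_nuK]
  refine integral_congr_ae (Filter.Eventually.of_forall fun h => ?_)
  simp only [PAct.A_apply]
  refine integral_congr_ae (Filter.Eventually.of_forall fun g => ?_)
  simp only [a.mul]

theorem A_prd {Z : Type*} [MeasurableSpace Z] {ζ : Measure Z} [SigmaFinite ζ]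
    (a b : PAct SL2R ζ) (hab : ∀ g h z, a.τ g (b.τ h z) = b.τ h (a.τ g z)) :
    (prdAct a b hab).A m2K = AA a b := by
  refine LinearMap.ext fun F => Subtype.ext (funext fun z => ?_)
  obtain ⟨M, hM⟩ := bbdd F
  have hsec : Measurable (fun g : G2 => (F : Z → ℝ) ((prdAct a b hab).τ g z)) :=
    (prdAct a b hab).meas_sec (bmeas F) z
  rw [PAct.A_apply]
  unfold m2K
  have hint : Integrable (fun g : G2 => (F : Z → ℝ) ((prdAct a b hab).τ g z)) (mKs.prod mKs) :=
    integrable_of_bdd (mKs.prod mKs) hsec fun p => hM _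
  rw [integral_prod _ hint]
  change _ = ((a.P nuK (b.P nuK F) : BL2 ζ) : Z → ℝ) z
  rw [P_mKs]
  refine integral_congr_ae (Filter.Eventually.of_forall fun g => ?_)
  simp only
  rw [P_mKs]
  refine integral_congr_ae (Filter.Eventually.of_forall fun h => ?_)
  simp only
  change (F : Z → ℝ) (a.τ g (b.τ h z)) = _
  rw [hab]

theorem gm_prd {Z : Type*} [MeasurableSpace Z] {ζ : Measure Z} [SigmaFinite ζ]
    (a b : PAct SL2R ζ) (hab : ∀ g h z, a.τ g (b.τ h z) = b.τ h (a.τ g z)) (F : BL2 ζ) :
    gmC (prdAct a b hab) m2K F = gam a b F := by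
  unfold gmC gam
  rw [A_prd]

end Pool.Agent.SZ
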