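import Mathlib
import Pool.Agent.SZ.SDefs
import Pool.Agent.SZ.S21Low
import Pool.Agent.SZ.S23Lim
import Pool.Agent.SZ.S24Prd

/-!
# SZ S25: the scheme (30 min)

PROOF.  `c := prdAct a b hab`, `c' := prdAct a' b' hab'`, `m := m2K`; `A_prd`, `gm_prd`, `nui_m2K` turn `hstar` into the
hypothesis of `low_bound`; it gives `eta`.  If some `f` in ClP with `<DD f,f> <= eta` had `int f^2 >= 7/8`, `low_bound` gives
`h` and for every `k` an `F` with `|F| <= 1`, `<DD F,F> <= 1/2^k`, `<F,h> >= 1/4`; `lim_bound` for `h` and `eps = 1/8`: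
`1/4 <= C sqrt(1/2^k) + 1/8` for all `k`, contradiction for large `k`.
-/

set_option autoImplicit false
set_option linter.unusedSectionVars false
set_option linter.unusedVariables false

namespace Pool.Agent.SZ

open Pool.Agent.IRS MeasureTheory Set Filter Topology

theorem scheme_main {X Z : Type} [MeasurableSpace X] [MeasurableSpace Z] {μ : Measure X}
    [IsProbabilityMeasure μ] {ζ : Measure Z} [SigmaFinite ζ] (a b : PAct SL2R ζ)
    (a' b' : PAct SL2R μ) (π : Z → X) (hπ : Measurable π)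
    (ha : ∀ g z, π (a.τ g z) = a'.τ g (π z)) (hb : ∀ g z, π (b.τ g z) = b'.τ g (π z))
    (hab : ∀ g h z, a.τ g (b.τ h z) = b.τ h (a.τ g z))
    (hab' : ∀ g h x, a'.τ g (b'.τ h x) = b'.τ h (a'.τ g x))
    (hinv : ∀ w : BL2 ζ, (∀ g, ((a.T g w : BL2 ζ) : Z → ℝ) =ᵐ[ζ] (w : Z → ℝ)) →
      (∀ g, ((b.T g w : BL2 ζ) : Z → ℝ) =ᵐ[ζ] (w : Z → ℝ)) → (w : Z → ℝ) =ᵐ[ζ] 0)
    (hstar : ∀ ε η : ℝ, 0 < ε → 0 < η → ∃ S : Set X, MeasurableSet S ∧
      μ Sᶜ ≤ ENNReal.ofReal η ∧ ∃ C1 : ℝ, ∀ (F : BL2 ζ) (j : ℕ),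
        ∫ z in π ⁻¹' S, ((((AA a b) ^ j) (gam a b F) : BL2 ζ) : Z → ℝ) z ∂ζ
          ≤ C1 * (1 + j) * (frm ζ).B (DD a b F) (DD a b F) + ε * (frm ζ).B (DD a b F) F) :
    ∃ η : ℝ, 0 < η ∧ ∀ f : BL2 ζ, ClP μ π f → (frm ζ).B (DD a b f) f ≤ η →
      ∫ z, (f : Z → ℝ) z ^ 2 ∂ζ < 7 / 8 := by
  have hA : (prdAct a b hab).A m2K = AA a b := A_prd a b hab
  have hD : (1 - (prdAct a b hab).A m2K : Module.End ℝ (BL2 ζ)) = DD a b := by
    rw [hA]; rfl
  have hg : ∀ F : BL2 ζ, gmC (prdAct a b hab) m2K F = gam a b F := fun F => gm_prd a b hab F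
  have heq : ∀ g z, π ((prdAct a b hab).τ g z) = (prdAct a' b' hab').τ g (π z) := by
    intro g z
    change π (a.τ g.1 (b.τ g.2 z)) = a'.τ g.1 (b'.τ g.2 (π z))
    rw [ha, hb]
  obtain ⟨η, hη, h1⟩ := low_bound (prdAct a b hab) (prdAct a' b' hab') m2K nui_m2K π hπ heq (by
    intro ε η hε hη
    obtain ⟨S, hS, hm, C1, hC⟩ := hstar ε η hε hη
    refine ⟨S, hS, hm, C1, fun F j => ?_⟩
    rw [hA, hg]
    exact hC F j)
  refine ⟨η, hη, fun f hf hle => ?_⟩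
  by_contra hcon
  push Not at hcon
  rw [hD] at h1
  obtain ⟨h, hh⟩ := h1 f hf hle hcon
  obtain ⟨C, hC0, hC⟩ := lim_bound a b hab hinv h (ε := 1 / 8) (by norm_num)
  have key : ∀ k : ℕ, (1 / 8 : ℝ) ≤ C * Real.sqrt (1 / 2 ^ k) := by
    intro k
    obtain ⟨F, hF1, hF2, hF3⟩ := hh k
    have h2 := hC F
    have h3 : (frm ζ).nrm F ≤ 1 := by
      unfold PSForm.nrm
      rw [Real.sqrt_le_one]
      exact hF1
    have h4 : C * Real.sqrt ((frm ζ).B (DD a b F) F) ≤ C * Real.sqrt (1 / 2 ^ k) :=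
      mul_le_mul_of_nonneg_left (Real.sqrt_le_sqrt hF2) hC0
    linarith
  have hlim : Tendsto (fun k : ℕ => C * Real.sqrt (1 / 2 ^ k)) atTop (𝓝 0) := by
    have h5 : Tendsto (fun k : ℕ => (1 / 2 ^ k : ℝ)) atTop (𝓝 0) := by
      have := tendsto_pow_atTop_nhds_zero_of_lt_one (r := (1 / 2 : ℝ)) (by norm_num) (by norm_num)
      refine this.congr fun k => ?_
      rw [div_pow, one_pow]
    have h6 := (h5.sqrt).const_mul C
    rw [Real.sqrt_zero, mul_zero] at h6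
    exact h6
  have := ge_of_tendsto hlim (Filter.Eventually.of_forall key)
  norm_num at this

end Pool.Agent.SZ
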