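import Mathlib
import Pool.Agent.IRS.SL2

/-!
# SZ part X1: ping-pong with an open certificate

`Dom M`: the entry `M 0 0` dominates.  If `Dom A` and `Dom (P B P)` with `P = [1, 1; 1, -1]` then
`A`, `B` generate a free group of rank two (table tennis on the nonzero vectors, with the cones
`|x 1| < |x 0| / 3`, `|x 0| < |x 1| / 3` and the same cones in the coordinates
`x 0 + x 1`, `x 0 - x 1`).
-/

set_option autoImplicit false
set_option linter.unusedSimpArgs false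

namespace Pool.Agent.SZ.X1

open Pool.Agent.IRS

/-- The first entry dominates. -/
def Dom (M : Matrix (Fin 2) (Fin 2) ℝ) : Prop :=
  9 * (|M 0 1| + |M 1 0| + |M 1 1|) < |M 0 0|

/-- The change of coordinates (a multiple of a rotation composed with a reflection). -/
def PP : Matrix (Fin 2) (Fin 2) ℝ := !![1, 1; 1, -1]

@[simp] lemma PP00 : PP 0 0 = 1 := rfl
@[simp] lemma PP01 : PP 0 1 = 1 := rfl
@[simp] lemma PP10 : PP 1 0 = 1 := rfl
@[simp] lemma PP11 : PP 1 1 = -1 := rfl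

/-- The second certificate. -/
def Dom2 (M : Matrix (Fin 2) (Fin 2) ℝ) : Prop := Dom (PP * M * PP)

lemma dom2_iff (M : Matrix (Fin 2) (Fin 2) ℝ) : Dom2 M ↔
    9 * (|M 0 0 - M 0 1 + M 1 0 - M 1 1| + |M 0 0 + M 0 1 - M 1 0 - M 1 1|
      + |M 0 0 - M 0 1 - M 1 0 + M 1 1|) < |M 0 0 + M 0 1 + M 1 0 + M 1 1| := by
  have e00 : (PP * M * PP) 0 0 = M 0 0 + M 0 1 + M 1 0 + M 1 1 := by
    simp only [Matrix.mul_apply, Fin.sum_univ_two, PP00, PP01, PP10, PP11]; ring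
  have e01 : (PP * M * PP) 0 1 = M 0 0 - M 0 1 + M 1 0 - M 1 1 := by
    simp only [Matrix.mul_apply, Fin.sum_univ_two, PP00, PP01, PP10, PP11]; ring
  have e10 : (PP * M * PP) 1 0 = M 0 0 + M 0 1 - M 1 0 - M 1 1 := by
    simp only [Matrix.mul_apply, Fin.sum_univ_two, PP00, PP01, PP10, PP11]; ring
  have e11 : (PP * M * PP) 1 1 = M 0 0 - M 0 1 - M 1 0 + M 1 1 := by
    simp only [Matrix.mul_apply, Fin.sum_univ_two, PP00, PP01, PP10, PP11]; ring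
  unfold Dom2 Dom
  rw [e00, e01, e10, e11]

/-- Image of a vector. -/
lemma dom_img {a b c d x y : ℝ} (h : 9 * (|b| + |c| + |d|) < |a|) (hxy : |y| ≤ 3 * |x|)
    (hne : x ≠ 0 ∨ y ≠ 0) : |c * x + d * y| < |a * x + b * y| / 3 := by
  have hx : 0 < |x| := by
    rcases hne with h1 | h1
    · exact abs_pos.2 h1
    · have := abs_pos.2 h1; linarith
  have h1 : |c * x + d * y| ≤ |c| * |x| + |d| * |y| := by
    rw [← abs_mul, ← abs_mul]; exact abs_add_le _ _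
  have h2 : |a| * |x| - |b| * |y| ≤ |a * x + b * y| := by
    have h3 := abs_sub_abs_le_abs_sub (a * x) (-(b * y))
    rw [abs_neg, abs_mul, abs_mul, sub_neg_eq_add] at h3
    exact h3
  have e1 : |d| * |y| ≤ |d| * (3 * |x|) := mul_le_mul_of_nonneg_left hxy (abs_nonneg _)
  have e2 : |b| * |y| ≤ |b| * (3 * |x|) := mul_le_mul_of_nonneg_left hxy (abs_nonneg _)
  have e3 : 9 * (|b| + |c| + |d|) * |x| < |a| * |x| := mul_lt_mul_of_pos_right h hx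
  have e4 : 0 ≤ |c| * |x| := by positivity
  have e5 : 0 ≤ |b| * |x| := by positivity
  have e6 : 0 ≤ |d| * |x| := by positivity
  nlinarith

/-- Nonzero vectors. -/
abbrev Vec := {v : ℝ × ℝ // v ≠ 0}

lemma img_ne (g : SL2R) (v : Vec) :
    ((g 0 0 * v.1.1 + g 0 1 * v.1.2, g 1 0 * v.1.1 + g 1 1 * v.1.2) : ℝ × ℝ) ≠ 0 := by
  intro h
  have h1 : g 0 0 * v.1.1 + g 0 1 * v.1.2 = 0 := congrArg Prod.fst h
  have h2 : g 1 0 * v.1.1 + g 1 1 * v.1.2 = 0 := congrArg Prod.snd h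
  have hd := det_eq g
  apply v.2
  have e1 : v.1.1 = 0 := by
    linear_combination g 1 1 * h1 - g 0 1 * h2 - v.1.1 * hd
  have e2 : v.1.2 = 0 := by
    linear_combination g 0 0 * h2 - g 1 0 * h1 - v.1.2 * hd
  exact Prod.ext e1 e2

/-- The linear action on nonzero vectors. -/
instance actV : MulAction SL2R Vec where
  smul g v := ⟨(g 0 0 * v.1.1 + g 0 1 * v.1.2, g 1 0 * v.1.1 + g 1 1 * v.1.2), img_ne g v⟩
  one_smul v := by
    refine Subtype.ext (Prod.ext ?_ ?_)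
    · change (1 : SL2R) 0 0 * v.1.1 + (1 : SL2R) 0 1 * v.1.2 = v.1.1
      simp
    · change (1 : SL2R) 1 0 * v.1.1 + (1 : SL2R) 1 1 * v.1.2 = v.1.2
      simp
  mul_smul g h v := by
    refine Subtype.ext (Prod.ext ?_ ?_)
    · change (g * h) 0 0 * v.1.1 + (g * h) 0 1 * v.1.2
        = g 0 0 * (h 0 0 * v.1.1 + h 0 1 * v.1.2) + g 0 1 * (h 1 0 * v.1.1 + h 1 1 * v.1.2)
      rw [SL_mul_apply, SL_mul_apply]; ring
    · change (g * h) 1 0 * v.1.1 + (g * h) 1 1 * v.1.2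
        = g 1 0 * (h 0 0 * v.1.1 + h 0 1 * v.1.2) + g 1 1 * (h 1 0 * v.1.1 + h 1 1 * v.1.2)
      rw [SL_mul_apply, SL_mul_apply]; ring

lemma smul_fst (g : SL2R) (v : Vec) : (g • v).1.1 = g 0 0 * v.1.1 + g 0 1 * v.1.2 := rfl
lemma smul_snd (g : SL2R) (v : Vec) : (g • v).1.2 = g 1 0 * v.1.1 + g 1 1 * v.1.2 := rfl

lemma inv00 (g : SL2R) : (g⁻¹) 0 0 = g 1 1 := by
  rw [Matrix.SpecialLinearGroup.coe_inv, Matrix.adjugate_fin_two]; rfl
lemma inv01 (g : SL2R) : (g⁻¹) 0 1 = - g 0 1 := by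
  rw [Matrix.SpecialLinearGroup.coe_inv, Matrix.adjugate_fin_two]; rfl
lemma inv10 (g : SL2R) : (g⁻¹) 1 0 = - g 1 0 := by
  rw [Matrix.SpecialLinearGroup.coe_inv, Matrix.adjugate_fin_two]; rfl
lemma inv11 (g : SL2R) : (g⁻¹) 1 1 = g 0 0 := by
  rw [Matrix.SpecialLinearGroup.coe_inv, Matrix.adjugate_fin_two]; rfl

/-- The attracting cones. -/
def Xc (i : Fin 2) : Set Vec :=
  if i = 0 then {v | |v.1.2| < |v.1.1| / 3} else {v | |v.1.1 - v.1.2| < |v.1.1 + v.1.2| / 3}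
/-- The repelling cones. -/
def Yc (i : Fin 2) : Set Vec :=
  if i = 0 then {v | |v.1.1| < |v.1.2| / 3} else {v | |v.1.1 + v.1.2| < |v.1.1 - v.1.2| / 3}

lemma mem_X0 (v : Vec) : v ∈ Xc 0 ↔ |v.1.2| < |v.1.1| / 3 := Iff.rfl
lemma mem_Y0 (v : Vec) : v ∈ Yc 0 ↔ |v.1.1| < |v.1.2| / 3 := Iff.rfl
lemma mem_X1 (v : Vec) : v ∈ Xc 1 ↔ |v.1.1 - v.1.2| < |v.1.1 + v.1.2| / 3 := Iff.rfl
lemma mem_Y1 (v : Vec) : v ∈ Yc 1 ↔ |v.1.1 + v.1.2| < |v.1.1 - v.1.2| / 3 := Iff.rfl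

lemma cone_aux {x y : ℝ} (h : |y| < |x| / 3) :
    ¬ |x - y| < |x + y| / 3 ∧ ¬ |x + y| < |x - y| / 3 := by
  have h1 := abs_sub_abs_le_abs_sub x y
  have h2 := abs_add_le x y
  have h3 := abs_sub_abs_le_abs_sub x (-y)
  rw [abs_neg, sub_neg_eq_add] at h3
  have h4 := abs_sub x y
  have h5 := abs_nonneg x
  have h6 := abs_nonneg y
  constructor <;> intro h7 <;> linarith

lemma cone_01 {v : Vec} (h : v ∈ Xc 0 ∨ v ∈ Yc 0) : v ∉ Xc 1 ∧ v ∉ Yc 1 := by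
  rw [mem_X0, mem_Y0] at h
  rw [mem_X1, mem_Y1]
  rcases h with h | h
  · exact cone_aux h
  · have := cone_aux h
    rw [abs_sub_comm, add_comm] at this
    exact this

lemma vec_ne (v : Vec) : v.1.1 ≠ 0 ∨ v.1.2 ≠ 0 := by
  by_contra h
  push Not at h
  exact v.2 (Prod.ext h.1 h.2)

lemma vec_ne' (v : Vec) : v.1.1 + v.1.2 ≠ 0 ∨ v.1.1 - v.1.2 ≠ 0 := by
  by_contra h
  push Not at h
  refine v.2 (Prod.ext ?_ ?_)
  · change v.1.1 = 0; linarith [h.1, h.2]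
  · change v.1.2 = 0; linarith [h.1, h.2]

/-- A certified pair is free. -/
theorem free_of_dom (A : Fin 2 → SL2R) (h0 : Dom (A 0 : Matrix (Fin 2) (Fin 2) ℝ))
    (h1 : Dom2 (A 1 : Matrix (Fin 2) (Fin 2) ℝ)) :
    Function.Injective (FreeGroup.lift A : FreeGroup (Fin 2) →* SL2R) := by
  rw [dom2_iff] at h1
  unfold Dom at h0
  refine FreeGroup.injective_lift_of_ping_pong (α := Vec) A Xc Yc ?_ ?_ ?_ ?_ ?_ ?_
  · intro i
    fin_cases i
    · refine ⟨⟨(1, 0), by simp⟩, ?_⟩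
      change |(0:ℝ)| < |(1:ℝ)| / 3
      norm_num
    · refine ⟨⟨(1, 1), by simp⟩, ?_⟩
      change |(1:ℝ) - 1| < |(1:ℝ) + 1| / 3
      norm_num
  · intro i j hij
    rw [Function.onFun, Set.disjoint_left]
    intro v hv hv'
    fin_cases i <;> fin_cases j
    · exact hij rfl
    · exact (cone_01 (Or.inl hv)).1 hv'
    · exact (cone_01 (Or.inl hv')).1 hv
    · exact hij rfl
  · intro i j hij
    rw [Function.onFun, Set.disjoint_left]
    intro v hv hv'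
    fin_cases i <;> fin_cases j
    · exact hij rfl
    · exact (cone_01 (Or.inr hv)).2 hv'
    · exact (cone_01 (Or.inr hv')).2 hv
    · exact hij rfl
  · intro i j
    rw [Set.disjoint_left]
    intro v hv hv'
    fin_cases i <;> fin_cases j
    · have e1 := (mem_X0 v).1 hv
      have e2 := (mem_Y0 v).1 hv'
      have := abs_nonneg v.1.1; have := abs_nonneg v.1.2
      linarith
    · exact (cone_01 (Or.inl hv)).2 hv'
    · exact (cone_01 (Or.inr hv')).1 hv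
    · have e1 := (mem_X1 v).1 hv
      have e2 := (mem_Y1 v).1 hv'
      have := abs_nonneg (v.1.1 + v.1.2); have := abs_nonneg (v.1.1 - v.1.2)
      linarith
  · intro i
    rintro _ ⟨v, hv, rfl⟩
    fin_cases i
    · have e1 : ¬ |v.1.1| < |v.1.2| / 3 := hv
      change |(A 0 • v).1.2| < |(A 0 • v).1.1| / 3
      rw [smul_fst, smul_snd]
      exact dom_img h0 (by linarith) (vec_ne v)
    · have e1 : ¬ |v.1.1 + v.1.2| < |v.1.1 - v.1.2| / 3 := hv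
      change |(A 1 • v).1.1 - (A 1 • v).1.2| < |(A 1 • v).1.1 + (A 1 • v).1.2| / 3
      rw [smul_fst, smul_snd]
      have := dom_img h1 (x := v.1.1 + v.1.2) (y := v.1.1 - v.1.2) (by linarith) (vec_ne' v)
      have t1 : (A 1) 0 0 * v.1.1 + (A 1) 0 1 * v.1.2 - ((A 1) 1 0 * v.1.1 + (A 1) 1 1 * v.1.2)
          = (((A 1) 0 0 + (A 1) 0 1 - (A 1) 1 0 - (A 1) 1 1) * (v.1.1 + v.1.2)
            + ((A 1) 0 0 - (A 1) 0 1 - (A 1) 1 0 + (A 1) 1 1) * (v.1.1 - v.1.2)) / 2 := by ring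
      have t2 : (A 1) 0 0 * v.1.1 + (A 1) 0 1 * v.1.2 + ((A 1) 1 0 * v.1.1 + (A 1) 1 1 * v.1.2)
          = (((A 1) 0 0 + (A 1) 0 1 + (A 1) 1 0 + (A 1) 1 1) * (v.1.1 + v.1.2)
            + ((A 1) 0 0 - (A 1) 0 1 + (A 1) 1 0 - (A 1) 1 1) * (v.1.1 - v.1.2)) / 2 := by ring
      rw [t1, t2, abs_div, abs_div, abs_of_pos (by norm_num : (0:ℝ) < 2)]
      linarith
  · intro i
    rintro _ ⟨v, hv, rfl⟩
    fin_cases i
    · have e1 : ¬ |v.1.2| < |v.1.1| / 3 := hv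
      change |((A 0)⁻¹ • v).1.1| < |((A 0)⁻¹ • v).1.2| / 3
      rw [smul_fst, smul_snd, inv00, inv01, inv10, inv11]
      have h0' : 9 * (|-(A 0) 1 0| + |-(A 0) 0 1| + |(A 0) 1 1|) < |(A 0) 0 0| := by
        rw [abs_neg, abs_neg]; linarith
      have := dom_img h0' (x := v.1.2) (y := v.1.1) (by linarith) (vec_ne v).symm
      rw [add_comm (-(A 0) 0 1 * v.1.2), add_comm ((A 0) 0 0 * v.1.2)] at this
      exact this
    · have e1 : ¬ |v.1.1 - v.1.2| < |v.1.1 + v.1.2| / 3 := hv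
      change |((A 1)⁻¹ • v).1.1 + ((A 1)⁻¹ • v).1.2| < |((A 1)⁻¹ • v).1.1 - ((A 1)⁻¹ • v).1.2| / 3
      rw [smul_fst, smul_snd, inv00, inv01, inv10, inv11]
      have h1' : 9 * (|-((A 1) 0 0 + (A 1) 0 1 - (A 1) 1 0 - (A 1) 1 1)|
          + |-((A 1) 0 0 - (A 1) 0 1 + (A 1) 1 0 - (A 1) 1 1)|
          + |(A 1) 0 0 - (A 1) 0 1 - (A 1) 1 0 + (A 1) 1 1|)
          < |(A 1) 0 0 + (A 1) 0 1 + (A 1) 1 0 + (A 1) 1 1| := by
        rw [abs_neg, abs_neg]; linarith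
      have := dom_img h1' (x := v.1.1 - v.1.2) (y := v.1.1 + v.1.2) (by linarith) (vec_ne' v).symm
      have t1 : (A 1) 1 1 * v.1.1 + -(A 1) 0 1 * v.1.2 + (-(A 1) 1 0 * v.1.1 + (A 1) 0 0 * v.1.2)
          = (-((A 1) 0 0 - (A 1) 0 1 + (A 1) 1 0 - (A 1) 1 1) * (v.1.1 - v.1.2)
            + ((A 1) 0 0 - (A 1) 0 1 - (A 1) 1 0 + (A 1) 1 1) * (v.1.1 + v.1.2)) / 2 := by ring
      have t2 : (A 1) 1 1 * v.1.1 + -(A 1) 0 1 * v.1.2 - (-(A 1) 1 0 * v.1.1 + (A 1) 0 0 * v.1.2)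
          = (((A 1) 0 0 + (A 1) 0 1 + (A 1) 1 0 + (A 1) 1 1) * (v.1.1 - v.1.2)
            + -((A 1) 0 0 + (A 1) 0 1 - (A 1) 1 0 - (A 1) 1 1) * (v.1.1 + v.1.2)) / 2 := by ring
      rw [t1, t2, abs_div, abs_div, abs_of_pos (by norm_num : (0:ℝ) < 2)]
      linarith

end Pool.Agent.SZ.X1
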