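import Mathlib
import Pool.Agent.SZ.Defs
import Pool.Agent.SZ.X1a

/-!
# SZ part X1: certified elements close to the identity in the first factor

If `H` has dense second projection and contains elements `h` with `h.1` close to `1` and `h.2`
large, then for every open set `W` of matrices invariant under nonzero scalars which contains a
conjugate of every matrix of rank one with nonzero trace there is `p ∈ H` with `p.1` close to
`1` and `p.2 ∈ W`.
-/

set_option autoImplicit false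
set_option linter.unusedSimpArgs false

namespace Pool.Agent.SZ.X1

open Pool.Agent.IRS MeasureTheory Set Filter Topology

abbrev MM := Matrix (Fin 2) (Fin 2) ℝ

lemma x1_nM_cont : Continuous nM := by
  unfold nM
  have h : ∀ i j : Fin 2, Continuous (fun X : MM => X i j) := fun i j =>
    continuous_id.matrix_elem i j
  exact (((h 0 0).abs.add (h 0 1).abs).add (h 1 0).abs).add (h 1 1).abs

lemma x1_d1_cont : Continuous d1 := by
  unfold d1
  exact x1_nM_cont.comp (continuous_subtype_val.sub continuous_const)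

lemma x1_d1_one : d1 1 = 0 := by
  unfold d1 nM; simp

lemma x1_entry_le (X : MM) (i j : Fin 2) : |X i j| ≤ nM X := by
  unfold nM
  have h0 := abs_nonneg (X 0 0)
  have h1 := abs_nonneg (X 0 1)
  have h2 := abs_nonneg (X 1 0)
  have h3 := abs_nonneg (X 1 1)
  fin_cases i <;> fin_cases j <;> simp <;> linarith

lemma x1_tendsto_one {ι : Type*} {l : Filter ι} {u : ι → SL2R}
    (h : Tendsto (fun n => d1 (u n)) l (𝓝 0)) : Tendsto u l (𝓝 1) := by
  have hind : Topology.IsInducing (fun g : SL2R => (g : MM)) := Topology.IsInducing.subtypeVal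
  rw [hind.tendsto_nhds_iff]
  have h1 : ∀ i j : Fin 2, Tendsto (fun n => (u n : MM) i j) l (𝓝 ((1 : MM) i j)) := by
    intro i j
    rw [tendsto_iff_dist_tendsto_zero]
    refine squeeze_zero (fun _ => dist_nonneg) (fun n => ?_) h
    rw [Real.dist_eq]
    exact x1_entry_le ((u n : MM) - 1) i j
  have h2 : Tendsto (fun n => (u n : MM)) l (𝓝 (1 : MM)) :=
    tendsto_pi_nhds.2 fun i => tendsto_pi_nhds.2 fun j => h1 i j
  exact h2

lemma x1_dom_open : IsOpen {M : MM | Dom M} := by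
  unfold Dom
  have h : ∀ i j : Fin 2, Continuous (fun X : MM => |X i j|) := fun i j =>
    (continuous_id.matrix_elem i j).abs
  exact isOpen_lt (continuous_const.mul (((h 0 1).add (h 1 0)).add (h 1 1))) (h 0 0)

lemma x1_dom2_open : IsOpen {M : MM | Dom2 M} := by
  have h : Continuous (fun M : MM => PP * M * PP) :=
    (continuous_const.mul continuous_id).mul continuous_const
  exact x1_dom_open.preimage h

lemma x1_dom_smul {c : ℝ} (hc : c ≠ 0) {M : MM} (h : Dom M) : Dom (c • M) := by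
  unfold Dom at h ⊢
  simp only [Matrix.smul_apply, smul_eq_mul, abs_mul]
  have := abs_pos.2 hc
  nlinarith

lemma x1_dom2_smul {c : ℝ} (hc : c ≠ 0) {M : MM} (h : Dom2 M) : Dom2 (c • M) := by
  unfold Dom2 at h ⊢
  have e : PP * (c • M) * PP = c • (PP * M * PP) := by
    rw [Matrix.mul_smul, Matrix.smul_mul]
  rw [e]
  exact x1_dom_smul hc h

/-- A matrix of rank one with nonzero trace is conjugate to a multiple of the projection. -/
lemma x1_conj {M : MM} (hd : M 0 0 * M 1 1 = M 0 1 * M 1 0) (ht : M 0 0 + M 1 1 ≠ 0) :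
    ∃ g : SL2R, ∃ τ : ℝ, τ ≠ 0 ∧ (g : MM) * M * ((g⁻¹ : SL2R) : MM) = !![τ, 0; 0, 0] := by
  set τ := M 0 0 + M 1 1 with hτ
  -- it suffices to find an eigenbasis
  have key : ∀ k : SL2R, M 0 0 * k 0 0 + M 0 1 * k 1 0 = τ * k 0 0 →
      M 1 0 * k 0 0 + M 1 1 * k 1 0 = τ * k 1 0 →
      M 0 0 * k 0 1 + M 0 1 * k 1 1 = 0 → M 1 0 * k 0 1 + M 1 1 * k 1 1 = 0 →
      ∃ g : SL2R, ∃ τ : ℝ, τ ≠ 0 ∧ (g : MM) * M * ((g⁻¹ : SL2R) : MM) = !![τ, 0; 0, 0] := by
    intro k h1 h2 h3 h4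
    refine ⟨k⁻¹, τ, ht, ?_⟩
    rw [inv_inv]
    have hk := det_eq k
    ext i j
    rw [Matrix.mul_assoc]
    fin_cases i <;> fin_cases j <;>
      simp only [Matrix.mul_apply, Fin.sum_univ_two, Fin.zero_eta, Fin.mk_one, Fin.isValue,
        inv00, inv01, inv10, inv11, Matrix.of_apply, Matrix.cons_val', Matrix.cons_val_zero,
        Matrix.cons_val_one, Matrix.cons_val_fin_one]
    · linear_combination k 1 1 * h1 - k 0 1 * h2 + τ * hk
    · linear_combination k 1 1 * h3 - k 0 1 * h4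
    · linear_combination -k 1 0 * h1 + k 0 0 * h2
    · linear_combination -k 1 0 * h3 + k 0 0 * h4
  by_cases ha : M 0 0 = 0
  · have hb : M 1 1 ≠ 0 := by
      intro h; apply ht; rw [hτ, ha, h]; ring
    have hτd : τ = M 1 1 := by rw [hτ, ha]; ring
    have hbc : M 0 1 * M 1 0 = 0 := by rw [← hd, ha]; ring
    refine key ⟨!![M 0 1, -1 / τ; M 1 1, M 1 0 / (M 1 1 * τ)], ?_⟩ ?_ ?_ ?_ ?_
    · rw [Matrix.det_fin_two]
      simp only [Matrix.of_apply, Matrix.cons_val', Matrix.cons_val_zero, Matrix.cons_val_one,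
        Matrix.cons_val_fin_one]
      rw [hτd]; field_simp; linear_combination hbc
    all_goals
      simp only [Matrix.of_apply, Matrix.cons_val', Matrix.cons_val_zero, Matrix.cons_val_one,
        Matrix.cons_val_fin_one]
    · rw [hτd, ha]; ring
    · rw [hτd]; linear_combination hbc
    · rw [hτd, ha]; field_simp; linear_combination hbc
    · rw [hτd]; field_simp; ring
  · refine key ⟨!![M 0 0, -M 0 1 / (M 0 0 * τ); M 1 0, 1 / τ], ?_⟩ ?_ ?_ ?_ ?_
    · rw [Matrix.det_fin_two]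
      simp only [Matrix.of_apply, Matrix.cons_val', Matrix.cons_val_zero, Matrix.cons_val_one,
        Matrix.cons_val_fin_one]
      field_simp; rw [hτ]; linear_combination -hd
    all_goals
      simp only [Matrix.of_apply, Matrix.cons_val', Matrix.cons_val_zero, Matrix.cons_val_one,
        Matrix.cons_val_fin_one]
    · rw [hτ]; linear_combination -hd
    · rw [hτ]; ring
    · field_simp; ring
    · field_simp; linear_combination hd

/-- The target for the first certificate. -/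
lemma x1_conj_dom {M : MM} (hd : M 0 0 * M 1 1 = M 0 1 * M 1 0) (ht : M 0 0 + M 1 1 ≠ 0) :
    ∃ g : SL2R, Dom ((g : MM) * M * ((g⁻¹ : SL2R) : MM)) := by
  obtain ⟨g, τ, hτ, hg⟩ := x1_conj hd ht
  refine ⟨g, ?_⟩
  rw [hg]
  unfold Dom
  simp [hτ]

/-- The target for the second certificate. -/
lemma x1_conj_dom2 {M : MM} (hd : M 0 0 * M 1 1 = M 0 1 * M 1 0) (ht : M 0 0 + M 1 1 ≠ 0) :
    ∃ g : SL2R, Dom2 ((g : MM) * M * ((g⁻¹ : SL2R) : MM)) := by
  obtain ⟨g, τ, hτ, hg⟩ := x1_conj hd ht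
  set s : SL2R := ⟨!![1, -1/2; 1, 1/2], by rw [Matrix.det_fin_two]; norm_num⟩ with hs
  refine ⟨s * g, ?_⟩
  have e : ((s * g : SL2R) : MM) * M * (((s * g)⁻¹ : SL2R) : MM)
      = (s : MM) * ((g : MM) * M * ((g⁻¹ : SL2R) : MM)) * ((s⁻¹ : SL2R) : MM) := by
    rw [_root_.mul_inv_rev, Matrix.SpecialLinearGroup.coe_mul, Matrix.SpecialLinearGroup.coe_mul]
    simp only [Matrix.mul_assoc]
  rw [e, hg, dom2_iff]
  have s00 : s 0 0 = 1 := rfl
  have s01 : s 0 1 = -1/2 := rfl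
  have s10 : s 1 0 = 1 := rfl
  have s11 : s 1 1 = 1/2 := rfl
  have f : ∀ i j, ((s : MM) * !![τ, 0; 0, 0] * ((s⁻¹ : SL2R) : MM)) i j = τ / 2 := by
    intro i j
    fin_cases i <;> fin_cases j <;>
      simp only [Matrix.mul_apply, Fin.sum_univ_two, Fin.zero_eta, Fin.mk_one, Fin.isValue,
        inv00, inv01, inv10, inv11, Matrix.of_apply, Matrix.cons_val', Matrix.cons_val_zero,
        Matrix.cons_val_one, Matrix.cons_val_fin_one, s00, s01, s10, s11] <;> ring
  simp only [f]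
  have := abs_pos.2 hτ
  have e2 : |τ / 2 + τ / 2 + τ / 2 + τ / 2| = 2 * |τ| := by
    rw [show τ / 2 + τ / 2 + τ / 2 + τ / 2 = 2 * τ by ring, abs_mul]; norm_num
  have e3 : τ / 2 - τ / 2 + τ / 2 - τ / 2 = 0 := by ring
  have e4 : τ / 2 + τ / 2 - τ / 2 - τ / 2 = 0 := by ring
  have e5 : τ / 2 - τ / 2 - τ / 2 + τ / 2 = 0 := by ring
  rw [e2, e3, e4, e5, abs_zero]
  linarith

/-- The word. -/
def x1w (p : SL2R × SL2R) (M : MM) : MM :=
  (p.1 : MM) * (M * (p.2 : MM) * M * ((p.2⁻¹ : SL2R) : MM)) * ((p.1⁻¹ : SL2R) : MM)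

lemma x1_coe_cont : Continuous (fun g : SL2R => (g : MM)) := continuous_subtype_val

lemma x1w_cont1 (g2 : SL2R) (M : MM) : Continuous (fun g1 : SL2R => x1w (g1, g2) M) := by
  have h2 : Continuous (fun g : SL2R => ((g⁻¹ : SL2R) : MM)) := x1_coe_cont.comp continuous_inv
  have h3 := (x1_coe_cont.matrix_mul (continuous_const
    (y := M * (g2 : MM) * M * ((g2⁻¹ : SL2R) : MM)))).matrix_mul h2
  exact h3

lemma x1w_cont2 (g1 : SL2R) (M : MM) : Continuous (fun g2 : SL2R => x1w (g1, g2) M) := by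
  have h2 : Continuous (fun g : SL2R => ((g⁻¹ : SL2R) : MM)) := x1_coe_cont.comp continuous_inv
  have h3 : Continuous (fun g : SL2R => M * (g : MM) * M * ((g⁻¹ : SL2R) : MM)) :=
    (((continuous_const (y := M)).matrix_mul x1_coe_cont).matrix_mul
      (continuous_const (y := M))).matrix_mul h2
  have h4 := ((continuous_const (y := (g1 : MM))).matrix_mul h3).matrix_mul
    (continuous_const (y := ((g1⁻¹ : SL2R) : MM)))
  exact h4

lemma x1w_cont3 (p : SL2R × SL2R) : Continuous (x1w p) := by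
  have h3 : Continuous (fun M : MM => M * (p.2 : MM) * M * ((p.2⁻¹ : SL2R) : MM)) :=
    ((continuous_id.matrix_mul (continuous_const (y := (p.2 : MM)))).matrix_mul
      continuous_id).matrix_mul (continuous_const (y := ((p.2⁻¹ : SL2R) : MM)))
  have h4 := ((continuous_const (y := (p.1 : MM))).matrix_mul h3).matrix_mul
    (continuous_const (y := ((p.1⁻¹ : SL2R) : MM)))
  exact h4

lemma x1w_smul (p : SL2R × SL2R) (c : ℝ) (M : MM) : x1w p (c • M) = (c * c) • x1w p M := by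
  unfold x1w
  simp only [Matrix.smul_mul, Matrix.mul_smul, smul_smul]

/-- A nonzero matrix of rank one has a conjugate such that the product has nonzero trace. -/
lemma x1_trace {M : MM} (hd : M 0 0 * M 1 1 = M 0 1 * M 1 0) (h0 : M ≠ 0) :
    ∃ g : SL2R, (M * (g : MM) * M * ((g⁻¹ : SL2R) : MM)) 0 0
      + (M * (g : MM) * M * ((g⁻¹ : SL2R) : MM)) 1 1 ≠ 0 := by
  by_cases ht : M 0 0 + M 1 1 = 0
  · have h11 : M 1 1 = - M 0 0 := by linarith
    by_cases hc : M 1 0 = 0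
    · have ha : M 0 0 = 0 := by
        rw [h11, hc] at hd
        nlinarith
      have hb : M 0 1 ≠ 0 := by
        intro hb
        apply h0
        ext i j
        fin_cases i <;> fin_cases j <;> simp [ha, hb, hc, h11]
      refine ⟨vv 1, ?_⟩
      simp only [Matrix.mul_apply, Fin.sum_univ_two, inv00, inv01, inv10, inv11, vv00, vv01,
        vv10, vv11, ha, hc, h11]
      have : M 0 1 * M 0 1 ≠ 0 := mul_ne_zero hb hb
      intro h
      apply this
      linear_combination -h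
    · refine ⟨uu 1, ?_⟩
      simp only [Matrix.mul_apply, Fin.sum_univ_two, inv00, inv01, inv10, inv11, uu00, uu01,
        uu10, uu11, h11]
      have h2 : M 1 0 * M 1 0 ≠ 0 := mul_ne_zero hc hc
      rw [h11] at hd
      intro h
      apply h2
      linear_combination -h - 2 * hd
  · refine ⟨1, ?_⟩
    have h2 := mul_ne_zero ht ht
    intro h
    apply h2
    simp only [Matrix.mul_apply, Fin.sum_univ_two, inv_one, Matrix.SpecialLinearGroup.coe_one,
      Matrix.one_apply, Fin.isValue, if_true, zero_ne_one, one_ne_zero, if_false] at h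
    simp at h
    linear_combination h + 2 * hd

lemma x1_rank {M : MM} (hd : M 0 0 * M 1 1 = M 0 1 * M 1 0) (g : SL2R) :
    (M * (g : MM) * M * ((g⁻¹ : SL2R) : MM)) 0 0 * (M * (g : MM) * M * ((g⁻¹ : SL2R) : MM)) 1 1
    = (M * (g : MM) * M * ((g⁻¹ : SL2R) : MM)) 0 1
      * (M * (g : MM) * M * ((g⁻¹ : SL2R) : MM)) 1 0 := by
  have h1 : (M * (g : MM) * M * ((g⁻¹ : SL2R) : MM)).det = 0 := by
    rw [Matrix.det_mul, Matrix.det_mul, Matrix.det_mul]
    have : M.det = 0 := by rw [Matrix.det_fin_two, hd]; ring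
    rw [this]; ring
  rw [Matrix.det_fin_two] at h1
  linarith

/-- Certified elements close to the identity in the first factor. -/
theorem x1_near {H : Subgroup G2} (hd2 : Dense (Prod.snd '' (H : Set G2)))
    (hseq : ∀ δ : ℝ, 0 < δ → ∀ L : ℝ, ∃ h ∈ H, d1 h.1 < δ ∧ L < nS h.2)
    {W : Set MM} (hW : IsOpen W) (hs : ∀ c : ℝ, c ≠ 0 → ∀ M ∈ W, c • M ∈ W)
    (hc : ∀ M : MM, M 0 0 * M 1 1 = M 0 1 * M 1 0 → M 0 0 + M 1 1 ≠ 0 →
      ∃ g : SL2R, (g : MM) * M * ((g⁻¹ : SL2R) : MM) ∈ W)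
    {ε : ℝ} (hε : 0 < ε) : ∃ p ∈ H, d1 p.1 < ε ∧ (p.2 : MM) ∈ W := by
  have hseq' : ∀ n : ℕ, ∃ h ∈ H, d1 h.1 < 1 / ((n : ℝ) + 1) ∧ (n : ℝ) < nS h.2 := fun n =>
    hseq _ (by positivity) _
  choose h hH hd hn using hseq'
  set Mn : ℕ → MM := fun n => (nS (h n).2)⁻¹ • ((h n).2 : MM) with hMn
  have hcomp : IsCompact {M : MM | ∀ i j, M i j ∈ Icc (-1 : ℝ) 1} := by
    have h1 : IsCompact (Set.pi univ (fun _ : Fin 2 => Set.pi univ
        (fun _ : Fin 2 => Icc (-1 : ℝ) 1))) :=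
      isCompact_univ_pi fun _ => isCompact_univ_pi fun _ => isCompact_Icc
    have h2 : {M : MM | ∀ i j, M i j ∈ Icc (-1 : ℝ) 1} = Set.pi univ (fun _ : Fin 2 =>
        Set.pi univ (fun _ : Fin 2 => Icc (-1 : ℝ) 1)) := by
      ext M
      constructor
      · intro hM i _ j _; exact hM i j
      · intro hM i j; exact hM i trivial j trivial
    rw [h2]
    exact h1
  have hpos : ∀ n, 0 < nS (h n).2 := fun n => nS_pos _
  have hmem : ∀ n, Mn n ∈ {M : MM | ∀ i j, M i j ∈ Icc (-1 : ℝ) 1} := by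
    intro n i j
    have h1 : |Mn n i j| ≤ 1 := by
      simp only [hMn, Matrix.smul_apply, smul_eq_mul, abs_mul, abs_inv, abs_of_pos (hpos n)]
      rw [inv_mul_le_iff₀ (hpos n), mul_one]
      exact x1_entry_le _ i j
    exact abs_le.1 h1
  obtain ⟨M, _, φ, hφ, hlim⟩ := hcomp.tendsto_subseq hmem
  have hlim' : Tendsto (fun n => Mn (φ n)) atTop (𝓝 M) := hlim
  have hentry : ∀ i j : Fin 2, Tendsto (fun n => Mn (φ n) i j) atTop (𝓝 (M i j)) := fun i j =>
    ((continuous_id.matrix_elem i j).tendsto M).comp hlim'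
  -- norm one
  have hM1 : nM M = 1 := by
    have h1 : Tendsto (fun n => nM (Mn (φ n))) atTop (𝓝 (nM M)) :=
      (x1_nM_cont.tendsto M).comp hlim'
    have h2 : (fun n => nM (Mn (φ n))) = fun _ => 1 := by
      funext n
      have h3 : nM (Mn (φ n)) = (nS (h (φ n)).2)⁻¹ * nS (h (φ n)).2 := by
        have h5 : ∀ i j, |Mn (φ n) i j| = (nS (h (φ n)).2)⁻¹ * |(h (φ n)).2 i j| := by
          intro i j
          simp only [hMn, Matrix.smul_apply, smul_eq_mul, abs_mul, abs_inv,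
            abs_of_pos (hpos (φ n))]
        have h6 : nM (Mn (φ n)) = |Mn (φ n) 0 0| + |Mn (φ n) 0 1| + |Mn (φ n) 1 0|
          + |Mn (φ n) 1 1| := rfl
        have h7 : nS (h (φ n)).2 = |(h (φ n)).2 0 0| + |(h (φ n)).2 0 1| + |(h (φ n)).2 1 0|
          + |(h (φ n)).2 1 1| := rfl
        rw [h6, h5, h5, h5, h5, ← mul_add, ← mul_add, ← mul_add, ← h7]
      rw [h3, inv_mul_cancel₀ (hpos _).ne']
    rw [h2] at h1
    exact (tendsto_nhds_unique h1 tendsto_const_nhds)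
  have hM0 : M ≠ 0 := by
    intro h0
    rw [h0] at hM1
    simp [nM] at hM1
  -- rank one
  have hMd : M 0 0 * M 1 1 = M 0 1 * M 1 0 := by
    have h1 : Tendsto (fun n => Mn (φ n) 0 0 * Mn (φ n) 1 1 - Mn (φ n) 0 1 * Mn (φ n) 1 0) atTop
        (𝓝 (M 0 0 * M 1 1 - M 0 1 * M 1 0)) :=
      ((hentry 0 0).mul (hentry 1 1)).sub ((hentry 0 1).mul (hentry 1 0))
    have h2 : ∀ n, Mn (φ n) 0 0 * Mn (φ n) 1 1 - Mn (φ n) 0 1 * Mn (φ n) 1 0
        = (nS (h (φ n)).2)⁻¹ ^ 2 := by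
      intro n
      have h3 := det_eq (h (φ n)).2
      simp only [hMn, Matrix.smul_apply, smul_eq_mul]
      linear_combination (nS (h (φ n)).2)⁻¹ ^ 2 * h3
    simp_rw [h2] at h1
    have h4 : Tendsto (fun n => (nS (h (φ n)).2)⁻¹) atTop (𝓝 0) := by
      refine Tendsto.inv_tendsto_atTop ?_
      refine tendsto_atTop_mono (fun n => (hn (φ n)).le) ?_
      exact tendsto_natCast_atTop_atTop.comp hφ.tendsto_atTop
    have h5 : Tendsto (fun n => (nS (h (φ n)).2)⁻¹ ^ 2) atTop (𝓝 (0 ^ 2)) := h4.pow 2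
    have h6 := tendsto_nhds_unique h1 h5
    linarith
  obtain ⟨g2, hg2⟩ := x1_trace hMd hM0
  obtain ⟨g1, hg1⟩ := hc _ (x1_rank hMd g2) hg2
  have hw1 : x1w (g1, g2) M ∈ W := hg1
  obtain ⟨_, hΓ1, ⟨Γ1, hΓ1H, rfl⟩⟩ := hd2.inter_open_nonempty _
    (hW.preimage (x1w_cont1 g2 M)) ⟨g1, hw1⟩
  obtain ⟨_, hΓ2, ⟨Γ2, hΓ2H, rfl⟩⟩ := hd2.inter_open_nonempty _
    (hW.preimage (x1w_cont2 Γ1.2 M)) ⟨g2, hΓ1⟩
  have hev : ∀ᶠ n in atTop, x1w (Γ1.2, Γ2.2) (Mn (φ n)) ∈ W :=
    hlim'.eventually ((hW.preimage (x1w_cont3 (Γ1.2, Γ2.2))).mem_nhds hΓ2)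
  set p : ℕ → G2 := fun n => Γ1 * (h n * Γ2 * h n * Γ2⁻¹) * Γ1⁻¹ with hp
  have hpH : ∀ n, p n ∈ H := fun n =>
    H.mul_mem (H.mul_mem hΓ1H (H.mul_mem (H.mul_mem (H.mul_mem (hH n) hΓ2H) (hH n))
      (H.inv_mem hΓ2H))) (H.inv_mem hΓ1H)
  have hp1 : Tendsto (fun n => d1 (p n).1) atTop (𝓝 0) := by
    have h1 : Tendsto (fun n => (h n).1) atTop (𝓝 1) := by
      apply x1_tendsto_one
      refine squeeze_zero (fun n => ?_) (fun n => (hd n).le) tendsto_one_div_add_atTop_nhds_zero_nat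
      unfold d1
      exact nM_nonneg _
    have h2 : Tendsto (fun n => Γ1.1 * ((h n).1 * Γ2.1 * (h n).1 * Γ2.1⁻¹) * Γ1.1⁻¹) atTop
        (𝓝 (Γ1.1 * (1 * Γ2.1 * 1 * Γ2.1⁻¹) * Γ1.1⁻¹)) :=
      ((((h1.mul_const _).mul h1).mul_const _).const_mul _).mul_const _
    have h3 : Γ1.1 * (1 * Γ2.1 * 1 * Γ2.1⁻¹) * Γ1.1⁻¹ = 1 := by group
    rw [h3] at h2
    have h4 := (x1_d1_cont.tendsto 1).comp h2
    rw [x1_d1_one] at h4
    exact h4
  have hev2 : ∀ᶠ n in atTop, d1 (p (φ n)).1 < ε :=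
    (hp1.comp hφ.tendsto_atTop).eventually (gt_mem_nhds hε)
  obtain ⟨n, hn1, hn2⟩ := (hev.and hev2).exists
  refine ⟨p (φ n), hpH _, hn2, ?_⟩
  have e1 : ((p (φ n)).2 : MM) = x1w (Γ1.2, Γ2.2) ((h (φ n)).2 : MM) := by
    unfold x1w
    simp only [hp, Prod.snd_mul, Prod.snd_inv, Matrix.SpecialLinearGroup.coe_mul]
  have e2 : ((h (φ n)).2 : MM) = (nS (h (φ n)).2) • Mn (φ n) := by
    simp only [hMn]
    rw [smul_smul, mul_inv_cancel₀ (hpos _).ne', one_smul]
  rw [e1, e2, x1w_smul]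
  exact hs _ (mul_ne_zero (hpos _).ne' (hpos _).ne') _ hn1

end Pool.Agent.SZ.X1
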