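import Mathlib
import Pool.Agent.SZ.X1b

/-!
# SZ part X1: exhaustions (free pairs, density) and injectivity of the first projection
-/

set_option autoImplicit false
set_option linter.unusedSimpArgs false
set_option linter.unusedSectionVars false

namespace Pool.Agent.SZ.X1

open Pool.Agent.IRS MeasureTheory Set Filter Topology

/-- Exhaustion by an increasing sequence. -/
lemma exhaust {X : Type} [MeasurableSpace X] {μ : Measure X} [IsProbabilityMeasure μ]
    (S : ℕ → Set X) (hm : ∀ n, MeasurableSet (S n)) (hmono : Monotone S)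
    (hae : ∀ᵐ x ∂μ, ∃ n, x ∈ S n) {η : ℝ} (hη : 0 < η) : ∃ n, μ (S n)ᶜ ≤ ENNReal.ofReal η := by
  have h1 : Tendsto (fun n => μ (S n)ᶜ) atTop (𝓝 (μ (⋂ n, (S n)ᶜ))) := by
    refine tendsto_measure_iInter_atTop (fun n => (hm n).compl.nullMeasurableSet) ?_
      ⟨0, measure_ne_top _ _⟩
    intro m n hmn
    exact compl_subset_compl.2 (hmono hmn)
  have h2 : μ (⋂ n, (S n)ᶜ) = 0 := by
    have h3 : (⋂ n, (S n)ᶜ) = {x | ¬ ∃ n, x ∈ S n} := by
      ext x; simp
    rw [h3]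
    exact hae
  rw [h2] at h1
  have h4 : (0 : ENNReal) < ENNReal.ofReal η := ENNReal.ofReal_pos.2 hη
  obtain ⟨n, hn⟩ := (h1.eventually (gt_mem_nhds h4)).exists
  exact ⟨n, hn.le⟩

/-- There are no isolated points. -/
lemma x1_perfect (g : SL2R) : NeBot (𝓝[≠] g) := by
  have hc : Continuous (fun t : ℝ => g * uu t) := continuous_const.mul (by
    refine continuous_induced_rng.2 ?_
    refine continuous_matrix ?_
    intro i j
    fin_cases i <;> fin_cases j <;> simp [uu] <;> fun_prop)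
  have h1 : Tendsto (fun t : ℝ => g * uu t) (𝓝[≠] 0) (𝓝[≠] g) := by
    refine tendsto_nhdsWithin_iff.2 ⟨?_, ?_⟩
    · have := hc.tendsto 0
      simp only [uu_zero, mul_one] at this
      exact this.mono_left nhdsWithin_le_nhds
    · filter_upwards [self_mem_nhdsWithin] with t ht
      intro h
      apply ht
      have h2 : g * uu t = g := h
      have h3 : uu t = 1 := by simpa using h2
      have h4 : uu t 0 1 = (1 : SL2R) 0 1 := by rw [h3]
      rw [uu01] at h4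
      have h5 : (1 : SL2R) 0 1 = 0 := by simp
      rw [h5] at h4
      exact h4
  exact h1.neBot

/-- Elements close to the identity in the first factor and large in the second. -/
lemma x1_seq {H : Subgroup G2} (hfin : ∑' h : H, ENNReal.ofReal (q2 h) ≠ ⊤)
    (hd : Dense (Prod.fst '' (H : Set G2))) {δ : ℝ} (hδ : 0 < δ) (L : ℝ) :
    ∃ h ∈ H, d1 h.1 < δ ∧ L < nS h.2 := by
  by_contra hcon
  push Not at hcon
  set R : ℝ := max (2 + δ) L with hR
  have hR0 : 0 < R := lt_of_lt_of_le (by linarith) (le_max_left _ _)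
  have hc0 : ENNReal.ofReal ((R ^ 6)⁻¹ * (R ^ 6)⁻¹) ≠ 0 := by
    have : 0 < (R ^ 6)⁻¹ * (R ^ 6)⁻¹ := by positivity
    exact (ENNReal.ofReal_pos.2 this).ne'
  have hF := ENNReal.finite_const_le_of_tsum_ne_top hfin hc0
  have hA : {g : SL2R | ∃ h ∈ H, h.1 = g ∧ d1 g < δ}.Finite := by
    refine (hF.image (fun h : H => (h : G2).1)).subset ?_
    rintro g ⟨h, hh, rfl, hg⟩
    refine ⟨⟨h, hh⟩, ?_, rfl⟩
    have h2 : nS h.2 ≤ R := (hcon h hh hg).trans (le_max_right _ _)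
    have h1 : nS h.1 ≤ R := by
      refine le_trans ?_ (le_max_left _ _)
      have h3 := nM_sub_le (h.1 : Matrix (Fin 2) (Fin 2) ℝ) 1
      have h4 : nM (1 : Matrix (Fin 2) (Fin 2) ℝ) = 2 := by
        unfold nM; simp; norm_num
      rw [h4] at h3
      unfold d1 at hg
      unfold nS
      linarith
    have hq : ∀ g : SL2R, nS g ≤ R → (R ^ 6)⁻¹ ≤ qs g := by
      intro g hg
      unfold qs
      exact inv_anti₀ (pow_pos (nS_pos g) 6) (pow_le_pow_left₀ (nS_pos g).le hg 6)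
    change ENNReal.ofReal ((R ^ 6)⁻¹ * (R ^ 6)⁻¹) ≤ ENNReal.ofReal (q2 h)
    apply ENNReal.ofReal_le_ofReal
    unfold q2
    exact mul_le_mul (hq _ h1) (hq _ h2) (by positivity) (qs_pos _).le
  have hperf : ∀ x : SL2R, NeBot (𝓝[≠] x) := x1_perfect
  have hd' := hd.sdiff_finite hA
  have hopen : IsOpen {g : SL2R | d1 g < δ} := isOpen_lt x1_d1_cont continuous_const
  obtain ⟨g, hg1, hg2⟩ := hd'.inter_open_nonempty _ hopen ⟨1, by
    change d1 1 < δ; rw [x1_d1_one]; exact hδ⟩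
  obtain ⟨⟨h, hh, rfl⟩, h3⟩ := hg2
  exact h3 ⟨h, hh, rfl, hg1⟩

section X

variable {X : Type} [MeasurableSpace X] {μ : Measure X} [IsProbabilityMeasure μ] (𝓕 : Fld μ)

theorem exh_free' {ε η : ℝ} (hε : 0 < ε) (hη : 0 < η) : ∃ T : ℝ, ∃ S : Set X, MeasurableSet S ∧
    μ Sᶜ ≤ ENNReal.ofReal η ∧ ∀ x ∈ S, FreeT ε T (𝓕.H x) := by
  have hcoe2 : Continuous (fun p : G2 => (p.2 : MM)) := x1_coe_cont.comp continuous_snd
  set U1 : ℕ → Set G2 := fun n => {p | d1 p.1 < ε ∧ nS p.2 < n ∧ Dom (p.2 : MM)} with hU1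
  set U2 : ℕ → Set G2 := fun n => {p | d1 p.1 < ε ∧ nS p.2 < n ∧ Dom2 (p.2 : MM)} with hU2
  have hU1o : ∀ n, IsOpen (U1 n) := fun n =>
    (isOpen_lt (x1_d1_cont.comp continuous_fst) continuous_const).inter
      ((isOpen_lt (continuous_nS.comp continuous_snd) continuous_const).inter
        (x1_dom_open.preimage hcoe2))
  have hU2o : ∀ n, IsOpen (U2 n) := fun n =>
    (isOpen_lt (x1_d1_cont.comp continuous_fst) continuous_const).inter
      ((isOpen_lt (continuous_nS.comp continuous_snd) continuous_const).inter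
        (x1_dom2_open.preimage hcoe2))
  set S : ℕ → Set X := fun n => {x | ((𝓕.H x : Set G2) ∩ U1 n).Nonempty}
    ∩ {x | ((𝓕.H x : Set G2) ∩ U2 n).Nonempty} with hS
  have hSm : ∀ n, MeasurableSet (S n) := fun n =>
    (𝓕.meas _ (hU1o n)).inter (𝓕.meas _ (hU2o n))
  have hmono : Monotone S := by
    intro m n hmn x hx
    have hmn' : (m : ℝ) ≤ n := by exact_mod_cast hmn
    obtain ⟨⟨p, hp, hp1, hp2, hp3⟩, ⟨q, hq, hq1, hq2, hq3⟩⟩ := hx
    exact ⟨⟨p, hp, hp1, hp2.trans_le hmn', hp3⟩, ⟨q, hq, hq1, hq2.trans_le hmn', hq3⟩⟩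
  have hae : ∀ᵐ x ∂μ, ∃ n, x ∈ S n := by
    filter_upwards [𝓕.fin, 𝓕.d1, 𝓕.d2] with x hf hd1 hd2
    have hf1 : ∑' h : 𝓕.H x, ENNReal.ofReal (q2 h) ≠ ⊤ := by
      have := hf 1
      simpa using this
    have hseq : ∀ δ : ℝ, 0 < δ → ∀ L : ℝ, ∃ h ∈ 𝓕.H x, d1 h.1 < δ ∧ L < nS h.2 :=
      fun δ hδ L => x1_seq hf1 hd1 hδ L
    obtain ⟨p, hp, hp1, hp2⟩ := x1_near hd2 hseq x1_dom_open
      (fun c hc M hM => x1_dom_smul hc hM) (fun M h1 h2 => x1_conj_dom h1 h2) hε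
    obtain ⟨q, hq, hq1, hq2⟩ := x1_near hd2 hseq x1_dom2_open
      (fun c hc M hM => x1_dom2_smul hc hM) (fun M h1 h2 => x1_conj_dom2 h1 h2) hε
    obtain ⟨n, hn⟩ := exists_nat_gt (max (nS p.2) (nS q.2))
    refine ⟨n, ⟨p, hp, hp1, (le_max_left _ _).trans_lt hn, hp2⟩,
      ⟨q, hq, hq1, (le_max_right _ _).trans_lt hn, hq2⟩⟩
  obtain ⟨n, hn⟩ := exhaust S hSm hmono hae hη
  refine ⟨n, S n, hSm n, hn, ?_⟩
  rintro x ⟨⟨p, hp, hp1, hp2, hp3⟩, ⟨q, hq, hq1, hq2, hq3⟩⟩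
  refine ⟨![p, q], ?_, ?_⟩
  · intro i
    fin_cases i
    · exact ⟨hp, hp1.le, hp2.le⟩
    · exact ⟨hq, hq1.le, hq2.le⟩
  · have h1 := free_of_dom (fun i => (![p, q] i : G2).2) hp3 hq3
    have h2 : (FreeGroup.lift (fun i => (![p, q] i : G2).2) : FreeGroup (Fin 2) →* SL2R)
        = (MonoidHom.snd SL2R SL2R).comp (FreeGroup.lift ![p, q]) := by
      ext i
      simp
    rw [h2, MonoidHom.coe_comp] at h1
    exact h1.of_comp

/-- The closed ball is compact. -/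
lemma x1_ball_compact (R : ℝ) : IsCompact {g : SL2R | nS g ≤ R} := by
  have hcomp : IsCompact {M : MM | ∀ i j, M i j ∈ Icc (-R) R} := by
    have h1 : IsCompact (Set.pi univ (fun _ : Fin 2 => Set.pi univ
        (fun _ : Fin 2 => Icc (-R) R))) :=
      isCompact_univ_pi fun _ => isCompact_univ_pi fun _ => isCompact_Icc
    have h2 : {M : MM | ∀ i j, M i j ∈ Icc (-R) R} = Set.pi univ (fun _ : Fin 2 =>
        Set.pi univ (fun _ : Fin 2 => Icc (-R) R)) := by
      ext M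
      constructor
      · intro hM i _ j _; exact hM i j
      · intro hM i j; exact hM i trivial j trivial
    rw [h2]
    exact h1
  have hcl : Topology.IsClosedEmbedding (fun g : SL2R => (g : MM)) := by
    have h1 : IsClosed {A : Matrix (Fin 2) (Fin 2) ℝ | A.det = 1} :=
      isClosed_eq (continuous_id.matrix_det) continuous_const
    exact h1.isClosedEmbedding_subtypeVal
  have h3 := hcl.isCompact_preimage hcomp
  refine h3.of_isClosed_subset (isClosed_le continuous_nS continuous_const) ?_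
  intro g hg i j
  have h4 : |(g : MM) i j| ≤ R := (x1_entry_le (g : MM) i j).trans hg
  exact abs_le.1 h4

lemma x1_nM_tri (X Y Z : MM) : nM (X - Z) ≤ nM (X - Y) + nM (Y - Z) := by
  have h := nM_sub_le (X - Z) (Y - Z)
  rw [sub_sub_sub_cancel_right] at h
  linarith

theorem exh_den' {δ R η : ℝ} (hδ : 0 < δ) (hη : 0 < η) : ∃ T : ℝ, ∃ S : Set X,
    MeasurableSet S ∧ μ Sᶜ ≤ ENNReal.ofReal η ∧ ∀ x ∈ S, Den δ R T (𝓕.H x) := by
  have hdist : ∀ Y : SL2R, Continuous (fun g : SL2R => nM ((g : MM) - (Y : MM))) := fun Y =>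
    x1_nM_cont.comp (x1_coe_cont.sub continuous_const)
  have hop : ∀ Y : SL2R, IsOpen {g : SL2R | nM ((g : MM) - (Y : MM)) < δ / 2} := fun Y =>
    isOpen_lt (hdist Y) continuous_const
  obtain ⟨t, ht⟩ := (x1_ball_compact R).elim_finite_subcover
    (fun Y : SL2R => {g : SL2R | nM ((g : MM) - (Y : MM)) < δ / 2}) hop (by
      intro Y _
      rw [mem_iUnion]
      refine ⟨Y, ?_⟩
      change nM ((Y : MM) - Y) < δ / 2
      rw [sub_self]
      unfold nM
      simp [hδ])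
  set U : SL2R → ℕ → Set G2 := fun Y n =>
    {p | nM ((p.1 : MM) - (Y : MM)) < δ / 2 ∧ nS p.2 < n} with hU
  have hUo : ∀ Y n, IsOpen (U Y n) := fun Y n =>
    (isOpen_lt ((hdist Y).comp continuous_fst) continuous_const).inter
      (isOpen_lt (continuous_nS.comp continuous_snd) continuous_const)
  set S : ℕ → Set X := fun n => ⋂ Y ∈ t, {x | ((𝓕.H x : Set G2) ∩ U Y n).Nonempty} with hS
  have hSm : ∀ n, MeasurableSet (S n) := fun n =>
    Finset.measurableSet_biInter t fun Y _ => 𝓕.meas _ (hUo Y n)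
  have hmono : Monotone S := by
    intro m n hmn x hx
    have hmn' : (m : ℝ) ≤ n := by exact_mod_cast hmn
    rw [mem_iInter₂] at hx ⊢
    intro Y hY
    obtain ⟨p, hp, hp1, hp2⟩ := hx Y hY
    exact ⟨p, hp, hp1, hp2.trans_le hmn'⟩
  have hae : ∀ᵐ x ∂μ, ∃ n, x ∈ S n := by
    filter_upwards [𝓕.d1] with x hd1
    have h1 : ∀ Y : SL2R, ∃ h ∈ 𝓕.H x, nM ((h.1 : MM) - (Y : MM)) < δ / 2 := by
      intro Y
      obtain ⟨_, h2, ⟨h, hh, rfl⟩⟩ := hd1.inter_open_nonempty _ (hop Y) ⟨Y, by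
        change nM ((Y : MM) - Y) < δ / 2
        rw [sub_self]
        unfold nM
        simp [hδ]⟩
      exact ⟨h, hh, h2⟩
    choose h hh hd using h1
    obtain ⟨n, hn⟩ := exists_nat_gt (∑ Y ∈ t, nS (h Y).2)
    refine ⟨n, ?_⟩
    rw [mem_iInter₂]
    intro Y hY
    refine ⟨h Y, hh Y, hd Y, lt_of_le_of_lt ?_ hn⟩
    exact Finset.single_le_sum (f := fun Y => nS (h Y).2) (fun Z _ => (nS_pos _).le) hY
  obtain ⟨n, hn⟩ := exhaust S hSm hmono hae hη
  refine ⟨n, S n, hSm n, hn, ?_⟩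
  intro x hx Y hY
  have hx' := mem_iInter₂.1 hx
  have h2 := ht (show Y ∈ {g : SL2R | nS g ≤ R} from hY)
  rw [mem_iUnion₂] at h2
  obtain ⟨Y0, hY0, h3⟩ := h2
  obtain ⟨p, hp, hp1, hp2⟩ := hx' Y0 hY0
  refine ⟨p, hp, ?_, hp2.le⟩
  have h4 := x1_nM_tri (p.1 : MM) (Y0 : MM) (Y : MM)
  have h5 : nM ((Y0 : MM) - Y) < δ / 2 := by
    rw [nM_sub_comm]; exact h3
  linarith

/-- Central elements have square one. -/
lemma x1_center {g : SL2R} (hg : g ∈ Subgroup.center SL2R) : g ^ 2 = 1 := by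
  rw [Subgroup.mem_center_iff] at hg
  have h1 := hg (uu 1)
  have h2 := hg (vv 1)
  have a1 : (uu 1 * g) 0 0 = (g * uu 1) 0 0 := by rw [h1]
  have a2 : (uu 1 * g) 0 1 = (g * uu 1) 0 1 := by rw [h1]
  have a3 : (vv 1 * g) 0 0 = (g * vv 1) 0 0 := by rw [h2]
  simp only [SL_mul_apply, uu00, uu01, uu10, uu11, vv00, vv01, vv10, vv11] at a1 a2 a3
  have hd := det_eq g
  have hc : g 1 0 = 0 := by linarith
  have hb : g 0 1 = 0 := by linarith
  have hab : g 1 1 = g 0 0 := by linarith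
  rw [hc, hb, hab] at hd
  rw [sq]
  apply SL_ext <;> rw [SL_mul_apply]
  · rw [hb, hc]; simp; linarith
  · rw [hb]; simp
  · rw [hc]; simp
  · rw [hb, hc, hab]; simp; linarith

theorem ae_inj' : ∀ᵐ x ∂μ, InjT (𝓕.H x) := by
  filter_upwards [𝓕.cnt, 𝓕.d2] with x hc hd2
  have hcl := 𝓕.closed x
  intro h hh h1
  by_contra h2
  set N : Subgroup SL2R := (𝓕.H x).comap j2 with hN
  have hNmem : ∀ b : SL2R, b ∈ N ↔ ((1, b) : G2) ∈ 𝓕.H x := fun b => Iff.rfl
  have hcont : Continuous (fun b : SL2R => ((1, b) : G2)) := continuous_const.prodMk continuous_id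
  have hNc : IsClosed (N : Set SL2R) := hcl.preimage hcont
  have hNn : ∀ n ∈ N, ∀ g, g * n * g⁻¹ ∈ N := by
    intro n hn g
    have hcl2 : IsClosed {g : SL2R | ((1, g * n * g⁻¹) : G2) ∈ (𝓕.H x : Set G2)} := by
      have hcont2 : Continuous (fun g : SL2R => ((1, g * n * g⁻¹) : G2)) :=
        continuous_const.prodMk ((continuous_id.mul continuous_const).mul continuous_inv)
      exact hcl.preimage hcont2
    have hsub : Prod.snd '' (𝓕.H x : Set G2)
        ⊆ {g : SL2R | ((1, g * n * g⁻¹) : G2) ∈ (𝓕.H x : Set G2)} := by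
      rintro _ ⟨k, hk, rfl⟩
      have h3 := (𝓕.H x).mul_mem ((𝓕.H x).mul_mem hk ((hNmem n).1 hn)) ((𝓕.H x).inv_mem hk)
      have h4 : k * ((1, n) : G2) * k⁻¹ = ((1, k.2 * n * k.2⁻¹) : G2) := by
        refine Prod.ext ?_ ?_
        · simp
        · rfl
      rw [h4] at h3
      exact h3
    exact closure_minimal hsub hcl2 (hd2 g)
  have hmem : h.2 ∈ N := by
    rw [hNmem, ← h1]
    exact hh
  have htop := d3a_top hNc hNn hmem (fun hcen => h2 (x1_center hcen))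
  have hcN : (N : Set SL2R).Countable := by
    have hinj : Function.Injective (fun b : SL2R => ((1, b) : G2)) := by
      intro a b hab
      exact congrArg Prod.snd hab
    exact (hc.preimage hinj)
  rw [htop] at hcN
  have hinj2 : Function.Injective uu := by
    intro a b hab
    have : uu a 0 1 = uu b 0 1 := by rw [hab]
    simpa using this
  have h5 := hcN.preimage hinj2
  have h6 : (uu ⁻¹' ((⊤ : Subgroup SL2R) : Set SL2R)) = univ := by
    ext t; simp
  rw [h6] at h5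
  exact Cardinal.not_countable_real h5

end X

end Pool.Agent.SZ.X1

namespace Pool.Agent.SZ

open Pool.Agent.IRS MeasureTheory Set

variable {X : Type} [MeasurableSpace X] {μ : Measure X} [IsProbabilityMeasure μ] (𝓕 : Fld μ)

theorem exh_free' {ε η : ℝ} (hε : 0 < ε) (hη : 0 < η) : ∃ T : ℝ, ∃ S : Set X, MeasurableSet S ∧
    μ Sᶜ ≤ ENNReal.ofReal η ∧ ∀ x ∈ S, FreeT ε T (𝓕.H x) := X1.exh_free' 𝓕 hε hη

theorem exh_den' {δ R η : ℝ} (hδ : 0 < δ) (hη : 0 < η) : ∃ T : ℝ, ∃ S : Set X,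
    MeasurableSet S ∧ μ Sᶜ ≤ ENNReal.ofReal η ∧ ∀ x ∈ S, Den δ R T (𝓕.H x) := X1.exh_den' 𝓕 hδ hη

theorem ae_inj' : ∀ᵐ x ∂μ, InjT (𝓕.H x) := X1.ae_inj' 𝓕

end Pool.Agent.SZ
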