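import Mathlib
import Pool.Agent.SZ.Defs

/-!
# SZ, part X2: matrix estimates
-/

set_option autoImplicit false

namespace Pool.Agent.SZ.X2

open Pool.Agent.IRS MeasureTheory Set Filter Topology

lemma d1_eq (g : SL2R) : d1 g = |g 0 0 - 1| + |g 0 1| + |g 1 0| + |g 1 1 - 1| := by
  unfold d1 nM
  simp [Matrix.sub_apply]

lemma continuous_ent (i j : Fin 2) : Continuous (fun g : SL2R => g i j) := by
  have h : Continuous (fun g : SL2R => (g : Matrix (Fin 2) (Fin 2) ℝ)) := continuous_subtype_val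
  exact h.matrix_elem i j

lemma continuous_d1 : Continuous d1 := by
  have e : d1 = fun g => |g 0 0 - 1| + |g 0 1| + |g 1 0| + |g 1 1 - 1| := funext d1_eq
  rw [e]
  exact (((((continuous_ent 0 0).sub continuous_const).abs).add (continuous_ent 0 1).abs).add
    (continuous_ent 1 0).abs).add (((continuous_ent 1 1).sub continuous_const).abs)

lemma d1_nonneg (g : SL2R) : 0 ≤ d1 g := nM_nonneg _

lemma d1_one : d1 1 = 0 := by rw [d1_eq]; simp

lemma d1_eq_zero {g : SL2R} (h : d1 g = 0) : g = 1 := by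
  rw [d1_eq] at h
  have h0 := abs_nonneg (g 0 0 - 1)
  have h1 := abs_nonneg (g 0 1)
  have h2 := abs_nonneg (g 1 0)
  have h3 := abs_nonneg (g 1 1 - 1)
  have e0 : g 0 0 - 1 = 0 := abs_eq_zero.1 (by linarith)
  have e1 : g 0 1 = 0 := abs_eq_zero.1 (by linarith)
  have e2 : g 1 0 = 0 := abs_eq_zero.1 (by linarith)
  have e3 : g 1 1 - 1 = 0 := abs_eq_zero.1 (by linarith)
  apply SL_ext
  · simp; linarith
  · simp [e1]
  · simp [e2]
  · simp; linarith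

lemma inv00 (g : SL2R) : g⁻¹ 0 0 = g 1 1 := by
  rw [Matrix.SpecialLinearGroup.coe_inv, Matrix.adjugate_fin_two]; rfl
lemma inv01 (g : SL2R) : g⁻¹ 0 1 = -g 0 1 := by
  rw [Matrix.SpecialLinearGroup.coe_inv, Matrix.adjugate_fin_two]; rfl
lemma inv10 (g : SL2R) : g⁻¹ 1 0 = -g 1 0 := by
  rw [Matrix.SpecialLinearGroup.coe_inv, Matrix.adjugate_fin_two]; rfl
lemma inv11 (g : SL2R) : g⁻¹ 1 1 = g 0 0 := by
  rw [Matrix.SpecialLinearGroup.coe_inv, Matrix.adjugate_fin_two]; rfl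

/-- Conjugation changes the distance to the identity by a bounded factor. -/
lemma d1_conj (w g : SL2R) : d1 (w * g * w⁻¹) ≤ nS w * nS w * d1 g := by
  unfold d1
  have e : ((w * g * w⁻¹ : SL2R) : Matrix (Fin 2) (Fin 2) ℝ) - 1
      = (w : Matrix (Fin 2) (Fin 2) ℝ) * ((g : Matrix (Fin 2) (Fin 2) ℝ) - 1)
        * ((w⁻¹ : SL2R) : Matrix (Fin 2) (Fin 2) ℝ) := by
    have e1 : (w : Matrix (Fin 2) (Fin 2) ℝ) * ((w⁻¹ : SL2R) : Matrix (Fin 2) (Fin 2) ℝ) = 1 := by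
      rw [← Matrix.SpecialLinearGroup.coe_mul, mul_inv_cancel, Matrix.SpecialLinearGroup.coe_one]
    rw [mul_sub, sub_mul, mul_one, e1, Matrix.SpecialLinearGroup.coe_mul,
      Matrix.SpecialLinearGroup.coe_mul]
  rw [e]
  have h1 := nM_mul_le ((w : Matrix (Fin 2) (Fin 2) ℝ) * ((g : Matrix (Fin 2) (Fin 2) ℝ) - 1))
    ((w⁻¹ : SL2R) : Matrix (Fin 2) (Fin 2) ℝ)
  have h2 := nM_mul_le (w : Matrix (Fin 2) (Fin 2) ℝ) ((g : Matrix (Fin 2) (Fin 2) ℝ) - 1)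
  have h3 : nM ((w⁻¹ : SL2R) : Matrix (Fin 2) (Fin 2) ℝ) = nS w := nS_inv w
  rw [h3] at h1
  have h4 := nS_pos w
  have h5 := nM_nonneg ((g : Matrix (Fin 2) (Fin 2) ℝ) - 1)
  calc _ ≤ nM ((w : Matrix (Fin 2) (Fin 2) ℝ) * ((g : Matrix (Fin 2) (Fin 2) ℝ) - 1)) * nS w := h1
    _ ≤ (nM (w : Matrix (Fin 2) (Fin 2) ℝ) * nM ((g : Matrix (Fin 2) (Fin 2) ℝ) - 1)) * nS w :=
        mul_le_mul_of_nonneg_right h2 h4.le
    _ = nS w * nS w * nM ((g : Matrix (Fin 2) (Fin 2) ℝ) - 1) := by unfold nS; ring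

/-- Two close elements. -/
lemma d1_inv_mul (g h : SL2R) : d1 (g⁻¹ * h) ≤ nS g * dm h g := by
  unfold d1 dm
  have e : ((g⁻¹ * h : SL2R) : Matrix (Fin 2) (Fin 2) ℝ) - 1
      = ((g⁻¹ : SL2R) : Matrix (Fin 2) (Fin 2) ℝ) * ((h : Matrix (Fin 2) (Fin 2) ℝ)
        - (g : Matrix (Fin 2) (Fin 2) ℝ)) := by
    have e1 : ((g⁻¹ : SL2R) : Matrix (Fin 2) (Fin 2) ℝ) * (g : Matrix (Fin 2) (Fin 2) ℝ) = 1 := by
      rw [← Matrix.SpecialLinearGroup.coe_mul, inv_mul_cancel, Matrix.SpecialLinearGroup.coe_one]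
    rw [mul_sub, e1, Matrix.SpecialLinearGroup.coe_mul]
  rw [e]
  have h1 := nM_mul_le ((g⁻¹ : SL2R) : Matrix (Fin 2) (Fin 2) ℝ) ((h : Matrix (Fin 2) (Fin 2) ℝ)
        - (g : Matrix (Fin 2) (Fin 2) ℝ))
  have h3 : nM ((g⁻¹ : SL2R) : Matrix (Fin 2) (Fin 2) ℝ) = nS g := nS_inv g
  rwa [h3] at h1

/-- The Weyl element. -/
def JJ : SL2R := ⟨!![0, 1; -1, 0], by simp [Matrix.det_fin_two]⟩

@[simp] lemma JJ00 : JJ 0 0 = 0 := rfl
@[simp] lemma JJ01 : JJ 0 1 = 1 := rfl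
@[simp] lemma JJ10 : JJ 1 0 = -1 := rfl
@[simp] lemma JJ11 : JJ 1 1 = 0 := rfl

lemma nS_JJ : nS JJ = 2 := by
  unfold nS nM
  change |(0:ℝ)| + |(1:ℝ)| + |(-1:ℝ)| + |(0:ℝ)| = 2
  norm_num

lemma conj_entries (w g : SL2R) :
    (w * g * w⁻¹) 0 0 = (w 0 0 * g 0 0 + w 0 1 * g 1 0) * w 1 1 - (w 0 0 * g 0 1 + w 0 1 * g 1 1) * w 1 0
    ∧ (w * g * w⁻¹) 0 1 = -(w 0 0 * g 0 0 + w 0 1 * g 1 0) * w 0 1 + (w 0 0 * g 0 1 + w 0 1 * g 1 1) * w 0 0
    ∧ (w * g * w⁻¹) 1 0 = (w 1 0 * g 0 0 + w 1 1 * g 1 0) * w 1 1 - (w 1 0 * g 0 1 + w 1 1 * g 1 1) * w 1 0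
    ∧ (w * g * w⁻¹) 1 1 = -(w 1 0 * g 0 0 + w 1 1 * g 1 0) * w 0 1 + (w 1 0 * g 0 1 + w 1 1 * g 1 1) * w 0 0 := by
  refine ⟨?_, ?_, ?_, ?_⟩ <;>
  · simp only [SL_mul_apply, inv00, inv01, inv10, inv11]
    ring

lemma nS_wc3 {w : SL2R} (hw : w = 1 ∨ w = JJ ∨ w = uu 1) : nS w ≤ 3 := by
  rcases hw with rfl | rfl | rfl
  · unfold nS nM; simp; norm_num
  · rw [nS_JJ]; norm_num
  · rw [nS_uu]; norm_num

/-- One of three conjugates has a large upper right entry. -/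
lemma exists_conj {g : SL2R} {δ : ℝ} (hδ : 0 < δ) (hδ' : δ ≤ 1 / 100) (h1 : δ / 2 < d1 g)
    (h2 : d1 g < 2 * δ) : ∃ w : SL2R, (w = 1 ∨ w = JJ ∨ w = uu 1) ∧
      δ / 41 < |(w * g * w⁻¹) 0 1| ∧ |(w * g * w⁻¹) 0 1| < 9 * δ ∧ |(w * g * w⁻¹) 0 0 - 1| < 9 * δ ∧
      |(w * g * w⁻¹) 1 1 - 1| < 9 * δ ∧ |(w * g * w⁻¹) 1 0| < 9 * δ := by
  have hdet := det_eq g
  rw [d1_eq] at h1 h2
  set a := g 0 0 - 1 with ha
  set b := g 0 1 with hb
  set c := g 1 0 with hc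
  set d := g 1 1 - 1 with hd
  have ea : g 0 0 = 1 + a := by rw [ha]; ring
  have ed : g 1 1 = 1 + d := by rw [hd]; ring
  rw [ea, ed] at hdet
  have hab := abs_nonneg a
  have hbb := abs_nonneg b
  have hcb := abs_nonneg c
  have hdb := abs_nonneg d
  have htr : a + d = b * c - a * d := by linarith
  have htr' : |a + d| ≤ δ / 20 := by
    rw [htr]
    have e1 : |b * c - a * d| ≤ |b| * |c| + |a| * |d| := by
      rw [← abs_mul, ← abs_mul]; exact abs_sub _ _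
    have e2 : |b| * |c| ≤ (|b| + |c|) ^ 2 / 4 := by nlinarith [sq_nonneg (|b| - |c|)]
    have e3 : |a| * |d| ≤ (|a| + |d|) ^ 2 / 4 := by nlinarith [sq_nonneg (|a| - |d|)]
    have e4 : (|b| + |c|) ^ 2 + (|a| + |d|) ^ 2 ≤ (2 * δ) ^ 2 := by nlinarith
    nlinarith
  by_cases hb1 : δ / 41 < |b|
  · refine ⟨1, Or.inl rfl, ?_⟩
    rw [one_mul, inv_one, mul_one, ← ha, ← hb, ← hc, ← hd]
    refine ⟨hb1, by linarith, by linarith, by linarith, by linarith⟩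
  · by_cases hc1 : δ / 41 < |c|
    · refine ⟨JJ, Or.inr (Or.inl rfl), ?_⟩
      obtain ⟨e00, e01, e10, e11⟩ := conj_entries JJ g
      rw [e00, e01, e10, e11]
      simp only [JJ00, JJ01, JJ10, JJ11]
      rw [← hb, ← hc, ea, ed]
      have f1 : -(0 * (1 + a) + 1 * c) * 1 + (0 * b + 1 * (1 + d)) * 0 = -c := by ring
      have f2 : (0 * (1 + a) + 1 * c) * 0 - (0 * b + 1 * (1 + d)) * -1 - 1 = d := by ring
      have f3 : -(-1 * (1 + a) + 0 * c) * 1 + (-1 * b + 0 * (1 + d)) * 0 - 1 = a := by ring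
      have f4 : (-1 * (1 + a) + 0 * c) * 0 - (-1 * b + 0 * (1 + d)) * -1 = -b := by ring
      rw [f1, f2, f3, f4, abs_neg, abs_neg]
      refine ⟨hc1, by linarith, by linarith, by linarith, by linarith⟩
    · refine ⟨uu 1, Or.inr (Or.inr rfl), ?_⟩
      obtain ⟨e00, e01, e10, e11⟩ := conj_entries (uu 1) g
      rw [e00, e01, e10, e11]
      simp only [uu00, uu01, uu10, uu11]
      rw [← hb, ← hc, ea, ed]
      have f1 : -(1 * (1 + a) + 1 * c) * 1 + (1 * b + 1 * (1 + d)) * 1 = b - c + (d - a) := by ring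
      have f2 : (1 * (1 + a) + 1 * c) * 1 - (1 * b + 1 * (1 + d)) * 0 - 1 = a + c := by ring
      have f3 : -(0 * (1 + a) + 1 * c) * 1 + (0 * b + 1 * (1 + d)) * 1 - 1 = d - c := by ring
      have f4 : (0 * (1 + a) + 1 * c) * 1 - (0 * b + 1 * (1 + d)) * 0 = c := by ring
      rw [f1, f2, f3, f4]
      have g1 : |d - a| + |a + d| ≥ |a| + |d| := by
        rcases abs_cases (d - a) with h | h <;> rcases abs_cases (a + d) with h' | h' <;>
        rcases abs_cases a with h'' | h'' <;> rcases abs_cases d with h''' | h''' <;> linarith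
      have g2 : |d - a| ≤ |b - c + (d - a)| + |b| + |c| := by
        have : d - a = (b - c + (d - a)) - b + c := by ring
        calc |d - a| = |(b - c + (d - a)) - b + c| := by rw [← this]
          _ ≤ |(b - c + (d - a)) - b| + |c| := abs_add_le _ _
          _ ≤ _ := by linarith [abs_sub (b - c + (d - a)) b]
      have g3 : |b - c + (d - a)| ≤ |b| + |c| + |d| + |a| := by
        calc |b - c + (d - a)| ≤ |b - c| + |d - a| := abs_add_le _ _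
          _ ≤ _ := by linarith [abs_sub b c, abs_sub d a]
      have g4 := abs_add_le a c
      have g5 := abs_sub d c
      push Not at hb1 hc1
      refine ⟨by linarith, by linarith, by linarith, by linarith, by linarith⟩

lemma abs_mul_le' {x y X Y : ℝ} (hx : |x| ≤ X) (hy : |y| ≤ Y) : |x * y| ≤ X * Y := by
  rw [abs_mul]
  exact mul_le_mul hx hy (abs_nonneg _) ((abs_nonneg _).trans hx)

/-- Conditions in the renormalised frame. -/
structure NU (σ δ : ℝ) (u : SL2R) : Prop where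
  lo : σ / 41 < |u 0 1|
  hi : |u 0 1| < 9 * σ
  a : |u 0 0 - 1| < 9 * δ
  d : |u 1 1 - 1| < 9 * δ
  c : |u 1 0| < 9 * δ ^ 2 / σ

lemma exp_facts {σ δ r : ℝ} (hσ : 0 < σ) (hδ0 : 0 < δ) (hr : Real.exp (2 * r) = σ / δ) :
    Real.exp r * Real.exp (-r) = 1 ∧ Real.exp r * Real.exp r = σ / δ ∧
      Real.exp (-r) * Real.exp (-r) = δ / σ := by
  have hE : Real.exp r * Real.exp (-r) = 1 := by rw [← Real.exp_add]; simp
  have hE2 : Real.exp r * Real.exp r = σ / δ := by rw [← Real.exp_add, ← hr]; congr 1; ring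
  refine ⟨hE, hE2, ?_⟩
  have h6 : (Real.exp r * Real.exp r) * (Real.exp (-r) * Real.exp (-r)) = 1 := by
    calc _ = (Real.exp r * Real.exp (-r)) * (Real.exp r * Real.exp (-r)) := by ring
      _ = 1 := by rw [hE]; ring
  rw [hE2] at h6
  field_simp at h6 ⊢
  linarith

/-- The renormalisation of a small element. -/
lemma renorm {σ δ r : ℝ} (hσ : 0 < σ) (hδ : 0 < δ) (hr : Real.exp (2 * r) = σ / δ) {u : SL2R}
    (h1 : δ / 41 < |u 0 1|) (h2 : |u 0 1| < 9 * δ) (h3 : |u 0 0 - 1| < 9 * δ)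
    (h4 : |u 1 1 - 1| < 9 * δ) (h5 : |u 1 0| < 9 * δ) : NU σ δ (dd r * u * (dd r)⁻¹) := by
  obtain ⟨e00, e01, e10, e11⟩ := conj_entries (dd r) u
  obtain ⟨hE, hE2, hE3⟩ := exp_facts hσ hδ hr
  simp only [dd00, dd01, dd10, dd11] at e00 e01 e10 e11
  have f00 : (dd r * u * (dd r)⁻¹) 0 0 = u 0 0 := by
    rw [e00]; linear_combination (u 0 0) * hE
  have f11 : (dd r * u * (dd r)⁻¹) 1 1 = u 1 1 := by
    rw [e11]; linear_combination (u 1 1) * hE
  have f01 : (dd r * u * (dd r)⁻¹) 0 1 = (σ / δ) * u 0 1 := by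
    rw [e01]; linear_combination (u 0 1) * hE2
  have f10 : (dd r * u * (dd r)⁻¹) 1 0 = (δ / σ) * u 1 0 := by
    rw [e10]; linear_combination (u 1 0) * hE3
  have hp : 0 < σ / δ := by positivity
  have hp' : 0 < δ / σ := by positivity
  refine ⟨?_, ?_, by rw [f00]; exact h3, by rw [f11]; exact h4, ?_⟩
  · rw [f01, abs_mul, abs_of_pos hp]
    calc σ / 41 = (σ / δ) * (δ / 41) := by field_simp
      _ < _ := mul_lt_mul_of_pos_left h1 hp
  · rw [f01, abs_mul, abs_of_pos hp]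
    calc (σ / δ) * |u 0 1| < (σ / δ) * (9 * δ) := mul_lt_mul_of_pos_left h2 hp
      _ = 9 * σ := by field_simp
  · rw [f10, abs_mul, abs_of_pos hp']
    calc (δ / σ) * |u 1 0| < (δ / σ) * (9 * δ) := mul_lt_mul_of_pos_left h5 hp'
      _ = 9 * δ ^ 2 / σ := by field_simp

/-- The real estimate behind `pull_back`. -/
lemma pull_real {σ δ q τ : ℝ} (hσ : 0 < σ) (hσ' : σ ≤ 1 / 300) (hq : 0 < q) (hqσ : q ≤ σ)
    (hδ : δ = q ^ 2) {u00 u01 u10 u11 v00 v01 v10 v11 : ℝ}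
    (hu1 : |u01| ≤ 9 * σ) (hu2 : |u00 - 1| ≤ 9 * δ) (hu3 : |u11 - 1| ≤ 9 * δ)
    (hu4 : |u10| ≤ 9 * δ ^ 2 / σ)
    (hv1 : |v01| ≤ 9 * σ) (hv2 : |v00 - 1| ≤ 9 * δ) (hv3 : |v11 - 1| ≤ 9 * δ)
    (hv4 : |v10| ≤ 9 * δ ^ 2 / σ) (hτ : |τ| ≤ q) {Q00 Q01 Q10 Q11 G00 G01 G10 G11 : ℝ}
    (q00 : Q00 = v00 - τ * v01) (q01 : Q01 = v01)
    (q10 : Q10 = v10 + τ * (v00 - v11) - τ * (τ * v01)) (q11 : Q11 = v11 + τ * v01)
    (g00 : G00 = u11 * Q00 - u01 * Q10) (g01 : G01 = u11 * Q01 - u01 * Q11)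
    (g10 : G10 = -u10 * Q00 + u00 * Q10) (g11 : G11 = -u10 * Q01 + u00 * Q11) :
    |G00 - 1| + |(δ / σ) * G01| + |(σ / δ) * G10| + |G11 - 1| < 300 * σ := by
  have hδ0 : 0 < δ := by rw [hδ]; positivity
  have hδσ : δ ≤ σ ^ 2 := by rw [hδ]; exact pow_le_pow_left₀ hq.le hqσ 2
  have hσ2 : σ ^ 2 ≤ σ / 300 := by
    have := mul_le_mul_of_nonneg_left hσ' hσ.le
    rw [sq]; linarith
  have hδδ : δ * δ ≤ δ * σ ^ 2 := mul_le_mul_of_nonneg_left hδσ hδ0.le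
  have hc' : 9 * δ ^ 2 / σ ≤ 9 * (δ * σ) := by
    rw [div_le_iff₀ hσ]
    have e : 9 * (δ * σ) * σ = 9 * (δ * σ ^ 2) := by ring
    rw [e, sq δ]; linarith
  have hqσ1 : q * σ ≤ σ * σ := mul_le_mul_of_nonneg_right hqσ hσ.le
  have hqσ2 : q * (9 * σ) ≤ 9 * σ ^ 2 := by
    have e : q * (9 * σ) = 9 * (q * σ) := by ring
    rw [e, sq]; linarith
  have t1 : |τ * v01| ≤ q * (9 * σ) := abs_mul_le' hτ hv1
  have t2 : |τ * (v00 - v11)| ≤ q * (18 * δ) := by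
    refine abs_mul_le' hτ ?_
    have e : v00 - v11 = (v00 - 1) - (v11 - 1) := by ring
    rw [e]
    have := abs_sub (v00 - 1) (v11 - 1)
    linarith
  have t3 : |τ * (τ * v01)| ≤ q * (q * (9 * σ)) := abs_mul_le' hτ t1
  have B00 : |Q00 - 1| ≤ σ := by
    have e : Q00 - 1 = (v00 - 1) - τ * v01 := by rw [q00]; ring
    rw [e]
    have := abs_sub (v00 - 1) (τ * v01)
    linarith
  have B11 : |Q11 - 1| ≤ σ := by
    have e : Q11 - 1 = (v11 - 1) + τ * v01 := by rw [q11]; ring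
    rw [e]
    have := abs_add_le (v11 - 1) (τ * v01)
    linarith
  have B01 : |Q01| ≤ 9 * σ := by rw [q01]; exact hv1
  have B10 : |Q10| ≤ 36 * (δ * σ) := by
    rw [q10]
    have h1 := abs_sub (v10 + τ * (v00 - v11)) (τ * (τ * v01))
    have h2 := abs_add_le v10 (τ * (v00 - v11))
    have h3 : q * (18 * δ) ≤ 18 * (δ * σ) := by
      have e := mul_le_mul_of_nonneg_left hqσ hδ0.le
      have e2 : q * (18 * δ) = 18 * (δ * q) := by ring
      rw [e2]; linarith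
    have h4 : q * (q * (9 * σ)) = 9 * (δ * σ) := by rw [hδ]; ring
    linarith
  have U11 : |u11 - 1| ≤ σ := by linarith
  have U00 : |u00 - 1| ≤ σ := by linarith
  have two : ∀ x : ℝ, |x - 1| ≤ σ → |x| ≤ 2 := by
    intro x hx
    have := abs_add_le (x - 1) 1
    rw [sub_add_cancel, abs_one] at this; linarith
  have U11' := two _ U11
  have U00' := two _ U00
  have Q11' := two _ B11
  have Q00' := two _ B00
  have hδ1 : δ ≤ 1 / 300 := by linarith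
  have hδσ1 : δ * σ ≤ σ / 300 := by
    have := mul_le_mul_of_nonneg_right hδ1 hσ.le
    linarith
  have hδσ2 : 0 < δ * σ := mul_pos hδ0 hσ
  have hu4' : |-u10| ≤ 9 * (δ * σ) := by rw [abs_neg]; linarith
  have R00 : |G00 - 1| ≤ 4 * σ := by
    have e : G00 - 1 = (u11 - 1) * Q00 + (Q00 - 1) - u01 * Q10 := by rw [g00]; ring
    rw [e]
    have h1 := abs_sub ((u11 - 1) * Q00 + (Q00 - 1)) (u01 * Q10)
    have h2 := abs_add_le ((u11 - 1) * Q00) (Q00 - 1)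
    have h3 := abs_mul_le' U11 Q00'
    have h4 := abs_mul_le' hu1 B10
    have h5 : 9 * σ * (36 * (δ * σ)) ≤ σ := by
      have e := mul_le_mul_of_nonneg_left hδσ1 hσ.le
      have e2 : 9 * σ * (36 * (δ * σ)) = 324 * (σ * (δ * σ)) := by ring
      have e3 : σ * (σ / 300) = σ ^ 2 / 300 := by ring
      rw [e2]; linarith
    linarith
  have R01 : |(δ / σ) * G01| ≤ 36 * σ := by
    have h1 : |G01| ≤ 36 * σ := by
      rw [g01]
      have h1 := abs_sub (u11 * Q01) (u01 * Q11)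
      have h2 := abs_mul_le' U11' B01
      have h3 := abs_mul_le' hu1 Q11'
      linarith
    have h2 : |δ / σ| ≤ 1 := by
      rw [abs_of_pos (by positivity), div_le_one hσ]; linarith
    have := abs_mul_le' h2 h1
    linarith
  have R10 : |(σ / δ) * G10| ≤ 90 * σ := by
    have h1 : |G10| ≤ 90 * (δ * σ) := by
      rw [g10]
      have h1 := abs_add_le (-u10 * Q00) (u00 * Q10)
      have h2 := abs_mul_le' hu4' Q00'
      have h3 := abs_mul_le' U00' B10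
      linarith
    rw [abs_mul, abs_of_pos (by positivity : 0 < σ / δ)]
    calc (σ / δ) * |G10| ≤ (σ / δ) * (90 * (δ * σ)) := mul_le_mul_of_nonneg_left h1 (by positivity)
      _ = 90 * σ ^ 2 := by field_simp
      _ ≤ 90 * σ := by linarith
  have R11 : |G11 - 1| ≤ 4 * σ := by
    have e : G11 - 1 = (u00 - 1) * Q11 + (Q11 - 1) + -u10 * Q01 := by rw [g11]; ring
    rw [e]
    have h1 := abs_add_le ((u00 - 1) * Q11 + (Q11 - 1)) (-u10 * Q01)
    have h2 := abs_add_le ((u00 - 1) * Q11) (Q11 - 1)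
    have h3 := abs_mul_le' U00 Q11'
    have h4 := abs_mul_le' hu4' B01
    have h5 : 9 * (δ * σ) * (9 * σ) ≤ σ := by
      have e := mul_le_mul_of_nonneg_left hδσ1 hσ.le
      have e2 : 9 * (δ * σ) * (9 * σ) = 81 * (σ * (δ * σ)) := by ring
      have e3 : σ * (σ / 300) = σ ^ 2 / 300 := by ring
      rw [e2]; linarith
    linarith
  linarith

/-- Conjugation by the inverse of a diagonal matrix. -/
lemma dd_conj' {σ δ r : ℝ} (hσ : 0 < σ) (hδ0 : 0 < δ) (hr : Real.exp (2 * r) = σ / δ) (G : SL2R) :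
    d1 ((dd r)⁻¹ * G * dd r)
      = |G 0 0 - 1| + |(δ / σ) * G 0 1| + |(σ / δ) * G 1 0| + |G 1 1 - 1| := by
  obtain ⟨hE, hE2, hE3⟩ := exp_facts hσ hδ0 hr
  rw [d1_eq]
  have k00 : ((dd r)⁻¹ * G * dd r) 0 0 = G 0 0 := by
    simp only [SL_mul_apply, inv00, inv01, dd00, dd01, dd10, dd11]
    linear_combination (G 0 0) * hE
  have k01 : ((dd r)⁻¹ * G * dd r) 0 1 = (δ / σ) * G 0 1 := by
    simp only [SL_mul_apply, inv00, inv01, dd00, dd01, dd10, dd11]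
    linear_combination (G 0 1) * hE3
  have k10 : ((dd r)⁻¹ * G * dd r) 1 0 = (σ / δ) * G 1 0 := by
    simp only [SL_mul_apply, inv10, inv11, dd00, dd01, dd10, dd11]
    linear_combination (G 1 0) * hE2
  have k11 : ((dd r)⁻¹ * G * dd r) 1 1 = G 1 1 := by
    simp only [SL_mul_apply, inv10, inv11, dd00, dd01, dd10, dd11]
    linear_combination (G 1 1) * hE
  rw [k00, k01, k10, k11]

/-- Two elements in nearby frames: the quotient is close to the identity after pulling back. -/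
lemma pull_back {σ δ q r τ : ℝ} (hσ : 0 < σ) (hσ' : σ ≤ 1 / 300) (hq : 0 < q) (hqσ : q ≤ σ)
    (hδ : δ = q ^ 2) (hr : Real.exp (2 * r) = σ / δ) {u v : SL2R} (hu : NU σ δ u) (hv : NU σ δ v)
    (hτ : |τ| ≤ q) :
    d1 ((dd r)⁻¹ * (u⁻¹ * (vv τ * v * (vv τ)⁻¹)) * dd r) < 300 * σ := by
  have hδ0 : 0 < δ := by rw [hδ]; positivity
  obtain ⟨q00, q01, q10, q11⟩ := conj_entries (vv τ) v
  simp only [vv00, vv01, vv10, vv11] at q00 q01 q10 q11
  rw [dd_conj' hσ hδ0 hr]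
  refine pull_real hσ hσ' hq hqσ hδ hu.hi.le hu.a.le hu.d.le hu.c.le hv.hi.le hv.a.le hv.d.le
    hv.c.le hτ (Q00 := (vv τ * v * (vv τ)⁻¹) 0 0) (Q01 := (vv τ * v * (vv τ)⁻¹) 0 1)
    (Q10 := (vv τ * v * (vv τ)⁻¹) 1 0) (Q11 := (vv τ * v * (vv τ)⁻¹) 1 1) ?_ ?_ ?_ ?_ ?_ ?_ ?_ ?_
  · rw [q00]; ring
  · rw [q01]; ring
  · rw [q10]; ring
  · rw [q11]; ring
  · rw [SL_mul_apply u⁻¹, inv00, inv01]; ring
  · rw [SL_mul_apply u⁻¹, inv00, inv01]; ring
  · rw [SL_mul_apply u⁻¹, inv10, inv11]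
  · rw [SL_mul_apply u⁻¹, inv10, inv11]

end Pool.Agent.SZ.X2
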