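import Mathlib
import Pool.Agent.SZ.X2a

/-!
# SZ, part X2: the measure of the set of good frames
-/

set_option autoImplicit false

namespace Pool.Agent.SZ.X2

open Pool.Agent.IRS MeasureTheory Set Filter Topology

lemma vv_conj_entries (s : ℝ) (g : SL2R) :
    (vv (-s) * g * vv s) 0 1 = g 0 1 ∧ (vv (-s) * g * vv s) 0 0 = g 0 0 + s * g 0 1 := by
  constructor
  · simp only [SL_mul_apply, vv00, vv01, vv10, vv11]; ring
  · simp only [SL_mul_apply, vv00, vv01, vv10, vv11]; ring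

/-- The frames in which a given element is good form a short interval. -/
lemma frame_interval {σ δ : ℝ} (hσ : 0 < σ) (hδ : 0 < δ) {g : SL2R} {s : ℝ}
    (h : NU σ δ (vv (-s) * g * vv s)) :
    s ∈ Icc (-(g 0 0 - 1) / g 0 1 - 369 * δ / σ) (-(g 0 0 - 1) / g 0 1 + 369 * δ / σ) := by
  obtain ⟨e01, e00⟩ := vv_conj_entries s g
  have h1 := h.lo
  have h2 := h.a
  rw [e01] at h1
  rw [e00] at h2
  have hp : 0 < |g 0 1| := lt_trans (by positivity) h1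
  have hne : g 0 1 ≠ 0 := abs_pos.1 hp
  have h3 : |s - -(g 0 0 - 1) / g 0 1| ≤ 369 * δ / σ := by
    have e : s - -(g 0 0 - 1) / g 0 1 = (g 0 0 + s * g 0 1 - 1) / g 0 1 := by
      field_simp; ring
    rw [e, abs_div, div_le_div_iff₀ hp hσ]
    have h4 : |g 0 0 + s * g 0 1 - 1| * σ ≤ 9 * δ * σ := mul_le_mul_of_nonneg_right h2.le hσ.le
    have h5 : 9 * δ * σ ≤ 369 * δ * |g 0 1| := by
      have := mul_le_mul_of_nonneg_left h1.le (show (0:ℝ) ≤ 369 * δ by positivity)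
      linarith
    linarith
  rw [abs_le] at h3
  constructor <;> linarith [h3.1, h3.2]

/-- Integer cell index. -/
lemma floor_mem {x m T : ℝ} (hm : 0 < m) (hx : |x| ≤ T) :
    ⌊x / m⌋ ∈ Finset.Icc (-⌈T / m⌉) ⌈T / m⌉ := by
  rw [abs_le] at hx
  rw [Finset.mem_Icc]
  constructor
  · rw [Int.le_floor]
    push_cast
    have h1 : -T / m ≤ x / m := by gcongr; exact hx.1
    have h2 := Int.le_ceil (T / m)
    have h3 : -T / m = -(T / m) := by ring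
    linarith
  · have h1 : x / m ≤ T / m := by gcongr; exact hx.2
    have h2 : ((⌊x / m⌋ : ℤ) : ℝ) ≤ (⌈T / m⌉ : ℤ) :=
      (Int.floor_le _).trans (h1.trans (Int.le_ceil _))
    exact_mod_cast h2

lemma floor_close {x y m : ℝ} (hm : 0 < m) (h : ⌊x / m⌋ = ⌊y / m⌋) : |x - y| < m := by
  have h1 := Int.abs_sub_lt_one_of_floor_eq_floor h
  rw [← sub_div, abs_div, abs_of_pos hm, div_lt_one hm] at h1
  exact h1

lemma dm_eq (g h : SL2R) : dm g h = |g 0 0 - h 0 0| + |g 0 1 - h 0 1| + |g 1 0 - h 1 0|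
    + |g 1 1 - h 1 1| := rfl

/-- Two elements in the same cell. -/
lemma same_cell {T ρ : ℝ} (hT : 0 < T) (hρ : 0 < ρ) {g h : SL2R} (hg : nS g ≤ T)
    (h00 : ⌊g 0 0 / (ρ / (4 * T))⌋ = ⌊h 0 0 / (ρ / (4 * T))⌋)
    (h01 : ⌊g 0 1 / (ρ / (4 * T))⌋ = ⌊h 0 1 / (ρ / (4 * T))⌋)
    (h10 : ⌊g 1 0 / (ρ / (4 * T))⌋ = ⌊h 1 0 / (ρ / (4 * T))⌋)
    (h11 : ⌊g 1 1 / (ρ / (4 * T))⌋ = ⌊h 1 1 / (ρ / (4 * T))⌋) : d1 (g⁻¹ * h) < ρ := by
  have hm : 0 < ρ / (4 * T) := by positivity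
  have h1 := d1_inv_mul g h
  have h2 : dm h g < 4 * (ρ / (4 * T)) := by
    rw [dm_eq]
    linarith [floor_close hm h00.symm, floor_close hm h01.symm, floor_close hm h10.symm,
      floor_close hm h11.symm]
  have h3 : 0 ≤ dm h g := nM_nonneg _
  calc d1 (g⁻¹ * h) ≤ nS g * dm h g := h1
    _ ≤ T * dm h g := mul_le_mul_of_nonneg_right hg h3
    _ < T * (4 * (ρ / (4 * T))) := mul_lt_mul_of_pos_left h2 hT
    _ = ρ := by field_simp

/-- The index set. -/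
noncomputable def IX (q m T : ℝ) : Finset (ℤ × ℤ × ℤ × ℤ × ℤ) :=
  Finset.Icc 0 ⌊1 / q⌋ ×ˢ Finset.Icc (-⌈T / m⌉) ⌈T / m⌉ ×ˢ Finset.Icc (-⌈T / m⌉) ⌈T / m⌉ ×ˢ
    Finset.Icc (-⌈T / m⌉) ⌈T / m⌉ ×ˢ Finset.Icc (-⌈T / m⌉) ⌈T / m⌉

lemma IX_card {q m T : ℝ} (hq : 0 < q) (hm : 0 < m) (hT : 0 < T) :
    ((IX q m T).card : ℝ) ≤ (1 / q + 1) * (2 * (T / m) + 3) ^ 4 := by
  unfold IX
  simp only [Finset.card_product, Int.card_Icc]
  push_cast
  have hc0 : 0 ≤ ⌈T / m⌉ := Int.ceil_nonneg (by positivity)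
  have h1 : (((⌊1 / q⌋ + 1 - 0).toNat : ℕ) : ℝ) ≤ 1 / q + 1 := by
    have h0 : 0 ≤ ⌊1 / q⌋ := Int.floor_nonneg.2 (by positivity)
    have h2 : (((⌊1 / q⌋ + 1 - 0).toNat : ℤ)) = ⌊1 / q⌋ + 1 - 0 := Int.toNat_of_nonneg (by linarith)
    have h3 : (((⌊1 / q⌋ + 1 - 0).toNat : ℕ) : ℝ) = ((⌊1 / q⌋ + 1 - 0 : ℤ) : ℝ) := by
      exact_mod_cast congrArg (fun z : ℤ => (z : ℝ)) h2
    rw [h3]
    push_cast
    linarith [Int.floor_le (1 / q)]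
  have h2 : (((⌈T / m⌉ + 1 - -⌈T / m⌉).toNat : ℕ) : ℝ) ≤ 2 * (T / m) + 3 := by
    have h2 : (((⌈T / m⌉ + 1 - -⌈T / m⌉).toNat : ℤ)) = ⌈T / m⌉ + 1 - -⌈T / m⌉ :=
      Int.toNat_of_nonneg (by linarith)
    have h3 : (((⌈T / m⌉ + 1 - -⌈T / m⌉).toNat : ℕ) : ℝ) = ((⌈T / m⌉ + 1 - -⌈T / m⌉ : ℤ) : ℝ) := by
      exact_mod_cast congrArg (fun z : ℤ => (z : ℝ)) h2
    rw [h3]
    push_cast
    linarith [(Int.ceil_lt_add_one (T / m)).le]
  have h3 : (0 : ℝ) ≤ (((⌈T / m⌉ + 1 - -⌈T / m⌉).toNat : ℕ) : ℝ) := Nat.cast_nonneg _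
  calc _ = (((⌊1 / q⌋ + 1 - 0).toNat : ℕ) : ℝ) * (((⌈T / m⌉ + 1 - -⌈T / m⌉).toNat : ℕ) : ℝ) ^ 4 := by
        ring
    _ ≤ (1 / q + 1) * (2 * (T / m) + 3) ^ 4 :=
        mul_le_mul h1 (pow_le_pow_left₀ h3 h2 4) (by positivity) (by positivity)

lemma abs_entry_le (g : SL2R) (i j : Fin 2) : |g i j| ≤ nS g := by
  have h0 := abs_nonneg (g 0 0)
  have h1 := abs_nonneg (g 0 1)
  have h2 := abs_nonneg (g 1 0)
  have h3 := abs_nonneg (g 1 1)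
  have e : nS g = |g 0 0| + |g 0 1| + |g 1 0| + |g 1 1| := rfl
  fin_cases i <;> fin_cases j <;> simp only [Fin.zero_eta, Fin.mk_one, Fin.isValue] <;>
    rw [e] <;> linarith

/-- The measure of the set of good frames. -/
theorem vol_bound {σ δ q T ρ : ℝ} (hσ : 0 < σ) (hδ : 0 < δ) (hq : 0 < q) (hT : 0 < T) (hρ : 0 < ρ)
    (S : Set ℝ) (hS : S ⊆ Icc 0 1) (h : ℝ → G2)
    (h1 : ∀ s ∈ S, NU σ δ (vv (-s) * (h s).1 * vv s)) (h2 : ∀ s ∈ S, nS (h s).2 ≤ T)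
    (h3 : ∀ s ∈ S, ∀ s' ∈ S, |s - s'| ≤ q → d1 ((h s).2⁻¹ * (h s').2) < ρ → h s = h s') :
    volume S ≤ ENNReal.ofReal
      ((1 / q + 1) * (2 * (T / (ρ / (4 * T))) + 3) ^ 4 * (738 * δ / σ)) := by
  set m := ρ / (4 * T) with hm
  have hm0 : 0 < m := by rw [hm]; positivity
  let ι : ℝ → ℤ × ℤ × ℤ × ℤ × ℤ := fun s =>
    (⌊s / q⌋, ⌊(h s).2 0 0 / m⌋, ⌊(h s).2 0 1 / m⌋, ⌊(h s).2 1 0 / m⌋, ⌊(h s).2 1 1 / m⌋)
  have hcov : S ⊆ ⋃ i ∈ IX q m T, (S ∩ {s | ι s = i}) := by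
    intro s hs
    simp only [mem_iUnion]
    refine ⟨ι s, ?_, hs, rfl⟩
    have hs1 := hS hs
    have hb : ∀ i j, |(h s).2 i j| ≤ T := fun i j => (abs_entry_le _ i j).trans (h2 s hs)
    simp only [IX, Finset.mem_product]
    refine ⟨?_, floor_mem hm0 (hb 0 0), floor_mem hm0 (hb 0 1), floor_mem hm0 (hb 1 0),
      floor_mem hm0 (hb 1 1)⟩
    rw [Finset.mem_Icc]
    refine ⟨Int.floor_nonneg.2 (div_nonneg hs1.1 hq.le), Int.floor_le_floor ?_⟩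
    gcongr
    exact hs1.2
  have hpiece : ∀ i ∈ IX q m T, volume (S ∩ {s | ι s = i}) ≤ ENNReal.ofReal (738 * δ / σ) := by
    intro i _
    rcases (S ∩ {s | ι s = i}).eq_empty_or_nonempty with he | ⟨s0, hs0, hi0⟩
    · rw [he]; simp
    · have hsub : S ∩ {s | ι s = i} ⊆ Icc (-((h s0).1 0 0 - 1) / (h s0).1 0 1 - 369 * δ / σ)
          (-((h s0).1 0 0 - 1) / (h s0).1 0 1 + 369 * δ / σ) := by
        rintro s ⟨hs, hi⟩
        have hi' : ι s = ι s0 := hi.trans hi0.symm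
        simp only [ι, Prod.mk.injEq] at hi'
        obtain ⟨k0, k1, k2, k3, k4⟩ := hi'
        have hc := same_cell hT hρ (h2 s hs) k1 k2 k3 k4
        have heq := h3 s hs s0 hs0 (floor_close hq k0).le hc
        rw [← heq]
        exact frame_interval hσ hδ (h1 s hs)
      refine (measure_mono hsub).trans ?_
      rw [Real.volume_Icc]
      apply ENNReal.ofReal_le_ofReal
      apply le_of_eq
      ring
  have hcard := IX_card hq hm0 hT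
  calc volume S ≤ volume (⋃ i ∈ IX q m T, (S ∩ {s | ι s = i})) := measure_mono hcov
    _ ≤ ∑ i ∈ IX q m T, volume (S ∩ {s | ι s = i}) := measure_biUnion_finset_le _ _
    _ ≤ ∑ _i ∈ IX q m T, ENNReal.ofReal (738 * δ / σ) := Finset.sum_le_sum hpiece
    _ = ((IX q m T).card : ENNReal) * ENNReal.ofReal (738 * δ / σ) := by
        rw [Finset.sum_const, nsmul_eq_mul]
    _ = ENNReal.ofReal ((IX q m T).card : ℝ) * ENNReal.ofReal (738 * δ / σ) := by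
        rw [ENNReal.ofReal_natCast]
    _ = ENNReal.ofReal (((IX q m T).card : ℝ) * (738 * δ / σ)) := by
        rw [← ENNReal.ofReal_mul (Nat.cast_nonneg _)]
    _ ≤ _ := ENNReal.ofReal_le_ofReal (mul_le_mul_of_nonneg_right hcard (by positivity))

end Pool.Agent.SZ.X2
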