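import Mathlib
import Pool.Agent.SZ.X2b

/-!
# SZ, part X2: the measure of the set of points with a small element
-/

set_option autoImplicit false

namespace Pool.Agent.SZ.X2

open Pool.Agent.IRS MeasureTheory Set Filter Topology

/-- Neighbourhoods of the identity. -/
def Un (ρ : ℝ) : Set G2 := {g | d1 g.1 < ρ ∧ d1 g.2 < ρ}

lemma isOpen_Un (ρ : ℝ) : IsOpen (Un ρ) :=
  (isOpen_lt (continuous_d1.comp continuous_fst) continuous_const).inter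
    (isOpen_lt (continuous_d1.comp continuous_snd) continuous_const)

/-- The elements looked for in the renormalised frame. -/
def VV (σ δ T : ℝ) : Set G2 := {h | NU σ δ h.1 ∧ nS h.2 < T}

lemma isOpen_VV (σ δ T : ℝ) : IsOpen (VV σ δ T) := by
  have e : VV σ δ T = {h : G2 | σ / 41 < |h.1 0 1|} ∩ ({h : G2 | |h.1 0 1| < 9 * σ} ∩
      ({h : G2 | |h.1 0 0 - 1| < 9 * δ} ∩ ({h : G2 | |h.1 1 1 - 1| < 9 * δ} ∩
      ({h : G2 | |h.1 1 0| < 9 * δ ^ 2 / σ} ∩ {h : G2 | nS h.2 < T})))) := by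
    ext h
    constructor
    · rintro ⟨⟨h1, h2, h3, h4, h5⟩, h6⟩
      exact ⟨h1, h2, h3, h4, h5, h6⟩
    · rintro ⟨h1, h2, h3, h4, h5, h6⟩
      exact ⟨⟨h1, h2, h3, h4, h5⟩, h6⟩
  have c : ∀ i j : Fin 2, Continuous (fun h : G2 => h.1 i j) := fun i j =>
    (continuous_ent i j).comp continuous_fst
  rw [e]
  refine (isOpen_lt continuous_const (c 0 1).abs).inter ((isOpen_lt (c 0 1).abs
    continuous_const).inter ((isOpen_lt ((c 0 0).sub continuous_const).abs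
    continuous_const).inter ((isOpen_lt ((c 1 1).sub continuous_const).abs
    continuous_const).inter ((isOpen_lt (c 1 0).abs continuous_const).inter
    (isOpen_lt (continuous_nS.comp continuous_snd) continuous_const)))))

/-- The elements which are too small. -/
def WW (δ T : ℝ) : Set G2 := {h | δ / 2 < d1 h.1 ∧ d1 h.1 < 2 * δ ∧ nS h.2 < T}

lemma isOpen_WW (δ T : ℝ) : IsOpen (WW δ T) := by
  have c : Continuous (fun h : G2 => d1 h.1) := continuous_d1.comp continuous_fst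
  exact (isOpen_lt continuous_const c).inter ((isOpen_lt c continuous_const).inter
    (isOpen_lt (continuous_nS.comp continuous_snd) continuous_const))

section

variable {X : Type} [MeasurableSpace X] {μ : Measure X} (𝓕 : Fld μ)

/-- The points whose group has no small nontrivial element. -/
def Xg (ρ : ℝ) : Set X := {x | ∀ h ∈ 𝓕.H x, h ∈ Un ρ → h = 1}

lemma measurableSet_Xg (ρ : ℝ) : MeasurableSet (Xg 𝓕 ρ) := by
  have hU : IsOpen (Un ρ ∩ {(1 : G2)}ᶜ) := (isOpen_Un ρ).inter isOpen_compl_singleton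
  have e : Xg 𝓕 ρ = {x | ((𝓕.H x : Set G2) ∩ (Un ρ ∩ {(1 : G2)}ᶜ)).Nonempty}ᶜ := by
    ext x
    simp only [Xg, Set.mem_ofPred_eq, mem_compl_iff, Set.not_nonempty_iff_eq_empty,
      Set.eq_empty_iff_forall_notMem]
    constructor
    · rintro h g ⟨hg, hg2, hg3⟩
      exact hg3 (h g hg hg2)
    · intro h g hg hg2
      by_contra hne
      exact h g ⟨hg, hg2, hne⟩
  rw [e]
  exact (𝓕.meas _ hU).compl

/-- The points with a good element in the standard frame. -/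
def BB (σ δ T r : ℝ) : Set X := {y | ((𝓕.H y : Set G2) ∩ VV σ δ T).Nonempty ∧
  𝓕.A.τ (j1 (dd r)⁻¹) y ∈ Xg 𝓕 (300 * σ)}

lemma measurable_act (g : G2) : Measurable (𝓕.A.τ g) := (𝓕.A.mp g).measurable

lemma measurableSet_BB (σ δ T r : ℝ) : MeasurableSet (BB 𝓕 σ δ T r) :=
  (𝓕.meas _ (isOpen_VV σ δ T)).inter (measurable_act 𝓕 _ (measurableSet_Xg 𝓕 _))

/-- The transported element. -/
lemma mem_act {g : G2} {x : X} {h : G2} (hh : h ∈ 𝓕.H x) : g * h * g⁻¹ ∈ 𝓕.H (𝓕.A.τ g x) := by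
  rw [𝓕.equi]
  have e : g⁻¹ * (g * h * g⁻¹) * g = h := by group
  rw [e]; exact hh

/-- The measure of the set of good frames. -/
theorem frames {σ δ q T r : ℝ} (hσ : 0 < σ) (hσ' : σ ≤ 1 / 300) (hq : 0 < q) (hqσ : q ≤ σ)
    (hδ : δ = q ^ 2) (hr : Real.exp (2 * r) = σ / δ) (hT : 0 < T) (x : X) :
    volume {s : ℝ | s ∈ Icc (0 : ℝ) 1 ∧ 𝓕.A.τ (j1 (vv (-s))) x ∈ BB 𝓕 σ δ T r} ≤ ENNReal.ofReal
      ((1 / q + 1) * (2 * (T / (300 * σ / (4 * T))) + 3) ^ 4 * (738 * δ / σ)) := by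
  have hδ0 : 0 < δ := by rw [hδ]; positivity
  have hex : ∀ s : ℝ, 𝓕.A.τ (j1 (vv (-s))) x ∈ BB 𝓕 σ δ T r →
      ∃ k : G2, k ∈ 𝓕.H x ∧ NU σ δ (vv (-s) * k.1 * vv s) ∧ nS k.2 ≤ T := by
    rintro s ⟨⟨h, hh, hh2, hh3⟩, _⟩
    refine ⟨(j1 (vv (-s)))⁻¹ * h * j1 (vv (-s)), (𝓕.equi _ _ _).1 hh, ?_, ?_⟩
    · have e : vv (-s) * ((j1 (vv (-s)))⁻¹ * h * j1 (vv (-s))).1 * vv s = h.1 := by
        simp only [j1_apply, Prod.fst_mul, Prod.fst_inv]
        rw [vv_neg]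
        group
      rw [e]; exact hh2
    · have e : ((j1 (vv (-s)))⁻¹ * h * j1 (vv (-s))).2 = h.2 := by
        simp [j1_apply]
      rw [e]; exact hh3.le
  classical
  let h : ℝ → G2 := fun s => if hs : 𝓕.A.τ (j1 (vv (-s))) x ∈ BB 𝓕 σ δ T r then
    (hex s hs).choose else 1
  have hh : ∀ s, 𝓕.A.τ (j1 (vv (-s))) x ∈ BB 𝓕 σ δ T r →
      h s ∈ 𝓕.H x ∧ NU σ δ (vv (-s) * (h s).1 * vv s) ∧ nS (h s).2 ≤ T := by
    intro s hs
    have e : h s = (hex s hs).choose := dif_pos hs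
    rw [e]; exact (hex s hs).choose_spec
  refine vol_bound (ρ := 300 * σ) hσ hδ0 hq hT (by positivity) _ (fun s hs => hs.1) h
    (fun s hs => (hh s hs.2).2.1) (fun s hs => (hh s hs.2).2.2) ?_
  intro s hs s' hs' hss hd
  obtain ⟨a1, a2, a3⟩ := hh s hs.2
  obtain ⟨b1, b2, b3⟩ := hh s' hs'.2
  set k := h s
  set k' := h s'
  have hg : k⁻¹ * k' ∈ 𝓕.H x := mul_mem (inv_mem a1) b1
  have hx := hs.2.2
  rw [← 𝓕.A.mul, ← map_mul] at hx
  have hmem := mem_act 𝓕 (g := j1 ((dd r)⁻¹ * vv (-s))) hg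
  have e1 : (j1 ((dd r)⁻¹ * vv (-s)) * (k⁻¹ * k') * (j1 ((dd r)⁻¹ * vv (-s)))⁻¹).1
      = (dd r)⁻¹ * ((vv (-s) * k.1 * vv s)⁻¹ * (vv (s' - s) * (vv (-s') * k'.1 * vv s')
        * (vv (s' - s))⁻¹)) * dd r := by
    have f1 : vv (s' - s) = vv s' * (vv s)⁻¹ := by rw [← vv_neg, ← vv_add]; congr 1
    simp only [j1_apply, Prod.fst_mul, Prod.fst_inv]
    rw [f1, vv_neg, vv_neg]
    have f2 : (vv s')⁻¹ * vv s = (vv s * (vv s')⁻¹) := by
      rw [← vv_neg, ← vv_add, ← vv_add, add_comm]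
    have f3 : vv s' * (vv s)⁻¹ * (vv s')⁻¹ = (vv s)⁻¹ := by
      rw [← vv_neg, ← vv_neg, ← vv_add, ← vv_add]; congr 1; ring
    calc (dd r)⁻¹ * (vv s)⁻¹ * ((k.1)⁻¹ * k'.1) * ((dd r)⁻¹ * (vv s)⁻¹)⁻¹
        = (dd r)⁻¹ * ((vv s)⁻¹ * (k.1)⁻¹ * (vv s) * ((vv s)⁻¹ * k'.1 * vv s)) * dd r := by group
      _ = (dd r)⁻¹ * ((vv s)⁻¹ * (k.1)⁻¹ * (vv s) * ((vv s' * (vv s)⁻¹ * (vv s')⁻¹) * k'.1 *
            (vv s' * (vv s)⁻¹ * (vv s')⁻¹)⁻¹)) * dd r := by rw [f3, inv_inv]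
      _ = (dd r)⁻¹ * ((vv s)⁻¹ * (k.1)⁻¹ * (vv s) * (vv s' * (vv s)⁻¹ * ((vv s')⁻¹ * k'.1 *
            vv s') * (vv s' * (vv s)⁻¹)⁻¹)) * dd r := by group
      _ = _ := by group
  have e2 : (j1 ((dd r)⁻¹ * vv (-s)) * (k⁻¹ * k') * (j1 ((dd r)⁻¹ * vv (-s)))⁻¹).2
      = (k.2)⁻¹ * k'.2 := by
    simp [j1_apply]
  have hτ : |s' - s| ≤ q := by rw [abs_sub_comm]; exact hss
  have h1 := pull_back hσ hσ' hq hqσ hδ hr a2 b2 hτ
  have h2 := hx _ hmem ⟨by rw [e1]; exact h1, by rw [e2]; exact hd⟩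
  have h3 : k⁻¹ * k' = 1 := by
    have h4 := congrArg (fun z => (j1 ((dd r)⁻¹ * vv (-s)))⁻¹ * z * (j1 ((dd r)⁻¹ * vv (-s)))) h2
    calc k⁻¹ * k' = (j1 ((dd r)⁻¹ * vv (-s)))⁻¹ * (j1 ((dd r)⁻¹ * vv (-s)) * (k⁻¹ * k') *
          (j1 ((dd r)⁻¹ * vv (-s)))⁻¹) * (j1 ((dd r)⁻¹ * vv (-s))) := by group
      _ = (j1 ((dd r)⁻¹ * vv (-s)))⁻¹ * 1 * (j1 ((dd r)⁻¹ * vv (-s))) := h4
      _ = 1 := by group
  exact (inv_mul_eq_one.1 h3)

/-- The measure of the set of points with a good element in the standard frame. -/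
theorem mu_BB [IsProbabilityMeasure μ] {σ δ q T r : ℝ} (hσ : 0 < σ) (hσ' : σ ≤ 1 / 300)
    (hq : 0 < q) (hqσ : q ≤ σ) (hδ : δ = q ^ 2) (hr : Real.exp (2 * r) = σ / δ) (hT : 0 < T) :
    μ (BB 𝓕 σ δ T r) ≤ ENNReal.ofReal
      ((1 / q + 1) * (2 * (T / (300 * σ / (4 * T))) + 3) ^ 4 * (738 * δ / σ)) := by
  set ν : Measure ℝ := volume.restrict (Icc (0 : ℝ) 1) with hν
  set P : Set (X × ℝ) := {p | 𝓕.A.τ (j1 (vv (-p.2))) p.1 ∈ BB 𝓕 σ δ T r} with hP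
  have hvv : Measurable (fun s : ℝ => vv (-s)) := by
    refine measurable_to_SL ?_
    intro i j
    fin_cases i <;> fin_cases j
    · exact measurable_const
    · exact measurable_const
    · exact measurable_neg
    · exact measurable_const
  have hm : Measurable (fun p : X × ℝ => 𝓕.A.τ (j1 (vv (-p.2))) p.1) :=
    𝓕.A.meas.comp ((measurable_j1.comp (hvv.comp measurable_snd)).prodMk measurable_fst)
  have hPm : MeasurableSet P := hm (measurableSet_BB 𝓕 σ δ T r)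
  have h1 : (μ.prod ν) P = ∫⁻ x, ν (Prod.mk x ⁻¹' P) ∂μ := Measure.prod_apply hPm
  have h2 : (μ.prod ν) P = ∫⁻ s, μ ((fun x => (x, s)) ⁻¹' P) ∂ν := Measure.prod_apply_symm hPm
  have h3 : ∀ s : ℝ, μ ((fun x => (x, s)) ⁻¹' P) = μ (BB 𝓕 σ δ T r) := by
    intro s
    exact (𝓕.A.mp (j1 (vv (-s)))).measure_preimage (measurableSet_BB 𝓕 σ δ T r).nullMeasurableSet
  have h4 : (μ.prod ν) P = μ (BB 𝓕 σ δ T r) := by
    rw [h2]
    simp only [h3]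
    rw [lintegral_const, hν, Measure.restrict_apply_univ, Real.volume_Icc]
    simp
  rw [← h4, h1]
  calc ∫⁻ x, ν (Prod.mk x ⁻¹' P) ∂μ ≤ ∫⁻ _x, (ENNReal.ofReal
      ((1 / q + 1) * (2 * (T / (300 * σ / (4 * T))) + 3) ^ 4 * (738 * δ / σ))) ∂μ := by
        refine lintegral_mono fun x => ?_
        rw [hν, Measure.restrict_apply (measurable_prodMk_left hPm)]
        refine le_trans (measure_mono ?_) (frames 𝓕 hσ hσ' hq hqσ hδ hr hT x)
        rintro s ⟨hs1, hs2⟩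
        exact ⟨hs2, hs1⟩
    _ = _ := by rw [lintegral_const, measure_univ, mul_one]

/-- Points with a small element are transported to points with a good element. -/
theorem cover {σ δ T r : ℝ} (hσ : 0 < σ) (hδ : 0 < δ) (hδ' : δ ≤ 1 / 100)
    (hr : Real.exp (2 * r) = σ / δ) :
    {x | ((𝓕.H x : Set G2) ∩ WW δ T).Nonempty} ∩ Xg 𝓕 (2700 * σ) ⊆
      (𝓕.A.τ (j1 (dd r * 1))) ⁻¹' BB 𝓕 σ δ T r ∪ ((𝓕.A.τ (j1 (dd r * JJ))) ⁻¹' BB 𝓕 σ δ T r ∪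
        (𝓕.A.τ (j1 (dd r * uu 1))) ⁻¹' BB 𝓕 σ δ T r) := by
  rintro x ⟨⟨h, hh, hh1, hh2, hh3⟩, hx⟩
  obtain ⟨w, hw, k1, k2, k3, k4, k5⟩ := exists_conj hδ hδ' hh1 hh2
  have hw3 := nS_wc3 hw
  have key : x ∈ (𝓕.A.τ (j1 (dd r * w))) ⁻¹' BB 𝓕 σ δ T r := by
    refine ⟨⟨j1 (dd r * w) * h * (j1 (dd r * w))⁻¹, mem_act 𝓕 hh, ?_, ?_⟩, ?_⟩
    · have e : (j1 (dd r * w) * h * (j1 (dd r * w))⁻¹).1 = dd r * (w * h.1 * w⁻¹) * (dd r)⁻¹ := by
        simp only [j1_apply, Prod.fst_mul, Prod.fst_inv]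
        group
      rw [e]
      exact renorm hσ hδ hr k1 k2 k3 k4 k5
    · have e : (j1 (dd r * w) * h * (j1 (dd r * w))⁻¹).2 = h.2 := by simp [j1_apply]
      rw [e]; exact hh3
    · rw [← 𝓕.A.mul, ← map_mul, inv_mul_cancel_left]
      intro k hk hk2
      have h1 := (𝓕.equi _ _ _).1 hk
      have h2 : (j1 w)⁻¹ * k * j1 w = 1 := by
        refine hx _ h1 ⟨?_, ?_⟩
        · have e : ((j1 w)⁻¹ * k * j1 w).1 = w⁻¹ * k.1 * (w⁻¹)⁻¹ := by
            simp [j1_apply]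
          rw [e]
          have h3 := d1_conj w⁻¹ k.1
          rw [nS_inv] at h3
          have h4 : nS w * nS w ≤ 9 := by nlinarith [nS_pos w]
          have h5 := d1_nonneg k.1
          have h6 := hk2.1
          have h7 : nS w * nS w * d1 k.1 ≤ 9 * d1 k.1 := mul_le_mul_of_nonneg_right h4 h5
          linarith
        · have e : ((j1 w)⁻¹ * k * j1 w).2 = k.2 := by simp [j1_apply]
          rw [e]
          have := hk2.2
          linarith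
      have h3 : k = j1 w * ((j1 w)⁻¹ * k * j1 w) * (j1 w)⁻¹ := by group
      rw [h3, h2]; group
  rcases hw with rfl | rfl | rfl
  · exact Or.inl key
  · exact Or.inr (Or.inl key)
  · exact Or.inr (Or.inr key)

/-- The measure of the set of points with a small element. -/
theorem mu_small [IsProbabilityMeasure μ] {σ q T : ℝ} (hσ : 0 < σ) (hσ' : σ ≤ 1 / 300)
    (hq : 0 < q) (hqσ : q ≤ σ) (hT : 1 ≤ T) :
    μ ({x | ((𝓕.H x : Set G2) ∩ WW (q ^ 2) T).Nonempty} ∩ Xg 𝓕 (2700 * σ)) ≤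
      ENNReal.ofReal (70848 * T ^ 8 * q / σ ^ 5) := by
  set δ := q ^ 2 with hδ
  have hδ0 : 0 < δ := by rw [hδ]; positivity
  have hδ' : δ ≤ 1 / 100 := by rw [hδ]; nlinarith
  obtain ⟨r, hr⟩ : ∃ r : ℝ, Real.exp (2 * r) = σ / δ := by
    refine ⟨Real.log (σ / δ) / 2, ?_⟩
    rw [mul_div_cancel₀ _ (two_ne_zero), Real.exp_log (by positivity)]
  have hB := mu_BB 𝓕 hσ hσ' hq hqσ hδ hr (by linarith : 0 < T)
  have hmp : ∀ g : G2, μ ((𝓕.A.τ g) ⁻¹' BB 𝓕 σ δ T r) = μ (BB 𝓕 σ δ T r) := fun g =>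
    (𝓕.A.mp g).measure_preimage (measurableSet_BB 𝓕 σ δ T r).nullMeasurableSet
  have hreal : 3 * ((1 / q + 1) * (2 * (T / (300 * σ / (4 * T))) + 3) ^ 4 * (738 * δ / σ)) ≤
      70848 * T ^ 8 * q / σ ^ 5 := by
    have h1 : 1 / q + 1 ≤ 2 / q := by
      have : 1 ≤ 1 / q := by rw [le_div_iff₀ hq]; linarith
      have e : 2 / q = 1 / q + 1 / q := by ring
      rw [e]; linarith
    have h2 : 2 * (T / (300 * σ / (4 * T))) + 3 ≤ 2 * T ^ 2 / σ := by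
      have e : 2 * (T / (300 * σ / (4 * T))) = (8 / 300) * (T ^ 2 / σ) := by
        field_simp
        ring
      have e2 : 1 ≤ T ^ 2 / σ := by rw [le_div_iff₀ hσ]; nlinarith
      have e2' : 3 ≤ (1 / 100) * (T ^ 2 / σ) := by
        have : 300 ≤ T ^ 2 / σ := by rw [le_div_iff₀ hσ]; nlinarith
        linarith
      have e3 : 2 * T ^ 2 / σ = 2 * (T ^ 2 / σ) := by ring
      rw [e, e3]; linarith
    have h3 : 0 ≤ 2 * (T / (300 * σ / (4 * T))) + 3 := by positivity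
    calc 3 * ((1 / q + 1) * (2 * (T / (300 * σ / (4 * T))) + 3) ^ 4 * (738 * δ / σ))
        ≤ 3 * ((2 / q) * (2 * T ^ 2 / σ) ^ 4 * (738 * δ / σ)) := by
          have h4 := pow_le_pow_left₀ h3 h2 4
          have h5 : (1 / q + 1) * (2 * (T / (300 * σ / (4 * T))) + 3) ^ 4
              ≤ (2 / q) * (2 * T ^ 2 / σ) ^ 4 := mul_le_mul h1 h4 (by positivity) (by positivity)
          have h6 := mul_le_mul_of_nonneg_right h5 (by positivity : (0:ℝ) ≤ 738 * δ / σ)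
          linarith
      _ = 70848 * T ^ 8 * q / σ ^ 5 := by
          rw [hδ]
          field_simp
          ring
  calc _ ≤ μ ((𝓕.A.τ (j1 (dd r * 1))) ⁻¹' BB 𝓕 σ δ T r ∪ ((𝓕.A.τ (j1 (dd r * JJ))) ⁻¹'
        BB 𝓕 σ δ T r ∪ (𝓕.A.τ (j1 (dd r * uu 1))) ⁻¹' BB 𝓕 σ δ T r)) :=
        measure_mono (cover 𝓕 hσ hδ0 hδ' hr)
    _ ≤ μ (BB 𝓕 σ δ T r) + (μ (BB 𝓕 σ δ T r) + μ (BB 𝓕 σ δ T r)) := by
        refine (measure_union_le _ _).trans ?_
        rw [hmp]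
        refine add_le_add le_rfl ((measure_union_le _ _).trans ?_)
        rw [hmp, hmp]
    _ = 3 * μ (BB 𝓕 σ δ T r) := by ring
    _ ≤ 3 * ENNReal.ofReal
      ((1 / q + 1) * (2 * (T / (300 * σ / (4 * T))) + 3) ^ 4 * (738 * δ / σ)) := by gcongr
    _ = ENNReal.ofReal (3 * ((1 / q + 1) * (2 * (T / (300 * σ / (4 * T))) + 3) ^ 4 *
      (738 * δ / σ))) := by
        rw [ENNReal.ofReal_mul (by norm_num : (0:ℝ) ≤ 3)]
        simp
    _ ≤ _ := ENNReal.ofReal_le_ofReal hreal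

end

end Pool.Agent.SZ.X2
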