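import Mathlib
import Pool.Agent.SZ.X2c

/-!
# SZ, part X2: the polynomial Diophantine condition
-/

set_option autoImplicit false

namespace Pool.Agent.SZ.X2

open Pool.Agent.IRS MeasureTheory Set Filter Topology

lemma nS_le_of_d1 {g : SL2R} {ρ : ℝ} (h : d1 g < ρ) : nS g ≤ 2 + ρ := by
  rw [d1_eq] at h
  have e : nS g = |g 0 0| + |g 0 1| + |g 1 0| + |g 1 1| := rfl
  have h1 := abs_add_le (g 0 0 - 1) 1
  have h2 := abs_add_le (g 1 1 - 1) 1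
  rw [sub_add_cancel, abs_one] at h1 h2
  rw [e]; linarith

section

variable {X : Type} [MeasurableSpace X] {μ : Measure X} (𝓕 : Fld μ)

/-- The groups are discrete. -/
theorem ae_Xg : ∀ᵐ x ∂μ, ∃ n : ℕ, x ∈ Xg 𝓕 (1 / ((n : ℝ) + 1)) := by
  filter_upwards [𝓕.fin] with x hx
  have h1 := hx 1
  have hfin := ENNReal.finite_const_le_of_tsum_ne_top h1
    (ε := ENNReal.ofReal ((3 ^ 6)⁻¹ * (3 ^ 6)⁻¹)) (ENNReal.ofReal_pos.2 (by positivity)).ne'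
  set φ : G2 → ℝ := fun h => max (d1 h.1) (d1 h.2) with hφ
  have hq : ∀ h : G2, h ∈ Un 1 → (3 ^ 6 : ℝ)⁻¹ * (3 ^ 6)⁻¹ ≤ q2 h := by
    intro h hh
    have k : ∀ g : SL2R, d1 g < 1 → (3 ^ 6 : ℝ)⁻¹ ≤ qs g := by
      intro g hg
      have h3 := nS_le_of_d1 hg
      unfold qs
      exact inv_anti₀ (pow_pos (nS_pos g) 6) (pow_le_pow_left₀ (nS_pos g).le (by linarith) 6)
    exact mul_le_mul (k _ hh.1) (k _ hh.2) (by positivity) (qs_pos _).le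
  have hF : {h : G2 | h ∈ 𝓕.H x ∧ h ∈ Un 1 ∧ h ≠ 1}.Finite := by
    refine (hfin.image (fun h : 𝓕.H x => (h : G2))).subset ?_
    rintro h ⟨ha, hb, _⟩
    refine ⟨⟨h, ha⟩, ?_, rfl⟩
    change ENNReal.ofReal _ ≤ ENNReal.ofReal (q2 (h * 1))
    rw [mul_one]
    exact ENNReal.ofReal_le_ofReal (hq h hb)
  have hpos : ∀ h : G2, h ≠ 1 → 0 < φ h := by
    intro h hne
    by_contra hle
    push Not at hle
    have h2 : d1 h.1 ≤ 0 := (le_max_left _ _).trans hle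
    have h3 : d1 h.2 ≤ 0 := (le_max_right _ _).trans hle
    have h4 := d1_eq_zero (le_antisymm h2 (d1_nonneg _))
    have h5 := d1_eq_zero (le_antisymm h3 (d1_nonneg _))
    exact hne (Prod.ext h4 h5)
  obtain ⟨ε, hε, hmin⟩ : ∃ ε : ℝ, 0 < ε ∧ ∀ h ∈ {h : G2 | h ∈ 𝓕.H x ∧ h ∈ Un 1 ∧ h ≠ 1}, ε ≤ φ h := by
    rcases Set.eq_empty_or_nonempty {h : G2 | h ∈ 𝓕.H x ∧ h ∈ Un 1 ∧ h ≠ 1} with he | hne
    · exact ⟨1, one_pos, fun h hh => by rw [he] at hh; exact absurd hh (notMem_empty _)⟩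
    · obtain ⟨h0, hh0, hmin⟩ := Set.exists_min_image _ φ hF hne
      exact ⟨φ h0, hpos h0 hh0.2.2, hmin⟩
  obtain ⟨n, hn⟩ := exists_nat_one_div_lt hε
  refine ⟨n, ?_⟩
  intro h hh hU
  by_contra hne
  have hn1 : 1 / ((n : ℝ) + 1) ≤ 1 := by
    rw [div_le_one (by positivity)]
    have : (0 : ℝ) ≤ n := Nat.cast_nonneg n
    linarith
  have h2 := hmin h ⟨hh, ⟨lt_of_lt_of_le hU.1 hn1, lt_of_lt_of_le hU.2 hn1⟩, hne⟩
  have h3 : φ h < 1 / ((n : ℝ) + 1) := max_lt hU.1 hU.2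
  linarith

lemma Xg_anti {ρ ρ' : ℝ} (h : ρ ≤ ρ') : Xg 𝓕 ρ' ⊆ Xg 𝓕 ρ := fun _ hx g hg hU =>
  hx g hg ⟨lt_of_lt_of_le hU.1 h, lt_of_lt_of_le hU.2 h⟩

variable [IsProbabilityMeasure μ]

/-- The bad set has small measure. -/
theorem exists_Xg {η : ℝ} (hη : 0 < η) : ∃ ρ : ℝ, 0 < ρ ∧ μ (Xg 𝓕 ρ)ᶜ ≤ ENNReal.ofReal η := by
  have hanti : Antitone (fun n : ℕ => (Xg 𝓕 (1 / ((n : ℝ) + 1)))ᶜ) := by
    intro m n hmn
    refine compl_subset_compl.2 (Xg_anti 𝓕 ?_)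
    have : (m : ℝ) ≤ n := by exact_mod_cast hmn
    exact one_div_le_one_div_of_le (by positivity) (by linarith)
  have hlim := tendsto_measure_iInter_atTop (μ := μ)
    (s := fun n : ℕ => (Xg 𝓕 (1 / ((n : ℝ) + 1)))ᶜ)
    (fun n => (measurableSet_Xg 𝓕 _).compl.nullMeasurableSet) hanti ⟨0, measure_ne_top _ _⟩
  have h0 : μ (⋂ n : ℕ, (Xg 𝓕 (1 / ((n : ℝ) + 1)))ᶜ) = 0 := by
    have h1 := ae_Xg 𝓕
    rw [ae_iff] at h1
    refine measure_mono_null ?_ h1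
    intro x hx
    change ¬ _
    rintro ⟨n, hn⟩
    exact (mem_iInter.1 hx n) hn
  rw [h0] at hlim
  have h2 := hlim.eventually (gt_mem_nhds (ENNReal.ofReal_pos.2 hη))
  obtain ⟨n, hn⟩ := h2.exists
  exact ⟨1 / ((n : ℝ) + 1), by positivity, hn.le⟩

/-- Summation over the scales. -/
theorem exists_dio {η : ℝ} (hη : 0 < η) {σ : ℝ} (hσ : 0 < σ) (hσ' : σ ≤ 1 / 300) :
    ∃ m0 : ℕ, μ (⋃ n : ℕ, ⋃ k : ℕ, ({x | ((𝓕.H x : Set G2) ∩
      WW ((1 / 2) ^ (20 * n + m0 + k)) (2 ^ n)).Nonempty} ∩ Xg 𝓕 (2700 * σ)))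
        ≤ ENNReal.ofReal η := by
  set θ : ℝ := √(1 / 2) with hθ
  have hθ2 : θ ^ 2 = 1 / 2 := Real.sq_sqrt (by norm_num)
  have hθ0 : 0 < θ := Real.sqrt_pos.2 (by norm_num)
  have hθ1 : θ ≤ 3 / 4 := by nlinarith
  have hθ20 : θ ^ 20 = (1 / 2) ^ 10 := by
    have e : θ ^ 20 = (θ ^ 2) ^ 10 := by ring
    rw [e, hθ2]
  -- choice of m0
  have ht : Tendsto (fun m : ℕ => (70848 / σ ^ 5 * 16) * θ ^ m) atTop (𝓝 ((70848 / σ ^ 5 * 16) * 0)) :=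
    (tendsto_pow_atTop_nhds_zero_of_lt_one hθ0.le (by linarith)).const_mul _
  have ht2 : Tendsto (fun m : ℕ => θ ^ m) atTop (𝓝 0) :=
    tendsto_pow_atTop_nhds_zero_of_lt_one hθ0.le (by linarith)
  rw [mul_zero] at ht
  obtain ⟨m0, hm0, hm0'⟩ := ((ht.eventually (gt_mem_nhds hη)).and
    (ht2.eventually (gt_mem_nhds hσ))).exists
  refine ⟨m0, ?_⟩
  have hterm : ∀ n k : ℕ, μ ({x | ((𝓕.H x : Set G2) ∩
      WW ((1 / 2) ^ (20 * n + m0 + k)) (2 ^ n)).Nonempty} ∩ Xg 𝓕 (2700 * σ)) ≤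
      ENNReal.ofReal (((70848 / σ ^ 5) * θ ^ m0 * (3 / 4) ^ n) * (3 / 4) ^ k) := by
    intro n k
    have hq0 : 0 < θ ^ (20 * n + m0 + k) := by positivity
    have hqσ : θ ^ (20 * n + m0 + k) ≤ σ := by
      refine le_trans (pow_le_pow_of_le_one hθ0.le (by linarith) ?_) hm0'.le
      omega
    have h1 := mu_small 𝓕 hσ hσ' hq0 hqσ (T := 2 ^ n) (one_le_pow₀ (by norm_num))
    have e1 : (θ ^ (20 * n + m0 + k)) ^ 2 = (1 / 2) ^ (20 * n + m0 + k) := by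
      rw [← pow_mul, mul_comm _ 2, pow_mul, hθ2]
    rw [e1] at h1
    refine h1.trans (ENNReal.ofReal_le_ofReal ?_)
    have e2 : θ ^ (20 * n + m0 + k) = ((1 / 2) ^ 10) ^ n * θ ^ m0 * θ ^ k := by
      rw [pow_add, pow_add, pow_mul, hθ20]
    have e3 : ((2 : ℝ) ^ n) ^ 8 = 256 ^ n := by
      rw [← pow_mul, mul_comm, pow_mul]; norm_num
    rw [e2, e3]
    have e4 : 70848 * (256 : ℝ) ^ n * (((1 / 2) ^ 10) ^ n * θ ^ m0 * θ ^ k) / σ ^ 5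
        = ((70848 / σ ^ 5) * θ ^ m0 * (256 * (1 / 2) ^ 10) ^ n) * θ ^ k := by
      rw [mul_pow]; ring
    rw [e4]
    have e5 : (256 * (1 / 2) ^ 10 : ℝ) ^ n ≤ (3 / 4) ^ n :=
      pow_le_pow_left₀ (by positivity) (by norm_num) n
    have e6 : θ ^ k ≤ (3 / 4) ^ k := pow_le_pow_left₀ hθ0.le hθ1 k
    have e7 : (70848 / σ ^ 5) * θ ^ m0 * (256 * (1 / 2) ^ 10) ^ n
        ≤ (70848 / σ ^ 5) * θ ^ m0 * (3 / 4) ^ n := mul_le_mul_of_nonneg_left e5 (by positivity)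
    exact mul_le_mul e7 e6 (by positivity) (by positivity)
  have hgeo : ∀ c : ℝ, 0 ≤ c → ∑' k : ℕ, ENNReal.ofReal (c * (3 / 4) ^ k)
      = ENNReal.ofReal (c * 4) := by
    intro c hc
    rw [← ENNReal.ofReal_tsum_of_nonneg (fun k => by positivity)
      ((summable_geometric_of_lt_one (by norm_num) (by norm_num)).mul_left c), tsum_mul_left,
      tsum_geometric_of_lt_one (by norm_num) (by norm_num)]
    norm_num
  calc _ ≤ ∑' n : ℕ, μ (⋃ k : ℕ, ({x | ((𝓕.H x : Set G2) ∩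
      WW ((1 / 2) ^ (20 * n + m0 + k)) (2 ^ n)).Nonempty} ∩ Xg 𝓕 (2700 * σ))) :=
        measure_iUnion_le _
    _ ≤ ∑' n : ℕ, ∑' k : ℕ,
        ENNReal.ofReal (((70848 / σ ^ 5) * θ ^ m0 * (3 / 4) ^ n) * (3 / 4) ^ k) := by
        refine ENNReal.tsum_le_tsum fun n => ?_
        refine (measure_iUnion_le _).trans (ENNReal.tsum_le_tsum fun k => hterm n k)
    _ = ∑' n : ℕ, ENNReal.ofReal (((70848 / σ ^ 5) * θ ^ m0 * 4) * (3 / 4) ^ n) := by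
        congr 1; ext n
        rw [hgeo _ (by positivity)]
        congr 1; ring
    _ = ENNReal.ofReal ((70848 / σ ^ 5) * θ ^ m0 * 4 * 4) := hgeo _ (by positivity)
    _ ≤ ENNReal.ofReal η := by
        apply ENNReal.ofReal_le_ofReal
        have e : (70848 / σ ^ 5) * θ ^ m0 * 4 * 4 = (70848 / σ ^ 5 * 16) * θ ^ m0 := by ring
        rw [e]; exact hm0.le

/-- The polynomial Diophantine condition outside a set of small measure. -/
theorem exh_dio' {η : ℝ} (hη : 0 < η) : ∃ T : ℝ, 1 ≤ T ∧ ∃ S : Set X, MeasurableSet S ∧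
    μ Sᶜ ≤ ENNReal.ofReal η ∧ ∀ x ∈ S, DioT T (𝓕.H x) := by
  obtain ⟨ρ, hρ, hρm⟩ := exists_Xg 𝓕 (half_pos hη)
  set σ : ℝ := min (1 / 300) (ρ / 2700) with hσd
  have hσ : 0 < σ := lt_min (by norm_num) (by positivity)
  have hσ' : σ ≤ 1 / 300 := min_le_left _ _
  have hσρ : 2700 * σ ≤ ρ := by
    have := min_le_right (1 / 300) (ρ / 2700)
    linarith
  obtain ⟨m0, hm0⟩ := exists_dio 𝓕 (half_pos hη) hσ hσ'
  set A : Set X := ⋃ n : ℕ, ⋃ k : ℕ, {x | ((𝓕.H x : Set G2) ∩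
      WW ((1 / 2) ^ (20 * n + m0 + k)) (2 ^ n)).Nonempty} with hA
  have hAm : MeasurableSet A := MeasurableSet.iUnion fun n => MeasurableSet.iUnion fun k =>
    𝓕.meas _ (isOpen_WW _ _)
  have hA2 : A ∩ Xg 𝓕 (2700 * σ) = ⋃ n : ℕ, ⋃ k : ℕ, ({x | ((𝓕.H x : Set G2) ∩
      WW ((1 / 2) ^ (20 * n + m0 + k)) (2 ^ n)).Nonempty} ∩ Xg 𝓕 (2700 * σ)) := by
    rw [hA, iUnion_inter]
    congr 1; ext1 n
    rw [iUnion_inter]
  refine ⟨2 ^ (m0 + 20), one_le_pow₀ (by norm_num), Xg 𝓕 (2700 * σ) \ A,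
    (measurableSet_Xg 𝓕 _).diff hAm, ?_, ?_⟩
  · have hsub : (Xg 𝓕 (2700 * σ) \ A)ᶜ ⊆ (Xg 𝓕 ρ)ᶜ ∪ (A ∩ Xg 𝓕 (2700 * σ)) := by
      intro x hx
      by_cases h1 : x ∈ Xg 𝓕 (2700 * σ)
      · by_cases h2 : x ∈ A
        · exact Or.inr ⟨h2, h1⟩
        · exact absurd ⟨h1, h2⟩ hx
      · exact Or.inl fun h3 => h1 (Xg_anti 𝓕 hσρ h3)
    calc μ (Xg 𝓕 (2700 * σ) \ A)ᶜ ≤ μ ((Xg 𝓕 ρ)ᶜ ∪ (A ∩ Xg 𝓕 (2700 * σ))) := measure_mono hsub
      _ ≤ μ (Xg 𝓕 ρ)ᶜ + μ (A ∩ Xg 𝓕 (2700 * σ)) := measure_union_le _ _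
      _ ≤ ENNReal.ofReal (η / 2) + ENNReal.ofReal (η / 2) := by
          rw [hA2]; exact add_le_add hρm hm0
      _ = ENNReal.ofReal η := by
          rw [← ENNReal.ofReal_add (by positivity) (by positivity)]; congr 1; ring
  · rintro x ⟨_, hxA⟩ h hh hne
    set d := d1 h.1 with hd
    have hd0 : 0 < d := by
      rcases (d1_nonneg h.1).lt_or_eq with h1 | h1
      · exact h1
      · exact absurd (d1_eq_zero h1.symm) hne
    have hN := two_le_nS h.2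
    obtain ⟨n, hn1, hn2⟩ := exists_nat_pow_near (show (1 : ℝ) ≤ nS h.2 by linarith)
      (by norm_num : (1 : ℝ) < 2)
    have hlow : (1 / 2 : ℝ) ^ (20 * (n + 1) + m0) ≤ d := by
      by_contra hlt
      push Not at hlt
      have hd1 : d ≤ 1 := hlt.le.trans (pow_le_one₀ (by norm_num) (by norm_num))
      obtain ⟨m, hm1, hm2⟩ := exists_nat_pow_near_of_lt_one hd0 hd1
        (by norm_num : (0 : ℝ) < 1 / 2) (by norm_num : (1 / 2 : ℝ) < 1)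
      have hmm : 20 * (n + 1) + m0 < m + 1 := by
        by_contra hle
        push Not at hle
        have := pow_le_pow_of_le_one (by norm_num : (0 : ℝ) ≤ 1 / 2) (by norm_num) hle
        linarith
      obtain ⟨k, hk⟩ : ∃ k, m = 20 * (n + 1) + m0 + k := ⟨m - (20 * (n + 1) + m0), by omega⟩
      apply hxA
      rw [hA]
      refine mem_iUnion.2 ⟨n + 1, mem_iUnion.2 ⟨k, ⟨h, hh, ?_, ?_, hn2⟩⟩⟩
      · rw [← hk]
        have e : (1 / 2 : ℝ) ^ m / 2 = (1 / 2) ^ (m + 1) := by rw [pow_succ]; ring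
        rw [e]; exact hm1
      · rw [← hk]
        have : (0 : ℝ) < (1 / 2) ^ m := by positivity
        linarith
    refine le_trans ?_ hlow
    have hN0 := nS_pos h.2
    have h20 : (20 : ℝ) ≤ 2 ^ (m0 + 20) := by
      calc (20 : ℝ) ≤ 2 ^ 20 := by norm_num
        _ ≤ 2 ^ (m0 + 20) := pow_le_pow_right₀ (by norm_num) (by omega)
    calc ((2 : ℝ) ^ (m0 + 20))⁻¹ * nS h.2 ^ (-(2 : ℝ) ^ (m0 + 20))
        ≤ ((2 : ℝ) ^ (m0 + 20))⁻¹ * nS h.2 ^ (-(20 : ℝ)) := by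
          refine mul_le_mul_of_nonneg_left ?_ (by positivity)
          exact Real.rpow_le_rpow_of_exponent_le (by linarith) (by linarith)
      _ ≤ ((2 : ℝ) ^ (m0 + 20))⁻¹ * ((2 ^ n) ^ 20)⁻¹ := by
          refine mul_le_mul_of_nonneg_left ?_ (by positivity)
          rw [Real.rpow_neg hN0.le]
          have e : nS h.2 ^ (20 : ℝ) = nS h.2 ^ (20 : ℕ) := by
            rw [← Real.rpow_natCast]; norm_num
          rw [e]
          exact inv_anti₀ (by positivity) (pow_le_pow_left₀ (by positivity) hn1 20)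
      _ = (1 / 2 : ℝ) ^ (20 * (n + 1) + m0) := by
          rw [one_div, inv_pow, ← mul_inv, ← pow_mul, ← pow_add]
          congr 2; ring

end

end Pool.Agent.SZ.X2

namespace Pool.Agent.SZ

open Pool.Agent.IRS MeasureTheory Set

/-- The polynomial Diophantine condition outside a set of small measure. -/
theorem exh_dio' {X : Type} [MeasurableSpace X] {μ : Measure X} [IsProbabilityMeasure μ]
    (𝓕 : Fld μ) {η : ℝ} (hη : 0 < η) : ∃ T : ℝ, 1 ≤ T ∧ ∃ S : Set X, MeasurableSet S ∧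
    μ Sᶜ ≤ ENNReal.ofReal η ∧ ∀ x ∈ S, DioT T (𝓕.H x) := X2.exh_dio' 𝓕 hη

end Pool.Agent.SZ
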