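import Mathlib
import Pool.Agent.SZ.Nuk
import Pool.Agent.SZ.L_FIN
import Pool.Agent.SZ.X1c
import Pool.Agent.SZ.X2d
import Pool.Agent.SZ.LEG12
import Pool.Agent.SZ.R25
import Pool.Agent.SZ.S25Fin

/-!
# SZ: the main statements of the parts (interface)

Each theorem is proved in its own part; see `Pool/Agent/SZ/BLUEPRINT.md`.
The statement of part L is `thmL` in `L_FIN.lean`.
-/

set_option autoImplicit false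
set_option linter.unusedVariables false
set_option linter.unusedSectionVars false

namespace Pool.Agent.SZ

open Pool.Agent.IRS MeasureTheory Set Filter Topology

/-! ### Part X -/

section X

variable {X : Type} [MeasurableSpace X] {μ : Measure X} [IsProbabilityMeasure μ] (𝓕 : Fld μ)

theorem ae_inj : ∀ᵐ x ∂μ, InjT (𝓕.H x) := ae_inj' 𝓕

theorem exh_free {ε η : ℝ} (hε : 0 < ε) (hη : 0 < η) : ∃ T : ℝ, ∃ S : Set X, MeasurableSet S ∧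
    μ Sᶜ ≤ ENNReal.ofReal η ∧ ∀ x ∈ S, FreeT ε T (𝓕.H x) := exh_free' 𝓕 hε hη

theorem exh_dio {η : ℝ} (hη : 0 < η) : ∃ T : ℝ, 1 ≤ T ∧ ∃ S : Set X, MeasurableSet S ∧
    μ Sᶜ ≤ ENNReal.ofReal η ∧ ∀ x ∈ S, DioT T (𝓕.H x) := exh_dio' 𝓕 hη

theorem exh_den {δ R η : ℝ} (hδ : 0 < δ) (hη : 0 < η) : ∃ T : ℝ, ∃ S : Set X, MeasurableSet S ∧
    μ Sᶜ ≤ ENNReal.ofReal η ∧ ∀ x ∈ S, Den δ R T (𝓕.H x) := exh_den' 𝓕 hδ hη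

end X

/-! ### Part LEG -/

theorem leg : ∃ C : ℝ, 0 ≤ C ∧ ∀ (Z : Type) [MeasurableSpace Z] (ζ : Measure Z) [SigmaFinite ζ]
    (a : PAct SL2R ζ) (F : BL2 ζ) (u g : SL2R), nS u ≤ 20 →
    ∫ z, (∫ θ in (0 : ℝ)..(2 * Real.pi), (((a.P nuK F : BL2 ζ) : Z → ℝ) (a.τ (u * g * kk θ) z)
        - ((a.P nuK F : BL2 ζ) : Z → ℝ) (a.τ (g * kk θ) z))) ^ 2 ∂ζ
      ≤ C * (frm ζ).B (F - a.P nuK F) (F - a.P nuK F) := leg_proof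

/-! ### Part R -/

theorem starR : ∃ R0 : ℝ, ∀ ε : ℝ, 0 < ε → ∀ R' C c T : ℝ, 0 < c → ∃ δ : ℝ, 0 < δ ∧ ∃ R1 : ℝ,
    ∀ T2 : ℝ, ∃ C1 : ℝ, ∀ (Z : Type) [MeasurableSpace Z] (ζ : Measure Z) [SigmaFinite ζ]
      (a b : PAct SL2R ζ) (hab : ∀ g h z, a.τ g (b.τ h z) = b.τ h (a.τ g z)) (W : Set Z),
      MeasurableSet W →
      (∀ z ∈ W, ∃ H : Subgroup G2, (∀ h ∈ H, a.τ h.1 (b.τ h.2 z) = z) ∧
        LocL R0 R' C c T H ∧ Den δ R1 T2 H) →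
      ∀ (F : BL2 ζ) (u p : SL2R), nS u ≤ 20 →
        ∫ z in Wt a W, (((AA a b F : BL2 ζ) : Z → ℝ) (a.τ (u * p) z)
            - ((AA a b F : BL2 ζ) : Z → ℝ) (a.τ p z)) ^ 2 ∂ζ
          ≤ C1 * (1 + Real.log (nS p)) * (frm ζ).B (DD a b F) (DD a b F)
            + ε * (frm ζ).B (DD a b F) F := PR.starR_of leg

/-! ### Part S -/

theorem scheme {X Z : Type} [MeasurableSpace X] [MeasurableSpace Z] {μ : Measure X}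
    [IsProbabilityMeasure μ] {ζ : Measure Z} [SigmaFinite ζ] (a b : PAct SL2R ζ)
    (a' b' : PAct SL2R μ) (π : Z → X) (hπ : Measurable π)
    (ha : ∀ g z, π (a.τ g z) = a'.τ g (π z)) (hb : ∀ g z, π (b.τ g z) = b'.τ g (π z))
    (hab : ∀ g h z, a.τ g (b.τ h z) = b.τ h (a.τ g z))
    (hab' : ∀ g h x, a'.τ g (b'.τ h x) = b'.τ h (a'.τ g x))
    (hinv : ∀ w : BL2 ζ, (∀ g, ((a.T g w : BL2 ζ) : Z → ℝ) =ᵐ[ζ] (w : Z → ℝ)) →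
      (∀ g, ((b.T g w : BL2 ζ) : Z → ℝ) =ᵐ[ζ] (w : Z → ℝ)) → (w : Z → ℝ) =ᵐ[ζ] 0)
    (hstar : ∀ ε η : ℝ, 0 < ε → 0 < η → ∃ S : Set X, MeasurableSet S ∧
      μ Sᶜ ≤ ENNReal.ofReal η ∧ ∃ C1 : ℝ, ∀ (F : BL2 ζ) (j : ℕ),
        ∫ z in π ⁻¹' S, ((((AA a b) ^ j) (gam a b F) : BL2 ζ) : Z → ℝ) z ∂ζ
          ≤ C1 * (1 + j) * (frm ζ).B (DD a b F) (DD a b F) + ε * (frm ζ).B (DD a b F) F) :
    ∃ η : ℝ, 0 < η ∧ ∀ f : BL2 ζ, ClP μ π f → (frm ζ).B (DD a b f) f ≤ η →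
      ∫ z, (f : Z → ℝ) z ^ 2 ∂ζ < 7 / 8 :=
  scheme_main a b a' b' π hπ ha hb hab hab' hinv hstar

end Pool.Agent.SZ
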