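import Mathlib
import Pool.Agent.SZ.Iface

/-!
# SZ: assembly

`covolS`: the covolume is finite, given the hypothesis `hstar` of `scheme` for the coset space of a
field of subgroups (this hypothesis is `hstar_fld`, part R0).  `irs_lattice_of`: the main theorem.
-/

set_option autoImplicit false
set_option linter.unusedSectionVars false

namespace Pool.Agent.SZ

open Pool.Agent.IRS MeasureTheory Set Filter Topology ENNReal

section energy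

variable {Z : Type*} [MeasurableSpace Z] {ζ : Measure Z} [SigmaFinite ζ]

/-- The energy of the product is at most the sum of the energies. -/
theorem DD_le (a b : PAct SL2R ζ) (hab : ∀ g h z, a.τ g (b.τ h z) = b.τ h (a.τ g z))
    (f : BL2 ζ) : (frm ζ).B (DD a b f) f ≤ a.E nuK f + b.E nuK f := by
  have hc := PAct.cpair (ν := nuK) (a := a) (b := b) hab
  have h1 := hc.ea_Q_le f
  have h2 : CPair.ea (frm ζ) (b.P nuK) f = b.E nuK f := b.ea_eq nuK f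
  have h3 : CPair.ea (frm ζ) (a.P nuK) f = a.E nuK f := a.ea_eq nuK f
  have h4 : (frm ζ).B (DD a b f) f
      = (frm ζ).B f f - (frm ζ).B (a.P nuK (b.P nuK f)) f := by
    have e : DD a b f = f - a.P nuK (b.P nuK f) := rfl
    rw [e, map_sub, LinearMap.sub_apply]
  have h5 : CPair.ea (frm ζ) (b.P nuK) f = (frm ζ).B f f - (frm ζ).B (b.P nuK f) f := rfl
  rw [h4, ← h3, ← h2, h5]
  linarith

end energy

section fld

variable {X : Type} [MeasurableSpace X] {μ : Measure X} [IsProbabilityMeasure μ] (𝓕 : Fld μ)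

/-- Some average has small displacement on average, for any averaging measure `ρ`. -/
theorem limsup_rho (ρ : Measure SL2R) [IsProbabilityMeasure ρ] {ν : ℕ → Measure SL2R}
    (hν : ∀ n, IsProbabilityMeasure (ν n))
    {B : X × Pool.Agent.IRS.CL G2 → ℝ} (hB : Measurable B) (h0 : ∀ z, 0 ≤ B z) {M : ℝ} (hM : ∀ z, B z ≤ M)
    (hi : Integrable B 𝓕.zeta) {D : ENNReal} (j : SL2R →* G2) (hj : Measurable j)
    (hD : ∀ γ : G2, limsup (fun n => ∫⁻ z, ‖𝓕.cR.av (ν n) B (𝓕.left.τ γ z)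
      - 𝓕.cR.av (ν n) B z‖ₑ ∂𝓕.zeta) atTop ≤ D) :
    limsup (fun n => ∫⁻ g, ∫⁻ z, ‖𝓕.cR.av (ν n) B ((𝓕.left.comap j hj).τ g z)
      - 𝓕.cR.av (ν n) B z‖ₑ ∂𝓕.zeta ∂ρ) atTop ≤ D := by
  have hfin : ∫⁻ z, ENNReal.ofReal (B z) ∂𝓕.zeta ≠ ⊤ :=
    (lintegral_ofReal_ne_top_iff_integrable hB.aestronglyMeasurable
      (Filter.Eventually.of_forall fun _ => h0 _)).2 hi
  have hmav : ∀ n, Measurable (𝓕.cR.av (ν n) B) := fun n => by
    have := hν n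
    exact 𝓕.cR.av_meas (ν n) hB
  refine (limsup_lintegral_le (fun _ : SL2R => 2 * ∫⁻ z, ENNReal.ofReal (B z) ∂𝓕.zeta)
    ?_ ?_ ?_).trans ?_
  · intro n
    have hm : Measurable (fun p : SL2R × (X × Pool.Agent.IRS.CL G2) =>
        ‖𝓕.cR.av (ν n) B ((𝓕.left.comap j hj).τ p.1 p.2) - 𝓕.cR.av (ν n) B p.2‖ₑ) :=
      (((hmav n).comp (𝓕.left.comap j hj).meas).sub ((hmav n).comp measurable_snd)).enorm
    exact hm.lintegral_prod_right'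
  · intro n
    have := hν n
    refine Filter.Eventually.of_forall fun g => ?_
    have e1 : ∀ z, ‖𝓕.cR.av (ν n) B ((𝓕.left.comap j hj).τ g z) - 𝓕.cR.av (ν n) B z‖ₑ
        ≤ ENNReal.ofReal (𝓕.cR.av (ν n) B ((𝓕.left.comap j hj).τ g z))
          + ENNReal.ofReal (𝓕.cR.av (ν n) B z) := by
      intro z
      have g1 := 𝓕.cR.av_nonneg (ν n) h0 ((𝓕.left.comap j hj).τ g z)
      have g2 := 𝓕.cR.av_nonneg (ν n) h0 z
      rw [← ENNReal.ofReal_add g1 g2, ← ofReal_norm, Real.norm_eq_abs]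
      apply ENNReal.ofReal_le_ofReal
      rw [abs_le]
      constructor <;> linarith
    refine (lintegral_mono e1).trans ?_
    rw [lintegral_add_right _ (hmav n).ennreal_ofReal]
    have e2 : ∫⁻ z, ENNReal.ofReal (𝓕.cR.av (ν n) B ((𝓕.left.comap j hj).τ g z)) ∂𝓕.zeta
        = ∫⁻ z, ENNReal.ofReal (𝓕.cR.av (ν n) B z) ∂𝓕.zeta :=
      ((𝓕.left.comap j hj).mp g).lintegral_comp (hmav n).ennreal_ofReal
    rw [e2, 𝓕.cR.lintegral_av (ν n) hB h0 hM, two_mul]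
  · rw [lintegral_const]
    simp only [measure_univ, mul_one]
    exact ENNReal.mul_ne_top (by norm_num) hfin
  · calc ∫⁻ g, limsup (fun n => ∫⁻ z, ‖𝓕.cR.av (ν n) B ((𝓕.left.comap j hj).τ g z)
          - 𝓕.cR.av (ν n) B z‖ₑ ∂𝓕.zeta) atTop ∂ρ
        ≤ ∫⁻ _ : SL2R, D ∂ρ := lintegral_mono fun g => hD (j g)
      _ = D := by simp

/-- The class `Cl` implies the dual form of the marginal condition. -/
theorem clP_of_cl {f : BL2 𝓕.zeta} (hf : 𝓕.Cl f) : ClP μ (Prod.fst : X × Pool.Agent.IRS.CL G2 → X) f := by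
  rintro u hu h0 ⟨M, hM⟩
  have hui : Integrable u μ := integrable_of_bdd μ hu (M := M) fun x => by
    rw [abs_of_nonneg (h0 x)]; exact hM x
  have hm1 : Measurable (fun z : X × Pool.Agent.IRS.CL G2 => u z.1 * (f : X × Pool.Agent.IRS.CL G2 → ℝ) z ^ 2) :=
    (hu.comp measurable_fst).mul ((bmeas f).pow_const 2)
  rw [integral_eq_lintegral_of_nonneg_ae
      (Eventually.of_forall fun z => mul_nonneg (h0 _) (sq_nonneg _)) hm1.aestronglyMeasurable,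
    integral_eq_lintegral_of_nonneg_ae (Eventually.of_forall fun x => h0 x)
      hu.aestronglyMeasurable]
  have hfin : ∫⁻ x, ENNReal.ofReal (u x) ∂μ ≠ ⊤ :=
    (lintegral_ofReal_ne_top_iff_integrable hu.aestronglyMeasurable
      (Eventually.of_forall fun _ => h0 _)).2 hui
  refine ENNReal.toReal_mono hfin ?_
  rw [𝓕.lintegral_zeta hm1.ennreal_ofReal]
  refine lintegral_mono_ae ?_
  filter_upwards [hf] with x hx
  calc 𝓕.fib (fun z => ENNReal.ofReal (u z.1 * (f : X × Pool.Agent.IRS.CL G2 → ℝ) z ^ 2)) x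
      = ENNReal.ofReal (u x) * 𝓕.fib (fun z => ENNReal.ofReal ((f : X × Pool.Agent.IRS.CL G2 → ℝ) z ^ 2)) x := by
        unfold Fld.fib
        have hm : Measurable (fun g : G2 =>
            ENNReal.ofReal ((f : X × Pool.Agent.IRS.CL G2 → ℝ) (x, 𝓕.co x g) ^ 2) * 𝓕.wt x g) :=
          ((((bmeas f).comp (measurable_const.prodMk (𝓕.measurable_co x))).pow_const
            2).ennreal_ofReal).mul (𝓕.measurable_wt' x)
        rw [← lintegral_const_mul _ hm]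
        refine lintegral_congr fun g => ?_
        simp only
        rw [ENNReal.ofReal_mul (h0 x), mul_assoc]
    _ ≤ ENNReal.ofReal (u x) * 1 := by gcongr
    _ = ENNReal.ofReal (u x) := mul_one _

/-- The hypothesis of `scheme` for the coset space of a field of subgroups. -/
def HStar : Prop :=
  ∀ ε η : ℝ, 0 < ε → 0 < η → ∃ S : Set X, MeasurableSet S ∧
    μ Sᶜ ≤ ENNReal.ofReal η ∧ ∃ C1 : ℝ, ∀ (F : BL2 𝓕.zeta) (j : ℕ),
      ∫ z in (Prod.fst : X × Pool.Agent.IRS.CL G2 → X) ⁻¹' S,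
          ((((AA 𝓕.aL 𝓕.bL) ^ j) (gam 𝓕.aL 𝓕.bL F) : BL2 𝓕.zeta) : X × Pool.Agent.IRS.CL G2 → ℝ) z ∂𝓕.zeta
        ≤ C1 * (1 + j) * (frm 𝓕.zeta).B (DD 𝓕.aL 𝓕.bL F) (DD 𝓕.aL 𝓕.bL F)
          + ε * (frm 𝓕.zeta).B (DD 𝓕.aL 𝓕.bL F) F

/-- No invariant square integrable functions, in the form needed by `scheme`. -/
theorem no_inv_ab (hinf : ∀ᵐ x ∂μ, 𝓕.fib (fun _ => 1) x = ⊤) (w : BL2 𝓕.zeta)
    (hw1 : ∀ g, ((𝓕.aL.T g w : BL2 𝓕.zeta) : X × Pool.Agent.IRS.CL G2 → ℝ) =ᵐ[𝓕.zeta] (w : X × Pool.Agent.IRS.CL G2 → ℝ))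
    (hw2 : ∀ g, ((𝓕.bL.T g w : BL2 𝓕.zeta) : X × Pool.Agent.IRS.CL G2 → ℝ) =ᵐ[𝓕.zeta] (w : X × Pool.Agent.IRS.CL G2 → ℝ)) :
    (w : X × Pool.Agent.IRS.CL G2 → ℝ) =ᵐ[𝓕.zeta] 0 := by
  refine 𝓕.no_inv hinf _ (bmeas w) (bsq w) fun g => ?_
  have e1 : ∀ᵐ z ∂𝓕.zeta, (w : X × Pool.Agent.IRS.CL G2 → ℝ) (𝓕.aL.τ g.1 z) = (w : X × Pool.Agent.IRS.CL G2 → ℝ) z :=
    hw1 g.1
  have e2 : ∀ᵐ z ∂𝓕.zeta, (w : X × Pool.Agent.IRS.CL G2 → ℝ) (𝓕.bL.τ g.2 z) = (w : X × Pool.Agent.IRS.CL G2 → ℝ) z :=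
    hw2 g.2
  have e3 : ∀ᵐ z ∂𝓕.zeta, (w : X × Pool.Agent.IRS.CL G2 → ℝ) (𝓕.aL.τ g.1 (𝓕.bL.τ g.2 z))
      = (w : X × Pool.Agent.IRS.CL G2 → ℝ) (𝓕.bL.τ g.2 z) :=
    (𝓕.bL.mp g.2).quasiMeasurePreserving.ae e1
  filter_upwards [e2, e3] with z h3 h4
  have h5 : 𝓕.left.τ g z = 𝓕.aL.τ g.1 (𝓕.bL.τ g.2 z) := by
    change 𝓕.left.τ g z = 𝓕.left.τ (j1 g.1) (𝓕.left.τ (j2 g.2) z)
    rw [← 𝓕.left.mul, j12]
  rw [h5, h4, h3]

/-- **Finite covolume.** -/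
theorem covolS (hstar : HStar 𝓕) : ∀ᵐ x ∂μ, 𝓕.fib (fun _ => 1) x ≠ ⊤ := by
  rcases 𝓕.inf_or_fin with hinf | hfin
  swap
  · exact hfin
  exfalso
  have hA12 : ∀ (g h : SL2R) (x : X), 𝓕.A1.τ g (𝓕.A2.τ h x) = 𝓕.A2.τ h (𝓕.A1.τ g x) := by
    intro g h x
    change 𝓕.A.τ (j1 g) (𝓕.A.τ (j2 h) x) = 𝓕.A.τ (j2 h) (𝓕.A.τ (j1 g) x)
    rw [← 𝓕.A.mul, ← 𝓕.A.mul, j12_comm]
  obtain ⟨η, hη, hsch⟩ := scheme (μ := μ) (ζ := 𝓕.zeta) 𝓕.aL 𝓕.bL 𝓕.A1 𝓕.A2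
    (Prod.fst : X × Pool.Agent.IRS.CL G2 → X) measurable_fst (fun g z => rfl) (fun g z => rfl) 𝓕.aL_bL hA12
    (no_inv_ab 𝓕 hinf) hstar
  obtain ⟨δ, hδ⟩ : ∃ δ, δ = min (1 / 8) (η / 16) := ⟨_, rfl⟩
  have hδ0 : 0 < δ := by rw [hδ]; positivity
  have hδ1 : δ ≤ 1 / 8 := by rw [hδ]; exact min_le_left _ _
  have hδ2 : δ ≤ η / 16 := by rw [hδ]; exact min_le_right _ _
  obtain ⟨B, hB, h0, ⟨M, hM⟩, hi, hf, hB1⟩ := 𝓕.exists_bump hδ0
  obtain ⟨ν, hν, hr⟩ := 𝓕.reiter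
  have hlim : ∀ γ : G2, limsup (fun n => ∫⁻ z, ‖𝓕.cR.av (ν n) B (𝓕.left.τ γ z)
      - 𝓕.cR.av (ν n) B z‖ₑ ∂𝓕.zeta) atTop ≤ ENNReal.ofReal (2 * δ) := fun γ =>
    𝓕.limsup_one hr hB h0 ⟨M, hM⟩ hi hf hδ0.le (by linarith) hB1 γ
  have hlt : ENNReal.ofReal (2 * δ) < ENNReal.ofReal (η / 2) := by
    rw [ENNReal.ofReal_lt_ofReal_iff (by positivity)]
    linarith
  have ha := (limsup_rho 𝓕 nuK hν hB h0 hM hi j1 measurable_j1 hlim).trans_lt hlt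
  have hb := (limsup_rho 𝓕 nuK hν hB h0 hM hi j2 measurable_j2 hlim).trans_lt hlt
  obtain ⟨n, hna, hnb⟩ :=
    ((eventually_lt_of_limsup_lt ha).and (eventually_lt_of_limsup_lt hb)).exists
  have := hν n
  obtain ⟨f, hf1, hf2⟩ := sqrt_energy (ζ := 𝓕.zeta) (𝓕.cR.av (ν n) B) (𝓕.cR.av_meas (ν n) hB)
    (𝓕.cR.av_nonneg (ν n) h0) ⟨M, 𝓕.cR.av_le (ν n) hB h0 hM⟩
    (𝓕.cR.av_integrable (ν n) hB h0 hM hi)
  have hfsq : ∀ z, (f : X × Pool.Agent.IRS.CL G2 → ℝ) z ^ 2 = 𝓕.cR.av (ν n) B z := fun z => by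
    rw [hf1, Real.sq_sqrt (𝓕.cR.av_nonneg (ν n) h0 z)]
  have hCl : 𝓕.Cl f := by
    unfold Fld.Cl
    simp_rw [hfsq]
    filter_upwards [𝓕.fib_av (ν n) hB h0 hM, hf] with x e1 e2
    rw [e1]
    exact e2
  have hEa : 𝓕.aL.E nuK f ≤ η / 2 := by
    have h1 := (hf2 𝓕.aL nuK).trans hna.le
    exact (ENNReal.ofReal_le_ofReal_iff (by positivity)).1 h1
  have hEb : 𝓕.bL.E nuK f ≤ η / 2 := by
    have h1 := (hf2 𝓕.bL nuK).trans hnb.le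
    exact (ENNReal.ofReal_le_ofReal_iff (by positivity)).1 h1
  have hE : (frm 𝓕.zeta).B (DD 𝓕.aL 𝓕.bL f) f ≤ η :=
    (DD_le 𝓕.aL 𝓕.bL 𝓕.aL_bL f).trans (by linarith)
  have hfin := hsch f (clP_of_cl 𝓕 hCl) hE
  have h7 : ∫ z, (f : X × Pool.Agent.IRS.CL G2 → ℝ) z ^ 2 ∂𝓕.zeta = ∫ z, B z ∂𝓕.zeta := by
    rw [integral_congr_ae (Filter.Eventually.of_forall hfsq), 𝓕.cR.integral_av (ν n) hB h0 hM]
  rw [h7] at hfin
  linarith

end fld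

/-- **The main theorem**, given `HStar` for all fields of subgroups. -/
theorem irs_lattice_of
    (hst : ∀ (μ : Measure (ClosedSubgroup GG)) [IsProbabilityMeasure μ] (𝓕 : Fld μ), HStar 𝓕)
    (μ : Measure (ClosedSubgroup GG)) (hμ : IsIRS μ) (herg : IsErg μ)
    (hirr : ∀ᵐ H ∂μ, Irred H) (hne : μ ≠ Measure.dirac topS) : IsLatticeIRS μ := by
  have hdisc := disc hμ herg hirr hne
  have hprob := hμ.prob
  obtain ⟨𝓕, h1, h2⟩ := exists_fld hμ herg hirr hdisc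
  obtain ⟨c, hc0, hct, hc, hψ⟩ := 𝓕.lattice (covolS 𝓕 (hst μ 𝓕))
  exact lattice_of_formula hμ 𝓕 h1 h2 hdisc hc0 hct hc hψ

end Pool.Agent.SZ
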