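import Mathlib
import Pool.Agent.SZ.Asm

/-!
# SZ: assembly, second part

`h3_gen`: the hypotheses `h3`, `h3'` of part R0, from `thmL`, `exh_*`, `starR`.
-/

set_option autoImplicit false
set_option linter.unusedSectionVars false

namespace Pool.Agent.SZ

open Pool.Agent.IRS MeasureTheory Set Filter Topology ENNReal

/-! ### Monotonicity in the cost -/

theorem FreeT.mono {ε T T' : ℝ} (h : T ≤ T') {H : Subgroup G2} (hH : FreeT ε T H) :
    FreeT ε T' H := by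
  obtain ⟨p, h1, h2⟩ := hH
  exact ⟨p, fun i => ⟨(h1 i).1, (h1 i).2.1, (h1 i).2.2.trans h⟩, h2⟩

theorem Den.mono {δ R T T' : ℝ} (h : T ≤ T') {H : Subgroup G2} (hH : Den δ R T H) :
    Den δ R T' H := by
  intro Y hY
  obtain ⟨g, hg, h1, h2⟩ := hH Y hY
  exact ⟨g, hg, h1, h2.trans h⟩

theorem DioT.mono {T T' : ℝ} (hT : 1 ≤ T) (h : T ≤ T') {H : Subgroup G2} (hH : DioT T H) :
    DioT T' H := by
  intro g hg hne
  refine le_trans ?_ (hH g hg hne)
  have h2 : 1 ≤ nS g.2 := by linarith [two_le_nS g.2]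
  have h3 : T'⁻¹ ≤ T⁻¹ := inv_anti₀ (by linarith) h
  have h4 : nS g.2 ^ (-T') ≤ nS g.2 ^ (-T) := Real.rpow_le_rpow_of_exponent_le h2 (by linarith)
  exact mul_le_mul h3 h4 (Real.rpow_nonneg (by linarith) _) (inv_nonneg.2 (by linarith))

/-! ### The ball -/

theorem mH_Bx_pos : 0 < mH.real (Bx 2) := by
  have hfin : mH (Bx 2) ≠ ⊤ := by
    refine ((measure_mono ?_).trans_lt (mH_ball_lt 5)).ne
    intro g hg
    have h1 : xx g ≤ 2 := hg
    have h2 := nS_sq_le g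
    have h3 := nS_pos g
    change nS g ≤ 5
    nlinarith
  have hc : Continuous xx := by
    have hcont : Continuous (fun g : SL2R => (g : Matrix (Fin 2) (Fin 2) ℝ)) :=
      continuous_subtype_val
    unfold xx
    exact (((((hcont.matrix_elem 0 0).pow 2).add ((hcont.matrix_elem 0 1).pow 2)).add
      ((hcont.matrix_elem 1 0).pow 2)).add ((hcont.matrix_elem 1 1).pow 2)).div_const 2
  have hU : IsOpen {g : SL2R | xx g < 2} := isOpen_lt hc continuous_const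
  have hpos : 0 < mH (Bx 2) := by
    refine lt_of_lt_of_le (mH_open_pos hU ⟨1, ?_⟩) (measure_mono ?_)
    · change xx 1 < 2
      rw [xx_one]; norm_num
    · intro g hg
      have hg' : xx g < 2 := hg
      exact le_of_lt hg'
  exact ENNReal.toReal_pos hpos.ne' hfin

/-- Points outside an invariant set play no role in `Wt`. -/
theorem Wt_inter {Z : Type*} [MeasurableSpace Z] {ζ : Measure Z} (a : PAct SL2R ζ)
    (W L : Set Z) (hL : ∀ g z, a.τ g z ∈ L ↔ z ∈ L) : Wt a (W ∩ L) = Wt a W ∩ L := by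
  ext y
  by_cases hy : y ∈ L
  · have e : ∀ c : SL2R, a.τ c⁻¹ y ∈ W ∩ L ↔ a.τ c⁻¹ y ∈ W := fun c =>
      ⟨fun h => h.1, fun h => ⟨h, (hL _ _).2 hy⟩⟩
    have e2 : {c : SL2R | a.τ c⁻¹ y ∈ W ∩ L} = {c : SL2R | a.τ c⁻¹ y ∈ W} := by
      ext c
      exact e c
    constructor
    · intro h
      refine ⟨?_, hy⟩
      have h1 : mH.real (Bx 2) / 2 ≤ mH.real (Bx 2 ∩ {c | a.τ c⁻¹ y ∈ W ∩ L}) := h
      rw [e2] at h1
      exact h1
    · rintro ⟨h, -⟩
      have h1 : mH.real (Bx 2) / 2 ≤ mH.real (Bx 2 ∩ {c | a.τ c⁻¹ y ∈ W}) := h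
      rw [← e2] at h1
      exact h1
  · have e : {c : SL2R | a.τ c⁻¹ y ∈ W ∩ L} = ∅ := by
      ext c
      simp only [mem_ofPred_eq, mem_empty_iff_false, iff_false]
      exact fun h => hy ((hL _ _).1 h.2)
    constructor
    · intro h
      exfalso
      have h1 : mH.real (Bx 2) / 2 ≤ mH.real (Bx 2 ∩ {c | a.τ c⁻¹ y ∈ W ∩ L}) := h
      rw [e, inter_empty, measureReal_empty] at h1
      linarith [mH_Bx_pos]
    · intro h
      exact absurd h.2 hy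

section gen

variable {X Z : Type} [MeasurableSpace X] [MeasurableSpace Z] {μ : Measure X}
  [IsProbabilityMeasure μ] {ζ : Measure Z} [SigmaFinite ζ]

/-- The hypothesis `h3` of part R0. -/
def H3 (a b : PAct SL2R ζ) (π : Z → X) (μ : Measure X) : Prop :=
  ∀ ε η : ℝ, 0 < ε → 0 < η → ∃ S : Set X, MeasurableSet S ∧ μ Sᶜ ≤ ENNReal.ofReal η ∧ ∃ C1 : ℝ,
    ∀ (F : BL2 ζ) (u p : SL2R), nS u ≤ 20 →
      ∫ z in Wt a (π ⁻¹' S), (((AA a b F : BL2 ζ) : Z → ℝ) (a.τ (u * p) z)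
          - ((AA a b F : BL2 ζ) : Z → ℝ) (a.τ p z)) ^ 2 ∂ζ
        ≤ C1 * (1 + Real.log (nS p)) * (frm ζ).B (DD a b F) (DD a b F)
          + ε * (frm ζ).B (DD a b F) F

theorem h3_gen (a b : PAct SL2R ζ) (hab : ∀ g h z, a.τ g (b.τ h z) = b.τ h (a.τ g z))
    (π : Z → X) (hπ : Measurable π) (L : Set Z) (hLm : MeasurableSet L) (hLae : ∀ᵐ z ∂ζ, z ∈ L)
    (hLinv : ∀ g z, a.τ g z ∈ L ↔ z ∈ L) (𝓕 : Fld μ)
    (hst : ∀ z ∈ L, ∀ h ∈ 𝓕.H (π z), a.τ h.1 (b.τ h.2 z) = z) : H3 a b π μ := by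
  intro ε η hε hη
  obtain ⟨εL, hεL, δV, hδV, hL⟩ := thmL
  obtain ⟨R0, hR⟩ := starR
  have hη4 : 0 < η / 4 := by positivity
  obtain ⟨T1, S1, hS1m, hS1, hF1⟩ := exh_free 𝓕 hεL hη4
  obtain ⟨T2, hT2, S2, hS2m, hS2, hF2⟩ := exh_dio 𝓕 hη4
  obtain ⟨T3, S3, hS3m, hS3, hF3⟩ := exh_den 𝓕 (R := 3) hδV hη4
  obtain ⟨T, hT⟩ : ∃ T, T = max T2 (max T1 T3) := ⟨_, rfl⟩
  have hT1T : T1 ≤ T := by rw [hT]; exact (le_max_left _ _).trans (le_max_right _ _)
  have hT2T : T2 ≤ T := by rw [hT]; exact le_max_left _ _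
  have hT3T : T3 ≤ T := by rw [hT]; exact (le_max_right _ _).trans (le_max_right _ _)
  obtain ⟨R', C, c, T', hc, hC, hloc⟩ := hL R0 T
  obtain ⟨δ, hδ, R1, hR1⟩ := hR ε hε R' C c T' hc
  obtain ⟨T4, S4, hS4m, hS4, hF4⟩ := exh_den 𝓕 (R := R1) hδ hη4
  obtain ⟨C1, hC1⟩ := hR1 T4
  -- the exceptional null set
  obtain ⟨S5, hS5m, hS5, hF5⟩ : ∃ S : Set X, MeasurableSet S ∧ μ Sᶜ = 0 ∧
      ∀ x ∈ S, InjT (𝓕.H x) := by
    refine ⟨(toMeasurable μ {x | ¬ InjT (𝓕.H x)})ᶜ, (measurableSet_toMeasurable _ _).compl, ?_, ?_⟩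
    · rw [compl_compl, measure_toMeasurable]
      exact ae_inj 𝓕
    · intro x hx
      by_contra hn
      exact hx (subset_toMeasurable _ _ hn)
  refine ⟨S1 ∩ S2 ∩ S3 ∩ S4 ∩ S5, (((hS1m.inter hS2m).inter hS3m).inter hS4m).inter hS5m, ?_,
    C1, ?_⟩
  · have e : (S1 ∩ S2 ∩ S3 ∩ S4 ∩ S5)ᶜ = S1ᶜ ∪ S2ᶜ ∪ S3ᶜ ∪ S4ᶜ ∪ S5ᶜ := by
      simp only [compl_inter]
    rw [e]
    refine (measure_union_le _ _).trans ?_
    rw [hS5, add_zero]
    refine (measure_union_le _ _).trans ?_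
    refine (add_le_add (measure_union_le _ _) le_rfl).trans ?_
    refine (add_le_add (add_le_add (measure_union_le _ _) le_rfl) le_rfl).trans ?_
    refine (add_le_add (add_le_add (add_le_add hS1 hS2) hS3) hS4).trans ?_
    rw [← ENNReal.ofReal_add hη4.le hη4.le, ← ENNReal.ofReal_add (by linarith) hη4.le,
      ← ENNReal.ofReal_add (by linarith) hη4.le]
    apply ENNReal.ofReal_le_ofReal
    linarith
  · intro F u p hu
    obtain ⟨S, hS⟩ : ∃ S, S = S1 ∩ S2 ∩ S3 ∩ S4 ∩ S5 := ⟨_, rfl⟩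
    have hSm : MeasurableSet S := by
      rw [hS]
      exact (((hS1m.inter hS2m).inter hS3m).inter hS4m).inter hS5m
    rw [← hS]
    have h1 := hC1 Z ζ a b hab (π ⁻¹' S ∩ L) ((hπ hSm).inter hLm) (by
      rintro z ⟨hz, hzL⟩
      have hz' : π z ∈ S1 ∩ S2 ∩ S3 ∩ S4 ∩ S5 := by rw [← hS]; exact hz
      obtain ⟨⟨⟨⟨z1, z2⟩, z3⟩, z4⟩, z5⟩ := hz'
      exact ⟨𝓕.H (π z), hst z hzL, hloc _ ((hF1 _ z1).mono hT1T) ((hF2 _ z2).mono hT2 hT2T)
        (hF5 _ z5) ((hF3 _ z3).mono hT3T), hF4 _ z4⟩) F u p hu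
    rw [Wt_inter a _ _ hLinv] at h1
    have h2 : (Wt a (π ⁻¹' S) ∩ L : Set Z) =ᵐ[ζ] (Wt a (π ⁻¹' S) : Set Z) := by
      filter_upwards [hLae] with z hz
      apply propext
      exact ⟨fun h => h.1, fun h => ⟨h, hz⟩⟩
    rw [setIntegral_congr_set h2] at h1
    exact h1

end gen

/-! ### The swapped field of subgroups -/

/-- The swap of the factors. -/
def sw : G2 →* G2 where
  toFun g := (g.2, g.1)
  map_one' := rfl
  map_mul' _ _ := rfl

@[simp] lemma sw_apply (g : G2) : sw g = (g.2, g.1) := rfl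

lemma sw_sw (g : G2) : sw (sw g) = g := rfl

lemma measurable_sw : Measurable sw := measurable_snd.prodMk measurable_fst

lemma continuous_sw : Continuous sw := continuous_snd.prodMk continuous_fst

section swap

variable {X : Type} [MeasurableSpace X] {μ : Measure X} [IsProbabilityMeasure μ]

lemma image_sw (H : Subgroup G2) : ((H.comap sw : Subgroup G2) : Set G2) = sw '' (H : Set G2) := by
  ext g
  constructor
  · intro hg
    exact ⟨sw g, hg, sw_sw g⟩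
  · rintro ⟨h, hh, rfl⟩
    change sw (sw h) ∈ H
    rw [sw_sw]
    exact hh

/-- The field with the factors exchanged. -/
noncomputable def swF (𝓕 : Fld μ) (hc : ∀ x, ((1, -1) : G2) ∈ 𝓕.H x) : Fld μ where
  A := 𝓕.A.comap sw measurable_sw
  H x := (𝓕.H x).comap sw
  closed x := (𝓕.closed x).preimage continuous_sw
  meas U hU := by
    have e : {x : X | (((𝓕.H x).comap sw : Set G2) ∩ U).Nonempty}
        = {x : X | ((𝓕.H x : Set G2) ∩ sw ⁻¹' U).Nonempty} := by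
      ext x
      constructor
      · rintro ⟨g, hg, hgU⟩
        exact ⟨sw g, hg, hgU⟩
      · rintro ⟨g, hg, hgU⟩
        exact ⟨sw g, hg, hgU⟩
    rw [e]
    exact 𝓕.meas _ (hU.preimage continuous_sw)
  equi g x h := 𝓕.equi (sw g) x (sw h)
  stab x h hh := 𝓕.stab x (sw h) hh
  cnt := by
    filter_upwards [𝓕.cnt] with x hx
    rw [image_sw]
    exact hx.image _
  fin := by
    filter_upwards [𝓕.fin] with x hx g
    have h1 := hx (sw g)
    let e : ((𝓕.H x).comap sw : Subgroup G2) ≃ 𝓕.H x :=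
      { toFun := fun h => ⟨sw h, h.2⟩
        invFun := fun h => ⟨sw h, h.2⟩
        left_inv := fun h => rfl
        right_inv := fun h => rfl }
    rw [← e.tsum_eq] at h1
    have h2 : ∀ h : ((𝓕.H x).comap sw : Subgroup G2),
        ENNReal.ofReal (q2 ((e h : G2) * sw g)) = ENNReal.ofReal (q2 ((h : G2) * g)) := by
      intro h
      congr 1
      change q2 (((h : G2).2, (h : G2).1) * (g.2, g.1)) = q2 ((h : G2) * g)
      unfold q2
      rw [mul_comm]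
      rfl
    rw [tsum_congr h2] at h1
    exact h1
  d1 := by
    filter_upwards [𝓕.d2] with x hx
    rw [image_sw, image_image]
    exact hx
  d2 := by
    filter_upwards [𝓕.d1] with x hx
    rw [image_sw, image_image]
    exact hx
  cent x := hc x
  erg S hS hinv := 𝓕.erg S hS fun g x => by
    have := hinv (sw g) x
    exact this

end swap

section fld

variable {X : Type} [MeasurableSpace X] {μ : Measure X} [IsProbabilityMeasure μ] (𝓕 : Fld μ)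

lemma LI_left (γ : G2) (z : X × Pool.Agent.IRS.CL G2) : 𝓕.LI (𝓕.left.τ γ z) ↔ 𝓕.LI z := by
  have key : ∀ (γ : G2) (z : X × Pool.Agent.IRS.CL G2), 𝓕.LI z → 𝓕.LI (𝓕.left.τ γ z) := by
    intro γ z hz h hh c hc
    change h * c ∈ (lC γ z.2).1
    have hc' : c ∈ (lC γ z.2).1 := hc
    rw [mem_lC] at hc' ⊢
    have hh' : h ∈ 𝓕.H (𝓕.A.τ γ z.1) := hh
    rw [𝓕.equi] at hh'
    have h1 := hz _ hh' _ hc'
    have e : γ⁻¹ * h * γ * (γ⁻¹ * c) = γ⁻¹ * (h * c) := by group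
    rwa [e] at h1
  constructor
  · intro h
    have h1 := key γ⁻¹ _ h
    rwa [𝓕.left.inv_apply] at h1
  · exact key γ z

/-- `h3` for a field of subgroups. -/
theorem h3_fld : H3 𝓕.aL 𝓕.bL (Prod.fst : X × Pool.Agent.IRS.CL G2 → X) μ := by
  refine h3_gen 𝓕.aL 𝓕.bL 𝓕.aL_bL _ measurable_fst {z | 𝓕.LI z} 𝓕.LI_meas 𝓕.LI_ae
    (fun g z => LI_left 𝓕 (j1 g) z) 𝓕 ?_
  intro z hz h hh
  have h1 := 𝓕.left_of_LI hz hh
  have h2 : 𝓕.left.τ h z = 𝓕.left.τ (j1 h.1) (𝓕.left.τ (j2 h.2) z) := by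
    rw [← 𝓕.left.mul, j12]
  rw [h2] at h1
  exact h1

/-- `h3'` for a field of subgroups. -/
theorem h3'_fld (hc : ∀ x, ((1, -1) : G2) ∈ 𝓕.H x) :
    H3 𝓕.bL 𝓕.aL (Prod.fst : X × Pool.Agent.IRS.CL G2 → X) μ := by
  refine h3_gen 𝓕.bL 𝓕.aL (fun g h z => (𝓕.aL_bL h g z).symm) _ measurable_fst {z | 𝓕.LI z}
    𝓕.LI_meas 𝓕.LI_ae (fun g z => LI_left 𝓕 (j2 g) z) (swF 𝓕 hc) ?_
  intro z hz h hh
  have hh' : sw h ∈ 𝓕.H z.1 := hh
  have h1 := 𝓕.left_of_LI hz hh'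
  have h2 : 𝓕.left.τ (sw h) z = 𝓕.left.τ (j2 h.1) (𝓕.left.τ (j1 h.2) z) := by
    rw [← 𝓕.left.mul]
    congr 1
    simp [j1_apply, j2_apply]
  rw [h2] at h1
  exact h1

end fld

end Pool.Agent.SZ
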