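import Mathlib
import Pool.Agent.SZ.Nuk

/-!
# SZ, part R0: definitions

`mK` is the law of one step of the operator `P`, `Nn` says nonnegative and integrable, `Ga` is
the energy density of one factor.
-/

set_option autoImplicit false

namespace Pool.Agent.SZ

open Pool.Agent.IRS MeasureTheory Set Filter Topology

/-- The law of one step of the operator `P`. -/
noncomputable def mK : Measure SL2R := (nuK.prod (nui nuK)).map (fun p => p.1 * p.2)

lemma meas_mulSL : Measurable (fun p : SL2R × SL2R => p.1 * p.2) := by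
  have h : Continuous (fun p : SL2R × SL2R => p.1 * p.2) := continuous_mul
  exact h.measurable

instance instProbmK : IsProbabilityMeasure mK :=
  Measure.isProbabilityMeasure_map meas_mulSL.aemeasurable

section

variable {Z : Type*} [MeasurableSpace Z] {ζ : Measure Z}

/-- Nonnegative and integrable. -/
def Nn (f : BL2 ζ) : Prop := (∀ z, 0 ≤ (f : Z → ℝ) z) ∧ Integrable (f : Z → ℝ) ζ

variable [SigmaFinite ζ]

/-- The energy density of one factor (bilinear form). -/
noncomputable def Ga (a : PAct SL2R ζ) (x y : BL2 ζ) : BL2 ζ :=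
  (2 : ℝ)⁻¹ • (a.P nuK (mulB x y) - mulB x (a.P nuK y) - mulB y (a.P nuK x) + mulB x y)

lemma Ga_apply (a : PAct SL2R ζ) (x y : BL2 ζ) (z : Z) :
    ((Ga a x y : BL2 ζ) : Z → ℝ) z = (2 : ℝ)⁻¹ * (((a.P nuK (mulB x y) : BL2 ζ) : Z → ℝ) z
      - (x : Z → ℝ) z * ((a.P nuK y : BL2 ζ) : Z → ℝ) z
      - (y : Z → ℝ) z * ((a.P nuK x : BL2 ζ) : Z → ℝ) z + (x : Z → ℝ) z * (y : Z → ℝ) z) := rfl

end

end Pool.Agent.SZ
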