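import Mathlib
import Pool.Agent.SZ.R0D

/-!
# SZ, part R0, module a: the law of one step

Proof. `P f = A (nui nuK) (A nuK f)` by `P_apply`, `A_apply` twice, then Fubini for the product
measure (`integral_map meas_mulSL`, `integral_prod` with a bounded measurable function, `a.mul`).
`mK_ae`: `nuK` is carried by `xx g ≤ 3` (density zero outside by `wp_zero`); for `xx g, xx h ≤ 3`
the sum of squares of the entries of `g h` is at most `6 * 6` (submultiplicativity of the
Frobenius norm, two by two: Cauchy-Schwarz for each entry), so `xx (g * h) ≤ 18` and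
`nS (g * h) ^ 2 ≤ 8 * 18 = 144` by `nS_sq_le`. `nui nuK` is carried by the same set (`xx_inv`).
-/

set_option autoImplicit false

namespace Pool.Agent.SZ

open Pool.Agent.IRS MeasureTheory Set Filter Topology

lemma R0a_xx_mul (g h : SL2R) : xx (g * h) ≤ 2 * xx g * xx h := by
  unfold xx
  simp only [SL_mul_apply]
  have c : ∀ a b x y : ℝ, (a * x + b * y) ^ 2 ≤ (a ^ 2 + b ^ 2) * (x ^ 2 + y ^ 2) := by
    intro a b x y
    nlinarith [sq_nonneg (a * y - b * x)]
  have h1 := c (g 0 0) (g 0 1) (h 0 0) (h 1 0)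
  have h2 := c (g 0 0) (g 0 1) (h 0 1) (h 1 1)
  have h3 := c (g 1 0) (g 1 1) (h 0 0) (h 1 0)
  have h4 := c (g 1 0) (g 1 1) (h 0 1) (h 1 1)
  linarith

lemma R0a_nuK_ae : ∀ᵐ g ∂nuK, xx g ≤ 3 := by
  unfold nuK
  rw [ae_withDensity_iff measurable_wd.ennreal_ofReal]
  filter_upwards with g hg
  by_contra hcon
  push Not at hcon
  apply hg
  unfold wd
  rw [wp_zero hcon.le, mul_zero, ENNReal.ofReal_zero]

lemma R0a_nui_ae : ∀ᵐ g ∂(nui nuK), xx g ≤ 3 := by
  unfold nui
  rw [ae_map_iff measurable_inv.aemeasurable (measurableSet_le measurable_xx measurable_const)]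
  filter_upwards [R0a_nuK_ae] with g hg
  rw [xx_inv]
  exact hg

theorem mK_ae : ∀ᵐ u ∂mK, nS u ≤ 12 := by
  unfold mK
  rw [ae_map_iff meas_mulSL.aemeasurable (measurableSet_le measurable_nS measurable_const)]
  have h1 : ∀ᵐ p ∂(nuK.prod (nui nuK)), xx p.1 ≤ 3 :=
    Measure.quasiMeasurePreserving_fst.ae R0a_nuK_ae
  have h2 : ∀ᵐ p ∂(nuK.prod (nui nuK)), xx p.2 ≤ 3 :=
    Measure.quasiMeasurePreserving_snd.ae R0a_nui_ae
  filter_upwards [h1, h2] with p hp1 hp2
  have h3 := R0a_xx_mul p.1 p.2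
  have h4 := nS_sq_le (p.1 * p.2)
  have h5 := xx_nonneg p.1
  have h6 := xx_nonneg p.2
  have h7 : 2 * xx p.1 * xx p.2 ≤ 18 := by nlinarith
  have h8 : nS (p.1 * p.2) ^ 2 ≤ 12 ^ 2 := by linarith
  exact le_of_sq_le_sq h8 (by norm_num)

theorem P_law {Z : Type*} [MeasurableSpace Z] {ζ : Measure Z} [SigmaFinite ζ]
    (a : PAct SL2R ζ) (f : BL2 ζ) (z : Z) :
    ((a.P nuK f : BL2 ζ) : Z → ℝ) z = ∫ u, (f : Z → ℝ) (a.τ u z) ∂mK := by
  rw [a.P_apply, a.A_apply]
  simp_rw [a.A_apply]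
  unfold mK
  have hm : Measurable (fun u : SL2R => (f : Z → ℝ) (a.τ u z)) := a.meas_sec (bmeas f) z
  rw [integral_map meas_mulSL.aemeasurable hm.aestronglyMeasurable]
  obtain ⟨M, hM⟩ := bbdd f
  have hi : Integrable (fun p : SL2R × SL2R => (f : Z → ℝ) (a.τ (p.1 * p.2) z))
      (nuK.prod (nui nuK)) :=
    integrable_of_bdd _ (hm.comp meas_mulSL) fun p => hM _
  rw [integral_prod_symm _ hi]
  refine integral_congr_ae ?_
  filter_upwards with h
  refine integral_congr_ae ?_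
  filter_upwards with g
  rw [a.mul]

end Pool.Agent.SZ
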