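import Mathlib
import Pool.Agent.SZ.R0a

/-!
# SZ, part R0, module b: Markov properties of `P`

Proof. All from `P_law` (average over a probability measure). `P_sq` is `sq_integral_le`.
`P_nn`: `f` nonnegative integrable; `(u, z) ↦ f (a.τ u z)` is integrable for `mK.prod ζ`
(as in `PAct.sq_prod_int`: all the sections have the integral of `f`), then
`integral_prod_right`, `integral_integral_swap` and `a.integral_comp`. The statements for the
powers by induction (`pow_succ'`, `Module.End.mul_apply`).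
-/

set_option autoImplicit false

namespace Pool.Agent.SZ

open Pool.Agent.IRS MeasureTheory Set Filter Topology

variable {Z : Type*} [MeasurableSpace Z] {ζ : Measure Z} [SigmaFinite ζ] (a : PAct SL2R ζ)

private lemma sec_int (f : BL2 ζ) (z : Z) :
    Integrable (fun u : SL2R => (f : Z → ℝ) (a.τ u z)) mK := by
  obtain ⟨M, hM⟩ := bbdd f
  exact integrable_of_bdd mK (a.meas_sec (bmeas f) z) fun g => hM _

theorem P_ge {f : BL2 ζ} {c : ℝ} (h : ∀ z, c ≤ (f : Z → ℝ) z) (z : Z) :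
    c ≤ ((a.P nuK f : BL2 ζ) : Z → ℝ) z := by
  rw [P_law]
  calc c = ∫ _u : SL2R, c ∂mK := by simp
    _ ≤ _ := integral_mono (integrable_const _) (sec_int a f z) fun u => h _

theorem P_mono {f g : BL2 ζ} (h : ∀ z, (f : Z → ℝ) z ≤ (g : Z → ℝ) z) (z : Z) :
    ((a.P nuK f : BL2 ζ) : Z → ℝ) z ≤ ((a.P nuK g : BL2 ζ) : Z → ℝ) z := by
  rw [P_law, P_law]
  exact integral_mono (sec_int a f z) (sec_int a g z) fun u => h _

theorem Pow_mono (k : ℕ) {f g : BL2 ζ} (h : ∀ z, (f : Z → ℝ) z ≤ (g : Z → ℝ) z) (z : Z) :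
    ((((a.P nuK) ^ k) f : BL2 ζ) : Z → ℝ) z ≤ ((((a.P nuK) ^ k) g : BL2 ζ) : Z → ℝ) z := by
  induction k generalizing z with
  | zero => simpa using h z
  | succ k ih =>
    rw [pow_succ', Module.End.mul_apply, Module.End.mul_apply]
    exact P_mono a ih z

theorem P_sq (f : BL2 ζ) (z : Z) :
    ((a.P nuK f : BL2 ζ) : Z → ℝ) z ^ 2 ≤ ((a.P nuK (mulB f f) : BL2 ζ) : Z → ℝ) z := by
  rw [P_law, P_law]
  have e : (fun u : SL2R => ((mulB f f : BL2 ζ) : Z → ℝ) (a.τ u z))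
      = fun u => (f : Z → ℝ) (a.τ u z) ^ 2 := by
    funext u
    rw [mulB_apply]
    ring
  rw [e]
  refine sq_integral_le mK (sec_int a f z) ?_
  rw [← e]
  exact sec_int a (mulB f f) z

private lemma prod_int {f : BL2 ζ} (h : Integrable (f : Z → ℝ) ζ) :
    Integrable (fun p : SL2R × Z => (f : Z → ℝ) (a.τ p.1 p.2)) (mK.prod ζ) := by
  rw [integrable_prod_iff (a.meas_comp (bmeas f)).aestronglyMeasurable]
  refine ⟨?_, ?_⟩
  · filter_upwards with g
    exact (a.mp g).integrable_comp_of_integrable h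
  · have : (fun g : SL2R => ∫ z, ‖(f : Z → ℝ) (a.τ g z)‖ ∂ζ)
        = fun _ => ∫ z, |(f : Z → ℝ) z| ∂ζ := by
      ext g
      simp only [Real.norm_eq_abs]
      exact a.integral_comp g (F := fun z => |(f : Z → ℝ) z|) (bmeas f).abs
    rw [this]
    exact integrable_const _

theorem P_nn {f : BL2 ζ} (h : Nn f) : Nn (a.P nuK f) ∧
    ∫ z, ((a.P nuK f : BL2 ζ) : Z → ℝ) z ∂ζ = ∫ z, (f : Z → ℝ) z ∂ζ := by
  have e : ((a.P nuK f : BL2 ζ) : Z → ℝ) = fun z => ∫ u, (f : Z → ℝ) (a.τ u z) ∂mK := by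
    funext z
    exact P_law a f z
  have hp := prod_int a h.2
  refine ⟨⟨fun z => P_ge a h.1 z, ?_⟩, ?_⟩
  · rw [e]
    exact hp.integral_prod_right
  · rw [e]
    have h1 : ∫ z, ∫ u, (f : Z → ℝ) (a.τ u z) ∂mK ∂ζ = ∫ u, ∫ z, (f : Z → ℝ) (a.τ u z) ∂ζ ∂mK :=
      (integral_integral_swap (f := fun u z => (f : Z → ℝ) (a.τ u z)) hp).symm
    rw [h1]
    have h2 : (fun u : SL2R => ∫ z, (f : Z → ℝ) (a.τ u z) ∂ζ) = fun _ => ∫ z, (f : Z → ℝ) z ∂ζ := by
      funext u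
      exact a.integral_comp u (bmeas f)
    rw [h2]
    simp

theorem Pow_nn (k : ℕ) {f : BL2 ζ} (h : Nn f) : Nn (((a.P nuK) ^ k) f) ∧
    ∫ z, ((((a.P nuK) ^ k) f : BL2 ζ) : Z → ℝ) z ∂ζ = ∫ z, (f : Z → ℝ) z ∂ζ := by
  induction k with
  | zero => exact ⟨by simpa using h, by simp⟩
  | succ k ih =>
    rw [pow_succ', Module.End.mul_apply]
    obtain ⟨h1, h2⟩ := P_nn a ih.1
    exact ⟨h1, h2.trans ih.2⟩

end Pool.Agent.SZ
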