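import Mathlib
import Pool.Agent.SZ.R0b

/-!
# SZ, part R0, module c: the energy density of one factor

Proof. `Ga_eq`: `P_law` for `mulB x y`, `x`, `y`, linearity of the integral over the probability
measure `mK` (everything is bounded and measurable: `integrable_of_bdd`, `a.meas_sec`).
`Ga_nonneg`, `Ga_expand`, `Ga_add_le` follow from `Ga_eq` (or from `Ga_apply` and linearity of
`P`; for `Ga_add_le` use `Ga (x + y) (x + y) + Ga (x - y) (x - y) = 2 Ga x x + 2 Ga y y`).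
`Ga_int`: `Ga_apply`; `x * y`, `x * P y`, `y * P x` are integrable (`bmul`), and `P (mulB x y)` is
integrable with integral `∫ x y`: write `x y = ((x + y)^2 - x^2 - y^2) / 2` and use `P_nn` for the
squares (`mulB f f` is `Nn`). Then `∫ Ga x y = (1/2) (⟨x,y⟩ - ⟨x, P y⟩ - ⟨y, P x⟩ + ⟨x,y⟩)` and `P` is
symmetric (`(a.P_pos nuK).symm`).
-/

set_option autoImplicit false

namespace Pool.Agent.SZ

open Pool.Agent.IRS MeasureTheory Set Filter Topology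

variable {Z : Type*} [MeasurableSpace Z] {ζ : Measure Z} [SigmaFinite ζ] (a : PAct SL2R ζ)

theorem Ga_eq (x y : BL2 ζ) (z : Z) : ((Ga a x y : BL2 ζ) : Z → ℝ) z
    = (2 : ℝ)⁻¹ * ∫ u, ((x : Z → ℝ) (a.τ u z) - (x : Z → ℝ) z)
        * ((y : Z → ℝ) (a.τ u z) - (y : Z → ℝ) z) ∂mK := by
  obtain ⟨M, hM⟩ := bbdd x
  obtain ⟨N, hN⟩ := bbdd y
  have hx : Measurable (fun u : SL2R => (x : Z → ℝ) (a.τ u z)) := a.meas_sec (bmeas x) z
  have hy : Measurable (fun u : SL2R => (y : Z → ℝ) (a.τ u z)) := a.meas_sec (bmeas y) z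
  have ix : Integrable (fun u : SL2R => (x : Z → ℝ) (a.τ u z)) mK :=
    integrable_of_bdd mK hx (fun u => hM (a.τ u z))
  have iy : Integrable (fun u : SL2R => (y : Z → ℝ) (a.τ u z)) mK :=
    integrable_of_bdd mK hy (fun u => hN (a.τ u z))
  have ixy : Integrable (fun u : SL2R => (x : Z → ℝ) (a.τ u z) * (y : Z → ℝ) (a.τ u z)) mK := by
    refine integrable_of_bdd mK (hx.mul hy) (M := M * N) (fun u => ?_)
    rw [abs_mul]
    exact mul_le_mul (hM _) (hN _) (abs_nonneg _) ((abs_nonneg _).trans (hM (a.τ u z)))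
  rw [Ga_apply, P_law, P_law, P_law]
  congr 1
  have e : (fun u : SL2R => ((x : Z → ℝ) (a.τ u z) - (x : Z → ℝ) z)
        * ((y : Z → ℝ) (a.τ u z) - (y : Z → ℝ) z))
      = fun u => (x : Z → ℝ) (a.τ u z) * (y : Z → ℝ) (a.τ u z)
        - (x : Z → ℝ) z * (y : Z → ℝ) (a.τ u z) - (y : Z → ℝ) z * (x : Z → ℝ) (a.τ u z)
        + (x : Z → ℝ) z * (y : Z → ℝ) z := by
    funext u; ring
  have i1 : Integrable (fun u : SL2R => (x : Z → ℝ) z * (y : Z → ℝ) (a.τ u z)) mK :=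
    iy.const_mul _
  have i2 : Integrable (fun u : SL2R => (y : Z → ℝ) z * (x : Z → ℝ) (a.τ u z)) mK :=
    ix.const_mul _
  have i3 : Integrable (fun u : SL2R => (x : Z → ℝ) (a.τ u z) * (y : Z → ℝ) (a.τ u z)
      - (x : Z → ℝ) z * (y : Z → ℝ) (a.τ u z)) mK := ixy.sub i1
  have i4 : Integrable (fun u : SL2R => (x : Z → ℝ) (a.τ u z) * (y : Z → ℝ) (a.τ u z)
      - (x : Z → ℝ) z * (y : Z → ℝ) (a.τ u z) - (y : Z → ℝ) z * (x : Z → ℝ) (a.τ u z)) mK :=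
    i3.sub i2
  rw [e, integral_add i4 (integrable_const _), integral_sub i3 i2, integral_sub ixy i1,
    integral_const_mul, integral_const_mul, integral_const]
  simp only [mulB_apply, probReal_univ, one_smul]

theorem Ga_nonneg (x : BL2 ζ) (z : Z) : 0 ≤ ((Ga a x x : BL2 ζ) : Z → ℝ) z := by
  rw [Ga_eq]
  exact mul_nonneg (by norm_num) (integral_nonneg fun u => mul_self_nonneg _)

theorem Ga_expand (x y : BL2 ζ) (c : ℝ) (z : Z) :
    ((Ga a (x - c • y) (x - c • y) : BL2 ζ) : Z → ℝ) z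
      = ((Ga a x x : BL2 ζ) : Z → ℝ) z - 2 * c * ((Ga a x y : BL2 ζ) : Z → ℝ) z
        + c ^ 2 * ((Ga a y y : BL2 ζ) : Z → ℝ) z := by
  have h1 : mulB (x - c • y) (x - c • y)
      = mulB x x - (2 * c) • mulB x y + (c ^ 2) • mulB y y := by
    apply Subtype.ext
    funext w
    simp only [mulB_apply, Submodule.coe_add, Submodule.coe_sub, Submodule.coe_smul,
      Pi.add_apply, Pi.sub_apply, Pi.smul_apply, smul_eq_mul]
    ring
  rw [Ga_apply, Ga_apply, Ga_apply, Ga_apply, h1]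
  simp only [map_add, map_sub, map_smul, Submodule.coe_add, Submodule.coe_sub,
    Submodule.coe_smul, Pi.add_apply, Pi.sub_apply, Pi.smul_apply, smul_eq_mul]
  ring

theorem Ga_add_le (x y : BL2 ζ) (z : Z) : ((Ga a (x + y) (x + y) : BL2 ζ) : Z → ℝ) z
    ≤ 2 * ((Ga a x x : BL2 ζ) : Z → ℝ) z + 2 * ((Ga a y y : BL2 ζ) : Z → ℝ) z := by
  have h1 := Ga_expand a x y (-1) z
  have h2 := Ga_expand a x y 1 z
  have h3 := Ga_nonneg a (x - (1 : ℝ) • y) z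
  have e : x - (-1 : ℝ) • y = x + y := by
    apply Subtype.ext
    funext w
    simp only [Submodule.coe_sub, Submodule.coe_smul, Submodule.coe_add, Pi.sub_apply,
      Pi.add_apply, Pi.smul_apply, smul_eq_mul]
    ring
  rw [e] at h1
  rw [h2] at h3
  rw [h1]
  linarith

theorem Nn_sq (f : BL2 ζ) : Nn (mulB f f) := ⟨fun _ => mul_self_nonneg _, bmul f f⟩

theorem P_mul_int (x y : BL2 ζ) : Integrable ((a.P nuK (mulB x y) : BL2 ζ) : Z → ℝ) ζ ∧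
    ∫ z, ((a.P nuK (mulB x y) : BL2 ζ) : Z → ℝ) z ∂ζ
      = ∫ z, (x : Z → ℝ) z * (y : Z → ℝ) z ∂ζ := by
  have h1 : mulB x y = (2 : ℝ)⁻¹ • (mulB (x + y) (x + y) - mulB x x - mulB y y) := by
    apply Subtype.ext
    funext w
    simp only [mulB_apply, Submodule.coe_add, Submodule.coe_sub, Submodule.coe_smul,
      Pi.add_apply, Pi.sub_apply, Pi.smul_apply, smul_eq_mul]
    ring
  obtain ⟨p1, q1⟩ := P_nn a (Nn_sq (x + y))
  obtain ⟨p2, q2⟩ := P_nn a (Nn_sq x)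
  obtain ⟨p3, q3⟩ := P_nn a (Nn_sq y)
  have e1 : ((a.P nuK (mulB x y) : BL2 ζ) : Z → ℝ) = fun z => (2 : ℝ)⁻¹ *
      (((a.P nuK (mulB (x + y) (x + y)) : BL2 ζ) : Z → ℝ) z
        - ((a.P nuK (mulB x x) : BL2 ζ) : Z → ℝ) z
        - ((a.P nuK (mulB y y) : BL2 ζ) : Z → ℝ) z) := by
    funext z
    rw [h1]
    simp only [map_sub, map_smul, Submodule.coe_sub,
      Submodule.coe_smul, Pi.sub_apply, Pi.smul_apply, smul_eq_mul]
  have e2 : (fun z => (x : Z → ℝ) z * (y : Z → ℝ) z) = fun z => (2 : ℝ)⁻¹ *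
      (((mulB (x + y) (x + y) : BL2 ζ) : Z → ℝ) z - ((mulB x x : BL2 ζ) : Z → ℝ) z
        - ((mulB y y : BL2 ζ) : Z → ℝ) z) := by
    funext z
    simp only [mulB_apply, Submodule.coe_add, Pi.add_apply]
    ring
  have j12 : Integrable (fun z => ((a.P nuK (mulB (x + y) (x + y)) : BL2 ζ) : Z → ℝ) z
        - ((a.P nuK (mulB x x) : BL2 ζ) : Z → ℝ) z) ζ := p1.2.sub p2.2
  have k12 : Integrable (fun z => ((mulB (x + y) (x + y) : BL2 ζ) : Z → ℝ) z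
        - ((mulB x x : BL2 ζ) : Z → ℝ) z) ζ := (Nn_sq (x + y)).2.sub (Nn_sq x).2
  refine ⟨?_, ?_⟩
  · rw [e1]
    exact (j12.sub p3.2).const_mul _
  · rw [e1, e2, integral_const_mul, integral_const_mul, integral_sub j12 p3.2,
      integral_sub p1.2 p2.2, integral_sub k12 (Nn_sq y).2,
      integral_sub (Nn_sq (x + y)).2 (Nn_sq x).2, q1, q2, q3]

theorem Ga_int (x y : BL2 ζ) : Integrable ((Ga a x y : BL2 ζ) : Z → ℝ) ζ ∧
    ∫ z, ((Ga a x y : BL2 ζ) : Z → ℝ) z ∂ζ = (frm ζ).B (x - a.P nuK x) y := by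
  obtain ⟨h1, h2⟩ := P_mul_int a x y
  have hf : ((Ga a x y : BL2 ζ) : Z → ℝ) = fun z =>
      (2 : ℝ)⁻¹ * (((a.P nuK (mulB x y) : BL2 ζ) : Z → ℝ) z
      - (x : Z → ℝ) z * ((a.P nuK y : BL2 ζ) : Z → ℝ) z
      - (y : Z → ℝ) z * ((a.P nuK x : BL2 ζ) : Z → ℝ) z + (x : Z → ℝ) z * (y : Z → ℝ) z) := by
    funext z
    exact Ga_apply a x y z
  have b1 : Integrable (fun z => (x : Z → ℝ) z * ((a.P nuK y : BL2 ζ) : Z → ℝ) z) ζ :=
    bmul x (a.P nuK y)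
  have b2 : Integrable (fun z => (y : Z → ℝ) z * ((a.P nuK x : BL2 ζ) : Z → ℝ) z) ζ :=
    bmul y (a.P nuK x)
  have b3 : Integrable (fun z => (x : Z → ℝ) z * (y : Z → ℝ) z) ζ := bmul x y
  have c1 : Integrable (fun z => ((a.P nuK (mulB x y) : BL2 ζ) : Z → ℝ) z
      - (x : Z → ℝ) z * ((a.P nuK y : BL2 ζ) : Z → ℝ) z) ζ := h1.sub b1
  have c2 : Integrable (fun z => ((a.P nuK (mulB x y) : BL2 ζ) : Z → ℝ) z
      - (x : Z → ℝ) z * ((a.P nuK y : BL2 ζ) : Z → ℝ) z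
      - (y : Z → ℝ) z * ((a.P nuK x : BL2 ζ) : Z → ℝ) z) ζ := c1.sub b2
  refine ⟨?_, ?_⟩
  · rw [hf]
    exact (c2.add b3).const_mul _
  · rw [hf, integral_const_mul, integral_add c2 b3, integral_sub c1 b2, integral_sub h1 b1, h2]
    have s1 : (frm ζ).B (a.P nuK x) y = (frm ζ).B x (a.P nuK y) := (a.P_pos nuK).symm x y
    have s2 : (frm ζ).B (a.P nuK x) y = ∫ z, (y : Z → ℝ) z * ((a.P nuK x : BL2 ζ) : Z → ℝ) z ∂ζ := by
      rw [(frm ζ).symm, frm_apply]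
    have s3 : (frm ζ).B x (a.P nuK y)
        = ∫ z, (x : Z → ℝ) z * ((a.P nuK y : BL2 ζ) : Z → ℝ) z ∂ζ := frm_apply _ _
    have s4 : (frm ζ).B x y = ∫ z, (x : Z → ℝ) z * (y : Z → ℝ) z ∂ζ := frm_apply _ _
    rw [map_sub, LinearMap.sub_apply, ← s2, ← s3, ← s4, ← s1]
    ring

theorem Ga_nn (x : BL2 ζ) : Nn (Ga a x x) :=
  ⟨Ga_nonneg a x, (Ga_int a x x).1⟩

end Pool.Agent.SZ
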