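import Mathlib
import Pool.Agent.SZ.R0c

/-!
# SZ, part R0, module e: averaging in the second factor contracts the energy density

Proof. `Ga_P_le`. By `Ga_eq` the left side is `(1/2) ∫ ((P_b x)(a u z) - (P_b x)(z))^2 dmK(u)`. Since the
actions commute, `(P_b x)(a u z) - (P_b x)(z) = ∫ (x (a u (b q z)) - x (b q z)) dmK(q)` (`P_law` for `b`), so
the square is at most `∫ (x (a u (b q z)) - x (b q z))^2 dmK(q)` (`sq_integral_le`); exchange the two
integrals (bounded measurable function on a product of two probability measures; measurability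
of `(u, q) ↦ x (a.τ u (b.τ q z))` as in `PAct.A_comm`), and use `Ga_eq` at the points `b q z` and
`P_law` for `b`. `Ga_Pow_le`: induction with `Pow_mono` (or `P_mono`):
`Ga (P^(k+1) x) = Ga (P (P^k x)) ≤ P (Ga (P^k x)) ≤ P (P^k (Ga x))`.
-/

set_option autoImplicit false

namespace Pool.Agent.SZ

open Pool.Agent.IRS MeasureTheory Set Filter Topology

variable {Z : Type*} [MeasurableSpace Z] {ζ : Measure Z} [SigmaFinite ζ] (a b : PAct SL2R ζ)
  (hab : ∀ g h z, a.τ g (b.τ h z) = b.τ h (a.τ g z))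

include hab in
theorem Ga_P_le (x : BL2 ζ) (z : Z) :
    ((Ga a (b.P nuK x) (b.P nuK x) : BL2 ζ) : Z → ℝ) z
      ≤ ((b.P nuK (Ga a x x) : BL2 ζ) : Z → ℝ) z := by
  obtain ⟨M, hM⟩ := bbdd x
  set D : SL2R × SL2R → ℝ := fun p =>
    (x : Z → ℝ) (a.τ p.1 (b.τ p.2 z)) - (x : Z → ℝ) (b.τ p.2 z) with hD
  have hDm : Measurable D := by
    refine Measurable.sub ?_ ?_
    · refine (bmeas x).comp (a.meas.comp (measurable_fst.prodMk ?_))
      exact b.meas.comp (measurable_snd.prodMk measurable_const)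
    · exact (bmeas x).comp (b.meas.comp (measurable_snd.prodMk measurable_const))
  have hDb : ∀ p, |D p| ≤ M + M := fun p =>
    (abs_sub _ _).trans (add_le_add (hM _) (hM _))
  have hD2m : Measurable (fun p => D p ^ 2) := hDm.pow_const 2
  have hD2b : ∀ p, |D p ^ 2| ≤ (M + M) ^ 2 := fun p => by
    rw [abs_pow]
    exact pow_le_pow_left₀ (abs_nonneg _) (hDb p) 2
  have hsec : ∀ u, Measurable (fun q => D (u, q)) := fun u =>
    hDm.comp (measurable_const.prodMk measurable_id)
  have hsec' : ∀ q, Measurable (fun u => D (u, q)) := fun q =>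
    hDm.comp (measurable_id.prodMk measurable_const)
  -- the difference of the averages
  have h1 : ∀ u, ((b.P nuK x : BL2 ζ) : Z → ℝ) (a.τ u z) - ((b.P nuK x : BL2 ζ) : Z → ℝ) z
      = ∫ q, D (u, q) ∂mK := by
    intro u
    rw [P_law b x, P_law b x, ← integral_sub]
    · refine integral_congr_ae (Filter.Eventually.of_forall fun q => ?_)
      simp only [hD, hab]
    · exact integrable_of_bdd mK (b.meas_sec (bmeas x) _) (fun q => hM _)
    · exact integrable_of_bdd mK (b.meas_sec (bmeas x) _) (fun q => hM _)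
  have h2 : ∀ u, (∫ q, D (u, q) ∂mK) ^ 2 ≤ ∫ q, D (u, q) ^ 2 ∂mK := fun u =>
    sq_integral_le mK (integrable_of_bdd mK (hsec u) (fun q => hDb _))
      (integrable_of_bdd mK ((hsec u).pow_const 2) (fun q => hD2b _))
  have hint : Integrable (fun p => D p ^ 2) (mK.prod mK) :=
    integrable_of_bdd (mK.prod mK) hD2m hD2b
  have h3 : ∫ u, ∫ q, D (u, q) ^ 2 ∂mK ∂mK = ∫ q, ∫ u, D (u, q) ^ 2 ∂mK ∂mK :=
    integral_integral_swap (f := fun u q => D (u, q) ^ 2) hint
  have h4 : ((Ga a (b.P nuK x) (b.P nuK x) : BL2 ζ) : Z → ℝ) z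
      = (2 : ℝ)⁻¹ * ∫ u, (∫ q, D (u, q) ∂mK) ^ 2 ∂mK := by
    rw [Ga_eq]
    congr 1
    refine integral_congr_ae (Filter.Eventually.of_forall fun u => ?_)
    simp only [h1, sq]
  have h5 : ((b.P nuK (Ga a x x) : BL2 ζ) : Z → ℝ) z
      = (2 : ℝ)⁻¹ * ∫ q, ∫ u, D (u, q) ^ 2 ∂mK ∂mK := by
    rw [P_law b, ← integral_const_mul]
    refine integral_congr_ae (Filter.Eventually.of_forall fun q => ?_)
    simp only [Ga_eq]
    congr 1
    refine integral_congr_ae (Filter.Eventually.of_forall fun u => ?_)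
    simp only [hD, sq]
  rw [h4, h5, ← h3]
  refine mul_le_mul_of_nonneg_left ?_ (by norm_num)
  have hm1 : Measurable (fun u => ∫ q, D (u, q) ∂mK) :=
    hDm.stronglyMeasurable.integral_prod_right.measurable
  refine integral_mono ?_ ?_ h2
  · refine integrable_of_bdd mK (hm1.pow_const 2) (M := (M + M) ^ 2) (fun u => ?_)
    rw [abs_pow]
    refine pow_le_pow_left₀ (abs_nonneg _) ?_ 2
    have := norm_integral_le_of_norm_le_const (μ := mK) (f := fun q => D (u, q)) (C := M + M)
      (Filter.Eventually.of_forall fun q => by simpa using hDb (u, q))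
    simpa using this
  · exact hint.integral_prod_left

include hab in
theorem Ga_Pow_le (k : ℕ) (x : BL2 ζ) (z : Z) :
    ((Ga a (((b.P nuK) ^ k) x) (((b.P nuK) ^ k) x) : BL2 ζ) : Z → ℝ) z
      ≤ ((((b.P nuK) ^ k) (Ga a x x) : BL2 ζ) : Z → ℝ) z := by
  induction k generalizing z with
  | zero => simp
  | succ k ih =>
    rw [pow_succ', Module.End.mul_apply, Module.End.mul_apply]
    exact (Ga_P_le a b hab _ z).trans (P_mono b ih z)

end Pool.Agent.SZ
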