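import Mathlib
import Pool.Agent.SZ.R0D

/-!
# SZ, part R0, module h: operator inequalities

Proof. Let `P, Q` be a commuting pair of operators between `0` and `1` (`CPair`). All products of
`P, Q, 1 - P, 1 - Q` are positive (`good_P`, `good_Q`, `good_P'`, `good_Q'`, see the proofs of `em_P_le`,
`em_decay` in `Pool/Agent/IRS/Spec.lean`).
`em_pow_le`: the difference is `⟨(1-P)(1-Q^k) x, x⟩ = Σ_{i<k} ⟨(1-P) Q^i (1-Q) x, x⟩`, each term at most
`⟨(1-P)(1-Q) x, x⟩` (induction on `i`, `(1-P) Q^i (1-Q)^2` is positive).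
`em_le_sq`: `(1-PQ)^2 - (1-P)(1-Q) = Q(1-P)^2 + P(1-Q)^2 + P Q (1-P)(1-Q)` is positive, and the
left side of the quadratic form of `(1-PQ)^2` is `B (x - P (Q x)) (x - P (Q x))`.
`em_AA_le`: `em (P (Q x)) ≤ em x` by `em_P_le`, `em_Q_le`.
-/

set_option autoImplicit false

namespace Pool.Agent.SZ

open Pool.Agent.IRS MeasureTheory Set Filter Topology

section

variable {V : Type*} [AddCommGroup V] [Module ℝ V] {F : PSForm V} {P Q : Module.End ℝ V}

theorem em_pow_le (h : CPair F P Q) (k : ℕ) (x : V) :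
    F.B (x - P x) x - F.B (x - P x) ((Q ^ k) x) ≤ k * CPair.em F P Q x := by
  set K : Module.End ℝ V := (1 - P) * 1 with hK
  have gK : CPair.Good F P Q K := h.good_P' CPair.good_one
  have hKx : K x = x - P x := by simp [hK]
  set φ : ℕ → ℝ := fun n => F.B ((Q ^ n * ((1 - Q) * K)) x) x with hφ
  have hstep : ∀ n, φ (n + 1) ≤ φ n := by
    intro n
    have h1 := (h.good_Qpow (h.good_Q' (h.good_Q' gK)) n).1.nonneg x
    have h2 : (Q ^ n * ((1 - Q) * ((1 - Q) * K))) x
        = (Q ^ n * ((1 - Q) * K)) x - (Q ^ (n + 1) * ((1 - Q) * K)) x := by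
      rw [pow_succ]
      simp only [Module.End.mul_apply, LinearMap.sub_apply, Module.End.one_apply, map_sub]
    rw [h2] at h1
    simp only [map_sub, LinearMap.sub_apply] at h1
    simp only [hφ]
    linarith
  have hanti : Antitone φ := antitone_nat_of_succ_le hstep
  have hsum : ∀ N : ℕ, ∑ j ∈ Finset.range N, φ j = F.B (K x) x - F.B ((Q ^ N * K) x) x := by
    intro N
    induction N with
    | zero => simp
    | succ N ih =>
      rw [Finset.sum_range_succ, ih]
      have h2 : (Q ^ N * ((1 - Q) * K)) x = (Q ^ N * K) x - (Q ^ (N + 1) * K) x := by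
        rw [pow_succ]
        simp only [Module.End.mul_apply, LinearMap.sub_apply, Module.End.one_apply, map_sub]
      simp only [hφ]
      rw [h2]
      simp only [map_sub, LinearMap.sub_apply]
      ring
  have h0 : φ 0 = CPair.em F P Q x := by
    rw [← h.swap.em_comm]
    simp [hφ, CPair.em, hK]
  have h1 : ∑ j ∈ Finset.range k, φ j ≤ k * φ 0 := by
    have : ∑ j ∈ Finset.range k, φ j ≤ ∑ _j ∈ Finset.range k, φ 0 :=
      Finset.sum_le_sum fun j _ => hanti (Nat.zero_le j)
    simpa using this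
  rw [hsum k, h0] at h1
  have h3 : F.B ((Q ^ k * K) x) x = F.B (x - P x) ((Q ^ k) x) := by
    rw [Module.End.mul_apply, h.pow_symm_Q, hKx]
  rw [h3, hKx] at h1
  exact h1

theorem em_le_sq (h : CPair F P Q) (x : V) :
    CPair.em F P Q x ≤ F.B (x - P (Q x)) (x - P (Q x)) := by
  have h1 := (h.good_Q (h.good_P' (h.good_P' CPair.good_one))).1.nonneg x
  have h2 := (h.good_P (h.good_Q' (h.good_Q' CPair.good_one))).1.nonneg x
  have h3 := (h.good_P (h.good_Q (h.good_P' (h.good_Q' CPair.good_one)))).1.nonneg x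
  simp only [CPair.em, map_sub, map_add, LinearMap.sub_apply, Module.End.one_apply,
    Module.End.mul_apply, h.rP, h.rQ, h.cPQ] at h1 h2 h3 ⊢
  linarith

theorem em_PQ_le (h : CPair F P Q) (x : V) : CPair.em F P Q (P (Q x)) ≤ CPair.em F P Q x :=
  (h.em_P_le (Q x)).trans (h.em_Q_le x)

end

end Pool.Agent.SZ
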