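import Mathlib
import Pool.Agent.SZ.R0e
import Pool.Agent.SZ.R0h

/-!
# SZ, part R0, module f: replacing the second factor average by a remainder

Proof. Let `M = P_b ^ k` and `R = M (Ga x x) + Ga x x - 2 Ga x (M x)` (in `BL2`). With
`g = Ga x x`, `c = Ga x (M x)`, `m = M (Ga x x)` at a point `z` and `d = Ga (M x) (M x) ≤ m` (`Ga_Pow_le`):
`R = m + g - 2 c ≥ d - 2 c + g = Ga (M x - x) (M x - x) ≥ 0` (`Ga_expand` with `c = 1`, symmetric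
arguments: `Ga (x - 1 • M x) (x - 1 • M x)`), and
`2 g + 2 R - m = m + 4 g - 4 c ≥ d + 4 g - 4 c = 4 Ga (x - (1/2) M x) (x - (1/2) M x) ≥ 0`.
Integral: `∫ M (Ga x x) = ∫ Ga x x = B (x - P x) x` (`Pow_nn`, `Ga_int`), `∫ Ga x (M x) = B (x - P x) (M x)`, so
`∫ R = 2 (B (x - P x) x - B (x - P x) (M x)) ≤ 2 k em` by `em_pow_le` of module h.
-/

set_option autoImplicit false

namespace Pool.Agent.SZ

open Pool.Agent.IRS MeasureTheory Set Filter Topology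

variable {Z : Type*} [MeasurableSpace Z] {ζ : Measure Z} [SigmaFinite ζ] (a b : PAct SL2R ζ)
  (hab : ∀ g h z, a.τ g (b.τ h z) = b.τ h (a.τ g z))

include hab in
theorem rem_exists (k : ℕ) (x : BL2 ζ) : ∃ R : BL2 ζ, Nn R ∧
    (∀ z, ((((b.P nuK) ^ k) (Ga a x x) : BL2 ζ) : Z → ℝ) z
      ≤ 2 * ((Ga a x x : BL2 ζ) : Z → ℝ) z + 2 * (R : Z → ℝ) z) ∧
    ∫ z, (R : Z → ℝ) z ∂ζ ≤ 2 * k * CPair.em (frm ζ) (a.P nuK) (b.P nuK) x := by
  set y : BL2 ζ := ((b.P nuK) ^ k) x with hy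
  set m : BL2 ζ := ((b.P nuK) ^ k) (Ga a x x) with hm
  set R : BL2 ζ := m + Ga a x x - (2 : ℝ) • Ga a x y with hR
  have hRz : ∀ z, (R : Z → ℝ) z = (m : Z → ℝ) z + ((Ga a x x : BL2 ζ) : Z → ℝ) z
      - 2 * ((Ga a x y : BL2 ζ) : Z → ℝ) z := fun z => rfl
  have hd : ∀ z, ((Ga a y y : BL2 ζ) : Z → ℝ) z ≤ (m : Z → ℝ) z := fun z =>
    Ga_Pow_le a b hab k x z
  have hmn : Nn m ∧ ∫ z, (m : Z → ℝ) z ∂ζ = ∫ z, ((Ga a x x : BL2 ζ) : Z → ℝ) z ∂ζ :=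
    Pow_nn b k (Ga_nn a x)
  have hi1 := Ga_int a x x
  have hi2 := Ga_int a x y
  refine ⟨R, ⟨fun z => ?_, ?_⟩, fun z => ?_, ?_⟩
  · have h1 := Ga_expand a x y 1 z
    have h2 := Ga_nonneg a (x - (1 : ℝ) • y) z
    have h3 := hd z
    rw [hRz]
    linarith
  · exact (hmn.1.2.add hi1.1).sub (hi2.1.const_mul 2)
  · have h1 := Ga_expand a x y (1 / 2) z
    have h2 := Ga_nonneg a (x - (1 / 2 : ℝ) • y) z
    have h3 := hd z
    rw [hRz]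
    linarith
  · have h1 : ∫ z, (R : Z → ℝ) z ∂ζ
        = ∫ z, (m : Z → ℝ) z ∂ζ + ∫ z, ((Ga a x x : BL2 ζ) : Z → ℝ) z ∂ζ
          - 2 * ∫ z, ((Ga a x y : BL2 ζ) : Z → ℝ) z ∂ζ := by
      calc ∫ z, (R : Z → ℝ) z ∂ζ
          = ∫ z, ((m : Z → ℝ) z + ((Ga a x x : BL2 ζ) : Z → ℝ) z
            - 2 * ((Ga a x y : BL2 ζ) : Z → ℝ) z) ∂ζ := rfl
        _ = _ := by
          have hs := integral_sub (μ := ζ)
            (f := fun z => (m : Z → ℝ) z + ((Ga a x x : BL2 ζ) : Z → ℝ) z)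
            (g := fun z => 2 * ((Ga a x y : BL2 ζ) : Z → ℝ) z)
            (hmn.1.2.add hi1.1) (hi2.1.const_mul 2)
          rw [hs, integral_add hmn.1.2 hi1.1, integral_const_mul]
    have h2 := em_pow_le (PAct.cpair (a := a) (b := b) nuK hab) k x
    rw [h1, hmn.2, hi1.2, hi2.2]
    linarith

end Pool.Agent.SZ
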