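import Mathlib
import Pool.Agent.SZ.R0c

/-!
# SZ, part R0, module g: integrals over a set

Proof. `set_P`: `P_law`, Fubini for `f (a.τ g (a.τ p z)) = f (a.τ (g * p) z)` on `mK.prod (ζ.restrict W)`
(integrable: `f` is integrable and nonnegative, the action preserves `ζ`), then the bound holds for
almost every `g` by `mK_ae`. `set_Pow`: induction on `j` for all `f`: with `hB` for `j + 1`,
`P^(j+1) f = P^j (P f)` (`pow_succ`), `P f` is `Nn`, and for `nS p ≤ 2 * 12 ^ j` use `set_P`, since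
`nS (g * p) ≤ 12 * (2 * 12 ^ j)` (`nS_mul_le`). For `j = 0` use `p = 1` (`nS 1 = 2`, `a.one`).
`set_Ga`: `Ga_eq` at the point `a.τ p z`, Fubini on `mK.prod (ζ.restrict W)` for
`(x (a.τ u (a.τ p z)) - x (a.τ p z))^2` (integrable: dominated by `2 x(..)^2 + 2 x(..)^2`), `mK_ae`.
-/

set_option autoImplicit false

namespace Pool.Agent.SZ

open Pool.Agent.IRS MeasureTheory Set Filter Topology

variable {Z : Type*} [MeasurableSpace Z] {ζ : Measure Z} [SigmaFinite ζ] (a : PAct SL2R ζ)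

omit [SigmaFinite ζ] in
lemma set_meas (p : SL2R) : Measurable (fun q : SL2R × Z => a.τ (q.1 * p) q.2) := by
  have h1 : Measurable (fun q : SL2R × Z => q.1 * p) :=
    meas_mulSL.comp (measurable_fst.prodMk measurable_const)
  exact a.meas.comp (h1.prodMk measurable_snd)

/-- The shifted function is integrable on the product. -/
lemma set_int {h : Z → ℝ} (hm : Measurable h) (hi : Integrable h ζ) (p : SL2R) :
    Integrable (fun q : SL2R × Z => h (a.τ (q.1 * p) q.2)) (mK.prod ζ) := by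
  have hm' : Measurable (fun q : SL2R × Z => h (a.τ (q.1 * p) q.2)) := hm.comp (set_meas a p)
  rw [integrable_prod_iff hm'.aestronglyMeasurable]
  refine ⟨?_, ?_⟩
  · filter_upwards with g
    exact (a.mp (g * p)).integrable_comp_of_integrable hi
  · have : (fun g : SL2R => ∫ z, ‖h (a.τ (g * p) z)‖ ∂ζ) = fun _ => ∫ z, ‖h z‖ ∂ζ := by
      ext g
      exact a.integral_comp (g * p) (F := fun z => ‖h z‖) hm.norm
    change Integrable (fun g : SL2R => ∫ z, ‖h (a.τ (g * p) z)‖ ∂ζ) mK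
    rw [this]
    exact integrable_const _

lemma set_restrict {F : SL2R × Z → ℝ} (hF : Integrable F (mK.prod ζ)) (W : Set Z) :
    Integrable F (mK.prod (ζ.restrict W)) := by
  have h1 : mK.prod (ζ.restrict W) = (mK.prod ζ).restrict (univ ×ˢ W) := by
    rw [← Measure.prod_restrict, Measure.restrict_univ]
  rw [h1]
  exact hF.restrict

/-- Fubini and the bound for almost every `u`. -/
lemma set_swap {F : SL2R → Z → ℝ} {W : Set Z}
    (hF : Integrable (fun q : SL2R × Z => F q.1 q.2) (mK.prod ζ)) {B : ℝ}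
    (hB : ∀ u, nS u ≤ 12 → ∫ z in W, F u z ∂ζ ≤ B) :
    ∫ z in W, (∫ u, F u z ∂mK) ∂ζ ≤ B := by
  have h1 := set_restrict hF W
  have h2 : ∫ u, (∫ z in W, F u z ∂ζ) ∂mK = ∫ z in W, (∫ u, F u z ∂mK) ∂ζ :=
    integral_integral_swap (f := F) (μ := mK) (ν := ζ.restrict W) h1
  rw [← h2]
  have h3 : Integrable (fun u : SL2R => ∫ z in W, F u z ∂ζ) mK := h1.integral_prod_left
  calc ∫ u, (∫ z in W, F u z ∂ζ) ∂mK ≤ ∫ _u, B ∂mK := by
        refine integral_mono_ae h3 (integrable_const _) ?_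
        filter_upwards [mK_ae] with u hu
        exact hB u hu
    _ = B := by simp

theorem set_P {W : Set Z} (hW : MeasurableSet W) {f : BL2 ζ} (hf : Nn f) {B : ℝ} (p : SL2R)
    (hB : ∀ g, nS g ≤ 12 → ∫ z in W, (f : Z → ℝ) (a.τ (g * p) z) ∂ζ ≤ B) :
    ∫ z in W, ((a.P nuK f : BL2 ζ) : Z → ℝ) (a.τ p z) ∂ζ ≤ B := by
  have _ := hW
  have h1 : ∀ z, ((a.P nuK f : BL2 ζ) : Z → ℝ) (a.τ p z) =
      ∫ u, (f : Z → ℝ) (a.τ (u * p) z) ∂mK := by
    intro z
    rw [P_law]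
    simp only [a.mul]
  simp only [h1]
  exact set_swap (F := fun u z => (f : Z → ℝ) (a.τ (u * p) z))
    (set_int a (bmeas f) hf.2 p) hB

theorem set_Pow (j : ℕ) {W : Set Z} (hW : MeasurableSet W) {f : BL2 ζ} (hf : Nn f) {B : ℝ}
    (hB : ∀ p, nS p ≤ 2 * 12 ^ j → ∫ z in W, (f : Z → ℝ) (a.τ p z) ∂ζ ≤ B) :
    ∫ z in W, ((((a.P nuK) ^ j) f : BL2 ζ) : Z → ℝ) z ∂ζ ≤ B := by
  induction j generalizing f with
  | zero =>
    have h := hB 1 (by rw [nS_one]; norm_num)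
    simpa only [a.one, pow_zero, Module.End.one_apply] using h
  | succ j ih =>
    rw [pow_succ, Module.End.mul_apply]
    refine ih (P_nn a hf).1 (fun p hp => ?_)
    refine set_P a hW hf p (fun g hg => hB _ ?_)
    refine (nS_mul_le _ _).trans ?_
    calc nS g * nS p ≤ 12 * (2 * 12 ^ j) :=
          mul_le_mul hg hp (nS_pos p).le (by norm_num)
      _ = 2 * 12 ^ (j + 1) := by ring

theorem set_Ga {W : Set Z} (hW : MeasurableSet W) (x : BL2 ζ) {B : ℝ} (p : SL2R)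
    (hB : ∀ u, nS u ≤ 12 →
      ∫ z in W, ((x : Z → ℝ) (a.τ (u * p) z) - (x : Z → ℝ) (a.τ p z)) ^ 2 ∂ζ ≤ B) :
    ∫ z in W, ((Ga a x x : BL2 ζ) : Z → ℝ) (a.τ p z) ∂ζ ≤ B / 2 := by
  have _ := hW
  have h1 : ∀ z, ((Ga a x x : BL2 ζ) : Z → ℝ) (a.τ p z) =
      (2 : ℝ)⁻¹ * ∫ u, ((x : Z → ℝ) (a.τ (u * p) z) - (x : Z → ℝ) (a.τ p z)) ^ 2 ∂mK := by
    intro z
    rw [Ga_eq]
    simp only [a.mul, sq]
  simp only [h1]
  rw [integral_const_mul]
  have h2 : ∫ z in W, (∫ u, ((x : Z → ℝ) (a.τ (u * p) z) - (x : Z → ℝ) (a.τ p z)) ^ 2 ∂mK) ∂ζ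
      ≤ B := by
    refine set_swap (F := fun u z => ((x : Z → ℝ) (a.τ (u * p) z) - (x : Z → ℝ) (a.τ p z)) ^ 2)
      ?_ hB
    have hm1 : Measurable (fun q : SL2R × Z => (x : Z → ℝ) (a.τ (q.1 * p) q.2)) :=
      (bmeas x).comp (set_meas a p)
    have hm2 : Measurable (fun q : SL2R × Z => (x : Z → ℝ) (a.τ p q.2)) :=
      ((bmeas x).comp (a.meas_g p)).comp measurable_snd
    have hi1 : Integrable (fun q : SL2R × Z => (x : Z → ℝ) (a.τ (q.1 * p) q.2) ^ 2)
        (mK.prod ζ) := set_int a (h := fun z => (x : Z → ℝ) z ^ 2) ((bmeas x).pow_const 2) (bsq x) p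
    have hi2 : Integrable (fun q : SL2R × Z => (x : Z → ℝ) (a.τ p q.2) ^ 2) (mK.prod ζ) :=
      ((a.mp p).integrable_comp_of_integrable (bsq x)).comp_snd mK
    refine ((hi1.const_mul 2).add (hi2.const_mul 2)).mono'
      ((hm1.sub hm2).pow_const 2).aestronglyMeasurable ?_
    filter_upwards with q
    simp only [Pi.add_apply, Real.norm_eq_abs, abs_pow, sq_abs]
    nlinarith [sq_nonneg ((x : Z → ℝ) (a.τ (q.1 * p) q.2) + (x : Z → ℝ) (a.τ p q.2))]
  linarith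

end Pool.Agent.SZ
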