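import Mathlib
import Pool.Agent.SZ.R0f
import Pool.Agent.SZ.R0g

/-!
# SZ, part R0, module i: the estimate for one factor

Proof. `P_b^k (Ga x x) ≤ 2 Ga x x + 2 R` (`rem_exists`), so by `Pow_mono` for `P_a^j` and linearity
`∫_W P_a^j P_b^k (Ga x x) ≤ 2 ∫_W P_a^j (Ga x x) + 2 ∫_W P_a^j R`. First term: `set_Pow` with
`f = Ga x x` and bound `B / 2` (`set_Ga`). Second: at most `∫_Z P_a^j R = ∫ R` (`Pow_nn`), which is at most
`2 k em`.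
-/

set_option autoImplicit false

namespace Pool.Agent.SZ

open Pool.Agent.IRS MeasureTheory Set Filter Topology

variable {Z : Type*} [MeasurableSpace Z] {ζ : Measure Z} [SigmaFinite ζ] (a b : PAct SL2R ζ)
  (hab : ∀ g h z, a.τ g (b.τ h z) = b.τ h (a.τ g z))

include hab in
theorem one_factor (j k : ℕ) {W : Set Z} (hW : MeasurableSet W) (x : BL2 ζ) {B : ℝ}
    (hB : ∀ u p, nS u ≤ 12 → nS p ≤ 2 * 12 ^ j →
      ∫ z in W, ((x : Z → ℝ) (a.τ (u * p) z) - (x : Z → ℝ) (a.τ p z)) ^ 2 ∂ζ ≤ B) :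
    ∫ z in W, ((((a.P nuK) ^ j) (((b.P nuK) ^ k) (Ga a x x)) : BL2 ζ) : Z → ℝ) z ∂ζ
      ≤ B + 4 * k * CPair.em (frm ζ) (a.P nuK) (b.P nuK) x := by
  obtain ⟨R, hR, hR1, hR2⟩ := rem_exists a b hab k x
  have hG := Ga_nn a x
  have i0 := (Pow_nn a j (Pow_nn b k hG).1).1.2
  have i1 := (Pow_nn a j hG).1.2
  obtain ⟨⟨n2, i2⟩, e2⟩ := Pow_nn a j hR
  have h1 : ∀ z, ((((a.P nuK) ^ j) (((b.P nuK) ^ k) (Ga a x x)) : BL2 ζ) : Z → ℝ) z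
      ≤ 2 * ((((a.P nuK) ^ j) (Ga a x x) : BL2 ζ) : Z → ℝ) z
        + 2 * ((((a.P nuK) ^ j) R : BL2 ζ) : Z → ℝ) z := by
    intro z
    have h2 := Pow_mono a j (f := ((b.P nuK) ^ k) (Ga a x x))
      (g := (2 : ℝ) • Ga a x x + (2 : ℝ) • R) (fun y => hR1 y) z
    have h3 : ((a.P nuK) ^ j) ((2 : ℝ) • Ga a x x + (2 : ℝ) • R)
        = (2 : ℝ) • ((a.P nuK) ^ j) (Ga a x x) + (2 : ℝ) • ((a.P nuK) ^ j) R := by
      rw [map_add, map_smul, map_smul]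
    rw [h3] at h2
    exact h2
  have h4 : ∫ z in W, ((((a.P nuK) ^ j) (Ga a x x) : BL2 ζ) : Z → ℝ) z ∂ζ ≤ B / 2 :=
    set_Pow a j hW hG fun p hp => set_Ga a hW x p fun u hu => hB u p hu hp
  have h5 : ∫ z in W, ((((a.P nuK) ^ j) R : BL2 ζ) : Z → ℝ) z ∂ζ
      ≤ 2 * k * CPair.em (frm ζ) (a.P nuK) (b.P nuK) x := by
    refine le_trans ?_ (e2.le.trans hR2)
    exact setIntegral_le_integral i2 (Filter.Eventually.of_forall n2)
  calc ∫ z in W, ((((a.P nuK) ^ j) (((b.P nuK) ^ k) (Ga a x x)) : BL2 ζ) : Z → ℝ) z ∂ζ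
      ≤ ∫ z in W, (2 * ((((a.P nuK) ^ j) (Ga a x x) : BL2 ζ) : Z → ℝ) z
        + 2 * ((((a.P nuK) ^ j) R : BL2 ζ) : Z → ℝ) z) ∂ζ :=
        integral_mono i0.integrableOn ((i1.const_mul 2).add (i2.const_mul 2)).integrableOn h1
    _ = 2 * ∫ z in W, ((((a.P nuK) ^ j) (Ga a x x) : BL2 ζ) : Z → ℝ) z ∂ζ
        + 2 * ∫ z in W, ((((a.P nuK) ^ j) R : BL2 ζ) : Z → ℝ) z ∂ζ := by
        rw [integral_add (i1.const_mul 2).integrableOn (i2.const_mul 2).integrableOn,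
          integral_const_mul, integral_const_mul]
    _ ≤ B + 4 * k * CPair.em (frm ζ) (a.P nuK) (b.P nuK) x := by linarith

end Pool.Agent.SZ
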