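import Mathlib
import Pool.Agent.SZ.R0c

/-!
# SZ, part R0, module j: splitting the energy density

Proof. `2 P_b (Ga a F F) + 2 Ga b F F - gam` at `z` is, with `c = F z` and everything written out,
`(1/2) [ P_b (P_a (F^2)) + 4 P_b (F^2) + c^2 - 4 P_b (F P_a F) - 4 c P_b F + 2 c P_b (P_a F) ] (z)`
(the order of `P_a`, `P_b` is free by `PAct.P_comm`), which is `(1/2) (P_b h)(z) + (1/2) c^2` with
`h = P_a (F^2) + 4 F^2 - 4 F P_a F - 4 c F + 2 c P_a F`, and `h ≥ (P_a F - 2 F + c)^2 - c^2 ≥ - c^2` by `P_sq`;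
so `P_b h ≥ - c^2` by `P_ge`.
-/

set_option autoImplicit false

namespace Pool.Agent.SZ

open Pool.Agent.IRS MeasureTheory Set Filter Topology

variable {Z : Type*} [MeasurableSpace Z] {ζ : Measure Z} [SigmaFinite ζ] (a b : PAct SL2R ζ)
  (hab : ∀ g h z, a.τ g (b.τ h z) = b.τ h (a.τ g z))

include hab in
theorem gam_le (F : BL2 ζ) (z : Z) : ((gam a b F : BL2 ζ) : Z → ℝ) z
    ≤ 2 * ((b.P nuK (Ga a F F) : BL2 ζ) : Z → ℝ) z + 2 * ((Ga b F F : BL2 ζ) : Z → ℝ) z := by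
  set c : ℝ := (F : Z → ℝ) z with hc
  set h : BL2 ζ := a.P nuK (mulB F F) + (4 : ℝ) • mulB F F - (4 : ℝ) • mulB F (a.P nuK F)
    - (4 * c) • F + (2 * c) • a.P nuK F with hh
  have h1 : ∀ y, -(c ^ 2) ≤ (h : Z → ℝ) y := by
    intro y
    have e : (h : Z → ℝ) y = ((a.P nuK (mulB F F) : BL2 ζ) : Z → ℝ) y
        + 4 * ((F : Z → ℝ) y * (F : Z → ℝ) y)
        - 4 * ((F : Z → ℝ) y * ((a.P nuK F : BL2 ζ) : Z → ℝ) y) - 4 * c * (F : Z → ℝ) y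
        + 2 * c * ((a.P nuK F : BL2 ζ) : Z → ℝ) y := rfl
    rw [e]
    have := P_sq a F y
    nlinarith [sq_nonneg (((a.P nuK F : BL2 ζ) : Z → ℝ) y - 2 * (F : Z → ℝ) y + c)]
  have h2 := P_ge b h1 z
  have h3 : b.P nuK h = b.P nuK (a.P nuK (mulB F F)) + (4 : ℝ) • b.P nuK (mulB F F)
      - (4 : ℝ) • b.P nuK (mulB F (a.P nuK F)) - (4 * c) • b.P nuK F
      + (2 * c) • b.P nuK (a.P nuK F) := by
    rw [hh]
    simp only [map_add, map_sub, map_smul]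
  rw [h3] at h2
  have h4 : ((b.P nuK (a.P nuK (mulB F F)) + (4 : ℝ) • b.P nuK (mulB F F)
      - (4 : ℝ) • b.P nuK (mulB F (a.P nuK F)) - (4 * c) • b.P nuK F
      + (2 * c) • b.P nuK (a.P nuK F) : BL2 ζ) : Z → ℝ) z
      = ((b.P nuK (a.P nuK (mulB F F)) : BL2 ζ) : Z → ℝ) z
        + 4 * ((b.P nuK (mulB F F) : BL2 ζ) : Z → ℝ) z
        - 4 * ((b.P nuK (mulB F (a.P nuK F)) : BL2 ζ) : Z → ℝ) z
        - 4 * c * ((b.P nuK F : BL2 ζ) : Z → ℝ) z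
        + 2 * c * ((b.P nuK (a.P nuK F) : BL2 ζ) : Z → ℝ) z := rfl
  rw [h4] at h2
  have h5 : b.P nuK (Ga a F F) = (2 : ℝ)⁻¹ • (b.P nuK (a.P nuK (mulB F F))
      - b.P nuK (mulB F (a.P nuK F)) - b.P nuK (mulB F (a.P nuK F)) + b.P nuK (mulB F F)) := by
    rw [Ga]
    simp only [map_add, map_sub, map_smul]
  have h6 : ((b.P nuK (Ga a F F) : BL2 ζ) : Z → ℝ) z
      = (2 : ℝ)⁻¹ * (((b.P nuK (a.P nuK (mulB F F)) : BL2 ζ) : Z → ℝ) z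
      - ((b.P nuK (mulB F (a.P nuK F)) : BL2 ζ) : Z → ℝ) z
      - ((b.P nuK (mulB F (a.P nuK F)) : BL2 ζ) : Z → ℝ) z
      + ((b.P nuK (mulB F F) : BL2 ζ) : Z → ℝ) z) := by
    rw [h5]; rfl
  have hcm : ∀ f : BL2 ζ, AA a b f = b.P nuK (a.P nuK f) := fun f => by
    have := congrArg (fun A : Module.End ℝ (BL2 ζ) => A f) (PAct.P_comm nuK hab).eq
    simpa [AA] using this
  have h7 : ((gam a b F : BL2 ζ) : Z → ℝ) z
      = (2 : ℝ)⁻¹ * (((b.P nuK (a.P nuK (mulB F F)) : BL2 ζ) : Z → ℝ) z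
        - 2 * (c * ((b.P nuK (a.P nuK F) : BL2 ζ) : Z → ℝ) z) + c * c) := by
    rw [gam, hcm, hcm]; rfl
  rw [h6, h7, Ga_apply]
  simp only [← hc]
  linarith

end Pool.Agent.SZ
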