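import Mathlib
import Pool.Agent.SZ.R0i
import Pool.Agent.SZ.R0j

/-!
# SZ, part R0, module k: the estimate on `Z`

Proof. Write `A = AA a b = P_a P_b`, `G = A F`, `D = F - A F = DD a b F`, `F = G + D`. Pointwise
`gam F ≤ 2 P_b (Ga a F F) + 2 Ga b F F ≤ 4 P_b (Ga a G G) + 4 P_b (Ga a D D) + 4 Ga b G G + 4 Ga b D D`
(`gam_le`, `Ga_add_le`, `P_mono`). Apply `A^j = P_a^j P_b^j` (`P_comm`, `Commute.mul_pow`; monotone by
`Pow_mono` twice) and integrate over `W` (all terms integrable: `Nn` and `Pow_nn`; `gam F` itself is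
integrable: `gam F = (1/2) (A (F^2) - 2 F A F + F^2)`).
`∫_W A^j P_b (Ga a G G) = ∫_W P_a^j P_b^(j+1) (Ga a G G) ≤ B1 + 4 (j+1) em G` (`one_factor`),
`∫_W A^j (Ga b G G) = ∫_W P_b^j P_a^j (Ga b G G) ≤ B2 + 4 j em G` (`one_factor` with the factors exchanged,
`CPair.em_comm`), `em G ≤ em F ≤ B D D` (`em_PQ_le`, `em_le_sq`, `PAct.cpair`),
`∫_W A^j P_b (Ga a D D) ≤ ∫ Ga a D D = B (D - P_a D) D ≤ B D D` (`Pow_nn`, `Ga_int`, positivity of `P_a`).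
Sum: `4 B1 + 4 B2 + 16 (2 j + 1) B D D + 8 B D D ≤ 4 B1 + 4 B2 + 32 (1 + j) B D D`.
-/

set_option autoImplicit false

namespace Pool.Agent.SZ

open Pool.Agent.IRS MeasureTheory Set Filter Topology

variable {Z : Type*} [MeasurableSpace Z] {ζ : Measure Z} [SigmaFinite ζ] (a b : PAct SL2R ζ)
  (hab : ∀ g h z, a.τ g (b.τ h z) = b.τ h (a.τ g z))

private lemma starZ_pow (hab : ∀ g h z, a.τ g (b.τ h z) = b.τ h (a.τ g z)) (j : ℕ) (f : BL2 ζ) :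
    ((AA a b) ^ j) f = ((a.P nuK) ^ j) (((b.P nuK) ^ j) f) := by
  have h : (AA a b) ^ j = (a.P nuK) ^ j * (b.P nuK) ^ j := (PAct.P_comm nuK hab).mul_pow j
  rw [h]; rfl

private lemma starZ_pow' (hab : ∀ g h z, a.τ g (b.τ h z) = b.τ h (a.τ g z)) (j : ℕ) (f : BL2 ζ) :
    ((AA a b) ^ j) f = ((b.P nuK) ^ j) (((a.P nuK) ^ j) f) := by
  have h : (AA a b) ^ j = (a.P nuK) ^ j * (b.P nuK) ^ j := (PAct.P_comm nuK hab).mul_pow j
  have h2 : (a.P nuK) ^ j * (b.P nuK) ^ j = (b.P nuK) ^ j * (a.P nuK) ^ j :=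
    ((PAct.P_comm nuK hab).pow_pow j j).eq
  rw [h, h2]; rfl

omit [SigmaFinite ζ] in
private lemma starZ_set_le {W : Set Z} {T : BL2 ζ} (hT : Nn T) :
    ∫ z in W, (T : Z → ℝ) z ∂ζ ≤ ∫ z, (T : Z → ℝ) z ∂ζ :=
  setIntegral_le_integral hT.2 (Filter.Eventually.of_forall hT.1)

include hab in
theorem star_Z (j : ℕ) {W : Set Z} (hW : MeasurableSet W) (F : BL2 ζ) {B1 B2 : ℝ}
    (h1 : ∀ u p, nS u ≤ 12 → nS p ≤ 2 * 12 ^ j →
      ∫ z in W, (((AA a b F : BL2 ζ) : Z → ℝ) (a.τ (u * p) z)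
        - ((AA a b F : BL2 ζ) : Z → ℝ) (a.τ p z)) ^ 2 ∂ζ ≤ B1)
    (h2 : ∀ u p, nS u ≤ 12 → nS p ≤ 2 * 12 ^ j →
      ∫ z in W, (((AA a b F : BL2 ζ) : Z → ℝ) (b.τ (u * p) z)
        - ((AA a b F : BL2 ζ) : Z → ℝ) (b.τ p z)) ^ 2 ∂ζ ≤ B2) :
    ∫ z in W, ((((AA a b) ^ j) (gam a b F) : BL2 ζ) : Z → ℝ) z ∂ζ
      ≤ 4 * B1 + 4 * B2 + 32 * (1 + j) * (frm ζ).B (DD a b F) (DD a b F) := by
  have hba : ∀ g h z, b.τ g (a.τ h z) = a.τ h (b.τ g z) := fun g h z => (hab h g z).symm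
  set G : BL2 ζ := AA a b F with hG
  set D : BL2 ζ := DD a b F with hD
  have hFGD : G + D = F := by
    rw [hG, hD, DD]
    simp
  have hDe : D = F - a.P nuK (b.P nuK F) := rfl
  have hcp : CPair (frm ζ) (a.P nuK) (b.P nuK) := PAct.cpair (a := a) (b := b) nuK hab
  set e : ℝ := (frm ζ).B D D with he
  have he0 : 0 ≤ e := (frm ζ).nonneg D
  -- the four terms
  set T1 : BL2 ζ := ((a.P nuK) ^ j) (((b.P nuK) ^ (j + 1)) (Ga a G G)) with hT1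
  set T2 : BL2 ζ := ((a.P nuK) ^ j) (((b.P nuK) ^ (j + 1)) (Ga a D D)) with hT2
  set T3 : BL2 ζ := ((b.P nuK) ^ j) (((a.P nuK) ^ j) (Ga b G G)) with hT3
  set T4 : BL2 ζ := ((a.P nuK) ^ j) (((b.P nuK) ^ j) (Ga b D D)) with hT4
  have n1 : Nn T1 := (Pow_nn a j (Pow_nn b (j + 1) (Ga_nn a G)).1).1
  have n2 : Nn T2 := (Pow_nn a j (Pow_nn b (j + 1) (Ga_nn a D)).1).1
  have n3 : Nn T3 := (Pow_nn b j (Pow_nn a j (Ga_nn b G)).1).1
  have n4 : Nn T4 := (Pow_nn a j (Pow_nn b j (Ga_nn b D)).1).1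
  -- pointwise bound
  have hpt : ∀ z, ((((AA a b) ^ j) (gam a b F) : BL2 ζ) : Z → ℝ) z ≤
      4 * (T1 : Z → ℝ) z + 4 * (T2 : Z → ℝ) z + 4 * (T3 : Z → ℝ) z + 4 * (T4 : Z → ℝ) z := by
    intro z
    set H : BL2 ζ := (4 : ℝ) • b.P nuK (Ga a G G) + (4 : ℝ) • b.P nuK (Ga a D D) +
      (4 : ℝ) • Ga b G G + (4 : ℝ) • Ga b D D with hH
    have h0 : ∀ w, ((gam a b F : BL2 ζ) : Z → ℝ) w ≤ (H : Z → ℝ) w := by
      intro w
      have g1 := gam_le a b hab F w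
      have g2 : ((b.P nuK (Ga a F F) : BL2 ζ) : Z → ℝ) w ≤
          ((b.P nuK ((2 : ℝ) • Ga a G G + (2 : ℝ) • Ga a D D) : BL2 ζ) : Z → ℝ) w := by
        apply P_mono b
        intro v
        have g3 := Ga_add_le a G D v
        rw [hFGD] at g3
        exact g3
      have g4 : ((b.P nuK ((2 : ℝ) • Ga a G G + (2 : ℝ) • Ga a D D) : BL2 ζ) : Z → ℝ) w =
          2 * ((b.P nuK (Ga a G G) : BL2 ζ) : Z → ℝ) w + 2 * ((b.P nuK (Ga a D D) : BL2 ζ) : Z → ℝ) w := by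
        rw [map_add, map_smul, map_smul]; rfl
      have g5 := Ga_add_le b G D w
      rw [hFGD] at g5
      have g6 : (H : Z → ℝ) w = 4 * ((b.P nuK (Ga a G G) : BL2 ζ) : Z → ℝ) w +
          4 * ((b.P nuK (Ga a D D) : BL2 ζ) : Z → ℝ) w + 4 * ((Ga b G G : BL2 ζ) : Z → ℝ) w +
          4 * ((Ga b D D : BL2 ζ) : Z → ℝ) w := rfl
      rw [g6]
      linarith
    have h1' : ((((AA a b) ^ j) (gam a b F) : BL2 ζ) : Z → ℝ) z ≤
        ((((AA a b) ^ j) H : BL2 ζ) : Z → ℝ) z := by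
      rw [starZ_pow a b hab j, starZ_pow a b hab j]
      exact Pow_mono a j (fun w => Pow_mono b j h0 w) z
    have h2' : ((AA a b) ^ j) H = (4 : ℝ) • T1 + (4 : ℝ) • T2 + (4 : ℝ) • T3 + (4 : ℝ) • T4 := by
      rw [hH, map_add, map_add, map_add, map_smul, map_smul, map_smul, map_smul]
      have k1 : ∀ u, ((AA a b) ^ j) (b.P nuK u) = ((a.P nuK) ^ j) (((b.P nuK) ^ (j + 1)) u) := by
        intro u
        rw [starZ_pow a b hab j, pow_succ (b.P nuK) j]; rfl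
      rw [k1, k1, starZ_pow' a b hab j (Ga b G G), starZ_pow a b hab j (Ga b D D)]
    rw [h2'] at h1'
    exact h1'
  have iS : Integrable (fun z => 4 * (T1 : Z → ℝ) z + 4 * (T2 : Z → ℝ) z + 4 * (T3 : Z → ℝ) z +
      4 * (T4 : Z → ℝ) z) ζ :=
    (((n1.2.const_mul 4).add (n2.2.const_mul 4)).add (n3.2.const_mul 4)).add (n4.2.const_mul 4)
  have hint : ∫ z in W, ((((AA a b) ^ j) (gam a b F) : BL2 ζ) : Z → ℝ) z ∂ζ ≤
      ∫ z in W, (4 * (T1 : Z → ℝ) z + 4 * (T2 : Z → ℝ) z + 4 * (T3 : Z → ℝ) z +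
        4 * (T4 : Z → ℝ) z) ∂ζ := by
    by_cases hi : Integrable ((((AA a b) ^ j) (gam a b F) : BL2 ζ) : Z → ℝ) (ζ.restrict W)
    · exact integral_mono hi iS.integrableOn hpt
    · rw [integral_undef hi]
      refine integral_nonneg fun z => ?_
      have := n1.1 z; have := n2.1 z; have := n3.1 z; have := n4.1 z
      simp only [Pi.zero_apply]
      linarith
  have hsplit : ∫ z in W, (4 * (T1 : Z → ℝ) z + 4 * (T2 : Z → ℝ) z + 4 * (T3 : Z → ℝ) z +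
        4 * (T4 : Z → ℝ) z) ∂ζ = 4 * ∫ z in W, (T1 : Z → ℝ) z ∂ζ + 4 * ∫ z in W, (T2 : Z → ℝ) z ∂ζ +
        4 * ∫ z in W, (T3 : Z → ℝ) z ∂ζ + 4 * ∫ z in W, (T4 : Z → ℝ) z ∂ζ := by
    have i1 : Integrable (fun z => 4 * (T1 : Z → ℝ) z) (ζ.restrict W) := (n1.2.const_mul 4).integrableOn
    have i2 : Integrable (fun z => 4 * (T2 : Z → ℝ) z) (ζ.restrict W) := (n2.2.const_mul 4).integrableOn
    have i3 : Integrable (fun z => 4 * (T3 : Z → ℝ) z) (ζ.restrict W) := (n3.2.const_mul 4).integrableOn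
    have i4 : Integrable (fun z => 4 * (T4 : Z → ℝ) z) (ζ.restrict W) := (n4.2.const_mul 4).integrableOn
    have i12 : Integrable (fun z => 4 * (T1 : Z → ℝ) z + 4 * (T2 : Z → ℝ) z) (ζ.restrict W) :=
      i1.add i2
    have i123 : Integrable (fun z => 4 * (T1 : Z → ℝ) z + 4 * (T2 : Z → ℝ) z +
        4 * (T3 : Z → ℝ) z) (ζ.restrict W) := i12.add i3
    rw [integral_add i123 i4, integral_add i12 i3, integral_add i1 i2,
      integral_const_mul, integral_const_mul, integral_const_mul, integral_const_mul]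
  -- the energy of `D`
  have b2 : ∫ z in W, (T2 : Z → ℝ) z ∂ζ ≤ e := by
    refine (starZ_set_le n2).trans ?_
    rw [hT2, (Pow_nn a j (Pow_nn b (j + 1) (Ga_nn a D)).1).2, (Pow_nn b (j + 1) (Ga_nn a D)).2,
      (Ga_int a D D).2]
    have := (a.P_pos nuK).nonneg D
    rw [map_sub, LinearMap.sub_apply]
    linarith
  have b4 : ∫ z in W, (T4 : Z → ℝ) z ∂ζ ≤ e := by
    refine (starZ_set_le n4).trans ?_
    rw [hT4, (Pow_nn a j (Pow_nn b j (Ga_nn b D)).1).2, (Pow_nn b j (Ga_nn b D)).2,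
      (Ga_int b D D).2]
    have := (b.P_pos nuK).nonneg D
    rw [map_sub, LinearMap.sub_apply]
    linarith
  have hem : CPair.em (frm ζ) (a.P nuK) (b.P nuK) G ≤ e := by
    have e1 : CPair.em (frm ζ) (a.P nuK) (b.P nuK) G ≤ CPair.em (frm ζ) (a.P nuK) (b.P nuK) F :=
      em_PQ_le hcp F
    have e2 := em_le_sq hcp F
    exact e1.trans e2
  have b1 := one_factor a b hab j (j + 1) hW G h1
  have b3 := one_factor b a hba j j hW G h2
  rw [← hcp.em_comm] at b3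
  have hj : (0 : ℝ) ≤ (j : ℝ) := Nat.cast_nonneg j
  have b1' : ∫ z in W, (T1 : Z → ℝ) z ∂ζ ≤ B1 + 4 * (j + 1) * e := by
    refine b1.trans ?_
    push_cast
    nlinarith
  have b3' : ∫ z in W, (T3 : Z → ℝ) z ∂ζ ≤ B2 + 4 * j * e := by
    refine b3.trans ?_
    nlinarith
  refine hint.trans ?_
  rw [hsplit]
  nlinarith

end Pool.Agent.SZ
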