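import Mathlib
import Pool.Agent.SZ.R0D

/-!
# SZ, part R0, module l: the sets `Wt`

Proof. `Bx 2` is measurable (`measurable_xx`), of finite measure (`nS_sq_le`, `mH_ball_lt`) and of
positive measure (it contains a neighbourhood of `1`, `xx 1 = 1`: `mH_open_pos`).
`Wt_preimage`: `π (a.τ c⁻¹ z) = a'.τ c⁻¹ (π z)`. `Wt_meas`: `y ↦ mH (Bx 2 ∩ {c | a.τ c⁻¹ y ∈ W})` is measurable
(section measure of a measurable subset of `SL2R × Z`, `measurable_measure_prodMk_right` or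
`_left`, `mH.restrict (Bx 2)` is finite; `a.meas` composed with `(c, y) ↦ (c⁻¹, y)`).
`Wt_compl`: on the complement of `Wt` the measure of `Bx 2 ∩ {c | a.τ c⁻¹ y ∉ S}` is at least
`mH (Bx 2) / 2`; integrate over `y` (Markov), Fubini, and `μ {y | a.τ c⁻¹ y ∉ S} = μ Sᶜ` for every `c`.
-/

set_option autoImplicit false

namespace Pool.Agent.SZ

open Pool.Agent.IRS MeasureTheory Set Filter Topology

theorem Bx_pos : 0 < mH.real (Bx 2) ∧ mH (Bx 2) < ⊤ ∧ MeasurableSet (Bx 2) := by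
  have hm : MeasurableSet (Bx 2) := measurableSet_le measurable_xx measurable_const
  have hsub : Bx 2 ⊆ {g : SL2R | nS g ≤ 4} := by
    intro g hg
    have hg' : xx g ≤ 2 := hg
    have h1 := nS_sq_le g
    have h2 := nS_pos g
    change nS g ≤ 4
    nlinarith
  have hlt : mH (Bx 2) < ⊤ := lt_of_le_of_lt (measure_mono hsub) (mH_ball_lt 4)
  have hc : Continuous xx := by
    have hcont : Continuous (fun g : SL2R => (g : Matrix (Fin 2) (Fin 2) ℝ)) :=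
      continuous_subtype_val
    unfold xx
    exact (((((hcont.matrix_elem 0 0).pow 2).add ((hcont.matrix_elem 0 1).pow 2)).add
      ((hcont.matrix_elem 1 0).pow 2)).add ((hcont.matrix_elem 1 1).pow 2)).div_const 2
  have hU : IsOpen {g : SL2R | xx g < 2} := isOpen_lt hc continuous_const
  have hpos : 0 < mH (Bx 2) := by
    refine lt_of_lt_of_le (mH_open_pos hU ⟨1, ?_⟩) (measure_mono ?_)
    · change xx 1 < 2
      rw [xx_one]; norm_num
    · intro g hg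
      exact le_of_lt (show xx g < 2 from hg)
  exact ⟨ENNReal.toReal_pos hpos.ne' hlt.ne, hlt, hm⟩

lemma Wt_sec_meas {Z : Type*} [MeasurableSpace Z] {ζ : Measure Z} (a : PAct SL2R ζ) {W : Set Z}
    (hW : MeasurableSet W) : MeasurableSet {p : SL2R × Z | a.τ p.1⁻¹ p.2 ∈ W} := by
  have h : Measurable (fun p : SL2R × Z => a.τ p.1⁻¹ p.2) :=
    a.meas.comp ((measurable_fst.inv).prodMk measurable_snd)
  exact h hW

lemma Wt_set_eq {Z : Type*} [MeasurableSpace Z] {ζ : Measure Z} (a : PAct SL2R ζ) {W : Set Z}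
    (hW : MeasurableSet W) (y : Z) :
    mH (Bx 2 ∩ {c | a.τ c⁻¹ y ∈ W}) =
      (mH.restrict (Bx 2)) ((fun c : SL2R => (c, y)) ⁻¹' {p : SL2R × Z | a.τ p.1⁻¹ p.2 ∈ W}) := by
  have h := Wt_sec_meas a hW
  rw [Measure.restrict_apply (measurable_prodMk_right h), inter_comm]
  rfl

theorem Wt_meas {Z : Type*} [MeasurableSpace Z] {ζ : Measure Z} (a : PAct SL2R ζ) {W : Set Z}
    (hW : MeasurableSet W) : MeasurableSet (Wt a W) := by
  have h := Wt_sec_meas a hW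
  haveI : IsFiniteMeasure (mH.restrict (Bx 2)) :=
    ⟨by rw [Measure.restrict_apply_univ]; exact Bx_pos.2.1⟩
  have h1 : Measurable (fun y : Z => mH (Bx 2 ∩ {c | a.τ c⁻¹ y ∈ W})) := by
    simp_rw [Wt_set_eq a hW]
    exact measurable_measure_prodMk_right h
  have h2 : Measurable (fun y : Z => mH.real (Bx 2 ∩ {c | a.τ c⁻¹ y ∈ W})) :=
    h1.ennreal_toReal
  exact measurableSet_le measurable_const h2

theorem Wt_compl {X : Type*} [MeasurableSpace X] {μ : Measure X} [IsProbabilityMeasure μ]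
    (a : PAct SL2R μ) {S : Set X} (hS : MeasurableSet S) : μ (Wt a S)ᶜ ≤ 2 * μ Sᶜ := by
  obtain ⟨hp, hlt, hm⟩ := Bx_pos
  haveI : IsFiniteMeasure (mH.restrict (Bx 2)) :=
    ⟨by rw [Measure.restrict_apply_univ]; exact hlt⟩
  have hSc := hS.compl
  have hsec := Wt_sec_meas a hSc
  set m0 := mH (Bx 2) with hm0
  have hm0pos : m0 ≠ 0 := by
    intro h
    rw [Measure.real, ← hm0, h] at hp
    simp at hp
  -- Fubini
  have hF : ∫⁻ y, mH (Bx 2 ∩ {c | a.τ c⁻¹ y ∈ Sᶜ}) ∂μ = m0 * μ Sᶜ := by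
    simp_rw [Wt_set_eq a hSc]
    rw [← Measure.prod_apply_symm hsec, Measure.prod_apply hsec]
    have h3 : ∀ c : SL2R, μ (Prod.mk c ⁻¹' {p : SL2R × X | a.τ p.1⁻¹ p.2 ∈ Sᶜ}) = μ Sᶜ := by
      intro c
      exact (a.mp c⁻¹).measure_preimage hSc.nullMeasurableSet
    simp_rw [h3]
    rw [lintegral_const, Measure.restrict_apply_univ, mul_comm]
  -- on the complement
  have hsub : (Wt a S)ᶜ ⊆ {y | m0 / 2 ≤ mH (Bx 2 ∩ {c | a.τ c⁻¹ y ∈ Sᶜ})} := by
    intro y hy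
    have hy' : ¬ (mH.real (Bx 2) / 2 ≤ mH.real (Bx 2 ∩ {c | a.τ c⁻¹ y ∈ S})) := hy
    push Not at hy'
    have hsplit : mH (Bx 2 ∩ {c | a.τ c⁻¹ y ∈ S}) + mH (Bx 2 ∩ {c | a.τ c⁻¹ y ∈ Sᶜ}) = m0 := by
      have hms : MeasurableSet {c : SL2R | a.τ c⁻¹ y ∈ S} :=
        measurable_prodMk_right (Wt_sec_meas a hS)
      have := measure_inter_add_diff (μ := mH) (Bx 2) hms
      rw [hm0, ← this]
      rfl
    have hA : mH (Bx 2 ∩ {c | a.τ c⁻¹ y ∈ S}) ≠ ⊤ :=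
      ((measure_mono inter_subset_left).trans_lt hlt).ne
    have hB : mH (Bx 2 ∩ {c | a.τ c⁻¹ y ∈ Sᶜ}) ≠ ⊤ :=
      ((measure_mono inter_subset_left).trans_lt hlt).ne
    have hr : mH.real (Bx 2 ∩ {c | a.τ c⁻¹ y ∈ S}) + mH.real (Bx 2 ∩ {c | a.τ c⁻¹ y ∈ Sᶜ}) =
        mH.real (Bx 2) := by
      simp only [Measure.real]
      rw [← ENNReal.toReal_add hA hB, hsplit]
    have hr2 : mH.real (Bx 2) / 2 ≤ mH.real (Bx 2 ∩ {c | a.τ c⁻¹ y ∈ Sᶜ}) := by linarith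
    change m0 / 2 ≤ _
    have hdiv : m0 / 2 ≠ ⊤ := ENNReal.div_ne_top hlt.ne (by norm_num)
    rw [← ENNReal.toReal_le_toReal hdiv hB, ENNReal.toReal_div]
    simpa [Measure.real] using hr2
  have hmk := mul_meas_ge_le_lintegral (μ := μ)
    (f := fun y : X => mH (Bx 2 ∩ {c | a.τ c⁻¹ y ∈ Sᶜ})) (by
      simp_rw [Wt_set_eq a hSc]
      exact measurable_measure_prodMk_right hsec) (m0 / 2)
  rw [hF] at hmk
  have h5 : m0 / 2 * μ (Wt a S)ᶜ ≤ m0 * μ Sᶜ :=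
    (mul_le_mul_right (measure_mono hsub) _).trans hmk
  have h6 : m0 * μ (Wt a S)ᶜ ≤ m0 * (2 * μ Sᶜ) := by
    have h7 : m0 = 2 * (m0 / 2) := by
      rw [ENNReal.mul_div_cancel (by norm_num) (by norm_num)]
    calc m0 * μ (Wt a S)ᶜ = 2 * (m0 / 2 * μ (Wt a S)ᶜ) := by
          rw [← mul_assoc, ← h7]
      _ ≤ 2 * (m0 * μ Sᶜ) := mul_le_mul_right h5 _
      _ = m0 * (2 * μ Sᶜ) := by ring
  exact (ENNReal.mul_le_mul_iff_right hm0pos hlt.ne).1 h6

theorem Wt_preimage {X Z : Type*} [MeasurableSpace X] [MeasurableSpace Z] {μ : Measure X}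
    {ζ : Measure Z} (a : PAct SL2R ζ) (a' : PAct SL2R μ) (π : Z → X)
    (ha : ∀ g z, π (a.τ g z) = a'.τ g (π z)) (S : Set X) :
    Wt a (π ⁻¹' S) = π ⁻¹' (Wt a' S) := by
  ext y
  simp only [Wt, mem_setOf_eq, mem_preimage, ha]

end Pool.Agent.SZ
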