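import Mathlib
import Pool.Agent.SZ.R0k
import Pool.Agent.SZ.R0l

/-!
# SZ, part R0: from the local estimate for both factors to the hypothesis of the scheme

Proof. Given `ε, η`, apply `h3` and `h3'` with `ε / 8` and `η / 4`: sets `Sa`, `Sb` and constants `Ca`, `Cb`.
`S := Wt a' Sa ∩ Wt b' Sb` (`Wt_meas`, `Wt_compl`: `μ Sᶜ ≤ 2 (η/4) + 2 (η/4) = η`). With
`W = π ⁻¹' S ⊆ Wt a (π ⁻¹' Sa)` and `⊆ Wt b (π ⁻¹' Sb)` (`Wt_preimage`), the integral of a square over `W` is at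
most the integral over the larger set (`setIntegral_mono_set`, integrable squares of elements of
`BL2`). For `2 ≤ nS p ≤ 2 * 12 ^ j`: `0 ≤ 1 + log (nS p) ≤ 3 (1 + j)`. `AA b a = AA a b` and
`DD b a = DD a b` (`PAct.P_comm`). Then `star_Z` with
`B1 = 3 (max Ca 0) (1 + j) B D D + (ε/8) B D F` and the same `B2`; constant `12 (max Ca 0 + max Cb 0) + 32`.
-/

set_option autoImplicit false

namespace Pool.Agent.SZ

open Pool.Agent.IRS MeasureTheory Set Filter Topology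

/-- The logarithm of the size in the range of the scheme. -/
private lemma R0_log_le {p : SL2R} {j : ℕ} (hp : nS p ≤ 2 * 12 ^ j) :
    0 ≤ 1 + Real.log (nS p) ∧ 1 + Real.log (nS p) ≤ 3 * (1 + j) := by
  have h2 := two_le_nS p
  have h0 : 0 ≤ Real.log (nS p) := Real.log_nonneg (by linarith)
  refine ⟨by linarith, ?_⟩
  have h1 : Real.log (nS p) ≤ Real.log (2 * 12 ^ j) := Real.log_le_log (nS_pos p) hp
  rw [Real.log_mul (by norm_num) (by positivity), Real.log_pow] at h1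
  have h3 : Real.log 12 ≤ Real.log (2 ^ 4) := Real.log_le_log (by norm_num) (by norm_num)
  rw [Real.log_pow] at h3
  have h4 := Real.log_two_lt_d9
  have h5 : Real.log 12 ≤ 3 := by push_cast at h3; linarith
  have h6 : (j : ℝ) * Real.log 12 ≤ j * 3 := mul_le_mul_of_nonneg_left h5 (Nat.cast_nonneg j)
  linarith

/-- Restriction of the local estimate to a smaller set, with the constant of the scheme. -/
private lemma R0_step {Z : Type} [MeasurableSpace Z] {ζ : Measure Z} [SigmaFinite ζ]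
    (a : PAct SL2R ζ) {W V : Set Z} (hWV : W ⊆ V) (G D F : BL2 ζ) {C e : ℝ} {j : ℕ} {u p : SL2R}
    (hp : nS p ≤ 2 * 12 ^ j)
    (h : ∫ z in V, ((G : Z → ℝ) (a.τ (u * p) z) - (G : Z → ℝ) (a.τ p z)) ^ 2 ∂ζ
      ≤ C * (1 + Real.log (nS p)) * (frm ζ).B D D + e * (frm ζ).B D F) :
    ∫ z in W, ((G : Z → ℝ) (a.τ (u * p) z) - (G : Z → ℝ) (a.τ p z)) ^ 2 ∂ζ
      ≤ 3 * max C 0 * (1 + j) * (frm ζ).B D D + e * (frm ζ).B D F := by
  have hint : Integrable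
      (fun z => ((G : Z → ℝ) (a.τ (u * p) z) - (G : Z → ℝ) (a.τ p z)) ^ 2) ζ :=
    bsq (a.T (u * p) G - a.T p G)
  have h1 : ∫ z in W, ((G : Z → ℝ) (a.τ (u * p) z) - (G : Z → ℝ) (a.τ p z)) ^ 2 ∂ζ
      ≤ ∫ z in V, ((G : Z → ℝ) (a.τ (u * p) z) - (G : Z → ℝ) (a.τ p z)) ^ 2 ∂ζ :=
    setIntegral_mono_set hint.integrableOn
      (by filter_upwards with z; exact sq_nonneg _) (Filter.Eventually.of_forall hWV)
  obtain ⟨h2, h3⟩ := R0_log_le hp
  have h4 : 0 ≤ (frm ζ).B D D := (frm ζ).nonneg D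
  have h5 : C * (1 + Real.log (nS p)) ≤ 3 * max C 0 * (1 + j) := by
    calc C * (1 + Real.log (nS p)) ≤ max C 0 * (1 + Real.log (nS p)) :=
          mul_le_mul_of_nonneg_right (le_max_left _ _) h2
      _ ≤ max C 0 * (3 * (1 + j)) := mul_le_mul_of_nonneg_left h3 (le_max_right _ _)
      _ = 3 * max C 0 * (1 + j) := by ring
  have h6 := mul_le_mul_of_nonneg_right h5 h4
  linarith

theorem hstar_of {X Z : Type} [MeasurableSpace X] [MeasurableSpace Z] {μ : Measure X}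
    [IsProbabilityMeasure μ] {ζ : Measure Z} [SigmaFinite ζ] (a b : PAct SL2R ζ)
    (a' b' : PAct SL2R μ) (π : Z → X) (hπ : Measurable π)
    (ha : ∀ g z, π (a.τ g z) = a'.τ g (π z)) (hb : ∀ g z, π (b.τ g z) = b'.τ g (π z))
    (hab : ∀ g h z, a.τ g (b.τ h z) = b.τ h (a.τ g z))
    (h3 : ∀ ε η : ℝ, 0 < ε → 0 < η → ∃ S : Set X, MeasurableSet S ∧
      μ Sᶜ ≤ ENNReal.ofReal η ∧ ∃ C1 : ℝ, ∀ (F : BL2 ζ) (u p : SL2R), nS u ≤ 20 →
        ∫ z in Wt a (π ⁻¹' S), (((AA a b F : BL2 ζ) : Z → ℝ) (a.τ (u * p) z)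
            - ((AA a b F : BL2 ζ) : Z → ℝ) (a.τ p z)) ^ 2 ∂ζ
          ≤ C1 * (1 + Real.log (nS p)) * (frm ζ).B (DD a b F) (DD a b F)
            + ε * (frm ζ).B (DD a b F) F)
    (h3' : ∀ ε η : ℝ, 0 < ε → 0 < η → ∃ S : Set X, MeasurableSet S ∧
      μ Sᶜ ≤ ENNReal.ofReal η ∧ ∃ C1 : ℝ, ∀ (F : BL2 ζ) (u p : SL2R), nS u ≤ 20 →
        ∫ z in Wt b (π ⁻¹' S), (((AA b a F : BL2 ζ) : Z → ℝ) (b.τ (u * p) z)
            - ((AA b a F : BL2 ζ) : Z → ℝ) (b.τ p z)) ^ 2 ∂ζ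
          ≤ C1 * (1 + Real.log (nS p)) * (frm ζ).B (DD b a F) (DD b a F)
            + ε * (frm ζ).B (DD b a F) F) :
    ∀ ε η : ℝ, 0 < ε → 0 < η → ∃ S : Set X, MeasurableSet S ∧
      μ Sᶜ ≤ ENNReal.ofReal η ∧ ∃ C1 : ℝ, ∀ (F : BL2 ζ) (j : ℕ),
        ∫ z in π ⁻¹' S, ((((AA a b) ^ j) (gam a b F) : BL2 ζ) : Z → ℝ) z ∂ζ
          ≤ C1 * (1 + j) * (frm ζ).B (DD a b F) (DD a b F) + ε * (frm ζ).B (DD a b F) F := by
  intro ε η hε hη
  obtain ⟨Sa, hSa, hμa, Ca, hCa⟩ := h3 (ε / 8) (η / 4) (by linarith) (by linarith)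
  obtain ⟨Sb, hSb, hμb, Cb, hCb⟩ := h3' (ε / 8) (η / 4) (by linarith) (by linarith)
  refine ⟨Wt a' Sa ∩ Wt b' Sb, (Wt_meas a' hSa).inter (Wt_meas b' hSb), ?_,
    12 * (max Ca 0 + max Cb 0) + 32, ?_⟩
  · rw [Set.compl_inter]
    calc μ ((Wt a' Sa)ᶜ ∪ (Wt b' Sb)ᶜ) ≤ μ (Wt a' Sa)ᶜ + μ (Wt b' Sb)ᶜ := measure_union_le _ _
      _ ≤ 2 * μ Saᶜ + 2 * μ Sbᶜ := add_le_add (Wt_compl a' hSa) (Wt_compl b' hSb)
      _ ≤ 2 * ENNReal.ofReal (η / 4) + 2 * ENNReal.ofReal (η / 4) := by gcongr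
      _ = ENNReal.ofReal η := by
        have h2 : (2 : ENNReal) = ENNReal.ofReal 2 := by simp
        rw [h2, ← ENNReal.ofReal_mul (by norm_num), ← ENNReal.ofReal_add (by linarith) (by linarith)]
        congr 1
        ring
  · intro F j
    have hAA : AA b a = AA a b := by
      unfold AA
      exact (PAct.P_comm nuK hab).eq.symm
    have hDD : DD b a = DD a b := by
      unfold DD
      rw [hAA]
    have hW : MeasurableSet (π ⁻¹' (Wt a' Sa ∩ Wt b' Sb)) :=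
      hπ ((Wt_meas a' hSa).inter (Wt_meas b' hSb))
    have hWa : π ⁻¹' (Wt a' Sa ∩ Wt b' Sb) ⊆ Wt a (π ⁻¹' Sa) := by
      rw [Wt_preimage a a' π ha Sa]
      exact Set.preimage_mono Set.inter_subset_left
    have hWb : π ⁻¹' (Wt a' Sa ∩ Wt b' Sb) ⊆ Wt b (π ⁻¹' Sb) := by
      rw [Wt_preimage b b' π hb Sb]
      exact Set.preimage_mono Set.inter_subset_right
    have hmain := star_Z a b hab j hW F
      (B1 := 3 * max Ca 0 * (1 + j) * (frm ζ).B (DD a b F) (DD a b F)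
        + ε / 8 * (frm ζ).B (DD a b F) F)
      (B2 := 3 * max Cb 0 * (1 + j) * (frm ζ).B (DD a b F) (DD a b F)
        + ε / 8 * (frm ζ).B (DD a b F) F)
      (fun u p hu hp => R0_step a hWa (AA a b F) (DD a b F) F hp (hCa F u p (by linarith)))
      (fun u p hu hp => R0_step b hWb (AA a b F) (DD a b F) F hp (by
        have := hCb F u p (by linarith)
        rw [hAA, hDD] at this
        exact this))
    refine hmain.trans (le_of_eq ?_)
    ring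

end Pool.Agent.SZ
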