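import Mathlib
import Pool.Agent.SZ.Asm2
import Pool.Agent.SZ.R0

/-!
# SZ: the main theorem

Every ergodic, almost surely irreducible invariant random subgroup of `PSL(2,R) x PSL(2,R)` other
than the point mass at the whole group is a lattice IRS.
-/

set_option autoImplicit false

namespace Pool.Agent.SZ

open Pool.Agent.IRS MeasureTheory Set Filter Topology ENNReal

/-- The hypothesis of `scheme` holds for the coset space of every field of subgroups. -/
theorem hstar_fld {X : Type} [MeasurableSpace X] {μ : Measure X} [IsProbabilityMeasure μ]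
    (𝓕 : Fld μ) (hc : ∀ x, ((1, -1) : G2) ∈ 𝓕.H x) : HStar 𝓕 :=
  hstar_of 𝓕.aL 𝓕.bL 𝓕.A1 𝓕.A2 (Prod.fst : X × Pool.Agent.IRS.CL G2 → X) measurable_fst (fun _ _ => rfl)
    (fun _ _ => rfl) 𝓕.aL_bL (h3_fld 𝓕) (h3'_fld 𝓕 hc)

/-- **Main theorem.** -/
theorem sz_main (μ : Measure (ClosedSubgroup GG)) (hμ : IsIRS μ) (herg : IsErg μ)
    (hirr : ∀ᵐ H ∂μ, Irred H) (hne : μ ≠ Measure.dirac topS) : IsLatticeIRS μ := by
  have hdisc := disc hμ herg hirr hne
  have hprob := hμ.prob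
  obtain ⟨𝓕, h1, h2⟩ := exists_fld hμ herg hirr hdisc
  have hc : ∀ H, ((1, -1) : G2) ∈ 𝓕.H H := by
    intro H
    rw [h2, mem_preH]
    have e : pp ((1, -1) : G2) = 1 := by
      change (pr 1, pr (-1)) = 1
      rw [pr_neg_one, map_one]
      rfl
    rw [e]
    exact H.one_mem
  obtain ⟨c, hc0, hct, hc', hψ⟩ := 𝓕.lattice (covolS 𝓕 (hstar_fld 𝓕 hc))
  exact lattice_of_formula hμ 𝓕 h1 h2 hdisc hc0 hct hc' hψ

end Pool.Agent.SZ
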