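import Mathlib
import Pool.Agent.SZ.Nuk

/-!
# SZ, part L: definitions

See `Pool/Agent/SZ/BLUEPRINT.md`, `Pool/Agent/SZ/PartL.md`.  Everything is about right
translations of bounded measurable functions on `S = SL(2,R)` with the bi-invariant measure `mH`.
-/

set_option autoImplicit false

namespace Pool.Agent.SZ

open Pool.Agent.IRS MeasureTheory Set Filter Topology

/-- Bounded measurable functions. -/
def BM (f : SL2R → ℝ) : Prop := Measurable f ∧ ∃ M, ∀ b, |f b| ≤ M

/-- The cost of the right translation by `g` over the ball of radius `R`. -/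
noncomputable def cst (f : SL2R → ℝ) (R : ℝ) (g : SL2R) : ℝ :=
  ∫ b in Bn R, (f (b * g) - f b) ^ 2 ∂mH

/-- The subgroup `H` has an element whose first coordinate is at distance about `t` of the
identity and has cost at most `A`. -/
def Gd (H : Subgroup G2) (f : SL2R → ℝ) (R t A : ℝ) : Prop :=
  ∃ g ∈ H, 2 / 5 * t ≤ d1 g.1 ∧ d1 g.1 ≤ t ∧ cst f R g.1 ≤ A

/-- The commutator of `g` and `v h v⁻¹`. -/
noncomputable def cm (v g h : SL2R) : SL2R := g * (v * h * v⁻¹) * g⁻¹ * (v * h * v⁻¹)⁻¹

/-! ### Words in four letters -/

/-- The four letters: a generator, and `true` for the generator, `false` for its inverse (the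
convention of `FreeGroup`). -/
abbrev Lt := Fin 2 × Bool

/-- The words of length `n`. -/
def WS : ℕ → Finset (List Lt)
  | 0 => {[]}
  | n + 1 => ((Finset.univ : Finset Lt) ×ˢ WS n).image (fun x => x.1 :: x.2)

/-- The value of a letter. -/
def qv (p : Fin 2 → SL2R) (l : Lt) : SL2R := if l.2 then p l.1 else (p l.1)⁻¹

/-- The value of a word. -/
def wv (p : Fin 2 → SL2R) (w : List Lt) : SL2R := (w.map (qv p)).prod

/-! ### The reversible chain -/

/-- The profile. -/
noncomputable def ph (x : SL2R) : ℝ := max 0 (3 - xx x)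

/-- The average of the profile over the four neighbours. -/
noncomputable def Ph (p : Fin 2 → SL2R) (x : SL2R) : ℝ := (∑ l : Lt, ph (x * qv p l)) / 4

/-- The stationary density. -/
noncomputable def pd (p : Fin 2 → SL2R) (x : SL2R) : ℝ := ph x * Ph p x

/-- The conductance (times one quarter). -/
noncomputable def cd (p : Fin 2 → SL2R) (x : SL2R) (l : Lt) : ℝ := ph x * ph (x * qv p l) / 4

/-- The transition probability (zero when `Ph p x = 0`). -/
noncomputable def tr (p : Fin 2 → SL2R) (x : SL2R) (l : Lt) : ℝ := ph (x * qv p l) / (4 * Ph p x)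

/-- The transition operator. -/
noncomputable def Mo (p : Fin 2 → SL2R) (f : SL2R → ℝ) (x : SL2R) : ℝ :=
  ∑ l : Lt, tr p x l * f (x * qv p l)

/-- The probability of the path started at `x` and given by a word. -/
noncomputable def ww (p : Fin 2 → SL2R) : SL2R → List Lt → ℝ
  | _, [] => 1
  | x, l :: w => tr p x l * ww p (x * qv p l) w

/-- The mass of a word. -/
noncomputable def kap (p : Fin 2 → SL2R) (w : List Lt) : ℝ := ∫ x, pd p x * ww p x w ∂mH

/-- The total mass. -/
noncomputable def Zm (p : Fin 2 → SL2R) : ℝ := ∫ x, pd p x ∂mH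

/-- The positive part of the logarithm of the ratio. -/
noncomputable def gl (p : Fin 2 → SL2R) (x : SL2R) : ℝ := max 0 (Real.log (ph x / Ph p x))

/-- The sum of `gl` along the path (without the last point). -/
noncomputable def gs (p : Fin 2 → SL2R) : SL2R → List Lt → ℝ
  | _, [] => 0
  | x, l :: w => gl p x + gs p (x * qv p l) w

end Pool.Agent.SZ
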