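import Pool.Agent.SZ.LDefs

/-!
# L_DST: distances in SL(2,R)

Write `X = g - 1` for the matrix of `g` minus the identity; `d1 g = nM X`.

* `nS_le_d1`: `nM g ≤ nM 1 + nM (g - 1)` (`nM_sub_le`), `nM 1 = 2`.
* `d1_inv`: the entries of `g⁻¹` are `g 1 1, -g 0 1, -g 1 0, g 0 0` (see `nS_inv`).
* `d1_nonneg`, `d1_eq_zero`: all entries of `g - 1` vanish iff `g = 1` (`SL_ext`).
* `d1_sq`: `g * g - 1 = 2 X + X * X`, so `|d1 (g g) - 2 d1 g| ≤ (d1 g)^2` (`nM_mul_le`, and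
  `nM (2 X) = 2 nM X`); with `d1 g ≤ 1/2` this gives both bounds.
* `d1_conj_le`: `v h v⁻¹ - 1 = v (h - 1) v⁻¹`.
* `dm_le`, `d1_inv_mul_le`: `h - g = g (g⁻¹ h - 1)` and `g⁻¹ h - 1 = g⁻¹ (h - g)`.
* `trace_le`: `det (1 + X) = 1` gives `X 0 0 + X 1 1 = -(X 0 0 * X 1 1 - X 0 1 * X 1 0)`.
-/

set_option autoImplicit false

namespace Pool.Agent.SZ

open Pool.Agent.IRS MeasureTheory Set Filter Topology

private lemma d1_def (g : SL2R) :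
    d1 g = |g 0 0 - 1| + |g 0 1| + |g 1 0| + |g 1 1 - 1| := by
  unfold d1 nM
  simp [Matrix.sub_apply]

private lemma coe_inv_mul (g : SL2R) :
    ((g⁻¹ : SL2R) : Matrix (Fin 2) (Fin 2) ℝ) * (g : Matrix (Fin 2) (Fin 2) ℝ) = 1 := by
  rw [← Matrix.SpecialLinearGroup.coe_mul, inv_mul_cancel, Matrix.SpecialLinearGroup.coe_one]

private lemma coe_mul_inv (g : SL2R) :
    (g : Matrix (Fin 2) (Fin 2) ℝ) * ((g⁻¹ : SL2R) : Matrix (Fin 2) (Fin 2) ℝ) = 1 := by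
  rw [← Matrix.SpecialLinearGroup.coe_mul, mul_inv_cancel, Matrix.SpecialLinearGroup.coe_one]

theorem d1_nonneg (g : SL2R) : 0 ≤ d1 g := nM_nonneg _

theorem d1_eq_zero {g : SL2R} : d1 g = 0 ↔ g = 1 := by
  constructor
  · intro h
    rw [d1_def] at h
    have p0 := abs_nonneg (g 0 0 - 1)
    have p1 := abs_nonneg (g 0 1)
    have p2 := abs_nonneg (g 1 0)
    have p3 := abs_nonneg (g 1 1 - 1)
    have e0 : |g 0 0 - 1| = 0 := by linarith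
    have e1 : |g 0 1| = 0 := by linarith
    have e2 : |g 1 0| = 0 := by linarith
    have e3 : |g 1 1 - 1| = 0 := by linarith
    rw [abs_eq_zero] at e0 e1 e2 e3
    apply SL_ext
    · simpa [sub_eq_zero] using e0
    · simpa using e1
    · simpa using e2
    · simpa [sub_eq_zero] using e3
  · rintro rfl
    rw [d1_def]
    simp

theorem nS_le_d1 (g : SL2R) : nS g ≤ 2 + d1 g := by
  have h := nM_sub_le (g : Matrix (Fin 2) (Fin 2) ℝ) 1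
  have h1 : nM (1 : Matrix (Fin 2) (Fin 2) ℝ) = 2 := by
    unfold nM
    simp
    norm_num
  rw [h1] at h
  exact h

theorem d1_inv (g : SL2R) : d1 g⁻¹ = d1 g := by
  unfold d1 nM
  rw [Matrix.SpecialLinearGroup.coe_inv, Matrix.adjugate_fin_two]
  simp
  ring

theorem d1_sq {g : SL2R} (h : d1 g ≤ 1 / 2) :
    3 / 2 * d1 g ≤ d1 (g * g) ∧ d1 (g * g) ≤ 5 / 2 * d1 g := by
  set X : Matrix (Fin 2) (Fin 2) ℝ := (g : Matrix (Fin 2) (Fin 2) ℝ) - 1 with hX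
  have hd : d1 g = nM X := rfl
  have h2 : d1 (g * g) = nM ((2 : ℝ) • X + X * X) := by
    unfold d1
    rw [Matrix.SpecialLinearGroup.coe_mul]
    congr 1
    rw [hX, two_smul]
    noncomm_ring
  have h3 : nM ((2 : ℝ) • X) = 2 * nM X := by
    unfold nM
    simp only [Matrix.smul_apply, smul_eq_mul, abs_mul, Nat.abs_ofNat]
    ring
  have h4 : |nM ((2 : ℝ) • X + X * X) - nM ((2 : ℝ) • X)| ≤ nM (X * X) := by
    have := abs_nM_sub ((2 : ℝ) • X + X * X) ((2 : ℝ) • X)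
    rwa [add_sub_cancel_left] at this
  have h5 := nM_mul_le X X
  have h6 := nM_nonneg X
  rw [hd] at h ⊢
  rw [h2]
  rw [h3, abs_le] at h4
  constructor <;> nlinarith

theorem d1_conj_le (v h : SL2R) : d1 (v * h * v⁻¹) ≤ nS v ^ 2 * d1 h := by
  have e : ((v * h * v⁻¹ : SL2R) : Matrix (Fin 2) (Fin 2) ℝ) - 1 =
      (v : Matrix (Fin 2) (Fin 2) ℝ) * ((h : Matrix (Fin 2) (Fin 2) ℝ) - 1) *
        ((v⁻¹ : SL2R) : Matrix (Fin 2) (Fin 2) ℝ) := by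
    rw [Matrix.SpecialLinearGroup.coe_mul, Matrix.SpecialLinearGroup.coe_mul, mul_sub, sub_mul,
      mul_one, coe_mul_inv]
  unfold d1
  rw [e]
  have h1 := nM_mul_le ((v : Matrix (Fin 2) (Fin 2) ℝ) * ((h : Matrix (Fin 2) (Fin 2) ℝ) - 1))
    ((v⁻¹ : SL2R) : Matrix (Fin 2) (Fin 2) ℝ)
  have h2 := nM_mul_le (v : Matrix (Fin 2) (Fin 2) ℝ) ((h : Matrix (Fin 2) (Fin 2) ℝ) - 1)
  have h3 : nM ((v⁻¹ : SL2R) : Matrix (Fin 2) (Fin 2) ℝ) = nS v := nS_inv v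
  have h4 : nM (v : Matrix (Fin 2) (Fin 2) ℝ) = nS v := rfl
  rw [h3] at h1
  rw [h4] at h2
  calc _ ≤ _ := h1
    _ ≤ (nS v * nM ((h : Matrix (Fin 2) (Fin 2) ℝ) - 1)) * nS v :=
        mul_le_mul_of_nonneg_right h2 (nS_pos v).le
    _ = _ := by ring

theorem dm_le (g h : SL2R) : dm g h ≤ nS g * d1 (g⁻¹ * h) := by
  have e : (h : Matrix (Fin 2) (Fin 2) ℝ) - (g : Matrix (Fin 2) (Fin 2) ℝ) =
      (g : Matrix (Fin 2) (Fin 2) ℝ) * (((g⁻¹ * h : SL2R) : Matrix (Fin 2) (Fin 2) ℝ) - 1) := by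
    rw [Matrix.SpecialLinearGroup.coe_mul, mul_sub, ← mul_assoc, coe_mul_inv, one_mul, mul_one]
  unfold dm
  rw [nM_sub_comm, e]
  exact nM_mul_le _ _

theorem d1_inv_mul_le (g h : SL2R) : d1 (g⁻¹ * h) ≤ nS g * dm g h := by
  have e : ((g⁻¹ * h : SL2R) : Matrix (Fin 2) (Fin 2) ℝ) - 1 =
      ((g⁻¹ : SL2R) : Matrix (Fin 2) (Fin 2) ℝ) *
        ((h : Matrix (Fin 2) (Fin 2) ℝ) - (g : Matrix (Fin 2) (Fin 2) ℝ)) := by
    rw [Matrix.SpecialLinearGroup.coe_mul, mul_sub, coe_inv_mul]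
  unfold d1 dm
  rw [e, nM_sub_comm (g : Matrix (Fin 2) (Fin 2) ℝ) (h : Matrix (Fin 2) (Fin 2) ℝ)]
  have h3 : nM ((g⁻¹ : SL2R) : Matrix (Fin 2) (Fin 2) ℝ) = nS g := nS_inv g
  have h1 := nM_mul_le ((g⁻¹ : SL2R) : Matrix (Fin 2) (Fin 2) ℝ)
    ((h : Matrix (Fin 2) (Fin 2) ℝ) - (g : Matrix (Fin 2) (Fin 2) ℝ))
  rw [h3] at h1
  exact h1

theorem trace_le (g : SL2R) : |(g 0 0 - 1) + (g 1 1 - 1)| ≤ d1 g ^ 2 := by
  have hdet := det_eq g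
  have e : (g 0 0 - 1) + (g 1 1 - 1) = g 0 1 * g 1 0 - (g 0 0 - 1) * (g 1 1 - 1) := by
    linarith [hdet, (by ring : (g 0 0 - 1) * (g 1 1 - 1) = g 0 0 * g 1 1 - g 0 0 - g 1 1 + 1)]
  rw [e, d1_def]
  have h1 : |g 0 1 * g 1 0 - (g 0 0 - 1) * (g 1 1 - 1)| ≤
      |g 0 1| * |g 1 0| + |g 0 0 - 1| * |g 1 1 - 1| := by
    rw [← abs_mul, ← abs_mul]
    exact abs_sub _ _
  refine h1.trans ?_
  have p0 := abs_nonneg (g 0 0 - 1)
  have p1 := abs_nonneg (g 0 1)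
  have p2 := abs_nonneg (g 1 0)
  have p3 := abs_nonneg (g 1 1 - 1)
  nlinarith [mul_nonneg p0 p1, mul_nonneg p0 p2, mul_nonneg p0 p3, mul_nonneg p1 p2,
    mul_nonneg p1 p3, mul_nonneg p2 p3]

end Pool.Agent.SZ
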