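import Pool.Agent.SZ.L_CSB
import Pool.Agent.SZ.L_DST

/-!
# L_RNM: renormalisation by squaring

* `Gd.mono`: larger radius for the hypothesis (`cst_mono`), larger cost.
* `renorm`: induction on `m` (all `lo`, `A`, `R`, `g`).  Note `0 ≤ A` (`cst_nonneg`).
  If `2/5 * t ≤ d1 g.1`: take `g` itself (`cst_mono`: `R ≤ R * 3^m`, and `A ≤ 4^m * A`).
  Otherwise `d1 g.1 < 2/5 * t ≤ 1/5`, so `m ≥ 1` (if `m = 0` then `t ≤ lo ≤ d1 g.1 < 2/5 t`,
  contradiction with `0 < lo ≤ t`); by `d1_sq`: `3/2 * lo ≤ d1 (g * g).1 ≤ 5/2 * d1 g.1 ≤ t`.  Apply the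
  induction hypothesis for `m - 1`, `3/2 * lo`, `g * g`, `4 * A`:
  `cst f (R * 3^(m-1)) (g * g).1 ≤ 2 cst f (R 3^(m-1)) g + 2 cst f (R 3^(m-1) nS g) g ≤ 4 cst f (R 3^m) g`
  (`cst_mul`, `cst_mono`, `nS g.1 ≤ 2 + d1 g.1 ≤ 3`).
-/

set_option autoImplicit false

namespace Pool.Agent.SZ

open Pool.Agent.IRS MeasureTheory Set Filter Topology

theorem Gd.mono {H : Subgroup G2} {f : SL2R → ℝ} (hf : BM f) {R R' t A A' : ℝ}
    (h : Gd H f R' t A) (hR : R ≤ R') (hA : A ≤ A') : Gd H f R t A' := by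
  obtain ⟨g, hg, h1, h2, h3⟩ := h
  exact ⟨g, hg, h1, h2, ((cst_mono hf hR g.1).trans h3).trans hA⟩

theorem Gd.nonneg {H : Subgroup G2} {f : SL2R → ℝ} {R t A : ℝ} (h : Gd H f R t A) : 0 ≤ A := by
  obtain ⟨g, hg, h1, h2, h3⟩ := h
  exact (cst_nonneg f R g.1).trans h3

theorem renorm {H : Subgroup G2} {f : SL2R → ℝ} (hf : BM f) (m : ℕ) :
    ∀ {lo t A R : ℝ}, 0 < lo → t ≤ 1 / 2 → t ≤ lo * (3 / 2) ^ m → 0 ≤ R → ∀ g ∈ H,
      lo ≤ d1 g.1 → d1 g.1 ≤ t → cst f (R * 3 ^ m) g.1 ≤ A → Gd H f R t (4 ^ m * A) := by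
  induction m with
  | zero =>
    intro lo t A R hlo ht htm hR g hg h1 h2 h3
    rw [pow_zero, mul_one] at htm h3
    refine ⟨g, hg, by linarith, h2, ?_⟩
    rw [pow_zero, one_mul]
    exact h3
  | succ m ih =>
    intro lo t A R hlo ht htm hR g hg h1 h2 h3
    have hA : 0 ≤ A := (cst_nonneg f _ g.1).trans h3
    by_cases hc : 2 / 5 * t ≤ d1 g.1
    · refine ⟨g, hg, hc, h2, ?_⟩
      have h4 : R ≤ R * 3 ^ (m + 1) := le_mul_of_one_le_right hR (one_le_pow₀ (by norm_num))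
      have h5 : A ≤ 4 ^ (m + 1) * A := le_mul_of_one_le_left hA (one_le_pow₀ (by norm_num))
      exact ((cst_mono hf h4 g.1).trans h3).trans h5
    · push Not at hc
      have hd : d1 g.1 ≤ 1 / 2 := by linarith
      obtain ⟨s1, s2⟩ := d1_sq hd
      have hgg : (g * g).1 = g.1 * g.1 := rfl
      have hn : nS g.1 ≤ 3 := by
        have := nS_le_d1 g.1
        linarith
      have h3m : 0 ≤ R * 3 ^ m := by positivity
      have hR1 : R * 3 ^ m * nS g.1 ≤ R * 3 ^ (m + 1) := by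
        calc R * 3 ^ m * nS g.1 ≤ R * 3 ^ m * 3 := mul_le_mul_of_nonneg_left hn h3m
          _ = R * 3 ^ (m + 1) := by ring
      have hR2 : R * 3 ^ m ≤ R * 3 ^ (m + 1) := by
        calc R * 3 ^ m ≤ R * 3 ^ m * 3 := by linarith
          _ = R * 3 ^ (m + 1) := by ring
      have hcost : cst f (R * 3 ^ m) (g.1 * g.1) ≤ 4 * A := by
        have c1 := cst_mul hf (R * 3 ^ m) g.1 g.1
        have c2 := (cst_mono hf hR1 g.1).trans h3
        have c3 := (cst_mono hf hR2 g.1).trans h3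
        linarith
      have key := ih (lo := 3 / 2 * lo) (t := t) (A := 4 * A) (R := R) (by linarith) ht
        (by
          calc t ≤ lo * (3 / 2) ^ (m + 1) := htm
            _ = 3 / 2 * lo * (3 / 2) ^ m := by ring) hR (g * g) (H.mul_mem hg hg)
        (by rw [hgg]; linarith) (by rw [hgg]; linarith) (by rw [hgg]; exact hcost)
      have e : (4 : ℝ) ^ m * (4 * A) = 4 ^ (m + 1) * A := by ring
      rw [e] at key
      exact key

end Pool.Agent.SZ
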