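import Pool.Agent.SZ.L_DNS
import Pool.Agent.SZ.L_RNM

/-!
# L_BDS: the set of good scales has positive Schnirelmann density

`ε, C` from `dens`.  Given `T ≥ 2`: `c3, m0` from `dens` (may assume `c3 ≤ 1` by `min`).
`σ = c3 / 2`.  Let `m1 ∈ ℕ` with `m1 ≥ 24 / c3`, `m1 ≥ m0` (so `c3 n - 12 ≥ σ n` for `n ≥ m1`), and
`m2 ∈ ℕ` with `m2 ≥ m0`, `c3 * m2 > m1 + 13`.  `m = 2 * (m2 + 14)`.
For `R ≥ 0` let `R1 = R * 3 ^ m`, `R' = 625 * R1`, `E = ∑_l cst f R' (qv p1 l) ≥ 0`, and apply `dens` at the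
radius `R1`: `S = Sc H f R1 (C E)`.
* If `a + 12 ∈ S` then `Gd H f R (2⁻¹^(a+12)) (4^24 * (C E (1 + (a + 12))))`: `renorm` with `m = 24`,
  `lo = 2⁻¹^(a+12+14)`, `t = 2⁻¹^(a+12) ≤ 1/2`, `2^14 ≤ (3/2)^24` (`norm_num`), and
  `R * 3^24 ≤ R1` (`cst_mono`, as `24 ≤ m`).
* There is `j0 ∈ S` with `m1 + 12 < j0 ≤ m2` (at least `c3 m2 > m1 + 13` elements in `[1, m2]`).  For
  `a ≤ m1`: `Gd H f R (2⁻¹^(a+12)) (4^m * (C E (1 + j0)))`: `renorm` with `m = 2 (m2 + 14)`,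
  `lo = 2⁻¹^(j0+14)`, `t = 2⁻¹^(a+12)`, `d1 g ≤ 2⁻¹^j0 ≤ t`, and
  `t ≤ 1 ≤ 2⁻¹^(j0+14) * (9/4)^(m2+14)`.
Both are at most `A * (1 + a) * E` with `A = 4^m * C * (14 + m2)`  (`m ≥ 24`).
So with `𝒜 = {a | Gd H f R (2⁻¹^(a+12)) (A (1+a) E)}`: `[0, m1] ⊆ 𝒜`, and `a + 12 ∈ S → a ∈ 𝒜`.
For `1 ≤ n ≤ m1`: all `n` numbers of `[1,n]` are in `𝒜`, `σ n ≤ n`.  For `n > m1`: the map `a ↦ a + 12` gives
`#(𝒜 ∩ [1,n]) ≥ #(S ∩ [13, n + 12]) ≥ #(S ∩ [1, n + 12]) - 12 ≥ c3 (n + 12) - 12 ≥ c3 n - 12 ≥ σ n`.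
-/

set_option autoImplicit false

namespace Pool.Agent.SZ

open Pool.Agent.IRS MeasureTheory Set Filter Topology

/-- The good scales. -/
def Gs (H : Subgroup G2) (f : SL2R → ℝ) (R A : ℝ) : Set ℕ :=
  {a | Gd H f R (2⁻¹ ^ (a + 12)) (A * (1 + a))}

private lemma bds_card (S : Set ℕ) (n : ℕ) :
    Nat.card {k : ℕ | k ∈ S ∧ 1 ≤ k ∧ k ≤ n}
      = (open Classical in ((Finset.Icc 1 n).filter (fun k => k ∈ S)).card) := by
  classical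
  have h : {k : ℕ | k ∈ S ∧ 1 ≤ k ∧ k ≤ n}
      = ((((Finset.Icc 1 n).filter (fun k => k ∈ S)) : Finset ℕ) : Set ℕ) := by
    ext k
    simp only [Set.mem_ofPred_eq, Finset.coe_filter, Finset.mem_Icc]
    tauto
  rw [h, Nat.card_coe_set_eq, Set.ncard_coe_finset]

private lemma bds_shift (S G : Set ℕ) (hSG : ∀ a, a + 12 ∈ S → a ∈ G) (n : ℕ) :
    Nat.card {k : ℕ | k ∈ S ∧ 1 ≤ k ∧ k ≤ n + 12}
      ≤ Nat.card {k : ℕ | k ∈ G ∧ 1 ≤ k ∧ k ≤ n} + 12 := by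
  classical
  rw [bds_card, bds_card]
  have h1 : ((Finset.Icc 1 (n + 12)).filter (fun k => k ∈ S))
      ⊆ (((Finset.Icc 1 n).filter (fun k => k ∈ G)).image (fun a => a + 12))
        ∪ Finset.Icc 1 12 := by
    intro k hk
    simp only [Finset.mem_filter, Finset.mem_Icc] at hk
    obtain ⟨⟨k1, k2⟩, kS⟩ := hk
    rw [Finset.mem_union]
    by_cases hk12 : k ≤ 12
    · right
      exact Finset.mem_Icc.mpr ⟨k1, hk12⟩
    · left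
      push Not at hk12
      obtain ⟨a, rfl⟩ : ∃ a, k = a + 12 := ⟨k - 12, by omega⟩
      refine Finset.mem_image.mpr ⟨a, ?_, rfl⟩
      simp only [Finset.mem_filter, Finset.mem_Icc]
      exact ⟨⟨by omega, by omega⟩, hSG a kS⟩
  calc ((Finset.Icc 1 (n + 12)).filter (fun k => k ∈ S)).card
      ≤ ((((Finset.Icc 1 n).filter (fun k => k ∈ G)).image (fun a => a + 12))
        ∪ Finset.Icc 1 12).card := Finset.card_le_card h1
    _ ≤ (((Finset.Icc 1 n).filter (fun k => k ∈ G)).image (fun a => a + 12)).card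
        + (Finset.Icc 1 12).card := Finset.card_union_le _ _
    _ ≤ ((Finset.Icc 1 n).filter (fun k => k ∈ G)).card + 12 := by
        refine add_le_add Finset.card_image_le ?_
        simp

private lemma bds_exists (S : Set ℕ) (m1 m2 : ℕ)
    (h : m1 + 13 ≤ Nat.card {k : ℕ | k ∈ S ∧ 1 ≤ k ∧ k ≤ m2}) :
    ∃ j ∈ S, m1 + 12 < j ∧ j ≤ m2 := by
  classical
  rw [bds_card] at h
  by_contra hc
  push Not at hc
  have h1 : ((Finset.Icc 1 m2).filter (fun k => k ∈ S)) ⊆ Finset.Icc 1 (m1 + 12) := by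
    intro k hk
    simp only [Finset.mem_filter, Finset.mem_Icc] at hk
    obtain ⟨⟨k1, k2⟩, kS⟩ := hk
    rw [Finset.mem_Icc]
    refine ⟨k1, ?_⟩
    by_contra h2
    push Not at h2
    exact absurd (hc k kS h2) (by omega)
  have h2 := Finset.card_le_card h1
  rw [Nat.card_Icc] at h2
  omega

private lemma bds_full (G : Set ℕ) (m1 n : ℕ) (hG : ∀ a, a ≤ m1 → a ∈ G) (hn : n ≤ m1) :
    n ≤ Nat.card {k : ℕ | k ∈ G ∧ 1 ≤ k ∧ k ≤ n} := by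
  classical
  rw [bds_card]
  have h1 : Finset.Icc 1 n ⊆ ((Finset.Icc 1 n).filter (fun k => k ∈ G)) := by
    intro k hk
    rw [Finset.mem_filter]
    exact ⟨hk, hG k ((Finset.mem_Icc.mp hk).2.trans hn)⟩
  have h2 := Finset.card_le_card h1
  rw [Nat.card_Icc] at h2
  omega

theorem bds : ∃ ε : ℝ, 0 < ε ∧ ε ≤ 1 / 2 ∧ ∀ T : ℝ, 2 ≤ T →
    ∃ σ : ℝ, 0 < σ ∧ ∃ A : ℝ, 0 ≤ A ∧ ∃ Λ : ℝ, 0 ≤ Λ ∧ ∀ (H : Subgroup G2) (p : Fin 2 → G2),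
      (∀ i, p i ∈ H ∧ d1 (p i).1 ≤ ε ∧ nS (p i).2 ≤ T) →
      Function.Injective (FreeGroup.lift p : FreeGroup (Fin 2) →* G2) → DioT T H → InjT H →
      ∀ f : SL2R → ℝ, BM f → ∀ R : ℝ, 0 ≤ R →
        0 ∈ Gs H f R (A * ∑ l : Lt, cst f (Λ * R) (qv (fun i => (p i).1) l)) ∧
        ∀ n : ℕ, 1 ≤ n → σ * n ≤ (Nat.card {a : ℕ | a ∈ Gs H f R
          (A * ∑ l : Lt, cst f (Λ * R) (qv (fun i => (p i).1) l)) ∧ 1 ≤ a ∧ a ≤ n} : ℝ) := by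
  obtain ⟨ε, hε, hε2, C, hC, hd⟩ := dens
  refine ⟨ε, hε, hε2, fun T hT => ?_⟩
  obtain ⟨c3, hc3, m0, hdens⟩ := hd T hT
  set c : ℝ := min c3 1 with hcdef
  have hc : 0 < c := lt_min hc3 one_pos
  have hc1 : c ≤ 1 := min_le_right _ _
  have hcc : c ≤ c3 := min_le_left _ _
  obtain ⟨k1, hk1⟩ := exists_nat_ge (24 / c)
  set m1 : ℕ := max k1 m0 with hm1
  have hm1a : 24 / c ≤ m1 := hk1.trans (by exact_mod_cast le_max_left k1 m0)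
  have hm1b : m0 ≤ m1 := le_max_right _ _
  obtain ⟨k2, hk2⟩ := exists_nat_ge (((m1 : ℝ) + 13) / c)
  set m2 : ℕ := max k2 m0 with hm2
  have hm2a : ((m1 : ℝ) + 13) / c ≤ m2 := hk2.trans (by exact_mod_cast le_max_left k2 m0)
  have hm2b : m0 ≤ m2 := le_max_right _ _
  have hm2c : (m1 : ℝ) + 13 ≤ c * m2 := by
    rw [div_le_iff₀ hc] at hm2a
    linarith
  set m : ℕ := 2 * (m2 + 14) with hm
  refine ⟨c / 2, by positivity, 4 ^ m * C * (14 + m2), by positivity, 625 * 3 ^ m, by positivity,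
    fun H p hp hinj hdio hinjT f hf R hR => ?_⟩
  have hR1 : 0 ≤ R * 3 ^ m := by positivity
  have hrad : 625 * (3 : ℝ) ^ m * R = 625 * (R * 3 ^ m) := by ring
  rw [hrad]
  set E : ℝ := ∑ l : Lt, cst f (625 * (R * 3 ^ m)) (qv (fun i => (p i).1) l) with hE
  have hE0 : 0 ≤ E := Finset.sum_nonneg fun l _ => cst_nonneg _ _ _
  have hCE : 0 ≤ C * E := mul_nonneg hC hE0
  have hD : ∀ q : ℕ, m0 ≤ q → c * q ≤ (Nat.card {k : ℕ | k ∈ Sc H f (R * 3 ^ m) (C * E)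
      ∧ 1 ≤ k ∧ k ≤ q} : ℝ) := by
    intro q hq
    have h1 := hdens H p hp hinj hdio hinjT f hf (R * 3 ^ m) hR1 q hq
    refine le_trans (mul_le_mul_of_nonneg_right hcc (Nat.cast_nonneg q)) h1
  set S : Set ℕ := Sc H f (R * 3 ^ m) (C * E) with hS
  set G : Set ℕ := Gs H f R (4 ^ m * C * (14 + m2) * E) with hG
  have h4m : (4 : ℝ) ^ 24 ≤ 4 ^ m := pow_le_pow_right₀ (by norm_num) (by omega)
  have hhalf : ∀ a : ℕ, (2⁻¹ : ℝ) ^ (a + 12) ≤ 1 / 2 := by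
    intro a
    have h1 : (2⁻¹ : ℝ) ^ (a + 12) ≤ (2⁻¹ : ℝ) ^ 1 :=
      pow_le_pow_of_le_one (by norm_num) (by norm_num) (by omega)
    rw [pow_one] at h1
    linarith
  -- shift
  have hSG : ∀ a, a + 12 ∈ S → a ∈ G := by
    intro a ha
    obtain ⟨g, hg, g1, g2, g3⟩ := ha
    have h1 : (2⁻¹ : ℝ) ^ (a + 12) ≤ (2⁻¹ : ℝ) ^ (a + 12 + 14) * (3 / 2) ^ 24 := by
      rw [pow_add (2⁻¹ : ℝ) (a + 12) 14]
      have h2 : (1 : ℝ) ≤ 2⁻¹ ^ 14 * (3 / 2) ^ 24 := by norm_num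
      have h3 : (0 : ℝ) ≤ 2⁻¹ ^ (a + 12) := by positivity
      calc (2⁻¹ : ℝ) ^ (a + 12) = 2⁻¹ ^ (a + 12) * 1 := (mul_one _).symm
        _ ≤ 2⁻¹ ^ (a + 12) * (2⁻¹ ^ 14 * (3 / 2) ^ 24) := mul_le_mul_of_nonneg_left h2 h3
        _ = _ := by ring
    have h24 : R * 3 ^ 24 ≤ R * 3 ^ m :=
      mul_le_mul_of_nonneg_left (pow_le_pow_right₀ (by norm_num) (by omega)) hR
    have h5 := renorm hf 24 (by positivity) (hhalf a) h1 hR g hg g1 g2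
      ((cst_mono hf h24 g.1).trans g3)
    refine h5.mono hf le_rfl ?_
    push_cast
    have ha0 : (0 : ℝ) ≤ a := Nat.cast_nonneg a
    have hm20 : (0 : ℝ) ≤ m2 := Nat.cast_nonneg m2
    have e1 : 1 + ((a : ℝ) + 12) ≤ (14 + m2) * (1 + a) := by nlinarith
    calc (4 : ℝ) ^ 24 * (C * E * (1 + ((a : ℝ) + 12)))
        ≤ 4 ^ m * (C * E * ((14 + m2) * (1 + a))) := by
          refine mul_le_mul h4m ?_ (by positivity) (by positivity)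
          exact mul_le_mul_of_nonneg_left e1 hCE
      _ = 4 ^ m * C * (14 + m2) * E * (1 + a) := by ring
  -- the element `j0`
  obtain ⟨j0, hj0, hj1, hj2⟩ : ∃ j ∈ S, m1 + 12 < j ∧ j ≤ m2 := by
    refine bds_exists S m1 m2 ?_
    have h1 := hD m2 hm2b
    have h2 : ((m1 + 13 : ℕ) : ℝ) ≤ (Nat.card {k : ℕ | k ∈ S ∧ 1 ≤ k ∧ k ≤ m2} : ℝ) := by
      push_cast
      linarith
    exact_mod_cast h2
  have hlow : ∀ a, a ≤ m1 → a ∈ G := by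
    intro a ha
    obtain ⟨g, hg, g1, g2, g3⟩ := hj0
    have h1 : (2⁻¹ : ℝ) ^ j0 ≤ 2⁻¹ ^ (a + 12) :=
      pow_le_pow_of_le_one (by norm_num) (by norm_num) (by omega)
    have h2 : (2⁻¹ : ℝ) ^ (a + 12) ≤ (2⁻¹ : ℝ) ^ (j0 + 14) * (3 / 2) ^ m := by
      have e1 : ((3 : ℝ) / 2) ^ m = (9 / 4) ^ (m2 + 14) := by
        rw [hm, pow_mul]
        norm_num
      have e2 : (2 : ℝ) ^ (j0 + 14) ≤ (9 / 4) ^ (m2 + 14) := by
        calc (2 : ℝ) ^ (j0 + 14) ≤ 2 ^ (m2 + 14) := pow_le_pow_right₀ (by norm_num) (by omega)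
          _ ≤ (9 / 4) ^ (m2 + 14) := pow_le_pow_left₀ (by norm_num) (by norm_num) _
      have e3 : (2⁻¹ : ℝ) ^ (j0 + 14) * 2 ^ (j0 + 14) = 1 := by
        rw [← mul_pow]
        norm_num
      have e4 : (2⁻¹ : ℝ) ^ (a + 12) ≤ 1 := pow_le_one₀ (by norm_num) (by norm_num)
      rw [e1]
      calc (2⁻¹ : ℝ) ^ (a + 12) ≤ 1 := e4
        _ = (2⁻¹ : ℝ) ^ (j0 + 14) * 2 ^ (j0 + 14) := e3.symm
        _ ≤ (2⁻¹ : ℝ) ^ (j0 + 14) * (9 / 4) ^ (m2 + 14) :=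
          mul_le_mul_of_nonneg_left e2 (by positivity)
    have h5 := renorm hf m (by positivity) (hhalf a) h2 hR g hg g1 (g2.trans h1) g3
    refine h5.mono hf le_rfl ?_
    have ha0 : (0 : ℝ) ≤ a := Nat.cast_nonneg a
    have hm20 : (0 : ℝ) ≤ m2 := Nat.cast_nonneg m2
    have hj : (j0 : ℝ) ≤ m2 := by exact_mod_cast hj2
    have e1 : 1 + (j0 : ℝ) ≤ (14 + m2) * (1 + a) := by nlinarith
    calc (4 : ℝ) ^ m * (C * E * (1 + (j0 : ℝ)))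
        ≤ 4 ^ m * (C * E * ((14 + m2) * (1 + a))) := by
          refine mul_le_mul_of_nonneg_left ?_ (by positivity)
          exact mul_le_mul_of_nonneg_left e1 hCE
      _ = 4 ^ m * C * (14 + m2) * E * (1 + a) := by ring
  refine ⟨hlow 0 (Nat.zero_le _), fun n hn => ?_⟩
  by_cases hnm : n ≤ m1
  · have h1 := bds_full G m1 n hlow hnm
    have h2 : (n : ℝ) ≤ (Nat.card {k : ℕ | k ∈ G ∧ 1 ≤ k ∧ k ≤ n} : ℝ) := by exact_mod_cast h1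
    have h3 : c / 2 * n ≤ 1 * n :=
      mul_le_mul_of_nonneg_right (by linarith) (Nat.cast_nonneg n)
    linarith
  · push Not at hnm
    have h1 := bds_shift S G hSG n
    have h2 := hD (n + 12) (by omega)
    have h3 : (Nat.card {k : ℕ | k ∈ S ∧ 1 ≤ k ∧ k ≤ n + 12} : ℝ)
        ≤ (Nat.card {k : ℕ | k ∈ G ∧ 1 ≤ k ∧ k ≤ n} : ℝ) + 12 := by exact_mod_cast h1
    push_cast at h2
    have h4 : 24 / c ≤ n := hm1a.trans (by exact_mod_cast hnm.le)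
    rw [div_le_iff₀ hc] at h4
    linarith

end Pool.Agent.SZ
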