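import Mathlib

/-!
# L_FGN: neighbours in the free group of rank two

`fw v = 3^(-|v|/2) = (√3)⁻¹ ^ |v|`, `|v| = FreeGroup.norm v`, letters `(i, b)` as in
`FreeGroup.mk [(i, b)]`.

* `fg_nbr`: the sum of `fw (v * l)` over the four letters `l` is at most `2 √3 fw v`.
-/

set_option autoImplicit false

namespace Pool.Agent.SZ

/-- The weight of an element of the free group. -/
noncomputable def fw (v : FreeGroup (Fin 2)) : ℝ := (Real.sqrt 3)⁻¹ ^ v.norm

theorem fg_norm_mul (v : FreeGroup (Fin 2)) (l : Fin 2 × Bool) :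
    (v * FreeGroup.mk [l]).norm = (FreeGroup.reduce ((l.1, !l.2) :: v⁻¹.toWord)).length := by
  rw [← FreeGroup.norm_inv_eq]
  have h1 : (v * FreeGroup.mk [l])⁻¹ = FreeGroup.mk [(l.1, !l.2)] * v⁻¹ := by
    rw [mul_inv_rev, FreeGroup.inv_mk]
    simp [FreeGroup.invRev]
  rw [h1, FreeGroup.norm, FreeGroup.toWord_mul, FreeGroup.toWord_mk, FreeGroup.reduce_singleton]
  rfl

theorem fg_nbr (v : FreeGroup (Fin 2)) :
    ∑ l : Fin 2 × Bool, fw (v * FreeGroup.mk [l]) ≤ 2 * Real.sqrt 3 * fw v := by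
  have h3 : (0 : ℝ) < Real.sqrt 3 := Real.sqrt_pos.mpr (by norm_num)
  have hsq : Real.sqrt 3 * Real.sqrt 3 = 3 := Real.mul_self_sqrt (by norm_num)
  have hs : (Real.sqrt 3)⁻¹ * (Real.sqrt 3)⁻¹ = 1 / 3 := by
    rw [← mul_inv, hsq]; norm_num
  have hs1 : Real.sqrt 3 * (Real.sqrt 3)⁻¹ = 1 := mul_inv_cancel₀ h3.ne'
  set s : ℝ := (Real.sqrt 3)⁻¹ with hsdef
  have hv : v.norm = v⁻¹.toWord.length := by
    rw [← FreeGroup.norm_inv_eq, FreeGroup.norm]
  have hred : FreeGroup.reduce v⁻¹.toWord = v⁻¹.toWord := FreeGroup.reduce_toWord _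
  have key : ∀ l : Fin 2 × Bool, fw (v * FreeGroup.mk [l])
      = s ^ (FreeGroup.reduce ((l.1, !l.2) :: v⁻¹.toWord)).length := by
    intro l
    rw [fw, fg_norm_mul]
  simp only [key]
  rw [fw, hv, ← hsdef]
  clear_value s
  generalize v⁻¹.toWord = L at hred
  simp only [FreeGroup.reduce.cons, hred]
  rcases L with _ | ⟨⟨i, b⟩, tl⟩
  · simp only [List.length_nil, pow_zero, List.length_singleton, pow_one]
    simp only [Finset.sum_const, Finset.card_univ, Fintype.card_prod, Fintype.card_fin,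
      Fintype.card_bool]
    have hle : s ≤ Real.sqrt 3 / 2 := by
      rw [hsdef, inv_eq_one_div, div_le_div_iff₀ h3 (by norm_num)]
      nlinarith
    simp only [nsmul_eq_mul]
    push_cast
    linarith
  · simp only [Fintype.sum_prod_type, Fin.sum_univ_two, Fintype.sum_bool]
    have e1 : s ^ (tl.length + 1 + 1) = s ^ tl.length * (1 / 3) := by
      rw [pow_succ, pow_succ, mul_assoc, hs]
    have e2 : Real.sqrt 3 * s ^ (tl.length + 1) = s ^ tl.length := by
      rw [pow_succ, mul_comm (s ^ tl.length) s, ← mul_assoc, hs1, one_mul]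
    fin_cases i <;> cases b <;> simp [List.length_cons] <;> nlinarith [e1, e2]

end Pool.Agent.SZ
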