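import Pool.Agent.SZ.LDefs
import Pool.Agent.SZ.L_FGN

/-!
# L_FGC: the number of words with a given value

* `WS_sum`, `mem_WS`, `WS_nil`: properties of the set of words (`Finset.sum_image`,
  `Finset.sum_product`; `List.cons_injective2`).
* `WS_append`: sum over the words of length `m + n` is the double sum over the two parts
  (induction on `m` with `WS_sum`).
* `fg_sum`: `∑ w ∈ WS n, fw (v * FreeGroup.mk w) ≤ (2 √3)^n * fw v`: induction on `n` for all `v`,
  `FreeGroup.mk (l :: w) = FreeGroup.mk [l] * FreeGroup.mk w` and `fg_nbr`.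
* `fg_closed`: the number `N` of words of length `n` with value `1` satisfies `N ≤ 12^(n/2)`, in the form
  `N ^ 2 ≤ 12 ^ n`: `v = 1`, `fw 1 = 1`; every word with value `1` contributes `1` to the sum, so
  `N ≤ (2 √3)^n`, and `(2 √3)^2 = 12`.
* `fg_count`: the number `N_n(v)` of words of length `n` with value `v` satisfies
  `N_n(v) ^ 2 ≤ 12 ^ n`.  Proof: the map `(w, w') ↦ w ++ inv w'` with
  `inv w' = (w'.map (fun x => (x.1, !x.2))).reverse` (`FreeGroup.invRev`) is injective from pairs of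
  words of length `n` with value `v` to the words of length `2 n` with value `1`
  (`FreeGroup.inv_mk`, `FreeGroup.mul_mk`); so `N_n(v)^2 ≤ N_{2n}(1)`, and `N_{2n}(1)^2 ≤ 12^{2n}` gives
  `N_{2n}(1) ≤ 12^n`.
-/

set_option autoImplicit false

namespace Pool.Agent.SZ

open Pool.Agent.IRS MeasureTheory Set Filter Topology

theorem mem_WS {n : ℕ} {w : List Lt} : w ∈ WS n ↔ w.length = n := by
  induction n generalizing w with
  | zero => simp [WS, List.length_eq_zero_iff]
  | succ n ih =>
    simp only [WS, Finset.mem_image, Finset.mem_product, Finset.mem_univ, true_and]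
    constructor
    · rintro ⟨⟨l, u⟩, hu, rfl⟩
      simp only at hu
      simp [ih.1 hu]
    · intro h
      cases w with
      | nil => simp at h
      | cons l u => exact ⟨(l, u), ih.2 (by simpa using h), rfl⟩

theorem WS_sum (n : ℕ) (F : List Lt → ℝ) :
    ∑ w ∈ WS (n + 1), F w = ∑ l : Lt, ∑ w ∈ WS n, F (l :: w) := by
  change ∑ w ∈ ((Finset.univ : Finset Lt) ×ˢ WS n).image (fun x => x.1 :: x.2), F w = _
  rw [Finset.sum_image, Finset.sum_product]
  rintro ⟨a, u⟩ _ ⟨b, v⟩ _ h
  simp only [List.cons.injEq] at h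
  exact Prod.ext h.1 h.2

theorem WS_nil (F : List Lt → ℝ) : ∑ w ∈ WS 0, F w = F [] := by
  simp [WS]

theorem WS_append (m n : ℕ) (F : List Lt → ℝ) :
    ∑ w ∈ WS (m + n), F w = ∑ u ∈ WS m, ∑ w ∈ WS n, F (u ++ w) := by
  induction m generalizing F with
  | zero => rw [Nat.zero_add, WS_nil]; simp
  | succ m ih =>
    rw [show m + 1 + n = (m + n) + 1 by omega, WS_sum, WS_sum]
    refine Finset.sum_congr rfl fun l _ => ?_
    rw [ih (fun w => F (l :: w))]
    simp

theorem fg_sum (n : ℕ) (v : FreeGroup (Fin 2)) :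
    ∑ w ∈ WS n, fw (v * FreeGroup.mk w) ≤ (2 * Real.sqrt 3) ^ n * fw v := by
  induction n generalizing v with
  | zero =>
    rw [WS_nil]
    rw [← FreeGroup.one_eq_mk]
    simp
  | succ n ih =>
    rw [WS_sum]
    have h1 : ∀ l : Lt, ∑ w ∈ WS n, fw (v * FreeGroup.mk (l :: w))
        ≤ (2 * Real.sqrt 3) ^ n * fw (v * FreeGroup.mk [l]) := by
      intro l
      refine le_trans (le_of_eq (Finset.sum_congr rfl fun w _ => ?_)) (ih (v * FreeGroup.mk [l]))
      rw [mul_assoc, FreeGroup.mul_mk]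
      rfl
    calc ∑ l : Lt, ∑ w ∈ WS n, fw (v * FreeGroup.mk (l :: w))
        ≤ ∑ l : Lt, (2 * Real.sqrt 3) ^ n * fw (v * FreeGroup.mk [l]) :=
          Finset.sum_le_sum fun l _ => h1 l
      _ = (2 * Real.sqrt 3) ^ n * ∑ l : Lt, fw (v * FreeGroup.mk [l]) := by
          rw [Finset.mul_sum]
      _ ≤ (2 * Real.sqrt 3) ^ n * (2 * Real.sqrt 3 * fw v) :=
          mul_le_mul_of_nonneg_left (fg_nbr v) (by positivity)
      _ = _ := by ring

open Classical in
theorem fg_closed (n : ℕ) :
    ((WS n).filter (fun w => FreeGroup.mk w = (1 : FreeGroup (Fin 2)))).card ^ 2 ≤ 12 ^ n := by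
  set N := ((WS n).filter (fun w => FreeGroup.mk w = (1 : FreeGroup (Fin 2)))).card with hN
  have hf1 : fw (1 : FreeGroup (Fin 2)) = 1 := by simp [fw]
  have h1 : (N : ℝ) ≤ (2 * Real.sqrt 3) ^ n := by
    have h2 := fg_sum n 1
    rw [hf1, mul_one] at h2
    refine le_trans ?_ h2
    calc (N : ℝ) = ∑ w ∈ (WS n).filter (fun w => FreeGroup.mk w = (1 : FreeGroup (Fin 2))),
          fw (1 * FreeGroup.mk w) := by
          rw [hN, Finset.card_eq_sum_ones]
          push_cast
          refine Finset.sum_congr rfl fun w hw => ?_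
          rw [(Finset.mem_filter.1 hw).2, mul_one, hf1]
      _ ≤ _ := by
          refine Finset.sum_le_sum_of_subset_of_nonneg (Finset.filter_subset _ _) ?_
          intro w _ _
          unfold fw
          positivity
  have h3 : (N : ℝ) ^ 2 ≤ (12 : ℝ) ^ n := by
    calc (N : ℝ) ^ 2 ≤ ((2 * Real.sqrt 3) ^ n) ^ 2 := pow_le_pow_left₀ (by positivity) h1 2
      _ = ((2 * Real.sqrt 3) ^ 2) ^ n := by rw [← pow_mul, ← pow_mul, mul_comm n 2]
      _ = (12 : ℝ) ^ n := by
          rw [mul_pow, Real.sq_sqrt (by norm_num)]; norm_num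
  exact_mod_cast h3

open Classical in
theorem fg_count (n : ℕ) (v : FreeGroup (Fin 2)) :
    ((WS n).filter (fun w => FreeGroup.mk w = v)).card ^ 2 ≤ 12 ^ n := by
  set A := (WS n).filter (fun w => FreeGroup.mk w = v) with hA
  set B := (WS (2 * n)).filter (fun w => FreeGroup.mk w = (1 : FreeGroup (Fin 2))) with hB
  have h1 : (A ×ˢ A).card ≤ B.card := by
    refine Finset.card_le_card_of_injOn (fun x => x.1 ++ FreeGroup.invRev x.2) ?_ ?_
    · rintro ⟨a, b⟩ hab
      have hab' : a ∈ A ∧ b ∈ A := by simpa using hab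
      obtain ⟨ha, hb⟩ := hab'
      rw [hA, Finset.mem_filter, mem_WS] at ha hb
      simp only [hB, Finset.coe_filter, Set.mem_ofPred_eq, mem_WS]
      refine ⟨?_, ?_⟩
      · rw [List.length_append, FreeGroup.invRev_length, ha.1, hb.1]; ring
      · rw [← FreeGroup.mul_mk, ← FreeGroup.inv_mk, ha.2, hb.2, mul_inv_cancel]
    · rintro ⟨a, b⟩ hab ⟨a', b'⟩ hab' h
      have h1 : a ∈ A ∧ b ∈ A := by simpa using hab
      have h2 : a' ∈ A ∧ b' ∈ A := by simpa using hab'
      have ha := (mem_WS.1 (Finset.mem_filter.1 h1.1).1)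
      have ha' := (mem_WS.1 (Finset.mem_filter.1 h2.1).1)
      simp only at h
      obtain ⟨e1, e2⟩ := List.append_inj h (by rw [ha, ha'])
      exact Prod.ext e1 (FreeGroup.invRev_injective e2)
  rw [Finset.card_product] at h1
  have h2 : B.card ^ 2 ≤ 12 ^ (2 * n) := fg_closed (2 * n)
  have h3 : B.card ≤ 12 ^ n := by
    have : B.card ^ 2 ≤ (12 ^ n) ^ 2 := by rw [← pow_mul, mul_comm n 2]; exact h2
    exact (Nat.pow_le_pow_iff_left (by norm_num)).1 this
  calc A.card ^ 2 = A.card * A.card := by ring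
    _ ≤ B.card := h1
    _ ≤ 12 ^ n := h3

end Pool.Agent.SZ
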