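import Pool.Agent.SZ.L_PHI
import Pool.Agent.SZ.L_FGC

/-!
# L_CHA: the chain, pointwise facts

* `cd_eq`: `pd p x * tr p x l = cd p x l`.  If `Ph p x = 0` then, all terms being nonnegative,
  `ph (x * qv p l) = 0` and both sides are `0`; otherwise cancel `Ph p x`.
* `tr_nonneg`; `tr_sum_le`: the sum of the four is `1` if `Ph p x ≠ 0` (it is
  `4 Ph / (4 Ph)`), and `0` otherwise (division by zero).
* `qv_inv`: `qv p (l.1, !l.2) = (qv p l)⁻¹`.
* `cd_flip`: if `cd p x l ≠ 0` then `pd p (x * qv p l) ≠ 0`: `ph (x q) ≠ 0` and `ph x ≠ 0`, and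
  `x = (x q) q⁻¹` is one of the four neighbours of `x q`, so `Ph p (x q) > 0`.
* `ww_nonneg`, `ww_sum_le`: induction with `WS_sum`.
* `ww_sum_eq`: if `pd p x ≠ 0` then `∑ w ∈ WS n, ww p x w = 1`.  Induction on `n` for all `x`:
  `∑_l tr p x l * (∑_w ww p (x q_l) w)`; if `tr p x l ≠ 0` then `cd p x l = pd * tr ≠ 0`, so
  `pd p (x q_l) ≠ 0` and the inner sum is `1`; and `∑_l tr p x l = 1`.
* `Mo_iter`: `(Mo p)^[n] f x = ∑ w ∈ WS n, ww p x w * f (x * wv p w)`; induction with
  `Function.iterate_succ_apply'`, `WS_sum`, `wv p (l :: w) = qv p l * wv p w`, `mul_assoc`.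
* `ww_end`: if `pd p x * ww p x w ≠ 0` then `ph x ≠ 0` and `ph (x * wv p w) ≠ 0`: for the empty word
  trivial; for `l :: w`: `tr p x l ≠ 0` gives `cd p x l ≠ 0`, so `pd p (x q_l) ≠ 0`, induction.
* `meas_ww`: `x ↦ ww p x w` is measurable (induction on `w`, `measurable_mul_const`).
* `wv_mk`: `wv (fun i => (p i).1) w = (FreeGroup.lift p (FreeGroup.mk w)).1` for `p : Fin 2 → G2`
  (`FreeGroup.lift_mk` or `FreeGroup.lift.mk`; `cond` in Mathlib's formula; induction).
-/

set_option autoImplicit false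

namespace Pool.Agent.SZ

open Pool.Agent.IRS MeasureTheory Set Filter Topology

variable (p : Fin 2 → SL2R)

lemma LCHA_Ph_zero {x : SL2R} (h : Ph p x = 0) (l : Lt) : ph (x * qv p l) = 0 := by
  unfold Ph at h
  have h1 : ∑ l : Lt, ph (x * qv p l) = 0 := by linarith
  exact (Finset.sum_eq_zero_iff_of_nonneg (fun i _ => ph_nonneg _)).1 h1 l (Finset.mem_univ l)

lemma LCHA_tr_sum (x : SL2R) : ∑ l : Lt, tr p x l = (4 * Ph p x) / (4 * Ph p x) := by
  have h1 : ∑ l : Lt, ph (x * qv p l) = 4 * Ph p x := by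
    unfold Ph
    ring
  unfold tr
  rw [← Finset.sum_div, h1]

lemma LCHA_wv_cons (l : Lt) (w : List Lt) : wv p (l :: w) = qv p l * wv p w := by
  simp [wv]

lemma LCHA_wv_nil : wv p [] = 1 := by
  simp [wv]

lemma LCHA_ww_nil (x : SL2R) : ww p x [] = 1 := rfl

lemma LCHA_ww_cons (x : SL2R) (l : Lt) (w : List Lt) :
    ww p x (l :: w) = tr p x l * ww p (x * qv p l) w := rfl

theorem cd_eq (x : SL2R) (l : Lt) : pd p x * tr p x l = cd p x l := by
  by_cases h : Ph p x = 0
  · have h1 := LCHA_Ph_zero p h l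
    unfold pd tr cd
    rw [h1, h]
    simp
  · unfold pd tr cd
    field_simp

theorem tr_nonneg (x : SL2R) (l : Lt) : 0 ≤ tr p x l := by
  unfold tr
  have := Ph_nonneg p x
  exact div_nonneg (ph_nonneg _) (by linarith)

theorem tr_sum_le (x : SL2R) : ∑ l : Lt, tr p x l ≤ 1 := by
  rw [LCHA_tr_sum]
  by_cases h : Ph p x = 0
  · rw [h]; norm_num
  · rw [div_self (by positivity)]

theorem tr_sum_eq {x : SL2R} (h : Ph p x ≠ 0) : ∑ l : Lt, tr p x l = 1 := by
  rw [LCHA_tr_sum]
  exact div_self (by positivity)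

theorem qv_inv (l : Lt) : qv p (l.1, !l.2) = (qv p l)⁻¹ := by
  obtain ⟨i, b⟩ := l
  cases b <;> simp [qv]

theorem cd_flip {x : SL2R} {l : Lt} (h : cd p x l ≠ 0) : pd p (x * qv p l) ≠ 0 := by
  have h1 : ph x ≠ 0 := by
    intro h0
    apply h
    unfold cd
    rw [h0]
    simp
  have h2 : ph (x * qv p l) ≠ 0 := by
    intro h0
    apply h
    unfold cd
    rw [h0]
    simp
  unfold pd
  refine mul_ne_zero h2 ?_
  intro h0
  have h3 := LCHA_Ph_zero p h0 (l.1, !l.2)
  rw [qv_inv, mul_inv_cancel_right] at h3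
  exact h1 h3

theorem ww_nonneg (x : SL2R) (w : List Lt) : 0 ≤ ww p x w := by
  induction w generalizing x with
  | nil => rw [LCHA_ww_nil]; norm_num
  | cons l w ih => rw [LCHA_ww_cons]; exact mul_nonneg (tr_nonneg p x l) (ih _)

theorem ww_sum_le (x : SL2R) (n : ℕ) : ∑ w ∈ WS n, ww p x w ≤ 1 := by
  induction n generalizing x with
  | zero => rw [WS_nil, LCHA_ww_nil]
  | succ n ih =>
    rw [WS_sum]
    calc ∑ l : Lt, ∑ w ∈ WS n, ww p x (l :: w)
        = ∑ l : Lt, tr p x l * ∑ w ∈ WS n, ww p (x * qv p l) w := by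
          refine Finset.sum_congr rfl fun l _ => ?_
          rw [Finset.mul_sum]
          rfl
      _ ≤ ∑ l : Lt, tr p x l * 1 :=
          Finset.sum_le_sum fun l _ => mul_le_mul_of_nonneg_left (ih _) (tr_nonneg p x l)
      _ = ∑ l : Lt, tr p x l := by simp
      _ ≤ 1 := tr_sum_le p x

theorem ww_sum_eq {x : SL2R} (h : pd p x ≠ 0) (n : ℕ) : ∑ w ∈ WS n, ww p x w = 1 := by
  induction n generalizing x with
  | zero => rw [WS_nil, LCHA_ww_nil]
  | succ n ih =>
    rw [WS_sum]
    have hPh : Ph p x ≠ 0 := fun h0 => h (by unfold pd; rw [h0, mul_zero])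
    calc ∑ l : Lt, ∑ w ∈ WS n, ww p x (l :: w)
        = ∑ l : Lt, tr p x l * ∑ w ∈ WS n, ww p (x * qv p l) w := by
          refine Finset.sum_congr rfl fun l _ => ?_
          rw [Finset.mul_sum]
          rfl
      _ = ∑ l : Lt, tr p x l := by
          refine Finset.sum_congr rfl fun l _ => ?_
          by_cases ht : tr p x l = 0
          · rw [ht, zero_mul]
          · have hc : cd p x l ≠ 0 := by
              rw [← cd_eq]
              exact mul_ne_zero h ht
            rw [ih (cd_flip p hc), mul_one]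
      _ = 1 := tr_sum_eq p hPh

theorem Mo_iter (f : SL2R → ℝ) (n : ℕ) (x : SL2R) :
    (Mo p)^[n] f x = ∑ w ∈ WS n, ww p x w * f (x * wv p w) := by
  induction n generalizing x with
  | zero =>
    rw [WS_nil, LCHA_ww_nil, LCHA_wv_nil]
    simp
  | succ n ih =>
    rw [Function.iterate_succ_apply', WS_sum]
    change ∑ l : Lt, tr p x l * (Mo p)^[n] f (x * qv p l) = _
    refine Finset.sum_congr rfl fun l _ => ?_
    rw [ih, Finset.mul_sum]
    refine Finset.sum_congr rfl fun w _ => ?_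
    rw [LCHA_ww_cons, LCHA_wv_cons, mul_assoc, mul_assoc]

theorem ww_end {x : SL2R} {w : List Lt} (h : pd p x * ww p x w ≠ 0) :
    ph x ≠ 0 ∧ ph (x * wv p w) ≠ 0 := by
  induction w generalizing x with
  | nil =>
    have h1 : ph x ≠ 0 := by
      intro h0
      apply h
      unfold pd
      rw [h0]
      simp
    rw [LCHA_wv_nil, mul_one]
    exact ⟨h1, h1⟩
  | cons l w ih =>
    rw [LCHA_ww_cons] at h
    have hpd : pd p x ≠ 0 := fun h0 => h (by rw [h0, zero_mul])
    have htr : tr p x l ≠ 0 := fun h0 => h (by rw [h0, zero_mul, mul_zero])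
    have hww : ww p (x * qv p l) w ≠ 0 := fun h0 => h (by rw [h0, mul_zero, mul_zero])
    have hc : cd p x l ≠ 0 := by
      rw [← cd_eq]
      exact mul_ne_zero hpd htr
    have h1 : ph x ≠ 0 := by
      intro h0
      apply hpd
      unfold pd
      rw [h0, zero_mul]
    refine ⟨h1, ?_⟩
    rw [LCHA_wv_cons, ← mul_assoc]
    exact (ih (mul_ne_zero (cd_flip p hc) hww)).2

theorem meas_ww (w : List Lt) : Measurable (fun x => ww p x w) := by
  induction w with
  | nil => exact measurable_const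
  | cons l w ih =>
    have h1 : Measurable (fun x : SL2R => x * qv p l) := measurable_mul_const _
    have h2 : Measurable (fun x : SL2R => tr p x l) := by
      unfold tr
      exact (measurable_ph.comp h1).div ((measurable_Ph p).const_mul 4)
    exact h2.mul (ih.comp h1)

theorem wv_mk (p : Fin 2 → G2) (w : List Lt) :
    wv (fun i => (p i).1) w = (FreeGroup.lift p (FreeGroup.mk w)).1 := by
  rw [FreeGroup.lift_mk]
  induction w with
  | nil => simp [wv]
  | cons l w ih =>
    rw [LCHA_wv_cons, ih, List.map_cons, List.prod_cons, Prod.fst_mul]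
    congr 1
    obtain ⟨i, b⟩ := l
    cases b <;> simp [qv]

end Pool.Agent.SZ
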