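import Pool.Agent.SZ.LDefs

/-!
# L_CSA: elementary properties of the cost

Statements and proofs.

* `BM.int`: for `f` bounded measurable, `b ↦ (f (b * g) - f (b * h)) ^ 2` is measurable and bounded
  by `4 M ^ 2`, and `mH (Bn R) < ⊤` (`mH_ball_lt`), so it is integrable on `Bn R`.  Measurability of
  `b ↦ b * g`: `measurable_mul_const`.
* `meas_Bn`: `measurableSet_le measurable_nS measurable_const`.
* `cst_nonneg`: `integral_nonneg`.
* `cst_mono`: `setIntegral_mono_set` (the integrand is nonnegative and integrable on the larger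
  ball; `Bn R ⊆ Bn R'`).
* `cst_one`: the integrand is zero.
* `shift_le`: change of variable.  For `F : SL2R → ℝ` measurable, nonnegative and bounded,
  `∫_{b in Bn R} F (b * g) ≤ ∫_{b in Bn (R * nS g)} F b`: write the left side as
  `∫ b, (Bn R).indicator (fun b => F (b * g)) b`; with `mp_right g` (measure preserving
  `x ↦ x * g`) it is `∫ y, (Bn R).indicator (..) (y * g⁻¹)`; if `y * g⁻¹ ∈ Bn R` then
  `y = (y * g⁻¹) * g ∈ Bn (R * nS g)` by `nS_mul_le`.  (For `R < 0` all balls are empty.)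
* `cst_mul`: `(f (b g h) - f b)^2 ≤ 2 (f (b g h) - f (b g))^2 + 2 (f (b g) - f b)^2`, and `shift_le`
  with `F y = (f (y * h) - f y) ^ 2`.
* `cst_inv`: `∫_{Bn R} (f (b g⁻¹) - f b)^2 = ∫_{Bn R} F (b g⁻¹)` with `F y = (f y - f (y g))^2`
  (as `b = (b g⁻¹) g`), and `shift_le` with `g⁻¹`, `nS_inv`.
-/

set_option autoImplicit false

namespace Pool.Agent.SZ

open Pool.Agent.IRS MeasureTheory Set Filter Topology

theorem meas_Bn (R : ℝ) : MeasurableSet (Bn R) :=
  measurableSet_le measurable_nS measurable_const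

lemma BM.on {F : SL2R → ℝ} (hF : BM F) (R : ℝ) : IntegrableOn F (Bn R) mH := by
  obtain ⟨hm, M, hM⟩ := hF
  have hfin : IsFiniteMeasure (mH.restrict (Bn R)) :=
    ⟨by rw [Measure.restrict_apply_univ]; exact mH_ball_lt R⟩
  exact integrable_of_bdd (mH.restrict (Bn R)) hm (M := M) hM

lemma BM.sq {f : SL2R → ℝ} (hf : BM f) (g h : SL2R) :
    BM (fun b => (f (b * g) - f (b * h)) ^ 2) := by
  obtain ⟨hm, M, hM⟩ := hf
  refine ⟨((hm.comp (measurable_mul_const g)).sub (hm.comp (measurable_mul_const h))).pow_const 2,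
    (2 * M) ^ 2, fun b => ?_⟩
  rw [abs_pow]
  refine pow_le_pow_left₀ (abs_nonneg _) ?_ 2
  calc |f (b * g) - f (b * h)| ≤ |f (b * g)| + |f (b * h)| := abs_sub _ _
    _ ≤ 2 * M := by linarith [hM (b * g), hM (b * h)]

lemma BM.sq1 {f : SL2R → ℝ} (hf : BM f) (g : SL2R) :
    BM (fun b => (f (b * g) - f b) ^ 2) := by
  have h := hf.sq g 1
  simp only [mul_one] at h
  exact h

theorem BM.int {f : SL2R → ℝ} (hf : BM f) (R : ℝ) (g h : SL2R) :
    IntegrableOn (fun b => (f (b * g) - f (b * h)) ^ 2) (Bn R) mH :=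
  (hf.sq g h).on R

theorem cst_nonneg (f : SL2R → ℝ) (R : ℝ) (g : SL2R) : 0 ≤ cst f R g :=
  integral_nonneg fun _ => sq_nonneg _

theorem cst_mono {f : SL2R → ℝ} (hf : BM f) {R R' : ℝ} (h : R ≤ R') (g : SL2R) :
    cst f R g ≤ cst f R' g := by
  unfold cst
  refine setIntegral_mono_set ((hf.sq1 g).on R') ?_ ?_
  · filter_upwards with b
    exact sq_nonneg _
  · exact LE.le.eventuallyLE (fun b (hb : nS b ≤ R) => hb.trans h)

theorem cst_one (f : SL2R → ℝ) (R : ℝ) : cst f R 1 = 0 := by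
  unfold cst
  simp

theorem shift_le {F : SL2R → ℝ} (hF : BM F) (h0 : ∀ b, 0 ≤ F b) (R : ℝ) (g : SL2R) :
    ∫ b in Bn R, F (b * g) ∂mH ≤ ∫ b in Bn (R * nS g), F b ∂mH := by
  have hemb : MeasurableEmbedding (fun x : SL2R => x * g) :=
    (MeasurableEquiv.mulRight g).measurableEmbedding
  have hmp := mp_right g
  rw [← hmp.setIntegral_preimage_emb hemb F (Bn (R * nS g))]
  refine setIntegral_mono_set ?_ ?_ ?_
  · exact (hmp.integrableOn_comp_preimage hemb).2 (hF.on _)
  · filter_upwards with b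
    exact h0 _
  · refine LE.le.eventuallyLE (fun b (hb : nS b ≤ R) => ?_)
    change nS (b * g) ≤ R * nS g
    exact (nS_mul_le b g).trans (mul_le_mul_of_nonneg_right hb (nS_pos g).le)

theorem cst_mul {f : SL2R → ℝ} (hf : BM f) (R : ℝ) (g h : SL2R) :
    cst f R (g * h) ≤ 2 * cst f R g + 2 * cst f (R * nS g) h := by
  have h1 := shift_le (hf.sq1 h) (fun b => sq_nonneg _) R g
  have h2 : cst f R (g * h) ≤ ∫ b in Bn R, (2 * (f (b * g) - f b) ^ 2
      + 2 * (f (b * g * h) - f (b * g)) ^ 2) ∂mH := by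
    unfold cst
    refine integral_mono ((hf.sq1 (g * h)).on R) ?_ fun b => ?_
    · refine (((hf.sq1 g).on R).const_mul 2).add (Integrable.const_mul ?_ 2)
      have h3 := (hf.sq (g * h) g).on R
      simp only [← mul_assoc] at h3
      exact h3
    · simp only [mul_assoc]
      nlinarith [sq_nonneg ((f (b * (g * h)) - f (b * g)) - (f (b * g) - f b))]
  have h3 : Integrable (fun b => (f (b * g * h) - f (b * g)) ^ 2) (mH.restrict (Bn R)) := by
    have h3 := (hf.sq (g * h) g).on R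
    simp only [← mul_assoc] at h3
    exact h3
  rw [integral_add (((hf.sq1 g).on R).const_mul 2) (h3.const_mul 2), integral_const_mul,
    integral_const_mul] at h2
  unfold cst at h2 ⊢
  linarith

theorem cst_inv {f : SL2R → ℝ} (hf : BM f) (R : ℝ) (g : SL2R) :
    cst f R g⁻¹ ≤ cst f (R * nS g) g := by
  have h1 := shift_le (hf.sq1 g) (fun b => sq_nonneg _) R g⁻¹
  rw [nS_inv] at h1
  refine le_trans (le_of_eq ?_) h1
  unfold cst
  congr 1
  ext b
  simp only [inv_mul_cancel_right]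
  ring

end Pool.Agent.SZ
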