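import Pool.Agent.SZ.L_CHL
import Pool.Agent.SZ.L_CSA

/-!
# L_CHB: linear cost, integrated

Apply `chain_lin` to `x ↦ f (b * x)` for every `b ∈ Bn (5 R)` and integrate over `b` (all integrands
are nonnegative, bounded, measurable in `(b, x)`, supported in `Bn (5R) × Bn 5`, so Fubini
`integral_integral_swap` applies; or work with `setIntegral` and `Integrable` on the product
measure `(mH.restrict (Bn (5 R))).prod (mH.restrict (Bn 5))`, both finite).

Left side: for each `w` it is `∫_x pd ww (∫_{b ∈ Bn (5R)} (f (b x w) - f (b x))^2)`; for `x` with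
`pd p x ≠ 0` (so `nS x ≤ 5`) the inner integral is `≥ cst f R (wv p w)`:
`cst f R w = ∫_{b ∈ Bn R} G b`, `G b = (f (b w) - f b)^2`; by `shift_le` for `F b = G (b x)` and the
element `x⁻¹`: `∫_{Bn R} G b = ∫_{Bn R} F (b x⁻¹) ≤ ∫_{Bn (R nS x)} F ≤ ∫_{Bn (5R)} G (b x)`
(`nS_inv`).  So the left side is `≥ ∑_w kap p w * cst f R (wv p w)`.

Right side: for each `l` it is `∫_x cd p x l (∫_{b ∈ Bn (5R)} (f (b x q) - f (b x))^2)`, the inner
integral is `≤ cst f (25 R) q` for `nS x ≤ 5` (`shift_le`, `cst_mono`), and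
`∫ cd p x l ≤ ∫ ph = Ip` (`ph ≤ 2`).
* `kap_nonneg`; `kap_bd`: `kap p w ≠ 0 → nS (wv p w) ≤ 25`: there is `x` with
  `pd p x * ww p x w ≠ 0` (otherwise the integral is `0`), so by `ww_end`, `ph_ne` both `x` and
  `x * wv p w` have norm at most `5`; `wv p w = x⁻¹ (x wv p w)`.
-/

set_option autoImplicit false

namespace Pool.Agent.SZ

open Pool.Agent.IRS MeasureTheory Set Filter Topology

/-- The square of the difference quotient as a function of two variables. -/
private def chbPhi (f : SL2R → ℝ) (g : SL2R) (z : SL2R × SL2R) : ℝ :=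
  (f (z.1 * (z.2 * g)) - f (z.1 * z.2)) ^ 2

private lemma chb_mulm : Measurable (fun z : SL2R × SL2R => z.1 * z.2) := by
  have h : Continuous (fun p : SL2R × SL2R => p.1 * p.2) := continuous_mul
  exact h.measurable

private lemma chb_meas {f : SL2R → ℝ} (hf : BM f) (g : SL2R) : Measurable (chbPhi f g) := by
  unfold chbPhi
  have h1 : Measurable (fun z : SL2R × SL2R => z.1 * (z.2 * g)) := by
    have h2 : Measurable (fun z : SL2R × SL2R => (z.1, z.2 * g)) :=
      measurable_fst.prodMk ((measurable_mul_const g).comp measurable_snd)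
    exact chb_mulm.comp h2
  exact ((hf.1.comp h1).sub (hf.1.comp chb_mulm)).pow_const 2

private lemma chb_bd {f : SL2R → ℝ} {M : ℝ} (hM : ∀ b, |f b| ≤ M) (g : SL2R) (z : SL2R × SL2R) :
    |chbPhi f g z| ≤ (2 * M) ^ 2 := by
  unfold chbPhi
  rw [abs_pow]
  refine pow_le_pow_left₀ (abs_nonneg _) ?_ 2
  calc |f (z.1 * (z.2 * g)) - f (z.1 * z.2)| ≤ |f (z.1 * (z.2 * g))| + |f (z.1 * z.2)| := abs_sub _ _
    _ ≤ 2 * M := by linarith [hM (z.1 * (z.2 * g)), hM (z.1 * z.2)]

private lemma chb_int {f : SL2R → ℝ} (hf : BM f) (g : SL2R) {K : SL2R → ℝ} (hK : Integrable K mH)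
    (r : ℝ) : Integrable (fun z : SL2R × SL2R => K z.2 * chbPhi f g z)
      ((mH.restrict (Bn r)).prod mH) := by
  have hfin : IsFiniteMeasure (mH.restrict (Bn r)) :=
    ⟨by rw [Measure.restrict_apply_univ]; exact mH_ball_lt r⟩
  have h1 : Integrable (fun z : SL2R × SL2R => K z.2) ((mH.restrict (Bn r)).prod mH) :=
    hK.comp_snd _
  obtain ⟨M, hM⟩ := hf.2
  have h2 := h1.mul_bdd (c := (2 * M) ^ 2) (chb_meas hf g).aestronglyMeasurable
    (Filter.Eventually.of_forall fun z => by rw [Real.norm_eq_abs]; exact chb_bd hM g z)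
  exact h2

/-- Fubini. -/
private lemma chb_fub {f : SL2R → ℝ} (hf : BM f) (g : SL2R) {K : SL2R → ℝ} (hK : Integrable K mH)
    (r : ℝ) : ∫ b in Bn r, (∫ x, K x * (f (b * (x * g)) - f (b * x)) ^ 2 ∂mH) ∂mH
      = ∫ x, K x * (∫ b in Bn r, (f (b * (x * g)) - f (b * x)) ^ 2 ∂mH) ∂mH := by
  have h := chb_int hf g hK r
  have h2 := integral_integral_swap (f := fun b x => K x * chbPhi f g (b, x)) h
  simp only [chbPhi] at h2
  rw [h2]
  congr 1; ext x
  rw [integral_const_mul]

private lemma chb_intx {f : SL2R → ℝ} (hf : BM f) (g : SL2R) {K : SL2R → ℝ} (hK : Integrable K mH)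
    (r : ℝ) : Integrable (fun x => K x * (∫ b in Bn r, (f (b * (x * g)) - f (b * x)) ^ 2 ∂mH)) mH := by
  have h := (chb_int hf g hK r).integral_prod_right
  refine h.congr (Filter.Eventually.of_forall fun x => ?_)
  simp only [chbPhi]
  rw [integral_const_mul]

private lemma chb_intb {f : SL2R → ℝ} (hf : BM f) (g : SL2R) {K : SL2R → ℝ} (hK : Integrable K mH)
    (r : ℝ) : Integrable (fun b => ∫ x, K x * (f (b * (x * g)) - f (b * x)) ^ 2 ∂mH)
      (mH.restrict (Bn r)) := by
  have h := (chb_int hf g hK r).integral_prod_left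
  refine h.congr (Filter.Eventually.of_forall fun x => ?_)
  simp only [chbPhi]

/-- The inner integral from below. -/
private lemma chb_low {f : SL2R → ℝ} (hf : BM f) {R : ℝ} (hR : 0 ≤ R) (g : SL2R) {x : SL2R}
    (hx : nS x ≤ 5) : cst f R g ≤ ∫ b in Bn (5 * R), (f (b * (x * g)) - f (b * x)) ^ 2 ∂mH := by
  have hG : BM (fun b => (f (b * x * g) - f (b * x)) ^ 2) := by
    have h1 := hf.sq (x * g) x
    simp only [← mul_assoc] at h1
    exact h1
  have h2 := shift_le hG (fun b => sq_nonneg _) R x⁻¹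
  rw [nS_inv] at h2
  have h3 : cst f R g = ∫ b in Bn R, (f (b * x⁻¹ * x * g) - f (b * x⁻¹ * x)) ^ 2 ∂mH := by
    unfold cst
    simp only [inv_mul_cancel_right]
  rw [h3]
  refine h2.trans ?_
  simp only [← mul_assoc]
  refine setIntegral_mono_set (hG.on _) (Filter.Eventually.of_forall fun b => sq_nonneg _) ?_
  refine LE.le.eventuallyLE (fun b (hb : nS b ≤ R * nS x) => ?_)
  change nS b ≤ 5 * R
  nlinarith

/-- The inner integral from above. -/
private lemma chb_up {f : SL2R → ℝ} (hf : BM f) {R : ℝ} (hR : 0 ≤ R) (g : SL2R) {x : SL2R}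
    (hx : nS x ≤ 5) : ∫ b in Bn (5 * R), (f (b * (x * g)) - f (b * x)) ^ 2 ∂mH ≤ cst f (25 * R) g := by
  have h2 := shift_le (hf.sq1 g) (fun b => sq_nonneg _) (5 * R) x
  simp only [← mul_assoc]
  refine h2.trans ?_
  refine cst_mono hf ?_ g
  nlinarith

variable (p : Fin 2 → SL2R)

theorem kap_nonneg (w : List Lt) : 0 ≤ kap p w := by
  unfold kap
  refine integral_nonneg fun x => ?_
  exact mul_nonneg (mul_nonneg (ph_nonneg x) (Ph_nonneg p x)) (ww_nonneg p x w)

theorem kap_bd {w : List Lt} (h : kap p w ≠ 0) : nS (wv p w) ≤ 25 := by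
  have h1 : ∃ x, pd p x * ww p x w ≠ 0 := by
    by_contra hc
    push Not at hc
    apply h
    unfold kap
    simp only [hc, integral_zero]
  obtain ⟨x, hx⟩ := h1
  obtain ⟨h2, h3⟩ := ww_end p hx
  have h4 := ph_ne h2
  have h5 := ph_ne h3
  have h6 : wv p w = x⁻¹ * (x * wv p w) := by rw [inv_mul_cancel_left]
  rw [h6]
  refine (nS_mul_le _ _).trans ?_
  rw [nS_inv]
  have h7 := (nS_pos x).le
  have h8 := (nS_pos (x * wv p w)).le
  nlinarith

private lemma chb_pd_nn (x : SL2R) : 0 ≤ pd p x := mul_nonneg (ph_nonneg x) (Ph_nonneg p x)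

private lemma chb_K_int {n : ℕ} {w : List Lt} (hw : w ∈ WS n) :
    Integrable (fun x => pd p x * ww p x w) mH := by
  apply pd_int
  refine ⟨meas_ww p w, 1, fun x => ?_⟩
  rw [abs_of_nonneg (ww_nonneg p x w)]
  exact (Finset.single_le_sum (f := fun w => ww p x w) (fun w _ => ww_nonneg p x w) hw).trans
    (ww_sum_le p x n)

private lemma chb_c_int (l : Lt) : Integrable (fun x => cd p x l) mH := by
  have h := cd_int p l (F := fun _ => 1) (BM.const 1)
  simpa using h

theorem lin_cost {f : SL2R → ℝ} (hf : BM f) {R : ℝ} (hR : 0 ≤ R) (n : ℕ) :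
    ∑ w ∈ WS n, kap p w * cst f R (wv p w)
      ≤ n * (Ip * ∑ l : Lt, cst f (25 * R) (qv p l)) := by
  have hx5 : ∀ x, ph x ≠ 0 → nS x ≤ 5 := fun x h => ph_ne h
  -- left side
  have hL : ∀ w ∈ WS n, kap p w * cst f R (wv p w) ≤
      ∫ b in Bn (5 * R), (∫ x, pd p x * ww p x w * (f (b * (x * wv p w)) - f (b * x)) ^ 2 ∂mH) ∂mH := by
    intro w hw
    have hK := chb_K_int p hw
    rw [chb_fub hf (wv p w) hK (5 * R)]
    unfold kap
    rw [← integral_mul_const]
    refine integral_mono (hK.mul_const _) (chb_intx hf (wv p w) hK (5 * R)) fun x => ?_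
    simp only
    by_cases h0 : ph x = 0
    · have h1 : pd p x = 0 := by unfold pd; rw [h0, zero_mul]
      rw [h1]; simp
    · exact mul_le_mul_of_nonneg_left (chb_low hf hR (wv p w) (hx5 x h0))
        (mul_nonneg (chb_pd_nn p x) (ww_nonneg p x w))
  -- right side
  have hRt : ∀ l : Lt,
      ∫ b in Bn (5 * R), (∫ x, cd p x l * (f (b * (x * qv p l)) - f (b * x)) ^ 2 ∂mH) ∂mH ≤
        Ip * cst f (25 * R) (qv p l) := by
    intro l
    have hK := chb_c_int p l
    rw [chb_fub hf (qv p l) hK (5 * R)]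
    have hph : Integrable ph mH := by
      have := ph_mul_int (F := fun _ => (1 : ℝ)) (BM.const 1)
      simpa using this
    unfold Ip
    rw [← integral_mul_const]
    refine integral_mono (chb_intx hf (qv p l) hK (5 * R)) (hph.mul_const _) fun x => ?_
    simp only
    have hc0 := cst_nonneg f (25 * R) (qv p l)
    by_cases h0 : ph x = 0
    · have h1 : cd p x l = 0 := by unfold cd; rw [h0]; simp
      rw [h1, h0]; simp
    · have h1 := chb_up hf hR (qv p l) (hx5 x h0)
      have h2 : 0 ≤ cd p x l := by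
        unfold cd
        have := mul_nonneg (ph_nonneg x) (ph_nonneg (x * qv p l))
        positivity
      have h3 : cd p x l ≤ ph x := by
        unfold cd
        have h4 := ph_le (x * qv p l)
        have h5 := ph_nonneg x
        nlinarith [mul_le_mul_of_nonneg_left h4 h5]
      calc cd p x l * ∫ b in Bn (5 * R), (f (b * (x * qv p l)) - f (b * x)) ^ 2 ∂mH
          ≤ cd p x l * cst f (25 * R) (qv p l) := mul_le_mul_of_nonneg_left h1 h2
        _ ≤ ph x * cst f (25 * R) (qv p l) := mul_le_mul_of_nonneg_right h3 hc0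
  calc ∑ w ∈ WS n, kap p w * cst f R (wv p w)
      ≤ ∑ w ∈ WS n, ∫ b in Bn (5 * R),
          (∫ x, pd p x * ww p x w * (f (b * (x * wv p w)) - f (b * x)) ^ 2 ∂mH) ∂mH :=
        Finset.sum_le_sum hL
    _ = ∫ b in Bn (5 * R), ∑ w ∈ WS n,
          (∫ x, pd p x * ww p x w * (f (b * (x * wv p w)) - f (b * x)) ^ 2 ∂mH) ∂mH := by
        rw [integral_finsetSum]
        intro w hw
        exact chb_intb hf (wv p w) (chb_K_int p hw) (5 * R)
    _ ≤ ∫ b in Bn (5 * R), (n : ℝ) * ∑ l : Lt,
          (∫ x, cd p x l * (f (b * (x * qv p l)) - f (b * x)) ^ 2 ∂mH) ∂mH := by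
        refine integral_mono ?_ ?_ fun b => ?_
        · exact integrable_finsetSum _ fun w hw => chb_intb hf (wv p w) (chb_K_int p hw) (5 * R)
        · exact (integrable_finsetSum _ fun l _ =>
            chb_intb hf (qv p l) (chb_c_int p l) (5 * R)).const_mul _
        · exact chain_lin p (hf.left b) n
    _ = n * ∑ l : Lt, ∫ b in Bn (5 * R),
          (∫ x, cd p x l * (f (b * (x * qv p l)) - f (b * x)) ^ 2 ∂mH) ∂mH := by
        rw [integral_const_mul, integral_finsetSum]
        intro l _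
        exact chb_intb hf (qv p l) (chb_c_int p l) (5 * R)
    _ ≤ n * (Ip * ∑ l : Lt, cst f (25 * R) (qv p l)) := by
        rw [Finset.mul_sum Finset.univ (fun l : Lt => cst f (25 * R) (qv p l)) Ip]
        exact mul_le_mul_of_nonneg_left (Finset.sum_le_sum fun l _ => hRt l) (Nat.cast_nonneg n)

end Pool.Agent.SZ
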