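import Mathlib
import Pool.Agent.IRS.Form

/-!
# L_LIN: linear growth of the energy for a symmetric contraction

`F` a semidefinite form, `M` symmetric with `-1 ≤ M ≤ 1`.  Then
`⟨x,x⟩ - ⟨M^n x, x⟩ ≤ n (⟨x,x⟩ - ⟨M x, x⟩)`.
-/

set_option autoImplicit false

namespace Pool.Agent.SZ

open Pool.Agent.IRS

lemma lin_sym {V : Type*} [AddCommGroup V] [Module ℝ V] (F : PSForm V) (M : Module.End ℝ V)
    (hs : ∀ x y, F.B (M x) y = F.B x (M y)) (n : ℕ) : ∀ x y,
    F.B ((M ^ n) x) y = F.B x ((M ^ n) y) := by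
  induction n with
  | zero => intro x y; simp
  | succ n ih =>
    intro x y
    have h1 : (M ^ (n + 1)) x = M ((M ^ n) x) := by
      rw [pow_succ', Module.End.mul_apply]
    have h2 : (M ^ (n + 1)) y = (M ^ n) (M y) := by
      rw [pow_succ, Module.End.mul_apply]
    rw [h1, h2, hs, ih]

lemma lin_sum (c : ℕ → ℝ) (he : ∀ i, 0 ≤ c (2 * i) - 2 * c (2 * i + 1) + c (2 * i + 2))
    (ho : ∀ i, 0 ≤ (c (2 * i) - 2 * c (2 * i + 1) + c (2 * i + 2))
      + (c (2 * i + 1) - 2 * c (2 * i + 2) + c (2 * i + 3))) (n : ℕ) :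
    c 0 - c n ≤ n * (c 0 - c 1) := by
  have h1 : ∀ i, c (2 * i) - c (2 * i + 1) ≤ c 0 - c 1 := by
    intro i
    induction i with
    | zero => simp
    | succ i ih =>
      have := ho i
      have e1 : 2 * (i + 1) = 2 * i + 2 := by ring
      have e2 : 2 * (i + 1) + 1 = 2 * i + 3 := by ring
      rw [e2, e1]
      linarith
  have h2 : ∀ i, c (2 * i + 1) - c (2 * i + 2) ≤ c 0 - c 1 := by
    intro i
    have := he i
    have := h1 i
    linarith
  have h3 : ∀ j, c j - c (j + 1) ≤ c 0 - c 1 := by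
    intro j
    rcases Nat.even_or_odd' j with ⟨i, hi | hi⟩
    · rw [hi]; exact h1 i
    · rw [hi]; exact h2 i
  induction n with
  | zero => simp
  | succ n ih =>
    have := h3 n
    push_cast
    linarith

theorem lin_abs {V : Type*} [AddCommGroup V] [Module ℝ V] (F : PSForm V) (M : Module.End ℝ V)
    (hs : ∀ x y, F.B (M x) y = F.B x (M y)) (hp : ∀ x, 0 ≤ F.B x x + F.B (M x) x)
    (n : ℕ) (x : V) :
    F.B x x - F.B ((M ^ n) x) x ≤ n * (F.B x x - F.B (M x) x) := by
  have key : ∀ k, F.B ((M ^ k) (x - M x)) (x - M x)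
      = F.B ((M ^ k) x) x - 2 * F.B ((M ^ (k + 1)) x) x + F.B ((M ^ (k + 2)) x) x := by
    intro k
    have e1 : (M ^ (k + 1)) x = (M ^ k) (M x) := by rw [pow_succ, Module.End.mul_apply]
    have e2 : M ((M ^ k) x) = (M ^ k) (M x) := by
      rw [← Module.End.mul_apply, ← Module.End.mul_apply, ← pow_succ', ← pow_succ]
    have e3 : (M ^ (k + 2)) x = M ((M ^ k) (M x)) := by
      rw [← Module.End.mul_apply, ← Module.End.mul_apply, ← pow_succ', ← pow_succ]
    have h1 : F.B ((M ^ k) x) (M x) = F.B ((M ^ k) (M x)) x := by rw [← hs, e2]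
    have h2 : F.B ((M ^ k) (M x)) (M x) = F.B (M ((M ^ k) (M x))) x := by rw [hs]
    simp only [map_sub, LinearMap.sub_apply]
    rw [h1, h2, e1, e3]
    ring
  have he : ∀ i, 0 ≤ F.B ((M ^ (2 * i)) (x - M x)) (x - M x) := by
    intro i
    rw [two_mul, pow_add, Module.End.mul_apply, lin_sym F M hs i ((M ^ i) (x - M x)) (x - M x)]
    exact F.nonneg _
  have ho : ∀ i, 0 ≤ F.B ((M ^ (2 * i)) (x - M x)) (x - M x)
      + F.B ((M ^ (2 * i + 1)) (x - M x)) (x - M x) := by
    intro i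
    have e1 : (M ^ (2 * i)) (x - M x) = (M ^ i) ((M ^ i) (x - M x)) := by
      rw [two_mul, pow_add, Module.End.mul_apply]
    have e2 : (M ^ (2 * i + 1)) (x - M x) = (M ^ i) (M ((M ^ i) (x - M x))) := by
      rw [← Module.End.mul_apply, ← Module.End.mul_apply, ← pow_succ, ← pow_add]
      congr 2
      ring
    rw [e1, e2, lin_sym F M hs i ((M ^ i) (x - M x)) (x - M x),
      lin_sym F M hs i (M ((M ^ i) (x - M x))) (x - M x)]
    exact hp _
  have h := lin_sum (fun k => F.B ((M ^ k) x) x) (fun i => by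
      have := he i
      rw [key] at this
      exact this) (fun i => by
      have := ho i
      rw [key, key] at this
      have e1 : 2 * i + 1 + 1 = 2 * i + 2 := by ring
      have e2 : 2 * i + 1 + 2 = 2 * i + 3 := by ring
      rw [e1, e2] at this
      exact this) n
  simpa using h

end Pool.Agent.SZ
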