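import Pool.Agent.SZ.L_CHS
import Pool.Agent.SZ.L_LIN

/-!
# L_CHL: linear growth along the chain

Let `ζ = mH.withDensity (fun x => ENNReal.ofReal (pd p x))`, a finite measure (`pd` is integrable,
nonnegative, measurable), `V = BL2 ζ` (bounded measurable functions; square integrability is
automatic for a finite measure, `Pool.Agent.IRS.BL2`, `frm`), form `(frm ζ).B f g = ∫ f g dζ =
∫ pd f g` (`integral_withDensity_eq_integral_toReal_smul`, see `nuK_integral` in `Nuk.lean`).
`M : Module.End ℝ V` given by `Mo p` (linear).  Symmetric by `Mo_symm`; `⟨f,f⟩ + ⟨Mf,f⟩ ≥ 0` by `Mo_quad`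
with `s = 1` (the left side is nonnegative because `cd ≥ 0`).  `lin_abs`:
`∫ pd f² - ∫ pd (M^n f) f ≤ n (∫ pd f² - ∫ pd (Mf) f)` and `(M^n f) = (Mo p)^[n] f`.
(Instead of `BL2` one can use the submodule of `SL2R → ℝ` of functions with `BM`; any way is fine.)

`chain_abs` is this inequality.  `chain_lin`:
`∑_w ∫ pd ww (f (x w) - f x)² = ∫ pd ((Mo)^[n] f²) - 2 ∫ pd ((Mo)^[n] f) f + ∫ pd (∑_w ww) f²`
(`Mo_iter`; `integral_finset_sum`); the first is `∫ pd f²` (`Mo_const` iterated), the third is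
`∫ pd f²` too (or `≤`, by `ww_sum_le`).  So it is at most `2 (∫ pd f² - ∫ pd ((Mo)^[n] f) f) ≤
2 n (∫ pd f² - ∫ pd (Mo f) f) = n ∑_l ∫ cd (f (x q_l) - f x)²` (`Mo_quad`, `s = -1`).
-/

set_option autoImplicit false

namespace Pool.Agent.SZ

open Pool.Agent.IRS MeasureTheory Set Filter Topology

variable (p : Fin 2 → SL2R)

lemma LCHL_smul {f : SL2R → ℝ} (hf : BM f) (c : ℝ) : BM (fun x => c * f x) := (BM.const c).mul hf

/-- Bounded measurable functions, as a vector space. -/
def LCHL_V : Submodule ℝ (SL2R → ℝ) where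
  carrier := {f | BM f}
  add_mem' := fun hf hg => hf.add hg
  zero_mem' := BM.const 0
  smul_mem' := fun c _ hf => LCHL_smul hf c

/-- The form. -/
noncomputable def LCHL_F : PSForm LCHL_V where
  B := LinearMap.mk₂ ℝ (fun f g => ∫ x, pd p x * ((f : SL2R → ℝ) x * (g : SL2R → ℝ) x) ∂mH)
    (fun f f' g => by
      rw [← integral_add (pd_int p (BM.mul f.2 g.2)) (pd_int p (BM.mul f'.2 g.2))]
      refine integral_congr_ae (Filter.Eventually.of_forall fun x => ?_)
      simp only [Submodule.coe_add, Pi.add_apply]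
      ring)
    (fun c f g => by
      rw [smul_eq_mul, ← integral_const_mul]
      refine integral_congr_ae (Filter.Eventually.of_forall fun x => ?_)
      simp only [Submodule.coe_smul, Pi.smul_apply, smul_eq_mul]
      ring)
    (fun f g g' => by
      rw [← integral_add (pd_int p (BM.mul f.2 g.2)) (pd_int p (BM.mul f.2 g'.2))]
      refine integral_congr_ae (Filter.Eventually.of_forall fun x => ?_)
      simp only [Submodule.coe_add, Pi.add_apply]
      ring)
    (fun c f g => by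
      rw [smul_eq_mul, ← integral_const_mul]
      refine integral_congr_ae (Filter.Eventually.of_forall fun x => ?_)
      simp only [Submodule.coe_smul, Pi.smul_apply, smul_eq_mul]
      ring)
  symm f g := by
    simp only [LinearMap.mk₂_apply]
    refine integral_congr_ae (Filter.Eventually.of_forall fun x => ?_)
    simp only
    ring
  nonneg f := by
    simp only [LinearMap.mk₂_apply]
    refine integral_nonneg fun x => ?_
    exact mul_nonneg (mul_nonneg (ph_nonneg x) (Ph_nonneg p x)) (mul_self_nonneg _)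

lemma LCHL_F_apply (f g : LCHL_V) : (LCHL_F p).B f g
    = ∫ x, pd p x * ((f : SL2R → ℝ) x * (g : SL2R → ℝ) x) ∂mH := rfl

/-- The transition operator. -/
noncomputable def LCHL_M : Module.End ℝ LCHL_V where
  toFun f := ⟨Mo p f, BM.Mo f.2 p⟩
  map_add' f g := by
    apply Subtype.ext
    funext x
    simp only [Mo, Submodule.coe_add, Pi.add_apply, mul_add, Finset.sum_add_distrib]
  map_smul' c f := by
    apply Subtype.ext
    funext x
    simp only [Mo, Submodule.coe_smul, Pi.smul_apply, smul_eq_mul, RingHom.id_apply,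
      Finset.mul_sum]
    refine Finset.sum_congr rfl fun l _ => ?_
    ring

lemma LCHL_M_pow (n : ℕ) (f : LCHL_V) :
    (((LCHL_M p ^ n) f : LCHL_V) : SL2R → ℝ) = (Mo p)^[n] f := by
  induction n with
  | zero => simp
  | succ n ih =>
    rw [pow_succ', Module.End.mul_apply, Function.iterate_succ_apply', ← ih]
    rfl

lemma LCHL_iter {f : SL2R → ℝ} (hf : BM f) (n : ℕ) : BM ((Mo p)^[n] f) := by
  induction n with
  | zero => simpa using hf
  | succ n ih => rw [Function.iterate_succ_apply']; exact BM.Mo ih p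

lemma LCHL_const {f : SL2R → ℝ} (hf : BM f) (n : ℕ) :
    ∫ x, pd p x * (Mo p)^[n] f x ∂mH = ∫ x, pd p x * f x ∂mH := by
  induction n with
  | zero => simp
  | succ n ih => rw [Function.iterate_succ_apply', Mo_const p (LCHL_iter p hf n), ih]

lemma LCHL_ww_le {n : ℕ} {w : List Lt} (hw : w ∈ WS n) (x : SL2R) : ww p x w ≤ 1 :=
  (Finset.single_le_sum (fun v _ => ww_nonneg p x v) hw).trans (ww_sum_le p x n)

lemma LCHL_ww {n : ℕ} {w : List Lt} (hw : w ∈ WS n) : BM (fun x => ww p x w) :=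
  ⟨meas_ww p w, 1, fun x => by rw [abs_of_nonneg (ww_nonneg p x w)]; exact LCHL_ww_le p hw x⟩

theorem chain_abs {f : SL2R → ℝ} (hf : BM f) (n : ℕ) :
    ∫ x, pd p x * f x ^ 2 ∂mH - ∫ x, pd p x * ((Mo p)^[n] f x * f x) ∂mH
      ≤ n * (∫ x, pd p x * f x ^ 2 ∂mH - ∫ x, pd p x * (Mo p f x * f x) ∂mH) := by
  have hcd : ∀ x l, 0 ≤ cd p x l := fun x l => by
    unfold cd
    exact div_nonneg (mul_nonneg (ph_nonneg _) (ph_nonneg _)) (by norm_num)
  have h := lin_abs (LCHL_F p) (LCHL_M p) (fun x y => Mo_symm p x.2 y.2) (fun g => by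
    have h1 := Mo_quad p g.2 (s := 1) (by norm_num)
    have h2 : 0 ≤ ∑ l : Lt, ∫ x, cd p x l
        * ((g : SL2R → ℝ) (x * qv p l) + 1 * (g : SL2R → ℝ) x) ^ 2 ∂mH :=
      Finset.sum_nonneg fun l _ => integral_nonneg fun x => mul_nonneg (hcd x l) (sq_nonneg _)
    have h3 : (LCHL_F p).B g g = ∫ x, pd p x * (g : SL2R → ℝ) x ^ 2 ∂mH := by
      rw [LCHL_F_apply]
      simp only [sq]
    have h4 : (LCHL_F p).B (LCHL_M p g) g
        = ∫ x, pd p x * (Mo p (g : SL2R → ℝ) x * (g : SL2R → ℝ) x) ∂mH := rfl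
    rw [h3, h4]
    rw [h1] at h2
    linarith) n ⟨f, hf⟩
  have h3 : (LCHL_F p).B ⟨f, hf⟩ ⟨f, hf⟩ = ∫ x, pd p x * f x ^ 2 ∂mH := by
    rw [LCHL_F_apply]
    simp only [sq]
  have h4 : (LCHL_F p).B (LCHL_M p ⟨f, hf⟩) ⟨f, hf⟩
      = ∫ x, pd p x * (Mo p f x * f x) ∂mH := rfl
  have h5 : (LCHL_F p).B ((LCHL_M p ^ n) ⟨f, hf⟩) ⟨f, hf⟩
      = ∫ x, pd p x * ((Mo p)^[n] f x * f x) ∂mH := by
    rw [LCHL_F_apply, LCHL_M_pow]
  rw [h3, h4, h5] at h
  exact h

theorem chain_lin {f : SL2R → ℝ} (hf : BM f) (n : ℕ) :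
    ∑ w ∈ WS n, ∫ x, pd p x * ww p x w * (f (x * wv p w) - f x) ^ 2 ∂mH
      ≤ n * ∑ l : Lt, ∫ x, cd p x l * (f (x * qv p l) - f x) ^ 2 ∂mH := by
  have hf2 : BM (fun x => f x ^ 2) := by simpa only [sq] using hf.mul hf
  have hfn := LCHL_iter p hf n
  have hpd : ∀ x, 0 ≤ pd p x := fun x => mul_nonneg (ph_nonneg x) (Ph_nonneg p x)
  have i1 := pd_int p (LCHL_iter p hf2 n)
  have i2 := pd_int p (hfn.mul hf)
  have i3 := pd_int p hf2
  have i12 : Integrable (fun x => pd p x * (Mo p)^[n] (fun y => f y ^ 2) x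
      - 2 * (pd p x * ((Mo p)^[n] f x * f x))) mH := i1.sub (i2.const_mul 2)
  have iw : ∀ w ∈ WS n, Integrable (fun x => pd p x * ww p x w * (f (x * wv p w) - f x) ^ 2) mH := by
    intro w hw
    have hb : BM (fun x => ww p x w * ((f (x * wv p w) - f x) * (f (x * wv p w) - f x))) :=
      (LCHL_ww p hw).mul (((hf.right _).sub hf).mul ((hf.right _).sub hf))
    refine (pd_int p hb).congr (Filter.Eventually.of_forall fun x => ?_)
    simp only
    ring
  have hl : ∑ w ∈ WS n, ∫ x, pd p x * ww p x w * (f (x * wv p w) - f x) ^ 2 ∂mH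
      ≤ 2 * (∫ x, pd p x * f x ^ 2 ∂mH - ∫ x, pd p x * ((Mo p)^[n] f x * f x) ∂mH) := by
    rw [← integral_finsetSum _ iw]
    have hpt : ∀ x, ∑ w ∈ WS n, pd p x * ww p x w * (f (x * wv p w) - f x) ^ 2
        ≤ pd p x * (Mo p)^[n] (fun y => f y ^ 2) x - 2 * (pd p x * ((Mo p)^[n] f x * f x))
          + pd p x * f x ^ 2 := by
      intro x
      have e1 : ∑ w ∈ WS n, pd p x * ww p x w * (f (x * wv p w) - f x) ^ 2
          = pd p x * (∑ w ∈ WS n, ww p x w * f (x * wv p w) ^ 2)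
            - 2 * (pd p x * ((∑ w ∈ WS n, ww p x w * f (x * wv p w)) * f x))
            + pd p x * f x ^ 2 * ∑ w ∈ WS n, ww p x w := by
        rw [Finset.mul_sum, Finset.sum_mul, Finset.mul_sum, Finset.mul_sum, Finset.mul_sum,
          ← Finset.sum_sub_distrib, ← Finset.sum_add_distrib]
        refine Finset.sum_congr rfl fun w _ => ?_
        ring
      rw [e1, Mo_iter, Mo_iter]
      have h1 := ww_sum_le p x n
      have h2 : 0 ≤ pd p x * f x ^ 2 := mul_nonneg (hpd x) (sq_nonneg _)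
      nlinarith
    calc ∫ x, ∑ w ∈ WS n, pd p x * ww p x w * (f (x * wv p w) - f x) ^ 2 ∂mH
        ≤ ∫ x, (pd p x * (Mo p)^[n] (fun y => f y ^ 2) x - 2 * (pd p x * ((Mo p)^[n] f x * f x))
          + pd p x * f x ^ 2) ∂mH :=
          integral_mono (integrable_finsetSum _ iw) (i12.add i3) hpt
      _ = _ := by
          rw [integral_add i12 i3, integral_sub i1 (i2.const_mul 2),
            integral_const_mul, LCHL_const p hf2 n]
          ring
  have hr := Mo_quad p hf (s := -1) (by norm_num)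
  have hr' : ∑ l : Lt, ∫ x, cd p x l * (f (x * qv p l) - f x) ^ 2 ∂mH
      = 2 * (∫ x, pd p x * f x ^ 2 ∂mH - ∫ x, pd p x * (Mo p f x * f x) ∂mH) := by
    have e : ∀ (l : Lt), ∫ x, cd p x l * (f (x * qv p l) - f x) ^ 2 ∂mH
        = ∫ x, cd p x l * (f (x * qv p l) + -1 * f x) ^ 2 ∂mH := fun l => by
      refine integral_congr_ae (Filter.Eventually.of_forall fun x => ?_)
      simp only
      ring
    simp only [e]
    rw [hr]
    ring
  rw [hr']
  have h := chain_abs p hf n
  linarith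

end Pool.Agent.SZ
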