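import Pool.Agent.SZ.L_CHA

/-!
# L_CHS: symmetry of the chain

* `BM` closure: constants, sums, products, right and left translates, `ph`, `Ph p`, `Mo p f`
  (`Mo`: `|Mo p f x| ≤ ∑ tr * M ≤ M`; measurability of `tr p · l` from `measurable_ph`,
  `measurable_Ph`, `measurable_mul_const`, `Measurable.div`).
* `cd_int`: `x ↦ cd p x l * F x` is integrable for `F` bounded measurable: it is `ph x` times a
  bounded measurable function (`ph_mul_int`).
* `Mo_int`: `∫ pd (Mo f) g = ∑_l ∫ cd p x l * f (x q_l) * g x`, by `cd_eq`, `Finset.mul_sum`,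
  `integral_finsetSum`.
* `cd_swap`: `∫ cd p x l * F (x q_l) * G x = ∫ cd p x l' * F x * G (x q_l')` with
  `l' = (l.1, !l.2)`: substitute `x = y q_l⁻¹ = y q_l'` (`mp_right`, or
  `integral_mul_right_eq_self`-like from `mH_right`): `cd p (y q_l') l = ph (y q_l') ph y / 4 =
  cd p y l'`.
* `Mo_symm`: sum over `l`, and `l ↦ (l.1, !l.2)` is a bijection of the letters.
* `Mo_const`: `∫ pd * Mo p F = ∫ pd * F`: `Mo_symm` with `g = 1` and `pd * Mo p 1 = pd`
  (`cd_eq`, `∑_l cd p x l = ph x * Ph p x`).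
* `Mo_quad`: for `s = 1` and `s = -1`:
  `∑_l ∫ cd p x l * (f (x q_l) + s f x)^2 = 2 ∫ pd f² + 2 s ∫ pd f (Mo f)`
  (expand the square; `∑_l cd p x l f(x q_l)² = pd Mo(f²)`, `Mo_const`).
-/

set_option autoImplicit false

namespace Pool.Agent.SZ

open Pool.Agent.IRS MeasureTheory Set Filter Topology

theorem BM.const (c : ℝ) : BM (fun _ => c) :=
  ⟨measurable_const, |c|, fun _ => le_rfl⟩

theorem BM.add {f g : SL2R → ℝ} (hf : BM f) (hg : BM g) : BM (fun x => f x + g x) := by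
  obtain ⟨hf1, M, hM⟩ := hf
  obtain ⟨hg1, N, hN⟩ := hg
  exact ⟨hf1.add hg1, M + N, fun b => (abs_add_le _ _).trans (add_le_add (hM b) (hN b))⟩

theorem BM.sub {f g : SL2R → ℝ} (hf : BM f) (hg : BM g) : BM (fun x => f x - g x) := by
  obtain ⟨hf1, M, hM⟩ := hf
  obtain ⟨hg1, N, hN⟩ := hg
  refine ⟨hf1.sub hg1, M + N, fun b => ?_⟩
  change |f b - g b| ≤ M + N
  rw [sub_eq_add_neg]
  refine (abs_add_le _ _).trans ?_
  rw [abs_neg]
  exact add_le_add (hM b) (hN b)

theorem BM.mul {f g : SL2R → ℝ} (hf : BM f) (hg : BM g) : BM (fun x => f x * g x) := by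
  obtain ⟨hf1, M, hM⟩ := hf
  obtain ⟨hg1, N, hN⟩ := hg
  refine ⟨hf1.mul hg1, M * N, fun b => ?_⟩
  rw [abs_mul]
  exact mul_le_mul (hM b) (hN b) (abs_nonneg _) ((abs_nonneg _).trans (hM b))

theorem BM.right {f : SL2R → ℝ} (hf : BM f) (g : SL2R) : BM (fun x => f (x * g)) := by
  obtain ⟨hf1, M, hM⟩ := hf
  exact ⟨hf1.comp (measurable_mul_const g), M, fun b => hM _⟩

theorem BM.left {f : SL2R → ℝ} (hf : BM f) (g : SL2R) : BM (fun x => f (g * x)) := by
  obtain ⟨hf1, M, hM⟩ := hf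
  exact ⟨hf1.comp (measurable_const_mul g), M, fun b => hM _⟩

theorem BM.ph : BM ph := BM_ph

theorem BM.Ph (p : Fin 2 → SL2R) : BM (Ph p) :=
  ⟨measurable_Ph p, 2, fun b => by
    rw [abs_of_nonneg (Ph_nonneg p b)]; exact Ph_le p b⟩

lemma LCHS_meas_tr (p : Fin 2 → SL2R) (l : Lt) : Measurable (fun x => tr p x l) := by
  unfold tr
  exact (measurable_ph.comp (measurable_mul_const _)).div ((measurable_Ph p).const_mul 4)

theorem BM.Mo {f : SL2R → ℝ} (hf : BM f) (p : Fin 2 → SL2R) : BM (Mo p f) := by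
  obtain ⟨hf1, M, hM⟩ := hf
  have hM0 : 0 ≤ M := (abs_nonneg _).trans (hM 1)
  refine ⟨?_, M, fun b => ?_⟩
  · unfold SZ.Mo
    refine Finset.measurable_sum _ fun l _ => ?_
    exact (LCHS_meas_tr p l).mul (hf1.comp (measurable_mul_const _))
  · unfold SZ.Mo
    calc |∑ l : Lt, tr p b l * f (b * qv p l)|
        ≤ ∑ l : Lt, |tr p b l * f (b * qv p l)| := Finset.abs_sum_le_sum_abs _ _
      _ ≤ ∑ l : Lt, tr p b l * M := by
          refine Finset.sum_le_sum fun l _ => ?_
          rw [abs_mul, abs_of_nonneg (tr_nonneg p b l)]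
          exact mul_le_mul_of_nonneg_left (hM _) (tr_nonneg p b l)
      _ = (∑ l : Lt, tr p b l) * M := by rw [Finset.sum_mul]
      _ ≤ 1 * M := mul_le_mul_of_nonneg_right (tr_sum_le p b) hM0
      _ = M := one_mul M

variable (p : Fin 2 → SL2R)

theorem pd_int {F : SL2R → ℝ} (hF : BM F) : Integrable (fun x => pd p x * F x) mH := by
  have h := ph_mul_int ((BM.Ph p).mul hF)
  refine h.congr ?_
  filter_upwards with x
  unfold pd
  ring

theorem cd_int (l : Lt) {F : SL2R → ℝ} (hF : BM F) : Integrable (fun x => cd p x l * F x) mH := by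
  have h := ph_mul_int ((BM_ph.right (qv p l)).mul (((BM.const (1 / 4)).mul hF)))
  refine h.congr ?_
  filter_upwards with x
  unfold cd
  ring

lemma LCHS_int_right (F : SL2R → ℝ) (g : SL2R) : ∫ x, F (x * g) ∂mH = ∫ x, F x ∂mH :=
  (mp_right g).integral_comp (measurableEmbedding_mulRight g) F

lemma LCHS_swap (f g : SL2R → ℝ) (l : Lt) :
    ∫ x, cd p x l * (f (x * qv p l) * g x) ∂mH
      = ∫ x, cd p x (l.1, !l.2) * (f x * g (x * qv p (l.1, !l.2))) ∂mH := by
  rw [← LCHS_int_right (fun x => cd p x l * (f (x * qv p l) * g x)) (qv p l)⁻¹]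
  refine integral_congr_ae ?_
  filter_upwards with x
  have e : x * (qv p l)⁻¹ * qv p l = x := inv_mul_cancel_right x (qv p l)
  simp only [cd, qv_inv, e]
  ring

/-- The involution of the letters. -/
def LCHS_flip : Lt ≃ Lt := (Equiv.refl (Fin 2)).prodCongr Equiv.boolNot

lemma LCHS_flip_apply (l : Lt) : LCHS_flip l = (l.1, !l.2) := rfl

lemma LCHS_pt (f : SL2R → ℝ) (x : SL2R) (c : ℝ) :
    pd p x * (Mo p f x * c) = ∑ l : Lt, cd p x l * (f (x * qv p l) * c) := by
  unfold Mo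
  rw [Finset.sum_mul, Finset.mul_sum]
  refine Finset.sum_congr rfl fun l _ => ?_
  rw [← cd_eq]
  ring

lemma LCHS_int {f g : SL2R → ℝ} (hf : BM f) (hg : BM g) :
    ∫ x, pd p x * (Mo p f x * g x) ∂mH
      = ∑ l : Lt, ∫ x, cd p x l * (f (x * qv p l) * g x) ∂mH := by
  rw [← integral_finsetSum]
  · refine integral_congr_ae ?_
    filter_upwards with x
    exact LCHS_pt p f x (g x)
  · intro l _
    exact cd_int p l ((hf.right (qv p l)).mul hg)

theorem Mo_symm {f g : SL2R → ℝ} (hf : BM f) (hg : BM g) :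
    ∫ x, pd p x * (Mo p f x * g x) ∂mH = ∫ x, pd p x * (f x * Mo p g x) ∂mH := by
  have h1 : ∫ x, pd p x * (f x * Mo p g x) ∂mH = ∫ x, pd p x * (Mo p g x * f x) ∂mH := by
    refine integral_congr_ae ?_
    filter_upwards with x
    ring
  rw [h1, LCHS_int p hf hg, LCHS_int p hg hf]
  rw [← Equiv.sum_comp LCHS_flip (fun l => ∫ x, cd p x l * (g (x * qv p l) * f x) ∂mH)]
  refine Finset.sum_congr rfl fun l _ => ?_
  rw [LCHS_swap, LCHS_flip_apply]
  refine integral_congr_ae ?_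
  filter_upwards with x
  ring

lemma LCHS_Mo_one (x : SL2R) : pd p x * Mo p (fun _ => (1 : ℝ)) x = pd p x := by
  by_cases h : Ph p x = 0
  · unfold pd
    rw [h]; simp
  · have : Mo p (fun _ => (1 : ℝ)) x = 1 := by
      unfold Mo
      simp only [mul_one]
      exact tr_sum_eq p h
    rw [this, mul_one]

theorem Mo_const {f : SL2R → ℝ} (hf : BM f) :
    ∫ x, pd p x * Mo p f x ∂mH = ∫ x, pd p x * f x ∂mH := by
  have h := Mo_symm p hf (BM.const 1)
  have h1 : ∫ x, pd p x * (Mo p f x * 1) ∂mH = ∫ x, pd p x * Mo p f x ∂mH := by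
    simp only [mul_one]
  have h2 : ∫ x, pd p x * (f x * Mo p (fun _ => (1 : ℝ)) x) ∂mH = ∫ x, pd p x * f x ∂mH := by
    refine integral_congr_ae ?_
    filter_upwards with x
    have := LCHS_Mo_one p x
    calc pd p x * (f x * Mo p (fun _ => (1 : ℝ)) x)
        = (pd p x * Mo p (fun _ => (1 : ℝ)) x) * f x := by ring
      _ = pd p x * f x := by rw [this]
  rw [← h1, h, h2]

lemma LCHS_sum_cd (x : SL2R) : ∑ l : Lt, cd p x l = pd p x := by
  unfold cd pd Ph
  rw [← Finset.sum_div, ← Finset.mul_sum]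
  ring

theorem Mo_quad {f : SL2R → ℝ} (hf : BM f) {s : ℝ} (hs : s ^ 2 = 1) :
    ∑ l : Lt, ∫ x, cd p x l * (f (x * qv p l) + s * f x) ^ 2 ∂mH
      = 2 * ∫ x, pd p x * f x ^ 2 ∂mH + 2 * s * ∫ x, pd p x * (Mo p f x * f x) ∂mH := by
  have hff : BM (fun x => f x * f x) := hf.mul hf
  -- expansion of each term
  have hexp : ∀ l : Lt, ∫ x, cd p x l * (f (x * qv p l) + s * f x) ^ 2 ∂mH
      = ∫ x, cd p x l * ((f (x * qv p l) * f (x * qv p l)) * 1) ∂mH
        + (2 * s * ∫ x, cd p x l * (f (x * qv p l) * f x) ∂mH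
        + ∫ x, cd p x l * (f x * f x) ∂mH) := by
    intro l
    have i1 : Integrable (fun x => cd p x l * ((f (x * qv p l) * f (x * qv p l)) * 1)) mH :=
      cd_int p l ((hff.right (qv p l)).mul (BM.const 1))
    have i2 : Integrable (fun x => 2 * s * (cd p x l * (f (x * qv p l) * f x))) mH :=
      (cd_int p l ((hf.right (qv p l)).mul hf)).const_mul (2 * s)
    have i3 : Integrable (fun x => cd p x l * (f x * f x)) mH := cd_int p l hff
    have i23 : Integrable (fun x => 2 * s * (cd p x l * (f (x * qv p l) * f x))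
        + cd p x l * (f x * f x)) mH := i2.add i3
    rw [← integral_const_mul, ← integral_add i2 i3, ← integral_add i1 i23]
    refine integral_congr_ae ?_
    filter_upwards with x
    have : (f (x * qv p l) + s * f x) ^ 2 = f (x * qv p l) * f (x * qv p l)
        + 2 * s * (f (x * qv p l) * f x) + s ^ 2 * (f x * f x) := by ring
    rw [this, hs]
    ring
  rw [Finset.sum_congr rfl fun l _ => hexp l, Finset.sum_add_distrib, Finset.sum_add_distrib,
    ← Finset.mul_sum]
  -- first sum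
  have s1 : ∑ l : Lt, ∫ x, cd p x l * ((f (x * qv p l) * f (x * qv p l)) * 1) ∂mH
      = ∫ x, pd p x * f x ^ 2 ∂mH := by
    have h1 := LCHS_int p hff (BM.const 1)
    rw [← h1]
    simp only [mul_one]
    rw [Mo_const p hff]
    refine integral_congr_ae ?_
    filter_upwards with x
    ring
  have s2 := LCHS_int p hf hf
  have s3 : ∑ l : Lt, ∫ x, cd p x l * (f x * f x) ∂mH = ∫ x, pd p x * f x ^ 2 ∂mH := by
    rw [← integral_finsetSum _ (fun l _ => cd_int p l hff)]
    refine integral_congr_ae ?_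
    filter_upwards with x
    rw [← Finset.sum_mul, LCHS_sum_cd]
    ring
  rw [s1, ← s2, s3]
  ring

end Pool.Agent.SZ
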