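import Pool.Agent.SZ.L_CMP
import Pool.Agent.SZ.L_RNM

/-!
# L_CMB: adding two scales

Let `g, h ∈ H` be given by the two hypotheses, `x = 2⁻¹ ^ (a₁+12)`, `y = 2⁻¹ ^ (a₂+12)`:
`2/5 x ≤ d1 g.1 ≤ x ≤ 1/2`, the same for `h`, `y`.  By `cm_pick` there is `v ∈ {1, vu.1, vs.1}`; let
`v' ∈ H` be the corresponding element (`1`, `vu` or `vs`) and
`k = g * (v' * h * v'⁻¹) * g⁻¹ * (v' * h * v'⁻¹)⁻¹ ∈ H`, whose first coordinate is `cm v g.1 h.1`.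
Its distance to `1` is at least `(4/25) x y / 20000000` and at most `3200 x y ≤ 2⁻¹ ^ (a₁+a₂+12) = t`
(as `x y = 2⁻¹^12 * t` and `3200 ≤ 4096`).  `lo = (4/25) * 2⁻¹^12 * t / 20000000`; `t ≤ lo * (3/2)^67`
(`norm_num`: `(3/2)^67 ≥ 6.2 * 10^11 ≥ 5.12 * 10^11`).
Cost: by `cst_cm` at radius `R * 3^67` (all norms at most 4, `nS_le_d1`):
`cst f (R 3^67) k.1 ≤ 32 (cst f (R 3^67 4^9) g.1 + cst .. h.1 + cst .. v) ≤ 32 (A₁ + A₂ + E)`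
(`cst_one` if `v = 1`, and `0 ≤ E`).  `renorm` with `m = 67`.
-/

set_option autoImplicit false

namespace Pool.Agent.SZ

open Pool.Agent.IRS MeasureTheory Set Filter Topology

/-- The factor of the radius. -/
noncomputable def LamL : ℝ := 3 ^ 67 * 4 ^ 9

/-- The factor of the cost. -/
noncomputable def CL : ℝ := 4 ^ 67 * 32

theorem comb {H : Subgroup G2} {f : SL2R → ℝ} (hf : BM f) {R : ℝ} (hR : 0 ≤ R) {vu vs : G2}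
    (hvu : vu ∈ H) (hvs : vs ∈ H) (hu : dm vu.1 (uu 1) ≤ 1 / 10000000)
    (hs : dm vs.1 (vv 1) ≤ 1 / 10000000) {E : ℝ} (hE1 : cst f (R * LamL) vu.1 ≤ E)
    (hE2 : cst f (R * LamL) vs.1 ≤ E) {a₁ a₂ : ℕ} {A₁ A₂ : ℝ}
    (h1 : Gd H f (R * LamL) (2⁻¹ ^ (a₁ + 12)) A₁) (h2 : Gd H f (R * LamL) (2⁻¹ ^ (a₂ + 12)) A₂) :
    Gd H f R (2⁻¹ ^ (a₁ + a₂ + 12)) (CL * (A₁ + A₂ + E)) := by
  obtain ⟨g, hgH, hg1, hg2, hgc⟩ := h1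
  obtain ⟨h, hhH, hh1, hh2, hhc⟩ := h2
  set x : ℝ := (2⁻¹ : ℝ) ^ (a₁ + 12) with hx
  set y : ℝ := (2⁻¹ : ℝ) ^ (a₂ + 12) with hy
  set t : ℝ := (2⁻¹ : ℝ) ^ (a₁ + a₂ + 12) with ht
  have hxy : x * y = (2⁻¹ : ℝ) ^ 12 * t := by
    rw [hx, hy, ht, ← pow_add, ← pow_add]; congr 1; omega
  have hx0 : 0 < x := by rw [hx]; positivity
  have hy0 : 0 < y := by rw [hy]; positivity
  have ht0 : 0 < t := by rw [ht]; positivity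
  have hhalf : ∀ n : ℕ, (2⁻¹ : ℝ) ^ (n + 12) ≤ 1 / 2 := by
    intro n
    calc (2⁻¹ : ℝ) ^ (n + 12) ≤ (2⁻¹ : ℝ) ^ 1 :=
          pow_le_pow_of_le_one (by norm_num) (by norm_num) (by omega)
      _ = 1 / 2 := by norm_num
  have hx2 : x ≤ 1 / 2 := hhalf a₁
  have hy2 : y ≤ 1 / 2 := hhalf a₂
  have ht2 : t ≤ 1 / 2 := hhalf (a₁ + a₂)
  obtain ⟨v, hv, hv4, hlow, hup⟩ := cm_pick (g := g.1) (h := h.1) hu hs (hg2.trans hx2)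
    (hh2.trans hy2)
  obtain ⟨v', hv'H, hv'1, hv'c⟩ : ∃ v' ∈ H, v'.1 = v ∧ cst f (R * LamL) v'.1 ≤ E := by
    rcases hv with rfl | rfl | rfl
    · refine ⟨1, H.one_mem, rfl, ?_⟩
      have e1 : cst f (R * LamL) (1 : G2).1 = 0 := cst_one f _
      rw [e1]
      exact (cst_nonneg _ _ _).trans hE1
    · exact ⟨vu, hvu, rfl, hE1⟩
    · exact ⟨vs, hvs, rfl, hE2⟩
  subst hv'1
  have hw : v' * h * v'⁻¹ ∈ H := H.mul_mem (H.mul_mem hv'H hhH) (H.inv_mem hv'H)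
  have hk : g * (v' * h * v'⁻¹) * g⁻¹ * (v' * h * v'⁻¹)⁻¹ ∈ H :=
    H.mul_mem (H.mul_mem (H.mul_mem hgH hw) (H.inv_mem hgH)) (H.inv_mem hw)
  have hk1 : (g * (v' * h * v'⁻¹) * g⁻¹ * (v' * h * v'⁻¹)⁻¹).1 = cm v'.1 g.1 h.1 := rfl
  have hR3 : (0 : ℝ) ≤ R * 3 ^ 67 := by positivity
  have hLam : R * 3 ^ 67 * 4 ^ 9 = R * LamL := by unfold LamL; ring
  have hg4 : nS g.1 ≤ 4 := by have := nS_le_d1 g.1; linarith
  have hh4 : nS h.1 ≤ 4 := by have := nS_le_d1 h.1; linarith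
  have hcost : cst f (R * 3 ^ 67) (cm v'.1 g.1 h.1) ≤ 32 * (A₁ + A₂ + E) := by
    have h3 := cst_cm hf hR3 hv4 hg4 hh4
    rw [hLam] at h3
    linarith
  have hp1 : 4 / 25 * (x * y) ≤ d1 g.1 * d1 h.1 := by
    have h3 : (2 / 5 * x) * (2 / 5 * y) ≤ d1 g.1 * d1 h.1 :=
      mul_le_mul hg1 hh1 (by positivity) (d1_nonneg _)
    linarith
  have hp2 : d1 g.1 * d1 h.1 ≤ x * y := mul_le_mul hg2 hh2 (d1_nonneg _) hx0.le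
  have hren := renorm (H := H) hf 67 (lo := 4 / 25 * ((2⁻¹ : ℝ) ^ 12 * t) / 20000000) (t := t)
    (A := 32 * (A₁ + A₂ + E)) (R := R) (by positivity) ht2 ?_ hR _ hk ?_ ?_ ?_
  · have e : CL * (A₁ + A₂ + E) = 4 ^ 67 * (32 * (A₁ + A₂ + E)) := by unfold CL; ring
    rw [e]
    exact hren
  · have e : 4 / 25 * ((2⁻¹ : ℝ) ^ 12 * t) / 20000000 * (3 / 2) ^ 67
        = (4 / 25 * (2⁻¹ : ℝ) ^ 12 / 20000000 * (3 / 2) ^ 67) * t := by ring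
    rw [e]
    have h3 : (1 : ℝ) ≤ 4 / 25 * (2⁻¹ : ℝ) ^ 12 / 20000000 * (3 / 2) ^ 67 := by norm_num
    exact le_mul_of_one_le_left ht0.le h3
  · rw [hk1, ← hxy]
    linarith
  · rw [hk1]
    have h3 : 3200 * (x * y) ≤ t := by
      rw [hxy]
      have : (3200 : ℝ) * (2⁻¹ : ℝ) ^ 12 ≤ 1 := by norm_num
      calc 3200 * ((2⁻¹ : ℝ) ^ 12 * t) = (3200 * (2⁻¹ : ℝ) ^ 12) * t := by ring
        _ ≤ 1 * t := mul_le_mul_of_nonneg_right this ht0.le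
        _ = t := one_mul t
    linarith
  · rw [hk1]
    exact hcost

end Pool.Agent.SZ
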