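import Pool.Agent.SZ.L_CMX

/-!
# L_CMP: the commutator with a good conjugate

For `v ∈ {1, vu, vs}`: `nS v ≤ 3 + 1 = 4` (`dm` small, `nS_uu`, `nS_vv`; `nS 1 = 2`), `nS g ≤ 5/2`
(`nS_le_d1`), `nS (v h v⁻¹) ≤ 4 * (5/2) * 4 = 40`, so `nS g * nS (v h v⁻¹) ≤ 100`.

Upper bound: `l1 (cr x y) ≤ l1 x * l1 y` (`cr_sub_le` with `z = 0`) and
`l1 (tz (v h v⁻¹)) ≤ d1 (v h v⁻¹) ≤ 16 d1 h` (`tz_le`, `d1_conj_le`), so by `cm_up`
`d1 (cm v g h) ≤ 2 * d1 g * 16 d1 h * 100 = 3200 d1 g d1 h`.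

Lower bound: by `cr_pick` with `x = tz g`, `(a,b,c) = tz h`, and `tz_uu`, `tz_vv`, there is
`v0 ∈ {1, uu 1, vv 1}` with `l1 (tz g) * l1 (tz h) ≤ 8000 * l1 (cr (tz g) (tz (v0 h v0⁻¹)))`, hence
(`le_tz` twice) `d1 g * d1 h ≤ 128000 * l1 (cr (tz g) (tz (v0 h v0⁻¹)))`.  Let `v` be the
corresponding element.  By `cr_sub_le`, `tz_pert`, `tz_le`:
`l1 (cr (tz g) (tz (v0 h v0⁻¹))) ≤ l1 (cr (tz g) (tz (v h v⁻¹))) + d1 g * (10^-7 * 7 * d1 h)`, and
`128000 * 7 * 10^-7 ≤ 1/2`.  So `d1 g * d1 h ≤ 256000 * l1 (cr (tz g) (tz (v h v⁻¹)))`, and by `cm_low`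
this is at most `128000 * 100 * d1 (cm v g h)`.
-/

set_option autoImplicit false

namespace Pool.Agent.SZ

open Pool.Agent.IRS MeasureTheory Set Filter Topology

private lemma nS_le_dm (v w : SL2R) : nS v ≤ nS w + dm v w := by
  unfold nS dm nM
  simp only [Matrix.sub_apply]
  have h : ∀ a b : ℝ, |a| ≤ |b| + |a - b| := fun a b => by
    have := abs_add_le b (a - b)
    rwa [add_sub_cancel] at this
  linarith [h (v 0 0) (w 0 0), h (v 0 1) (w 0 1), h (v 1 0) (w 1 0), h (v 1 1) (w 1 1)]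

private lemma dm_comm (v w : SL2R) : dm v w = dm w v := by
  unfold dm nM
  simp only [Matrix.sub_apply]
  rw [abs_sub_comm (v 0 0) (w 0 0), abs_sub_comm (v 0 1) (w 0 1), abs_sub_comm (v 1 0) (w 1 0),
    abs_sub_comm (v 1 1) (w 1 1)]

private lemma l1_nonneg (x : ℝ × ℝ × ℝ) : 0 ≤ l1 x := by unfold l1; positivity

private lemma cm_pick_aux {v v0 g h : SL2R} (hv : dm v v0 ≤ 1 / 10000000) (h0 : nS v0 ≤ 3)
    (hg : d1 g ≤ 1 / 2) (hh : d1 h ≤ 1 / 2)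
    (hp : l1 (tz g) * l1 (tz h) ≤ 8000 * l1 (cr (tz g) (tz (v0 * h * v0⁻¹)))) :
    nS v ≤ 4 ∧
      d1 g * d1 h ≤ 20000000 * d1 (cm v g h) ∧ d1 (cm v g h) ≤ 3200 * (d1 g * d1 h) := by
  have hv4 : nS v ≤ 4 := by
    have := nS_le_dm v v0
    linarith
  have g0 := d1_nonneg g
  have h00 := d1_nonneg h
  have c0 := d1_nonneg (cm v g h)
  have ng : nS g ≤ 5 / 2 := by
    have := nS_le_d1 g
    linarith
  have nh : nS h ≤ 5 / 2 := by
    have := nS_le_d1 h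
    linarith
  have pv := nS_pos v
  have pg := nS_pos g
  have ph' := nS_pos h
  have pc := nS_pos (v * h * v⁻¹)
  have nc : nS (v * h * v⁻¹) ≤ 40 := by
    have e1 := nS_mul_le (v * h) v⁻¹
    have e2 := nS_mul_le v h
    rw [nS_inv] at e1
    have e3 : nS v * nS h ≤ 4 * (5 / 2) := mul_le_mul hv4 nh ph'.le (by norm_num)
    have e4 : nS (v * h) * nS v ≤ 10 * 4 :=
      mul_le_mul (by linarith) hv4 pv.le (by norm_num)
    linarith
  have nn : nS g * nS (v * h * v⁻¹) ≤ 100 := by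
    have := mul_le_mul ng nc pc.le (by norm_num)
    linarith
  have nn0 : 0 ≤ nS g * nS (v * h * v⁻¹) := (mul_pos pg pc).le
  have tg := tz_le g
  have th := tz_le h
  have tg0 := l1_nonneg (tz g)
  have th0 := l1_nonneg (tz h)
  refine ⟨hv4, ?_, ?_⟩
  · -- the lower bound
    set L := l1 (cr (tz g) (tz (v * h * v⁻¹))) with hL
    have L0 : 0 ≤ L := l1_nonneg _
    have e1 : l1 (cr (tz g) (tz (v0 * h * v0⁻¹))) ≤ L +
        l1 (tz g) * l1 (tz (v0 * h * v0⁻¹) - tz (v * h * v⁻¹)) := cr_sub_le _ _ _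
    have e2 := tz_pert v0 v h
    have e3 : dm v0 v * (nS v0 + nS v) * d1 h ≤ 1 / 10000000 * 7 * d1 h := by
      refine mul_le_mul_of_nonneg_right ?_ h00
      rw [dm_comm]
      refine mul_le_mul hv (by linarith) ?_ (by norm_num)
      have := nS_pos v0
      linarith
    have e4 : l1 (tz g) * l1 (tz (v0 * h * v0⁻¹) - tz (v * h * v⁻¹)) ≤
        d1 g * (1 / 10000000 * 7 * d1 h) :=
      mul_le_mul tg (e2.trans e3) (l1_nonneg _) g0
    have e5 := le_tz hg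
    have e6 := le_tz hh
    have e7 : d1 g * d1 h ≤ (4 * l1 (tz g)) * (4 * l1 (tz h)) :=
      mul_le_mul e5 e6 h00 (by linarith)
    have e8 := cm_low v g h
    rw [← hL] at e8
    have e9 : d1 (cm v g h) * (nS g * nS (v * h * v⁻¹)) ≤ d1 (cm v g h) * 100 :=
      mul_le_mul_of_nonneg_left nn c0
    have gh0 : 0 ≤ d1 g * d1 h := mul_nonneg g0 h00
    nlinarith
  · -- the upper bound
    have e1 := cm_up v g h
    have e2 : l1 (cr (tz g) (tz (v * h * v⁻¹))) ≤ l1 (tz g) * l1 (tz (v * h * v⁻¹)) := by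
      have := cr_sub_le (tz g) (tz (v * h * v⁻¹)) 0
      have hz : l1 (cr (tz g) 0) = 0 := by simp [l1, cr]
      rw [hz, sub_zero, zero_add] at this
      exact this
    have e3 : d1 (v * h * v⁻¹) ≤ 16 * d1 h := by
      refine (d1_conj_le v h).trans ?_
      refine mul_le_mul_of_nonneg_right ?_ h00
      nlinarith
    have e4 : l1 (tz (v * h * v⁻¹)) ≤ 16 * d1 h := (tz_le _).trans e3
    have e5 : l1 (tz g) * l1 (tz (v * h * v⁻¹)) ≤ d1 g * (16 * d1 h) :=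
      mul_le_mul tg e4 (l1_nonneg _) g0
    have e6 : 0 ≤ d1 g * (16 * d1 h) := mul_nonneg g0 (by linarith)
    calc d1 (cm v g h) ≤ 2 * l1 (cr (tz g) (tz (v * h * v⁻¹))) *
          (nS g * nS (v * h * v⁻¹)) := e1
      _ ≤ 2 * (d1 g * (16 * d1 h)) * 100 := by
          refine mul_le_mul (by linarith) nn nn0 (by linarith)
      _ = 3200 * (d1 g * d1 h) := by ring

theorem cm_pick {vu vs g h : SL2R} (hu : dm vu (uu 1) ≤ 1 / 10000000)
    (hs : dm vs (vv 1) ≤ 1 / 10000000) (hg : d1 g ≤ 1 / 2) (hh : d1 h ≤ 1 / 2) :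
    ∃ v : SL2R, (v = 1 ∨ v = vu ∨ v = vs) ∧ nS v ≤ 4 ∧
      d1 g * d1 h ≤ 20000000 * d1 (cm v g h) ∧ d1 (cm v g h) ≤ 3200 * (d1 g * d1 h) := by
  have key := cr_pick (tz g) (tz h).1 (tz h).2.1 (tz h).2.2
  rw [← tz_uu h, ← tz_vv h] at key
  have hd : dm (1 : SL2R) 1 ≤ 1 / 10000000 := by
    unfold dm nM
    simp
  rcases le_total (l1 (cr (tz g) (tz (uu 1 * h * (uu 1)⁻¹))))
    (l1 (cr (tz g) (tz (vv 1 * h * (vv 1)⁻¹)))) with h1 | h1
  · rw [max_eq_right h1] at key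
    rcases le_total (l1 (cr (tz g) ((tz h).1, (tz h).2.1, (tz h).2.2)))
      (l1 (cr (tz g) (tz (vv 1 * h * (vv 1)⁻¹)))) with h2 | h2
    · rw [max_eq_right h2] at key
      exact ⟨vs, Or.inr (Or.inr rfl), cm_pick_aux hs (by rw [nS_vv]; norm_num) hg hh key⟩
    · rw [max_eq_left h2] at key
      refine ⟨1, Or.inl rfl, cm_pick_aux hd (by rw [nS_one]; norm_num) hg hh ?_⟩
      simpa only [one_mul, inv_one, mul_one] using key
  · rw [max_eq_left h1] at key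
    rcases le_total (l1 (cr (tz g) ((tz h).1, (tz h).2.1, (tz h).2.2)))
      (l1 (cr (tz g) (tz (uu 1 * h * (uu 1)⁻¹)))) with h2 | h2
    · rw [max_eq_right h2] at key
      exact ⟨vu, Or.inr (Or.inl rfl), cm_pick_aux hu (by rw [nS_uu]; norm_num) hg hh key⟩
    · rw [max_eq_left h2] at key
      refine ⟨1, Or.inl rfl, cm_pick_aux hd (by rw [nS_one]; norm_num) hg hh ?_⟩
      simpa only [one_mul, inv_one, mul_one] using key

end Pool.Agent.SZ
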