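import Mathlib

/-!
# L_CRS: an inequality for the cross product

The trace zero matrix with first row `(a, b)` and second row `(c, -a)` is the vector `(a, b, c)`;
`uu 1` acts by `(a, b, c) ↦ (a + c, b - 2 a - c, c)` and `vv 1` by
`(a, b, c) ↦ (a - b, b, c + 2 a - b)` (see `L_CMX`).

`l1 x = |x.1| + |x.2.1| + |x.2.2|`, `cr` = cross product.

* `cr_tri`: `l1 x * l1 (cr y z) ≤ 12 * (l1 (cr x y) * l1 z + l1 (cr x z) * l1 y)`.
  Proof: write `w = cr y z`, `(x, w)` for the inner product.  Then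
  `(x, w) = (cr x y, z)`, so `|(x, w)| ≤ l1 (cr x y) * l1 z`; and
  `cr x w = cr z (cr y x) - cr y (cr z x)` (ring identity; check the signs:
  `cr x (cr y z) = y (x,z) - z (x,y)`, `cr z (cr y x) = y (z,x) - x (z,y)`,
  `cr y (cr z x) = z (y,x) - x (y,z)`), so `l1 (cr x w) ≤ 2 (l1 z * l1 (cr y x) + l1 y * l1 (cr z x))`.
  Lagrange: `|x|² |w|² = (x,w)² + |cr x w|²` (Euclidean norms), so `|x| |w| ≤ |(x,w)| + |cr x w|`,
  and `l1 ≤ √3 |.| ≤ √3 l1`.  So `l1 x * l1 w ≤ 3 |x| |w| ≤ 3 (|(x,w)| + l1 (cr x w))`, which is at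
  most `3 * (1 + 2) = 9` times the bracket.
  (To avoid square roots: `(l1 x * l1 w)^2 ≤ 9 |x|²|w|² = 9 ((x,w)² + |cr x w|²) ≤ 9 (K² + 4 K²)`
  with `K` = the bracket, `45 ≤ 144`, and `abs_le_of_sq_le_sq`.)
* `cr_uv`: `y = (a, b, c)`, `u = (a + c, b - 2a - c, c)`, `s = (a - b, b, c + 2a - b)`:
  `cr y u = (c (2a + c), c², -2a² - a c - b c)`, `cr y s = (b (2a - b), -b c - 2 a² + a b, b²)`, and
  `(l1 y)^2 ≤ 64 * max (l1 (cr y u)) (l1 (cr y s))`.
  Proof: let `N = l1 y`, `m` = the maximum.  `c² ≤ m`, `b² ≤ m`.  If `N² ≤ 64 b²` or `N² ≤ 64 c²`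
  done.  Otherwise `|b| ≤ N/8`, `|c| ≤ N/8`, so `|a| ≥ 3N/4` and
  `m ≥ |2a² + a c + b c| ≥ 2a² - |a||c| - |b||c| ≥ 9/8 N² - N²/8 - N²/64`.
-/

set_option autoImplicit false

namespace Pool.Agent.SZ

/-- Sum of absolute values. -/
def l1 (x : ℝ × ℝ × ℝ) : ℝ := |x.1| + |x.2.1| + |x.2.2|

/-- Cross product. -/
def cr (x y : ℝ × ℝ × ℝ) : ℝ × ℝ × ℝ :=
  (x.2.1 * y.2.2 - x.2.2 * y.2.1, x.2.2 * y.1 - x.1 * y.2.2, x.1 * y.2.1 - x.2.1 * y.1)

private lemma aux1 (a b c d A B C D : ℝ) (ha : |a| ≤ A) (hb : |b| ≤ B) (hc : |c| ≤ C)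
    (hd : |d| ≤ D) : |a * b - c * d| ≤ C * D + B * A := by
  have h1 : |a * b| ≤ B * A := by
    rw [abs_mul, mul_comm]
    exact mul_le_mul hb ha (abs_nonneg _) ((abs_nonneg _).trans hb)
  have h2 : |c * d| ≤ C * D := by
    rw [abs_mul]
    exact mul_le_mul hc hd (abs_nonneg _) ((abs_nonneg _).trans hc)
  calc |a * b - c * d| ≤ |a * b| + |c * d| := abs_sub _ _
    _ ≤ C * D + B * A := by linarith

private lemma aux2 (a b c d e f A B C D : ℝ) (ha : |a| ≤ A) (hb : |b| ≤ B)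
    (hc : |c| + |e| ≤ C) (hd : |d| ≤ D) (hf : |f| ≤ D) :
    |a * b + (c * d + e * f)| ≤ C * D + B * A := by
  have h1 : |a * b| ≤ B * A := by
    rw [abs_mul, mul_comm]
    exact mul_le_mul hb ha (abs_nonneg _) ((abs_nonneg _).trans hb)
  have h2 : |c * d| ≤ |c| * D := by
    rw [abs_mul]
    exact mul_le_mul_of_nonneg_left hd (abs_nonneg _)
  have h3 : |e * f| ≤ |e| * D := by
    rw [abs_mul]
    exact mul_le_mul_of_nonneg_left hf (abs_nonneg _)
  have h4 : (|c| + |e|) * D ≤ C * D :=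
    mul_le_mul_of_nonneg_right hc ((abs_nonneg _).trans hd)
  calc |a * b + (c * d + e * f)| ≤ |a * b| + |c * d + e * f| := abs_add_le _ _
    _ ≤ |a * b| + (|c * d| + |e * f|) := by gcongr; exact abs_add_le _ _
    _ ≤ C * D + B * A := by nlinarith

theorem cr_tri (x y z : ℝ × ℝ × ℝ) :
    l1 x * l1 (cr y z) ≤ 12 * (l1 (cr x y) * l1 z + l1 (cr x z) * l1 y) := by
  obtain ⟨x1, x2, x3⟩ := x
  obtain ⟨y1, y2, y3⟩ := y
  obtain ⟨z1, z2, z3⟩ := z
  simp only [l1, cr]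
  set p1 := x2 * y3 - x3 * y2 with hp1
  set p2 := x3 * y1 - x1 * y3 with hp2
  set p3 := x1 * y2 - x2 * y1 with hp3
  set q1 := x2 * z3 - x3 * z2 with hq1
  set q2 := x3 * z1 - x1 * z3 with hq2
  set q3 := x1 * z2 - x2 * z1 with hq3
  set w1 := y2 * z3 - y3 * z2 with hw1
  set w2 := y3 * z1 - y1 * z3 with hw2
  set w3 := y1 * z2 - y2 * z1 with hw3
  have nx1 := abs_nonneg x1
  have nx2 := abs_nonneg x2
  have nx3 := abs_nonneg x3
  have ny1 := abs_nonneg y1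
  have ny2 := abs_nonneg y2
  have ny3 := abs_nonneg y3
  have nz1 := abs_nonneg z1
  have nz2 := abs_nonneg z2
  have nz3 := abs_nonneg z3
  have np1 := abs_nonneg p1
  have np2 := abs_nonneg p2
  have np3 := abs_nonneg p3
  have nq1 := abs_nonneg q1
  have nq2 := abs_nonneg q2
  have nq3 := abs_nonneg q3
  have k11 : |x1| * |w1| ≤ (|p1| + |p2| + |p3|) * (|z1| + |z2| + |z3|) +
      (|q1| + |q2| + |q3|) * (|y1| + |y2| + |y3|) := by
    rw [← abs_mul, show x1 * w1 = y1 * q1 + (p2 * z2 + p3 * z3) by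
      rw [hp2, hp3, hq1, hw1]; ring]
    exact aux2 _ _ _ _ _ _ _ _ _ _ (by linarith) (by linarith) (by linarith) (by linarith)
      (by linarith)
  have k22 : |x2| * |w2| ≤ (|p1| + |p2| + |p3|) * (|z1| + |z2| + |z3|) +
      (|q1| + |q2| + |q3|) * (|y1| + |y2| + |y3|) := by
    rw [← abs_mul, show x2 * w2 = y2 * q2 + (p1 * z1 + p3 * z3) by
      rw [hp1, hp3, hq2, hw2]; ring]
    exact aux2 _ _ _ _ _ _ _ _ _ _ (by linarith) (by linarith) (by linarith) (by linarith)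
      (by linarith)
  have k33 : |x3| * |w3| ≤ (|p1| + |p2| + |p3|) * (|z1| + |z2| + |z3|) +
      (|q1| + |q2| + |q3|) * (|y1| + |y2| + |y3|) := by
    rw [← abs_mul, show x3 * w3 = y3 * q3 + (p1 * z1 + p2 * z2) by
      rw [hp1, hp2, hq3, hw3]; ring]
    exact aux2 _ _ _ _ _ _ _ _ _ _ (by linarith) (by linarith) (by linarith) (by linarith)
      (by linarith)
  have k12 : |x1| * |w2| ≤ (|p1| + |p2| + |p3|) * (|z1| + |z2| + |z3|) +
      (|q1| + |q2| + |q3|) * (|y1| + |y2| + |y3|) := by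
    rw [← abs_mul, show x1 * w2 = y1 * q2 - p2 * z1 by rw [hp2, hq2, hw2]; ring]
    exact aux1 _ _ _ _ _ _ _ _ (by linarith) (by linarith) (by linarith) (by linarith)
  have k13 : |x1| * |w3| ≤ (|p1| + |p2| + |p3|) * (|z1| + |z2| + |z3|) +
      (|q1| + |q2| + |q3|) * (|y1| + |y2| + |y3|) := by
    rw [← abs_mul, show x1 * w3 = y1 * q3 - p3 * z1 by rw [hp3, hq3, hw3]; ring]
    exact aux1 _ _ _ _ _ _ _ _ (by linarith) (by linarith) (by linarith) (by linarith)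
  have k21 : |x2| * |w1| ≤ (|p1| + |p2| + |p3|) * (|z1| + |z2| + |z3|) +
      (|q1| + |q2| + |q3|) * (|y1| + |y2| + |y3|) := by
    rw [← abs_mul, show x2 * w1 = y2 * q1 - p1 * z2 by rw [hp1, hq1, hw1]; ring]
    exact aux1 _ _ _ _ _ _ _ _ (by linarith) (by linarith) (by linarith) (by linarith)
  have k23 : |x2| * |w3| ≤ (|p1| + |p2| + |p3|) * (|z1| + |z2| + |z3|) +
      (|q1| + |q2| + |q3|) * (|y1| + |y2| + |y3|) := by
    rw [← abs_mul, show x2 * w3 = y2 * q3 - p3 * z2 by rw [hp3, hq3, hw3]; ring]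
    exact aux1 _ _ _ _ _ _ _ _ (by linarith) (by linarith) (by linarith) (by linarith)
  have k31 : |x3| * |w1| ≤ (|p1| + |p2| + |p3|) * (|z1| + |z2| + |z3|) +
      (|q1| + |q2| + |q3|) * (|y1| + |y2| + |y3|) := by
    rw [← abs_mul, show x3 * w1 = y3 * q1 - p1 * z3 by rw [hp1, hq1, hw1]; ring]
    exact aux1 _ _ _ _ _ _ _ _ (by linarith) (by linarith) (by linarith) (by linarith)
  have k32 : |x3| * |w2| ≤ (|p1| + |p2| + |p3|) * (|z1| + |z2| + |z3|) +
      (|q1| + |q2| + |q3|) * (|y1| + |y2| + |y3|) := by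
    rw [← abs_mul, show x3 * w2 = y3 * q2 - p2 * z3 by rw [hp2, hq2, hw2]; ring]
    exact aux1 _ _ _ _ _ _ _ _ (by linarith) (by linarith) (by linarith) (by linarith)
  have hK : 0 ≤ (|p1| + |p2| + |p3|) * (|z1| + |z2| + |z3|) +
      (|q1| + |q2| + |q3|) * (|y1| + |y2| + |y3|) := by positivity
  calc (|x1| + |x2| + |x3|) * (|w1| + |w2| + |w3|)
      = |x1| * |w1| + |x1| * |w2| + |x1| * |w3| + (|x2| * |w1| + |x2| * |w2| + |x2| * |w3|)
        + (|x3| * |w1| + |x3| * |w2| + |x3| * |w3|) := by ring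
    _ ≤ 9 * ((|p1| + |p2| + |p3|) * (|z1| + |z2| + |z3|) +
      (|q1| + |q2| + |q3|) * (|y1| + |y2| + |y3|)) := by linarith
    _ ≤ 12 * ((|p1| + |p2| + |p3|) * (|z1| + |z2| + |z3|) +
      (|q1| + |q2| + |q3|) * (|y1| + |y2| + |y3|)) := by linarith

theorem cr_uv (a b c : ℝ) :
    (l1 (a, b, c)) ^ 2 ≤ 64 * max (l1 (cr (a, b, c) (a + c, b - 2 * a - c, c)))
      (l1 (cr (a, b, c) (a - b, b, c + 2 * a - b))) := by
  simp only [l1, cr]
  set M := max (|b * c - c * (b - 2 * a - c)| + |c * (a + c) - a * c| +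
      |a * (b - 2 * a - c) - b * (a + c)|)
    (|b * (c + 2 * a - b) - c * b| + |c * (a - b) - a * (c + 2 * a - b)| +
      |a * b - b * (a - b)|) with hM
  have h1 : |b * c - c * (b - 2 * a - c)| + |c * (a + c) - a * c| +
      |a * (b - 2 * a - c) - b * (a + c)| ≤ M := le_max_left _ _
  have h2 : |b * (c + 2 * a - b) - c * b| + |c * (a - b) - a * (c + 2 * a - b)| +
      |a * b - b * (a - b)| ≤ M := le_max_right _ _
  have n1 := abs_nonneg (b * c - c * (b - 2 * a - c))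
  have n2 := abs_nonneg (c * (a + c) - a * c)
  have n3 := abs_nonneg (a * (b - 2 * a - c) - b * (a + c))
  have n4 := abs_nonneg (b * (c + 2 * a - b) - c * b)
  have n5 := abs_nonneg (c * (a - b) - a * (c + 2 * a - b))
  have hc : |c| ^ 2 ≤ M := by
    have := le_abs_self (c * (a + c) - a * c)
    rw [sq_abs]; nlinarith
  have hb : |b| ^ 2 ≤ M := by
    have := le_abs_self (a * b - b * (a - b))
    rw [sq_abs]; nlinarith
  have ha : 2 * |a| ^ 2 - |a| * |c| - |b| * |c| ≤ M := by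
    have h3 := neg_le_abs (a * (b - 2 * a - c) - b * (a + c))
    have h4 : -(|a| * |c|) ≤ a * c := by rw [← abs_mul]; exact neg_abs_le _
    have h5 : -(|b| * |c|) ≤ b * c := by rw [← abs_mul]; exact neg_abs_le _
    rw [sq_abs]; nlinarith
  have nA := abs_nonneg a
  have nB := abs_nonneg b
  have nC := abs_nonneg c
  nlinarith [sq_nonneg (|a| - 2 * |c|), sq_nonneg (|a| - |b|), sq_nonneg (|b| - |c|),
    sq_nonneg |a|, sq_nonneg |b|, sq_nonneg |c|]

/-- One of the three vectors `y`, `uy`, `sy` is not nearly parallel to `x`. -/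
theorem cr_pick (x : ℝ × ℝ × ℝ) (a b c : ℝ) :
    l1 x * l1 (a, b, c) ≤ 8000 * max (l1 (cr x (a, b, c)))
      (max (l1 (cr x (a + c, b - 2 * a - c, c))) (l1 (cr x (a - b, b, c + 2 * a - b)))) := by
  set m := max (l1 (cr x (a, b, c)))
      (max (l1 (cr x (a + c, b - 2 * a - c, c))) (l1 (cr x (a - b, b, c + 2 * a - b)))) with hm
  have m1 : l1 (cr x (a, b, c)) ≤ m := le_max_left _ _
  have m2 : l1 (cr x (a + c, b - 2 * a - c, c)) ≤ m := (le_max_left _ _).trans (le_max_right _ _)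
  have m3 : l1 (cr x (a - b, b, c + 2 * a - b)) ≤ m := (le_max_right _ _).trans (le_max_right _ _)
  have hn : ∀ w : ℝ × ℝ × ℝ, 0 ≤ l1 w := fun w => by unfold l1; positivity
  have m0 : 0 ≤ m := (hn _).trans m1
  set N := l1 (a, b, c) with hN
  have N0 : 0 ≤ N := hn _
  have hu : l1 (a + c, b - 2 * a - c, c) ≤ 4 * N := by
    simp only [hN, l1]
    have e1 : |a + c| ≤ |a| + |c| := abs_add_le _ _
    have e2 : |b - 2 * a - c| ≤ |b| + 2 * |a| + |c| := by
      calc |b - 2 * a - c| ≤ |b - 2 * a| + |c| := abs_sub _ _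
        _ ≤ |b| + |2 * a| + |c| := by gcongr; exact abs_sub _ _
        _ = |b| + 2 * |a| + |c| := by rw [abs_mul, abs_two]
    linarith [abs_nonneg a, abs_nonneg b, abs_nonneg c]
  have hs : l1 (a - b, b, c + 2 * a - b) ≤ 4 * N := by
    simp only [hN, l1]
    have e1 : |a - b| ≤ |a| + |b| := abs_sub _ _
    have e2 : |c + 2 * a - b| ≤ |c| + 2 * |a| + |b| := by
      calc |c + 2 * a - b| ≤ |c + 2 * a| + |b| := abs_sub _ _
        _ ≤ |c| + |2 * a| + |b| := by gcongr; exact abs_add_le _ _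
        _ = |c| + 2 * |a| + |b| := by rw [abs_mul, abs_two]
    linarith [abs_nonneg a, abs_nonneg b, abs_nonneg c]
  have t1 : l1 x * l1 (cr (a, b, c) (a + c, b - 2 * a - c, c)) ≤ 60 * (m * N) := by
    refine (cr_tri x (a, b, c) (a + c, b - 2 * a - c, c)).trans ?_
    have e1 := mul_le_mul m1 hu (hn _) m0
    have e2 := mul_le_mul m2 (le_refl N) N0 m0
    linarith
  have t2 : l1 x * l1 (cr (a, b, c) (a - b, b, c + 2 * a - b)) ≤ 60 * (m * N) := by
    refine (cr_tri x (a, b, c) (a - b, b, c + 2 * a - b)).trans ?_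
    have e1 := mul_le_mul m1 hs (hn _) m0
    have e2 := mul_le_mul m3 (le_refl N) N0 m0
    linarith
  have t3 : l1 x * max (l1 (cr (a, b, c) (a + c, b - 2 * a - c, c)))
      (l1 (cr (a, b, c) (a - b, b, c + 2 * a - b))) ≤ 60 * (m * N) := by
    rcases max_cases (l1 (cr (a, b, c) (a + c, b - 2 * a - c, c)))
      (l1 (cr (a, b, c) (a - b, b, c + 2 * a - b))) with h | h
    · rw [h.1]; exact t1
    · rw [h.1]; exact t2
  have t4 : l1 x * N ^ 2 ≤ 3840 * (m * N) := by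
    have := mul_le_mul_of_nonneg_left (cr_uv a b c) (hn x)
    calc l1 x * N ^ 2 ≤ l1 x * (64 * max (l1 (cr (a, b, c) (a + c, b - 2 * a - c, c)))
      (l1 (cr (a, b, c) (a - b, b, c + 2 * a - b)))) := this
      _ = 64 * (l1 x * max (l1 (cr (a, b, c) (a + c, b - 2 * a - c, c)))
      (l1 (cr (a, b, c) (a - b, b, c + 2 * a - b)))) := by ring
      _ ≤ 64 * (60 * (m * N)) := by gcongr
      _ = 3840 * (m * N) := by ring
  rcases N0.eq_or_lt with h0 | h0
  · rw [← h0, mul_zero]; positivity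
  · have : (l1 x * N) * N ≤ (3840 * m) * N := by nlinarith
    have h5 := le_of_mul_le_mul_right this h0
    linarith

end Pool.Agent.SZ
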