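import Pool.Agent.SZ.L_DST
import Pool.Agent.SZ.L_CRS

/-!
# L_CMX: trace zero coordinates and commutators

`tz g = ((g00 - g11)/2, g01, g10)`, the trace zero part of `g` (or of `g - 1`).

* `tz_le`: `|(g00 - g11)/2| ≤ (|g00 - 1| + |g11 - 1|)/2`.
* `le_tz`: `d1 g ≤ 2 l1 (tz g) + |(g00 - 1) + (g11 - 1)| ≤ 2 l1 (tz g) + (d1 g)^2` (`trace_le`), and
  `(d1 g)^2 ≤ d1 g / 2`.
* `nM_comm`: the entries of `g h - h g` are `±(x2 z3 - x3 z2)` (twice), `2 (x1 z2 - x2 z1)`,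
  `2 (x3 z1 - x1 z3)` for `x = tz g`, `z = tz h` (`Matrix.mul_apply`, `Fin.sum_univ_two`, ring).
* `tz_uu`, `tz_vv`: direct computation (`SL_mul_apply`, `uu_neg`: `(uu 1)⁻¹ = uu (-1)`).
* `tz_pert`: `v h v⁻¹ - w h w⁻¹ = (v - w)(h - 1) v⁻¹ + w (h - 1)(v⁻¹ - w⁻¹)` (the `1` cancels), and
  `nM (v⁻¹ - w⁻¹) = nM (v - w)`; each coordinate of `tz` of a difference is bounded by `nM` of the
  difference: `l1 (tz a - tz b) ≤ nM (a - b)`.  The difference is written with components.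
* `cm_up`, `cm_low`: with `h' = v h v⁻¹`: `cm v g h = g h' g⁻¹ h'⁻¹`,
  `cm v g h - 1 = (g h' - h' g) g⁻¹ h'⁻¹` and `g h' - h' g = (cm v g h - 1) h' g`; `nM_mul_le`,
  `nS_inv`.
* `cr_sub_le`: `l1 (cr x y) ≤ l1 (cr x y') + l1 x * l1 (y - y')` (bilinear; each component).
-/

set_option autoImplicit false

namespace Pool.Agent.SZ

open Pool.Agent.IRS MeasureTheory Set Filter Topology

/-- The trace zero part. -/
noncomputable def tz (g : SL2R) : ℝ × ℝ × ℝ := ((g 0 0 - g 1 1) / 2, g 0 1, g 1 0)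

private lemma cmx_d1_eq (g : SL2R) :
    d1 g = |g 0 0 - 1| + |g 0 1| + |g 1 0| + |g 1 1 - 1| := by
  unfold d1 nM
  simp [Matrix.sub_apply, Matrix.one_apply]

theorem tz_le (g : SL2R) : l1 (tz g) ≤ d1 g := by
  rw [cmx_d1_eq]
  unfold l1 tz
  have h : |(g 0 0 - g 1 1) / 2| ≤ |g 0 0 - 1| + |g 1 1 - 1| := by
    have e : (g 0 0 - g 1 1) / 2 = (g 0 0 - 1) / 2 - (g 1 1 - 1) / 2 := by ring
    rw [e]
    have h1 := abs_sub ((g 0 0 - 1) / 2) ((g 1 1 - 1) / 2)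
    have h2 : |(g 0 0 - 1) / 2| = |g 0 0 - 1| / 2 := by rw [abs_div]; simp
    have h3 : |(g 1 1 - 1) / 2| = |g 1 1 - 1| / 2 := by rw [abs_div]; simp
    have h4 := abs_nonneg (g 0 0 - 1)
    have h5 := abs_nonneg (g 1 1 - 1)
    linarith
  simp only
  linarith

theorem le_tz {g : SL2R} (h : d1 g ≤ 1 / 2) : d1 g ≤ 4 * l1 (tz g) := by
  have ht := trace_le g
  have h0 := d1_nonneg g
  have hsq : d1 g ^ 2 ≤ d1 g / 2 := by nlinarith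
  have e := cmx_d1_eq g
  have e2 : l1 (tz g) = |g 0 0 - g 1 1| / 2 + |g 0 1| + |g 1 0| := by
    unfold l1 tz
    simp only
    rw [abs_div]
    simp
  have h1 : |g 0 0 - 1| + |g 1 1 - 1| ≤ |g 0 0 - g 1 1| + |(g 0 0 - 1) + (g 1 1 - 1)| := by
    rcases abs_cases (g 0 0 - 1) with ⟨a1, _⟩ | ⟨a1, _⟩ <;>
    rcases abs_cases (g 1 1 - 1) with ⟨a2, _⟩ | ⟨a2, _⟩ <;>
    rcases abs_cases (g 0 0 - g 1 1) with ⟨a3, _⟩ | ⟨a3, _⟩ <;>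
    rcases abs_cases ((g 0 0 - 1) + (g 1 1 - 1)) with ⟨a4, _⟩ | ⟨a4, _⟩ <;>
    rw [a1, a2, a3, a4] <;> linarith
  have h2 := abs_nonneg (g 0 1)
  have h3 := abs_nonneg (g 1 0)
  rw [e2]
  linarith

theorem nM_comm (g h : SL2R) :
    nM ((g : Matrix (Fin 2) (Fin 2) ℝ) * (h : Matrix (Fin 2) (Fin 2) ℝ)
      - (h : Matrix (Fin 2) (Fin 2) ℝ) * (g : Matrix (Fin 2) (Fin 2) ℝ))
      = 2 * l1 (cr (tz g) (tz h)) := by
  unfold nM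
  simp only [Matrix.sub_apply, Matrix.mul_apply, Fin.sum_univ_two]
  unfold l1 cr tz
  simp only
  have a00 : |g 0 0 * h 0 0 + g 0 1 * h 1 0 - (h 0 0 * g 0 0 + h 0 1 * g 1 0)|
      = |g 0 1 * h 1 0 - g 1 0 * h 0 1| := by congr 1; ring
  have a01 : |g 0 0 * h 0 1 + g 0 1 * h 1 1 - (h 0 0 * g 0 1 + h 0 1 * g 1 1)|
      = 2 * |(g 0 0 - g 1 1) / 2 * h 0 1 - g 0 1 * ((h 0 0 - h 1 1) / 2)| := by
    rw [← abs_two, ← abs_mul, abs_two]; congr 1; ring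
  have a10 : |g 1 0 * h 0 0 + g 1 1 * h 1 0 - (h 1 0 * g 0 0 + h 1 1 * g 1 0)|
      = 2 * |g 1 0 * ((h 0 0 - h 1 1) / 2) - (g 0 0 - g 1 1) / 2 * h 1 0| := by
    rw [← abs_two, ← abs_mul, abs_two]; congr 1; ring
  have a11 : |g 1 0 * h 0 1 + g 1 1 * h 1 1 - (h 1 0 * g 0 1 + h 1 1 * g 1 1)|
      = |g 0 1 * h 1 0 - g 1 0 * h 0 1| := by
    rw [← abs_neg]; congr 1; ring
  rw [a00, a01, a10, a11]
  ring

theorem tz_uu (h : SL2R) : tz (uu 1 * h * (uu 1)⁻¹) =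
    ((tz h).1 + (tz h).2.2, (tz h).2.1 - 2 * (tz h).1 - (tz h).2.2, (tz h).2.2) := by
  rw [← uu_neg]
  unfold tz
  simp only [SL_mul_apply, uu00, uu01, uu10, uu11]
  refine Prod.ext ?_ (Prod.ext ?_ ?_) <;> simp only <;> ring

theorem tz_vv (h : SL2R) : tz (vv 1 * h * (vv 1)⁻¹) =
    ((tz h).1 - (tz h).2.1, (tz h).2.1, (tz h).2.2 + 2 * (tz h).1 - (tz h).2.1) := by
  rw [← vv_neg]
  unfold tz
  simp only [SL_mul_apply, vv00, vv01, vv10, vv11]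
  refine Prod.ext ?_ (Prod.ext ?_ ?_) <;> simp only <;> ring

private lemma cmx_l1_sub_le (a b : SL2R) :
    l1 (tz a - tz b) ≤ nM ((a : Matrix (Fin 2) (Fin 2) ℝ) - (b : Matrix (Fin 2) (Fin 2) ℝ)) := by
  unfold l1 tz nM
  simp only [Prod.fst_sub, Prod.snd_sub, Matrix.sub_apply]
  have h : |(a 0 0 - a 1 1) / 2 - (b 0 0 - b 1 1) / 2| ≤ |a 0 0 - b 0 0| + |a 1 1 - b 1 1| := by
    have e : (a 0 0 - a 1 1) / 2 - (b 0 0 - b 1 1) / 2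
        = (a 0 0 - b 0 0) / 2 - (a 1 1 - b 1 1) / 2 := by ring
    rw [e]
    have h1 := abs_sub ((a 0 0 - b 0 0) / 2) ((a 1 1 - b 1 1) / 2)
    have h2 : |(a 0 0 - b 0 0) / 2| = |a 0 0 - b 0 0| / 2 := by rw [abs_div]; simp
    have h3 : |(a 1 1 - b 1 1) / 2| = |a 1 1 - b 1 1| / 2 := by rw [abs_div]; simp
    have h4 := abs_nonneg (a 0 0 - b 0 0)
    have h5 := abs_nonneg (a 1 1 - b 1 1)
    linarith
  linarith

private lemma cmx_nM_inv_sub (v w : SL2R) :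
    nM (((v⁻¹ : SL2R) : Matrix (Fin 2) (Fin 2) ℝ) - ((w⁻¹ : SL2R) : Matrix (Fin 2) (Fin 2) ℝ))
      = dm v w := by
  unfold dm nM
  rw [Matrix.SpecialLinearGroup.coe_inv, Matrix.SpecialLinearGroup.coe_inv,
    Matrix.adjugate_fin_two, Matrix.adjugate_fin_two]
  simp only [Matrix.sub_apply, Matrix.of_apply, Matrix.cons_val', Matrix.cons_val_zero,
    Matrix.cons_val_one, Matrix.cons_val_fin_one]
  have e1 : |-v 0 1 - -w 0 1| = |v 0 1 - w 0 1| := by rw [← abs_neg]; congr 1; ring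
  have e2 : |-v 1 0 - -w 1 0| = |v 1 0 - w 1 0| := by rw [← abs_neg]; congr 1; ring
  rw [e1, e2]
  ring

private lemma cmx_nM_add (X Y : Matrix (Fin 2) (Fin 2) ℝ) : nM (X + Y) ≤ nM X + nM Y := by
  have h := nM_sub_le (X + Y) X
  rwa [add_sub_cancel_left] at h

private lemma cmx_coe_mul_inv (v : SL2R) :
    (v : Matrix (Fin 2) (Fin 2) ℝ) * ((v⁻¹ : SL2R) : Matrix (Fin 2) (Fin 2) ℝ) = 1 := by
  rw [← Matrix.SpecialLinearGroup.coe_mul, mul_inv_cancel, Matrix.SpecialLinearGroup.coe_one]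

private lemma cmx_coe_inv_mul (v : SL2R) :
    ((v⁻¹ : SL2R) : Matrix (Fin 2) (Fin 2) ℝ) * (v : Matrix (Fin 2) (Fin 2) ℝ) = 1 := by
  rw [← Matrix.SpecialLinearGroup.coe_mul, inv_mul_cancel, Matrix.SpecialLinearGroup.coe_one]

theorem tz_pert (v w h : SL2R) :
    l1 (tz (v * h * v⁻¹) - tz (w * h * w⁻¹)) ≤ dm v w * (nS v + nS w) * d1 h := by
  refine (cmx_l1_sub_le _ _).trans ?_
  have e : (((v * h * v⁻¹ : SL2R) : Matrix (Fin 2) (Fin 2) ℝ)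
      - ((w * h * w⁻¹ : SL2R) : Matrix (Fin 2) (Fin 2) ℝ))
      = ((v : Matrix (Fin 2) (Fin 2) ℝ) - (w : Matrix (Fin 2) (Fin 2) ℝ))
          * ((h : Matrix (Fin 2) (Fin 2) ℝ) - 1) * ((v⁻¹ : SL2R) : Matrix (Fin 2) (Fin 2) ℝ)
        + (w : Matrix (Fin 2) (Fin 2) ℝ) * ((h : Matrix (Fin 2) (Fin 2) ℝ) - 1)
          * (((v⁻¹ : SL2R) : Matrix (Fin 2) (Fin 2) ℝ)
            - ((w⁻¹ : SL2R) : Matrix (Fin 2) (Fin 2) ℝ)) := by
    simp only [Matrix.SpecialLinearGroup.coe_mul]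
    have hv := cmx_coe_mul_inv v
    have hw := cmx_coe_mul_inv w
    have h1 : ((v : Matrix (Fin 2) (Fin 2) ℝ) - (w : Matrix (Fin 2) (Fin 2) ℝ))
          * ((h : Matrix (Fin 2) (Fin 2) ℝ) - 1) * ((v⁻¹ : SL2R) : Matrix (Fin 2) (Fin 2) ℝ)
        + (w : Matrix (Fin 2) (Fin 2) ℝ) * ((h : Matrix (Fin 2) (Fin 2) ℝ) - 1)
          * (((v⁻¹ : SL2R) : Matrix (Fin 2) (Fin 2) ℝ)
            - ((w⁻¹ : SL2R) : Matrix (Fin 2) (Fin 2) ℝ))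
        = (v : Matrix (Fin 2) (Fin 2) ℝ) * (h : Matrix (Fin 2) (Fin 2) ℝ)
            * ((v⁻¹ : SL2R) : Matrix (Fin 2) (Fin 2) ℝ)
          - (v : Matrix (Fin 2) (Fin 2) ℝ) * ((v⁻¹ : SL2R) : Matrix (Fin 2) (Fin 2) ℝ)
          - (w : Matrix (Fin 2) (Fin 2) ℝ) * (h : Matrix (Fin 2) (Fin 2) ℝ)
            * ((w⁻¹ : SL2R) : Matrix (Fin 2) (Fin 2) ℝ)
          + (w : Matrix (Fin 2) (Fin 2) ℝ) * ((w⁻¹ : SL2R) : Matrix (Fin 2) (Fin 2) ℝ) := by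
      noncomm_ring
    rw [h1, hv, hw]
    abel
  rw [e]
  refine (cmx_nM_add _ _).trans ?_
  have b1 := nM_mul_le (((v : Matrix (Fin 2) (Fin 2) ℝ) - (w : Matrix (Fin 2) (Fin 2) ℝ))
          * ((h : Matrix (Fin 2) (Fin 2) ℝ) - 1)) ((v⁻¹ : SL2R) : Matrix (Fin 2) (Fin 2) ℝ)
  have b2 := nM_mul_le ((v : Matrix (Fin 2) (Fin 2) ℝ) - (w : Matrix (Fin 2) (Fin 2) ℝ))
          ((h : Matrix (Fin 2) (Fin 2) ℝ) - 1)
  have b3 := nM_mul_le ((w : Matrix (Fin 2) (Fin 2) ℝ) * ((h : Matrix (Fin 2) (Fin 2) ℝ) - 1))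
          (((v⁻¹ : SL2R) : Matrix (Fin 2) (Fin 2) ℝ)
            - ((w⁻¹ : SL2R) : Matrix (Fin 2) (Fin 2) ℝ))
  have b4 := nM_mul_le (w : Matrix (Fin 2) (Fin 2) ℝ) ((h : Matrix (Fin 2) (Fin 2) ℝ) - 1)
  rw [cmx_nM_inv_sub] at b3
  have hv' : nM ((v⁻¹ : SL2R) : Matrix (Fin 2) (Fin 2) ℝ) = nS v := nS_inv v
  rw [hv'] at b1
  have d0 : 0 ≤ dm v w := nM_nonneg _
  have dh : 0 ≤ d1 h := nM_nonneg _
  have nv := (nS_pos v).le
  have nw := (nS_pos w).le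
  change _ ≤ dm v w * d1 h at b2
  change _ ≤ nS w * d1 h at b4
  have c1 := b1.trans (mul_le_mul_of_nonneg_right b2 nv)
  have c3 := b3.trans (mul_le_mul_of_nonneg_right b4 d0)
  calc _ ≤ dm v w * d1 h * nS v + nS w * d1 h * dm v w := add_le_add c1 c3
    _ = _ := by ring

private lemma cmx_cr_le (x u : ℝ × ℝ × ℝ) : l1 (cr x u) ≤ l1 x * l1 u := by
  obtain ⟨x1, x2, x3⟩ := x
  obtain ⟨u1, u2, u3⟩ := u
  unfold l1 cr
  simp only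
  have h1 := abs_sub (x2 * u3) (x3 * u2)
  have h2 := abs_sub (x3 * u1) (x1 * u3)
  have h3 := abs_sub (x1 * u2) (x2 * u1)
  simp only [abs_mul] at h1 h2 h3
  have p1 := mul_nonneg (abs_nonneg x1) (abs_nonneg u1)
  have p2 := mul_nonneg (abs_nonneg x2) (abs_nonneg u2)
  have p3 := mul_nonneg (abs_nonneg x3) (abs_nonneg u3)
  nlinarith

theorem cr_sub_le (x y z : ℝ × ℝ × ℝ) : l1 (cr x y) ≤ l1 (cr x z) + l1 x * l1 (y - z) := by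
  have h := cmx_cr_le x (y - z)
  have h2 : l1 (cr x y) ≤ l1 (cr x z) + l1 (cr x (y - z)) := by
    obtain ⟨x1, x2, x3⟩ := x
    obtain ⟨y1, y2, y3⟩ := y
    obtain ⟨z1, z2, z3⟩ := z
    unfold l1 cr
    simp only [Prod.fst_sub, Prod.snd_sub]
    have e1 : x2 * y3 - x3 * y2
        = (x2 * z3 - x3 * z2) + (x2 * (y3 - z3) - x3 * (y2 - z2)) := by ring
    have e2 : x3 * y1 - x1 * y3
        = (x3 * z1 - x1 * z3) + (x3 * (y1 - z1) - x1 * (y3 - z3)) := by ring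
    have e3 : x1 * y2 - x2 * y1
        = (x1 * z2 - x2 * z1) + (x1 * (y2 - z2) - x2 * (y1 - z1)) := by ring
    have h1 := abs_add_le (x2 * z3 - x3 * z2) (x2 * (y3 - z3) - x3 * (y2 - z2))
    have h2 := abs_add_le (x3 * z1 - x1 * z3) (x3 * (y1 - z1) - x1 * (y3 - z3))
    have h3 := abs_add_le (x1 * z2 - x2 * z1) (x1 * (y2 - z2) - x2 * (y1 - z1))
    rw [← e1] at h1
    rw [← e2] at h2
    rw [← e3] at h3
    linarith
  linarith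

private lemma cmx_up (g k : SL2R) : d1 (g * k * g⁻¹ * k⁻¹) ≤
    2 * l1 (cr (tz g) (tz k)) * (nS g * nS k) := by
  rw [← nM_comm]
  unfold d1
  have hg := cmx_coe_mul_inv g
  have hk := cmx_coe_mul_inv k
  have e : ((g * k * g⁻¹ * k⁻¹ : SL2R) : Matrix (Fin 2) (Fin 2) ℝ) - 1
      = ((g : Matrix (Fin 2) (Fin 2) ℝ) * (k : Matrix (Fin 2) (Fin 2) ℝ)
      - (k : Matrix (Fin 2) (Fin 2) ℝ) * (g : Matrix (Fin 2) (Fin 2) ℝ))
        * (((g⁻¹ : SL2R) : Matrix (Fin 2) (Fin 2) ℝ)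
          * ((k⁻¹ : SL2R) : Matrix (Fin 2) (Fin 2) ℝ)) := by
    rw [Matrix.sub_mul]
    have h2 : (k : Matrix (Fin 2) (Fin 2) ℝ) * (g : Matrix (Fin 2) (Fin 2) ℝ)
        * (((g⁻¹ : SL2R) : Matrix (Fin 2) (Fin 2) ℝ)
          * ((k⁻¹ : SL2R) : Matrix (Fin 2) (Fin 2) ℝ)) = 1 := by
      rw [Matrix.mul_assoc, ← Matrix.mul_assoc (g : Matrix (Fin 2) (Fin 2) ℝ), hg, Matrix.one_mul,
        hk]
    rw [h2]
    simp only [Matrix.SpecialLinearGroup.coe_mul, Matrix.mul_assoc]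
  rw [e]
  refine (nM_mul_le _ _).trans ?_
  refine mul_le_mul_of_nonneg_left ?_ (nM_nonneg _)
  refine (nM_mul_le _ _).trans ?_
  have h1 : nM ((g⁻¹ : SL2R) : Matrix (Fin 2) (Fin 2) ℝ) = nS g := nS_inv g
  have h2 : nM ((k⁻¹ : SL2R) : Matrix (Fin 2) (Fin 2) ℝ) = nS k := nS_inv k
  rw [h1, h2]

private lemma cmx_low (g k : SL2R) : 2 * l1 (cr (tz g) (tz k)) ≤
    d1 (g * k * g⁻¹ * k⁻¹) * (nS g * nS k) := by
  rw [← nM_comm]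
  unfold d1
  have hg := cmx_coe_inv_mul g
  have hk := cmx_coe_inv_mul k
  have e : ((g : Matrix (Fin 2) (Fin 2) ℝ) * (k : Matrix (Fin 2) (Fin 2) ℝ)
      - (k : Matrix (Fin 2) (Fin 2) ℝ) * (g : Matrix (Fin 2) (Fin 2) ℝ))
      = (((g * k * g⁻¹ * k⁻¹ : SL2R) : Matrix (Fin 2) (Fin 2) ℝ) - 1)
        * ((k : Matrix (Fin 2) (Fin 2) ℝ) * (g : Matrix (Fin 2) (Fin 2) ℝ)) := by
    rw [Matrix.sub_mul, Matrix.one_mul]
    have h2 : ((g * k * g⁻¹ * k⁻¹ : SL2R) : Matrix (Fin 2) (Fin 2) ℝ)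
        * ((k : Matrix (Fin 2) (Fin 2) ℝ) * (g : Matrix (Fin 2) (Fin 2) ℝ))
        = (g : Matrix (Fin 2) (Fin 2) ℝ) * (k : Matrix (Fin 2) (Fin 2) ℝ) := by
      rw [← Matrix.SpecialLinearGroup.coe_mul, ← Matrix.SpecialLinearGroup.coe_mul,
        ← Matrix.SpecialLinearGroup.coe_mul]
      congr 1
      group
    rw [h2]
  rw [e]
  refine (nM_mul_le _ _).trans ?_
  refine mul_le_mul_of_nonneg_left ?_ (nM_nonneg _)
  refine (nM_mul_le _ _).trans ?_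
  change nS k * nS g ≤ nS g * nS k
  rw [mul_comm]

theorem cm_up (v g h : SL2R) : d1 (cm v g h) ≤
    2 * l1 (cr (tz g) (tz (v * h * v⁻¹))) * (nS g * nS (v * h * v⁻¹)) :=
  cmx_up g (v * h * v⁻¹)

theorem cm_low (v g h : SL2R) : 2 * l1 (cr (tz g) (tz (v * h * v⁻¹))) ≤
    d1 (cm v g h) * (nS g * nS (v * h * v⁻¹)) :=
  cmx_low g (v * h * v⁻¹)

end Pool.Agent.SZ
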