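import Pool.Agent.SZ.L_PHI

/-!
# L_ENT: the entropy density

* `gl_nonneg`: `le_max_left`.
* `pd_gl_le`: `pd p x * gl p x ≤ ph x * (50 ε)`.  If `Ph p x = 0` then `pd = 0`.  If `ph x = 0` then `pd = 0`.
  Otherwise `0 ≤ gl = max 0 (log (ph/Ph)) ≤ max 0 (ph/Ph - 1)` (`Real.log_le_sub_one_of_pos`), so
  `Ph * gl ≤ max 0 (ph - Ph) ≤ 50 ε` (`Ph_close`).
* `gl_meas`, `gl_bdd`: `pd * gl` is measurable; `gl` itself: measurable (`Real.measurable_log`).  It
  is not bounded in general; but `pd * gl ≤ 100 ε`.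
* `Zm_ge`: `Zm p ≥ Iq - 50 ε Ip`, from `pd = ph * Ph ≥ ph * (ph - 50 ε)`.  `Zm_le`: `Zm p ≤ 2 Ip`.
  (Integrability: `ph_mul_int`.)
-/

set_option autoImplicit false

namespace Pool.Agent.SZ

open Pool.Agent.IRS MeasureTheory Set Filter Topology

theorem pd_nonneg (p : Fin 2 → SL2R) (x : SL2R) : 0 ≤ pd p x :=
  mul_nonneg (ph_nonneg x) (Ph_nonneg p x)

theorem gl_nonneg (p : Fin 2 → SL2R) (x : SL2R) : 0 ≤ gl p x := le_max_left _ _

theorem gl_meas (p : Fin 2 → SL2R) : Measurable (gl p) :=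
  measurable_const.max (Real.measurable_log.comp (measurable_ph.div (measurable_Ph p)))

theorem pd_gl_le {p : Fin 2 → SL2R} {ε : ℝ} (hε : ε ≤ 1) (h : ∀ i, d1 (p i) ≤ ε) (x : SL2R) :
    pd p x * gl p x ≤ ph x * (50 * ε) := by
  have h1 : Ph p x * gl p x ≤ 50 * ε := by
    have hε0 : 0 ≤ ε := (d1_nonneg _).trans (h 0)
    have hc := abs_le.1 (Ph_close hε h x)
    rcases (Ph_nonneg p x).eq_or_lt with h0 | h0
    · rw [← h0, zero_mul]; positivity
    · unfold gl
      rcases le_total (Real.log (ph x / Ph p x)) 0 with hl | hl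
      · rw [max_eq_left hl, mul_zero]; positivity
      · rw [max_eq_right hl]
        rcases (ph_nonneg x).eq_or_lt with h2 | h2
        · rw [← h2, zero_div, Real.log_zero, mul_zero]; positivity
        · have h3 := Real.log_le_sub_one_of_pos (div_pos h2 h0)
          have h4 := mul_le_mul_of_nonneg_left h3 h0.le
          have h5 : Ph p x * (ph x / Ph p x - 1) = ph x - Ph p x := by
            field_simp
          linarith
  unfold pd
  rw [mul_assoc]
  exact mul_le_mul_of_nonneg_left h1 (ph_nonneg x)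

lemma BM_Ph (p : Fin 2 → SL2R) : BM (Ph p) := ⟨measurable_Ph p, 2, fun b => by
  rw [abs_of_nonneg (Ph_nonneg p b)]; exact Ph_le p b⟩

lemma ph_int : Integrable ph mH := by
  have := ph_mul_int (F := fun _ => (1 : ℝ)) ⟨measurable_const, 1, fun _ => by simp⟩
  simpa using this

theorem pd_gl_int {p : Fin 2 → SL2R} {ε : ℝ} (hε : ε ≤ 1) (h : ∀ i, d1 (p i) ≤ ε) :
    ∫ x, pd p x * gl p x ∂mH ≤ 50 * ε * Ip := by
  have h1 : ∫ x, pd p x * gl p x ∂mH ≤ ∫ x, ph x * (50 * ε) ∂mH := by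
    refine integral_mono_of_nonneg ?_ (ph_int.mul_const _) ?_
    · exact Filter.Eventually.of_forall fun x => mul_nonneg (pd_nonneg p x) (gl_nonneg p x)
    · exact Filter.Eventually.of_forall fun x => pd_gl_le hε h x
  refine h1.trans (le_of_eq ?_)
  rw [integral_mul_const]
  unfold Ip
  ring

theorem Zm_ge {p : Fin 2 → SL2R} {ε : ℝ} (hε : ε ≤ 1) (h : ∀ i, d1 (p i) ≤ ε) :
    Iq - 50 * ε * Ip ≤ Zm p := by
  have h1 : ∫ x, (ph x * ph x - ph x * (50 * ε)) ∂mH ≤ ∫ x, pd p x ∂mH := by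
    refine integral_mono ((ph_mul_int BM_ph).sub (ph_int.mul_const _)) (ph_mul_int (BM_Ph p)) ?_
    intro x
    have hc := abs_le.1 (Ph_close hε h x)
    have h2 := ph_nonneg x
    change ph x * ph x - ph x * (50 * ε) ≤ ph x * Ph p x
    nlinarith
  rw [integral_sub (ph_mul_int BM_ph) (ph_int.mul_const _), integral_mul_const] at h1
  unfold Zm Iq Ip
  linarith

theorem Zm_le (p : Fin 2 → SL2R) : Zm p ≤ 2 * Ip := by
  have h1 : ∫ x, pd p x ∂mH ≤ ∫ x, ph x * 2 ∂mH := by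
    refine integral_mono (ph_mul_int (BM_Ph p)) (ph_int.mul_const _) ?_
    intro x
    exact mul_le_mul_of_nonneg_left (Ph_le p x) (ph_nonneg x)
  rw [integral_mul_const] at h1
  unfold Zm Ip
  linarith

end Pool.Agent.SZ
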