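import Pool.Agent.SZ.L_CHS
import Pool.Agent.SZ.L_ENT

/-!
# L_MSS: the masses

* `kap_int`: `pd p x * ww p x w` is integrable (`pd_int`, `ww ≤ 1`: `ww_sum_le` and `ww_nonneg`, or
  directly by induction; `meas_ww`).
* `kap_sum`: `∑_{w ∈ WS n} kap p w = ∫ pd p x * ∑_w ww p x w = ∫ pd p x` (`ww_sum_eq` where `pd ≠ 0`,
  both sides vanish where `pd = 0`).
-/

set_option autoImplicit false

namespace Pool.Agent.SZ

open Pool.Agent.IRS MeasureTheory Set Filter Topology

theorem ww_le_one (p : Fin 2 → SL2R) (x : SL2R) (w : List Lt) : ww p x w ≤ 1 := by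
  induction w generalizing x with
  | nil => exact le_of_eq rfl
  | cons l w ih =>
    change tr p x l * ww p (x * qv p l) w ≤ 1
    have h1 : tr p x l ≤ 1 :=
      (Finset.single_le_sum (f := fun l => tr p x l) (fun i _ => tr_nonneg p x i)
        (Finset.mem_univ l)).trans (tr_sum_le p x)
    exact mul_le_one₀ h1 (ww_nonneg p _ _) (ih _)

theorem BM.ww (p : Fin 2 → SL2R) (w : List Lt) : BM (fun x => Pool.Agent.SZ.ww p x w) :=
  ⟨meas_ww p w, 1, fun x => by rw [abs_of_nonneg (ww_nonneg p x w)]; exact ww_le_one p x w⟩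

theorem kap_int (p : Fin 2 → SL2R) (w : List Lt) : Integrable (fun x => pd p x * ww p x w) mH :=
  pd_int p (BM.ww p w)

theorem kap_sum (p : Fin 2 → SL2R) (n : ℕ) : ∑ w ∈ WS n, kap p w = Zm p := by
  unfold kap Zm
  rw [← integral_finsetSum _ (fun w _ => kap_int p w)]
  refine integral_congr_ae (Filter.Eventually.of_forall fun x => ?_)
  change ∑ w ∈ WS n, pd p x * ww p x w = pd p x
  rw [← Finset.mul_sum]
  by_cases h : pd p x = 0
  · rw [h, zero_mul]
  · rw [ww_sum_eq p h, mul_one]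

end Pool.Agent.SZ
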