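import Pool.Agent.SZ.L_CHA
import Pool.Agent.SZ.L_ENT

/-!
# L_WBD: the upper bound for the weight of a path

Claim for nonempty words: `Ph p x * ww p x w ≤ (1/4)^n * ph (x * wv p w) * exp (gs p x w)`,
`n = w.length`.  Multiply by `ph x ≥ 0` for the theorem.

Induction on the word.  `w = [l]`: `Ph p x * tr p x l = ph (x q_l) / 4` if `Ph p x ≠ 0`, and `0`
otherwise; `exp (gs) ≥ 1` (`gs_nonneg`-type: `gs = gl + 0 ≥ 0`).
`w = l :: w'` with `w' ≠ []`: if `Ph p x = 0` the left side is `0`.  Otherwise
`Ph p x * tr p x l = ph y / 4`, `y = x q_l`, so the left side is `(1/4) ph y ww p y w'`.  If `Ph p y = 0` then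
all `tr p y _ = 0` (division by zero) and `ww p y w' = 0` as `w' ≠ []`.  If `Ph p y ≠ 0`:
`ph y ww p y w' = (ph y / Ph p y) * (Ph p y ww p y w')`, and `ph y / Ph p y ≤ exp (gl p y)` (if
`ph y = 0` trivial, else `exp (log r) = r ≤ exp (max 0 (log r))`), and the induction hypothesis
`Ph p y ww p y w' ≤ (1/4)^(n-1) ph (y wv p w') exp (gs p y w')`.  Hmm: the exponent obtained is
`gl p y + gs p y w'`, and `gs p y w'` starts with `gl p y` again: so use the sharper claim with
`gs' p y w' = gs p y w' - gl p y` (the sum over the inner points only):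
  `Ph p x * ww p x w ≤ (1/4)^n * ph (x * wv p w) * exp (gs p x w - gl p x)` for `w ≠ []`.
Then `gl p y + (gs p y w' - gl p y) = gs p y w' = gs p x (l :: w') - gl p x`.  Finally `gl ≥ 0`.
-/

set_option autoImplicit false

namespace Pool.Agent.SZ

open Pool.Agent.IRS MeasureTheory Set Filter Topology

lemma LWBD_ph_le (p : Fin 2 → SL2R) (y : SL2R) (h : Ph p y ≠ 0) :
    ph y ≤ Real.exp (gl p y) * Ph p y := by
  have hP : 0 < Ph p y := lt_of_le_of_ne (Ph_nonneg p y) (Ne.symm h)
  by_cases h0 : ph y = 0
  · rw [h0]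
    exact mul_nonneg (Real.exp_pos _).le hP.le
  · have h1 : 0 < ph y := lt_of_le_of_ne (ph_nonneg y) (Ne.symm h0)
    have h2 : 0 < ph y / Ph p y := div_pos h1 hP
    have h3 : ph y / Ph p y ≤ Real.exp (gl p y) := by
      calc ph y / Ph p y = Real.exp (Real.log (ph y / Ph p y)) := (Real.exp_log h2).symm
        _ ≤ Real.exp (gl p y) := Real.exp_le_exp.2 (le_max_right _ _)
    calc ph y = ph y / Ph p y * Ph p y := by field_simp
      _ ≤ Real.exp (gl p y) * Ph p y := mul_le_mul_of_nonneg_right h3 hP.le

lemma LWBD_step (p : Fin 2 → SL2R) (x : SL2R) (l : Lt) :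
    Ph p x * tr p x l ≤ ph (x * qv p l) / 4 := by
  by_cases h : Ph p x = 0
  · rw [h, zero_mul]
    exact div_nonneg (ph_nonneg _) (by norm_num)
  · unfold tr
    apply le_of_eq
    field_simp

lemma LWBD_sharp (p : Fin 2 → SL2R) (w : List Lt) : ∀ x : SL2R, w ≠ [] →
    Ph p x * ww p x w
      ≤ (1 / 4) ^ w.length * ph (x * wv p w) * Real.exp (gs p x w - gl p x) := by
  induction w with
  | nil => intro x h; exact absurd rfl h
  | cons l w ih =>
    intro x _
    have hw0 : 0 ≤ ww p (x * qv p l) w := ww_nonneg p _ w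
    have h1 : Ph p x * ww p x (l :: w) ≤ ph (x * qv p l) / 4 * ww p (x * qv p l) w := by
      rw [LCHA_ww_cons, ← mul_assoc]
      exact mul_le_mul_of_nonneg_right (LWBD_step p x l) hw0
    refine h1.trans ?_
    by_cases hw : w = []
    · subst hw
      rw [LCHA_ww_nil, LCHA_wv_cons, LCHA_wv_nil]
      have e : gs p x [l] - gl p x = 0 := by
        simp [gs]
      rw [e, Real.exp_zero]
      simp only [List.length_cons, List.length_nil, mul_one]
      apply le_of_eq
      ring
    · have h2 := ih (x * qv p l) hw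
      have h3 : ph (x * qv p l) * ww p (x * qv p l) w
          ≤ Real.exp (gl p (x * qv p l)) * (Ph p (x * qv p l) * ww p (x * qv p l) w) := by
        by_cases h0 : Ph p (x * qv p l) = 0
        · have h4 : ww p (x * qv p l) w = 0 := by
            cases w with
            | nil => exact absurd rfl hw
            | cons l' w' =>
              rw [LCHA_ww_cons]
              unfold tr
              rw [h0]
              simp
          rw [h4]
          simp
        · calc ph (x * qv p l) * ww p (x * qv p l) w
              ≤ (Real.exp (gl p (x * qv p l)) * Ph p (x * qv p l)) * ww p (x * qv p l) w :=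
                mul_le_mul_of_nonneg_right (LWBD_ph_le p _ h0) hw0
            _ = _ := by ring
      have h5 := h3.trans (mul_le_mul_of_nonneg_left h2 (Real.exp_pos _).le)
      have e1 : gs p x (l :: w) - gl p x = gs p (x * qv p l) w := by
        simp [gs]
      have e2 : Real.exp (gs p (x * qv p l) w)
          = Real.exp (gl p (x * qv p l)) * Real.exp (gs p (x * qv p l) w - gl p (x * qv p l)) := by
        rw [← Real.exp_add]
        congr 1
        ring
      rw [e1, e2, LCHA_wv_cons, List.length_cons, ← mul_assoc x]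
      calc ph (x * qv p l) / 4 * ww p (x * qv p l) w
          = (1 / 4) * (ph (x * qv p l) * ww p (x * qv p l) w) := by ring
        _ ≤ (1 / 4) * (Real.exp (gl p (x * qv p l)) * ((1 / 4) ^ w.length
              * ph (x * qv p l * wv p w)
              * Real.exp (gs p (x * qv p l) w - gl p (x * qv p l)))) :=
            mul_le_mul_of_nonneg_left h5 (by norm_num)
        _ = _ := by ring

theorem w_bd (p : Fin 2 → SL2R) (x : SL2R) {w : List Lt} (hw : w ≠ []) :
    pd p x * ww p x w ≤ (1 / 4) ^ w.length * (ph x * ph (x * wv p w)) * Real.exp (gs p x w) := by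
  have h1 := LWBD_sharp p w x hw
  have h2 : Real.exp (gs p x w - gl p x) ≤ Real.exp (gs p x w) :=
    Real.exp_le_exp.2 (by linarith [gl_nonneg p x])
  have h3 : Ph p x * ww p x w ≤ (1 / 4) ^ w.length * ph (x * wv p w) * Real.exp (gs p x w) :=
    h1.trans (mul_le_mul_of_nonneg_left h2 (mul_nonneg (by positivity) (ph_nonneg _)))
  calc pd p x * ww p x w = ph x * (Ph p x * ww p x w) := by
        unfold pd
        ring
    _ ≤ ph x * ((1 / 4) ^ w.length * ph (x * wv p w) * Real.exp (gs p x w)) :=
        mul_le_mul_of_nonneg_left h3 (ph_nonneg x)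
    _ = _ := by ring

end Pool.Agent.SZ
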