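import Pool.Agent.SZ.L_PSM
import Pool.Agent.SZ.L_WBD
import Pool.Agent.SZ.L_MSS
import Pool.Agent.SZ.L_FGC

/-!
# L_CNT: many values

Let `ε = min (1/2) (Iq / (4200 * Ip))` (so `4050 ε Ip ≤ Iq`, `0 < ε`), `c = Iq / (16 * Ip)`.
`Zm ≥ Iq - 50 ε Ip ≥ Iq / 2` and `Zm ≥ 4000 ε Ip`.
For a word `w ∈ WS n`: `kap p w ≤ (1/4)^n exp(n/20) 2 Ip + (20/n) ∫ pd ww gs` (pointwise: if
`gs ≤ n/20` use `w_bd`, otherwise `1 ≤ (20/n) gs`).  By `psum`
`∑_{w ∈ WS n} (20/n) ∫ pd ww gs ≤ 1000 ε Ip ≤ Zm / 4`.  Hence for `𝒲 ⊆ WS n` with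
`∑_{𝒲} kap ≥ Zm/2`: `Zm/4 ≤ #𝒲 (1/4)^n exp(n/20) 2 Ip`.
Group the words of `𝒲` by their value `v = FreeGroup.mk w` in the free group:
`#𝒲 ≤ ∑_{v ∈ image} #{w ∈ WS n : mk w = v} ≤ #image * √(12^n)` (`fg_count`), and
`(√12 / 4) * exp (1/20) ≤ 1/1.09`.
-/

set_option autoImplicit false

namespace Pool.Agent.SZ

open Pool.Agent.IRS MeasureTheory Set Filter Topology

lemma LCNT_num : Real.sqrt 12 * (1 / 4) * Real.exp (1 / 20) * 1.09 ≤ 1 := by
  have h1 : Real.sqrt 12 ≤ 3.4642 := by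
    rw [Real.sqrt_le_left (by norm_num)]
    norm_num
  have h2 : Real.exp (1 / 20) ≤ 20 / 19 := by
    have h := Real.add_one_le_exp (-(1 / 20) : ℝ)
    rw [Real.exp_neg] at h
    have h3 : (0 : ℝ) < Real.exp (1 / 20) := Real.exp_pos _
    have h4 : (19 / 20 : ℝ) ≤ (Real.exp (1 / 20))⁻¹ := by linarith
    have h5 := mul_le_mul_of_nonneg_right h4 h3.le
    rw [inv_mul_cancel₀ h3.ne'] at h5
    linarith
  have h3 : 0 ≤ Real.sqrt 12 := Real.sqrt_nonneg _
  have h4 : 0 < Real.exp (1 / 20) := Real.exp_pos _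
  have h5 : Real.sqrt 12 * Real.exp (1 / 20) ≤ 3.4642 * (20 / 19) :=
    mul_le_mul h1 h2 h4.le (by norm_num)
  have h6 : Real.sqrt 12 * (1 / 4) * Real.exp (1 / 20) * 1.09
      = Real.sqrt 12 * Real.exp (1 / 20) * (1.09 / 4) := by ring
  rw [h6]
  have h7 := mul_le_mul_of_nonneg_right h5 (by norm_num : (0 : ℝ) ≤ 1.09 / 4)
  refine h7.trans ?_
  norm_num

lemma LCNT_kap {p : Fin 2 → SL2R} {ε : ℝ} (hε0 : 0 ≤ ε) (hε : ε ≤ 1) (h : ∀ i, d1 (p i) ≤ ε)
    {n : ℕ} (hn : 1 ≤ n) {w : List Lt} (hw : w ∈ WS n) :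
    kap p w ≤ (1 / 4) ^ n * Real.exp ((n : ℝ) / 20) * 2 * Ip
      + 20 / n * ∫ x, pd p x * ww p x w * gs p x w ∂mH := by
  have hn0 : (0 : ℝ) < n := by exact_mod_cast hn
  have hlen : w.length = n := mem_WS.1 hw
  have hne : w ≠ [] := by
    intro h0
    rw [h0] at hlen
    simp at hlen
    omega
  have hi1 : Integrable (fun x => ph x * (1 : ℝ)) mH := ph_mul_int (BM.const 1)
  have hi2 : Integrable (fun x => pd p x * ww p x w * gs p x w) mH := (psum hε0 hε h n).1 w hw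
  have hpt : ∀ x, pd p x * ww p x w ≤
      (1 / 4) ^ n * Real.exp ((n : ℝ) / 20) * 2 * (ph x * 1)
        + 20 / n * (pd p x * ww p x w * gs p x w) := by
    intro x
    have h0 : 0 ≤ pd p x * ww p x w := mul_nonneg (pd_nonneg p x) (ww_nonneg p x w)
    have hg : 0 ≤ gs p x w := gs_nonneg p x w
    have hph : 0 ≤ ph x := ph_nonneg x
    by_cases hc : gs p x w ≤ (n : ℝ) / 20
    · have h1 := w_bd p x hne
      rw [hlen] at h1
      have h2 : Real.exp (gs p x w) ≤ Real.exp ((n : ℝ) / 20) := Real.exp_le_exp.2 hc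
      have h3 : ph x * ph (x * wv p w) ≤ ph x * 2 :=
        mul_le_mul_of_nonneg_left (ph_le _) hph
      have h4 : (1 / 4 : ℝ) ^ n * (ph x * ph (x * wv p w)) * Real.exp (gs p x w)
          ≤ (1 / 4 : ℝ) ^ n * (ph x * 2) * Real.exp ((n : ℝ) / 20) := by
        refine mul_le_mul (mul_le_mul_of_nonneg_left h3 (by positivity)) h2
          (Real.exp_pos _).le (by positivity)
      have h5 : 0 ≤ 20 / (n : ℝ) * (pd p x * ww p x w * gs p x w) := by positivity
      calc pd p x * ww p x w ≤ _ := h1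
        _ ≤ _ := h4
        _ = (1 / 4) ^ n * Real.exp ((n : ℝ) / 20) * 2 * (ph x * 1) := by ring
        _ ≤ _ := by linarith
    · have hc' : (n : ℝ) / 20 < gs p x w := not_le.1 hc
      have h1 : 1 ≤ 20 / (n : ℝ) * gs p x w := by
        have h2 : 20 / (n : ℝ) * ((n : ℝ) / 20) = 1 := by field_simp
        rw [← h2]
        exact mul_le_mul_of_nonneg_left hc'.le (by positivity)
      have h3 : pd p x * ww p x w ≤ 20 / (n : ℝ) * (pd p x * ww p x w * gs p x w) := by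
        calc pd p x * ww p x w = pd p x * ww p x w * 1 := by ring
          _ ≤ pd p x * ww p x w * (20 / (n : ℝ) * gs p x w) := mul_le_mul_of_nonneg_left h1 h0
          _ = _ := by ring
      have h4 : 0 ≤ (1 / 4 : ℝ) ^ n * Real.exp ((n : ℝ) / 20) * 2 * (ph x * 1) := by
        have := Real.exp_pos ((n : ℝ) / 20)
        positivity
      linarith
  have h6 := integral_mono (kap_int p w)
    ((hi1.const_mul ((1 / 4) ^ n * Real.exp ((n : ℝ) / 20) * 2)).add
      (hi2.const_mul (20 / (n : ℝ)))) hpt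
  unfold kap
  refine h6.trans (le_of_eq ?_)
  have h7 : (∫ x, ((fun x => (1 / 4) ^ n * Real.exp ((n : ℝ) / 20) * 2 * (ph x * 1)) +
      fun x => 20 / (n : ℝ) * (pd p x * ww p x w * gs p x w)) x ∂mH)
      = (∫ x, (1 / 4) ^ n * Real.exp ((n : ℝ) / 20) * 2 * (ph x * 1) ∂mH)
        + ∫ x, 20 / (n : ℝ) * (pd p x * ww p x w * gs p x w) ∂mH :=
    integral_add (hi1.const_mul _) (hi2.const_mul _)
  refine h7.trans ?_
  rw [integral_const_mul, integral_const_mul]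
  have h8 : (∫ x, ph x * 1 ∂mH) = Ip := by
    unfold Ip
    simp
  rw [h8]

open Classical in
lemma LCNT_card {n : ℕ} {W : Finset (List Lt)} (hW : W ⊆ WS n) :
    (W.card : ℝ) ≤ ((W.image (fun w => FreeGroup.mk w)).card : ℝ) * Real.sqrt 12 ^ n := by
  have h1 := Finset.card_eq_sum_card_image (fun w : List Lt => (FreeGroup.mk w)) W
  rw [h1]
  push_cast
  have h2 : ∀ v ∈ W.image (fun w => FreeGroup.mk w),
      (((W.filter (fun w => FreeGroup.mk w = v)).card : ℕ) : ℝ) ≤ Real.sqrt 12 ^ n := by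
    intro v _
    have h3 : (W.filter (fun w => FreeGroup.mk w = v)).card
        ≤ ((WS n).filter (fun w => FreeGroup.mk w = v)).card :=
      Finset.card_le_card (Finset.filter_subset_filter _ hW)
    have h4 := fg_count n v
    have h5 : ((((WS n).filter (fun w => FreeGroup.mk w = v)).card : ℕ) : ℝ) ^ 2
        ≤ (Real.sqrt 12 ^ n) ^ 2 := by
      rw [← pow_mul, mul_comm n 2, pow_mul, Real.sq_sqrt (by norm_num)]
      exact_mod_cast h4
    have h6 := (sq_le_sq₀ (by positivity) (by positivity)).1 h5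
    exact le_trans (by exact_mod_cast h3) h6
  have h3 := Finset.sum_le_card_nsmul _ _ _ h2
  rw [nsmul_eq_mul] at h3
  exact h3

open Classical in
theorem many : ∃ ε : ℝ, 0 < ε ∧ ε ≤ 1 / 2 ∧ ∃ c : ℝ, 0 < c ∧ ∀ p : Fin 2 → SL2R,
    (∀ i, d1 (p i) ≤ ε) → Iq / 2 ≤ Zm p ∧ ∀ n : ℕ, 1 ≤ n → ∀ W : Finset (List Lt), W ⊆ WS n →
      Zm p / 2 ≤ ∑ w ∈ W, kap p w →
      c * (1.09 : ℝ) ^ n ≤ ((W.image (fun w => FreeGroup.mk w)).card : ℝ) := by
  have hIp := Ip_pos
  have hIq := Iq_pos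
  refine ⟨min (1 / 2) (Iq / (4200 * Ip)), lt_min (by norm_num) (by positivity), min_le_left _ _,
    Iq / (16 * Ip), by positivity, ?_⟩
  intro p hp
  set ε := min (1 / 2) (Iq / (4200 * Ip)) with hεd
  have hε0 : 0 ≤ ε := le_min (by norm_num) (by positivity)
  have hε1 : ε ≤ 1 := (min_le_left _ _).trans (by norm_num)
  have hε2 : ε * (4200 * Ip) ≤ Iq := by
    have h1 : ε ≤ Iq / (4200 * Ip) := min_le_right _ _
    rwa [le_div_iff₀ (by positivity)] at h1
  have hε3 : 0 ≤ ε * Ip := mul_nonneg hε0 hIp.le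
  have hZ := Zm_ge hε1 hp
  have hZ1 : Iq / 2 ≤ Zm p := by nlinarith
  have hZ2 : 4000 * (ε * Ip) ≤ Zm p := by nlinarith
  refine ⟨hZ1, ?_⟩
  intro n hn W hW hs
  have hn0 : (0 : ℝ) < n := by exact_mod_cast hn
  set K : ℝ := (1 / 4) ^ n * Real.exp ((n : ℝ) / 20) * 2 * Ip with hK
  have hK0 : 0 ≤ K := by positivity
  have h1 : ∑ w ∈ W, kap p w ≤ W.card * K + 1000 * (ε * Ip) := by
    calc ∑ w ∈ W, kap p w
        ≤ ∑ w ∈ W, (K + 20 / n * ∫ x, pd p x * ww p x w * gs p x w ∂mH) :=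
          Finset.sum_le_sum fun w hw => LCNT_kap hε0 hε1 hp hn (hW hw)
      _ = W.card * K + 20 / n * ∑ w ∈ W, ∫ x, pd p x * ww p x w * gs p x w ∂mH := by
          rw [Finset.sum_add_distrib, Finset.sum_const, nsmul_eq_mul, Finset.mul_sum]
      _ ≤ W.card * K + 20 / n * (n * (50 * ε * Ip)) := by
          have h2 : ∑ w ∈ W, ∫ x, pd p x * ww p x w * gs p x w ∂mH ≤ n * (50 * ε * Ip) := by
            refine le_trans ?_ (psum hε0 hε1 hp n).2
            refine Finset.sum_le_sum_of_subset_of_nonneg hW fun w _ _ => ?_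
            refine integral_nonneg fun x => ?_
            exact mul_nonneg (mul_nonneg (pd_nonneg p x) (ww_nonneg p x w)) (gs_nonneg p x w)
          have h3 : 20 / (n : ℝ) * ∑ w ∈ W, ∫ x, pd p x * ww p x w * gs p x w ∂mH
              ≤ 20 / (n : ℝ) * (n * (50 * ε * Ip)) := mul_le_mul_of_nonneg_left h2 (by positivity)
          linarith
      _ = W.card * K + 1000 * (ε * Ip) := by
          field_simp
          ring
  have h2 : Zm p / 4 ≤ W.card * K := by linarith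
  have h3 := LCNT_card hW
  set N : ℝ := ((W.image (fun w => FreeGroup.mk w)).card : ℝ) with hN
  have hN0 : 0 ≤ N := by positivity
  have h4 : Zm p / 4 ≤ N * (Real.sqrt 12 * (1 / 4) * Real.exp (1 / 20)) ^ n * (2 * Ip) := by
    calc Zm p / 4 ≤ W.card * K := h2
      _ ≤ (N * Real.sqrt 12 ^ n) * K := mul_le_mul_of_nonneg_right h3 hK0
      _ = _ := by
          rw [hK, mul_pow, mul_pow, ← Real.exp_nat_mul]
          have : (n : ℝ) * (1 / 20) = (n : ℝ) / 20 := by ring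
          rw [this]
          ring
  have h5 : (Real.sqrt 12 * (1 / 4) * Real.exp (1 / 20)) ^ n * (1.09 : ℝ) ^ n ≤ 1 := by
    rw [← mul_pow]
    refine pow_le_one₀ ?_ LCNT_num
    have := Real.exp_pos (1 / 20)
    positivity
  have h6 : Zm p / 4 * (1.09 : ℝ) ^ n ≤ N * (2 * Ip) := by
    calc Zm p / 4 * (1.09 : ℝ) ^ n
        ≤ N * (Real.sqrt 12 * (1 / 4) * Real.exp (1 / 20)) ^ n * (2 * Ip) * (1.09 : ℝ) ^ n :=
          mul_le_mul_of_nonneg_right h4 (by positivity)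
      _ = N * (2 * Ip) * ((Real.sqrt 12 * (1 / 4) * Real.exp (1 / 20)) ^ n * (1.09 : ℝ) ^ n) := by
          ring
      _ ≤ N * (2 * Ip) * 1 := mul_le_mul_of_nonneg_left h5 (by positivity)
      _ = N * (2 * Ip) := mul_one _
  have h7 : Iq / 8 * (1.09 : ℝ) ^ n ≤ N * (2 * Ip) := by
    refine le_trans ?_ h6
    exact mul_le_mul_of_nonneg_right (by linarith) (by positivity)
  have h8 : Iq / (16 * Ip) * (1.09 : ℝ) ^ n = Iq / 8 * (1.09 : ℝ) ^ n / (2 * Ip) := by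
    field_simp
    norm_num
  rw [h8, div_le_iff₀ (by positivity)]
  exact h7

end Pool.Agent.SZ
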