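import Pool.Agent.SZ.L_CSA

/-!
# L_CSB: cost of products

* `cst_inv_mul`: `cst_mul` for `g⁻¹ * h` (with `nS_inv`), `cst_inv`.
* `cst_list`: induction on the list.  Let `l = g :: t`, `m = t.length`.  If `m = 0` it is
  `cst_mono` (`l.prod = g`, `R ≤ R * ρ`, as `1 ≤ ρ`, `0 ≤ R`).  If `m ≥ 1`: pointwise
  `(f (b g P) - f b)^2 ≤ (1 + 1/m) (f (b g P) - f (b g))^2 + (1 + m) (f (b g) - f b)^2`,
  integrate, use `shift_le` for the first term: it is at most `(1 + 1/m) * cst f (R * nS g) P
  ≤ (1 + 1/m) * cst f (R * ρ) P ≤ (1 + 1/m) * m * Σ_{h in t} cst f (R * ρ * ρ ^ m) h`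
  (`cst_mono` because `R * nS g ≤ R * ρ`).
  (Any other proof is fine.)
* `cst_cm`: `cm v g h` is the product of the list `[g, v, h, v⁻¹, g⁻¹, v, h⁻¹, v⁻¹]`
  (`mul_inv_rev`, `inv_inv`, `mul_assoc`) of length 8 whose members have norm at most `4`
  (`nS_inv`); by `cst_list` with `ρ = 4`
  `cst f R (cm v g h) ≤ 8 * (sum of the eight costs at radius R * 4 ^ 8)`; the costs of inverses at
  radius `R * 4 ^ 8` are at most the costs at radius `R * 4 ^ 9` (`cst_inv`, `cst_mono`).
-/

set_option autoImplicit false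

namespace Pool.Agent.SZ

open Pool.Agent.IRS MeasureTheory Set Filter Topology

theorem cst_inv_mul {f : SL2R → ℝ} (hf : BM f) (R : ℝ) (g h : SL2R) :
    cst f R (g⁻¹ * h) ≤ 2 * cst f (R * nS g) g + 2 * cst f (R * nS g) h := by
  have h1 := cst_mul hf R g⁻¹ h
  have h2 := cst_inv hf R g
  rw [nS_inv] at h1
  linarith

theorem cst_list {f : SL2R → ℝ} (hf : BM f) {ρ : ℝ} (hρ : 1 ≤ ρ) (l : List SL2R)
    (hl : ∀ g ∈ l, nS g ≤ ρ) {R : ℝ} (hR : 0 ≤ R) :
    cst f R l.prod ≤ l.length * (l.map (cst f (R * ρ ^ l.length))).sum := by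
  have hρ0 : 0 ≤ ρ := by linarith
  induction l generalizing R with
  | nil => simp [cst_one]
  | cons g t ih =>
    have hg : nS g ≤ ρ := hl g (by simp)
    have ht : ∀ h ∈ t, nS h ≤ ρ := fun h hh => hl h (by simp [hh])
    rcases Nat.eq_zero_or_pos t.length with hm | hm
    · have ht0 : t = [] := List.length_eq_zero_iff.mp hm
      subst ht0
      simp only [List.prod_cons, List.prod_nil, mul_one, List.length_cons, List.length_nil,
        List.map_cons, List.map_nil, List.sum_cons, List.sum_nil, add_zero, zero_add, Nat.cast_one,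
        one_mul, pow_one]
      exact cst_mono hf (le_mul_of_one_le_right hR hρ) g
    · have hm0 : (0 : ℝ) < t.length := by exact_mod_cast hm
      have key := ih ht (R := R * ρ) (mul_nonneg hR hρ0)
      have e1 : R * ρ * ρ ^ t.length = R * ρ ^ (g :: t).length := by
        rw [List.length_cons, pow_succ]; ring
      rw [e1] at key
      have hF : BM (fun y => (f (y * t.prod) - f y) ^ 2) := by
        obtain ⟨hf1, M, hM⟩ := hf
        refine ⟨((hf1.comp (measurable_mul_const _)).sub hf1).pow_const 2, (2 * M) ^ 2, fun b => ?_⟩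
        rw [abs_pow]
        refine pow_le_pow_left₀ (abs_nonneg _) ?_ 2
        have h1 := hM (b * t.prod)
        have h2 := hM b
        have h3 := abs_sub (f (b * t.prod)) (f b)
        linarith
      have h2 := shift_le hF (fun b => sq_nonneg _) R g
      have h3 : ∫ b in Bn (R * nS g), (f (b * t.prod) - f b) ^ 2 ∂mH ≤ cst f (R * ρ) t.prod :=
        cst_mono hf (mul_le_mul_of_nonneg_left hg hR) t.prod
      have i1 := hf.int R (g * t.prod) g
      have i2 := hf.int R g 1
      have i3 := hf.int R (g * t.prod) 1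
      simp only [mul_one] at i2 i3
      have h4 : cst f R (g :: t).prod ≤ (1 + 1 / (t.length : ℝ))
            * ∫ b in Bn R, (f (b * (g * t.prod)) - f (b * g)) ^ 2 ∂mH
          + (1 + t.length) * ∫ b in Bn R, (f (b * g) - f b) ^ 2 ∂mH := by
        rw [List.prod_cons, cst, ← integral_const_mul, ← integral_const_mul,
          ← integral_add (i1.const_mul _) (i2.const_mul _)]
        refine integral_mono i3 ((i1.const_mul _).add (i2.const_mul _)) fun b => ?_
        simp only
        set x := f (b * (g * t.prod)) - f (b * g) with hx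
        set y := f (b * g) - f b with hy
        have e2 : f (b * (g * t.prod)) - f b = x + y := by rw [hx, hy]; ring
        rw [e2]
        have e3 : (1 + 1 / (t.length : ℝ)) * x ^ 2 + (1 + t.length) * y ^ 2 - (x + y) ^ 2
            = (x - t.length * y) ^ 2 / t.length := by
          field_simp
          ring
        have e4 : 0 ≤ (x - t.length * y) ^ 2 / (t.length : ℝ) := by positivity
        linarith
      have h5 : ∫ b in Bn R, (f (b * (g * t.prod)) - f (b * g)) ^ 2 ∂mH
          ≤ t.length * (t.map (cst f (R * ρ ^ (g :: t).length))).sum := by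
        refine le_trans ?_ (h2.trans (h3.trans key))
        simp only [mul_assoc]
        exact le_rfl
      have h6 : ∫ b in Bn R, (f (b * g) - f b) ^ 2 ∂mH ≤ cst f (R * ρ ^ (g :: t).length) g :=
        cst_mono hf (le_mul_of_one_le_right hR (one_le_pow₀ hρ)) g
      rw [List.map_cons, List.sum_cons]
      have h7 : (1 + 1 / (t.length : ℝ)) * t.length = 1 + t.length := by
        field_simp
        ring
      calc cst f R (g :: t).prod ≤ (1 + 1 / (t.length : ℝ))
            * ∫ b in Bn R, (f (b * (g * t.prod)) - f (b * g)) ^ 2 ∂mH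
          + (1 + t.length) * ∫ b in Bn R, (f (b * g) - f b) ^ 2 ∂mH := h4
        _ ≤ (1 + 1 / (t.length : ℝ))
            * (t.length * (t.map (cst f (R * ρ ^ (g :: t).length))).sum)
          + (1 + t.length) * cst f (R * ρ ^ (g :: t).length) g := by
            gcongr
        _ = _ := by
            rw [← mul_assoc, h7, List.length_cons]
            push_cast
            ring

theorem cst_cm {f : SL2R → ℝ} (hf : BM f) {R : ℝ} (hR : 0 ≤ R) {v g h : SL2R} (hv : nS v ≤ 4)
    (hg : nS g ≤ 4) (hh : nS h ≤ 4) :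
    cst f R (cm v g h) ≤
      32 * (cst f (R * 4 ^ 9) g + cst f (R * 4 ^ 9) h + cst f (R * 4 ^ 9) v) := by
  have e : cm v g h = [g, v, h, v⁻¹, g⁻¹, v, h⁻¹, v⁻¹].prod := by
    simp only [cm, List.prod_cons, List.prod_nil, mul_one, mul_inv_rev, inv_inv, mul_assoc]
  have h1 := cst_list hf (ρ := 4) (by norm_num) [g, v, h, v⁻¹, g⁻¹, v, h⁻¹, v⁻¹] (by
    intro x hx
    simp only [List.mem_cons, List.not_mem_nil, or_false] at hx
    rcases hx with rfl | rfl | rfl | rfl | rfl | rfl | rfl | rfl
    all_goals first | assumption | (rw [nS_inv]; assumption)) hR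
  rw [← e] at h1
  simp only [List.length_cons, List.length_nil, List.map_cons, List.map_nil, List.sum_cons,
    List.sum_nil, add_zero, zero_add, Nat.reduceAdd] at h1
  have hR8 : 0 ≤ R * 4 ^ 8 := by positivity
  have hinv : ∀ x : SL2R, nS x ≤ 4 → cst f (R * 4 ^ 8) x⁻¹ ≤ cst f (R * 4 ^ 9) x := by
    intro x hx
    refine (cst_inv hf _ x).trans (cst_mono hf ?_ x)
    calc R * 4 ^ 8 * nS x ≤ R * 4 ^ 8 * 4 := mul_le_mul_of_nonneg_left hx hR8
      _ = R * 4 ^ 9 := by ring
  have hmon : ∀ x : SL2R, cst f (R * 4 ^ 8) x ≤ cst f (R * 4 ^ 9) x := fun x =>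
    cst_mono hf (mul_le_mul_of_nonneg_left (by norm_num) hR) x
  have a1 := hmon g
  have a2 := hmon h
  have a3 := hmon v
  have a4 := hinv g hg
  have a5 := hinv h hh
  have a6 := hinv v hv
  have b1 := cst_nonneg f (R * 4 ^ 9) g
  have b2 := cst_nonneg f (R * 4 ^ 9) h
  norm_num at h1 a1 a2 a3 a4 a5 a6 b1 b2 ⊢
  linarith

end Pool.Agent.SZ
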