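import Pool.Agent.SZ.L_CHA

/-!
# L_SEP: separation of the values

`p : Fin 2 → G2`, `φ = FreeGroup.lift p`, injective, `nS (p i).2 ≤ T`.
* `two_le_T`: `2 ≤ nS (p 0).2 ≤ T` (`two_le_nS`).
* `word_norm`: `nS (φ (mk w)).2 ≤ T ^ w.length` for `w ≠ []`; for general `w` use
  `nS (φ (mk w)).2 ≤ 2 * T ^ w.length` (`nS 1 = 2`; induction, `nS_mul_le`, `nS_inv`).
* `word_mem`: `φ (mk w) ∈ H` (induction, `H.mul_mem`, `H.inv_mem`).
* `first_inj`: `(φ u).1 = 1 → u = 1` for `u` in the free group, if `InjT H`: then `(φ u).2 ^ 2 = 1`, so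
  `φ (u ^ 2) = 1`, `u ^ 2 = 1`, and free groups are torsion free
  (`FreeGroup.instIsMulTorsionFree` / `IsMulTorsionFree`, `pow_eq_one_iff`..).
* `sep`: for `u = (mk w)⁻¹ * mk w' ≠ 1` let `h = φ u ∈ H`; `h.1 ≠ 1`,
  `nS h.2 ≤ nS (φ mk w).2 * nS (φ mk w').2 ≤ 4 T^(2n) ≤ T ^ (2 n + 2)`, so by `DioT`
  `d1 h.1 ≥ T⁻¹ (nS h.2)^(-T) ≥ T⁻¹ (T^(2n+2))^(-T) = exp (-(1 + (2n+2) T) log T)`
  (`Real.rpow_le_rpow_of_nonpos`-like: `x ↦ x^(-T)` is decreasing), and
  `(1 + (2n+2) T) ≤ n (1 + 4 T)` for `n ≥ 1`.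
-/

set_option autoImplicit false

namespace Pool.Agent.SZ

open Pool.Agent.IRS MeasureTheory Set Filter Topology

theorem word_mem {H : Subgroup G2} {p : Fin 2 → G2} (hp : ∀ i, p i ∈ H)
    (u : FreeGroup (Fin 2)) : FreeGroup.lift p u ∈ H := by
  induction u using FreeGroup.induction_on with
  | C1 => rw [map_one]; exact H.one_mem
  | of i => rw [FreeGroup.lift_apply_of]; exact hp i
  | inv_of i _ => rw [map_inv, FreeGroup.lift_apply_of]; exact H.inv_mem (hp i)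
  | mul x y hx hy => rw [map_mul]; exact H.mul_mem hx hy

theorem first_inj {H : Subgroup G2} {p : Fin 2 → G2} (hp : ∀ i, p i ∈ H)
    (hinj : Function.Injective (FreeGroup.lift p : FreeGroup (Fin 2) →* G2)) (hI : InjT H)
    {u : FreeGroup (Fin 2)} (h : (FreeGroup.lift p u).1 = 1) : u = 1 := by
  have h1 := hI _ (word_mem hp u) h
  have h2 : FreeGroup.lift p (u ^ 2) = FreeGroup.lift p 1 := by
    rw [map_pow, map_one]
    refine Prod.ext ?_ ?_
    · rw [Prod.pow_fst, h, one_pow]; rfl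
    · rw [Prod.pow_snd, h1]; rfl
  have h3 := hinj h2
  exact (pow_eq_one_iff_left (two_ne_zero)).1 h3

lemma LSEP_norm {p : Fin 2 → G2} {T : ℝ} (hT : 2 ≤ T) (hp : ∀ i, nS (p i).2 ≤ T) (w : List Lt) :
    nS (FreeGroup.lift p (FreeGroup.mk w)).2 ≤ 2 * T ^ w.length := by
  induction w with
  | nil =>
    rw [← FreeGroup.one_eq_mk, map_one]
    rw [Prod.snd_one, nS_one]
    simp
  | cons l w ih =>
    have e : (FreeGroup.mk (l :: w) : FreeGroup (Fin 2)) = FreeGroup.mk [l] * FreeGroup.mk w := by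
      rw [FreeGroup.mul_mk]; rfl
    have h1 : nS (FreeGroup.lift p (FreeGroup.mk [l])).2 ≤ T := by
      obtain ⟨i, b⟩ := l
      rw [FreeGroup.lift_mk]
      cases b
      · simpa [nS_inv] using hp i
      · simpa using hp i
    rw [e, map_mul, Prod.snd_mul, List.length_cons, pow_succ']
    refine (nS_mul_le _ _).trans ?_
    have h2 := nS_pos (FreeGroup.lift p (FreeGroup.mk w)).2
    calc nS (FreeGroup.lift p (FreeGroup.mk [l])).2 * nS (FreeGroup.lift p (FreeGroup.mk w)).2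
        ≤ T * (2 * T ^ w.length) := mul_le_mul h1 ih h2.le (by linarith)
      _ = 2 * (T * T ^ w.length) := by ring

theorem sep {T : ℝ} {H : Subgroup G2} {p : Fin 2 → G2} (hp : ∀ i, p i ∈ H ∧ nS (p i).2 ≤ T)
    (hinj : Function.Injective (FreeGroup.lift p : FreeGroup (Fin 2) →* G2)) (hD : DioT T H)
    (hI : InjT H) {n : ℕ} (hn : 1 ≤ n) {w w' : List Lt} (hw : w.length = n) (hw' : w'.length = n)
    (hne : (FreeGroup.mk w : FreeGroup (Fin 2)) ≠ FreeGroup.mk w') :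
    Real.exp (-((1 + 4 * T) * Real.log T * n)) ≤
      d1 ((wv (fun i => (p i).1) w)⁻¹ * wv (fun i => (p i).1) w') := by
  have hT : 2 ≤ T := (two_le_nS _).trans (hp 0).2
  have hT0 : 0 < T := by linarith
  have hn' : (1 : ℝ) ≤ n := by exact_mod_cast hn
  set u : FreeGroup (Fin 2) := (FreeGroup.mk w)⁻¹ * FreeGroup.mk w' with hu
  have hu1 : u ≠ 1 := by
    intro h
    exact hne (inv_mul_eq_one.1 h)
  have hh1 : (FreeGroup.lift p u).1 ≠ 1 := fun h => hu1 (first_inj (fun i => (hp i).1) hinj hI h)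
  have hd := hD _ (word_mem (fun i => (hp i).1) u) hh1
  have he : (FreeGroup.lift p u).1
      = (wv (fun i => (p i).1) w)⁻¹ * wv (fun i => (p i).1) w' := by
    rw [hu, map_mul, map_inv, Prod.fst_mul, Prod.fst_inv, wv_mk, wv_mk]
  rw [he] at hd
  refine le_trans ?_ hd
  have hN : nS (FreeGroup.lift p u).2 ≤ T ^ (2 * n + 2) := by
    rw [hu, map_mul, map_inv, Prod.snd_mul, Prod.snd_inv]
    refine (nS_mul_le _ _).trans ?_
    rw [nS_inv]
    have h1 := LSEP_norm hT (fun i => (hp i).2) w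
    have h2 := LSEP_norm hT (fun i => (hp i).2) w'
    rw [hw] at h1
    rw [hw'] at h2
    have h3 := nS_pos (FreeGroup.lift p (FreeGroup.mk w')).2
    have h4 : 0 < T ^ n := pow_pos hT0 n
    calc nS (FreeGroup.lift p (FreeGroup.mk w)).2 * nS (FreeGroup.lift p (FreeGroup.mk w')).2
        ≤ (2 * T ^ n) * (2 * T ^ n) := mul_le_mul h1 h2 h3.le (by positivity)
      _ = 4 * (T ^ n * T ^ n) := by ring
      _ ≤ T ^ 2 * (T ^ n * T ^ n) := by
          refine mul_le_mul_of_nonneg_right ?_ (by positivity)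
          nlinarith
      _ = T ^ (2 * n + 2) := by rw [← pow_add, ← pow_add]; congr 1; ring
  have hlog : 0 ≤ Real.log T := Real.log_nonneg (by linarith)
  have h5 : (T ^ (2 * n + 2)) ^ (-T) ≤ (nS (FreeGroup.lift p u).2) ^ (-T) :=
    Real.rpow_le_rpow_of_nonpos (nS_pos _) hN (by linarith)
  have h6 : Real.exp (-((1 + 4 * T) * Real.log T * n)) ≤ T⁻¹ * (T ^ (2 * n + 2)) ^ (-T) := by
    have e1 : T⁻¹ = Real.exp (-Real.log T) := by rw [Real.exp_neg, Real.exp_log hT0]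
    have e2 : (T ^ (2 * n + 2) : ℝ) ^ (-T) = Real.exp ((2 * n + 2 : ℕ) * Real.log T * -T) := by
      rw [Real.rpow_def_of_pos (pow_pos hT0 _), Real.log_pow]
    rw [e1, e2, ← Real.exp_add]
    refine Real.exp_le_exp.2 ?_
    push_cast
    nlinarith [mul_nonneg hlog (by linarith : (0 : ℝ) ≤ (n : ℝ) - 1),
      mul_nonneg (mul_nonneg hlog hT0.le) (by linarith : (0 : ℝ) ≤ (n : ℝ) - 1)]
  refine h6.trans ?_
  exact mul_le_mul_of_nonneg_left h5 (by positivity)

end Pool.Agent.SZ
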