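import Pool.Agent.SZ.L_TRE
import Pool.Agent.SZ.L_DST

/-!
# L_TRS: the tree lemma in SL(2,R)

Map `e g = ![g 0 0, g 0 1, g 1 0, g 1 1]`, injective (`SL_ext`).  For `g, h ∈ W`:
`dist (e g) (e h) ≤ dm g h ≤ 4 * dist (e g) (e h)` (sup metric and sum of the four differences;
`dist_pi_le_iff`, `dist_le_pi_dist`), and `dist ≤ dm g h ≤ nS g + nS h ≤ 50`.  Apply `tree` with `D = 50` to
`W.image e`.  For `j ∈ J`: `50 / 2^(j+2) ≤ dist ≤ dm w w' ≤ nS w * d1 (w⁻¹ w') ≤ 25 d1 (w⁻¹ w')`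
(`dm_le`), so `d1 ≥ (1/2) / 2^j`; and `d1 (w⁻¹ w') ≤ nS w * dm w w' ≤ 25 * 4 * 50 / 2^j = 5000 / 2^j`
(`d1_inv_mul_le`).
-/

set_option autoImplicit false

namespace Pool.Agent.SZ

open Pool.Agent.IRS MeasureTheory Set Filter Topology

private def e4 (g : SL2R) : Fin 4 → ℝ := ![g 0 0, g 0 1, g 1 0, g 1 1]

private lemma e4_inj : Function.Injective e4 := by
  intro g h hgh
  have h0 := congrFun hgh 0
  have h1 := congrFun hgh 1
  have h2 := congrFun hgh 2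
  have h3 := congrFun hgh 3
  simp only [e4, Matrix.cons_val_zero, Matrix.cons_val_one, Matrix.cons_val] at h0 h1 h2 h3
  exact SL_ext h0 h1 h2 h3

private lemma dm_def (g h : SL2R) :
    dm g h = |g 0 0 - h 0 0| + |g 0 1 - h 0 1| + |g 1 0 - h 1 0| + |g 1 1 - h 1 1| := by
  unfold dm nM
  simp [Matrix.sub_apply]

private lemma dist_e4_le (g h : SL2R) : dist (e4 g) (e4 h) ≤ dm g h := by
  rw [dm_def]
  have p0 := abs_nonneg (g 0 0 - h 0 0)
  have p1 := abs_nonneg (g 0 1 - h 0 1)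
  have p2 := abs_nonneg (g 1 0 - h 1 0)
  have p3 := abs_nonneg (g 1 1 - h 1 1)
  rw [dist_pi_le_iff (by linarith)]
  intro i
  rw [Real.dist_eq]
  fin_cases i
  · simp only [e4, Fin.zero_eta, Matrix.cons_val_zero]; linarith
  · simp only [e4, Fin.mk_one, Matrix.cons_val_one, Matrix.cons_val_zero]; linarith
  · simp only [e4, Fin.reduceFinMk, Matrix.cons_val]; linarith
  · simp only [e4, Fin.reduceFinMk, Matrix.cons_val]; linarith

private lemma dm_le_dist (g h : SL2R) : dm g h ≤ 4 * dist (e4 g) (e4 h) := by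
  rw [dm_def]
  have h0 := dist_le_pi_dist (e4 g) (e4 h) 0
  have h1 := dist_le_pi_dist (e4 g) (e4 h) 1
  have h2 := dist_le_pi_dist (e4 g) (e4 h) 2
  have h3 := dist_le_pi_dist (e4 g) (e4 h) 3
  rw [Real.dist_eq] at h0 h1 h2 h3
  have a0 : |g 0 0 - h 0 0| ≤ dist (e4 g) (e4 h) := h0
  have a1 : |g 0 1 - h 0 1| ≤ dist (e4 g) (e4 h) := h1
  have a2 : |g 1 0 - h 1 0| ≤ dist (e4 g) (e4 h) := h2
  have a3 : |g 1 1 - h 1 1| ≤ dist (e4 g) (e4 h) := h3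
  linarith

private lemma dm_le_add (g h : SL2R) : dm g h ≤ nS g + nS h := by
  rw [dm_def]
  have e1 : nS g = |g 0 0| + |g 0 1| + |g 1 0| + |g 1 1| := rfl
  have e2 : nS h = |h 0 0| + |h 0 1| + |h 1 0| + |h 1 1| := rfl
  rw [e1, e2]
  have h0 := abs_sub (g 0 0) (h 0 0)
  have h1 := abs_sub (g 0 1) (h 0 1)
  have h2 := abs_sub (g 1 0) (h 1 0)
  have h3 := abs_sub (g 1 1) (h 1 1)
  linarith

theorem tree_SL (M : ℕ) (W : Finset SL2R) (h25 : ∀ w ∈ W, nS w ≤ 25) (hM : 16 ^ M ≤ W.card) :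
    ∃ w ∈ W, ∃ J : Finset ℕ, J.card = M ∧ ∀ j ∈ J, ∃ w' ∈ W,
      2⁻¹ ^ (j + 1) ≤ d1 (w⁻¹ * w') ∧ d1 (w⁻¹ * w') ≤ 5000 * 2⁻¹ ^ j := by
  classical
  obtain ⟨x, hx, J, hJ, hJ'⟩ := tree M 50 (by norm_num) (W.image e4) (by
    intro x hx y hy
    obtain ⟨g, hg, rfl⟩ := Finset.mem_image.1 hx
    obtain ⟨h, hh, rfl⟩ := Finset.mem_image.1 hy
    have := dist_e4_le g h
    have := dm_le_add g h
    have := h25 g hg
    have := h25 h hh
    linarith) (by rwa [Finset.card_image_of_injective _ e4_inj])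
  obtain ⟨w, hw, rfl⟩ := Finset.mem_image.1 hx
  refine ⟨w, hw, J, hJ, fun j hj => ?_⟩
  obtain ⟨y, hy, h1, h2⟩ := hJ' j hj
  obtain ⟨w', hw', rfl⟩ := Finset.mem_image.1 hy
  refine ⟨w', hw', ?_, ?_⟩
  · have h3 := dist_e4_le w w'
    have h4 := dm_le w w'
    have h5 := h25 w hw
    have h6 : nS w * d1 (w⁻¹ * w') ≤ 25 * d1 (w⁻¹ * w') :=
      mul_le_mul_of_nonneg_right h5 (d1_nonneg _)
    have e : (50 : ℝ) / 2 ^ (j + 2) = 25 * 2⁻¹ ^ (j + 1) := by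
      rw [inv_pow, pow_succ _ (j + 1)]
      field_simp
      norm_num
    rw [e] at h1
    linarith
  · have h3 := dm_le_dist w w'
    have h4 := d1_inv_mul_le w w'
    have h5 := h25 w hw
    have h7 : 0 ≤ dm w w' := by
      rw [dm_def]; positivity
    have h6 : nS w * dm w w' ≤ 25 * dm w w' := mul_le_mul_of_nonneg_right h5 h7
    have e : (50 : ℝ) / 2 ^ j = 50 * 2⁻¹ ^ j := by
      rw [inv_pow]; field_simp
    rw [e] at h2
    linarith

end Pool.Agent.SZ
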