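import Pool.Agent.SZ.L_MWD
import Pool.Agent.SZ.L_SEP
import Pool.Agent.SZ.L_TRS
import Pool.Agent.SZ.L_CSB

/-!
# L_DNS: a positive proportion of the scales is reached with linear cost

`ε, c, C0` from `many_words`.  `D = (1 + 4 T) log T` (`T ≥ 2`, so `D > 0`).  `D' ∈ ℕ` with
`D' ≥ 2 D + 20`.
Given `m ≥ m0`, put `n = m / D'` (natural division), `M = n / 40`.  For `n ≥ n0(c)`:
`16^M ≤ c * 1.09^n` (as `16^(1/40) ≤ 1.072 < 1.09`: `16 ≤ 1.075^40 = 18.04...`, `norm_num`; so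
`16^M ≤ 1.075^(40 M) ≤ 1.075^n ≤ c 1.09^n` for `n` large, `tendsto_pow_atTop_atTop_of_one_lt`
for the ratio `1.09/1.075`).
`many_words` for `p1 i = (p i).1`, radius `25 * R` and this `n`: a finite set `W` of words with
different values in the free group, `c 1.09^n ≤ #W`; the values `wv p1 w` are different
(`sep`: `d1 > 0`, so `(wv w)⁻¹ wv w' ≠ 1`), norms at most `25`, and
`cst f (25 R) (wv p1 w) ≤ C0 n E` with `E = ∑_l cst f (25 * (25 * R)) (qv p1 l)`.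
`tree_SL M (W.image (wv p1))`: a word `w ∈ W` and `J` with `#J = M`; for `j ∈ J` a word `w' ∈ W` with
`2⁻¹^(j+1) ≤ d1 (..) ≤ 5000 * 2⁻¹^j`.  (So `wv w ≠ wv w'`, and `mk w ≠ mk w'`.)
By `sep`: `exp (-D n) ≤ 5000 * 2^(-j)`, so `2^j ≤ 5000 exp (D n)` and
`j ≤ (D n + log 5000)/log 2 ≤ 2 D n + 18 ≤ D' n ≤ m` (`log 2 ≥ 1/2`, `log 5000 ≤ 9`, `n ≥ 1`).
Let `J1 = {j ∈ J : j ≥ 14 + M / 2}`, `#J1 ≥ M - (14 + M / 2)`.  For `j ∈ J1` put `k = j - 13`, so
`1 ≤ k ≤ m`, `M / 2 ≤ k`, and `g = φ (mk w)⁻¹ * φ (mk w') ∈ H` (`φ = FreeGroup.lift p`, `word_mem`,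
`wv_mk`) has `g.1 = (wv w)⁻¹ wv w'`,
`2⁻¹^(k+14) ≤ d1 g.1 ≤ 5000 * 2⁻¹^(k+13) ≤ 2⁻¹^k` (`5000 ≤ 8192`), and
`cst f R g.1 ≤ 2 cst f (R nS) w + 2 cst f (R nS) w' ≤ 4 C0 n E` (`cst_inv_mul`, `cst_mono`: the radius is
`R * nS (wv w) ≤ 25 R`), `n ≤ 40 M + 39 ≤ 40 (2k + 1) + 39 ≤ 119 (1 + k)`.  So `C = 476 C0`.
`j ↦ j - 13` is injective on `J1`, so the set has at least `M - 14 - M/2 ≥ M / 2 - 14 ≥ n/80 - 16`
elements `≥ (m / D' - 1)/80 - 16 ≥ m / (160 D')` for `m ≥ m0` (real arithmetic).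
-/

set_option autoImplicit false

namespace Pool.Agent.SZ

open Pool.Agent.IRS MeasureTheory Set Filter Topology

/-- The scales reached with linear cost. -/
def Sc (H : Subgroup G2) (f : SL2R → ℝ) (R A : ℝ) : Set ℕ :=
  {k | ∃ g ∈ H, 2⁻¹ ^ (k + 14) ≤ d1 g.1 ∧ d1 g.1 ≤ 2⁻¹ ^ k ∧ cst f R g.1 ≤ A * (1 + k)}

lemma L_DNS_log : Real.log 5000 ≤ 9 := by
  have h1 : (2.7 : ℝ) < Real.exp 1 := lt_trans (by norm_num) Real.exp_one_gt_d9
  have h2 : (5000 : ℝ) ≤ Real.exp 9 := by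
    have h3 : Real.exp 9 = Real.exp 1 ^ 9 := by
      rw [← Real.exp_nat_mul]; norm_num
    rw [h3]
    calc (5000 : ℝ) ≤ 2.7 ^ 9 := by norm_num
      _ ≤ Real.exp 1 ^ 9 := pow_le_pow_left₀ (by norm_num) h1.le 9
  calc Real.log 5000 ≤ Real.log (Real.exp 9) := Real.log_le_log (by norm_num) h2
    _ = 9 := Real.log_exp 9

lemma L_DNS_big {c : ℝ} (hc : 0 < c) :
    ∃ n0 : ℕ, ∀ n : ℕ, n0 ≤ n → (16 : ℝ) ^ (n / 40) ≤ c * (1.09 : ℝ) ^ n := by
  have h1 : Tendsto (fun n : ℕ => ((1.09 : ℝ) / 1.075) ^ n) atTop atTop :=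
    tendsto_pow_atTop_atTop_of_one_lt (by norm_num)
  obtain ⟨n0, hn0⟩ := (h1.eventually_ge_atTop (1 / c)).exists_forall_of_atTop
  refine ⟨n0, fun n hn => ?_⟩
  have h2 := hn0 n hn
  rw [div_pow, div_le_div_iff₀ hc (by positivity), one_mul] at h2
  calc (16 : ℝ) ^ (n / 40) ≤ ((1.075 : ℝ) ^ 40) ^ (n / 40) :=
        pow_le_pow_left₀ (by norm_num) (by norm_num) _
    _ = (1.075 : ℝ) ^ (40 * (n / 40)) := by rw [← pow_mul]
    _ ≤ (1.075 : ℝ) ^ n := pow_le_pow_right₀ (by norm_num) (Nat.mul_div_le n 40)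
    _ ≤ c * (1.09 : ℝ) ^ n := by rw [mul_comm c]; exact h2

theorem dens : ∃ ε : ℝ, 0 < ε ∧ ε ≤ 1 / 2 ∧ ∃ C : ℝ, 0 ≤ C ∧ ∀ T : ℝ, 2 ≤ T →
    ∃ c3 : ℝ, 0 < c3 ∧ ∃ m0 : ℕ, ∀ (H : Subgroup G2) (p : Fin 2 → G2),
      (∀ i, p i ∈ H ∧ d1 (p i).1 ≤ ε ∧ nS (p i).2 ≤ T) →
      Function.Injective (FreeGroup.lift p : FreeGroup (Fin 2) →* G2) → DioT T H → InjT H →
      ∀ f : SL2R → ℝ, BM f → ∀ R : ℝ, 0 ≤ R → ∀ m : ℕ, m0 ≤ m →
        c3 * m ≤ (Nat.card {k : ℕ | k ∈ Sc H f R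
          (C * ∑ l : Lt, cst f (625 * R) (qv (fun i => (p i).1) l)) ∧ 1 ≤ k ∧ k ≤ m} : ℝ) := by
  classical
  obtain ⟨ε, hε0, hε1, c, hc, C0, hC0, hmw⟩ := many_words
  obtain ⟨n0, hn0⟩ := L_DNS_big hc
  refine ⟨ε, hε0, hε1, 476 * C0, by positivity, ?_⟩
  intro T hT
  have hlogT : 0 ≤ Real.log T := Real.log_nonneg (by linarith)
  set D : ℝ := (1 + 4 * T) * Real.log T with hD
  have hD0 : 0 ≤ D := mul_nonneg (by linarith) hlogT
  obtain ⟨D', hD'⟩ := exists_nat_ge (2 * D + 20)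
  have hD'0 : (0 : ℝ) < D' := by linarith
  have hD'pos : 0 < D' := by exact_mod_cast hD'0
  refine ⟨1 / (160 * D'), by positivity, D' * (n0 + 2600), ?_⟩
  intro H p hp hinj hDio hInj f hf R hR m hm
  set n : ℕ := m / D' with hn
  set M : ℕ := n / 40 with hM
  set p1 : Fin 2 → SL2R := fun i => (p i).1 with hp1
  have hnge : n0 + 2600 ≤ n := by
    rw [hn, Nat.le_div_iff_mul_le hD'pos, mul_comm]
    exact hm
  have hn1 : 1 ≤ n := by omega
  obtain ⟨W, hWS, hWinj, hWcard, hW⟩ :=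
    hmw p1 (fun i => (hp i).2.1) f hf (25 * R) (by positivity) n hn1
  set E : ℝ := ∑ l : Lt, cst f (625 * R) (qv p1 l) with hE
  have hE' : ∑ l : Lt, cst f (25 * (25 * R)) (qv p1 l) = E := by
    rw [hE]
    refine Finset.sum_congr rfl fun l _ => ?_
    congr 1
    ring
  have hE0 : 0 ≤ E := Finset.sum_nonneg fun l _ => cst_nonneg _ _ _
  have hlen : ∀ w ∈ W, w.length = n := fun w hw => mem_WS.1 (hWS hw)
  have hsep : ∀ w ∈ W, ∀ w' ∈ W, w ≠ w' →
      Real.exp (-(D * n)) ≤ d1 ((wv p1 w)⁻¹ * wv p1 w') := by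
    intro w hw w' hw' hne
    exact sep (fun i => ⟨(hp i).1, (hp i).2.2⟩) hinj hDio hInj hn1 (hlen w hw) (hlen w' hw')
      (fun h => hne (hWinj w hw w' hw' h))
  have hwvinj : ∀ w ∈ W, ∀ w' ∈ W, wv p1 w = wv p1 w' → w = w' := by
    intro w hw w' hw' h
    by_contra hne
    have h1 := hsep w hw w' hw' hne
    rw [h, inv_mul_cancel, d1_eq_zero.2 rfl] at h1
    exact absurd h1 (not_le.2 (Real.exp_pos _))
  have hcardim : (W.image (wv p1)).card = W.card :=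
    Finset.card_image_of_injOn (fun w hw w' hw' h => hwvinj w hw w' hw' h)
  have h16 : 16 ^ M ≤ (W.image (wv p1)).card := by
    rw [hcardim]
    have h1 := (hn0 n (by omega)).trans hWcard
    exact_mod_cast h1
  obtain ⟨x, hx, J, hJcard, hJ⟩ := tree_SL M (W.image (wv p1)) (by
    intro g hg
    obtain ⟨w, hw, rfl⟩ := Finset.mem_image.1 hg
    exact (hW w hw).1) h16
  obtain ⟨a, ha, rfl⟩ := Finset.mem_image.1 hx
  -- the scales
  have key : ∀ j ∈ J, 14 + M / 2 ≤ j → j - 13 ∈ Sc H f R (476 * C0 * E) ∧ 1 ≤ j - 13 ∧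
      j - 13 ≤ m := by
    intro j hj hj14
    obtain ⟨y, hy, h1, h2⟩ := hJ j hj
    obtain ⟨b, hb, rfl⟩ := Finset.mem_image.1 hy
    have hab : a ≠ b := by
      rintro rfl
      rw [inv_mul_cancel, d1_eq_zero.2 rfl] at h1
      exact absurd h1 (not_le.2 (by positivity))
    have h3 := hsep a ha b hb hab
    have h4 : Real.exp (-(D * n)) ≤ 5000 * 2⁻¹ ^ j := h3.trans h2
    have hjm : j ≤ m := by
      have h5 : (2 : ℝ) ^ j ≤ 5000 * Real.exp (D * n) := by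
        rw [Real.exp_neg, inv_pow] at h4
        have e1 : 0 < Real.exp (D * n) := Real.exp_pos _
        have e2 : (0 : ℝ) < 2 ^ j := by positivity
        rw [← div_eq_mul_inv, inv_eq_one_div, div_le_div_iff₀ e1 e2, one_mul] at h4
        exact h4
      have h6 : (j : ℝ) * Real.log 2 ≤ Real.log 5000 + D * n := by
        have := Real.log_le_log (by positivity) h5
        rwa [Real.log_pow, Real.log_mul (by norm_num) (Real.exp_pos _).ne', Real.log_exp] at this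
      have h7 := Real.log_two_gt_d9
      have h8 := L_DNS_log
      have hj0 : (0 : ℝ) ≤ j := Nat.cast_nonneg _
      have hn1' : (1 : ℝ) ≤ n := by exact_mod_cast hn1
      have h9 : (j : ℝ) ≤ (2 * D + 20) * n := by
        have : (j : ℝ) * (1 / 2) ≤ j * Real.log 2 := by
          apply mul_le_mul_of_nonneg_left _ hj0
          linarith
        nlinarith
      have h10 : (j : ℝ) ≤ D' * n := h9.trans (mul_le_mul_of_nonneg_right hD' (by linarith))
      have h11 : j ≤ D' * n := by exact_mod_cast h10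
      exact h11.trans (Nat.mul_div_le m D')
    refine ⟨?_, by omega, by omega⟩
    obtain ⟨k, rfl⟩ : ∃ k, j = k + 13 := ⟨j - 13, by omega⟩
    rw [Nat.add_sub_cancel]
    refine ⟨(FreeGroup.lift p (FreeGroup.mk a))⁻¹ * FreeGroup.lift p (FreeGroup.mk b),
      H.mul_mem (H.inv_mem (word_mem (fun i => (hp i).1) _)) (word_mem (fun i => (hp i).1) _), ?_⟩
    have e1 : ((FreeGroup.lift p (FreeGroup.mk a))⁻¹ * FreeGroup.lift p (FreeGroup.mk b)).1
        = (wv p1 a)⁻¹ * wv p1 b := by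
      rw [Prod.fst_mul, Prod.fst_inv, hp1, wv_mk, wv_mk]
    rw [e1]
    refine ⟨h1, ?_, ?_⟩
    · refine h2.trans ?_
      rw [pow_add]
      have : (0 : ℝ) < 2⁻¹ ^ k := by positivity
      have h13 : (5000 : ℝ) * (2⁻¹ ^ 13) ≤ 1 := by norm_num
      nlinarith
    · have hna := (hW a ha).1
      have h5 := cst_inv_mul hf R (wv p1 a) (wv p1 b)
      have hRR : R * nS (wv p1 a) ≤ 25 * R := by
        rw [mul_comm 25]
        exact mul_le_mul_of_nonneg_left hna hR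
      have h6 := (cst_mono hf hRR (wv p1 a)).trans (hW a ha).2
      have h7 := (cst_mono hf hRR (wv p1 b)).trans (hW b hb).2
      rw [hE'] at h6 h7
      have h8 : (n : ℝ) ≤ 119 * (1 + k) := by
        have : n ≤ 119 * (1 + k) := by omega
        exact_mod_cast this
      have hCE : 0 ≤ C0 * E := mul_nonneg hC0 hE0
      calc cst f R ((wv p1 a)⁻¹ * wv p1 b) ≤ 4 * (C0 * n * E) := by linarith
        _ = 4 * (C0 * E) * n := by ring
        _ ≤ 4 * (C0 * E) * (119 * (1 + k)) := mul_le_mul_of_nonneg_left h8 (by positivity)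
        _ = 476 * C0 * E * (1 + k) := by ring
  -- counting
  set J1 : Finset ℕ := J.filter (fun j => 14 + M / 2 ≤ j) with hJ1
  have hJ1card : M ≤ J1.card + (14 + M / 2) := by
    have h1 : J ⊆ J1 ∪ Finset.range (14 + M / 2) := by
      intro j hj
      by_cases h : 14 + M / 2 ≤ j
      · exact Finset.mem_union_left _ (Finset.mem_filter.2 ⟨hj, h⟩)
      · exact Finset.mem_union_right _ (Finset.mem_range.2 (not_le.1 h))
    have h2 := (Finset.card_le_card h1).trans (Finset.card_union_le _ _)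
    rw [hJcard, Finset.card_range] at h2
    exact h2
  have hinj13 : Set.InjOn (fun j : ℕ => j - 13) (J1 : Set ℕ) := by
    intro j hj j' hj' h
    have h1 := (Finset.mem_filter.1 (Finset.mem_coe.1 hj)).2
    have h2 := (Finset.mem_filter.1 (Finset.mem_coe.1 hj')).2
    simp only at h
    omega
  have hle : J1.card ≤ Nat.card {k : ℕ | k ∈ Sc H f R (476 * C0 * E) ∧ 1 ≤ k ∧ k ≤ m} := by
    rw [← Finset.card_image_of_injOn hinj13, ← Set.ncard_coe_finset]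
    change _ ≤ Set.ncard {k : ℕ | k ∈ Sc H f R (476 * C0 * E) ∧ 1 ≤ k ∧ k ≤ m}
    refine Set.ncard_le_ncard ?_ ((Set.finite_Icc 1 m).subset fun k hk => ⟨hk.2.1, hk.2.2⟩)
    intro k hk
    obtain ⟨j, hj, rfl⟩ := Finset.mem_image.1 (Finset.mem_coe.1 hk)
    have h1 := Finset.mem_filter.1 hj
    exact key j h1.1 h1.2
  have hle' : (J1.card : ℝ) ≤
      (Nat.card {k : ℕ | k ∈ Sc H f R (476 * C0 * E) ∧ 1 ≤ k ∧ k ≤ m} : ℝ) := by
    exact_mod_cast hle
  refine le_trans ?_ hle'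
  have r1 : (n : ℝ) ≤ 80 * J1.card + 1200 := by
    have : n ≤ 80 * J1.card + 1200 := by omega
    exact_mod_cast this
  have r2 : (m : ℝ) < D' * (n + 1) := by
    have h1 : m < D' * (n + 1) := by
      rw [hn]
      exact Nat.lt_mul_div_succ m hD'pos
    exact_mod_cast h1
  have r3 : (D' : ℝ) * 2600 ≤ m := by
    have h1 : D' * 2600 ≤ m := le_trans (Nat.mul_le_mul_left _ (by omega)) hm
    exact_mod_cast h1
  have r4 : (m : ℝ) < D' * (80 * J1.card + 1201) := by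
    refine r2.trans_le (mul_le_mul_of_nonneg_left ?_ hD'0.le)
    linarith
  rw [div_mul_eq_mul_div, one_mul, div_le_iff₀ (by positivity)]
  nlinarith

end Pool.Agent.SZ
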