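import Pool.Agent.SZ.L_CHB
import Pool.Agent.SZ.L_CNT

/-!
# L_MWD: many cheap words

`ε, c` from `many`.  `C = 4 Ip / Iq`.  Let `E = ∑_l cst f (25 R) (qv p l) ≥ 0` and
`W0 = {w ∈ WS n : kap p w ≠ 0, cst f R (wv p w) ≤ C n E}`.
The mass of `WS n \ W0` is at most `Zm/2`: words with `kap = 0` have no mass; let
`B = {w ∈ WS n : C n E < cst f R (wv p w)}`.  `∑_B kap * cst ≤ n Ip E` (`lin_cost`).  If `E = 0`: each
`kap * cst ≤ 0` with `cst > 0`, so `kap = 0` on `B`.  If `E > 0`: `C n E ∑_B kap ≤ n Ip E` so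
`∑_B kap ≤ Ip / C = Iq/4 ≤ Zm/2`.  With `kap_sum`: `∑_{W0} kap ≥ Zm/2`.
By `many` the image of `W0` under `FreeGroup.mk` has at least `c 1.09^n` elements; choose one word
for each element of the image (`Finset.exists_subset_image_eq_card` or
`Finset.exists_injOn_image_eq`-like; or use a section): `W ⊆ W0`, `FreeGroup.mk` injective on `W`,
same image.  `kap_bd` gives `nS (wv p w) ≤ 25`.
-/

set_option autoImplicit false

namespace Pool.Agent.SZ

open Pool.Agent.IRS MeasureTheory Set Filter Topology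

theorem many_words : ∃ ε : ℝ, 0 < ε ∧ ε ≤ 1 / 2 ∧ ∃ c : ℝ, 0 < c ∧ ∃ C : ℝ, 0 ≤ C ∧
    ∀ p : Fin 2 → SL2R, (∀ i, d1 (p i) ≤ ε) → ∀ f : SL2R → ℝ, BM f → ∀ R : ℝ, 0 ≤ R →
      ∀ n : ℕ, 1 ≤ n → ∃ W : Finset (List Lt), W ⊆ WS n ∧
        (∀ w ∈ W, ∀ w' ∈ W, (FreeGroup.mk w : FreeGroup (Fin 2)) = FreeGroup.mk w' → w = w') ∧
        c * (1.09 : ℝ) ^ n ≤ (W.card : ℝ) ∧
        ∀ w ∈ W, nS (wv p w) ≤ 25 ∧
          cst f R (wv p w) ≤ C * n * ∑ l : Lt, cst f (25 * R) (qv p l) := by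
  classical
  obtain ⟨ε, hε0, hε1, c, hc, hmany⟩ := many
  have hIp := Ip_pos
  have hIq := Iq_pos
  refine ⟨ε, hε0, hε1, c, hc, 4 * Ip / Iq, by positivity, ?_⟩
  intro p hp f hf R hR n hn
  obtain ⟨hZ, hcount⟩ := hmany p hp
  set E : ℝ := ∑ l : Lt, cst f (25 * R) (qv p l) with hE
  have hE0 : 0 ≤ E := Finset.sum_nonneg fun l _ => cst_nonneg _ _ _
  have hn0 : (0 : ℝ) < n := by exact_mod_cast hn
  have hlin := lin_cost p hf hR n
  rw [← hE] at hlin
  set W0 : Finset (List Lt) :=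
    (WS n).filter (fun w => kap p w ≠ 0 ∧ cst f R (wv p w) ≤ 4 * Ip / Iq * n * E) with hW0
  set B : Finset (List Lt) :=
    (WS n).filter (fun w => 4 * Ip / Iq * n * E < cst f R (wv p w)) with hB
  have hsplit : Zm p ≤ ∑ w ∈ W0, kap p w + ∑ w ∈ B, kap p w := by
    rw [← kap_sum p n, hW0, hB, Finset.sum_filter, Finset.sum_filter, ← Finset.sum_add_distrib]
    refine Finset.sum_le_sum fun w _ => ?_
    have hk := kap_nonneg p w
    by_cases h1 : kap p w = 0
    · simp [h1]
    · by_cases h2 : cst f R (wv p w) ≤ 4 * Ip / Iq * n * E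
      · rw [if_pos ⟨h1, h2⟩, if_neg (not_lt.2 h2), add_zero]
      · rw [if_neg (fun h => h2 h.2), if_pos (not_le.1 h2), zero_add]
  have hBsum : ∑ w ∈ B, kap p w * cst f R (wv p w) ≤ n * (Ip * E) := by
    refine le_trans ?_ hlin
    refine Finset.sum_le_sum_of_subset_of_nonneg (Finset.filter_subset _ _) ?_
    intro w _ _
    exact mul_nonneg (kap_nonneg p w) (cst_nonneg _ _ _)
  have hBk : ∑ w ∈ B, kap p w ≤ Zm p / 2 := by
    rcases hE0.eq_or_lt with h0 | h0
    · have hz : ∀ w ∈ B, kap p w * cst f R (wv p w) = 0 := by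
        have h1 : ∑ w ∈ B, kap p w * cst f R (wv p w) = 0 := by
          refine le_antisymm ?_ (Finset.sum_nonneg fun w _ =>
            mul_nonneg (kap_nonneg p w) (cst_nonneg _ _ _))
          rw [← h0] at hBsum
          simpa using hBsum
        exact (Finset.sum_eq_zero_iff_of_nonneg (fun w _ =>
          mul_nonneg (kap_nonneg p w) (cst_nonneg _ _ _))).1 h1
      have h2 : ∑ w ∈ B, kap p w = 0 := by
        refine Finset.sum_eq_zero fun w hw => ?_
        have h3 := hz w hw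
        have h4 : 0 < cst f R (wv p w) := by
          have := (Finset.mem_filter.1 hw).2
          rw [← h0, mul_zero] at this
          exact this
        rcases mul_eq_zero.1 h3 with h5 | h5
        · exact h5
        · exact absurd h5 h4.ne'
      rw [h2]
      linarith
    · have h1 : 4 * Ip / Iq * n * E * ∑ w ∈ B, kap p w ≤ n * (Ip * E) := by
        refine le_trans ?_ hBsum
        rw [Finset.mul_sum]
        refine Finset.sum_le_sum fun w hw => ?_
        rw [mul_comm]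
        exact mul_le_mul_of_nonneg_left (Finset.mem_filter.1 hw).2.le (kap_nonneg p w)
      have h2 : 0 < n * (Ip * E) := by positivity
      have h3 : n * (Ip * E) * (4 / Iq * ∑ w ∈ B, kap p w) ≤ n * (Ip * E) * 1 := by
        calc n * (Ip * E) * (4 / Iq * ∑ w ∈ B, kap p w)
            = 4 * Ip / Iq * n * E * ∑ w ∈ B, kap p w := by ring
          _ ≤ n * (Ip * E) := h1
          _ = n * (Ip * E) * 1 := (mul_one _).symm
      have h4 := le_of_mul_le_mul_left h3 h2
      have h5 : ∑ w ∈ B, kap p w ≤ Iq / 4 := by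
        have h6 : 4 / Iq * ∑ w ∈ B, kap p w = (∑ w ∈ B, kap p w) / (Iq / 4) := by
          field_simp
        rw [h6, div_le_one (by positivity)] at h4
        exact h4
      linarith
  have hW0k : Zm p / 2 ≤ ∑ w ∈ W0, kap p w := by linarith
  have hcard := hcount n hn W0 (Finset.filter_subset _ _) hW0k
  obtain ⟨s', hs', hbij⟩ := Set.exists_subset_bijOn (W0 : Set (List Lt))
    (fun w => (FreeGroup.mk w : FreeGroup (Fin 2)))
  have hinj := hbij.injOn
  refine ⟨W0.filter (fun w => w ∈ s'), ?_, ?_, ?_, ?_⟩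
  · exact (Finset.filter_subset _ _).trans (Finset.filter_subset _ _)
  · intro w hw w' hw' h
    exact hinj (Finset.mem_filter.1 hw).2 (Finset.mem_filter.1 hw').2 h
  · refine hcard.trans ?_
    have h1 : W0.image (fun w => (FreeGroup.mk w : FreeGroup (Fin 2)))
        ⊆ (W0.filter (fun w => w ∈ s')).image
          (fun w => (FreeGroup.mk w : FreeGroup (Fin 2))) := by
      intro v hv
      obtain ⟨w, hw, rfl⟩ := Finset.mem_image.1 hv
      obtain ⟨u, hu, hu'⟩ := hbij.surjOn ⟨w, hw, rfl⟩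
      refine Finset.mem_image.2 ⟨u, Finset.mem_filter.2 ⟨?_, hu⟩, hu'⟩
      exact Finset.mem_coe.1 (hs' hu)
    exact_mod_cast (Finset.card_le_card h1).trans Finset.card_image_le
  · intro w hw
    have h1 := (Finset.mem_filter.1 (Finset.mem_filter.1 hw).1).2
    exact ⟨kap_bd p h1.1, h1.2⟩

end Pool.Agent.SZ
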