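import Pool.Agent.SZ.L_DST

/-!
# L_PHI: the profile

* `ph_zero`: `3 ≤ xx x → ph x = 0`.  `ph_ne`: `ph x ≠ 0 → nS x ≤ 5` (`nS_sq_le`: `nS² ≤ 8 * 3 = 24`).
* `ph_le`: `one_le_xx`.  `measurable_ph`, from `measurable_xx`.
* `ph_mul_int`: `x ↦ ph x * F x` is integrable for `F` measurable and bounded: it is bounded by
  `2 M` and vanishes off `Bn 5`, which has finite measure (`mH_ball_lt`).  (Like `wp_integrable` in
  `Nuk.lean`.)
* `ph_lip`: `|ph (x * q) - ph x| ≤ 50 * d1 q` if `d1 q ≤ 1`: `|max 0 s - max 0 t| ≤ |s - t|`.  If both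
  values are `0` it is trivial.  If `xx x < 3`, then `nS x ≤ 5`, `Δ = x q - x = x (q - 1)` has
  `nM Δ ≤ 5 d1 q`, and `|xx (x q) - xx x| ≤ nS x * nM Δ + (nM Δ)^2 / 2 ≤ 25 d + 12.5 d²`
  (`(s + δ)² - s² = 2 s δ + δ²` for each entry).  If `xx (x q) < 3` apply this to `x q` and `q⁻¹`
  (`d1_inv`).
* `Ph`: the average of the four values, so nonnegative, at most `2`, measurable
  (`measurable_mul_const`), and `|Ph p x - ph x| ≤ 50 ε` if `d1 (p i) ≤ ε ≤ 1` (`d1_inv` for the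
  inverse letters).
* `Ip_pos`, `Iq_pos`: `ph` is continuous (or: positive on the open set `xx x < 3` which contains `1`,
  `xx_one`), like `wp_int_pos`.
-/

set_option autoImplicit false

namespace Pool.Agent.SZ

open Pool.Agent.IRS MeasureTheory Set Filter Topology

/-- The integral of the profile. -/
noncomputable def Ip : ℝ := ∫ x, ph x ∂mH

/-- The integral of the square of the profile. -/
noncomputable def Iq : ℝ := ∫ x, ph x * ph x ∂mH

theorem ph_nonneg (x : SL2R) : 0 ≤ ph x := le_max_left _ _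

theorem ph_le (x : SL2R) : ph x ≤ 2 :=
  max_le (by norm_num) (by linarith [one_le_xx x])

theorem ph_zero {x : SL2R} (h : 3 ≤ xx x) : ph x = 0 := max_eq_left (by linarith)

theorem ph_ne {x : SL2R} (h : ph x ≠ 0) : nS x ≤ 5 := by
  have h1 : xx x < 3 := by
    by_contra hc
    exact h (ph_zero (not_lt.1 hc))
  have h2 := nS_sq_le x
  have h3 := nS_pos x
  nlinarith

theorem measurable_ph : Measurable ph :=
  measurable_const.max (measurable_const.sub measurable_xx)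

theorem ph_mul_int {F : SL2R → ℝ} (hF : BM F) : Integrable (fun x => ph x * F x) mH := by
  obtain ⟨hm, M, hM⟩ := hF
  have hM0 : 0 ≤ M := (abs_nonneg _).trans (hM 1)
  have hB : MeasurableSet {g : SL2R | nS g ≤ 5} := measurableSet_le measurable_nS measurable_const
  have h1 : Integrable (Set.indicator {g : SL2R | nS g ≤ 5} (fun _ => (2 * M : ℝ))) mH :=
    (integrable_indicator_iff hB).2 (integrableOn_const (mH_ball_lt 5).ne)
  refine h1.mono' (measurable_ph.mul hm).aestronglyMeasurable ?_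
  filter_upwards with g
  rw [Real.norm_eq_abs, abs_mul, abs_of_nonneg (ph_nonneg g)]
  by_cases hg : nS g ≤ 5
  · rw [Set.indicator_of_mem (by exact hg)]
    exact mul_le_mul (ph_le g) (hM g) (abs_nonneg _) (by norm_num)
  · rw [Set.indicator_of_notMem (by exact hg)]
    have h0 : ph g = 0 := by
      by_contra hc
      exact hg (ph_ne hc)
    rw [h0, zero_mul]

lemma xx_mul_close (x : SL2R) {q : SL2R} (hx : xx x < 3) (hq : d1 q ≤ 1) :
    |xx (x * q) - xx x| ≤ 50 * d1 q := by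
  have hd0 := d1_nonneg q
  have hnx : nS x ≤ 5 := by
    have h2 := nS_sq_le x
    have h3 := nS_pos x
    nlinarith
  set Δ : Matrix (Fin 2) (Fin 2) ℝ :=
    (x : Matrix (Fin 2) (Fin 2) ℝ) * ((q : Matrix (Fin 2) (Fin 2) ℝ) - 1) with hΔ
  have hΔn : nM Δ ≤ 5 * d1 q := by
    refine (nM_mul_le _ _).trans ?_
    change nS x * d1 q ≤ 5 * d1 q
    exact mul_le_mul_of_nonneg_right hnx hd0
  have hent : ∀ i j, (x * q) i j = x i j + Δ i j := by
    intro i j
    have : (((x * q : SL2R)) : Matrix (Fin 2) (Fin 2) ℝ)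
        = (x : Matrix (Fin 2) (Fin 2) ℝ) + Δ := by
      rw [hΔ, Matrix.SpecialLinearGroup.coe_mul, mul_sub, mul_one]; abel
    exact congrFun (congrFun this i) j
  have hN0 : 0 ≤ nM Δ := nM_nonneg Δ
  have hxS : |x 0 0| + |x 0 1| + |x 1 0| + |x 1 1| ≤ 5 := hnx
  have hDS : nM Δ = |Δ 0 0| + |Δ 0 1| + |Δ 1 0| + |Δ 1 1| := rfl
  have e : xx (x * q) - xx x = (x 0 0 * Δ 0 0 + x 0 1 * Δ 0 1 + x 1 0 * Δ 1 0 + x 1 1 * Δ 1 1)
      + (Δ 0 0 ^ 2 + Δ 0 1 ^ 2 + Δ 1 0 ^ 2 + Δ 1 1 ^ 2) / 2 := by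
    unfold xx
    rw [hent, hent, hent, hent]
    ring
  have a0 := abs_nonneg (x 0 0)
  have a1 := abs_nonneg (x 0 1)
  have a2 := abs_nonneg (x 1 0)
  have a3 := abs_nonneg (x 1 1)
  have b0 := abs_nonneg (Δ 0 0)
  have b1 := abs_nonneg (Δ 0 1)
  have b2 := abs_nonneg (Δ 1 0)
  have b3 := abs_nonneg (Δ 1 1)
  have h1 : |x 0 0 * Δ 0 0 + x 0 1 * Δ 0 1 + x 1 0 * Δ 1 0 + x 1 1 * Δ 1 1| ≤ 5 * nM Δ := by
    calc |x 0 0 * Δ 0 0 + x 0 1 * Δ 0 1 + x 1 0 * Δ 1 0 + x 1 1 * Δ 1 1|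
        ≤ |x 0 0 * Δ 0 0| + |x 0 1 * Δ 0 1| + |x 1 0 * Δ 1 0| + |x 1 1 * Δ 1 1| := by
          refine (abs_add_le _ _).trans (add_le_add_left ?_ _)
          refine (abs_add_le _ _).trans (add_le_add_left ?_ _)
          exact abs_add_le _ _
      _ = |x 0 0| * |Δ 0 0| + |x 0 1| * |Δ 0 1| + |x 1 0| * |Δ 1 0| + |x 1 1| * |Δ 1 1| := by
          rw [abs_mul, abs_mul, abs_mul, abs_mul]
      _ ≤ (|x 0 0| + |x 0 1| + |x 1 0| + |x 1 1|) * nM Δ := by
          rw [hDS]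
          nlinarith [mul_nonneg a0 b1, mul_nonneg a0 b2, mul_nonneg a0 b3, mul_nonneg a1 b0,
            mul_nonneg a1 b2, mul_nonneg a1 b3, mul_nonneg a2 b0, mul_nonneg a2 b1,
            mul_nonneg a2 b3, mul_nonneg a3 b0, mul_nonneg a3 b1, mul_nonneg a3 b2]
      _ ≤ 5 * nM Δ := mul_le_mul_of_nonneg_right hxS hN0
  have h2 : Δ 0 0 ^ 2 + Δ 0 1 ^ 2 + Δ 1 0 ^ 2 + Δ 1 1 ^ 2 ≤ nM Δ ^ 2 := by
    rw [hDS, ← sq_abs (Δ 0 0), ← sq_abs (Δ 0 1), ← sq_abs (Δ 1 0), ← sq_abs (Δ 1 1)]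
    nlinarith [mul_nonneg b0 b1, mul_nonneg b0 b2, mul_nonneg b0 b3, mul_nonneg b1 b2,
      mul_nonneg b1 b3, mul_nonneg b2 b3]
  have h3 : 0 ≤ Δ 0 0 ^ 2 + Δ 0 1 ^ 2 + Δ 1 0 ^ 2 + Δ 1 1 ^ 2 := by positivity
  have h4 : nM Δ ^ 2 ≤ (5 * d1 q) ^ 2 := pow_le_pow_left₀ hN0 hΔn 2
  rw [e]
  refine (abs_add_le _ _).trans ?_
  rw [abs_of_nonneg (by positivity : (0 : ℝ) ≤
    (Δ 0 0 ^ 2 + Δ 0 1 ^ 2 + Δ 1 0 ^ 2 + Δ 1 1 ^ 2) / 2)]
  nlinarith

theorem ph_lip (x : SL2R) {q : SL2R} (hq : d1 q ≤ 1) : |ph (x * q) - ph x| ≤ 50 * d1 q := by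
  have hd0 := d1_nonneg q
  have hmax : |ph (x * q) - ph x| ≤ |xx (x * q) - xx x| := by
    unfold ph
    rw [max_comm, max_comm (0 : ℝ)]
    refine (abs_max_sub_max_le_abs _ _ _).trans ?_
    rw [sub_sub_sub_cancel_left, abs_sub_comm]
  by_cases h1 : xx x < 3
  · exact hmax.trans (xx_mul_close x h1 hq)
  · by_cases h2 : xx (x * q) < 3
    · have h3 := xx_mul_close (x * q) (q := q⁻¹) h2 (by rw [d1_inv]; exact hq)
      rw [mul_inv_cancel_right, d1_inv, abs_sub_comm] at h3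
      exact hmax.trans h3
    · rw [ph_zero (not_lt.1 h1), ph_zero (not_lt.1 h2), sub_zero, abs_zero]
      positivity

theorem qv_d1 {p : Fin 2 → SL2R} {ε : ℝ} (h : ∀ i, d1 (p i) ≤ ε) (l : Lt) :
    d1 (qv p l) ≤ ε := by
  unfold qv
  split_ifs
  · exact h _
  · rw [d1_inv]; exact h _

theorem Ph_nonneg (p : Fin 2 → SL2R) (x : SL2R) : 0 ≤ Ph p x := by
  unfold Ph
  exact div_nonneg (Finset.sum_nonneg fun l _ => ph_nonneg _) (by norm_num)

lemma card_Lt : (Finset.univ : Finset Lt).card = 4 := by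
  simp [Lt]

theorem Ph_le (p : Fin 2 → SL2R) (x : SL2R) : Ph p x ≤ 2 := by
  unfold Ph
  have h := Finset.sum_le_card_nsmul (Finset.univ : Finset Lt) (fun l => ph (x * qv p l)) 2
    (fun l _ => ph_le _)
  rw [card_Lt] at h
  norm_num at h
  linarith

theorem measurable_Ph (p : Fin 2 → SL2R) : Measurable (Ph p) := by
  unfold Ph
  refine Measurable.div_const ?_ _
  refine Finset.measurable_sum _ fun l _ => ?_
  exact measurable_ph.comp (measurable_mul_const _)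

theorem Ph_close {p : Fin 2 → SL2R} {ε : ℝ} (hε : ε ≤ 1) (h : ∀ i, d1 (p i) ≤ ε) (x : SL2R) :
    |Ph p x - ph x| ≤ 50 * ε := by
  have e : Ph p x - ph x = (∑ l : Lt, (ph (x * qv p l) - ph x)) / 4 := by
    unfold Ph
    rw [Finset.sum_sub_distrib, Finset.sum_const, card_Lt]
    norm_num
    ring
  have h1 : |∑ l : Lt, (ph (x * qv p l) - ph x)| ≤ 4 * (50 * ε) := by
    refine (Finset.abs_sum_le_sum_abs _ _).trans ?_
    have h2 := Finset.sum_le_card_nsmul (Finset.univ : Finset Lt)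
      (fun l => |ph (x * qv p l) - ph x|) (50 * ε) (fun l _ => by
        have h3 := qv_d1 h l
        exact (ph_lip x (h3.trans hε)).trans (by linarith))
    rw [card_Lt] at h2
    simpa using h2
  rw [e, abs_div, abs_of_pos (by norm_num : (0 : ℝ) < 4)]
  linarith

lemma BM_ph : BM ph := ⟨measurable_ph, 2, fun b => by
  rw [abs_of_nonneg (ph_nonneg b)]; exact ph_le b⟩

lemma supp_ph_pos : 0 < mH {g : SL2R | xx g < 3} := by
  have hc : Continuous xx := by
    have hcont : Continuous (fun g : SL2R => (g : Matrix (Fin 2) (Fin 2) ℝ)) :=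
      continuous_subtype_val
    unfold xx
    exact (((((hcont.matrix_elem 0 0).pow 2).add ((hcont.matrix_elem 0 1).pow 2)).add
      ((hcont.matrix_elem 1 0).pow 2)).add ((hcont.matrix_elem 1 1).pow 2)).div_const 2
  have hU : IsOpen {g : SL2R | xx g < 3} := isOpen_lt hc continuous_const
  refine mH_open_pos hU ⟨1, ?_⟩
  change xx 1 < 3
  rw [xx_one]; norm_num

theorem Ip_pos : 0 < Ip := by
  unfold Ip
  have hi : Integrable ph mH := by
    have := ph_mul_int (F := fun _ => (1 : ℝ)) ⟨measurable_const, 1, fun _ => by simp⟩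
    simpa using this
  rw [integral_pos_iff_support_of_nonneg (fun g => ph_nonneg g) hi]
  refine lt_of_lt_of_le supp_ph_pos (measure_mono ?_)
  intro g hg
  have hg' : xx g < 3 := hg
  rw [Function.mem_support]
  unfold ph
  exact (lt_max_of_lt_right (by linarith)).ne'

theorem Iq_pos : 0 < Iq := by
  unfold Iq
  rw [integral_pos_iff_support_of_nonneg (fun g => mul_nonneg (ph_nonneg g) (ph_nonneg g))
    (ph_mul_int BM_ph)]
  refine lt_of_lt_of_le supp_ph_pos (measure_mono ?_)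
  intro g hg
  have hg' : xx g < 3 := hg
  rw [Function.mem_support]
  have h1 : 0 < ph g := lt_max_of_lt_right (by linarith)
  positivity

end Pool.Agent.SZ
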