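import Pool.Agent.SZ.L_CHS
import Pool.Agent.SZ.L_ENT

/-!
# L_PSM: the sum of `gl` along the path

`gs p x (l :: w) = gl p x + gs p (x q_l) w`.  Everything is done with `lintegral`; the final bound
gives the integrability of each `pd * ww * gs`, and the real inequality.
-/

set_option autoImplicit false

namespace Pool.Agent.SZ

open Pool.Agent.IRS MeasureTheory Set Filter Topology

theorem gs_nonneg (p : Fin 2 → SL2R) (x : SL2R) (w : List Lt) : 0 ≤ gs p x w := by
  induction w generalizing x with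
  | nil => exact le_of_eq rfl
  | cons l w ih => exact add_nonneg (gl_nonneg p x) (ih _)

theorem gs_meas (p : Fin 2 → SL2R) (w : List Lt) : Measurable (fun x => gs p x w) := by
  induction w with
  | nil => exact measurable_const
  | cons l w ih => exact (gl_meas p).add (ih.comp (measurable_mul_const _))

lemma LPSM_pd_meas (p : Fin 2 → SL2R) : Measurable (pd p) := measurable_ph.mul (measurable_Ph p)

lemma LPSM_cd_meas (p : Fin 2 → SL2R) (l : Lt) : Measurable (fun x => cd p x l) :=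
  (measurable_ph.mul (measurable_ph.comp (measurable_mul_const _))).div_const 4

lemma LPSM_cd_nonneg (p : Fin 2 → SL2R) (x : SL2R) (l : Lt) : 0 ≤ cd p x l := by
  unfold cd
  have := mul_nonneg (ph_nonneg x) (ph_nonneg (x * qv p l))
  linarith

lemma LPSM_cd_sum (p : Fin 2 → SL2R) (x : SL2R) : ∑ l : Lt, cd p x l = pd p x := by
  unfold cd pd Ph
  rw [← Finset.sum_div, ← Finset.mul_sum, mul_div_assoc]

lemma LPSM_flip_sum (F : Lt → ENNReal) : ∑ l : Lt, F (l.1, !l.2) = ∑ l : Lt, F l := by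
  refine Fintype.sum_equiv ⟨fun l => (l.1, !l.2), fun l => (l.1, !l.2), ?_, ?_⟩ _ _ ?_
  · intro l; simp
  · intro l; simp
  · intro l; rfl

/-- Invariance, with values in `ENNReal`. -/
lemma LPSM_inv (p : Fin 2 → SL2R) {S : SL2R → ENNReal} (hS : Measurable S) :
    ∑ l : Lt, ∫⁻ x, ENNReal.ofReal (cd p x l) * S (x * qv p l) ∂mH
      = ∫⁻ x, ENNReal.ofReal (pd p x) * S x ∂mH := by
  have h1 : ∀ l : Lt, ∫⁻ x, ENNReal.ofReal (cd p x l) * S (x * qv p l) ∂mH
      = ∫⁻ x, ENNReal.ofReal (cd p x (l.1, !l.2)) * S x ∂mH := by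
    intro l
    have hm : Measurable (fun x => ENNReal.ofReal (cd p x (l.1, !l.2)) * S x) :=
      (LPSM_cd_meas p _).ennreal_ofReal.mul hS
    rw [← (mp_right (qv p l)).lintegral_comp hm]
    refine lintegral_congr fun x => ?_
    congr 2
    unfold cd
    rw [qv_inv, mul_inv_cancel_right]
    ring
  rw [Finset.sum_congr rfl (fun l _ => h1 l),
    LPSM_flip_sum (fun l => ∫⁻ x, ENNReal.ofReal (cd p x l) * S x ∂mH)]
  have h2 : ∫⁻ x, ∑ l : Lt, ENNReal.ofReal (cd p x l) * S x ∂mH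
      = ∑ l : Lt, ∫⁻ x, ENNReal.ofReal (cd p x l) * S x ∂mH :=
    lintegral_finsetSum _ (fun l _ => (LPSM_cd_meas p l).ennreal_ofReal.mul hS)
  rw [← h2]
  refine lintegral_congr fun x => ?_
  rw [← Finset.sum_mul, ← ENNReal.ofReal_sum_of_nonneg (fun l _ => LPSM_cd_nonneg p x l),
    LPSM_cd_sum]

/-- The path sum, with values in `ENNReal`. -/
noncomputable def LPSM_T (p : Fin 2 → SL2R) (n : ℕ) (x : SL2R) : ENNReal :=
  ∑ w ∈ WS n, ENNReal.ofReal (ww p x w * gs p x w)

lemma LPSM_T_meas (p : Fin 2 → SL2R) (n : ℕ) : Measurable (LPSM_T p n) :=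
  Finset.measurable_sum _ fun w _ => ((meas_ww p w).mul (gs_meas p w)).ennreal_ofReal

lemma LPSM_ESum (n : ℕ) (F : List Lt → ENNReal) :
    ∑ w ∈ WS (n + 1), F w = ∑ l : Lt, ∑ w ∈ WS n, F (l :: w) := by
  change ∑ w ∈ ((Finset.univ : Finset Lt) ×ˢ WS n).image (fun x => x.1 :: x.2), F w = _
  rw [Finset.sum_image, Finset.sum_product]
  rintro ⟨a, u⟩ _ ⟨b, v⟩ _ h
  simp only [List.cons.injEq] at h
  exact Prod.ext h.1 h.2

lemma LPSM_step (p : Fin 2 → SL2R) (n : ℕ) (x : SL2R) :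
    LPSM_T p (n + 1) x ≤ ENNReal.ofReal (gl p x)
      + ∑ l : Lt, ENNReal.ofReal (tr p x l) * LPSM_T p n (x * qv p l) := by
  unfold LPSM_T
  rw [LPSM_ESum]
  have h1 : ∀ l : Lt, ∑ w ∈ WS n, ENNReal.ofReal (ww p x (l :: w) * gs p x (l :: w))
      ≤ ENNReal.ofReal (tr p x l) * ENNReal.ofReal (gl p x)
        + ENNReal.ofReal (tr p x l)
          * ∑ w ∈ WS n, ENNReal.ofReal (ww p (x * qv p l) w * gs p (x * qv p l) w) := by
    intro l
    have h2 : ∀ w, ENNReal.ofReal (ww p x (l :: w) * gs p x (l :: w))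
        = ENNReal.ofReal (tr p x l) * (ENNReal.ofReal (gl p x)
            * ENNReal.ofReal (ww p (x * qv p l) w))
          + ENNReal.ofReal (tr p x l)
            * ENNReal.ofReal (ww p (x * qv p l) w * gs p (x * qv p l) w) := by
      intro w
      have h3 := tr_nonneg p x l
      have h4 := ww_nonneg p (x * qv p l) w
      have h5 := gl_nonneg p x
      have h6 := gs_nonneg p (x * qv p l) w
      rw [← ENNReal.ofReal_mul h5, ← ENNReal.ofReal_mul h3, ← ENNReal.ofReal_mul h3,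
        ← ENNReal.ofReal_add (by positivity) (by positivity)]
      congr 1
      change tr p x l * ww p (x * qv p l) w * (gl p x + gs p (x * qv p l) w) = _
      ring
    rw [Finset.sum_congr rfl (fun w _ => h2 w), Finset.sum_add_distrib, ← Finset.mul_sum,
      ← Finset.mul_sum, ← Finset.mul_sum]
    gcongr
    rw [← ENNReal.ofReal_sum_of_nonneg (fun w _ => ww_nonneg p _ w)]
    calc ENNReal.ofReal (gl p x) * ENNReal.ofReal (∑ w ∈ WS n, ww p (x * qv p l) w)
        ≤ ENNReal.ofReal (gl p x) * ENNReal.ofReal 1 := by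
          gcongr
          exact ww_sum_le p _ n
      _ = ENNReal.ofReal (gl p x) := by rw [ENNReal.ofReal_one, mul_one]
  refine (Finset.sum_le_sum fun l _ => h1 l).trans ?_
  rw [Finset.sum_add_distrib, ← Finset.sum_mul]
  gcongr
  rw [← ENNReal.ofReal_sum_of_nonneg (fun l _ => tr_nonneg p x l)]
  calc ENNReal.ofReal (∑ l : Lt, tr p x l) * ENNReal.ofReal (gl p x)
      ≤ ENNReal.ofReal 1 * ENNReal.ofReal (gl p x) := by
        gcongr
        exact tr_sum_le p x
    _ = ENNReal.ofReal (gl p x) := by rw [ENNReal.ofReal_one, one_mul]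

lemma LPSM_bound {p : Fin 2 → SL2R} {ε : ℝ} (hε0 : 0 ≤ ε) (hε : ε ≤ 1) (h : ∀ i, d1 (p i) ≤ ε)
    (n : ℕ) : ∫⁻ x, ENNReal.ofReal (pd p x) * LPSM_T p n x ∂mH
      ≤ ENNReal.ofReal (n * (50 * ε * Ip)) := by
  induction n with
  | zero =>
    have : ∀ x, LPSM_T p 0 x = 0 := by
      intro x
      simp [LPSM_T, WS, gs]
    simp [this]
  | succ n ih =>
    have hIp : 0 ≤ Ip := Ip_pos.le
    have hph : Integrable ph mH := by
      have := ph_mul_int (BM.const 1)
      simpa using this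
    have h0 : ∫⁻ x, ENNReal.ofReal (pd p x) * ENNReal.ofReal (gl p x) ∂mH
        ≤ ENNReal.ofReal (50 * ε * Ip) := by
      have h1 : ENNReal.ofReal (50 * ε * Ip) = ∫⁻ x, ENNReal.ofReal (ph x * (50 * ε)) ∂mH := by
        rw [← ofReal_integral_eq_lintegral_ofReal (hph.mul_const _)
          (Filter.Eventually.of_forall fun x => mul_nonneg (ph_nonneg x) (by positivity)),
          integral_mul_const]
        congr 1
        unfold Ip
        ring
      rw [h1]
      refine lintegral_mono fun x => ?_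
      rw [← ENNReal.ofReal_mul (pd_nonneg p x)]
      exact ENNReal.ofReal_le_ofReal (pd_gl_le hε h x)
    have h2 : ∀ x, ENNReal.ofReal (pd p x) * LPSM_T p (n + 1) x
        ≤ ENNReal.ofReal (pd p x) * ENNReal.ofReal (gl p x)
          + ∑ l : Lt, ENNReal.ofReal (cd p x l) * LPSM_T p n (x * qv p l) := by
      intro x
      refine (mul_le_mul_right (LPSM_step p n x) _).trans ?_
      rw [mul_add, Finset.mul_sum]
      refine add_le_add le_rfl (Finset.sum_le_sum fun l _ => ?_)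
      rw [← mul_assoc, ← ENNReal.ofReal_mul (pd_nonneg p x), cd_eq]
    refine (lintegral_mono h2).trans ?_
    have h3 : ∫⁻ x, (ENNReal.ofReal (pd p x) * ENNReal.ofReal (gl p x)
          + ∑ l : Lt, ENNReal.ofReal (cd p x l) * LPSM_T p n (x * qv p l)) ∂mH
        = ∫⁻ x, ENNReal.ofReal (pd p x) * ENNReal.ofReal (gl p x) ∂mH
          + ∫⁻ x, ∑ l : Lt, ENNReal.ofReal (cd p x l) * LPSM_T p n (x * qv p l) ∂mH :=
      lintegral_add_left ((LPSM_pd_meas p).ennreal_ofReal.mul (gl_meas p).ennreal_ofReal) _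
    have h4 : ∫⁻ x, ∑ l : Lt, ENNReal.ofReal (cd p x l) * LPSM_T p n (x * qv p l) ∂mH
        = ∑ l : Lt, ∫⁻ x, ENNReal.ofReal (cd p x l) * LPSM_T p n (x * qv p l) ∂mH :=
      lintegral_finsetSum _ (fun l _ => (LPSM_cd_meas p l).ennreal_ofReal.mul
        ((LPSM_T_meas p n).comp (measurable_mul_const _)))
    rw [h3, h4, LPSM_inv p (LPSM_T_meas p n)]
    refine (add_le_add h0 ih).trans ?_
    rw [← ENNReal.ofReal_add (by positivity) (by positivity)]
    refine ENNReal.ofReal_le_ofReal (le_of_eq ?_)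
    push_cast
    ring

theorem psum {p : Fin 2 → SL2R} {ε : ℝ} (hε0 : 0 ≤ ε) (hε : ε ≤ 1) (h : ∀ i, d1 (p i) ≤ ε)
    (n : ℕ) :
    (∀ w ∈ WS n, Integrable (fun x => pd p x * ww p x w * gs p x w) mH) ∧
    ∑ w ∈ WS n, ∫ x, pd p x * ww p x w * gs p x w ∂mH ≤ n * (50 * ε * Ip) := by
  have hIp : 0 ≤ Ip := Ip_pos.le
  have hnn : ∀ w x, 0 ≤ pd p x * ww p x w * gs p x w := fun w x =>
    mul_nonneg (mul_nonneg (pd_nonneg p x) (ww_nonneg p x w)) (gs_nonneg p x w)
  have hm : ∀ w, Measurable (fun x => pd p x * ww p x w * gs p x w) := fun w =>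
    ((LPSM_pd_meas p).mul (meas_ww p w)).mul (gs_meas p w)
  have hb := LPSM_bound hε0 hε h n
  have he : ∫⁻ x, ENNReal.ofReal (pd p x) * LPSM_T p n x ∂mH
      = ∑ w ∈ WS n, ∫⁻ x, ENNReal.ofReal (pd p x * ww p x w * gs p x w) ∂mH := by
    rw [← lintegral_finsetSum _ (fun w _ => (hm w).ennreal_ofReal)]
    refine lintegral_congr fun x => ?_
    unfold LPSM_T
    rw [Finset.mul_sum]
    refine Finset.sum_congr rfl fun w _ => ?_
    rw [← ENNReal.ofReal_mul (pd_nonneg p x), mul_assoc]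
  rw [he] at hb
  have hint : ∀ w ∈ WS n, Integrable (fun x => pd p x * ww p x w * gs p x w) mH := by
    intro w hw
    refine ⟨(hm w).aestronglyMeasurable, ?_⟩
    rw [hasFiniteIntegral_iff_ofReal (Filter.Eventually.of_forall (hnn w))]
    refine lt_of_le_of_lt ?_ (lt_of_le_of_lt hb ENNReal.ofReal_lt_top)
    exact Finset.single_le_sum
      (f := fun w => ∫⁻ x, ENNReal.ofReal (pd p x * ww p x w * gs p x w) ∂mH)
      (fun _ _ => zero_le) hw
  refine ⟨hint, ?_⟩
  rw [← ENNReal.ofReal_le_ofReal_iff (by positivity),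
    ENNReal.ofReal_sum_of_nonneg (fun w _ => integral_nonneg (hnn w))]
  refine le_trans (le_of_eq ?_) hb
  refine Finset.sum_congr rfl fun w hw => ?_
  rw [ofReal_integral_eq_lintegral_ofReal (hint w hw) (Filter.Eventually.of_forall (hnn w))]

end Pool.Agent.SZ
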