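import Mathlib

/-!
# L_TRE: the tree lemma in `ℝ^4`

`W` a finite set of points of `Fin 4 → ℝ` (sup metric), pairwise distances at most `D`, and
`16 ^ M ≤ #W`.  Then some `w ∈ W` has at least `M` different scales `j` for which there is `w' ∈ W`
with `D / 2 ^ (j+2) ≤ dist w w' ≤ D / 2 ^ j`.
-/

set_option autoImplicit false

namespace Pool.Agent.SZ

/-- One bisection step. -/
lemma tree_cut (N : ℕ) (W : Finset (Fin 4 → ℝ)) (δ : ℝ)
    (hδ : ∀ x ∈ W, ∀ y ∈ W, dist x y ≤ δ) (hne : W.Nonempty) (hc : 16 * N ≤ W.card) :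
    ∃ W' : Finset (Fin 4 → ℝ), W' ⊆ W ∧ N ≤ W'.card ∧ ∀ x ∈ W', ∀ y ∈ W', dist x y ≤ δ / 2 := by
  have hmin : ∀ i : Fin 4, ∃ x ∈ W, ∀ w ∈ W, x i ≤ w i := fun i =>
    Finset.exists_min_image W (fun w => w i) hne
  choose m hm hm' using hmin
  let f : (Fin 4 → ℝ) → (Fin 4 → Bool) := fun w i => decide (w i ≤ m i i + δ / 2)
  have hcard : (Finset.univ : Finset (Fin 4 → Bool)).card = 16 := by decide
  obtain ⟨y, -, hy⟩ := Finset.exists_le_card_fiber_of_mul_le_card_of_maps_to
    (s := W) (t := (Finset.univ : Finset (Fin 4 → Bool))) (f := f) (n := N)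
    (fun a _ => Finset.mem_univ _) Finset.univ_nonempty (by rw [hcard]; exact hc)
  refine ⟨W.filter (fun x => f x = y), Finset.filter_subset _ _, hy, ?_⟩
  intro x hx z hz
  rw [Finset.mem_filter] at hx hz
  have hd0 : 0 ≤ δ := dist_nonneg.trans (hδ x hx.1 z hz.1)
  rw [dist_pi_le_iff (by linarith)]
  intro i
  have hfi : f x i = f z i := by rw [hx.2, hz.2]
  have hx1 : m i i ≤ x i := hm' i x hx.1
  have hz1 : m i i ≤ z i := hm' i z hz.1
  have hx2 : x i ≤ m i i + δ := by
    have h1 := dist_le_pi_dist x (m i) i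
    have h2 := hδ x hx.1 (m i) (hm i)
    rw [Real.dist_eq] at h1
    have h3 := le_abs_self (x i - m i i)
    linarith
  have hz2 : z i ≤ m i i + δ := by
    have h1 := dist_le_pi_dist z (m i) i
    have h2 := hδ z hz.1 (m i) (hm i)
    rw [Real.dist_eq] at h1
    have h3 := le_abs_self (z i - m i i)
    linarith
  rw [Real.dist_eq, abs_le]
  by_cases h : x i ≤ m i i + δ / 2
  · have h' : z i ≤ m i i + δ / 2 := by
      have e1 : f x i = true := decide_eq_true h
      have e2 : f z i = true := by rw [← hfi, e1]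
      exact of_decide_eq_true e2
    constructor <;> linarith
  · have h' : ¬ z i ≤ m i i + δ / 2 := by
      intro h'
      have e1 : f z i = true := decide_eq_true h'
      have e2 : f x i = true := by rw [hfi, e1]
      exact h (of_decide_eq_true e2)
    push Not at h h'
    constructor <;> linarith

theorem tree (M : ℕ) : ∀ (D : ℝ), 0 < D → ∀ W : Finset (Fin 4 → ℝ),
    (∀ x ∈ W, ∀ y ∈ W, dist x y ≤ D) → 16 ^ M ≤ W.card →
    ∃ w ∈ W, ∃ J : Finset ℕ, J.card = M ∧ ∀ j ∈ J, ∃ w' ∈ W,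
      D / 2 ^ (j + 2) ≤ dist w w' ∧ dist w w' ≤ D / 2 ^ j := by
  induction M with
  | zero =>
    intro D hD W hW hc
    have h1 : 0 < W.card := by simpa using hc
    obtain ⟨w, hw⟩ := Finset.card_pos.1 h1
    exact ⟨w, hw, ∅, by simp, by simp⟩
  | succ M ih =>
    intro D hD W hW hc
    have hp : 0 < 16 ^ M := by positivity
    have h2 : 1 < W.card := by
      rw [pow_succ] at hc
      omega
    have hne : W.Nonempty := Finset.card_pos.1 (by omega)
    obtain ⟨a, ha, b, hb, hab⟩ := Finset.one_lt_card.1 h2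
    obtain ⟨pq, hpq, hmax⟩ := Finset.exists_max_image (W ×ˢ W) (fun p => dist p.1 p.2)
      ⟨(a, b), Finset.mk_mem_product ha hb⟩
    rw [Finset.mem_product] at hpq
    set δ := dist pq.1 pq.2 with hδd
    have hδ : ∀ x ∈ W, ∀ y ∈ W, dist x y ≤ δ := fun x hx y hy =>
      hmax (x, y) (Finset.mk_mem_product hx hy)
    have hδ0 : 0 < δ := lt_of_lt_of_le (dist_pos.2 hab) (hδ a ha b hb)
    have hδD : δ ≤ D := hW _ hpq.1 _ hpq.2
    obtain ⟨j, hj1, hj2⟩ := exists_nat_pow_near (x := D / δ) (y := 2)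
      ((one_le_div hδ0).2 hδD) (by norm_num)
    have hj1' : δ ≤ D / 2 ^ j := by
      rw [le_div_iff₀ (by positivity)]
      rw [le_div_iff₀ hδ0] at hj1
      linarith
    have hj2' : D / 2 ^ (j + 1) < δ := by
      rw [div_lt_iff₀ (by positivity)]
      rw [div_lt_iff₀ hδ0] at hj2
      linarith
    obtain ⟨W', hW'1, hW'2, hW'3⟩ := tree_cut (16 ^ M) W δ hδ hne (by rw [pow_succ] at hc; omega)
    have hD' : 0 < D / 2 ^ (j + 1) := by positivity
    have hhalf : D / 2 ^ (j + 1) = D / 2 ^ j / 2 := by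
      rw [pow_succ, div_div]
    obtain ⟨w, hw, J', hJc, hJ'⟩ := ih (D / 2 ^ (j + 1)) hD' W'
      (fun x hx y hy => (hW'3 x hx y hy).trans (by rw [hhalf]; linarith)) hW'2
    refine ⟨w, hW'1 hw, insert j (J'.map (addRightEmbedding (j + 1))), ?_, ?_⟩
    · rw [Finset.card_insert_of_notMem, Finset.card_map, hJc]
      rw [Finset.mem_map]
      rintro ⟨i, -, hi⟩
      rw [addRightEmbedding_apply] at hi
      omega
    · intro i hi
      rw [Finset.mem_insert, Finset.mem_map] at hi
      rcases hi with rfl | ⟨i', hi', rfl⟩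
      · have hq : D / 2 ^ (i + 2) < δ / 2 := by
          have e : D / 2 ^ (i + 2) = D / 2 ^ (i + 1) / 2 := by
            rw [pow_succ _ (i + 1), div_div]
          rw [e]; linarith
        have htri : δ ≤ dist w pq.1 + dist w pq.2 := by
          rw [hδd, dist_comm w pq.1]; exact dist_triangle _ _ _
        by_cases hc1 : δ / 2 ≤ dist w pq.1
        · exact ⟨pq.1, hpq.1, by linarith, (hδ _ (hW'1 hw) _ hpq.1).trans hj1'⟩
        · exact ⟨pq.2, hpq.2, by linarith, (hδ _ (hW'1 hw) _ hpq.2).trans hj1'⟩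
      · obtain ⟨w', hw', h1, h2⟩ := hJ' i' hi'
        refine ⟨w', hW'1 hw', ?_, ?_⟩
        · rw [addRightEmbedding_apply]
          have e : D / 2 ^ (i' + (j + 1) + 2) = D / 2 ^ (j + 1) / 2 ^ (i' + 2) := by
            rw [div_div, ← pow_add]; congr 2; ring
          rw [e]; exact h1
        · rw [addRightEmbedding_apply]
          have e : D / 2 ^ (i' + (j + 1)) = D / 2 ^ (j + 1) / 2 ^ i' := by
            rw [div_div, ← pow_add]; congr 2; ring
          rw [e]; exact h2

end Pool.Agent.SZ
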